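import Mathlib

/-!
Barycenters of measures on compact convex sets, and the barycentric formula for affine functions of
the first Baire class.
-/

namespace Pool.Agent.X203.BaireAff

open MeasureTheory Set Filter Topology

variable {V : Type*} [AddCommGroup V] [Module ℝ V] [TopologicalSpace V] [IsTopologicalAddGroup V]
  [ContinuousSMul ℝ V] [LocallyConvexSpace ℝ V] [T2Space V]

/-- affine map on a (convex) set -/
def AffOn {V : Type*} [AddCommGroup V] [Module ℝ V] (X : Set V) {E : Type*} [AddCommGroup E]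
    [Module ℝ E] (f : X → E) : Prop :=
  ∀ (x y z : X) (t : ℝ), 0 ≤ t → t ≤ 1 → (z : V) = t • (x : V) + (1 - t) • (y : V) →
    f z = t • f x + (1 - t) • f y

omit [TopologicalSpace V] [IsTopologicalAddGroup V] [ContinuousSMul ℝ V] [LocallyConvexSpace ℝ V]
  [T2Space V] in
theorem AffOn.map_sum {X : Set V} (hconv : Convex ℝ X) {h : X → ℝ} (haff : AffOn X h)
    {ι : Type*} [Fintype ι] (w : ι → ℝ) (hw : ∀ i, 0 ≤ w i) (hw1 : ∑ i, w i = 1) (z : ι → X)
    (u : X) (hu : (u : V) = ∑ i, w i • (z i : V)) : h u = ∑ i, w i * h (z i) := by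
  classical
  let hV : V → ℝ := fun v => if hv : v ∈ X then h ⟨v, hv⟩ else 0
  have hval : ∀ x : X, hV x = h x := fun x => by simp [hV]
  have key : ∀ ⦃x⦄, x ∈ X → ∀ ⦃y⦄, y ∈ X → ∀ ⦃a b : ℝ⦄, 0 ≤ a → 0 ≤ b → a + b = 1 →
      hV (a • x + b • y) = a • hV x + b • hV y := by
    intro x hx y hy a b ha hb hab
    have hb' : b = 1 - a := by linarith
    subst hb'
    have hz : a • x + (1 - a) • y ∈ X := hconv hx hy ha hb hab
    have := haff ⟨x, hx⟩ ⟨y, hy⟩ ⟨_, hz⟩ a ha (by linarith) rfl
    rw [← hval, ← hval, ← hval] at this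
    exact this
  have hcx : ConvexOn ℝ X hV := ⟨hconv, fun x hx y hy a b ha hb hab => (key hx hy ha hb hab).le⟩
  have hcc : ConcaveOn ℝ X hV := ⟨hconv, fun x hx y hy a b ha hb hab => (key hx hy ha hb hab).ge⟩
  have h1 := hcx.map_sum_le (t := Finset.univ) (w := w) (p := fun i => (z i : V))
    (fun i _ => hw i) hw1 (fun i _ => (z i).2)
  have h2 := hcc.le_map_sum (t := Finset.univ) (w := w) (p := fun i => (z i : V))
    (fun i _ => hw i) hw1 (fun i _ => (z i).2)
  rw [← hu, hval] at h1 h2
  simp only [hval, smul_eq_mul] at h1 h2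
  exact le_antisymm h1 h2

/-- continuous linear functionals separate points -/
theorem eq_of_forall {a b : V} (h : ∀ l : V →L[ℝ] ℝ, l a = l b) : a = b := by
  by_contra hne
  obtain ⟨l, hl⟩ := geometric_hahn_banach_point_point hne
  exact (hl.ne (h l)).elim

theorem cont_integrable {X : Set V} (hc : IsCompact X) [MeasurableSpace X] [BorelSpace X]
    (ρ : Measure X) [IsFiniteMeasure ρ] {E : Type*} [NormedAddCommGroup E] {g : X → E}
    (hg : Continuous g) : Integrable g ρ := by
  haveI : CompactSpace X := isCompact_iff_compactSpace.mp hc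
  exact hg.integrable_of_hasCompactSupport (HasCompactSupport.of_compactSpace _)

/-- Existence of barycenters. -/
theorem exists_bary {X : Set V} (hc : IsCompact X) (hconv : Convex ℝ X) [MeasurableSpace X]
    [BorelSpace X] (ρ : Measure X) [IsFiniteMeasure ρ] (hρ : ρ ≠ 0) :
    ∃ b : X, ∀ l : V →L[ℝ] ℝ, ∫ x : X, l x ∂ρ = ρ.real univ * l b := by
  haveI : CompactSpace X := isCompact_iff_compactSpace.mp hc
  haveI : NeZero ρ := ⟨hρ⟩
  have hm : ρ.real univ ≠ 0 := by
    rw [measureReal_def]
    exact ENNReal.toReal_ne_zero.mpr ⟨by simpa using hρ, measure_ne_top _ _⟩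
  have hfin : ∀ u : Finset (V →L[ℝ] ℝ),
      (univ ∩ ⋂ l ∈ u, {b : X | ∫ x : X, l x ∂ρ = ρ.real univ * l b}).Nonempty := by
    intro u
    let L : V →L[ℝ] (u → ℝ) := ContinuousLinearMap.pi (fun i => (i : V →L[ℝ] ℝ))
    have hK : IsCompact (L '' X) := hc.image L.continuous
    have hKc : Convex ℝ (L '' X) := hconv.linear_image L.toLinearMap
    have hint : Integrable (fun x : X => L x) ρ :=
      cont_integrable hc ρ (L.continuous.comp continuous_subtype_val)
    have hav := hKc.average_mem (μ := ρ) hK.isClosed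
      (Eventually.of_forall (fun x : X => mem_image_of_mem L x.2)) hint
    obtain ⟨b, hbX, hb⟩ := hav
    refine ⟨⟨b, hbX⟩, mem_univ _, ?_⟩
    simp only [mem_iInter, mem_setOf_eq]
    intro l hl
    have h1 : L b ⟨l, hl⟩ = (⨍ x : X, L x ∂ρ) ⟨l, hl⟩ := by rw [hb]
    rw [average_eq] at h1
    have h2 : (∫ x : X, L x ∂ρ) ⟨l, hl⟩ = ∫ x : X, l x ∂ρ := by
      have := (ContinuousLinearMap.proj (R := ℝ) (φ := fun _ : u => ℝ) ⟨l, hl⟩).integral_comp_comm hint
      simpa [L] using this.symm
    rw [Pi.smul_apply, h2, smul_eq_mul] at h1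
    have h3 : L b ⟨l, hl⟩ = l b := rfl
    rw [h3] at h1
    rw [h1]
    field_simp
  obtain ⟨b, _, hb⟩ := isCompact_univ.inter_iInter_nonempty
    (fun l : V →L[ℝ] ℝ => {b : X | ∫ x : X, l x ∂ρ = ρ.real univ * l b})
    (fun l => isClosed_eq continuous_const
      (continuous_const.mul (l.continuous.comp continuous_subtype_val))) hfin
  exact ⟨b, fun l => by simpa using mem_iInter.mp hb l⟩

/-- Barycenters lie in closed convex carriers. -/
theorem bary_mem {X : Set V} (hc : IsCompact X) [MeasurableSpace X]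
    [BorelSpace X] (ρ : Measure X) [IsFiniteMeasure ρ] (hρ : ρ ≠ 0) {C : Set V}
    (hC : IsClosed C) (hCc : Convex ℝ C) (hmem : ∀ᵐ x : X ∂ρ, (x : V) ∈ C) {b : V}
    (hb : ∀ l : V →L[ℝ] ℝ, ∫ x : X, l x ∂ρ = ρ.real univ * l b) : b ∈ C := by
  by_contra hnot
  have hm : 0 < ρ.real univ := by
    rw [measureReal_def]
    exact ENNReal.toReal_pos (by simpa using hρ) (measure_ne_top _ _)
  obtain ⟨l, u, h1, h2⟩ := geometric_hahn_banach_closed_point hCc hC hnot
  have h3 : ∫ x : X, l x ∂ρ ≤ ∫ _ : X, u ∂ρ := by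
    apply integral_mono_ae (cont_integrable hc ρ (l.continuous.comp continuous_subtype_val))
      (integrable_const _)
    filter_upwards [hmem] with x hx
    exact (h1 x hx).le
  rw [hb l, integral_const, smul_eq_mul] at h3
  nlinarith

theorem hasSum_real {α : Type*} [MeasurableSpace α] (ν : Measure α) [IsFiniteMeasure ν]
    {f : ℕ → Set α} (hf : ∀ i, MeasurableSet (f i)) (hdisj : Pairwise (Function.onFun Disjoint f)) :
    HasSum (fun i => ν.real (f i)) (ν.real (⋃ i, f i)) := by
  have h := (ν.toSignedMeasure).m_iUnion hf hdisj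
  have h1 : ∀ i, ν.toSignedMeasure (f i) = ν.real (f i) := fun i =>
    Measure.toSignedMeasure_apply_measurable (hf i)
  have h2 : ν.toSignedMeasure (⋃ i, f i) = ν.real (⋃ i, f i) :=
    Measure.toSignedMeasure_apply_measurable (MeasurableSet.iUnion hf)
  simp only [h1, h2] at h
  exact h

/-- A bounded finitely additive set function is a signed measure. -/
theorem exists_signed {α : Type*} [MeasurableSpace α] (ν : Measure α) [IsFiniteMeasure ν]
    (s : Set α → ℝ) (C : ℝ)
    (hadd : ∀ A B : Set α, MeasurableSet A → MeasurableSet B → Disjoint A B →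
      s (A ∪ B) = s A + s B)
    (hbd : ∀ A : Set α, MeasurableSet A → |s A| ≤ C * ν.real A) :
    ∃ S : SignedMeasure α, ∀ A : Set α, MeasurableSet A → S A = s A := by
  classical
  have h0 : s ∅ = 0 := by
    have := hbd ∅ MeasurableSet.empty
    rw [measureReal_empty, mul_zero] at this
    exact abs_nonpos_iff.mp this
  refine ⟨⟨fun A => if MeasurableSet A then s A else 0, by simp [h0], fun A hA => by simp [hA],
    ?_⟩, fun A hA => by
      show (if MeasurableSet A then s A else 0) = s A
      simp [hA]⟩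
  intro f hf hdisj
  have hU : MeasurableSet (⋃ i, f i) := MeasurableSet.iUnion hf
  simp only [hf, hU, if_true]
  -- summability
  have hsum : Summable fun i => ν.real (f i) := by
    exact (hasSum_real ν hf hdisj).summable
  have hs : Summable fun i => s (f i) := by
    apply Summable.of_norm_bounded (hsum.mul_left C)
    intro i
    exact hbd _ (hf i)
  rw [hs.hasSum_iff_tendsto_nat]
  -- partial sums
  have hpart : ∀ n : ℕ, ∑ i ∈ Finset.range n, s (f i) = s (⋃ i ∈ Finset.range n, f i) := by
    intro n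
    induction n with
    | zero => simp [h0]
    | succ n ih =>
      rw [Finset.sum_range_succ, ih]
      have e : (⋃ i ∈ Finset.range (n + 1), f i) = (⋃ i ∈ Finset.range n, f i) ∪ f n := by
        ext x
        simp only [Finset.mem_range, mem_iUnion, mem_union]
        constructor
        · rintro ⟨i, hi, hx⟩
          rcases Nat.lt_succ_iff_lt_or_eq.mp hi with h | h
          · exact Or.inl ⟨i, h, hx⟩
          · exact Or.inr (h ▸ hx)
        · rintro (⟨i, hi, hx⟩ | hx)
          · exact ⟨i, by omega, hx⟩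
          · exact ⟨n, by omega, hx⟩
      rw [e, hadd _ _ (Finset.measurableSet_biUnion _ (fun i _ => hf i)) (hf n)]
      rw [Set.disjoint_left]
      intro x hx hxn
      simp only [Finset.mem_range, mem_iUnion] at hx
      obtain ⟨i, hi, hxi⟩ := hx
      exact Set.disjoint_left.mp (hdisj (ne_of_lt hi)) hxi hxn
  have htail : ∀ n : ℕ, |s (⋃ i, f i) - ∑ i ∈ Finset.range n, s (f i)|
      ≤ C * (ν.real (⋃ i, f i) - ∑ i ∈ Finset.range n, ν.real (f i)) := by
    intro n
    have hP : MeasurableSet (⋃ i ∈ Finset.range n, f i) :=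
      Finset.measurableSet_biUnion _ (fun i _ => hf i)
    have hsub : (⋃ i ∈ Finset.range n, f i) ⊆ ⋃ i, f i := by
      intro x hx
      simp only [Finset.mem_range, mem_iUnion] at hx ⊢
      obtain ⟨i, _, hxi⟩ := hx
      exact ⟨i, hxi⟩
    have hdec := hadd (⋃ i ∈ Finset.range n, f i) ((⋃ i, f i) \ (⋃ i ∈ Finset.range n, f i)) hP
      (hU.diff hP) disjoint_sdiff_self_right
    rw [union_diff_cancel hsub] at hdec
    have hreal : ν.real ((⋃ i, f i) \ (⋃ i ∈ Finset.range n, f i))
        = ν.real (⋃ i, f i) - ∑ i ∈ Finset.range n, ν.real (f i) := by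
      rw [measureReal_diff hsub hP]
      congr 1
      exact measureReal_biUnion_finset (fun i _ j _ hij => hdisj hij) (fun i _ => hf i)
    rw [hpart n, hdec, add_sub_cancel_left, ← hreal]
    exact hbd _ (hU.diff hP)
  have hlim : Tendsto (fun n => C * (ν.real (⋃ i, f i) - ∑ i ∈ Finset.range n, ν.real (f i)))
      atTop (𝓝 0) := by
    have h1 := (hasSum_real ν hf hdisj).tendsto_sum_nat
    have h2 := (tendsto_const_nhds (x := ν.real (⋃ i, f i))).sub h1
    have h3 := h2.const_mul C
    simpa using h3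
  have hz : Tendsto (fun n => s (⋃ i, f i) - ∑ i ∈ Finset.range n, s (f i)) atTop (𝓝 0) :=
    squeeze_zero_norm htail hlim
  have := (tendsto_const_nhds (x := s (⋃ i, f i))).sub hz
  simpa using this

end Pool.Agent.X203.BaireAff
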