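import Mathlib
import Pool.Agent.X203.BaireAffA

/-!
The barycentric formula for affine functions of the first Baire class.
-/

namespace Pool.Agent.X203.BaireAff

open MeasureTheory Set Filter Topology

variable {V : Type*} [AddCommGroup V] [Module ℝ V] [TopologicalSpace V] [IsTopologicalAddGroup V]
  [ContinuousSMul ℝ V] [LocallyConvexSpace ℝ V] [T2Space V]

section Half

variable {X : Set V} (hc : IsCompact X) (hconv : Convex ℝ X) [MeasurableSpace X] [BorelSpace X]
  (ν : Measure X) [IsFiniteMeasure ν]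

open Classical in
/-- a barycenter of `ν` restricted to `A` -/
noncomputable def bA (b₀ : X) (A : Set X) : X :=
  if hA : ν.restrict A ≠ 0 then (exists_bary hc hconv (ν.restrict A) hA).choose else b₀

theorem bA_spec (b₀ : X) (A : Set X) (l : V →L[ℝ] ℝ) :
    ∫ x in A, l (x : V) ∂ν = ν.real A * l (bA hc hconv ν b₀ A) := by
  unfold bA
  split_ifs with hA
  · have := (exists_bary hc hconv (ν.restrict A) hA).choose_spec l
    have h2 : (ν.restrict A).real univ = ν.real A := measureReal_restrict_apply_univ _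
    exact this.trans (congrArg (fun r => r * l ↑(exists_bary hc hconv (ν.restrict A) hA).choose) h2)
  · push Not at hA
    rw [hA, integral_zero_measure]
    have : ν.real A = 0 := by
      rw [← measureReal_restrict_apply_univ, hA]
      simp
    rw [this, zero_mul]

theorem bA_mem (b₀ : X) {A : Set X} (hA : ν A ≠ 0) {C : Set V} (hC : IsClosed C)
    (hCc : Convex ℝ C) (hAm : MeasurableSet A) (hmem : ∀ x ∈ A, (x : V) ∈ C) :
    (bA hc hconv ν b₀ A : V) ∈ C := by
  have hA' : ν.restrict A ≠ 0 := by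
    intro h
    exact hA (Measure.restrict_eq_zero.mp h)
  refine bary_mem hc (ν.restrict A) hA' hC hCc ?_ (b := bA hc hconv ν b₀ A) ?_
  · exact (ae_restrict_iff' hAm).mpr (Eventually.of_forall hmem)
  · intro l
    rw [measureReal_restrict_apply_univ]
    exact bA_spec hc hconv ν b₀ A l

theorem w_add (b₀ : X) {h : X → ℝ} (haff : AffOn X h) {A B : Set X}
    (hB : MeasurableSet B) (hAB : Disjoint A B) :
    ν.real (A ∪ B) * h (bA hc hconv ν b₀ (A ∪ B))
      = ν.real A * h (bA hc hconv ν b₀ A) + ν.real B * h (bA hc hconv ν b₀ B) := by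
  have hm : ν.real (A ∪ B) = ν.real A + ν.real B := measureReal_union hAB hB
  have ha : 0 ≤ ν.real A := measureReal_nonneg
  have hb : 0 ≤ ν.real B := measureReal_nonneg
  rcases (add_nonneg ha hb).eq_or_lt with h0 | hpos
  · have ha0 : ν.real A = 0 := by linarith
    have hb0 : ν.real B = 0 := by linarith
    rw [hm, ha0, hb0]; ring
  · set t := ν.real A / (ν.real A + ν.real B) with ht
    have ht0 : 0 ≤ t := by positivity
    have ht1 : t ≤ 1 := by rw [ht, div_le_one hpos]; linarith
    have hz : (bA hc hconv ν b₀ (A ∪ B) : V)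
        = t • (bA hc hconv ν b₀ A : V) + (1 - t) • (bA hc hconv ν b₀ B : V) := by
      apply eq_of_forall
      intro l
      have e1 := bA_spec hc hconv ν b₀ (A ∪ B) l
      have e2 := bA_spec hc hconv ν b₀ A l
      have e3 := bA_spec hc hconv ν b₀ B l
      have hint : Integrable (fun x : X => l (x : V)) ν :=
        cont_integrable hc ν (l.continuous.comp continuous_subtype_val)
      rw [setIntegral_union hAB hB hint.integrableOn hint.integrableOn, e2, e3, hm] at e1
      rw [map_add, map_smul, map_smul, smul_eq_mul, smul_eq_mul]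
      have h1t : 1 - t = ν.real B / (ν.real A + ν.real B) := by rw [ht]; field_simp; ring
      rw [h1t, ht]
      field_simp
      linarith
    have := haff _ _ _ t ht0 ht1 hz
    rw [this, hm, smul_eq_mul, smul_eq_mul]
    have h1t : 1 - t = ν.real B / (ν.real A + ν.real B) := by rw [ht]; field_simp; ring
    rw [h1t, ht]
    field_simp

include hc hconv in
/-- Half of the barycentric formula. -/
theorem half [ν.Regular] {h : X → ℝ} (haff : AffOn X h) {hk : ℕ → X → ℝ}
    (hcont : ∀ k, Continuous (hk k)) {M : ℝ} (hM : ∀ k x, |hk k x| ≤ M)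
    (hlim : ∀ x, Tendsto (fun k => hk k x) atTop (𝓝 (h x))) (b : X)
    (hb : ∀ l : V →L[ℝ] ℝ, ∫ x : X, l x ∂ν = ν.real univ * l b) :
    ∫ x, h x ∂ν ≤ ν.real univ * h b := by
  by_contra hcon
  push Not at hcon
  haveI : CompactSpace X := isCompact_iff_compactSpace.mp hc
  have hM0 : 0 ≤ M := (abs_nonneg _).trans (hM 0 b)
  have hhM : ∀ x, |h x| ≤ M := fun x =>
    le_of_tendsto ((continuous_abs.tendsto _).comp (hlim x)) (Eventually.of_forall fun k => hM k x)
  -- measurability, integrability of `h`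
  have hmeas : Measurable h := measurable_of_tendsto_metrizable
    (fun k => (hcont k).measurable) (tendsto_pi_nhds.mpr hlim)
  have hint : Integrable h ν :=
    Integrable.mono' (integrable_const M) hmeas.aestronglyMeasurable
      (Eventually.of_forall fun x => by rw [Real.norm_eq_abs]; exact hhM x)
  set D := ∫ x, h x ∂ν - ν.real univ * h b with hD
  have hDpos : 0 < D := by rw [hD]; linarith
  set m := ν.real univ with hm
  have hm0 : 0 ≤ m := measureReal_nonneg
  set ε := D / (2 * (m + 1)) with hε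
  have hεpos : 0 < ε := by positivity
  set β := bA hc hconv ν b with hβ
  let s : Set X → ℝ := fun A => ∫ x in A, h x ∂ν - ν.real A * h (β A) - ε * ν.real A
  obtain ⟨S, hS⟩ := exists_signed ν s (2 * M + ε) (by
      intro A B hA hB hAB
      show ∫ x in A ∪ B, h x ∂ν - ν.real (A ∪ B) * h (β (A ∪ B)) - ε * ν.real (A ∪ B) = _
      rw [setIntegral_union hAB hB hint.integrableOn hint.integrableOn,
        w_add hc hconv ν b haff hB hAB, measureReal_union hAB hB]
      show _ = (∫ x in A, h x ∂ν - ν.real A * h (β A) - ε * ν.real A)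
        + (∫ x in B, h x ∂ν - ν.real B * h (β B) - ε * ν.real B)
      ring)
    (by
      intro A hA
      have ha : 0 ≤ ν.real A := measureReal_nonneg
      have h1 : |∫ x in A, h x ∂ν| ≤ M * ν.real A := by
        have := norm_setIntegral_le_of_norm_le_const (μ := ν) (s := A) (f := h) (C := M)
          (measure_lt_top _ _) (fun x _ => by rw [Real.norm_eq_abs]; exact hhM x)
        rw [Real.norm_eq_abs] at this
        exact this
      have h2 : |ν.real A * h (β A)| ≤ M * ν.real A := by
        rw [abs_mul, abs_of_nonneg ha, mul_comm]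
        exact mul_le_mul_of_nonneg_right (hhM _) ha
      have h3 : |ε * ν.real A| = ε * ν.real A := abs_of_nonneg (by positivity)
      show |∫ x in A, h x ∂ν - ν.real A * h (β A) - ε * ν.real A| ≤ _
      have h4 := abs_sub (∫ x in A, h x ∂ν - ν.real A * h (β A)) (ε * ν.real A)
      have h5 := abs_sub (∫ x in A, h x ∂ν) (ν.real A * h (β A))
      rw [h3] at h4
      linarith)
  obtain ⟨P, hPm, hP1, hP2⟩ := SignedMeasure.exists_compl_positive_negative S
  have hSP : ∀ A ⊆ P, MeasurableSet A → 0 ≤ s A := by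
    intro A hA hAm
    rw [← hS A hAm]
    have := VectorMeasure.subset_le_of_restrict_le_restrict _ _ hPm hP1 hA
    simpa using this
  have hSPc : s Pᶜ ≤ 0 := by
    rw [← hS _ hPm.compl]
    have := VectorMeasure.subset_le_of_restrict_le_restrict _ _ hPm.compl hP2 (Subset.refl _)
    simpa using this
  have hβuniv : (β univ : V) = b := by
    by_cases h0 : m = 0
    · have : ν = 0 := by
        rw [hm, measureReal_def, ENNReal.toReal_eq_zero_iff] at h0
        rcases h0 with h | h
        · exact Measure.measure_univ_eq_zero.mp h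
        · exact absurd h (measure_ne_top _ _)
      rw [hβ]
      unfold bA
      rw [dif_neg (by simp [this])]
    · apply eq_of_forall
      intro l
      have e1 := bA_spec hc hconv ν b univ l
      rw [Measure.restrict_univ, hb l] at e1
      exact (mul_left_cancel₀ h0 e1).symm
  have hβuniv' : β univ = b := Subtype.ext hβuniv
  have hsuniv : 0 < s univ := by
    show 0 < ∫ x in univ, h x ∂ν - ν.real univ * h (β univ) - ε * ν.real univ
    rw [Measure.restrict_univ, hβuniv', ← hm, ← hD]
    have : ε * m < D := by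
      rw [hε, div_mul_eq_mul_div, div_lt_iff₀ (by positivity)]
      nlinarith
    linarith
  have hsP : 0 < s P := by
    have h1 : s univ = s P + s Pᶜ := by
      rw [← hS univ MeasurableSet.univ, ← hS P hPm, ← hS _ hPm.compl,
        ← VectorMeasure.of_union disjoint_compl_right hPm hPm.compl, union_compl_self]
    linarith
  have hνP : ν P ≠ 0 := by
    intro h0
    have hr : ν.real P = 0 := by rw [measureReal_def, h0]; rfl
    have : s P = 0 := by
      show ∫ x in P, h x ∂ν - ν.real P * h (β P) - ε * ν.real P = 0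
      rw [hr, setIntegral_measure_zero _ h0]
      ring
    linarith
  -- compact subset of positive measure
  obtain ⟨K, hKP, hKc, hK0⟩ := hPm.exists_lt_isCompact_of_ne_top (measure_ne_top ν P)
    (pos_iff_ne_zero.mpr hνP)
  have hKm : MeasurableSet K := hKc.measurableSet
  -- its support
  let Q : Set X := {x | x ∈ K ∧ ∀ U : Set X, IsOpen U → x ∈ U → ν (U ∩ K) ≠ 0}
  have hQK : Q ⊆ K := fun x hx => hx.1
  have hQcl : IsClosed Q := by
    rw [← isOpen_compl_iff, isOpen_iff_forall_mem_open]
    intro x hx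
    by_cases hxK : x ∈ K
    · have : ∃ U : Set X, IsOpen U ∧ x ∈ U ∧ ν (U ∩ K) = 0 := by
        by_contra hno
        push Not at hno
        exact hx ⟨hxK, fun U hU hxU => hno U hU hxU⟩
      obtain ⟨U, hU, hxU, hU0⟩ := this
      exact ⟨U, fun y hy hyQ => hyQ.2 U hU hy hU0, hU, hxU⟩
    · exact ⟨Kᶜ, fun y hy hyQ => hy hyQ.1, hKc.isClosed.isOpen_compl, hxK⟩
  have hQm : MeasurableSet Q := hQcl.measurableSet
  have hKQ : ν (K \ Q) = 0 := by
    by_contra h0
    obtain ⟨C, hCK, hCc, hC0⟩ := (hKm.diff hQm).exists_lt_isCompact_of_ne_top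
      (measure_ne_top ν _) (pos_iff_ne_zero.mpr h0)
    have : ν C = 0 := by
      apply hCc.measure_zero_of_nhdsWithin
      intro x hx
      have hxK : x ∈ K := (hCK hx).1
      have hxQ : x ∉ Q := (hCK hx).2
      have : ∃ U : Set X, IsOpen U ∧ x ∈ U ∧ ν (U ∩ K) = 0 := by
        by_contra hno
        push Not at hno
        exact hxQ ⟨hxK, fun U hU hxU => hno U hU hxU⟩
      obtain ⟨U, hU, hxU, hU0⟩ := this
      refine ⟨U ∩ K, ?_, hU0⟩
      rw [mem_nhdsWithin]
      exact ⟨U, hU, hxU, fun y hy => ⟨hy.1, (hCK hy.2).1⟩⟩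
    rw [this] at hC0
    exact lt_irrefl _ hC0
  have hQpos : ∀ x ∈ Q, ∀ U : Set X, IsOpen U → x ∈ U → ν (Q ∩ U) ≠ 0 := by
    intro x hx U hU hxU h0
    apply hx.2 U hU hxU
    have hsub : U ∩ K ⊆ (Q ∩ U) ∪ (K \ Q) := by
      intro y hy
      by_cases hyQ : y ∈ Q
      · exact Or.inl ⟨hyQ, hy.1⟩
      · exact Or.inr ⟨hy.2, hyQ⟩
    exact measure_mono_null hsub (measure_union_null h0 hKQ)
  have hQne : Q.Nonempty := by
    by_contra hne
    rw [not_nonempty_iff_eq_empty] at hne
    rw [hne, diff_empty] at hKQ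
    exact hK0.ne' hKQ
  -- the closed convex hull
  let Q' : Set V := Subtype.val '' Q
  let J : Set V := closure (convexHull ℝ Q')
  have hQ'X : Q' ⊆ X := by rintro _ ⟨x, _, rfl⟩; exact x.2
  have hJX : J ⊆ X := closure_minimal (convexHull_min hQ'X hconv) hc.isClosed
  have hJcl : IsClosed J := isClosed_closure
  have hJc : IsCompact J := hc.of_isClosed_subset hJcl hJX
  have hJconv : Convex ℝ J := (convex_convexHull ℝ Q').closure
  have hQJ : ∀ x ∈ Q, (x : V) ∈ J := fun x hx =>
    subset_closure (subset_convexHull ℝ _ ⟨x, hx, rfl⟩)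
  haveI : CompactSpace J := isCompact_iff_compactSpace.mp hJc
  haveI : Nonempty J := by
    obtain ⟨x, hx⟩ := hQne
    exact ⟨⟨x, hQJ x hx⟩⟩
  let ι : J → X := fun x => ⟨x, hJX x.2⟩
  have hιc : Continuous ι := Continuous.subtype_mk continuous_subtype_val _
  let F : ℕ → Set J := fun n => {x | ∀ k ≥ n, ∀ l ≥ n, |hk k (ι x) - hk l (ι x)| ≤ ε / 8}
  have hFcl : ∀ n, IsClosed (F n) := by
    intro n
    have : F n = ⋂ k, ⋂ (_ : k ≥ n), ⋂ l, ⋂ (_ : l ≥ n),
        {x | |hk k (ι x) - hk l (ι x)| ≤ ε / 8} := by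
      ext x; simp [F]
    rw [this]
    refine isClosed_iInter fun k => isClosed_iInter fun _ => isClosed_iInter fun l =>
      isClosed_iInter fun _ => ?_
    exact isClosed_le ((((hcont k).comp hιc).sub ((hcont l).comp hιc)).abs) continuous_const
  have hFU : ⋃ n, F n = univ := by
    rw [eq_univ_iff_forall]
    intro x
    have hca := (hlim (ι x)).cauchySeq
    rw [Metric.cauchySeq_iff] at hca
    obtain ⟨n, hn⟩ := hca (ε / 8) (by positivity)
    refine mem_iUnion.mpr ⟨n, fun k hk' l hl' => ?_⟩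
    have := hn k hk' l hl'
    rw [Real.dist_eq] at this
    exact this.le
  obtain ⟨n, w₀, hw₀⟩ := nonempty_interior_of_iUnion_of_closed hFcl hFU
  let O₁ : Set J := interior (F n) ∩ {x | |hk n (ι x) - hk n (ι w₀)| < ε / 8}
  have hO₁ : IsOpen O₁ := isOpen_interior.inter
    (isOpen_lt ((((hcont n).comp hιc).sub continuous_const).abs) continuous_const)
  have hw₀O : w₀ ∈ O₁ := ⟨hw₀, by
    show |hk n (ι w₀) - hk n (ι w₀)| < ε / 8
    rw [sub_self, abs_zero]; positivity⟩
  have hosc : ∀ x ∈ O₁, |h (ι x) - hk n (ι w₀)| ≤ ε / 4 := by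
    intro x hx
    have h1 : |h (ι x) - hk n (ι x)| ≤ ε / 8 := by
      have ht : Tendsto (fun k => |hk k (ι x) - hk n (ι x)|) atTop (𝓝 |h (ι x) - hk n (ι x)|) :=
        ((hlim (ι x)).sub tendsto_const_nhds).abs
      refine le_of_tendsto ht ?_
      filter_upwards [eventually_ge_atTop n] with k hk'
      exact interior_subset hx.1 k hk' n le_rfl
    have h2 := hx.2
    have h3 : |h (ι x) - hk n (ι w₀)| ≤ |h (ι x) - hk n (ι x)| + |hk n (ι x) - hk n (ι w₀)| :=
      abs_sub_le _ _ _
    have h4 : |hk n (ι x) - hk n (ι w₀)| < ε / 8 := h2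
    linarith
  obtain ⟨O, hO, hOeq⟩ := isOpen_induced_iff.mp hO₁
  have hwO : (w₀ : V) ∈ O := by
    have : w₀ ∈ Subtype.val ⁻¹' O := by rw [hOeq]; exact hw₀O
    exact this
  obtain ⟨y, hyO, hyc⟩ := mem_closure_iff.mp w₀.2 O hO hwO
  obtain ⟨I, _, c, z, hc0, hc1, hz, hy⟩ := mem_convexHull_iff_exists_fintype.mp hyc
  choose z' hz'Q hz'eq using hz
  -- closed convex neighbourhood
  have hOy : (fun v => y + v) ⁻¹' O ∈ 𝓝 (0 : V) := by
    apply (continuous_const.add continuous_id).continuousAt.preimage_mem_nhds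
    simpa using hO.mem_nhds hyO
  obtain ⟨N, ⟨hN0, hNcl, hNabs⟩, hNO⟩ := (nhds_hasBasis_absConvex_closed ℝ V).mem_iff.mp hOy
  have hNconv : Convex ℝ N := hNabs.2
  let A : I → Set X := fun i => Q ∩ {x : X | (x : V) - z i ∈ interior N}
  have hUopen : ∀ i, IsOpen {x : X | (x : V) - z i ∈ interior N} := fun i =>
    isOpen_interior.preimage (continuous_subtype_val.sub continuous_const)
  have hAm : ∀ i, MeasurableSet (A i) := fun i => hQm.inter (hUopen i).measurableSet
  have hA0 : ∀ i, ν (A i) ≠ 0 := by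
    intro i
    apply hQpos (z' i) (hz'Q i) _ (hUopen i)
    show (z' i : V) - z i ∈ interior N
    rw [hz'eq i, sub_self]
    exact mem_interior_iff_mem_nhds.mpr hN0
  have hAP : ∀ i, A i ⊆ P := fun i x hx => hKP (hQK hx.1)
  -- barycenters
  have hβN : ∀ i, (β (A i) : V) - z i ∈ N := by
    intro i
    have hcl : IsClosed {v : V | v - z i ∈ N} :=
      hNcl.preimage (continuous_id.sub continuous_const)
    have hcv : Convex ℝ {v : V | v - z i ∈ N} := by
      have := hNconv.translate_preimage_left (-z i)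
      convert this using 1
      ext v
      simp [sub_eq_add_neg]
    exact bA_mem hc hconv ν b (hA0 i) hcl hcv (hAm i)
      (fun x hx => (interior_subset hx.2 : (x : V) - z i ∈ N))
  have hβJ : ∀ i, (β (A i) : V) ∈ J := fun i =>
    bA_mem hc hconv ν b (hA0 i) hJcl hJconv (hAm i) (fun x hx => hQJ x hx.1)
  -- points above the average
  have hpt : ∀ i, ∃ x ∈ A i, h (β (A i)) + ε ≤ h x := by
    intro i
    obtain ⟨x, hx, hle⟩ := exists_setAverage_le (hA0 i) (measure_ne_top ν _) hint.integrableOn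
    refine ⟨x, hx, le_trans ?_ hle⟩
    have h1 := hSP (A i) (hAP i) (hAm i)
    have h2 : 0 ≤ ∫ x in A i, h x ∂ν - ν.real (A i) * h (β (A i)) - ε * ν.real (A i) := h1
    have hpos : 0 < ν.real (A i) := by
      rw [measureReal_def]
      exact ENNReal.toReal_pos (hA0 i) (measure_ne_top _ _)
    rw [setAverage_eq, smul_eq_mul, ← div_eq_inv_mul, le_div_iff₀ hpos]
    linarith
  choose p hpA hph using hpt
  -- two points of `O ∩ J`
  have hcomb : ∀ q : I → V, (∀ i, q i ∈ J) → (∀ i, q i - z i ∈ N) →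
      ∃ x : J, x ∈ O₁ ∧ (x : V) = ∑ i, c i • q i := by
    intro q hqJ hqN
    have h1 : ∑ i, c i • q i ∈ J :=
      hJconv.sum_mem (fun i _ => hc0 i) hc1 (fun i _ => hqJ i)
    have h2 : ∑ i, c i • (q i - z i) ∈ N :=
      hNconv.sum_mem (fun i _ => hc0 i) hc1 (fun i _ => hqN i)
    have h3 : y + ∑ i, c i • (q i - z i) ∈ O := hNO h2
    have h4 : y + ∑ i, c i • (q i - z i) = ∑ i, c i • q i := by
      rw [← hy]
      simp only [smul_sub, Finset.sum_sub_distrib]
      abel
    rw [h4] at h3
    refine ⟨⟨_, h1⟩, ?_, rfl⟩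
    rw [← hOeq]
    exact h3
  obtain ⟨u₁, hu₁, hu₁eq⟩ := hcomb (fun i => (p i : V)) (fun i => hQJ _ (hpA i).1)
    (fun i => interior_subset (hpA i).2)
  obtain ⟨u₂, hu₂, hu₂eq⟩ := hcomb (fun i => (β (A i) : V)) hβJ hβN
  have e1 : h (ι u₁) = ∑ i, c i * h (p i) := haff.map_sum hconv c hc0 hc1 p (ι u₁) hu₁eq
  have e2 : h (ι u₂) = ∑ i, c i * h (β (A i)) :=
    haff.map_sum hconv c hc0 hc1 (fun i => β (A i)) (ι u₂) hu₂eq
  have e3 : h (ι u₂) + ε ≤ h (ι u₁) := by
    rw [e1, e2]
    have : ∑ i, c i * h (β (A i)) + ε = ∑ i, c i * (h (β (A i)) + ε) := by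
      simp only [mul_add, Finset.sum_add_distrib, ← Finset.sum_mul, hc1, one_mul]
    rw [this]
    exact Finset.sum_le_sum fun i _ => mul_le_mul_of_nonneg_left (hph i) (hc0 i)
  have f1 := hosc u₁ hu₁
  have f2 := hosc u₂ hu₂
  rw [abs_le] at f1 f2
  linarith [f1.1, f1.2, f2.1, f2.2]

include hc hconv in
/-- The barycentric formula. -/
theorem bary_formula [ν.Regular] {h : X → ℝ} (haff : AffOn X h) {hk : ℕ → X → ℝ}
    (hcont : ∀ k, Continuous (hk k)) {M : ℝ} (hM : ∀ k x, |hk k x| ≤ M)
    (hlim : ∀ x, Tendsto (fun k => hk k x) atTop (𝓝 (h x))) (b : X)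
    (hb : ∀ l : V →L[ℝ] ℝ, ∫ x : X, l x ∂ν = ν.real univ * l b) :
    ∫ x, h x ∂ν = ν.real univ * h b := by
  apply le_antisymm (half hc hconv ν haff hcont hM hlim b hb)
  have haff' : AffOn X (fun x => -h x) := by
    intro x y z t ht0 ht1 hz
    have := haff x y z t ht0 ht1 hz
    simp only [smul_eq_mul] at this ⊢
    rw [this]; ring
  have := half hc hconv ν haff' (hk := fun k x => -hk k x) (fun k => (hcont k).neg) (M := M)
    (fun k x => by rw [abs_neg]; exact hM k x) (fun x => (hlim x).neg) b hb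
  rw [integral_neg] at this
  linarith

end Half

end Pool.Agent.X203.BaireAff
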