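import Mathlib
import Pool.Agent.X203.BaireAffB

/-!
Positive functionals, domination, and the scalar case.
-/

namespace Pool.Agent.X203.BaireAff

open MeasureTheory Set Filter Topology
open scoped CompactlySupported

section Gen

variable {X : Type*} [TopologicalSpace X] [CompactSpace X] [T2Space X] [MeasurableSpace X]
  [BorelSpace X]

/-- Riesz representation on a compact space. -/
theorem rmk (L : C(X, ℝ) →ₗ[ℝ] ℝ) (hL : ∀ u : C(X, ℝ), (∀ x, 0 ≤ u x) → 0 ≤ L u) :
    ∃ μ : Measure X, IsFiniteMeasure μ ∧ μ.Regular ∧ ∀ u : C(X, ℝ), L u = ∫ x, u x ∂μ := by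
  let Λ₀ : C_c(X, ℝ) →ₗ[ℝ] ℝ :=
    { toFun := fun f => L f.toContinuousMap
      map_add' := fun f g => by
        have : (f + g).toContinuousMap = f.toContinuousMap + g.toContinuousMap := by ext; rfl
        rw [this, map_add]
      map_smul' := fun c f => by
        have : (c • f).toContinuousMap = c • f.toContinuousMap := by ext; rfl
        rw [this, map_smul]; rfl }
  let Λ : C_c(X, ℝ) →ₚ[ℝ] ℝ := PositiveLinearMap.mk₀ Λ₀ (fun f hf => hL _ (fun x => hf x))
  refine ⟨RealRMK.rieszMeasure Λ, inferInstance, inferInstance, fun u => ?_⟩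
  let f : C_c(X, ℝ) := ⟨u, HasCompactSupport.of_compactSpace _⟩
  have := RealRMK.integral_rieszMeasure Λ f
  exact this.symm

variable {E : Type*} [NormedAddCommGroup E] [NormedSpace ℝ E]

/-- pointwise norm -/
def nm (φ : C(X, E)) : C(X, ℝ) := ⟨fun x => ‖φ x‖, φ.continuous.norm⟩

/-- Every continuous functional on `C(X, E)` is dominated by a positive measure. -/
theorem domination (Θ : C(X, E) →L[ℝ] ℝ) :
    ∃ μ : Measure X, IsFiniteMeasure μ ∧ μ.Regular ∧ ∀ φ : C(X, E), |Θ φ| ≤ ∫ x, ‖φ x‖ ∂μ := by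
  let P : C(X, ℝ) × C(X, E) → C(X, ℝ) := fun z => (z.1 + nm z.2) ⊔ 0
  have hP : ∀ z x, P z x = max (z.1 x + ‖z.2 x‖) 0 := fun z x => rfl
  let N : C(X, ℝ) × C(X, E) → ℝ := fun z => ‖Θ‖ * ‖P z‖
  have N_hom : ∀ c : ℝ, 0 < c → ∀ z, N (c • z) = c * N z := by
    intro c hc z
    have : P (c • z) = c • P z := by
      ext x
      rw [hP, ContinuousMap.smul_apply, hP]
      have h1 : (c • z).1 x + ‖(c • z).2 x‖ = c * (z.1 x + ‖z.2 x‖) := by
        simp [norm_smul, abs_of_pos hc]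
        ring
      rw [h1, smul_eq_mul, mul_max_of_nonneg _ _ hc.le, mul_zero]
    show ‖Θ‖ * ‖P (c • z)‖ = c * (‖Θ‖ * ‖P z‖)
    rw [this, norm_smul, Real.norm_of_nonneg hc.le]
    ring
  have N_add : ∀ z z', N (z + z') ≤ N z + N z' := by
    intro z z'
    show ‖Θ‖ * ‖P (z + z')‖ ≤ ‖Θ‖ * ‖P z‖ + ‖Θ‖ * ‖P z'‖
    rw [← mul_add]
    apply mul_le_mul_of_nonneg_left _ (norm_nonneg _)
    rw [ContinuousMap.norm_le _ (by positivity)]
    intro x
    have h1 : |P z x| ≤ ‖P z‖ := (P z).norm_coe_le_norm x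
    have h2 : |P z' x| ≤ ‖P z'‖ := (P z').norm_coe_le_norm x
    have h3 : P (z + z') x ≤ P z x + P z' x := by
      rw [hP, hP, hP]
      have : (z + z').1 x + ‖(z + z').2 x‖ ≤ (z.1 x + ‖z.2 x‖) + (z'.1 x + ‖z'.2 x‖) := by
        have := norm_add_le (z.2 x) (z'.2 x)
        have e : (z + z').2 x = z.2 x + z'.2 x := rfl
        have e' : (z + z').1 x = z.1 x + z'.1 x := rfl
        rw [e, e']
        linarith
      apply max_le
      · exact this.trans (add_le_add (le_max_left _ _) (le_max_left _ _))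
      · exact add_nonneg (le_max_right _ _) (le_max_right _ _)
    have h4 : 0 ≤ P (z + z') x := by rw [hP]; exact le_max_right _ _
    rw [Real.norm_of_nonneg h4]
    linarith [le_abs_self (P z x), le_abs_self (P z' x)]
  let S : Submodule ℝ (C(X, ℝ) × C(X, E)) := Submodule.prod ⊥ ⊤
  let f : (C(X, ℝ) × C(X, E)) →ₗ.[ℝ] ℝ :=
    ⟨S, ((Θ : C(X, E) →ₗ[ℝ] ℝ).comp (LinearMap.snd ℝ _ _)).domRestrict S⟩
  have hf : ∀ x : f.domain, f x ≤ N x := by
    rintro ⟨z, hz⟩
    have hz1 : z.1 = 0 := by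
      have := hz.1
      simpa using this
    show Θ z.2 ≤ ‖Θ‖ * ‖P z‖
    have h1 : ‖z.2‖ ≤ ‖P z‖ := by
      rw [ContinuousMap.norm_le _ (norm_nonneg _)]
      intro x
      have h2 : P z x = ‖z.2 x‖ := by
        rw [hP, hz1]
        simp
      have h3 := (P z).norm_coe_le_norm x
      rw [h2, norm_norm] at h3
      exact h3
    calc Θ z.2 ≤ |Θ z.2| := le_abs_self _
      _ ≤ ‖Θ‖ * ‖z.2‖ := Θ.le_opNorm _
      _ ≤ ‖Θ‖ * ‖P z‖ := mul_le_mul_of_nonneg_left h1 (norm_nonneg _)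
  obtain ⟨g, hg1, hg2⟩ := exists_extension_of_le_sublinear f N N_hom N_add hf
  have hgΘ : ∀ φ : C(X, E), g (0, φ) = Θ φ := by
    intro φ
    have hmem : ((0 : C(X, ℝ)), φ) ∈ S := ⟨by simp, trivial⟩
    exact hg1 ⟨_, hmem⟩
  let L : C(X, ℝ) →ₗ[ℝ] ℝ := g.comp (LinearMap.inl ℝ _ _)
  have hLpos : ∀ u : C(X, ℝ), (∀ x, 0 ≤ u x) → 0 ≤ L u := by
    intro u hu
    have h1 := hg2 (-u, 0)
    have h2 : P (-u, 0) = 0 := by
      ext x
      rw [hP]
      have : (-u, (0 : C(X, E))).1 x + ‖(-u, (0 : C(X, E))).2 x‖ = - u x := by simp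
      rw [this, max_eq_right (by linarith [hu x])]
      rfl
    have h3 : N (-u, 0) = 0 := by
      show ‖Θ‖ * ‖P (-u, 0)‖ = 0
      rw [h2, norm_zero, mul_zero]
    rw [h3] at h1
    have h4 : g (-u, 0) = - L u := by
      have : ((-u, 0) : C(X, ℝ) × C(X, E)) = -(u, 0) := by simp
      rw [this, map_neg]
      rfl
    linarith
  have hdom : ∀ φ : C(X, E), Θ φ ≤ L (nm φ) := by
    intro φ
    have h1 := hg2 (-nm φ, φ)
    have h2 : P (-nm φ, φ) = 0 := by
      ext x
      rw [hP]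
      have : (-nm φ, φ).1 x + ‖(-nm φ, φ).2 x‖ = 0 := by
        show - ‖φ x‖ + ‖φ x‖ = 0
        ring
      rw [this, max_self]
      rfl
    have h3 : N (-nm φ, φ) = 0 := by
      show ‖Θ‖ * ‖P (-nm φ, φ)‖ = 0
      rw [h2, norm_zero, mul_zero]
    rw [h3] at h1
    have h4 : g (-nm φ, φ) = Θ φ - L (nm φ) := by
      have : ((-nm φ, φ) : C(X, ℝ) × C(X, E)) = (0, φ) - (nm φ, 0) := by simp
      rw [this, map_sub, hgΘ]
      rfl
    linarith
  obtain ⟨μ, h1, h2, h3⟩ := rmk L hLpos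
  refine ⟨μ, h1, h2, fun φ => ?_⟩
  have e : L (nm φ) = ∫ x, ‖φ x‖ ∂μ := h3 (nm φ)
  rw [← e, abs_le]
  refine ⟨?_, hdom φ⟩
  have h5 := hdom (-φ)
  have h6 : nm (-φ) = nm φ := by
    ext x
    show ‖(-φ) x‖ = ‖φ x‖
    simp
  rw [h6, map_neg] at h5
  linarith

end Gen

variable {V : Type*} [AddCommGroup V] [Module ℝ V] [TopologicalSpace V] [IsTopologicalAddGroup V]
  [ContinuousSMul ℝ V] [LocallyConvexSpace ℝ V] [T2Space V]

/-- The scalar case: functionals vanishing on the continuous affine functions vanish in the limit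
on bounded sequences converging to an affine function. -/
theorem scalar_lemma {X : Set V} (hc : IsCompact X) (hconv : Convex ℝ X) [MeasurableSpace X]
    [BorelSpace X] [CompactSpace X] (σ : C(X, ℝ) →ₗ[ℝ] ℝ) (Cσ : ℝ) (hbd : ∀ u, |σ u| ≤ Cσ * ‖u‖)
    (hσ : ∀ a : C(X, ℝ), AffOn X a → σ a = 0)
    {h : X → ℝ} (haff : AffOn X h) (hk : ℕ → C(X, ℝ)) {M : ℝ} (hM : ∀ k x, |hk k x| ≤ M)
    (hlim : ∀ x, Tendsto (fun k => hk k x) atTop (𝓝 (h x))) :
    Tendsto (fun k => σ (hk k)) atTop (𝓝 0) := by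
  let σ' : C(X, ℝ) →L[ℝ] ℝ := σ.mkContinuous Cσ (fun u => by
    rw [Real.norm_eq_abs]; exact hbd u)
  obtain ⟨μ, hfin, hreg, hdom⟩ := domination σ'
  have hσσ : ∀ u, σ' u = σ u := fun u => rfl
  have hint : ∀ u : C(X, ℝ), Integrable u μ := fun u => cont_integrable hc μ u.continuous
  let L₁ : C(X, ℝ) →ₗ[ℝ] ℝ :=
    { toFun := fun u => ∫ x, u x ∂μ + σ u
      map_add' := fun u v => by
        have : ∫ x, (u + v) x ∂μ = ∫ x, u x ∂μ + ∫ x, v x ∂μ := integral_add (hint u) (hint v)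
        rw [this, map_add]; ring
      map_smul' := fun c u => by
        have : ∫ x, (c • u) x ∂μ = c * ∫ x, u x ∂μ := by
          simp only [ContinuousMap.smul_apply, smul_eq_mul]
          exact integral_const_mul _ _
        rw [this, map_smul]
        simp only [smul_eq_mul, RingHom.id_apply]
        ring }
  have hL₁ : ∀ u : C(X, ℝ), (∀ x, 0 ≤ u x) → 0 ≤ L₁ u := by
    intro u hu
    have h1 := hdom u
    have h2 : ∫ x, ‖u x‖ ∂μ = ∫ x, u x ∂μ := by
      apply integral_congr_ae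
      exact Eventually.of_forall fun x => Real.norm_of_nonneg (hu x)
    rw [h2, hσσ] at h1
    have := neg_le_of_abs_le h1
    show 0 ≤ ∫ x, u x ∂μ + σ u
    linarith
  obtain ⟨μ₁, hfin₁, hreg₁, hrep⟩ := rmk L₁ hL₁
  have hrep' : ∀ u : C(X, ℝ), σ u = ∫ x, u x ∂μ₁ - ∫ x, u x ∂μ := by
    intro u
    have : ∫ x, u x ∂μ + σ u = ∫ x, u x ∂μ₁ := hrep u
    linarith
  have hmeas : Measurable h := measurable_of_tendsto_metrizable
    (fun k => (hk k).continuous.measurable) (tendsto_pi_nhds.mpr hlim)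
  have hdc : ∀ ρ : Measure X, IsFiniteMeasure ρ →
      Tendsto (fun k => ∫ x, hk k x ∂ρ) atTop (𝓝 (∫ x, h x ∂ρ)) := by
    intro ρ hρ
    apply tendsto_integral_of_dominated_convergence (fun _ => M)
      (fun k => (hk k).continuous.measurable.aestronglyMeasurable) (integrable_const _)
    · exact fun k => Eventually.of_forall fun x => by rw [Real.norm_eq_abs]; exact hM k x
    · exact Eventually.of_forall hlim
  have hlimσ : Tendsto (fun k => σ (hk k)) atTop (𝓝 (∫ x, h x ∂μ₁ - ∫ x, h x ∂μ)) := by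
    simp only [hrep']
    exact (hdc μ₁ hfin₁).sub (hdc μ hfin)
  suffices hz : ∫ x, h x ∂μ₁ - ∫ x, h x ∂μ = 0 by rwa [hz] at hlimσ
  -- masses
  have hmass : μ₁.real univ = μ.real univ := by
    have h1 : σ (1 : C(X, ℝ)) = 0 := hσ 1 (fun x y z t _ _ _ => by simp)
    rw [hrep'] at h1
    simp at h1
    linarith
  by_cases hμ0 : μ = 0
  · have h1 : μ₁ = 0 := by
      rw [hμ0] at hmass
      have : μ₁.real univ = 0 := by simpa using hmass
      rw [measureReal_def, ENNReal.toReal_eq_zero_iff] at this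
      rcases this with h | h
      · exact Measure.measure_univ_eq_zero.mp h
      · exact absurd h (measure_ne_top _ _)
    rw [hμ0, h1]; simp
  · obtain ⟨b, hb⟩ := exists_bary hc hconv μ hμ0
    have hb₁ : ∀ l : V →L[ℝ] ℝ, ∫ x : X, l x ∂μ₁ = μ₁.real univ * l b := by
      intro l
      have h1 : σ ⟨fun x : X => l x, l.continuous.comp continuous_subtype_val⟩ = 0 := by
        apply hσ
        intro x y z t _ _ hz
        show l (z : V) = t • l (x : V) + (1 - t) • l (y : V)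
        rw [hz, map_add, map_smul, map_smul]
      rw [hrep'] at h1
      have h2 : ∫ x : X, l x ∂μ₁ - ∫ x : X, l x ∂μ = 0 := h1
      rw [hmass, ← hb l]
      linarith
    rw [bary_formula hc hconv μ₁ haff (fun k => (hk k).continuous) hM hlim b hb₁,
      bary_formula hc hconv μ haff (fun k => (hk k).continuous) hM hlim b hb, hmass]
    ring

end Pool.Agent.X203.BaireAff
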