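import Mathlib
import Pool.Agent.X203.BaireAffC

/-!
The approximation property and the vector-valued limit lemma.
-/

namespace Pool.Agent.X203.BaireAff

open MeasureTheory Set Filter Topology

section AP

variable {E : Type*} [NormedAddCommGroup E] [NormedSpace ℝ E]

theorem compact_union (F : ℕ → Set E) (hF : ∀ n, (F n).Finite)
    (hb : ∀ n, ∀ y ∈ F n, ‖y‖ ≤ (1 / 2) ^ n) : IsCompact ({0} ∪ ⋃ n, F n : Set E) := by
  classical
  apply isCompact_of_finite_subcover
  intro ι U hU hK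
  have h0 : (0 : E) ∈ ⋃ i, U i := hK (Or.inl rfl)
  obtain ⟨i₀, hi₀⟩ := mem_iUnion.mp h0
  obtain ⟨δ, hδ, hball⟩ := Metric.isOpen_iff.mp (hU i₀) 0 hi₀
  obtain ⟨N, hN⟩ := exists_pow_lt_of_lt_one hδ (by norm_num : (1 / 2 : ℝ) < 1)
  have hfin : (⋃ n ∈ Finset.range N, F n).Finite :=
    Set.Finite.biUnion (Finset.finite_toSet _) (fun n _ => hF n)
  have hsub : (⋃ n ∈ Finset.range N, F n) ⊆ ⋃ i, U i := by
    intro y hy
    simp only [mem_iUnion] at hy
    obtain ⟨n, _, hy⟩ := hy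
    exact hK (Or.inr (mem_iUnion.mpr ⟨n, hy⟩))
  obtain ⟨t, ht⟩ := hfin.isCompact.elim_finite_subcover U hU hsub
  refine ⟨insert i₀ t, ?_⟩
  rintro y (hy | hy)
  · rw [mem_singleton_iff] at hy
    subst hy
    exact mem_iUnion₂.mpr ⟨i₀, Finset.mem_insert_self _ _, hi₀⟩
  · obtain ⟨n, hn⟩ := mem_iUnion.mp hy
    by_cases hnN : n < N
    · have := ht (mem_iUnion₂.mpr ⟨n, Finset.mem_range.mpr hnN, hn⟩)
      obtain ⟨i, hi, hyi⟩ := mem_iUnion₂.mp this
      exact mem_iUnion₂.mpr ⟨i, Finset.mem_insert_of_mem hi, hyi⟩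
    · push Not at hnN
      have : y ∈ U i₀ := by
        apply hball
        rw [mem_ball_zero_iff]
        refine lt_of_le_of_lt (hb n y hn) (lt_of_le_of_lt ?_ hN)
        exact pow_le_pow_of_le_one (by norm_num) (by norm_num) hnN
      exact mem_iUnion₂.mpr ⟨i₀, Finset.mem_insert_self _ _, this⟩

theorem ap_bound {Ω : Type*} [MeasurableSpace Ω] (μ : Measure Ω) [IsFiniteMeasure μ] {f : Ω → E}
    (hf : StronglyMeasurable f) {M : ℝ} (hM : ∀ x, ‖f x‖ ≤ M) (hM0 : 0 ≤ M) :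
    ∃ (K : Set E) (C : ℝ), IsCompact K ∧ 0 ≤ C ∧ ∀ (S : E →L[ℝ] E) (q : ℝ), 0 ≤ q →
      (∀ y ∈ K, ‖S y‖ ≤ q) → ∫ x, ‖S (f x)‖ ∂μ ≤ C * q := by
  classical
  let s : ℕ → SimpleFunc Ω E := hf.approxBounded M
  have hsb : ∀ n x, ‖s n x‖ ≤ M := fun n x => hf.norm_approxBounded_le hM0 n x
  have hsl : ∀ x, Tendsto (fun n => s n x) atTop (𝓝 (f x)) := fun x =>
    hf.tendsto_approxBounded_of_norm_le (hM x)
  have hfm : AEStronglyMeasurable f μ := hf.aestronglyMeasurable
  have hlim : Tendsto (fun n => ∫ x, ‖f x - s n x‖ ∂μ) atTop (𝓝 0) := by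
    have h1 : Tendsto (fun n => ∫ x, ‖f x - s n x‖ ∂μ) atTop (𝓝 (∫ _x : Ω, (0 : ℝ) ∂μ)) := by
      apply tendsto_integral_of_dominated_convergence (fun _ => 2 * M)
      · exact fun n => (hfm.sub (s n).aestronglyMeasurable).norm
      · exact integrable_const _
      · intro n
        refine Eventually.of_forall fun x => ?_
        rw [norm_norm]
        have := norm_sub_le (f x) (s n x)
        linarith [hM x, hsb n x]
      · refine Eventually.of_forall fun x => ?_
        have h2 := (tendsto_const_nhds (x := f x)).sub (hsl x)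
        rw [sub_self] at h2
        simpa using h2.norm
    simpa using h1
  have hex : ∀ j : ℕ, ∃ n, ∫ x, ‖f x - s n x‖ ∂μ ≤ (1 / 4) ^ j := by
    intro j
    have := (hlim.eventually (ge_mem_nhds (by positivity : (0 : ℝ) < (1 / 4) ^ j))).exists
    exact this
  choose N hN using hex
  let a : ℕ → SimpleFunc Ω E := fun j => s (N j)
  have haM : ∀ j x, ‖a j x‖ ≤ M := fun j x => hsb _ x
  let g : ℕ → SimpleFunc Ω E := fun j => Nat.casesOn j (a 0) (fun i => a (i + 1) - a i)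
  have hg0 : g 0 = a 0 := rfl
  have hgs : ∀ j, g (j + 1) = a (j + 1) - a j := fun j => rfl
  have haint : ∀ j, Integrable (fun x => ‖f x - a j x‖) μ := by
    intro j
    refine Integrable.mono' (integrable_const (2 * M)) (hfm.sub (a j).aestronglyMeasurable).norm
      (Eventually.of_forall fun x => ?_)
    rw [norm_norm]
    have := norm_sub_le (f x) (a j x)
    linarith [hM x, haM j x]
  have hgint : ∀ j, Integrable (fun x => ‖g j x‖) μ := by
    intro j
    cases j with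
    | zero =>
      refine Integrable.mono' (integrable_const M) (g 0).aestronglyMeasurable.norm
        (Eventually.of_forall fun x => ?_)
      rw [norm_norm]; exact haM 0 x
    | succ j =>
      refine Integrable.mono' (integrable_const (2 * M)) (g (j + 1)).aestronglyMeasurable.norm
        (Eventually.of_forall fun x => ?_)
      rw [norm_norm, hgs, SimpleFunc.sub_apply]
      have := norm_sub_le (a (j + 1) x) (a j x)
      linarith [haM (j + 1) x, haM j x]
  have hgI : ∀ j, ∫ x, ‖g (j + 1) x‖ ∂μ ≤ 2 * (1 / 4) ^ j := by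
    intro j
    have i1 : Integrable (fun x => ‖f x - a (j + 1) x‖ + ‖f x - a j x‖) μ :=
      (haint (j + 1)).add (haint j)
    have h1 : ∫ x, ‖g (j + 1) x‖ ∂μ ≤ ∫ x, (‖f x - a (j + 1) x‖ + ‖f x - a j x‖) ∂μ := by
      apply integral_mono (hgint (j + 1)) i1
      intro x
      show ‖g (j + 1) x‖ ≤ ‖f x - a (j + 1) x‖ + ‖f x - a j x‖
      rw [hgs, SimpleFunc.sub_apply]
      have e : a (j + 1) x - a j x = (f x - a j x) - (f x - a (j + 1) x) := by abel
      rw [e]
      linarith [norm_sub_le (f x - a j x) (f x - a (j + 1) x)]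
    have h2 : ∫ x, (‖f x - a (j + 1) x‖ + ‖f x - a j x‖) ∂μ
        = ∫ x, ‖f x - a (j + 1) x‖ ∂μ + ∫ x, ‖f x - a j x‖ ∂μ :=
      integral_add (haint _) (haint _)
    have h3 := hN (j + 1)
    have h4 := hN j
    have h5 : (1 / 4 : ℝ) ^ (j + 1) ≤ (1 / 4) ^ j :=
      pow_le_pow_of_le_one (by norm_num) (by norm_num) (Nat.le_succ j)
    have h6 : ∫ x, ‖f x - a (j + 1) x‖ ∂μ ≤ (1 / 4) ^ (j + 1) := h3
    have h7 : ∫ x, ‖f x - a j x‖ ∂μ ≤ (1 / 4) ^ j := h4
    linarith
  let F : ℕ → Set E := fun j => (fun y : E => ((1 / 2 : ℝ) ^ j) • (‖y‖⁻¹ • y)) '' (range (g j))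
  have hFfin : ∀ j, (F j).Finite := fun j => (g j).finite_range.image _
  have hFb : ∀ j, ∀ y ∈ F j, ‖y‖ ≤ (1 / 2) ^ j := by
    rintro j _ ⟨y, _, rfl⟩
    show ‖((1 / 2 : ℝ) ^ j) • (‖y‖⁻¹ • y)‖ ≤ (1 / 2) ^ j
    rw [norm_smul, norm_smul, norm_inv, norm_norm, Real.norm_of_nonneg (by positivity)]
    have : ‖y‖⁻¹ * ‖y‖ ≤ 1 := inv_mul_le_one
    nlinarith [pow_pos (by norm_num : (0 : ℝ) < 1 / 2) j]
  set m := μ.real univ with hm
  have hm0 : 0 ≤ m := measureReal_nonneg
  refine ⟨{0} ∪ ⋃ n, F n, M * m + 8, compact_union F hFfin hFb, by positivity, ?_⟩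
  intro S q hq hS
  have hpt : ∀ j x, ‖S (g j x)‖ ≤ 2 ^ j * q * ‖g j x‖ := by
    intro j x
    by_cases h0 : g j x = 0
    · simp [h0]
    · have hn : ‖g j x‖ ≠ 0 := norm_ne_zero_iff.mpr h0
      have hmem : ((1 / 2 : ℝ) ^ j) • (‖g j x‖⁻¹ • g j x) ∈ ({0} ∪ ⋃ n, F n : Set E) :=
        Or.inr (mem_iUnion.mpr ⟨j, ⟨g j x, ⟨x, rfl⟩, rfl⟩⟩)
      have h1 := hS _ hmem
      rw [map_smul, map_smul, norm_smul, norm_smul, norm_inv, norm_norm,
        Real.norm_of_nonneg (by positivity)] at h1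
      have h2 : ‖S (g j x)‖ = 2 ^ j * ‖g j x‖ * ((1 / 2) ^ j * (‖g j x‖⁻¹ * ‖S (g j x)‖)) := by
        have h21 : (2 : ℝ) ^ j * (1 / 2) ^ j = 1 := by
          rw [← mul_pow]; norm_num
        calc ‖S (g j x)‖ = 1 * (‖g j x‖ * ‖g j x‖⁻¹) * ‖S (g j x)‖ := by
              rw [mul_inv_cancel₀ hn]; ring
          _ = (2 ^ j * (1 / 2) ^ j) * (‖g j x‖ * ‖g j x‖⁻¹) * ‖S (g j x)‖ := by rw [h21]
          _ = _ := by ring
      rw [h2]
      calc 2 ^ j * ‖g j x‖ * ((1 / 2) ^ j * (‖g j x‖⁻¹ * ‖S (g j x)‖))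
          ≤ 2 ^ j * ‖g j x‖ * q := mul_le_mul_of_nonneg_left h1 (by positivity)
        _ = 2 ^ j * q * ‖g j x‖ := by ring
  have hSint : ∀ u : SimpleFunc Ω E, (∀ x, ‖u x‖ ≤ 2 * M) → Integrable (fun x => ‖S (u x)‖) μ := by
    intro u hu
    refine Integrable.mono' (integrable_const (‖S‖ * (2 * M)))
      (S.continuous.comp_aestronglyMeasurable u.aestronglyMeasurable).norm
      (Eventually.of_forall fun x => ?_)
    rw [norm_norm]
    exact (S.le_opNorm _).trans (mul_le_mul_of_nonneg_left (hu x) (norm_nonneg _))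
  have hgM : ∀ j x, ‖g j x‖ ≤ 2 * M := by
    intro j x
    cases j with
    | zero => have := haM 0 x; rw [hg0]; linarith
    | succ j =>
      rw [hgs, SimpleFunc.sub_apply]
      have := norm_sub_le (a (j + 1) x) (a j x)
      linarith [haM (j + 1) x, haM j x]
  have hSg : ∀ j, ∫ x, ‖S (g j x)‖ ∂μ ≤ 2 ^ j * q * ∫ x, ‖g j x‖ ∂μ := by
    intro j
    rw [← integral_const_mul]
    exact integral_mono (hSint _ (hgM j)) ((hgint j).const_mul _) (hpt j)
  have hind : ∀ J : ℕ, ∫ x, ‖S (a J x)‖ ∂μ ≤ q * (M * m + 8 - 8 * (1 / 2) ^ J) := by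
    intro J
    induction J with
    | zero =>
      have h1 := hSg 0
      have h2 : ∫ x, ‖g 0 x‖ ∂μ ≤ M * m := by
        have : ∫ x, ‖g 0 x‖ ∂μ ≤ ∫ _x : Ω, M ∂μ :=
          integral_mono (hgint 0) (integrable_const _) (fun x => haM 0 x)
        rw [integral_const, smul_eq_mul] at this
        linarith
      rw [hg0] at h1 h2
      simp only [pow_zero, one_mul] at h1
      have h3 : q * ∫ x, ‖(a 0) x‖ ∂μ ≤ q * (M * m) := mul_le_mul_of_nonneg_left h2 hq
      have h4 : q * (M * m + 8 - 8 * (1 / 2) ^ 0) = q * (M * m) := by ring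
      rw [h4]; linarith
    | succ J ih =>
      have ia : ∀ J, Integrable (fun x => ‖S (a J x)‖) μ := fun J =>
        hSint (a J) fun x => by linarith [haM J x]
      have ig : Integrable (fun x => ‖S (g (J + 1) x)‖) μ := hSint (g (J + 1)) (hgM (J + 1))
      have iag : Integrable (fun x => ‖S (a J x)‖ + ‖S (g (J + 1) x)‖) μ := (ia J).add ig
      have h1 : ∫ x, ‖S (a (J + 1) x)‖ ∂μ ≤ ∫ x, (‖S (a J x)‖ + ‖S (g (J + 1) x)‖) ∂μ := by
        apply integral_mono (ia (J + 1)) iag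
        intro x
        show ‖S (a (J + 1) x)‖ ≤ ‖S (a J x)‖ + ‖S (g (J + 1) x)‖
        have e : a (J + 1) x = a J x + g (J + 1) x := by
          rw [hgs, SimpleFunc.sub_apply]; abel
        rw [e, map_add]
        exact norm_add_le _ _
      have h2 : ∫ x, (‖S (a J x)‖ + ‖S (g (J + 1) x)‖) ∂μ
          = ∫ x, ‖S (a J x)‖ ∂μ + ∫ x, ‖S (g (J + 1) x)‖ ∂μ :=
        integral_add (ia J) ig
      have h3 := hSg (J + 1)
      have h4 : 2 ^ (J + 1) * q * ∫ x, ‖g (J + 1) x‖ ∂μ ≤ 2 ^ (J + 1) * q * (2 * (1 / 4) ^ J) :=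
        mul_le_mul_of_nonneg_left (hgI J) (by positivity)
      have h5 : 2 ^ (J + 1) * q * (2 * (1 / 4) ^ J) = q * (4 * (1 / 2 : ℝ) ^ J) := by
        have : (2 : ℝ) ^ J * (1 / 4) ^ J = (1 / 2) ^ J := by rw [← mul_pow]; norm_num
        rw [pow_succ]
        calc 2 ^ J * 2 * q * (2 * (1 / 4) ^ J) = q * (4 * (2 ^ J * (1 / 4) ^ J)) := by ring
          _ = _ := by rw [this]
      have h6 : q * (M * m + 8 - 8 * (1 / 2) ^ (J + 1))
          = q * (M * m + 8 - 8 * (1 / 2) ^ J) + q * (4 * (1 / 2) ^ J) := by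
        rw [pow_succ]; ring
      rw [h6]
      linarith
  have hfinal : ∀ J : ℕ, ∫ x, ‖S (f x)‖ ∂μ ≤ (M * m + 8) * q + ‖S‖ * (1 / 4) ^ J := by
    intro J
    have hSf : Integrable (fun x => ‖S (f x)‖) μ := by
      refine Integrable.mono' (integrable_const (‖S‖ * M))
        (S.continuous.comp_aestronglyMeasurable hfm).norm (Eventually.of_forall fun x => ?_)
      rw [norm_norm]
      exact (S.le_opNorm _).trans (mul_le_mul_of_nonneg_left (hM x) (norm_nonneg _))
    have ia : Integrable (fun x => ‖S (a J x)‖) μ := hSint (a J) fun x => by linarith [haM J x]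
    have ib : Integrable (fun x => ‖S‖ * ‖f x - a J x‖) μ := (haint J).const_mul _
    have iab : Integrable (fun x => ‖S (a J x)‖ + ‖S‖ * ‖f x - a J x‖) μ := ia.add ib
    have h1 : ∫ x, ‖S (f x)‖ ∂μ ≤ ∫ x, (‖S (a J x)‖ + ‖S‖ * ‖f x - a J x‖) ∂μ := by
      apply integral_mono hSf iab
      intro x
      show ‖S (f x)‖ ≤ ‖S (a J x)‖ + ‖S‖ * ‖f x - a J x‖
      have e : f x = a J x + (f x - a J x) := by abel
      calc ‖S (f x)‖ = ‖S (a J x) + S (f x - a J x)‖ := by rw [← map_add, ← e]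
        _ ≤ ‖S (a J x)‖ + ‖S (f x - a J x)‖ := norm_add_le _ _
        _ ≤ _ := by linarith [S.le_opNorm (f x - a J x)]
    have h2 : ∫ x, (‖S (a J x)‖ + ‖S‖ * ‖f x - a J x‖) ∂μ
        = ∫ x, ‖S (a J x)‖ ∂μ + ‖S‖ * ∫ x, ‖f x - a J x‖ ∂μ := by
      rw [← integral_const_mul]
      exact integral_add ia ib
    have h3 := hind J
    have h4 : ‖S‖ * ∫ x, ‖f x - a J x‖ ∂μ ≤ ‖S‖ * (1 / 4) ^ J :=
      mul_le_mul_of_nonneg_left (hN J) (norm_nonneg _)
    have h5 : 0 ≤ q * (8 * (1 / 2) ^ J) := by positivity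
    nlinarith
  have hlimJ : Tendsto (fun J : ℕ => (M * m + 8) * q + ‖S‖ * (1 / 4) ^ J) atTop
      (𝓝 ((M * m + 8) * q + ‖S‖ * 0)) :=
    tendsto_const_nhds.add ((tendsto_pow_atTop_nhds_zero_of_lt_one (by norm_num)
      (by norm_num)).const_mul _)
  rw [mul_zero, add_zero] at hlimJ
  exact ge_of_tendsto hlimJ (Eventually.of_forall hfinal)

/-- finite-rank operators are finite sums of elementary ones -/
theorem finite_rank_repr (T : E →L[ℝ] E)
    (hT : FiniteDimensional ℝ (LinearMap.range (T : E →ₗ[ℝ] E))) :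
    ∃ (n : ℕ) (x : Fin n → (E →L[ℝ] ℝ)) (e : Fin n → E), ∀ y, T y = ∑ i, x i y • e i := by
  let R := LinearMap.range (T : E →ₗ[ℝ] E)
  haveI : FiniteDimensional ℝ R := hT
  let T' : E →L[ℝ] R := T.codRestrict R (fun y => LinearMap.mem_range_self _ y)
  let b := Module.finBasis ℝ R
  refine ⟨Module.finrank ℝ R, fun i => (LinearMap.toContinuousLinearMap (b.coord i)).comp T',
    fun i => (b i : E), fun y => ?_⟩
  have h1 := b.sum_repr (T' y)
  have h2 : ((∑ i, b.repr (T' y) i • b i : R) : E) = T y := by rw [h1]; rfl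
  rw [← h2, AddSubmonoidClass.coe_finset_sum]
  rfl

end AP

variable {V : Type*} [AddCommGroup V] [Module ℝ V] [TopologicalSpace V] [IsTopologicalAddGroup V]
  [ContinuousSMul ℝ V] [LocallyConvexSpace ℝ V] [T2Space V]

/-- The approximation property over the reals. -/
def RealAP (E : Type*) [NormedAddCommGroup E] [NormedSpace ℝ E] : Prop :=
  ∀ K : Set E, IsCompact K → ∀ ε : ℝ, 0 < ε → ∃ T : E →L[ℝ] E,
    FiniteDimensional ℝ (LinearMap.range (T : E →ₗ[ℝ] E)) ∧ ∀ x ∈ K, ‖T x - x‖ < ε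

/-- Functionals on `C(X, E)` vanishing on the continuous affine maps vanish in the limit on bounded
sequences converging to an affine map. -/
theorem crux {X : Set V} (hc : IsCompact X) (hconv : Convex ℝ X) [CompactSpace X]
    {E : Type*} [NormedAddCommGroup E] [NormedSpace ℝ E] (hAP : RealAP E)
    (Θ : C(X, E) →L[ℝ] ℝ) (hΘ : ∀ a : C(X, E), AffOn X a → Θ a = 0) {f : X → E}
    (haff : AffOn X f) (φ : ℕ → C(X, E)) {M : ℝ} (hM : ∀ k x, ‖φ k x‖ ≤ M)
    (hlim : ∀ x, Tendsto (fun k => φ k x) atTop (𝓝 (f x))) :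
    Tendsto (fun k => Θ (φ k)) atTop (𝓝 0) := by
  classical
  letI : MeasurableSpace X := borel X
  haveI : BorelSpace X := ⟨rfl⟩
  rcases isEmpty_or_nonempty X with hemp | ⟨⟨x₀⟩⟩
  · have : ∀ φ : C(X, E), φ = 0 := fun φ => by ext x; exact (hemp.false x).elim
    have h0 : (fun k => Θ (φ k)) = fun _ => 0 := by
      funext k; rw [this (φ k), map_zero]
    rw [h0]
    exact tendsto_const_nhds
  have hM0 : 0 ≤ M := (norm_nonneg _).trans (hM 0 x₀)
  have hfM : ∀ x, ‖f x‖ ≤ M := fun x =>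
    le_of_tendsto (hlim x).norm (Eventually.of_forall fun k => hM k x)
  obtain ⟨μ, hfin, hreg, hdom⟩ := domination Θ
  have hφm : ∀ k, StronglyMeasurable (φ k) := fun k =>
    (φ k).continuous.stronglyMeasurable_of_hasCompactSupport (HasCompactSupport.of_compactSpace _)
  have hfm : StronglyMeasurable f :=
    stronglyMeasurable_of_tendsto atTop hφm (tendsto_pi_nhds.mpr hlim)
  obtain ⟨K, C, hK, hC0, hKC⟩ := ap_bound μ hfm hfM hM0
  rw [Metric.tendsto_atTop]
  intro ε hε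
  obtain ⟨T, hTfin, hT⟩ := hAP K hK (ε / (4 * (C + 1))) (by positivity)
  let S : E →L[ℝ] E := T - ContinuousLinearMap.id ℝ E
  have hS : ∀ y ∈ K, ‖S y‖ ≤ ε / (4 * (C + 1)) := fun y hy => (hT y hy).le
  have h1 : ∫ x, ‖S (f x)‖ ∂μ ≤ ε / 4 := by
    refine (hKC S _ (by positivity) hS).trans ?_
    rw [mul_div_assoc', div_le_iff₀ (by positivity)]
    nlinarith
  have h2 : Tendsto (fun k => ∫ x, ‖S (φ k x)‖ ∂μ) atTop (𝓝 (∫ x, ‖S (f x)‖ ∂μ)) := by
    apply tendsto_integral_of_dominated_convergence (fun _ => ‖S‖ * M)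
    · exact fun k => (S.continuous.comp_aestronglyMeasurable (hφm k).aestronglyMeasurable).norm
    · exact integrable_const _
    · intro k
      refine Eventually.of_forall fun x => ?_
      rw [norm_norm]
      exact (S.le_opNorm _).trans (mul_le_mul_of_nonneg_left (hM k x) (norm_nonneg _))
    · exact Eventually.of_forall fun x => ((S.continuous.tendsto _).comp (hlim x)).norm
  have h3 : ∀ᶠ k in atTop, ∫ x, ‖S (φ k x)‖ ∂μ < ε / 2 :=
    h2.eventually (gt_mem_nhds (by linarith))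
  obtain ⟨n, xs, es, hrep⟩ := finite_rank_repr T hTfin
  let Tφ : ℕ → C(X, E) := fun k => ⟨fun x => T (φ k x), T.continuous.comp (φ k).continuous⟩
  let Sφ : ℕ → C(X, E) := fun k => ⟨fun x => S (φ k x), S.continuous.comp (φ k).continuous⟩
  let el : E → C(X, ℝ) → C(X, E) := fun e u => ⟨fun x => u x • e, u.continuous.smul continuous_const⟩
  let σ : Fin n → (C(X, ℝ) →ₗ[ℝ] ℝ) := fun i =>
    { toFun := fun u => Θ (el (es i) u)
      map_add' := fun u v => by
        have : el (es i) (u + v) = el (es i) u + el (es i) v := by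
          ext x; exact add_smul _ _ _
        rw [this, map_add]
      map_smul' := fun c u => by
        have : el (es i) (c • u) = c • el (es i) u := by
          ext x; exact mul_smul c (u x) (es i)
        rw [this, map_smul]; rfl }
  let xφ : Fin n → ℕ → C(X, ℝ) := fun i k =>
    ⟨fun x => xs i (φ k x), (xs i).continuous.comp (φ k).continuous⟩
  have hTlim : Tendsto (fun k => Θ (Tφ k)) atTop (𝓝 0) := by
    have e : ∀ k, Θ (Tφ k) = ∑ i, σ i (xφ i k) := by
      intro k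
      have h4 : Tφ k = ∑ i, el (es i) (xφ i k) := by
        ext x
        rw [ContinuousMap.sum_apply]
        exact hrep (φ k x)
      rw [h4, map_sum]
      rfl
    simp only [e]
    have h5 : ∀ i, Tendsto (fun k => σ i (xφ i k)) atTop (𝓝 0) := by
      intro i
      apply scalar_lemma hc hconv (σ i) (‖Θ‖ * ‖es i‖) ?_ ?_ (h := fun x => xs i (f x)) ?_ (xφ i)
        (M := ‖xs i‖ * M) ?_ ?_
      · intro u
        have h6 : |Θ (el (es i) u)| ≤ ‖Θ‖ * ‖el (es i) u‖ := Θ.le_opNorm _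
        have h7 : ‖el (es i) u‖ ≤ ‖u‖ * ‖es i‖ := by
          rw [ContinuousMap.norm_le _ (by positivity)]
          intro x
          show ‖u x • es i‖ ≤ _
          rw [norm_smul]
          exact mul_le_mul_of_nonneg_right (u.norm_coe_le_norm x) (norm_nonneg _)
        calc |σ i u| ≤ ‖Θ‖ * ‖el (es i) u‖ := h6
          _ ≤ ‖Θ‖ * (‖u‖ * ‖es i‖) := mul_le_mul_of_nonneg_left h7 (norm_nonneg _)
          _ = ‖Θ‖ * ‖es i‖ * ‖u‖ := by ring
      · intro a ha
        show Θ (el (es i) a) = 0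
        apply hΘ
        intro x y z t ht0 ht1 hz
        show a z • es i = t • (a x • es i) + (1 - t) • (a y • es i)
        rw [ha x y z t ht0 ht1 hz, smul_eq_mul, smul_eq_mul, add_smul, mul_smul, mul_smul]
      · intro x y z t ht0 ht1 hz
        show xs i (f z) = t • xs i (f x) + (1 - t) • xs i (f y)
        rw [haff x y z t ht0 ht1 hz, map_add, map_smul, map_smul]
      · intro k x
        show |xs i (φ k x)| ≤ _
        exact ((xs i).le_opNorm _).trans (mul_le_mul_of_nonneg_left (hM k x) (norm_nonneg _))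
      · exact fun x => ((xs i).continuous.tendsto _).comp (hlim x)
    have := tendsto_finsetSum Finset.univ (fun i _ => h5 i)
    simpa using this
  have h8 : ∀ᶠ k in atTop, |Θ (Tφ k)| < ε / 2 := by
    have := (Metric.tendsto_atTop.mp hTlim) (ε / 2) (by positivity)
    obtain ⟨N, hN⟩ := this
    filter_upwards [eventually_ge_atTop N] with k hk
    have := hN k hk
    rw [Real.dist_eq, sub_zero] at this
    exact this
  obtain ⟨N, hN⟩ := (h3.and h8).exists_forall_of_atTop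
  refine ⟨N, fun k hk => ?_⟩
  obtain ⟨h9, h10⟩ := hN k hk
  have h11 : Θ (φ k) = Θ (Tφ k) - Θ (Sφ k) := by
    rw [← map_sub]
    congr 1
    ext x
    show φ k x = T (φ k x) - (T (φ k x) - φ k x)
    abel
  have h12 : |Θ (Sφ k)| ≤ ∫ x, ‖S (φ k x)‖ ∂μ := hdom (Sφ k)
  rw [Real.dist_eq, sub_zero, h11]
  have := abs_sub (Θ (Tφ k)) (Θ (Sφ k))
  linarith

end Pool.Agent.X203.BaireAff
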