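import Mathlib
import Pool.Agent.X203.BaireAffD

/-!
Affine maps of the first Baire class with values in a space with the approximation property.
-/

namespace Pool.Agent.X203.BaireAff

open MeasureTheory Set Filter Topology

variable {V : Type*} [AddCommGroup V] [Module ℝ V] [TopologicalSpace V] [IsTopologicalAddGroup V]
  [ContinuousSMul ℝ V] [LocallyConvexSpace ℝ V] [T2Space V]

/-- the subspace of affine continuous maps -/
def affSub {V : Type*} [AddCommGroup V] [Module ℝ V] [TopologicalSpace V] (X : Set V)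
    (E : Type*) [NormedAddCommGroup E] [NormedSpace ℝ E] : Submodule ℝ C(X, E) where
  carrier := {a | AffOn X a}
  zero_mem' := fun x y z t _ _ _ => by simp
  add_mem' := fun {a b} ha hb x y z t h0 h1 hz => by
    show a z + b z = t • (a x + b x) + (1 - t) • (a y + b y)
    rw [ha x y z t h0 h1 hz, hb x y z t h0 h1 hz, smul_add, smul_add]
    abel
  smul_mem' := fun c a ha x y z t h0 h1 hz => by
    show c • a z = t • (c • a x) + (1 - t) • (c • a y)
    rw [ha x y z t h0 h1 hz, smul_add, smul_comm c t, smul_comm c (1 - t)]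

theorem main {X : Set V} (hc : IsCompact X) (hconv : Convex ℝ X)
    {E : Type*} [NormedAddCommGroup E] [NormedSpace ℝ E] (hAP : RealAP E)
    {f : X → E} (haff : AffOn X f) (φ : ℕ → X → E) (hφc : ∀ k, Continuous (φ k))
    (hφ1 : ∀ k x, ‖φ k x‖ ≤ 1) (hlim : ∀ x, Tendsto (fun k => φ k x) atTop (𝓝 (f x))) :
    ∃ a : ℕ → X → E, (∀ n, Continuous (a n)) ∧ (∀ n, AffOn X (a n)) ∧ (∀ n x, ‖a n x‖ ≤ 1) ∧
      ∀ x, Tendsto (fun n => a n x) atTop (𝓝 (f x)) := by
  haveI : CompactSpace X := isCompact_iff_compactSpace.mp hc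
  let ψ : ℕ → C(X, E) := fun k => ⟨φ k, hφc k⟩
  have hψ1 : ∀ k, ‖ψ k‖ ≤ 1 := fun k => (ContinuousMap.norm_le _ zero_le_one).mpr (hφ1 k)
  let B : Set C(X, E) := {a | AffOn X a ∧ ‖a‖ ≤ 1}
  have h0B : (0 : C(X, E)) ∈ B := ⟨(affSub X E).zero_mem, by simp⟩
  have hBconv : Convex ℝ B := by
    intro a ha b hb s t hs ht hst
    refine ⟨(affSub X E).add_mem ((affSub X E).smul_mem s ha.1) ((affSub X E).smul_mem t hb.1), ?_⟩
    calc ‖s • a + t • b‖ ≤ ‖s • a‖ + ‖t • b‖ := norm_add_le _ _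
      _ = s * ‖a‖ + t * ‖b‖ := by
          rw [norm_smul, norm_smul, Real.norm_of_nonneg hs, Real.norm_of_nonneg ht]
      _ ≤ s * 1 + t * 1 := by
          apply add_le_add
          · exact mul_le_mul_of_nonneg_left ha.2 hs
          · exact mul_le_mul_of_nonneg_left hb.2 ht
      _ = 1 := by linarith
  let Tl : ℕ → Set C(X, E) := fun m => convexHull ℝ {g | ∃ k ≥ m, g = ψ k}
  have claim : ∀ m : ℕ, ∀ δ : ℝ, 0 < δ → ∃ g ∈ Tl m, ∃ a ∈ B, ‖g - a‖ < δ := by
    intro m δ hδ
    by_contra hcon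
    push Not at hcon
    have hdisj : Disjoint (Metric.thickening δ (Tl m)) B := by
      rw [Set.disjoint_left]
      intro x hx hxB
      obtain ⟨g, hg, hd⟩ := Metric.mem_thickening_iff.mp hx
      have := hcon g hg x hxB
      rw [dist_comm, dist_eq_norm] at hd
      linarith
    obtain ⟨Λ, u, hΛ1, hΛ2⟩ := geometric_hahn_banach_open
      ((convex_convexHull ℝ _).thickening δ) Metric.isOpen_thickening hBconv hdisj
    have hu0 : u ≤ 0 := by simpa using hΛ2 0 h0B
    have hmem : ∀ k ≥ m, ψ k ∈ Tl m := fun k hk => subset_convexHull ℝ _ ⟨k, hk, rfl⟩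
    have hΛne : Λ ≠ 0 := by
      intro h0
      have h1 := hΛ1 (ψ m) (Metric.self_subset_thickening hδ _ (hmem m le_rfl))
      rw [h0, ContinuousLinearMap.zero_apply] at h1
      linarith
    obtain ⟨w₀, hw₀⟩ : ∃ w, Λ w ≠ 0 := by
      by_contra hno
      push Not at hno
      exact hΛne (ContinuousLinearMap.ext hno)
    have hw₁ : ∃ w, 0 < Λ w := by
      rcases lt_or_gt_of_ne hw₀ with h | h
      · exact ⟨-w₀, by rw [map_neg]; linarith⟩
      · exact ⟨w₀, h⟩
    obtain ⟨w₁, hw₁⟩ := hw₁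
    set r := δ / (2 * (‖w₁‖ + 1)) with hr
    have hrpos : 0 < r := by positivity
    set w := r • w₁ with hw
    have hwn : ‖w‖ < δ := by
      rw [hw, norm_smul, Real.norm_of_nonneg hrpos.le, hr, div_mul_eq_mul_div,
        div_lt_iff₀ (by positivity)]
      nlinarith [norm_nonneg w₁]
    set γ := Λ w with hγ
    have hγpos : 0 < γ := by
      rw [hγ, hw, map_smul, smul_eq_mul]
      positivity
    have hgap : ∀ k ≥ m, Λ (ψ k) + γ < u := by
      intro k hk
      rw [hγ, ← map_add]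
      apply hΛ1
      rw [Metric.mem_thickening_iff]
      refine ⟨ψ k, hmem k hk, ?_⟩
      rw [dist_eq_norm, add_sub_cancel_left]
      exact hwn
    set c := -u with hcdef
    have hc0 : 0 ≤ c := by rw [hcdef]; linarith
    let Ψ : C(X, E) →L[ℝ] ℝ := -Λ
    have hΨB : ∀ b ∈ B, Ψ b ≤ c := by
      intro b hb
      have := hΛ2 b hb
      show -Λ b ≤ c
      rw [hcdef]; linarith
    have hΨA1 : ∀ a ∈ affSub X E, Ψ a ≤ c * ‖a‖ := by
      intro a ha
      by_cases h0 : a = 0
      · rw [h0, map_zero, norm_zero, mul_zero]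
      · have hn : 0 < ‖a‖ := norm_pos_iff.mpr h0
        have h1 : (‖a‖⁻¹ • a) ∈ B := by
          refine ⟨(affSub X E).smul_mem _ ha, ?_⟩
          rw [norm_smul, norm_inv, norm_norm, inv_mul_cancel₀ hn.ne']
        have h2 := hΨB _ h1
        rw [map_smul, smul_eq_mul, inv_mul_le_iff₀ hn] at h2
        linarith
    have hΨA : ∀ a ∈ affSub X E, |Ψ a| ≤ c * ‖a‖ := by
      intro a ha
      rw [abs_le]
      refine ⟨?_, hΨA1 a ha⟩
      have := hΨA1 (-a) ((affSub X E).neg_mem ha)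
      rw [map_neg, norm_neg] at this
      linarith
    let Ψr : affSub X E →L[ℝ] ℝ := Ψ.comp (affSub X E).subtypeL
    have hΨr : ‖Ψr‖ ≤ c := by
      apply ContinuousLinearMap.opNorm_le_bound _ hc0
      intro a
      exact hΨA a a.2
    obtain ⟨G, hG1, hG2⟩ := exists_extension_norm_eq (affSub X E) Ψr
    have hcr := crux hc hconv hAP (Ψ - G) (fun a ha => by
        rw [ContinuousLinearMap.sub_apply]
        have := hG1 ⟨a, ha⟩
        have h2 : Ψr ⟨a, ha⟩ = Ψ a := rfl
        rw [h2] at this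
        rw [this, sub_self]) haff ψ (M := 1) hφ1 hlim
    have hge : ∀ᶠ k in atTop, γ ≤ (Ψ - G) (ψ k) := by
      filter_upwards [eventually_ge_atTop m] with k hk
      have h1 := hgap k hk
      have h2 : Ψ (ψ k) = -Λ (ψ k) := rfl
      have h3 : G (ψ k) ≤ c := by
        calc G (ψ k) ≤ |G (ψ k)| := le_abs_self _
          _ ≤ ‖G‖ * ‖ψ k‖ := G.le_opNorm _
          _ ≤ c * 1 := mul_le_mul (hG2 ▸ hΨr) (hψ1 k) (norm_nonneg _) hc0
          _ = c := mul_one c
      rw [ContinuousLinearMap.sub_apply, h2]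
      rw [hcdef] at h3
      linarith
    have := ge_of_tendsto hcr hge
    linarith
  choose g hg a ha hga using fun n : ℕ => claim n (1 / ((n : ℝ) + 1)) (by positivity)
  refine ⟨fun n => a n, fun n => (a n).continuous, fun n => (ha n).1,
    fun n x => ((a n).norm_coe_le_norm x).trans (ha n).2, fun x => ?_⟩
  rw [Metric.tendsto_atTop]
  intro ε hε
  obtain ⟨m, hm⟩ := (Metric.tendsto_atTop.mp (hlim x)) (ε / 2) (by positivity)
  obtain ⟨m', hm'⟩ := exists_nat_one_div_lt (by positivity : 0 < ε / 2)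
  refine ⟨max m m', fun n hn => ?_⟩
  have hnm : m ≤ n := (le_max_left _ _).trans hn
  have hnm' : m' ≤ n := (le_max_right _ _).trans hn
  have h1 : g n ∈ {q : C(X, E) | q x ∈ Metric.ball (f x) (ε / 2)} := by
    have hcv : Convex ℝ {q : C(X, E) | q x ∈ Metric.ball (f x) (ε / 2)} := by
      intro p hp q hq s t hs ht hst
      exact (convex_ball (f x) (ε / 2)) hp hq hs ht hst
    refine convexHull_min ?_ hcv (hg n)
    rintro _ ⟨k, hk, rfl⟩
    exact hm k (hnm.trans hk)
  have h2 : dist (g n x) (f x) < ε / 2 := h1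
  have h3 : dist (a n x) (g n x) < ε / 2 := by
    rw [dist_comm, dist_eq_norm]
    calc ‖g n x - a n x‖ = ‖(g n - a n) x‖ := rfl
      _ ≤ ‖g n - a n‖ := (g n - a n).norm_coe_le_norm x
      _ < 1 / ((n : ℝ) + 1) := hga n
      _ ≤ 1 / ((m' : ℝ) + 1) := by
          apply one_div_le_one_div_of_le (by positivity)
          have : (m' : ℝ) ≤ n := by exact_mod_cast hnm'
          linarith
      _ < ε / 2 := hm'
  calc dist (a n x) (f x) ≤ dist (a n x) (g n x) + dist (g n x) (f x) := dist_triangle _ _ _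
    _ < ε := by linarith

/-- Affine maps of the first Baire class on a compact convex set are bounded. -/
theorem bounded {X : Set V} (hc : IsCompact X) (hconv : Convex ℝ X)
    {E : Type*} [NormedAddCommGroup E] [NormedSpace ℝ E]
    {f : X → E} (haff : AffOn X f) (φ : ℕ → X → E) (hφc : ∀ k, Continuous (φ k))
    (hlim : ∀ x, Tendsto (fun k => φ k x) atTop (𝓝 (f x))) :
    ∃ M : ℝ, 0 < M ∧ ∀ x, ‖f x‖ ≤ M := by
  haveI : CompactSpace X := isCompact_iff_compactSpace.mp hc
  rcases isEmpty_or_nonempty X with hemp | hne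
  · exact ⟨1, one_pos, fun x => (hemp.false x).elim⟩
  let F : ℕ → Set X := fun n => {x | ∀ k, ‖φ k x‖ ≤ n}
  have hFcl : ∀ n, IsClosed (F n) := by
    intro n
    have : F n = ⋂ k, {x | ‖φ k x‖ ≤ n} := by ext x; simp [F]
    rw [this]
    exact isClosed_iInter fun k => isClosed_le (hφc k).norm continuous_const
  have hFU : ⋃ n, F n = univ := by
    rw [eq_univ_iff_forall]
    intro x
    obtain ⟨C, hC⟩ := (hlim x).norm.bddAbove_range
    obtain ⟨n, hn⟩ := exists_nat_ge C
    exact mem_iUnion.mpr ⟨n, fun k => (hC (mem_range_self k)).trans hn⟩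
  obtain ⟨n, x₀, hx₀⟩ := nonempty_interior_of_iUnion_of_closed hFcl hFU
  obtain ⟨O, hO, hOeq⟩ := isOpen_induced_iff.mp (isOpen_interior (s := F n))
  have hx₀O : (x₀ : V) ∈ O := by
    have : x₀ ∈ Subtype.val ⁻¹' O := by rw [hOeq]; exact hx₀
    exact this
  have hOf : ∀ x : X, (x : V) ∈ O → ‖f x‖ ≤ n := by
    intro x hx
    have h1 : x ∈ F n := by
      apply interior_subset
      rw [← hOeq]; exact hx
    exact le_of_tendsto (hlim x).norm (Eventually.of_forall h1)
  have hev : ∀ᶠ t : ℝ in 𝓝 0, ∀ y ∈ X, t • y + (1 - t) • (x₀ : V) ∈ O := by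
    apply hc.eventually_forall_of_forall_eventually
    intro y _
    have hcont : Continuous fun z : ℝ × V => z.1 • z.2 + (1 - z.1) • (x₀ : V) := by fun_prop
    have h00 : (0 : ℝ) • y + (1 - (0 : ℝ)) • (x₀ : V) = x₀ := by simp
    have hnh : O ∈ 𝓝 ((0 : ℝ) • y + (1 - (0 : ℝ)) • (x₀ : V)) := by
      rw [h00]; exact hO.mem_nhds hx₀O
    exact hcont.continuousAt.eventually_mem (x := ((0 : ℝ), y)) hnh
  obtain ⟨δ, hδ, hball⟩ := Metric.eventually_nhds_iff.mp hev
  set t := min (δ / 2) 1 with ht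
  have ht0 : 0 < t := by positivity
  have ht1 : t ≤ 1 := min_le_right _ _
  have htO : ∀ y ∈ X, t • y + (1 - t) • (x₀ : V) ∈ O := by
    apply hball
    rw [dist_zero_right, Real.norm_of_nonneg ht0.le]
    exact lt_of_le_of_lt (min_le_left _ _) (by linarith)
  refine ⟨t⁻¹ * (2 * n) + 1, by positivity, fun y => ?_⟩
  have hzX : t • (y : V) + (1 - t) • (x₀ : V) ∈ X :=
    hconv y.2 x₀.2 ht0.le (by linarith) (by ring)
  have h1 := haff y x₀ ⟨_, hzX⟩ t ht0.le ht1 rfl
  have h2 := hOf ⟨_, hzX⟩ (htO y y.2)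
  have h3 := hOf x₀ hx₀O
  have h4 : f y = t⁻¹ • (f ⟨_, hzX⟩ - (1 - t) • f x₀) := by
    rw [h1, add_sub_cancel_right, smul_smul, inv_mul_cancel₀ ht0.ne', one_smul]
  rw [h4, norm_smul, norm_inv, Real.norm_of_nonneg ht0.le]
  have h5 : ‖f ⟨_, hzX⟩ - (1 - t) • f x₀‖ ≤ 2 * n := by
    refine (norm_sub_le _ _).trans ?_
    rw [norm_smul, Real.norm_of_nonneg (by linarith)]
    have : (1 - t) * ‖f x₀‖ ≤ 1 * n := mul_le_mul (by linarith) h3 (norm_nonneg _) zero_le_one
    linarith
  have := mul_le_mul_of_nonneg_left h5 (by positivity : 0 ≤ t⁻¹)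
  linarith

/-- The radial retraction onto the unit ball. -/
noncomputable def retr {E : Type*} [NormedAddCommGroup E] [NormedSpace ℝ E] (v : E) : E :=
  (max 1 ‖v‖)⁻¹ • v

theorem continuous_retr {E : Type*} [NormedAddCommGroup E] [NormedSpace ℝ E] :
    Continuous (retr : E → E) := by
  unfold retr
  apply Continuous.smul _ continuous_id
  apply Continuous.inv₀ (continuous_const.max continuous_norm)
  intro v
  exact (lt_of_lt_of_le one_pos (le_max_left _ _)).ne'

theorem norm_retr {E : Type*} [NormedAddCommGroup E] [NormedSpace ℝ E] (v : E) :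
    ‖retr v‖ ≤ 1 := by
  unfold retr
  have h : 0 < max 1 ‖v‖ := lt_of_lt_of_le one_pos (le_max_left _ _)
  rw [norm_smul, norm_inv, Real.norm_of_nonneg h.le, inv_mul_le_iff₀ h, mul_one]
  exact le_max_right _ _

theorem retr_self {E : Type*} [NormedAddCommGroup E] [NormedSpace ℝ E] {v : E} (hv : ‖v‖ ≤ 1) :
    retr v = v := by
  unfold retr
  rw [max_eq_left hv, inv_one, one_smul]

theorem main' {X : Set V} (hc : IsCompact X) (hconv : Convex ℝ X)
    {E : Type*} [NormedAddCommGroup E] [NormedSpace ℝ E] (hAP : RealAP E)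
    {f : X → E} (haff : AffOn X f) (φ : ℕ → X → E) (hφc : ∀ k, Continuous (φ k))
    (hlim : ∀ x, Tendsto (fun k => φ k x) atTop (𝓝 (f x))) {M : ℝ} (hM : 0 < M)
    (hfM : ∀ x, ‖f x‖ ≤ M) :
    ∃ a : ℕ → X → E, (∀ n, Continuous (a n)) ∧ (∀ n, AffOn X (a n)) ∧ (∀ n x, ‖a n x‖ ≤ M) ∧
      ∀ x, Tendsto (fun n => a n x) atTop (𝓝 (f x)) := by
  have haff' : AffOn X (fun x => M⁻¹ • f x) := by
    intro x y z t h0 h1 hz
    show M⁻¹ • f z = t • (M⁻¹ • f x) + (1 - t) • (M⁻¹ • f y)
    rw [haff x y z t h0 h1 hz, smul_add, smul_comm M⁻¹ t, smul_comm M⁻¹ (1 - t)]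
  have hf1 : ∀ x, ‖M⁻¹ • f x‖ ≤ 1 := by
    intro x
    rw [norm_smul, norm_inv, Real.norm_of_nonneg hM.le, inv_mul_le_iff₀ hM, mul_one]
    exact hfM x
  obtain ⟨a, ha1, ha2, ha3, ha4⟩ := main hc hconv hAP haff' (fun k x => retr (M⁻¹ • φ k x))
    (fun k => continuous_retr.comp ((hφc k).const_smul _)) (fun k x => norm_retr _)
    (fun x => by
      have h1 : Tendsto (fun k => retr (M⁻¹ • φ k x)) atTop (𝓝 (retr (M⁻¹ • f x))) :=
        (continuous_retr.tendsto _).comp ((hlim x).const_smul _)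
      rwa [retr_self (hf1 x)] at h1)
  refine ⟨fun n x => M • a n x, fun n => (ha1 n).const_smul _, fun n x y z t h0 h1 hz => ?_,
    fun n x => ?_, fun x => ?_⟩
  · show M • a n z = t • (M • a n x) + (1 - t) • (M • a n y)
    rw [ha2 n x y z t h0 h1 hz, smul_add, smul_comm M t, smul_comm M (1 - t)]
  · rw [norm_smul, Real.norm_of_nonneg hM.le]
    calc M * ‖a n x‖ ≤ M * 1 := mul_le_mul_of_nonneg_left (ha3 n x) hM.le
      _ = M := mul_one M
  · have := (ha4 x).const_smul M
    rwa [smul_smul, mul_inv_cancel₀ hM.ne', one_smul] at this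

end Pool.Agent.X203.BaireAff
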