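import Mathlib

/-! Automatic continuity of Borel linear maps from a Banach space to a separable normed space, and
separability of `ℓ₁`-sums. -/

namespace Pool.Agent.X203

open Filter Topology MeasureTheory TopologicalSpace

/-- separability of countable `ℓ₁` sums -/
theorem separable_lp_one {ι : Type*} [Countable ι] (E : ι → Type*)
    [∀ i, NormedAddCommGroup (E i)] [∀ i, NormedSpace ℝ (E i)] [∀ i, SeparableSpace (E i)] :
    SeparableSpace (lp E 1) := by
  classical
  set S : Set (lp E 1) := ⋃ i, Set.range (lp.singleContinuousLinearMap ℝ E 1 i) with hS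
  have h1 : IsSeparable S :=
    IsSeparable.iUnion fun i => isSeparable_range (lp.singleContinuousLinearMap ℝ E 1 i).continuous
  have h2 : IsSeparable (closure (Submodule.span ℝ S : Set (lp E 1))) := (h1.span (R := ℝ)).closure
  have h3 : closure (Submodule.span ℝ S : Set (lp E 1)) = Set.univ := by
    rw [Set.eq_univ_iff_forall]
    intro f
    have h4 := lp.hasSum_single (p := 1) ENNReal.one_ne_top f
    refine mem_closure_of_tendsto h4 (Filter.Eventually.of_forall fun F => ?_)
    refine Submodule.sum_mem _ fun i _ => Submodule.subset_span ?_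
    rw [hS, Set.mem_iUnion]
    exact ⟨i, f i, rfl⟩
  rw [h3] at h2
  exact isSeparable_univ_iff.1 h2

theorem continuous_of_borel_linear {W X : Type*} [NormedAddCommGroup W] [NormedSpace ℝ W]
    [CompleteSpace W] [NormedAddCommGroup X] [NormedSpace ℝ X] [SeparableSpace X]
    [MeasurableSpace W] [BorelSpace W] [MeasurableSpace X] [BorelSpace X]
    (κ : W →ₗ[ℝ] X) (hκ : Measurable κ) : Continuous κ := by
  classical
  by_contra hcon
  have hC : ∀ C : ℝ, ∃ w, C * ‖w‖ < ‖κ w‖ := by
    intro C
    by_contra h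
    push Not at h
    exact hcon (LinearMap.mkContinuous κ C h).continuous
  choose w hw using fun n : ℕ => hC (2 ^ n)
  have hwpos : ∀ n, 0 < ‖κ (w n)‖ := fun n => lt_of_le_of_lt (by positivity) (hw n)
  let v : ℕ → W := fun n => (1 / ‖κ (w n)‖) • w n
  have hv1 : ∀ n, ‖κ (v n)‖ = 1 := by
    intro n
    simp only [v]
    rw [map_smul, norm_smul, Real.norm_eq_abs, abs_of_pos (by have := hwpos n; positivity),
      one_div_mul_cancel (hwpos n).ne']
  have hv2 : ∀ n, ‖v n‖ ≤ (1 / 2 : ℝ) ^ n := by
    intro n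
    simp only [v]
    rw [norm_smul, Real.norm_eq_abs, abs_of_pos (by have := hwpos n; positivity), one_div,
      inv_mul_le_iff₀ (hwpos n), one_div, inv_pow]
    have h1 := (hw n).le
    have h2 : (0 : ℝ) < 2 ^ n := by positivity
    rw [← div_eq_mul_inv, le_div_iff₀ h2, mul_comm]
    exact h1
  let b : ZMod 2 → ℝ := fun z => if z = 0 then 0 else 1
  let S : (ℕ → ZMod 2) → W := fun g => ∑' n, b (g n) • v n
  have hb : ∀ z, |b z| ≤ 1 := by
    intro z
    simp only [b]
    split_ifs <;> simp
  have hterm : ∀ n g, ‖b ((g : ℕ → ZMod 2) n) • v n‖ ≤ (1 / 2 : ℝ) ^ n := by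
    intro n g
    rw [norm_smul, Real.norm_eq_abs]
    calc |b (g n)| * ‖v n‖ ≤ 1 * ‖v n‖ := by
          apply mul_le_mul_of_nonneg_right (hb _) (norm_nonneg _)
      _ ≤ _ := by rw [one_mul]; exact hv2 n
  have hsum : ∀ g : ℕ → ZMod 2, Summable (fun n => b (g n) • v n) := fun g =>
    Summable.of_norm_bounded (g := fun n => (1 / 2 : ℝ) ^ n) summable_geometric_two
      (fun n => hterm n g)
  have hS : Continuous S := by
    apply continuous_tsum (u := fun n => (1 / 2 : ℝ) ^ n)
    · intro n
      have h2 : Continuous (b ∘ fun g : ℕ → ZMod 2 => g n) :=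
        continuous_of_discreteTopology.comp (continuous_apply n)
      exact h2.smul continuous_const
    · exact summable_geometric_two
    · exact hterm
  let H : (ℕ → ZMod 2) → X := fun g => κ (S g)
  have hHm : Measurable H := hκ.comp hS.measurable
  let μ : Measure (ℕ → ZMod 2) := Measure.addHaar
  obtain ⟨m₁, -⟩ : ∃ x : X, x = 0 := ⟨0, rfl⟩
  have : Nonempty X := ⟨m₁⟩
  have hpos : ∃ n, 0 < μ (H ⁻¹' Metric.ball (TopologicalSpace.denseSeq X n) (1 / 2)) := by
    by_contra hcon
    push Not at hcon
    have h1 : μ Set.univ = 0 := by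
      have h2 : (Set.univ : Set (ℕ → ZMod 2)) =
          ⋃ n, H ⁻¹' Metric.ball (TopologicalSpace.denseSeq X n) (1 / 2) := by
        ext g
        simp only [Set.mem_univ, Set.mem_iUnion, Set.mem_preimage, Metric.mem_ball, true_iff]
        exact (TopologicalSpace.denseRange_denseSeq X).exists_dist_lt (H g) one_half_pos
      rw [h2]
      exact measure_iUnion_null fun n => le_antisymm (hcon n) bot_le
    have h3 : (0 : ENNReal) < μ Set.univ := isOpen_univ.measure_pos μ ⟨0, trivial⟩
    exact h3.ne' h1
  obtain ⟨n, hn⟩ := hpos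
  set E := H ⁻¹' Metric.ball (TopologicalSpace.denseSeq X n) (1 / 2) with hE
  have hEm : MeasurableSet E := hHm measurableSet_ball
  have hst := Measure.sub_mem_nhds_zero_of_addHaar_pos μ E hEm hn
  have hlim : Tendsto (fun m : ℕ => (Pi.single m 1 : ℕ → ZMod 2)) atTop (𝓝 0) := by
    rw [tendsto_pi_nhds]
    intro k
    apply tendsto_nhds_of_eventually_eq
    filter_upwards [eventually_gt_atTop k] with m hm
    simp only [Pi.zero_apply]
    rw [Pi.single_apply, if_neg (by omega)]
  obtain ⟨m, hm⟩ := (hlim.eventually hst).exists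
  obtain ⟨g, hg, g', hg', hgg⟩ := hm
  have hne : ∀ k, k ≠ m → g k = g' k := by
    intro k hk
    have := congrFun hgg k
    simp only [Pi.sub_apply] at this
    rw [Pi.single_apply, if_neg hk] at this
    exact sub_eq_zero.1 this
  have hm1 : g m - g' m = 1 := by
    have := congrFun hgg m
    simpa using this
  have hbm : |b (g m) - b (g' m)| = 1 := by
    have hz : ∀ a c : ZMod 2, a - c = 1 → (a = 0 ∧ c ≠ 0) ∨ (a ≠ 0 ∧ c = 0) := by decide
    rcases hz _ _ hm1 with ⟨h1, h2⟩ | ⟨h1, h2⟩ <;> simp [b, h1, h2]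
  have hdiff : H g - H g' = (b (g m) - b (g' m)) • κ (v m) := by
    simp only [H, S]
    rw [← map_sub, ← (hsum g).tsum_sub (hsum g'), tsum_eq_single m, ← sub_smul, map_smul]
    intro k hk
    rw [hne k hk, sub_self]
  have h4 : dist (H g) (H g') < 1 := by
    have h5 : dist (H g) (TopologicalSpace.denseSeq X n) < 1 / 2 := hg
    have h6 : dist (H g') (TopologicalSpace.denseSeq X n) < 1 / 2 := hg'
    have := dist_triangle_right (H g) (H g') (TopologicalSpace.denseSeq X n)
    linarith
  rw [dist_eq_norm, hdiff, norm_smul, Real.norm_eq_abs, hbm, hv1] at h4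
  norm_num at h4

end Pool.Agent.X203
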