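import Mathlib
import Pool.Agent.H270R3.Cap.Outer

/-!
Functions of `H²` with nonnegative real part, their logarithms and small roots.
-/

set_option autoImplicit false

open MeasureTheory Filter
open scoped ENNReal InnerProductSpace ComplexConjugate Topology

namespace Pool.Agent.X203.Exp

open Pool.Agent.H270R3.Cap

/-- an `H²` function with prescribed real part -/
theorem exists_re2 (v : Circ → ℝ) (hvm : MemLp (fun x => (v x : ℂ)) 2 m) :
    ∃ X ∈ H2, ∀ᵐ x ∂m, (X x).re = v x := by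
  set vL : L2 := hvm.toLp _ with hvL
  have hvae : vL =ᵐ[m] fun x => (v x : ℂ) := hvm.coeFn_toLp
  have hcv : ∀ n : ℤ, fourierCoeff vL (-n) = conj (fourierCoeff vL n) := by
    intro n
    have h1 : fourierCoeff vL = fourierCoeff (fun x => conj (vL x)) := by
      apply fourierCoeff_congr_ae
      filter_upwards [hvae] with x hx
      rw [hx, Complex.conj_ofReal]
    calc fourierCoeff vL (-n) = fourierCoeff (fun x => conj (vL x)) (-n) := by
          exact congrFun h1 (-n)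
      _ = conj (fourierCoeff vL n) := by rw [coef_conj, neg_neg]
  set p : L2 := ((H2.orthogonalProjectionOnto vL : H2) : L2) with hp
  have hpm : p ∈ H2 := (H2.orthogonalProjectionOnto vL).2
  set c : ℂ := fourierCoeff vL 0 with hc
  have hcc : conj c = c := by
    have := hcv 0
    rw [neg_zero] at this
    exact this.symm
  have h0m : (fourierLp 2 0 : L2) ∈ H2 := by
    intro k hk
    rw [← coefL_apply, coef_fourier, if_neg (by omega)]
  set V : L2 := (2 : ℂ) • p - c • (fourierLp 2 0 : L2) with hV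
  have hVm : V ∈ H2 := H2.sub_mem (H2.smul_mem _ hpm) (H2.smul_mem _ h0m)
  refine ⟨V, hVm, ?_⟩
  set Vc : L2 := (memLp_conj (Lp.memLp V)).toLp _ with hVc
  have hVcae : Vc =ᵐ[m] fun x => conj (V x) := (memLp_conj (Lp.memLp V)).coeFn_toLp
  have hVcoef : ∀ n : ℤ, fourierCoeff V n
      = (if 0 < n then 2 * fourierCoeff vL n else if n = 0 then c else 0) := by
    intro n
    by_cases h1 : n < 0
    · rw [hVm n h1, if_neg (by omega), if_neg (by omega)]
    · obtain ⟨k, rfl⟩ := Int.eq_ofNat_of_zero_le (not_lt.1 h1)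
      rw [← coefL_apply, hV, map_sub, map_smul, map_smul, coef_fourier, coefL_apply, hp, coef_proj]
      by_cases hk : k = 0
      · subst hk
        simp only [Nat.cast_zero, smul_eq_mul, if_true, lt_irrefl, if_false]
        rw [← hc]; ring
      · rw [if_neg (by omega), if_pos (by omega)]
        simp
  have hsum : V + Vc = (2 : ℂ) • vL := by
    apply L2_ext_coef
    intro n
    rw [← coefL_apply, ← coefL_apply, map_add, map_smul, coefL_apply, coefL_apply, coefL_apply]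
    have h1 : fourierCoeff Vc n = conj (fourierCoeff V (-n)) := by
      rw [← coef_conj]
      exact congrFun (fourierCoeff_congr_ae hVcae) n
    rw [h1, hVcoef, hVcoef, smul_eq_mul]
    rcases lt_trichotomy n 0 with h | h | h
    · rw [if_neg (by omega), if_neg (by omega), if_pos (by omega), map_mul, hcv, Complex.conj_conj,
        map_ofNat, zero_add]
    · subst h
      simp only [neg_zero, lt_irrefl, if_false, if_true]
      rw [hcc, ← hc]; ring
    · rw [if_pos h, if_neg (by omega), if_neg (by omega), map_zero, add_zero]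
  have h1 : (V + Vc : L2) =ᵐ[m] ((2 : ℂ) • vL : L2) := by rw [hsum]
  filter_upwards [h1, Lp.coeFn_add V Vc, Lp.coeFn_smul (2 : ℂ) vL, hvae, hVcae] with x e1 e2 e3 e4 e5
  rw [e2, e3, Pi.add_apply, Pi.smul_apply, e4, e5, smul_eq_mul, Complex.add_conj] at e1
  have e6 : (2 * (V x).re : ℝ) = 2 * v x := by exact_mod_cast e1
  linarith

/-- limits of functions of the disc algebra with nonnegative real part -/
def Pos (X : L2) : Prop := ∃ f : ℕ → C(Circ, ℂ), (∀ k, f k ∈ AD) ∧ (∀ k x, 0 ≤ (f k x).re) ∧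
  Tendsto (fun k => cL (f k)) atTop (𝓝 X)

theorem re_dil_nonneg {r : ℝ} (h0 : 0 ≤ r) (h1 : r < 1) {X : L2} (hX : X ∈ H2)
    (hC : ∀ᵐ x ∂m, 0 ≤ (X x).re) (x : Circ) : 0 ≤ (dil r X x).re := by
  rw [dil_apply h0 h1 hX]
  set w := (r : ℂ) * zf x with hw
  have hw1 : ‖w‖ < 1 := by rw [hw, rz_norm h0]; exact h1
  rw [← P1 hw1 hX]
  have hi : Integrable (fun y => (pk w y : ℂ) * X y) m :=
    (memLp_pk_mul w (Lp.memLp X)).integrable (by norm_num)
  have h2 : (∫ y, (pk w y : ℂ) * X y ∂m).re = ∫ y, pk w y * (X y).re ∂m := by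
    have h3 := integral_re hi
    have h4 : ∫ y, pk w y * (X y).re ∂m = ∫ y, RCLike.re ((pk w y : ℂ) * X y) ∂m := by
      refine integral_congr_ae (Eventually.of_forall fun y => ?_)
      show pk w y * (X y).re = ((pk w y : ℂ) * X y).re
      rw [Complex.re_ofReal_mul]
    rw [h4, h3]; rfl
  rw [h2]
  apply integral_nonneg_of_ae
  filter_upwards [hC] with y hy
  exact mul_nonneg (pk_nonneg hw1 y) hy

theorem pos_of_re {X : L2} (hX : X ∈ H2) (hC : ∀ᵐ x ∂m, 0 ≤ (X x).re) : Pos X :=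
  ⟨fun k => dil (rr k) X, fun k => dil_mem (rr_nonneg k) (rr_lt k) X,
    fun k x => re_dil_nonneg (rr_nonneg k) (rr_lt k) hX hC x, dil_tendsto hX⟩

theorem one_add_ne {z : ℂ} (hz : 0 ≤ z.re) : 1 + z ≠ 0 := by
  intro h
  have := congrArg Complex.re h
  simp at this
  linarith

theorem one_add_slit {z : ℂ} (hz : 0 ≤ z.re) : 1 + z ∈ Complex.slitPlane := by
  left
  simp
  linarith

/-- logarithms of functions of the disc algebra -/
theorem log_mem {f : C(Circ, ℂ)} (hf : f ∈ AD) (hre : ∀ x, 0 ≤ (f x).re) :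
    ∃ g : C(Circ, ℂ), g ∈ AD ∧ ∀ x, g x = Complex.log (1 + f x) := by
  set R : ℝ := ‖f‖ + 1 with hR
  have hR1 : 1 ≤ R := by rw [hR]; linarith [norm_nonneg f]
  set c : ℝ := R ^ 2 with hc
  have hc1 : 1 ≤ c := by rw [hc]; nlinarith
  have hc0 : 0 < c := by linarith
  set h : C(Circ, ℂ) := 1 - ((c⁻¹ : ℝ) : ℂ) • (1 + f) with hh
  have hval : ∀ x, h x = 1 - ((c⁻¹ : ℝ) : ℂ) * (1 + f x) := by
    intro x; rw [hh]; simp; ring
  have hsq : ∀ x, ‖h x‖ ^ 2 ≤ 1 - c⁻¹ := by
    intro x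
    rw [hval, ← Complex.normSq_eq_norm_sq, Complex.normSq_apply]
    have hf1 : ‖1 + f x‖ ≤ R := by
      refine (norm_add_le _ _).trans ?_
      have := f.norm_coe_le_norm x
      rw [norm_one, hR]; linarith
    have hf2 : (1 + f x).re ^ 2 + (1 + f x).im ^ 2 ≤ c := by
      have h1 := pow_le_pow_left₀ (norm_nonneg _) hf1 2
      rw [← Complex.normSq_eq_norm_sq, Complex.normSq_apply] at h1
      rw [hc]; nlinarith
    have hf3 : 1 ≤ (1 + f x).re := by
      have := hre x
      simp; exact this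
    set a := (1 + f x).re
    set b := (1 + f x).im
    have e1 : (1 - ((c⁻¹ : ℝ) : ℂ) * (1 + f x)).re = 1 - c⁻¹ * a := by
      rw [Complex.sub_re, Complex.re_ofReal_mul, Complex.one_re]
    have e2 : (1 - ((c⁻¹ : ℝ) : ℂ) * (1 + f x)).im = - (c⁻¹ * b) := by
      rw [Complex.sub_im, Complex.im_ofReal_mul, Complex.one_im]; ring
    rw [e1, e2]
    have hci : 0 < c⁻¹ := inv_pos.2 hc0
    have h2 : c⁻¹ * c = 1 := inv_mul_cancel₀ hc0.ne'
    have h3 : c⁻¹ ^ 2 * (a ^ 2 + b ^ 2) ≤ c⁻¹ := by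
      calc c⁻¹ ^ 2 * (a ^ 2 + b ^ 2) ≤ c⁻¹ ^ 2 * c :=
            mul_le_mul_of_nonneg_left hf2 (by positivity)
        _ = c⁻¹ := by rw [pow_two, mul_assoc, h2, mul_one]
    have h4 : c⁻¹ ≤ c⁻¹ * a := by nlinarith
    nlinarith
  have hlt : ‖h‖ < 1 := by
    have h1 : ‖h‖ ≤ Real.sqrt (1 - c⁻¹) := by
      rw [ContinuousMap.norm_le _ (Real.sqrt_nonneg _)]
      intro x
      exact Real.le_sqrt_of_sq_le (hsq x)
    refine h1.trans_lt ?_
    have : 1 - c⁻¹ < 1 := by
      have := inv_pos.2 hc0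
      linarith
    calc Real.sqrt (1 - c⁻¹) < Real.sqrt 1 := by
          apply Real.sqrt_lt_sqrt
          · have := hsq 0
            nlinarith [sq_nonneg ‖h 0‖]
          · exact this
      _ = 1 := Real.sqrt_one
  have hhm : h ∈ AD := AD.sub_mem AD.one_mem (AD.smul_mem (AD.add_mem AD.one_mem hf) _)
  have hsum : Summable fun n : ℕ => ((n : ℂ)⁻¹) • h ^ n := by
    refine Summable.of_norm_bounded (g := fun n => ‖h‖ ^ n)
      (summable_geometric_of_lt_one (norm_nonneg _) hlt) fun n => ?_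
    rw [norm_smul]
    have h1 : ‖((n : ℂ)⁻¹)‖ ≤ 1 := by
      rw [norm_inv, Complex.norm_natCast]
      rcases Nat.eq_zero_or_pos n with h0 | h0
      · rw [h0]; simp
      · apply inv_le_one_of_one_le₀
        exact_mod_cast h0
    have h2 : ‖h ^ n‖ ≤ ‖h‖ ^ n := norm_pow_le _ _
    calc ‖((n : ℂ)⁻¹)‖ * ‖h ^ n‖ ≤ 1 * ‖h‖ ^ n :=
          mul_le_mul h1 h2 (norm_nonneg _) zero_le_one
      _ = ‖h‖ ^ n := one_mul _
  set S : C(Circ, ℂ) := ∑' n : ℕ, ((n : ℂ)⁻¹) • h ^ n with hS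
  have hSm : S ∈ AD := by
    apply AD_closed.mem_of_tendsto hsum.hasSum
    exact Filter.Eventually.of_forall fun s => AD.sum_mem fun n _ => AD.smul_mem (AD.pow_mem hhm n) _
  refine ⟨((Real.log c : ℝ) : ℂ) • (1 : C(Circ, ℂ)) - S,
    AD.sub_mem (AD.smul_mem AD.one_mem _) hSm, fun x => ?_⟩
  have h1 := ContinuousMap.hasSum_apply hsum.hasSum x
  have hx1 : ‖h x‖ < 1 := (h.norm_coe_le_norm x).trans_lt hlt
  have h2 := Complex.hasSum_taylorSeries_neg_log hx1
  have h3 : S x = - Complex.log (1 - h x) := by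
    refine h1.unique (hs_congr h2 fun n => ?_)
    simp only [ContinuousMap.smul_apply, ContinuousMap.pow_apply, smul_eq_mul]
    rw [div_eq_mul_inv, mul_comm]
  have h4 : 1 + f x = (c : ℂ) * (1 - h x) := by
    rw [hval]
    push_cast
    have : (c : ℂ) ≠ 0 := by exact_mod_cast hc0.ne'
    field_simp
    ring
  have h5 : (1 - h x) ≠ 0 := by
    intro h6
    rw [h6, mul_zero] at h4
    exact one_add_ne (hre x) h4
  rw [h4, Complex.log_ofReal_mul hc0 h5]
  simp only [ContinuousMap.sub_apply, ContinuousMap.smul_apply, ContinuousMap.one_apply, smul_eq_mul,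
    mul_one]
  rw [h3]; ring

theorem convex_re : Convex ℝ {z : ℂ | 0 ≤ z.re} := by
  have : {z : ℂ | 0 ≤ z.re} = Complex.reCLM ⁻¹' (Set.Ici 0) := rfl
  rw [this]
  exact (convex_Ici 0).is_linear_preimage Complex.reCLM.isBoundedLinearMap.toIsLinearMap

theorem log_lip {a b : ℂ} (ha : 0 ≤ a.re) (hb : 0 ≤ b.re) :
    ‖Complex.log (1 + a) - Complex.log (1 + b)‖ ≤ ‖a - b‖ := by
  have h := convex_re.norm_image_sub_le_of_norm_hasDerivWithin_le
    (f := fun z => Complex.log (1 + z)) (f' := fun z => (1 + z)⁻¹) (C := 1)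
    (fun x hx => ?_) (fun x hx => ?_) hb ha
  · simpa using h
  · have h1 : HasDerivAt (fun z : ℂ => 1 + z) 1 x := (hasDerivAt_id x).const_add 1
    have h2 := h1.clog (one_add_slit hx)
    rw [one_div] at h2
    exact h2.hasDerivWithinAt
  · rw [norm_inv]
    apply inv_le_one_of_one_le₀
    refine le_trans ?_ (Complex.re_le_norm _)
    simp
    exact hx

theorem exp_lip' {c : ℝ} (hc : 0 ≤ c) {a b : ℂ} (ha : 0 ≤ a.re) (hb : 0 ≤ b.re) :
    ‖Complex.exp (-(c : ℂ) * a) - Complex.exp (-(c : ℂ) * b)‖ ≤ c * ‖a - b‖ := by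
  have h := exp_lip (C := 0) (a := -(c : ℂ) * a) (b := -(c : ℂ) * b) ?_ ?_
  · rw [Real.exp_zero, one_mul, ← mul_sub, norm_mul, norm_neg, Complex.norm_real,
      Real.norm_of_nonneg hc] at h
    exact h
  · rw [← Complex.ofReal_neg, Complex.re_ofReal_mul]
    nlinarith
  · rw [← Complex.ofReal_neg, Complex.re_ofReal_mul]
    nlinarith

/-- the logarithm of `1 + X` -/
theorem exists_log {X : L2} (hX : Pos X) (hre : ∀ᵐ x ∂m, 0 ≤ (X x).re) :
    ∃ Y : L2, Pos Y ∧ (∀ᵐ x ∂m, Y x = Complex.log (1 + X x)) := by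
  obtain ⟨f, hf, hfre, hlim⟩ := hX
  choose g hg hgv using fun k => log_mem (hf k) (hfre k)
  have hmeas : AEStronglyMeasurable (fun x => Complex.log (1 + X x)) m := by
    have h1 : AEMeasurable (fun x => X x) m := (Lp.aestronglyMeasurable X).aemeasurable
    exact (Complex.measurable_log.comp_aemeasurable (h1.const_add 1)).aestronglyMeasurable
  have hmem : MemLp (fun x => Complex.log (1 + X x)) 2 m := by
    refine MemLp.of_le (Lp.memLp X) hmeas ?_
    filter_upwards [hre] with x hx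
    have := log_lip hx (b := 0) le_rfl
    simpa using this
  refine ⟨hmem.toLp _, ⟨g, hg, fun k x => ?_, ?_⟩, hmem.coeFn_toLp⟩
  · rw [hgv, Complex.log_re]
    apply Real.log_nonneg
    refine le_trans ?_ (Complex.re_le_norm _)
    simp
    exact hfre k x
  · rw [tendsto_iff_norm_sub_tendsto_zero]
    have h4 := tendsto_iff_norm_sub_tendsto_zero.1 hlim
    refine squeeze_zero (fun k => norm_nonneg _) (fun k => ?_) h4
    have : ‖cL (g k) - hmem.toLp _‖ ≤ 1 * ‖cL (f k) - X‖ := by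
      apply Lp.norm_le_mul_norm_of_ae_le_mul
      filter_upwards [Lp.coeFn_sub (cL (g k)) (hmem.toLp _),
        Lp.coeFn_sub (cL (f k)) X, cL_ae (g k), cL_ae (f k), hmem.coeFn_toLp, hre]
        with x e1 e2 e3 e4 e5 e6
      rw [e1, e2, Pi.sub_apply, Pi.sub_apply, e3, e4, e5, hgv, one_mul]
      exact log_lip (hfre k x) e6
    rwa [one_mul] at this

/-- the exponential of `-c X` is in `H^∞` -/
theorem exists_exp {X : L2} (hX : Pos X) (hre : ∀ᵐ x ∂m, 0 ≤ (X x).re) {c : ℝ} (hc : 0 ≤ c) :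
    ∃ b : Linf, IsHinf b ∧ ∀ᵐ x ∂m, b x = Complex.exp (-(c : ℂ) * X x) := by
  obtain ⟨f, hf, hfre, hlimf⟩ := hX
  have hmeas : AEStronglyMeasurable (fun x => Complex.exp (-(c : ℂ) * X x)) m :=
    Complex.continuous_exp.comp_aestronglyMeasurable
      ((Lp.aestronglyMeasurable X).const_mul (-(c : ℂ)))
  have hbd : ∀ᵐ x ∂m, ‖Complex.exp (-(c : ℂ) * X x)‖ ≤ 1 := by
    filter_upwards [hre] with x hx
    rw [Complex.norm_exp, ← Complex.ofReal_neg, Complex.re_ofReal_mul]
    apply Real.exp_le_one_iff.2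
    nlinarith
  have hI : MemLp (fun x => Complex.exp (-(c : ℂ) * X x)) ∞ m := memLp_top_of_bound hmeas _ hbd
  have h2 : MemLp (fun x => Complex.exp (-(c : ℂ) * X x)) 2 m := hI.mono_exponent le_top
  refine ⟨hI.toLp _, ?_, hI.coeFn_toLp⟩
  have hlim : Tendsto (fun k => cL (eC (-(c : ℂ) • f k))) atTop (𝓝 (h2.toLp _)) := by
    rw [tendsto_iff_norm_sub_tendsto_zero]
    have h3 : Tendsto (fun k => c * ‖cL (f k) - X‖) atTop (𝓝 0) := by
      have h4 := (tendsto_iff_norm_sub_tendsto_zero.1 hlimf).const_mul c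
      rwa [mul_zero] at h4
    refine squeeze_zero (fun k => norm_nonneg _) (fun k => ?_) h3
    apply Lp.norm_le_mul_norm_of_ae_le_mul
    filter_upwards [Lp.coeFn_sub (cL (eC (-(c : ℂ) • f k))) (h2.toLp _),
      Lp.coeFn_sub (cL (f k)) X, cL_ae (eC (-(c : ℂ) • f k)), cL_ae (f k),
      h2.coeFn_toLp, hre] with x e1 e2 e3 e4 e5 e6
    rw [e1, e2, Pi.sub_apply, Pi.sub_apply, e3, e4, e5, eC_apply]
    exact exp_lip' hc (hfre k x) e6
  have hmem : h2.toLp _ ∈ H2 :=
    H2_closed.mem_of_tendsto hlim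
      (Eventually.of_forall fun k => eC_mem (AD.smul_mem (hf k) _))
  intro n hn
  rw [← hmem n hn]
  exact congrFun (fourierCoeff_congr_ae (hI.coeFn_toLp.trans h2.coeFn_toLp.symm)) n

end Pool.Agent.X203.Exp
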