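import Mathlib
import Pool.Agent.X203.ExpA

/-!
Functions of `H^∞` close to `1`, small on given small sets, with small argument.
-/

set_option autoImplicit false

open MeasureTheory Filter
open scoped ENNReal InnerProductSpace ComplexConjugate Topology

namespace Pool.Agent.X203.Exp

open Pool.Agent.H270R3.Cap

theorem exists_p (B : ℕ → Set Circ) (hB : ∀ n, MeasurableSet (B n))
    (hs : ∑' n : ℕ, ((n : ℝ≥0∞) + 1) * m (B n) ≠ ∞) :
    ∃ p : ℕ → Linf, (∀ n, IsHinf (p n)) ∧ (∀ n, ∀ᵐ x ∂m, ‖p n x‖ ≤ 1) ∧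
      (∀ n : ℕ, ∀ᵐ x ∂m, Real.cos (Real.pi / (2 * ((n : ℝ) + 1))) * ‖p n x‖ ≤ (p n x).re) ∧
      (∀ n, ∀ᵐ x ∂m, p n x ≠ 0) ∧
      (∀ n, ∀ η > 0, ∃ N, ∀ k ≥ N, ∀ᵐ x ∂m, x ∈ B k → ‖p n x‖ ≤ η) ∧
      (∀ᵐ x ∂m, Tendsto (fun n => p n x) atTop (𝓝 1)) := by
  set V : Circ → ℝ≥0∞ := fun x => ∑' n : ℕ, (B n).indicator (fun _ => (n : ℝ≥0∞) + 1) x with hV
  have hVm : Measurable V := Measurable.ennreal_tsum fun n => measurable_const.indicator (hB n)
  have hVint : ∫⁻ x, V x ∂m ≠ ∞ := by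
    rw [hV]
    simp only
    rw [lintegral_tsum fun n => (measurable_const.indicator (hB n)).aemeasurable]
    have : ∀ n : ℕ, ∫⁻ x, (B n).indicator (fun _ => (n : ℝ≥0∞) + 1) x ∂m
        = ((n : ℝ≥0∞) + 1) * m (B n) := by
      intro n
      rw [lintegral_indicator (hB n), setLIntegral_const]
    simp only [this]
    exact hs
  have hVfin : ∀ᵐ x ∂m, V x < ∞ := ae_lt_top hVm hVint
  have hVge : ∀ x k, x ∈ B k → (k : ℝ≥0∞) + 1 ≤ V x := by
    intro x k hx
    have h1 := ENNReal.le_tsum (f := fun n : ℕ => (B n).indicator (fun _ => (n : ℝ≥0∞) + 1) x) k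
    rw [Set.indicator_of_mem hx] at h1
    exact h1
  set u : Circ → ℝ := fun x => Real.sqrt (V x).toReal with hu
  have hum : Measurable u := hVm.ennreal_toReal.sqrt
  have hu0 : ∀ x, 0 ≤ u x := fun x => Real.sqrt_nonneg _
  have hu2 : MemLp (fun x => (u x : ℂ)) 2 m := by
    have h1 : MemLp u 2 m := by
      rw [memLp_two_iff_integrable_sq hum.aestronglyMeasurable]
      have h2 : (fun x => u x ^ 2) = fun x => (V x).toReal := by
        ext x
        rw [hu]
        exact Real.sq_sqrt ENNReal.toReal_nonneg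
      rw [h2]
      exact integrable_toReal_of_lintegral_ne_top hVm.aemeasurable hVint
    exact h1.ofReal
  obtain ⟨F, hF, hFre⟩ := exists_re2 u hu2
  have hF0 : ∀ᵐ x ∂m, 0 ≤ (F x).re := by
    filter_upwards [hFre] with x hx
    rw [hx]; exact hu0 x
  obtain ⟨L, hL, hLv⟩ := exists_log (pos_of_re hF hF0) hF0
  have hLre : ∀ᵐ x ∂m, Real.log (1 + u x) ≤ (L x).re := by
    filter_upwards [hLv, hFre] with x h1 h2
    rw [h1, Complex.log_re]
    apply Real.log_le_log
    · linarith [hu0 x]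
    · refine le_trans ?_ (Complex.re_le_norm _)
      rw [Complex.add_re, Complex.one_re, h2]
  have hL0 : ∀ᵐ x ∂m, 0 ≤ (L x).re := by
    filter_upwards [hLre] with x h1
    exact (Real.log_nonneg (by linarith [hu0 x])).trans h1
  have hLim : ∀ᵐ x ∂m, |(L x).im| ≤ Real.pi / 2 := by
    filter_upwards [hLv, hF0] with x h1 h2
    rw [h1, Complex.log_im, Complex.abs_arg_le_pi_div_two_iff, Complex.add_re, Complex.one_re]
    linarith
  choose p hp hpv using fun n : ℕ => exists_exp hL hL0 (c := 1 / ((n : ℝ) + 1)) (by positivity)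
  have hnorm : ∀ n : ℕ, ∀ᵐ x ∂m, ‖p n x‖ = Real.exp (-(1 / ((n : ℝ) + 1)) * (L x).re) := by
    intro n
    filter_upwards [hpv n] with x h1
    rw [h1, Complex.norm_exp, ← Complex.ofReal_neg, Complex.re_ofReal_mul]
  refine ⟨p, hp, fun n => ?_, fun n => ?_, fun n => ?_, fun n η hη => ?_, ?_⟩
  · filter_upwards [hnorm n, hL0] with x h1 h2
    rw [h1]
    apply Real.exp_le_one_iff.2
    have : (0 : ℝ) ≤ 1 / ((n : ℝ) + 1) := by positivity
    nlinarith
  · filter_upwards [hnorm n, hpv n, hLim] with x h1 h2 h3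
    rw [h1, h2, Complex.exp_re, ← Complex.ofReal_neg, Complex.re_ofReal_mul, Complex.im_ofReal_mul,
      mul_comm]
    apply mul_le_mul_of_nonneg_left _ (Real.exp_pos _).le
    rw [← Real.cos_abs (-(1 / ((n : ℝ) + 1)) * (L x).im)]
    have hn1 : (0 : ℝ) < (n : ℝ) + 1 := by positivity
    have h4 : |(-(1 / ((n : ℝ) + 1)) * (L x).im)| ≤ Real.pi / (2 * ((n : ℝ) + 1)) := by
      rw [abs_mul, abs_neg, abs_of_nonneg (by positivity : (0 : ℝ) ≤ 1 / ((n : ℝ) + 1))]
      calc 1 / ((n : ℝ) + 1) * |(L x).im| ≤ 1 / ((n : ℝ) + 1) * (Real.pi / 2) :=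
            mul_le_mul_of_nonneg_left h3 (by positivity)
        _ = Real.pi / (2 * ((n : ℝ) + 1)) := by field_simp
    refine Real.cos_le_cos_of_nonneg_of_le_pi (abs_nonneg _) ?_ h4
    rw [div_le_iff₀ (by positivity)]
    have : (0 : ℝ) ≤ n := Nat.cast_nonneg n
    nlinarith [Real.pi_pos]
  · filter_upwards [hpv n] with x h1
    rw [h1]; exact Complex.exp_ne_zero _
  · -- smallness on `B k`
    have hn1 : (0 : ℝ) < 1 / ((n : ℝ) + 1) := by positivity
    have hlim : Tendsto (fun k : ℕ => Real.exp (-(1 / ((n : ℝ) + 1)) *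
        Real.log (1 + Real.sqrt ((k : ℝ) + 1)))) atTop (𝓝 0) := by
      apply Real.tendsto_exp_atBot.comp
      apply Tendsto.const_mul_atTop_of_neg (by linarith)
      apply Real.tendsto_log_atTop.comp
      apply tendsto_atTop_add_const_left
      apply Real.tendsto_sqrt_atTop.comp
      exact tendsto_atTop_add_const_right _ _ tendsto_natCast_atTop_atTop
    obtain ⟨N, hN⟩ := eventually_atTop.1 (hlim.eventually (ge_mem_nhds hη))
    refine ⟨N, fun k hk => ?_⟩
    filter_upwards [hnorm n, hLre, hVfin] with x h1 h2 h3 hx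
    rw [h1]
    refine le_trans (Real.exp_le_exp.2 ?_) (hN k hk)
    have h4 : Real.sqrt ((k : ℝ) + 1) ≤ u x := by
      apply Real.sqrt_le_sqrt
      have h5 := ENNReal.toReal_mono h3.ne (hVge x k hx)
      have h6 : ((k : ℝ≥0∞) + 1).toReal = (k : ℝ) + 1 := by
        rw [ENNReal.toReal_add (by simp) (by simp)]; simp
      rw [h6] at h5
      exact h5
    have h5 : Real.log (1 + Real.sqrt ((k : ℝ) + 1)) ≤ (L x).re := by
      refine le_trans (Real.log_le_log ?_ ?_) h2
      · have := Real.sqrt_nonneg ((k : ℝ) + 1)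
        linarith
      · linarith
    nlinarith
  · have h1 : ∀ᵐ x ∂m, ∀ n, p n x = Complex.exp (-((1 / ((n : ℝ) + 1) : ℝ) : ℂ) * L x) :=
      ae_all_iff.2 hpv
    filter_upwards [h1] with x hx
    have h2 : Tendsto (fun n : ℕ => Complex.exp (-((1 / ((n : ℝ) + 1) : ℝ) : ℂ) * L x)) atTop
        (𝓝 (Complex.exp (-((0 : ℝ) : ℂ) * L x))) := by
      apply (Complex.continuous_exp.tendsto _).comp
      apply Tendsto.mul_const
      apply Tendsto.neg
      exact (Complex.continuous_ofReal.tendsto _).comp tendsto_one_div_add_atTop_nhds_zero_nat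
    have h3 : Complex.exp (-((0 : ℝ) : ℂ) * L x) = 1 := by simp
    rw [h3] at h2
    exact h2.congr fun n => (hx n).symm

end Pool.Agent.X203.Exp
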