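import Mathlib
import Pool.Agent.X203.ExpB

/-!
Functionals on `L^∞`: variation, absolutely continuous part.
-/

set_option autoImplicit false

open MeasureTheory Filter
open scoped ENNReal InnerProductSpace ComplexConjugate Topology

namespace Pool.Agent.X203.Exp

open Pool.Agent.H270R3.Cap

/-- multiplication on `L^∞` -/
noncomputable def MI : Linf →L[ℂ] Linf →L[ℂ] Linf :=
  (ContinuousLinearMap.mul ℂ ℂ).holderL m ∞ ∞ ∞

theorem MI_ae (a b : Linf) : MI a b =ᵐ[m] fun x => a x * b x := by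
  have h := ContinuousLinearMap.coeFn_holder (r := ∞) (ContinuousLinearMap.mul ℂ ℂ) a b
  exact h

theorem nrm_ae (w : Linf) : ∀ᵐ x ∂m, ‖w x‖ ≤ ‖w‖ := by
  have h := ae_le_eLpNormEssSup (f := (w : Circ → ℂ)) (μ := m)
  filter_upwards [h] with x hx
  have h2 : eLpNormEssSup (w : Circ → ℂ) m = ‖w‖ₑ := by
    rw [← eLpNorm_exponent_top]
    exact (Lp.enorm_def w).symm
  rw [h2] at hx
  rwa [enorm_le_iff_norm_le] at hx

theorem nrm_le {w : Linf} {C : ℝ} (hC : 0 ≤ C) (h : ∀ᵐ x ∂m, ‖w x‖ ≤ C) : ‖w‖ ≤ C := by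
  have := Lp.norm_le_of_ae_bound hC h
  simpa using this

theorem MI_norm (a b : Linf) : ‖MI a b‖ ≤ ‖a‖ * ‖b‖ := by
  apply nrm_le (by positivity)
  filter_upwards [MI_ae a b, nrm_ae a, nrm_ae b] with x h1 h2 h3
  rw [h1, norm_mul]
  exact mul_le_mul h2 h3 (norm_nonneg _) (norm_nonneg _)

/-- indicator functions in `L^∞` -/
noncomputable def cut (A : Set Circ) (hA : MeasurableSet A) : Linf :=
  indicatorConstLp ∞ hA (measure_ne_top _ _) (1 : ℂ)

theorem cut_ae (A : Set Circ) (hA : MeasurableSet A) :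
    ∀ᵐ x ∂m, (x ∈ A → cut A hA x = 1) ∧ (x ∉ A → cut A hA x = 0) := by
  filter_upwards [indicatorConstLp_coeFn (p := ∞) (hs := hA) (hμs := measure_ne_top m A)
    (c := (1 : ℂ))] with x hx
  constructor
  · intro h
    show indicatorConstLp ∞ hA (measure_ne_top _ _) (1 : ℂ) x = 1
    rw [hx, Set.indicator_of_mem h]
  · intro h
    show indicatorConstLp ∞ hA (measure_ne_top _ _) (1 : ℂ) x = 0
    rw [hx, Set.indicator_of_notMem h]

theorem cutmul_ae (A : Set Circ) (hA : MeasurableSet A) (w : Linf) :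
    ∀ᵐ x ∂m, (x ∈ A → MI (cut A hA) w x = w x) ∧ (x ∉ A → MI (cut A hA) w x = 0) := by
  filter_upwards [cut_ae A hA, MI_ae (cut A hA) w] with x h1 h2
  refine ⟨fun h => ?_, fun h => ?_⟩
  · rw [h2, h1.1 h, one_mul]
  · rw [h2, h1.2 h, zero_mul]

theorem cut_norm (A : Set Circ) (hA : MeasurableSet A) : ‖cut A hA‖ ≤ 1 := by
  apply nrm_le zero_le_one
  filter_upwards [cut_ae A hA] with x h1
  by_cases h : x ∈ A
  · rw [h1.1 h, norm_one]
  · rw [h1.2 h, norm_zero]; exact zero_le_one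

/-- the variation -/
noncomputable def vr (ψ : StrongDual ℂ Linf) (A : Set Circ) (hA : MeasurableSet A) : ℝ :=
  ‖ψ.comp (MI (cut A hA))‖

theorem vr_bd (ψ : StrongDual ℂ Linf) (A : Set Circ) (hA : MeasurableSet A) (w : Linf) :
    ‖ψ (MI (cut A hA) w)‖ ≤ vr ψ A hA * ‖w‖ :=
  (ψ.comp (MI (cut A hA))).le_opNorm w

theorem vr_nonneg (ψ : StrongDual ℂ Linf) (A : Set Circ) (hA : MeasurableSet A) :
    0 ≤ vr ψ A hA := norm_nonneg _

theorem vr_le (ψ : StrongDual ℂ Linf) (A : Set Circ) (hA : MeasurableSet A) :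
    vr ψ A hA ≤ ‖ψ‖ := by
  apply ContinuousLinearMap.opNorm_le_bound _ (norm_nonneg _)
  intro w
  show ‖ψ (MI (cut A hA) w)‖ ≤ _
  refine (ψ.le_opNorm _).trans ?_
  apply mul_le_mul_of_nonneg_left _ (norm_nonneg _)
  refine (MI_norm _ _).trans ?_
  have := cut_norm A hA
  nlinarith [norm_nonneg w]

theorem vr_mono (ψ : StrongDual ℂ Linf) {A B : Set Circ} (hA : MeasurableSet A)
    (hB : MeasurableSet B) (h : A ⊆ B) : vr ψ A hA ≤ vr ψ B hB := by
  apply ContinuousLinearMap.opNorm_le_bound _ (vr_nonneg _ _ _)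
  intro w
  show ‖ψ (MI (cut A hA) w)‖ ≤ _
  have h1 : MI (cut A hA) w = MI (cut B hB) (MI (cut A hA) w) := by
    apply Lp.ext
    filter_upwards [cutmul_ae A hA w, cutmul_ae B hB (MI (cut A hA) w)] with x h1 h2
    by_cases hx : x ∈ A
    · rw [h2.1 (h hx)]
    · by_cases hxB : x ∈ B
      · rw [h2.1 hxB]
      · rw [h2.2 hxB, h1.2 hx]
  rw [h1]
  refine (vr_bd ψ B hB _).trans ?_
  apply mul_le_mul_of_nonneg_left _ (vr_nonneg _ _ _)
  refine (MI_norm _ _).trans ?_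
  have := cut_norm A hA
  nlinarith [norm_nonneg w]

theorem vr_add (ψ : StrongDual ℂ Linf) {A B : Set Circ} (hA : MeasurableSet A)
    (hB : MeasurableSet B) (h : Disjoint A B) :
    vr ψ A hA + vr ψ B hB ≤ vr ψ (A ∪ B) (hA.union hB) := by
  by_contra hcon
  push Not at hcon
  obtain ⟨r, hr1, hr2⟩ : ∃ r, vr ψ (A ∪ B) (hA.union hB) - vr ψ B hB < r ∧ r < vr ψ A hA :=
    exists_between (by linarith)
  obtain ⟨s, hs1, hs2⟩ : ∃ s, vr ψ (A ∪ B) (hA.union hB) - r < s ∧ s < vr ψ B hB :=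
    exists_between (by linarith)
  obtain ⟨w1, hw1, hr3⟩ := ContinuousLinearMap.exists_lt_apply_of_lt_opNorm _ hr2
  obtain ⟨w2, hw2, hs3⟩ := ContinuousLinearMap.exists_lt_apply_of_lt_opNorm _ hs2
  have e1 : (ψ.comp (MI (cut A hA))) w1 = ψ (MI (cut A hA) w1) := rfl
  have e2 : (ψ.comp (MI (cut B hB))) w2 = ψ (MI (cut B hB) w2) := rfl
  rw [e1] at hr3
  rw [e2] at hs3
  obtain ⟨α, hα, hα1⟩ := RCLike.exists_norm_eq_mul_self (ψ (MI (cut A hA) w1))
  obtain ⟨β, hβ, hβ1⟩ := RCLike.exists_norm_eq_mul_self (ψ (MI (cut B hB) w2))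
  set w : Linf := α • MI (cut A hA) w1 + β • MI (cut B hB) w2 with hw
  have hwae : ∀ᵐ x ∂m, w x = α * MI (cut A hA) w1 x + β * MI (cut B hB) w2 x := by
    filter_upwards [Lp.coeFn_add (α • MI (cut A hA) w1) (β • MI (cut B hB) w2),
      Lp.coeFn_smul α (MI (cut A hA) w1), Lp.coeFn_smul β (MI (cut B hB) w2)] with x h1 h2 h3
    rw [hw, h1, Pi.add_apply, h2, h3, Pi.smul_apply, Pi.smul_apply, smul_eq_mul, smul_eq_mul]
  have hwn : ‖w‖ ≤ 1 := by
    apply nrm_le zero_le_one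
    filter_upwards [hwae, cutmul_ae A hA w1, cutmul_ae B hB w2, nrm_ae w1, nrm_ae w2]
      with x h1 h2 h3 h4 h5
    rw [h1]
    by_cases hx : x ∈ A
    · have hxB : x ∉ B := fun h' => Set.disjoint_left.1 h hx h'
      rw [h2.1 hx, h3.2 hxB, mul_zero, add_zero, norm_mul, hα, one_mul]
      linarith
    · rw [h2.2 hx, mul_zero, zero_add, norm_mul, hβ, one_mul]
      by_cases hxB : x ∈ B
      · rw [h3.1 hxB]; linarith
      · rw [h3.2 hxB, norm_zero]; exact zero_le_one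
  have hcw : MI (cut (A ∪ B) (hA.union hB)) w = w := by
    apply Lp.ext
    filter_upwards [hwae, cutmul_ae A hA w1, cutmul_ae B hB w2,
      cutmul_ae (A ∪ B) (hA.union hB) w] with x h1 h2 h3 h4
    by_cases hx : x ∈ A ∪ B
    · rw [h4.1 hx]
    · rw [h4.2 hx, h1, h2.2 fun h' => hx (Or.inl h'), h3.2 fun h' => hx (Or.inr h'), mul_zero,
        mul_zero, add_zero]
  have h1 := vr_bd ψ (A ∪ B) (hA.union hB) w
  rw [hcw] at h1
  have h2 : ψ w = ((‖ψ (MI (cut A hA) w1)‖ + ‖ψ (MI (cut B hB) w2)‖ : ℝ) : ℂ) := by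
    rw [hw, map_add, map_smul, map_smul, smul_eq_mul, smul_eq_mul]
    push_cast
    rw [← hα1, ← hβ1]
    rfl
  rw [h2, Complex.norm_real, Real.norm_of_nonneg (by positivity)] at h1
  have h3 := vr_nonneg ψ (A ∪ B) (hA.union hB)
  nlinarith

/-- the property of a sequence of sets carrying the singular part -/
def Star (φ : StrongDual ℂ Linf) (B : ℕ → Set Circ) : Prop :=
  ∀ η > 0, ∃ ε > 0, ∃ N, ∀ k ≥ N, ∀ A (hA : MeasurableSet A), Disjoint A (B k) →
    m.real A ≤ ε → vr φ A hA ≤ η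

/-- absolute continuity -/
def AC (φ : StrongDual ℂ Linf) : Prop :=
  ∀ η > 0, ∃ ε > 0, ∀ A (hA : MeasurableSet A), m.real A ≤ ε → vr φ A hA ≤ η

theorem exists_star (φ : StrongDual ℂ Linf) : ∃ B : ℕ → Set Circ, (∀ n, MeasurableSet (B n)) ∧
    Antitone B ∧ (∀ n, m.real (B n) ≤ 2 * (1 / 8) ^ n) ∧ Star φ B := by
  set T : ℕ → Set ℝ := fun k => {r | ∃ (A : Set Circ) (hA : MeasurableSet A),
    m.real A ≤ (1 / 8) ^ k ∧ r = vr φ A hA} with hT
  have hTb : ∀ k, BddAbove (T k) := by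
    intro k
    refine ⟨‖φ‖, ?_⟩
    rintro r ⟨A, hA, -, rfl⟩
    exact vr_le φ A hA
  have hTn : ∀ k, (T k).Nonempty := fun k => ⟨vr φ ∅ MeasurableSet.empty, ∅, MeasurableSet.empty,
    by simp, rfl⟩
  set S : ℕ → ℝ := fun k => sSup (T k) with hS
  have hSle : ∀ k A (hA : MeasurableSet A), m.real A ≤ (1 / 8) ^ k → vr φ A hA ≤ S k :=
    fun k A hA h => le_csSup (hTb k) ⟨A, hA, h, rfl⟩
  have hS0 : ∀ k, 0 ≤ S k := fun k =>
    (vr_nonneg φ ∅ MeasurableSet.empty).trans (hSle k ∅ MeasurableSet.empty (by simp))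
  have hSb : BddBelow (Set.range S) := ⟨0, by rintro _ ⟨k, rfl⟩; exact hS0 k⟩
  set σ : ℝ := ⨅ k, S k with hσ
  have hE : ∀ k : ℕ, ∃ (A : Set Circ) (hA : MeasurableSet A), m.real A ≤ (1 / 8) ^ k ∧
      S k - (1 / 2) ^ k < vr φ A hA := by
    intro k
    obtain ⟨r, ⟨A, hA, h1, rfl⟩, h2⟩ := exists_lt_of_lt_csSup (hTn k)
      (show S k - (1 / 2) ^ k < sSup (T k) from by
        have : (0 : ℝ) < (1 / 2) ^ k := by positivity
        show sSup (T k) - (1 / 2) ^ k < sSup (T k)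
        linarith)
    exact ⟨A, hA, h1, h2⟩
  choose E hEm hE1 hE2 using hE
  set B : ℕ → Set Circ := fun n => ⋃ k : ℕ, E (n + k) with hB
  have hBm : ∀ n, MeasurableSet (B n) := fun n => MeasurableSet.iUnion fun k => hEm _
  have hBanti : Antitone B := by
    intro a b hab
    apply Set.iUnion_subset
    intro k
    have : b + k = a + (b - a + k) := by omega
    rw [this]
    exact Set.subset_iUnion (fun j => E (a + j)) (b - a + k)
  have hBs : ∀ n, m.real (B n) ≤ 2 * (1 / 8) ^ n := by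
    intro n
    have hsum : HasSum (fun k : ℕ => (1 / 8 : ℝ) ^ (n + k)) ((1 / 8) ^ n * (1 - 1 / 8)⁻¹) := by
      have := (hasSum_geometric_of_lt_one (r := (1 / 8 : ℝ)) (by norm_num) (by norm_num)).mul_left
        ((1 / 8 : ℝ) ^ n)
      simpa [pow_add] using this
    have h1 : m (B n) ≤ ENNReal.ofReal (2 * (1 / 8) ^ n) := by
      refine (measure_iUnion_le _).trans ?_
      have h2 : ∀ k : ℕ, m (E (n + k)) ≤ ENNReal.ofReal ((1 / 8 : ℝ) ^ (n + k)) := by
        intro k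
        rw [← ofReal_measureReal (measure_ne_top _ _)]
        exact ENNReal.ofReal_le_ofReal (hE1 _)
      refine (ENNReal.tsum_le_tsum h2).trans ?_
      rw [← ENNReal.ofReal_tsum_of_nonneg (fun k => by positivity) hsum.summable, hsum.tsum_eq]
      apply ENNReal.ofReal_le_ofReal
      have : (0 : ℝ) < (1 / 8) ^ n := by positivity
      have h3 : ((1 : ℝ) - 1 / 8)⁻¹ ≤ 2 := by norm_num
      nlinarith
    exact ENNReal.toReal_le_of_le_ofReal (by positivity) h1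
  have hBσ : ∀ n, σ ≤ vr φ (B n) (hBm n) := by
    intro n
    apply le_of_forall_pos_le_add
    intro η hη
    obtain ⟨k, hk⟩ := exists_pow_lt_of_lt_one hη (show (1 / 2 : ℝ) < 1 by norm_num)
    have h1 := hE2 (n + k)
    have h2 : vr φ (E (n + k)) (hEm _) ≤ vr φ (B n) (hBm n) :=
      vr_mono φ _ _ (Set.subset_iUnion (fun j => E (n + j)) k)
    have h3 : σ ≤ S (n + k) := ciInf_le hSb _
    have h4 : ((1 : ℝ) / 2) ^ (n + k) ≤ (1 / 2) ^ k :=
      pow_le_pow_of_le_one (by norm_num) (by norm_num) (by omega)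
    linarith
  refine ⟨B, hBm, hBanti, hBs, fun η hη => ?_⟩
  obtain ⟨k0, hk0⟩ : ∃ k, S k < σ + η := exists_lt_of_ciInf_lt (by linarith)
  refine ⟨(1 / 8) ^ k0 / 2, by positivity, k0 + 1, fun k hk A hA hd hmA => ?_⟩
  have h1 := vr_add φ hA (hBm k) hd
  have h2 : m.real (A ∪ B k) ≤ (1 / 8) ^ k0 := by
    refine (measureReal_union_le _ _).trans ?_
    have h3 := hBs k
    have h4 : ((1 : ℝ) / 8) ^ k ≤ (1 / 8) ^ (k0 + 1) :=
      pow_le_pow_of_le_one (by norm_num) (by norm_num) hk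
    rw [pow_succ] at h4
    have : (0 : ℝ) < (1 / 8) ^ k0 := by positivity
    linarith
  have h3 := hSle k0 _ (hA.union (hBm k)) h2
  have h4 := hBσ k
  linarith

theorem Star.mono {φ : StrongDual ℂ Linf} {B B' : ℕ → Set Circ} (h : Star φ B)
    (hB : ∀ n, B n ⊆ B' n) : Star φ B' := by
  intro η hη
  obtain ⟨ε, hε, N, hN⟩ := h η hη
  exact ⟨ε, hε, N, fun k hk A hA hd => hN k hk A hA (hd.mono_right (hB k))⟩

/-- the condition that `q` is small on the sets `B k` -/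
def Kill (q : Linf) (B : ℕ → Set Circ) : Prop :=
  ∀ η > 0, ∃ N, ∀ k ≥ N, ∀ᵐ x ∂m, x ∈ B k → ‖q x‖ ≤ η

theorem split (A : Set Circ) (hA : MeasurableSet A) (w : Linf) :
    w = MI (cut A hA) w + MI (cut Aᶜ hA.compl) w := by
  apply Lp.ext
  filter_upwards [cutmul_ae A hA w, cutmul_ae Aᶜ hA.compl w,
    Lp.coeFn_add (MI (cut A hA) w) (MI (cut Aᶜ hA.compl) w)] with x h1 h2 h3
  rw [h3, Pi.add_apply]
  by_cases hx : x ∈ A
  · rw [h1.1 hx, h2.2 (fun h => h hx), add_zero]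
  · rw [h1.2 hx, h2.1 hx, zero_add]

theorem kill_small {q : Linf} {B : ℕ → Set Circ} (hB : ∀ n, MeasurableSet (B n)) (h : Kill q B)
    (φ : StrongDual ℂ Linf) (w : Linf) {η : ℝ} (hη : 0 < η) :
    ∃ N, ∀ k ≥ N, ‖φ (MI (cut (B k) (hB k)) (MI q w))‖ ≤ η := by
  obtain ⟨N, hN⟩ := h (η / ((‖φ‖ + 1) * (‖w‖ + 1))) (by positivity)
  refine ⟨N, fun k hk => ?_⟩
  refine (φ.le_opNorm _).trans ?_
  have h1 : ‖MI (cut (B k) (hB k)) (MI q w)‖ ≤ η / ((‖φ‖ + 1) * (‖w‖ + 1)) * ‖w‖ := by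
    apply nrm_le (by positivity)
    filter_upwards [cutmul_ae (B k) (hB k) (MI q w), MI_ae q w, hN k hk, nrm_ae w]
      with x h1 h2 h3 h4
    by_cases hx : x ∈ B k
    · rw [h1.1 hx, h2, norm_mul]
      exact mul_le_mul (h3 hx) h4 (norm_nonneg _) (by positivity)
    · rw [h1.2 hx, norm_zero]; positivity
  have hφ := norm_nonneg φ
  have hw := norm_nonneg w
  calc ‖φ‖ * ‖MI (cut (B k) (hB k)) (MI q w)‖
      ≤ (‖φ‖ + 1) * (η / ((‖φ‖ + 1) * (‖w‖ + 1)) * (‖w‖ + 1)) := by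
        apply mul_le_mul (by linarith) (h1.trans ?_) (norm_nonneg _) (by positivity)
        apply mul_le_mul_of_nonneg_left (by linarith) (by positivity)
    _ = η := by field_simp

/-- the absolutely continuous part -/
theorem exists_ac (φ : StrongDual ℂ Linf) {B : ℕ → Set Circ} (hB : ∀ n, MeasurableSet (B n))
    (hanti : Antitone B) (hstar : Star φ B) :
    ∃ Θ : StrongDual ℂ Linf, AC Θ ∧ ∀ q : Linf, Kill q B → ∀ w, φ (MI q w) = Θ (MI q w) := by
  set T : ℕ → StrongDual ℂ Linf := fun n => φ.comp (MI (cut (B n)ᶜ (hB n).compl)) with hT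
  set a : ℕ → ℝ := fun n => vr φ (B n) (hB n) with ha
  have haanti : Antitone a := fun i j hij => vr_mono φ _ _ (hanti hij)
  have hac : CauchySeq a :=
    (tendsto_atTop_ciInf haanti ⟨0, by rintro _ ⟨k, rfl⟩; exact vr_nonneg _ _ _⟩).cauchySeq
  have hdiff : ∀ i j, i ≤ j → ‖T j - T i‖ ≤ a i - a j := by
    intro i j hij
    have hD : MeasurableSet (B i \ B j) := (hB i).diff (hB j)
    have h1 : ‖T j - T i‖ ≤ vr φ (B i \ B j) hD := by
      apply ContinuousLinearMap.opNorm_le_bound _ (vr_nonneg _ _ _)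
      intro w
      have h2 : (T j - T i) w = φ (MI (cut (B i \ B j) hD) w) := by
        show φ (MI (cut (B j)ᶜ (hB j).compl) w) - φ (MI (cut (B i)ᶜ (hB i).compl) w) = _
        rw [← map_sub]
        congr 1
        apply Lp.ext
        filter_upwards [Lp.coeFn_sub (MI (cut (B j)ᶜ (hB j).compl) w)
          (MI (cut (B i)ᶜ (hB i).compl) w), cutmul_ae _ (hB j).compl w,
          cutmul_ae _ (hB i).compl w, cutmul_ae _ hD w] with x e1 e2 e3 e4
        rw [e1, Pi.sub_apply]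
        by_cases hi : x ∈ B i
        · by_cases hj : x ∈ B j
          · rw [e2.2 (fun h => h hj), e3.2 (fun h => h hi), e4.2 (fun h => h.2 hj), sub_zero]
          · rw [e2.1 hj, e3.2 (fun h => h hi), e4.1 ⟨hi, hj⟩, sub_zero]
        · have hj : x ∉ B j := fun h => hi (hanti hij h)
          rw [e2.1 hj, e3.1 hi, e4.2 (fun h => hi h.1), sub_self]
      rw [h2]
      exact vr_bd φ _ _ w
    have h2 := vr_add φ hD (hB j) (Set.disjoint_sdiff_left)
    have h3 : vr φ ((B i \ B j) ∪ B j) (hD.union (hB j)) ≤ a i :=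
      vr_mono φ _ _ (Set.union_subset Set.sdiff_subset (hanti hij))
    show _ ≤ vr φ (B i) (hB i) - vr φ (B j) (hB j)
    have h4 : a i = vr φ (B i) (hB i) := rfl
    linarith
  have hTc : CauchySeq T := by
    rw [Metric.cauchySeq_iff']
    intro ε hε
    obtain ⟨N, hN⟩ := Metric.cauchySeq_iff'.1 hac ε hε
    refine ⟨N, fun n hn => ?_⟩
    rw [dist_eq_norm]
    refine (hdiff N n hn).trans_lt ?_
    have := hN n hn
    rw [Real.dist_eq, abs_sub_comm] at this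
    exact (le_abs_self _).trans_lt this
  obtain ⟨Θ, hΘ⟩ := cauchySeq_tendsto_of_complete hTc
  refine ⟨Θ, fun η hη => ?_, fun q hq w => ?_⟩
  · obtain ⟨ε, hε, N, hN⟩ := hstar η hη
    refine ⟨ε, hε, fun A hA hmA => ?_⟩
    have h1 : Tendsto (fun k => ‖(T k).comp (MI (cut A hA))‖) atTop (𝓝 (vr Θ A hA)) := by
      apply Tendsto.norm
      have h2 : Continuous fun t : StrongDual ℂ Linf => t.comp (MI (cut A hA)) :=
        continuous_id.clm_comp continuous_const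
      exact (h2.tendsto Θ).comp hΘ
    refine le_of_tendsto h1 (eventually_atTop.2 ⟨N, fun k hk => ?_⟩)
    have hD : MeasurableSet (A \ B k) := hA.diff (hB k)
    have h3 : (T k).comp (MI (cut A hA)) = φ.comp (MI (cut (A \ B k) hD)) := by
      ext w
      show φ (MI (cut (B k)ᶜ (hB k).compl) (MI (cut A hA) w)) = φ (MI (cut (A \ B k) hD) w)
      congr 1
      apply Lp.ext
      filter_upwards [cutmul_ae _ (hB k).compl (MI (cut A hA) w), cutmul_ae _ hA w,
        cutmul_ae _ hD w] with x e1 e2 e3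
      by_cases hk : x ∈ B k
      · rw [e1.2 (fun h => h hk), e3.2 (fun h => h.2 hk)]
      · rw [e1.1 hk]
        by_cases hA' : x ∈ A
        · rw [e2.1 hA', e3.1 ⟨hA', hk⟩]
        · rw [e2.2 hA', e3.2 (fun h => hA' h.1)]
    rw [h3]
    exact hN k hk _ hD Set.disjoint_sdiff_left
      ((measureReal_mono Set.sdiff_subset (measure_ne_top _ _)).trans hmA)
  · have h1 : Tendsto (fun k => T k (MI q w)) atTop (𝓝 (Θ (MI q w))) := by
      have h2 : Continuous fun t : StrongDual ℂ Linf => t (MI q w) :=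
        continuous_eval_const (MI q w)
      exact (h2.tendsto Θ).comp hΘ
    have h2 : Tendsto (fun k => T k (MI q w)) atTop (𝓝 (φ (MI q w))) := by
      rw [tendsto_iff_norm_sub_tendsto_zero, Metric.tendsto_atTop]
      intro η hη
      obtain ⟨N, hN⟩ := kill_small hB hq φ w (half_pos hη)
      refine ⟨N, fun k hk => ?_⟩
      rw [dist_zero_right, norm_norm]
      have h3 : T k (MI q w) - φ (MI q w) = - φ (MI (cut (B k) (hB k)) (MI q w)) := by
        have h4 := congrArg φ (split (B k) (hB k) (MI q w))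
        rw [map_add] at h4
        rw [h4]
        show φ (MI (cut (B k)ᶜ (hB k).compl) (MI q w)) - _ = _
        ring
      rw [h3, norm_neg]
      exact (hN k hk).trans_lt (by linarith)
    exact tendsto_nhds_unique h2 h1

/-- convergence against an absolutely continuous functional -/
theorem ac_conv {Θ : StrongDual ℂ Linf} (hΘ : AC Θ) {p : ℕ → Linf}
    (hp1 : ∀ n, ∀ᵐ x ∂m, ‖p n x‖ ≤ 1) (hp : ∀ᵐ x ∂m, Tendsto (fun n => p n x) atTop (𝓝 1))
    {η : ℝ} (hη : 0 < η) : ∃ N, ∀ n ≥ N, ∀ w, ‖Θ (MI (p n) w) - Θ w‖ ≤ η * ‖w‖ := by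
  set δ : ℝ := η / (2 + ‖Θ‖ + 1) with hδ
  have hΘn := norm_nonneg Θ
  have hδ0 : 0 < δ := by rw [hδ]; positivity
  have hδ1 : δ * (2 + ‖Θ‖) ≤ η := by
    rw [hδ, div_mul_eq_mul_div, div_le_iff₀ (by positivity)]
    nlinarith
  obtain ⟨ε, hε, hA⟩ := hΘ δ hδ0
  have hmeas : TendstoInMeasure m (fun n => (p n : Circ → ℂ)) atTop (fun _ => (1 : ℂ)) :=
    tendstoInMeasure_of_tendsto_ae (fun n => (Lp.aestronglyMeasurable _)) hp
  have h1 := (tendstoInMeasure_iff_norm.1 hmeas) δ hδ0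
  have h2 : ∀ᶠ n in atTop, m {x | δ ≤ ‖p n x - 1‖} < ENNReal.ofReal ε :=
    h1.eventually (gt_mem_nhds (ENNReal.ofReal_pos.2 hε))
  obtain ⟨N, hN⟩ := eventually_atTop.1 h2
  refine ⟨N, fun n hn w => ?_⟩
  have hAm : MeasurableSet {x | δ ≤ ‖p n x - 1‖} :=
    measurableSet_le measurable_const ((Lp.stronglyMeasurable (p n)).measurable.sub_const 1).norm
  set A : Set Circ := {x | δ ≤ ‖p n x - 1‖} with hAdef
  have hmA : m.real A ≤ ε := ENNReal.toReal_le_of_le_ofReal hε.le (hN n hn).le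
  set z : Linf := MI (p n) w - w with hz
  have hzae : ∀ᵐ x ∂m, z x = (p n x - 1) * w x := by
    filter_upwards [Lp.coeFn_sub (MI (p n) w) w, MI_ae (p n) w] with x e1 e2
    rw [hz, e1, Pi.sub_apply, e2]; ring
  have hzn : ‖z‖ ≤ 2 * ‖w‖ := by
    apply nrm_le (by positivity)
    filter_upwards [hzae, hp1 n, nrm_ae w] with x e1 e2 e3
    rw [e1, norm_mul]
    apply mul_le_mul _ e3 (norm_nonneg _) (by norm_num)
    refine (norm_sub_le _ _).trans ?_
    rw [norm_one]; linarith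
  have h3 : Θ (MI (p n) w) - Θ w = Θ (MI (cut A hAm) z) + Θ (MI (cut Aᶜ hAm.compl) z) := by
    rw [← map_sub, ← map_add, ← split A hAm z]
  rw [h3]
  refine (norm_add_le _ _).trans ?_
  have h4 : ‖Θ (MI (cut A hAm) z)‖ ≤ δ * (2 * ‖w‖) := by
    refine (vr_bd Θ A hAm z).trans ?_
    exact mul_le_mul (hA A hAm hmA) hzn (norm_nonneg _) hδ0.le
  have h5 : ‖Θ (MI (cut Aᶜ hAm.compl) z)‖ ≤ ‖Θ‖ * (δ * ‖w‖) := by
    refine (Θ.le_opNorm _).trans (mul_le_mul_of_nonneg_left ?_ hΘn)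
    apply nrm_le (by positivity)
    filter_upwards [cutmul_ae _ hAm.compl z, hzae, nrm_ae w] with x e1 e2 e3
    by_cases hx : x ∈ A
    · rw [e1.2 (fun h => h hx), norm_zero]; positivity
    · rw [e1.1 hx, e2, norm_mul]
      have : ‖p n x - 1‖ < δ := not_le.1 hx
      exact mul_le_mul this.le e3 (norm_nonneg _) hδ0.le
  have hw := norm_nonneg w
  calc _ ≤ δ * (2 * ‖w‖) + ‖Θ‖ * (δ * ‖w‖) := add_le_add h4 h5
    _ = (δ * (2 + ‖Θ‖)) * ‖w‖ := by ring
    _ ≤ η * ‖w‖ := mul_le_mul_of_nonneg_right hδ1 hw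

end Pool.Agent.X203.Exp
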