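import Mathlib
import Pool.Agent.X203.ExpC

/-!
Finite dimensional arguments and the main construction.
-/

set_option autoImplicit false

open MeasureTheory Filter
open scoped ENNReal InnerProductSpace ComplexConjugate Topology

namespace Pool.Agent.X203.Exp

open Pool.Agent.H270R3.Cap

section fin

variable {X : Type*} [NormedAddCommGroup X] [NormedSpace ℂ X]
variable {R : Type*} [NormedAddCommGroup R] [NormedSpace ℂ R] [FiniteDimensional ℂ R]

theorem exists_rinv (T : X →L[ℂ] R) (hT : Function.Surjective T) :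
    ∃ (B : R →ₗ[ℂ] X) (K : ℝ), 0 < K ∧ (∀ y, T (B y) = y) ∧ ∀ y, ‖B y‖ ≤ K * ‖y‖ := by
  obtain ⟨B, hB⟩ := (T : X →ₗ[ℂ] R).exists_rightInverse_of_surjective
    (LinearMap.range_eq_top.2 hT)
  set Bc : R →L[ℂ] X := LinearMap.toContinuousLinearMap B
  refine ⟨B, ‖Bc‖ + 1, by positivity, fun y => ?_, fun y => ?_⟩
  · exact LinearMap.congr_fun hB y
  · have h1 := Bc.le_opNorm y
    have h2 : Bc y = B y := rfl
    rw [h2] at h1
    nlinarith [norm_nonneg y]

theorem helly (T : X →L[ℂ] R) (hT : Function.Surjective T) {f : X} (hf : ‖f‖ ≤ 1)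
    (h : ∀ g : R →L[ℂ] ℂ, (g.comp T) f = (‖g.comp T‖ : ℂ) → g.comp T = 0) :
    ∃ s : X, ‖s‖ < 1 ∧ T s = T f := by
  by_contra hcon
  push Not at hcon
  obtain ⟨B, K, hK, hB, hBn⟩ := exists_rinv T hT
  set C : Set R := T '' Metric.ball (0 : X) 1 with hC
  have hC0 : (0 : R) ∈ C := ⟨0, Metric.mem_ball_self one_pos, map_zero T⟩
  have hCc : Convex ℝ C := by
    have h1 : Convex ℝ (Metric.ball (0 : X) 1) := by
      letI : NormedSpace ℝ X := NormedSpace.restrictScalars ℝ ℂ X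
      exact convex_ball _ _
    rintro _ ⟨a, ha, rfl⟩ _ ⟨b, hb, rfl⟩ u v hu hv huv
    refine ⟨(u : ℂ) • a + (v : ℂ) • b, ?_, ?_⟩
    · rw [mem_ball_zero_iff] at ha hb ⊢
      calc ‖(u : ℂ) • a + (v : ℂ) • b‖ ≤ ‖(u : ℂ) • a‖ + ‖(v : ℂ) • b‖ := norm_add_le _ _
        _ = u * ‖a‖ + v * ‖b‖ := by
            rw [norm_smul, norm_smul, Complex.norm_real, Complex.norm_real,
              Real.norm_of_nonneg hu, Real.norm_of_nonneg hv]
        _ < 1 := by
            rcases eq_or_lt_of_le hu with h0 | h0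
            · have : v = 1 := by linarith
              rw [← h0, this]; linarith
            · nlinarith
    · rw [map_add, map_smul, map_smul]
      rfl
  have hCo : IsOpen C := by
    rw [Metric.isOpen_iff]
    rintro _ ⟨a, ha, rfl⟩
    rw [mem_ball_zero_iff] at ha
    refine ⟨(1 - ‖a‖) / K, div_pos (by linarith) hK, fun y hy => ?_⟩
    rw [Metric.mem_ball, dist_eq_norm] at hy
    refine ⟨a + B (y - T a), ?_, ?_⟩
    · rw [mem_ball_zero_iff]
      have h1 := hBn (y - T a)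
      have h2 : K * ‖y - T a‖ < 1 - ‖a‖ := by
        rw [lt_div_iff₀ hK] at hy
        linarith
      linarith [norm_add_le a (B (y - T a))]
    · rw [map_add, hB]; abel
  have hfC : T f ∉ C := by
    rintro ⟨s, hs, hs2⟩
    exact hcon s (mem_ball_zero_iff.1 hs) hs2
  obtain ⟨g, hg1, hg2⟩ := RCLike.separate_convex_open_set (𝕜 := ℂ) hC0 hCc hCo hfC
  set ψ : X →L[ℂ] ℂ := g.comp T with hψ
  have hψle : ‖ψ‖ ≤ 1 := by
    apply le_of_forall_lt
    intro r hr
    by_contra hr1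
    push Not at hr1
    obtain ⟨x, hx, hrx⟩ := ContinuousLinearMap.exists_lt_apply_of_lt_opNorm ψ hr
    obtain ⟨c, hc, hc1⟩ := RCLike.exists_norm_eq_mul_self (ψ x)
    have h1 : T (c • x) ∈ C := ⟨c • x, by
      rw [mem_ball_zero_iff, norm_smul, hc, one_mul]; exact hx, rfl⟩
    have h2 := hg2 _ h1
    have h3 : g (T (c • x)) = c * ψ x := by
      rw [map_smul, map_smul]; rfl
    rw [h3, ← hc1] at h2
    have h4 : RCLike.re ((‖ψ x‖ : ℝ) : ℂ) = ‖ψ x‖ := Complex.ofReal_re _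
    have h5 : RCLike.re ((RCLike.ofReal ‖ψ x‖ : ℂ)) = ‖ψ x‖ := Complex.ofReal_re _
    rw [h5] at h2
    linarith
  have hψf : (ψ f).re = 1 := hg1
  have hψn : ‖ψ f‖ ≤ 1 := by
    have := ψ.le_opNorm f
    nlinarith [norm_nonneg f, norm_nonneg ψ]
  have hψ1 : ‖ψ‖ = 1 := by
    apply le_antisymm hψle
    have h1 := Complex.re_le_norm (ψ f)
    have h2 := ψ.le_opNorm f
    nlinarith [norm_nonneg f, norm_nonneg ψ]
  have hψf2 : ψ f = 1 := by
    have h1 : ‖ψ f‖ = 1 := le_antisymm hψn (by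
      have := Complex.re_le_norm (ψ f); linarith)
    have h2 : (ψ f).re ^ 2 + (ψ f).im ^ 2 = 1 := by
      have := Complex.sq_norm (ψ f)
      rw [h1, Complex.normSq_apply] at this
      nlinarith
    apply Complex.ext
    · rw [hψf, Complex.one_re]
    · rw [hψf] at h2
      have : (ψ f).im ^ 2 = 0 := by linarith
      rw [Complex.one_im]
      exact pow_eq_zero_iff (two_ne_zero) |>.1 this
  have h0 := h g (by rw [← hψ, hψf2, hψ1]; simp)
  rw [← hψ] at h0
  rw [h0, norm_zero] at hψ1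
  exact zero_ne_one hψ1

theorem perturb (T : X →L[ℂ] R) (hT : Function.Surjective T) (P : ℕ → X →L[ℂ] X)
    (hP : ∀ η > 0, ∃ N, ∀ n ≥ N, ∀ w, ‖T (P n w) - T w‖ ≤ η * ‖w‖) {f s0 : X} {κ : ℝ}
    (hs0 : ‖s0‖ < κ) (hs : T s0 = T f) :
    ∃ N, ∀ n ≥ N, ∃ s, ‖s‖ ≤ κ ∧ T (P n s) = T (P n f) := by
  obtain ⟨B, K, hK, hB, hBn⟩ := exists_rinv T hT
  set M : ℝ := ‖f - s0‖ + 1 with hM
  have hM0 : 0 < M := by rw [hM]; positivity
  set η : ℝ := min (1 / (2 * K)) ((κ - ‖s0‖) / (2 * K * M)) with hη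
  have hη0 : 0 < η := lt_min (by positivity) (div_pos (by linarith) (by positivity))
  obtain ⟨N, hN⟩ := hP η hη0
  refine ⟨N, fun n hn => ?_⟩
  set D : R →ₗ[ℂ] R := ((T.comp (P n) : X →L[ℂ] R) : X →ₗ[ℂ] R).comp B with hD
  have hDv : ∀ y, D y = T (P n (B y)) := fun y => rfl
  have hη1 : η * K ≤ 1 / 2 := by
    have := min_le_left (1 / (2 * K)) ((κ - ‖s0‖) / (2 * K * M))
    calc η * K ≤ 1 / (2 * K) * K := mul_le_mul_of_nonneg_right this hK.le
      _ = 1 / 2 := by field_simp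
  have hDn : ∀ y, ‖y‖ ≤ 2 * ‖D y‖ := by
    intro y
    have h1 := hN n hn (B y)
    rw [hB, ← hDv] at h1
    have h2 := hBn y
    have h3 : ‖y‖ ≤ ‖D y‖ + ‖D y - y‖ := by
      have := norm_sub_le (D y) (D y - y)
      simpa using this
    have h4 : η * ‖B y‖ ≤ 1 / 2 * ‖y‖ := by
      calc η * ‖B y‖ ≤ η * (K * ‖y‖) := mul_le_mul_of_nonneg_left h2 hη0.le
        _ = (η * K) * ‖y‖ := by ring
        _ ≤ 1 / 2 * ‖y‖ := mul_le_mul_of_nonneg_right hη1 (norm_nonneg _)
    linarith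
  have hDi : Function.Injective D := by
    rw [injective_iff_map_eq_zero]
    intro y hy
    have := hDn y
    rw [hy, norm_zero, mul_zero] at this
    exact norm_le_zero_iff.1 this
  have hDs : Function.Surjective D := LinearMap.injective_iff_surjective.1 hDi
  obtain ⟨y, hy⟩ := hDs (T (P n (f - s0)))
  have hy1 : ‖y‖ ≤ 2 * (η * M) := by
    refine (hDn y).trans (mul_le_mul_of_nonneg_left ?_ (by norm_num))
    have h1 := hN n hn (f - s0)
    rw [map_sub T f s0, hs, sub_self, sub_zero, ← hy] at h1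
    refine h1.trans (mul_le_mul_of_nonneg_left ?_ hη0.le)
    rw [hM]; linarith
  refine ⟨s0 + B y, ?_, ?_⟩
  · have h1 := hBn y
    have h2 : K * ‖y‖ ≤ κ - ‖s0‖ := by
      have h3 := min_le_right (1 / (2 * K)) ((κ - ‖s0‖) / (2 * K * M))
      rw [← hη, le_div_iff₀ (by positivity)] at h3
      calc K * ‖y‖ ≤ K * (2 * (η * M)) := mul_le_mul_of_nonneg_left hy1 hK.le
        _ = η * (2 * K * M) := by ring
        _ ≤ _ := h3
    linarith [norm_add_le s0 (B y)]
  · rw [map_add, map_add, ← hDv, hy, map_sub, map_sub]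
    abel

end fin

/-! ### The space `H^∞` -/

theorem one_mem : (fourierLp 2 0 : L2) ∈ H2 := by
  intro k hk
  rw [← coefL_apply, coef_fourier, if_neg (by omega)]

theorem coefI_eq (b : Linf) (n : ℤ) : fourierCoeff b n = coefL n (mulOp b (fourierLp 2 0)) := by
  rw [coefL_mulOp_fourier, sub_zero]

theorem mulOp_add (a b : Linf) (X : L2) : mulOp (a + b) X = mulOp a X + mulOp b X := by
  show (ContinuousLinearMap.mul ℂ ℂ).holderL m ∞ 2 2 (a + b) X = _
  rw [map_add]; rfl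

theorem mulOp_smul (c : ℂ) (b : Linf) (X : L2) : mulOp (c • b) X = c • mulOp b X := by
  show (ContinuousLinearMap.mul ℂ ℂ).holderL m ∞ 2 2 (c • b) X = _
  rw [map_smul]; rfl

theorem mulOp_zero (X : L2) : mulOp 0 X = 0 := by
  show (ContinuousLinearMap.mul ℂ ℂ).holderL m ∞ 2 2 0 X = _
  rw [map_zero]; rfl

/-- the space `H^∞` -/
noncomputable def HI : Submodule ℂ Linf where
  carrier := {f | IsHinf f}
  add_mem' {f g} hf hg n hn := by
    have h1 := hf n hn
    have h2 := hg n hn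
    rw [coefI_eq] at h1 h2 ⊢
    rw [mulOp_add, map_add, h1, h2, add_zero]
  zero_mem' n _ := by rw [coefI_eq, mulOp_zero, map_zero]
  smul_mem' c f hf n hn := by
    have h1 := hf n hn
    rw [coefI_eq] at h1 ⊢
    rw [mulOp_smul, map_smul, h1, smul_zero]

theorem MI_hinf {a b : Linf} (ha : IsHinf a) (hb : IsHinf b) : IsHinf (MI a b) := by
  intro n hn
  rw [coefI_eq]
  have h1 : mulOp (MI a b) (fourierLp 2 0) = mulOp a (mulOp b (fourierLp 2 0)) := by
    apply Lp.ext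
    filter_upwards [mulOp_ae (MI a b) (fourierLp 2 0), mulOp_ae a (mulOp b (fourierLp 2 0)),
      mulOp_ae b (fourierLp 2 0), MI_ae a b] with x e1 e2 e3 e4
    rw [e1, e2, e3, e4]; ring
  rw [h1, coefL_apply]
  exact mulOp_mem ha (mulOp_mem hb one_mem) n hn

/-- multiplication by `p` on `H^∞` -/
noncomputable def PH (p : Linf) (hp : IsHinf p) : HI →L[ℂ] HI :=
  ((MI p).comp HI.subtypeL).codRestrict HI fun w => MI_hinf hp w.2

theorem PH_coe (p : Linf) (hp : IsHinf p) (w : HI) : ((PH p hp w : HI) : Linf) = MI p w := rfl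

/-- a functional attaining its norm at `f` vanishes off `{|f| > 1 - δ}` -/
theorem vanish {ν : StrongDual ℂ Linf} {f : Linf} (hf : ‖f‖ ≤ 1) (hν : ν f = (‖ν‖ : ℂ))
    {w : Linf} {δ : ℝ} (hδ : 0 < δ) (hw : ∀ᵐ x ∂m, 1 - δ < ‖f x‖ → w x = 0) : ν w = 0 := by
  obtain ⟨c, hc, hc1⟩ := RCLike.exists_norm_eq_mul_self (ν w)
  set t : ℝ := δ / (‖w‖ + 1) with ht
  have hwn := norm_nonneg w
  have ht0 : 0 < t := by rw [ht]; positivity
  have htw : t * ‖w‖ ≤ δ := by
    rw [ht, div_mul_eq_mul_div, div_le_iff₀ (by positivity)]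
    nlinarith
  set z : Linf := f + ((t : ℂ) * c) • w with hz
  have hzn : ‖z‖ ≤ 1 := by
    apply nrm_le zero_le_one
    filter_upwards [Lp.coeFn_add f (((t : ℂ) * c) • w), Lp.coeFn_smul ((t : ℂ) * c) w, nrm_ae f,
      nrm_ae w, hw] with x e1 e2 e3 e4 e5
    rw [hz, e1, Pi.add_apply, e2, Pi.smul_apply, smul_eq_mul]
    by_cases hx : 1 - δ < ‖f x‖
    · rw [e5 hx, mul_zero, add_zero]; linarith
    · push Not at hx
      refine (norm_add_le _ _).trans ?_
      rw [norm_mul, norm_mul, hc, mul_one, Complex.norm_real, Real.norm_of_nonneg ht0.le]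
      have : t * ‖w x‖ ≤ t * ‖w‖ := mul_le_mul_of_nonneg_left e4 ht0.le
      linarith
  have h1 := ν.le_opNorm z
  have h2 : ν z = ((‖ν‖ + t * ‖ν w‖ : ℝ) : ℂ) := by
    rw [hz, map_add, hν, map_smul, smul_eq_mul, mul_assoc, ← hc1]
    push_cast
    rfl
  rw [h2, Complex.norm_real, Real.norm_of_nonneg (by positivity)] at h1
  have h3 := norm_nonneg ν
  have h4 : t * ‖ν w‖ ≤ 0 := by nlinarith
  have h5 : ‖ν w‖ ≤ 0 := by
    by_contra hcon
    push Not at hcon
    have := mul_pos ht0 hcon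
    linarith
  exact norm_le_zero_iff.1 h5

theorem vanish_kill {ν : StrongDual ℂ Linf} {f : Linf} (hf : ‖f‖ ≤ 1) (hν : ν f = (‖ν‖ : ℂ))
    {B : ℕ → Set Circ} (hB : ∀ n, MeasurableSet (B n)) {δ : ℕ → ℝ} (hδ : ∀ n, 0 < δ n)
    (hBf : ∀ n x, 1 - δ n < ‖f x‖ → x ∈ B n) {q : Linf} (hq : Kill q B) (w : Linf) :
    ν (MI q w) = 0 := by
  have h1 : ∀ η > 0, ‖ν (MI q w)‖ ≤ η := by
    intro η hη
    obtain ⟨N, hN⟩ := kill_small hB hq ν w hη
    have h2 := congrArg ν (split (B N) (hB N) (MI q w))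
    rw [map_add] at h2
    have h3 : ν (MI (cut (B N)ᶜ (hB N).compl) (MI q w)) = 0 := by
      refine vanish hf hν (hδ N) ?_
      filter_upwards [cutmul_ae (B N)ᶜ (hB N).compl (MI q w)] with x e1 hx
      exact e1.2 (fun h => h (hBf N x hx))
    rw [h2, h3, add_zero]
    exact hN N le_rfl
  have h2 : ‖ν (MI q w)‖ ≤ 0 := le_of_forall_pos_le_add fun η hη => by
    rw [zero_add]; exact h1 η hη
  exact norm_le_zero_iff.1 h2

end Pool.Agent.X203.Exp
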