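import Mathlib
import Pool.Agent.X203.ExpD

/-!
Functions of modulus less than one almost everywhere are not exposed.
-/

set_option autoImplicit false

open MeasureTheory Filter
open scoped ENNReal InnerProductSpace ComplexConjugate Topology

namespace Pool.Agent.X203.Exp

open Pool.Agent.H270R3.Cap

theorem levels {f : Linf} (hf : ‖f‖ ≤ 1) (hm : m {x | ‖f x‖ = 1} = 0) :
    ∃ (E : ℕ → Set Circ) (δ : ℕ → ℝ), (∀ n, MeasurableSet (E n)) ∧ Antitone E ∧
      (∀ n, m.real (E n) ≤ (1 / 8) ^ n) ∧ (∀ n, 0 < δ n) ∧ ∀ n x, 1 - δ n < ‖f x‖ → x ∈ E n := by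
  set F : ℕ → Set Circ := fun j => {x | 1 - 1 / ((j : ℝ) + 1) < ‖f x‖} with hF
  have hFm : ∀ j, MeasurableSet (F j) := fun j =>
    measurableSet_lt measurable_const (Lp.stronglyMeasurable f).measurable.norm
  have hFa : Antitone F := by
    intro i j hij x hx
    have h1 : 1 - 1 / ((j : ℝ) + 1) < ‖f x‖ := hx
    show 1 - 1 / ((i : ℝ) + 1) < ‖f x‖
    have h2 : 1 / ((j : ℝ) + 1) ≤ 1 / ((i : ℝ) + 1) := by
      apply one_div_le_one_div_of_le (by positivity)
      have : (i : ℝ) ≤ j := by exact_mod_cast hij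
      linarith
    linarith
  have hnull : m (⋂ j, F j) = 0 := by
    refine le_antisymm ?_ zero_le
    rw [← hm]
    apply measure_mono_ae
    filter_upwards [nrm_ae f] with x hx hxF
    show ‖f x‖ = 1
    apply le_antisymm (hx.trans hf)
    have h1 : ∀ j : ℕ, 1 - 1 / ((j : ℝ) + 1) ≤ ‖f x‖ := fun j => le_of_lt (Set.mem_iInter.1 hxF j)
    have h2 : Tendsto (fun j : ℕ => 1 - 1 / ((j : ℝ) + 1)) atTop (𝓝 (1 - 0)) :=
      tendsto_const_nhds.sub tendsto_one_div_add_atTop_nhds_zero_nat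
    rw [sub_zero] at h2
    exact le_of_tendsto' h2 h1
  have hlim : Tendsto (fun j => m.real (F j)) atTop (𝓝 0) := by
    have h1 := tendsto_measure_iInter_atTop (μ := m) (fun j => (hFm j).nullMeasurableSet) hFa
      ⟨0, measure_ne_top _ _⟩
    rw [hnull] at h1
    have h2 := (ENNReal.tendsto_toReal (a := 0) (by simp)).comp h1
    exact h2
  obtain ⟨j, hj, hj2⟩ := extraction_forall_of_eventually
    (P := fun n k => m.real (F k) ≤ (1 / 8) ^ n)
    (fun n => hlim.eventually (ge_mem_nhds (by positivity)))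
  exact ⟨fun n => F (j n), fun n => 1 / ((j n : ℝ) + 1), fun n => hFm _,
    fun a b hab => hFa (hj.monotone hab), hj2, fun n => by positivity, fun n x hx => hx⟩

theorem sum_fin {c : ℝ} (hc : 0 ≤ c) {B : ℕ → Set Circ}
    (h : ∀ n, m (B n) ≤ ENNReal.ofReal (c * (1 / 8) ^ n)) :
    ∑' n : ℕ, ((n : ℝ≥0∞) + 1) * m (B n) ≠ ∞ := by
  have hs : Summable fun n : ℕ => ((n : ℝ) + 1) * (c * (1 / 8) ^ n) := by
    have h1 : Summable fun n : ℕ => ((n : ℝ) ^ 1) * (1 / 8 : ℝ) ^ n :=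
      summable_pow_mul_geometric_of_norm_lt_one 1 (by norm_num)
    have h2 : Summable fun n : ℕ => (1 / 8 : ℝ) ^ n :=
      summable_geometric_of_lt_one (by norm_num) (by norm_num)
    refine ((h1.add h2).mul_left c).congr fun n => ?_
    ring
  have h2 : ∀ n : ℕ, ((n : ℝ≥0∞) + 1) * m (B n)
      ≤ ENNReal.ofReal (((n : ℝ) + 1) * (c * (1 / 8) ^ n)) := by
    intro n
    rw [ENNReal.ofReal_mul (by positivity)]
    have h3 : ENNReal.ofReal ((n : ℝ) + 1) = (n : ℝ≥0∞) + 1 := by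
      rw [ENNReal.ofReal_add (by positivity) (by norm_num)]; simp
    rw [h3]
    exact mul_le_mul_right (h n) _
  refine ne_top_of_le_ne_top ?_ (ENNReal.tsum_le_tsum h2)
  rw [← ENNReal.ofReal_tsum_of_nonneg (fun n => by positivity) hs]
  exact ENNReal.ofReal_ne_top

theorem disc_ineq {c κ t : ℝ} (hκ0 : 0 ≤ κ) (hκ1 : κ ≤ 1) (ht0 : 0 ≤ t) (ht1 : t ≤ 1)
    (htc : t ≤ c - κ) {p : ℂ} (hp : ‖p‖ ≤ 1) (hpc : c * ‖p‖ ≤ p.re) :
    ‖1 - (t : ℂ) * p‖ + t * ‖p‖ * κ ≤ 1 := by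
  have hpn := norm_nonneg p
  have h1 : ‖1 - (t : ℂ) * p‖ ≤ 1 - t * ‖p‖ * κ := by
    have h2 : t * ‖p‖ * κ ≤ 1 := by
      have : t * ‖p‖ ≤ 1 := by nlinarith
      nlinarith [mul_nonneg ht0 hpn]
    apply abs_le_of_sq_le_sq' _ (by linarith) |>.2
    rw [← Complex.normSq_eq_norm_sq, Complex.normSq_apply]
    have e1 : (1 - (t : ℂ) * p).re = 1 - t * p.re := by
      rw [Complex.sub_re, Complex.re_ofReal_mul, Complex.one_re]
    have e2 : (1 - (t : ℂ) * p).im = - (t * p.im) := by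
      rw [Complex.sub_im, Complex.im_ofReal_mul, Complex.one_im]; ring
    rw [e1, e2]
    have h3 : p.re ^ 2 + p.im ^ 2 = ‖p‖ ^ 2 := by
      rw [← Complex.normSq_eq_norm_sq, Complex.normSq_apply]; ring
    have h4 : (1 - t * p.re) * (1 - t * p.re) + -(t * p.im) * -(t * p.im)
        = 1 - 2 * t * p.re + t ^ 2 * ‖p‖ ^ 2 := by
      rw [← h3]; ring
    rw [h4]
    have h5 : t * (c * ‖p‖) ≤ t * p.re := mul_le_mul_of_nonneg_left hpc ht0
    have h6 : t ^ 2 * ‖p‖ ^ 2 ≤ t * ‖p‖ * (c - κ) := by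
      have : t * ‖p‖ ≤ c - κ := by nlinarith
      have h7 : 0 ≤ t * ‖p‖ := mul_nonneg ht0 hpn
      calc t ^ 2 * ‖p‖ ^ 2 = (t * ‖p‖) * (t * ‖p‖) := by ring
        _ ≤ (t * ‖p‖) * (c - κ) := mul_le_mul_of_nonneg_left this h7
    have h8 : 0 ≤ t * ‖p‖ * (c - κ) := by
      have : 0 ≤ t * ‖p‖ := mul_nonneg ht0 hpn
      exact mul_nonneg this (by linarith)
    nlinarith [sq_nonneg (t * ‖p‖ * κ)]
  linarith

theorem hard {ι : Type*} [Fintype ι] (φ : ι → StrongDual ℂ HI) (f : HI) (hφ : ∀ i, φ i f = 0)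
    (hf : ‖f‖ ≤ 1) (hm : m {x | ‖(f : Linf) x‖ = 1} = 0) (φ0 : StrongDual ℂ HI)
    (h0 : ‖φ0‖ ≤ 1) (h0f : φ0 f = 1) :
    ∃ g : HI, g ≠ f ∧ ‖g‖ ≤ 1 ∧ (∀ i, φ i g = 0) ∧ φ0 g = 1 := by
  classical
  have hf' : ‖(f : Linf)‖ ≤ 1 := hf
  obtain ⟨E, δ, hEm, hEa, hEs, hδ, hEδ⟩ := levels hf' hm
  choose Φ hΦ hΦn using fun i => exists_extension_norm_eq HI (φ i)
  choose Bφ hBm hBa hBs hBst using fun i => exists_star (Φ i)
  set B : ℕ → Set Circ := fun n => E n ∪ ⋃ i, Bφ i n with hBdef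
  have hB : ∀ n, MeasurableSet (B n) := fun n => (hEm n).union (MeasurableSet.iUnion fun i => hBm i n)
  have hBanti : Antitone B := fun a b hab =>
    Set.union_subset_union (hEa hab) (Set.iUnion_mono fun i => hBa i hab)
  have hBmeas : ∀ n, m (B n) ≤ ENNReal.ofReal ((1 + 2 * Fintype.card ι) * (1 / 8) ^ n) := by
    intro n
    have h1 : m.real (B n) ≤ (1 + 2 * Fintype.card ι) * (1 / 8) ^ n := by
      refine (measureReal_union_le _ _).trans ?_
      have h2 : m.real (⋃ i, Bφ i n) ≤ ∑ i, m.real (Bφ i n) := measureReal_iUnion_fintype_le _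
      have h3 : ∑ i, m.real (Bφ i n) ≤ ∑ _i : ι, 2 * (1 / 8 : ℝ) ^ n :=
        Finset.sum_le_sum fun i _ => hBs i n
      rw [Finset.sum_const, Finset.card_univ, nsmul_eq_mul] at h3
      have h4 := hEs n
      nlinarith
    rw [← ofReal_measureReal (measure_ne_top _ _)]
    exact ENNReal.ofReal_le_ofReal h1
  obtain ⟨p, hp, hp1, hpc, hp0, hpk, hplim⟩ := exists_p B hB (sum_fin (by positivity) hBmeas)
  have hkill : ∀ n, Kill (p n) B := fun n => hpk n
  choose Θ hΘ hΘk using fun i => exists_ac (Φ i) hB hBanti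
    ((hBst i).mono fun n => Set.subset_union_of_subset_right (Set.subset_iUnion (fun i => Bφ i n) i) _)
  have hnu : ∀ ν : StrongDual ℂ Linf, ν (f : Linf) = (‖ν‖ : ℂ) → ∀ n w, ν (MI (p n) w) = 0 :=
    fun ν hν n w => vanish_kill hf' hν hB hδ (fun n x hx => Or.inl (hEδ n x hx)) (hkill n) w
  -- the finite dimensional map
  set T0 : HI →L[ℂ] (ι → ℂ) := ContinuousLinearMap.pi fun i => (Θ i).comp HI.subtypeL with hT0
  have hT0v : ∀ w i, T0 w i = Θ i (w : Linf) := fun w i => rfl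
  set R : Submodule ℂ (ι → ℂ) := LinearMap.range (T0 : HI →ₗ[ℂ] (ι → ℂ)) with hR
  set T : HI →L[ℂ] R := T0.codRestrict R (fun w => ⟨w, rfl⟩) with hT
  have hTs : Function.Surjective T := by
    rintro ⟨_, w, rfl⟩
    exact ⟨w, Subtype.ext rfl⟩
  have hTv : ∀ w, ((T w : R) : ι → ℂ) = T0 w := fun w => rfl
  have hTP : ∀ η > 0, ∃ N, ∀ n ≥ N, ∀ w, ‖T (PH (p n) (hp n) w) - T w‖ ≤ η * ‖w‖ := by
    intro η hη
    choose N hN using fun i => ac_conv (hΘ i) hp1 hplim hη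
    refine ⟨Finset.univ.sup N, fun n hn w => ?_⟩
    have h1 : ‖T (PH (p n) (hp n) w) - T w‖ = ‖T0 (PH (p n) (hp n) w) - T0 w‖ := rfl
    rw [h1, pi_norm_le_iff_of_nonneg (by positivity)]
    intro i
    exact hN i n (le_trans (Finset.le_sup (Finset.mem_univ i)) hn) w
  obtain ⟨s0, hs0, hs0T⟩ := helly T hTs hf (fun g hg => by
    set ψ : HI →L[ℂ] ℂ := g.comp T with hψ
    obtain ⟨ν, hν, hνn⟩ := exists_extension_norm_eq HI ψ
    have h1 : ν (f : Linf) = (‖ν‖ : ℂ) := by rw [hν, hνn]; exact hg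
    ext w
    show ψ w = 0
    have h2 : ∀ n, ψ (PH (p n) (hp n) w) = 0 := by
      intro n
      rw [← hν, PH_coe]
      exact hnu ν h1 n w
    have h3 : Tendsto (fun n => T (PH (p n) (hp n) w)) atTop (𝓝 (T w)) := by
      rw [tendsto_iff_norm_sub_tendsto_zero, Metric.tendsto_atTop]
      intro ε hε
      obtain ⟨N, hN⟩ := hTP (ε / (‖w‖ + 1) / 2) (by positivity)
      refine ⟨N, fun n hn => ?_⟩
      rw [dist_zero_right, norm_norm]
      refine (hN n hn w).trans_lt ?_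
      have hw := norm_nonneg w
      calc ε / (‖w‖ + 1) / 2 * ‖w‖ ≤ ε / (‖w‖ + 1) / 2 * (‖w‖ + 1) :=
            mul_le_mul_of_nonneg_left (by linarith) (by positivity)
        _ = ε / 2 := by field_simp
        _ < ε := by linarith
    have h4 : Tendsto (fun n => ψ (PH (p n) (hp n) w)) atTop (𝓝 (ψ w)) :=
      (g.continuous.tendsto _).comp h3
    simp only [h2] at h4
    exact (tendsto_nhds_unique tendsto_const_nhds h4).symm)
  set κ : ℝ := (1 + ‖s0‖) / 2 with hκ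
  have hκ0 : 0 ≤ κ := by rw [hκ]; positivity
  have hκ1 : κ < 1 := by rw [hκ]; linarith
  have hsκ : ‖s0‖ < κ := by rw [hκ]; linarith
  obtain ⟨N, hN⟩ := perturb T hTs (fun n => PH (p n) (hp n)) hTP hsκ hs0T
  have hcos : Tendsto (fun n : ℕ => Real.cos (Real.pi / (2 * ((n : ℝ) + 1)))) atTop (𝓝 1) := by
    have h1 : Tendsto (fun n : ℕ => Real.pi / (2 * ((n : ℝ) + 1))) atTop (𝓝 0) := by
      apply Tendsto.const_div_atTop
      apply Tendsto.const_mul_atTop (by norm_num)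
      exact tendsto_atTop_add_const_right _ _ tendsto_natCast_atTop_atTop
    have h2 := (Real.continuous_cos.tendsto 0).comp h1
    rw [Real.cos_zero] at h2
    exact h2
  obtain ⟨M, hM⟩ := eventually_atTop.1 (hcos.eventually (lt_mem_nhds hκ1))
  set n : ℕ := max N M with hn
  obtain ⟨s, hsn, hsT⟩ := hN n (le_max_left _ _)
  have hcn := hM n (le_max_right _ _)
  set c : ℝ := Real.cos (Real.pi / (2 * ((n : ℝ) + 1))) with hc
  set t : ℝ := min 1 (c - κ) with ht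
  have ht0 : 0 < t := lt_min one_pos (by linarith)
  have ht1 : t ≤ 1 := min_le_left _ _
  have htc : t ≤ c - κ := min_le_right _ _
  set d : HI := PH (p n) (hp n) (f - s) with hd
  have hdae : ∀ᵐ x ∂m, (d : Linf) x = p n x * ((f : Linf) x - (s : Linf) x) := by
    have h1 : (d : Linf) = MI (p n) ((f : Linf) - (s : Linf)) := rfl
    filter_upwards [MI_ae (p n) ((f : Linf) - (s : Linf)), Lp.coeFn_sub (f : Linf) (s : Linf)]
      with x e1 e2
    rw [h1, e1, e2, Pi.sub_apply]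
  refine ⟨f - (t : ℂ) • d, ?_, ?_, fun i => ?_, ?_⟩
  · intro heq
    have h1 : (t : ℂ) • d = 0 := by
      have := sub_eq_self.1 heq
      exact this
    have h2 : d = 0 := by
      rcases smul_eq_zero.1 h1 with h | h
      · exact absurd (Complex.ofReal_eq_zero.1 h) ht0.ne'
      · exact h
    have h3 : (f : Linf) = (s : Linf) := by
      apply Lp.ext
      have h4 : ∀ᵐ x ∂m, (d : Linf) x = 0 := by
        rw [h2]
        exact Lp.coeFn_zero ℂ ∞ m
      filter_upwards [h4, hdae, hp0 n] with x e1 e2 e3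
      rw [e2] at e1
      rcases mul_eq_zero.1 e1 with h | h
      · exact absurd h e3
      · exact sub_eq_zero.1 h
    have h4 : ‖f‖ = ‖s‖ := congrArg (fun z : Linf => ‖z‖) h3
    have h5 := φ0.le_opNorm f
    rw [h0f, norm_one] at h5
    have h6 : ‖f‖ ≤ κ := by rw [h4]; exact hsn
    nlinarith [norm_nonneg φ0, norm_nonneg f]
  · show ‖(f : Linf) - (t : ℂ) • (d : Linf)‖ ≤ 1
    apply nrm_le zero_le_one
    filter_upwards [Lp.coeFn_sub (f : Linf) ((t : ℂ) • (d : Linf)), Lp.coeFn_smul (t : ℂ) (d : Linf),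
      hdae, nrm_ae (f : Linf), nrm_ae (s : Linf), hp1 n, hpc n] with x e1 e2 e3 e4 e5 e6 e7
    rw [e1, Pi.sub_apply, e2, Pi.smul_apply, e3, smul_eq_mul]
    have h1 : (f : Linf) x - (t : ℂ) * (p n x * ((f : Linf) x - (s : Linf) x))
        = (1 - (t : ℂ) * p n x) * (f : Linf) x + ((t : ℂ) * p n x) * (s : Linf) x := by ring
    rw [h1]
    refine (norm_add_le _ _).trans ?_
    rw [norm_mul, norm_mul, norm_mul, Complex.norm_real, Real.norm_of_nonneg ht0.le]
    have h2 := disc_ineq hκ0 hκ1.le ht0.le ht1 htc e6 e7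
    have h3 : ‖(f : Linf) x‖ ≤ 1 := e4.trans hf'
    have h4 : ‖(s : Linf) x‖ ≤ κ := e5.trans hsn
    have h5 : ‖1 - (t : ℂ) * p n x‖ * ‖(f : Linf) x‖ ≤ ‖1 - (t : ℂ) * p n x‖ :=
      mul_le_of_le_one_right (norm_nonneg _) h3
    have h6 : t * ‖p n x‖ * ‖(s : Linf) x‖ ≤ t * ‖p n x‖ * κ :=
      mul_le_mul_of_nonneg_left h4 (mul_nonneg ht0.le (norm_nonneg _))
    linarith
  · rw [map_sub, hφ, map_smul, ← hΦ i d]
    have h1 : Φ i (d : Linf) = Θ i (d : Linf) := hΘk i (p n) (hkill n) _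
    have h2 : Θ i (d : Linf) = 0 := by
      have h3 : T d = 0 := by
        rw [hd, map_sub, map_sub, hsT, sub_self]
      have h4 : T0 d = 0 := by rw [← hTv, h3]; rfl
      rw [← hT0v, h4]; rfl
    rw [h1, h2]; simp
  · obtain ⟨ν, hν, hνn⟩ := exists_extension_norm_eq HI φ0
    have h1 : ‖φ0‖ = 1 := by
      apply le_antisymm h0
      have h5 := φ0.le_opNorm f
      rw [h0f, norm_one] at h5
      nlinarith [norm_nonneg φ0, norm_nonneg f]
    have h2 : ν (f : Linf) = (‖ν‖ : ℂ) := by rw [hν, hνn, h1, h0f]; simp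
    have h3 : φ0 d = 0 := by
      rw [← hν]
      exact hnu ν h2 n _
    rw [map_sub, map_smul, h3, h0f]; simp

end Pool.Agent.X203.Exp
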