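import Mathlib
import Pool.Agent.X203.ExpE
import Pool.Agent.H270R3.Syn.Out

/-!
Functions of modulus one on a set of positive measure are exposed.
-/

set_option autoImplicit false

open MeasureTheory Filter
open scoped ENNReal InnerProductSpace ComplexConjugate Topology

namespace Pool.Agent.X203.Exp

open Pool.Agent.H270R3.Cap

/-- a function in `H^∞` vanishing on a set of positive measure is zero -/
theorem uniq {h : Linf} (hh : IsHinf h) {A : Set Circ} (hA : MeasurableSet A) (hA0 : 0 < m.real A)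
    (h0 : ∀ᵐ x ∂m, x ∈ A → h x = 0) : h = 0 := by
  set H : L2 := toL2 h with hH
  have hHm : H ∈ H2 := toL2_mem hh
  have hq : ∀ N : ℕ, ∃ q : Linf, IsHinf q ∧ (∀ᵐ x ∂m, ‖q x‖ = Real.exp (A.indicator (fun _ => (N : ℝ)) x)) ∧
      coefL 0 (toL2 q) = (Real.exp (N * m.real A) : ℂ) := by
    intro N
    obtain ⟨q, h1, h2, h3⟩ := Pool.Agent.H270R3.Syn.exists_q (A.indicator (fun _ => (N : ℝ)))
      (measurable_const.indicator hA) (C := N) (fun x => by
        by_cases hx : x ∈ A
        · rw [Set.indicator_of_mem hx]; simp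
        · rw [Set.indicator_of_notMem hx]; simp)
    refine ⟨q, h1, h2, ?_⟩
    rw [h3, integral_indicator hA, setIntegral_const, smul_eq_mul, mul_comm]
  have hcoef : ∀ n : ℕ, coefL (n : ℤ) H = 0 := by
    intro n
    induction n using Nat.strong_induction_on with
    | _ n ih =>
      by_contra hne
      have hpos : 0 < ‖coefL (n : ℤ) H‖ := norm_pos_iff.2 hne
      have hb : ∀ N : ℕ, Real.exp (N * m.real A) * ‖coefL (n : ℤ) H‖ ≤ ‖H‖ := by
        intro N
        obtain ⟨q, h1, h2, h3⟩ := hq N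
        have h4 := Pool.Agent.H270R3.Syn.coef_mul h1 hHm n
        rw [Finset.sum_range_succ, Finset.sum_eq_zero (fun k hk => by
          rw [ih k (Finset.mem_range.1 hk), zero_mul]), zero_add, sub_self, h3] at h4
        have h5 : ‖coefL (n : ℤ) (mulOp q H)‖ ≤ ‖mulOp q H‖ := by
          rw [coefL_apply]; exact coef_le _ _
        have h6 : ‖mulOp q H‖ ≤ 1 * ‖H‖ := by
          apply Lp.norm_le_mul_norm_of_ae_le_mul
          filter_upwards [mulOp_ae q H, h2, toL2_ae h, h0] with x e1 e2 e3 e4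
          rw [e1, norm_mul, e2]
          by_cases hx : x ∈ A
          · rw [hH, e3, e4 hx]; simp
          · rw [Set.indicator_of_notMem hx, Real.exp_zero]
        rw [h4, norm_mul, mul_comm, Complex.norm_real,
          Real.norm_of_nonneg (Real.exp_pos _).le] at h5
        linarith
      have h7 : Tendsto (fun N : ℕ => Real.exp (N * m.real A) * ‖coefL (n : ℤ) H‖) atTop atTop := by
        apply Tendsto.atTop_mul_const hpos
        apply Real.tendsto_exp_atTop.comp
        exact tendsto_natCast_atTop_atTop.atTop_mul_const hA0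
      obtain ⟨N, hN⟩ := (h7.eventually (eventually_gt_atTop ‖H‖)).exists
      exact absurd (hb N) (not_le.2 hN)
  have hH0 : H = 0 := by
    apply L2_ext_coef
    intro n
    rw [← coefL_apply, ← coefL_apply, map_zero]
    by_cases hn : n < 0
    · rw [coefL_apply]; exact hHm n hn
    · obtain ⟨k, rfl⟩ := Int.eq_ofNat_of_zero_le (not_lt.1 hn)
      exact hcoef k
  apply Lp.ext
  have h8 : ∀ᵐ x ∂m, H x = 0 := by
    rw [hH0]; exact Lp.coeFn_zero ℂ 2 m
  filter_upwards [h8, toL2_ae h, Lp.coeFn_zero ℂ ∞ m] with x e1 e2 e3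
  rw [e3, ← e2, Pi.zero_apply]
  exact e1

/-- integration -/
noncomputable def Iv : Linf →L[ℂ] ℂ :=
  (coefL 0).comp (((ContinuousLinearMap.mul ℂ ℂ).holderL m ∞ 2 2).flip (fourierLp 2 0))

theorem Iv_apply (w : Linf) : Iv w = ∫ x, w x ∂m := by
  have h1 : Iv w = coefL 0 (mulOp w (fourierLp 2 0)) := rfl
  rw [h1, ← coefI_eq]
  unfold fourierCoeff
  refine integral_congr_ae (Eventually.of_forall fun x => ?_)
  simp

theorem Iint (w : Linf) : Integrable (fun x => w x) m := (Lp.memLp w).integrable le_top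

/-- the exposing functional -/
theorem expose (f : HI) (hm : 0 < m {x | ‖(f : Linf) x‖ = 1}) :
    ∃ Λ : StrongDual ℂ Linf, (∀ w, ‖Λ w‖ ≤ 1 * ‖w‖) ∧ Λ (f : Linf) = 1 ∧
      ∀ y : HI, ‖(y : Linf)‖ ≤ 1 → Λ (y : Linf) = 1 → (y : Linf) = (f : Linf) := by
  set E : Set Circ := {x | ‖(f : Linf) x‖ = 1} with hE
  have hEm : MeasurableSet E :=
    measurableSet_eq_fun (Lp.stronglyMeasurable (f : Linf)).measurable.norm measurable_const
  have hE0 : 0 < m.real E := ENNReal.toReal_pos hm.ne' (measure_ne_top _ _)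
  have hcm : MemLp (fun x => conj ((f : Linf) x)) ∞ m := by
    refine MemLp.of_le (Lp.memLp (f : Linf))
      (Complex.continuous_conj.comp_aestronglyMeasurable (Lp.aestronglyMeasurable (f : Linf))) ?_
    exact Filter.Eventually.of_forall fun x => by rw [RCLike.norm_conj]
  set A : Linf := MI (cut E hEm) (hcm.toLp _) with hA
  have hAae : ∀ᵐ x ∂m, (x ∈ E → A x = conj ((f : Linf) x)) ∧ (x ∉ E → A x = 0) := by
    filter_upwards [cutmul_ae E hEm (hcm.toLp _), hcm.coeFn_toLp] with x e1 e2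
    refine ⟨fun h => ?_, fun h => e1.2 h⟩
    rw [hA, e1.1 h, e2]
  set Λ : StrongDual ℂ Linf := (((m.real E)⁻¹ : ℝ) : ℂ) • Iv.comp (MI A) with hΛ
  have hΛv : ∀ w : Linf, Λ w = (((m.real E)⁻¹ : ℝ) : ℂ) * ∫ x, A x * w x ∂m := by
    intro w
    have h1 : Λ w = (((m.real E)⁻¹ : ℝ) : ℂ) * Iv (MI A w) := rfl
    rw [h1, Iv_apply, integral_congr_ae (MI_ae A w)]
  have hAw : ∀ w : Linf, ∀ᵐ x ∂m, (x ∈ E → ‖A x * w x‖ = ‖w x‖) ∧ (x ∉ E → A x * w x = 0) := by
    intro w
    filter_upwards [hAae] with x e1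
    refine ⟨fun h => ?_, fun h => by rw [e1.2 h, zero_mul]⟩
    rw [norm_mul, e1.1 h, RCLike.norm_conj]
    have : ‖(f : Linf) x‖ = 1 := h
    rw [this, one_mul]
  have hint : ∫ x, E.indicator (fun _ => (1 : ℝ)) x ∂m = m.real E := by
    rw [integral_indicator hEm, setIntegral_const, smul_eq_mul, mul_one]
  have hiE : Integrable (E.indicator fun _ => (1 : ℝ)) m :=
    (integrable_const (1 : ℝ)).indicator hEm
  have hΛn : ∀ w : Linf, ‖Λ w‖ ≤ 1 * ‖w‖ := by
    intro w
    rw [hΛv, norm_mul, Complex.norm_real, Real.norm_of_nonneg (inv_nonneg.2 hE0.le), one_mul]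
    have h1 : ‖∫ x, A x * w x ∂m‖ ≤ ∫ x, E.indicator (fun _ => (1 : ℝ)) x * ‖w‖ ∂m := by
      refine norm_integral_le_of_norm_le (hiE.mul_const _) ?_
      filter_upwards [hAw w, nrm_ae w] with x e1 e2
      by_cases hx : x ∈ E
      · rw [e1.1 hx, Set.indicator_of_mem hx, one_mul]; exact e2
      · rw [e1.2 hx, norm_zero, Set.indicator_of_notMem hx, zero_mul]
    rw [integral_mul_const, hint] at h1
    calc (m.real E)⁻¹ * ‖∫ x, A x * w x ∂m‖ ≤ (m.real E)⁻¹ * (m.real E * ‖w‖) :=
          mul_le_mul_of_nonneg_left h1 (inv_nonneg.2 hE0.le)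
      _ = ‖w‖ := by rw [← mul_assoc, inv_mul_cancel₀ hE0.ne', one_mul]
  have hΛf : Λ (f : Linf) = 1 := by
    rw [hΛv]
    have h1 : ∫ x, A x * (f : Linf) x ∂m = ((m.real E : ℝ) : ℂ) := by
      have h2 : ∫ x, ((E.indicator (fun _ => (1 : ℝ)) x : ℝ) : ℂ) ∂m = ((m.real E : ℝ) : ℂ) := by
        rw [← hint]; exact integral_ofReal
      rw [← h2]
      refine integral_congr_ae ?_
      filter_upwards [hAae] with x e1
      by_cases hx : x ∈ E
      · rw [e1.1 hx, Set.indicator_of_mem hx, mul_comm, Complex.mul_conj,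
          Complex.normSq_eq_norm_sq]
        have : ‖(f : Linf) x‖ = 1 := hx
        rw [this]; simp
      · rw [e1.2 hx, zero_mul, Set.indicator_of_notMem hx]; simp
    rw [h1, ← Complex.ofReal_mul, inv_mul_cancel₀ hE0.ne', Complex.ofReal_one]
  refine ⟨Λ, hΛn, hΛf, fun y hy1 hy2 => ?_⟩
  set z : Linf := ((y : HI) : Linf) with hz
  have hzn : ‖z‖ ≤ 1 := hy1
  rw [hΛv] at hy2
  have h1 : ∫ x, A x * z x ∂m = ((m.real E : ℝ) : ℂ) := by
    have h2 := congrArg (fun t => ((m.real E : ℝ) : ℂ) * t) hy2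
    simp only [mul_one] at h2
    rw [← h2, ← mul_assoc, ← Complex.ofReal_mul, mul_inv_cancel₀ hE0.ne', Complex.ofReal_one,
      one_mul]
  have hi : Integrable (fun x => A x * z x) m := by
    refine (Iint (MI A z)).congr (MI_ae A z)
  have h2 : ∫ x, (A x * z x).re ∂m = m.real E := by
    have h3 := integral_re hi
    have h4 : (∫ x, A x * z x ∂m).re = m.real E := by rw [h1, Complex.ofReal_re]
    rw [← h4]
    exact h3
  have hire : Integrable (fun x => (A x * z x).re) m := hi.re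
  have h3 : ∫ x, (E.indicator (fun _ => (1 : ℝ)) x - (A x * z x).re) ∂m = 0 := by
    rw [integral_sub hiE hire, hint, h2, sub_self]
  have hnn : 0 ≤ᵐ[m] fun x => E.indicator (fun _ => (1 : ℝ)) x - (A x * z x).re := by
    filter_upwards [hAw z, nrm_ae z] with x e1 e2
    show 0 ≤ E.indicator (fun _ => (1 : ℝ)) x - (A x * z x).re
    by_cases hx : x ∈ E
    · rw [Set.indicator_of_mem hx]
      have := Complex.re_le_norm (A x * z x)
      rw [e1.1 hx] at this
      linarith
    · rw [Set.indicator_of_notMem hx, e1.2 hx]; simp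
  have h4 := (integral_eq_zero_iff_of_nonneg_ae hnn (hiE.sub hire)).1 h3
  have h5 : ∀ᵐ x ∂m, x ∈ E → (z - (f : Linf) : Linf) x = 0 := by
    filter_upwards [h4, hAw z, hAae, nrm_ae z, Lp.coeFn_sub z (f : Linf)] with x e1 e2 e3 e4 e5 hx
    rw [e5, Pi.sub_apply, sub_eq_zero]
    have e6 : (A x * z x).re = 1 := by
      have e7 : E.indicator (fun _ => (1 : ℝ)) x - (A x * z x).re = 0 := e1
      rw [Set.indicator_of_mem hx] at e7
      linarith
    have e8 : ‖A x * z x‖ ≤ 1 := by rw [e2.1 hx]; linarith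
    have e9 : A x * z x = 1 := by
      have e10 : (A x * z x).re ^ 2 + (A x * z x).im ^ 2 ≤ 1 := by
        have := pow_le_pow_left₀ (norm_nonneg _) e8 2
        rw [← Complex.normSq_eq_norm_sq, Complex.normSq_apply] at this
        nlinarith
      rw [e6] at e10
      apply Complex.ext
      · rw [e6, Complex.one_re]
      · rw [Complex.one_im]
        have : (A x * z x).im ^ 2 ≤ 0 := by linarith
        exact pow_eq_zero_iff (two_ne_zero) |>.1 (le_antisymm this (sq_nonneg _))
    rw [e3.1 hx] at e9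
    have e11 : (f : Linf) x * conj ((f : Linf) x) = 1 := by
      rw [Complex.mul_conj, Complex.normSq_eq_norm_sq]
      have : ‖(f : Linf) x‖ = 1 := hx
      rw [this]; simp
    calc z x = ((f : Linf) x * conj ((f : Linf) x)) * z x := by rw [e11, one_mul]
      _ = (f : Linf) x * (conj ((f : Linf) x) * z x) := by ring
      _ = (f : Linf) x := by rw [e9, mul_one]
  have h6 : z - (f : Linf) = 0 :=
    uniq (HI.sub_mem (y : HI).2 f.2) hEm hE0 h5
  exact sub_eq_zero.1 h6

end Pool.Agent.X203.Exp
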