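import Mathlib

set_option linter.unusedSectionVars false
set_option linter.unusedSimpArgs false

open Finset

namespace Pool.Agent.X203.Toric

variable {V : Type} [DecidableEq V]

/-- The vector counting the first ends of a multiset of pairs. -/
noncomputable def fs (m : Multiset (V × V)) : V →₀ ℕ :=
  (m.map fun e => Finsupp.single e.1 1).sum

/-- The vector counting the second ends of a multiset of pairs. -/
noncomputable def sn (m : Multiset (V × V)) : V →₀ ℕ :=
  (m.map fun e => Finsupp.single e.2 1).sum

@[simp] lemma fs_zero : fs (0 : Multiset (V × V)) = 0 := by simp [fs]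
@[simp] lemma sn_zero : sn (0 : Multiset (V × V)) = 0 := by simp [sn]
@[simp] lemma fs_cons (e : V × V) (m : Multiset (V × V)) :
    fs (e ::ₘ m) = Finsupp.single e.1 1 + fs m := by simp [fs]
@[simp] lemma sn_cons (e : V × V) (m : Multiset (V × V)) :
    sn (e ::ₘ m) = Finsupp.single e.2 1 + sn m := by simp [sn]
@[simp] lemma fs_add (m m' : Multiset (V × V)) : fs (m + m') = fs m + fs m' := by simp [fs]
@[simp] lemma sn_add (m m' : Multiset (V × V)) : sn (m + m') = sn m + sn m' := by simp [sn]
lemma fs_swap (m : Multiset (V × V)) : fs (m.map Prod.swap) = sn m := by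
  simp [fs, sn, Multiset.map_map, Function.comp_def]
lemma sn_swap (m : Multiset (V × V)) : sn (m.map Prod.swap) = fs m := by
  simp [fs, sn, Multiset.map_map, Function.comp_def]

/-- `m'` is obtained from `m` by exchanging the two ends of some of the pairs. -/
def Reor (m m' : Multiset (V × V)) : Prop :=
  Multiset.Rel (fun e e' => e' = e ∨ e' = e.swap) m m'

lemma Reor.refl (m : Multiset (V × V)) : Reor m m := by
  induction m using Multiset.induction with
  | empty => exact Multiset.Rel.zero
  | cons e m ih => exact Multiset.Rel.cons (Or.inl rfl) ih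

lemma Reor.cons {e e' : V × V} {m m' : Multiset (V × V)} (h : e' = e ∨ e' = e.swap)
    (hm : Reor m m') : Reor (e ::ₘ m) (e' ::ₘ m') := Multiset.Rel.cons h hm

lemma reor_cons_left {e : V × V} {m h : Multiset (V × V)} (H : Reor (e ::ₘ m) h) :
    ∃ e' m', (e' = e ∨ e' = e.swap) ∧ Reor m m' ∧ h = e' ::ₘ m' := by
  unfold Reor at H
  rw [Multiset.rel_cons_left] at H
  obtain ⟨b, bs, h1, h2, h3⟩ := H
  exact ⟨b, bs, h1, h2, h3⟩

lemma Reor.trans {a b c : Multiset (V × V)} (h1 : Reor a b) (h2 : Reor b c) : Reor a c := by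
  induction a using Multiset.induction generalizing b c with
  | empty =>
    have : b = 0 := by
      unfold Reor at h1
      rwa [Multiset.rel_zero_left] at h1
    subst this
    exact h2
  | cons e m ih =>
    obtain ⟨e', m', he, hm, rfl⟩ := reor_cons_left h1
    obtain ⟨e'', m'', he', hm', rfl⟩ := reor_cons_left h2
    refine Reor.cons ?_ (ih hm hm')
    rcases he with rfl | rfl <;> rcases he' with rfl | rfl
    · exact Or.inl rfl
    · exact Or.inr rfl
    · exact Or.inr rfl
    · left; simp

lemma reor_swap {a b : Multiset (V × V)} (h : Reor a b) : Reor a (b.map Prod.swap) := by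
  induction a using Multiset.induction generalizing b with
  | empty =>
    have : b = 0 := by
      unfold Reor at h
      rwa [Multiset.rel_zero_left] at h
    subst this
    exact Multiset.Rel.zero
  | cons e m ih =>
    obtain ⟨e', m', he, hm, rfl⟩ := reor_cons_left h
    rw [Multiset.map_cons]
    refine Reor.cons ?_ (ih hm)
    rcases he with rfl | rfl
    · exact Or.inr rfl
    · left; simp

lemma reor_swap_left {a b : Multiset (V × V)} (h : Reor (a.map Prod.swap) b) : Reor a b :=
  Reor.trans (reor_swap (Reor.refl a)) h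

lemma Reor.add {a b c d : Multiset (V × V)} (h1 : Reor a b) (h2 : Reor c d) :
    Reor (a + c) (b + d) := Multiset.Rel.add h1 h2

lemma reor_add_left {a b h : Multiset (V × V)} (H : Reor (a + b) h) :
    ∃ a' b', Reor a a' ∧ Reor b b' ∧ h = a' + b' := by
  unfold Reor at H
  rw [Multiset.rel_add_left] at H
  obtain ⟨a', b', h1, h2, h3⟩ := H
  exact ⟨a', b', h1, h2, h3⟩

lemma reor_deg {a b : Multiset (V × V)} (h : Reor a b) : fs b + sn b = fs a + sn a := by
  induction a using Multiset.induction generalizing b with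
  | empty =>
    have : b = 0 := by
      unfold Reor at h
      rwa [Multiset.rel_zero_left] at h
    subst this
    rfl
  | cons e m ih =>
    obtain ⟨e', m', he, hm, rfl⟩ := reor_cons_left h
    have := ih hm
    simp only [fs_cons, sn_cons]
    rcases he with rfl | rfl
    · calc Finsupp.single e'.1 1 + fs m' + (Finsupp.single e'.2 1 + sn m')
          = Finsupp.single e'.1 1 + Finsupp.single e'.2 1 + (fs m' + sn m') := by abel
        _ = _ := by rw [this]; abel
    · calc Finsupp.single e.swap.1 1 + fs m' + (Finsupp.single e.swap.2 1 + sn m')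
          = Finsupp.single e.2 1 + Finsupp.single e.1 1 + (fs m' + sn m') := by
            simp only [Prod.fst_swap, Prod.snd_swap]; abel
        _ = _ := by rw [this]; abel

lemma exists_inc {m : Multiset (V × V)} {x : V} (h : 0 < fs m x + sn m x) :
    ∃ e ∈ m, e.1 = x ∨ e.2 = x := by
  induction m using Multiset.induction with
  | empty => simp at h
  | cons e m ih =>
    by_cases he : e.1 = x ∨ e.2 = x
    · exact ⟨e, Multiset.mem_cons_self _ _, he⟩
    · push Not at he
      have : 0 < fs m x + sn m x := by
        simpa [Finsupp.single_apply, he.1, he.2] using h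
      obtain ⟨f, hf, hf'⟩ := ih this
      exact ⟨f, Multiset.mem_cons_of_mem hf, hf'⟩

lemma exists_fst {m : Multiset (V × V)} {x : V} (h : 0 < fs m x) : ∃ e ∈ m, e.1 = x := by
  induction m using Multiset.induction with
  | empty => simp at h
  | cons e m ih =>
    by_cases he : e.1 = x
    · exact ⟨e, Multiset.mem_cons_self _ _, he⟩
    · have : 0 < fs m x := by
        simpa [Finsupp.single_apply, he] using h
      obtain ⟨f, hf, hf'⟩ := ih this
      exact ⟨f, Multiset.mem_cons_of_mem hf, hf'⟩

/-- Every multigraph has an orientation in which at every vertex the numbers of first ends and of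
second ends differ by at most one. -/
theorem balanced (m : Multiset (V × V)) :
    ∃ m', Reor m m' ∧ ∀ x, (fs m' x : ℤ) - sn m' x ≤ 1 ∧ (sn m' x : ℤ) - fs m' x ≤ 1 := by
  induction hn : m.card using Nat.strong_induction_on generalizing m with
  | _ k ih =>
    by_cases h : ∀ x, fs m x + sn m x ≤ 1
    · refine ⟨m, Reor.refl m, fun x => ?_⟩
      have := h x
      omega
    · push Not at h
      obtain ⟨x, hx⟩ := h
      obtain ⟨e, he, hex⟩ := exists_inc (m := m) (x := x) (by omega)
      obtain ⟨m1, rfl⟩ := Multiset.exists_cons_of_mem he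
      by_cases hl : e.1 = e.2
      · obtain ⟨m1', h1, h2⟩ := ih m1.card (by rw [← hn]; simp) m1 rfl
        refine ⟨e ::ₘ m1', Reor.cons (Or.inl rfl) h1, fun z => ?_⟩
        have := h2 z
        simp only [fs_cons, sn_cons, Finsupp.add_apply, hl]
        push_cast
        omega
      · have h1 : 0 < fs m1 x + sn m1 x := by
          simp only [fs_cons, sn_cons, Finsupp.add_apply, Finsupp.single_apply] at hx
          rcases hex with hex | hex
          · have : e.2 ≠ x := fun hh => hl (hex.trans hh.symm)
            simp only [hex, this, if_true, if_false] at hx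
            omega
          · have : e.1 ≠ x := fun hh => hl (hh.trans hex.symm)
            simp only [hex, this, if_true, if_false] at hx
            omega
        obtain ⟨f, hf, hfx⟩ := exists_inc h1
        obtain ⟨m2, rfl⟩ := Multiset.exists_cons_of_mem hf
        -- normalise
        obtain ⟨a, ha⟩ : ∃ a, ((a, x) : V × V) = e ∨ (a, x) = e.swap := by
          rcases hex with hex | hex
          · exact ⟨e.2, Or.inr (by ext <;> simp [hex])⟩
          · exact ⟨e.1, Or.inl (by ext <;> simp [hex])⟩
        obtain ⟨b, hb⟩ : ∃ b, ((x, b) : V × V) = f ∨ (x, b) = f.swap := by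
          rcases hfx with hfx | hfx
          · exact ⟨f.2, Or.inl (by ext <;> simp [hfx])⟩
          · exact ⟨f.1, Or.inr (by ext <;> simp [hfx])⟩
        have hR : Reor (e ::ₘ f ::ₘ m2) ((a, x) ::ₘ (x, b) ::ₘ m2) :=
          Reor.cons ha (Reor.cons hb (Reor.refl m2))
        obtain ⟨h', h3, h4⟩ := ih (((a, b) ::ₘ m2).card) (by rw [← hn]; simp) ((a, b) ::ₘ m2) rfl
        obtain ⟨g, m2', hg, hm2, rfl⟩ := reor_cons_left h3
        rcases hg with rfl | rfl
        · refine ⟨(a, x) ::ₘ (x, b) ::ₘ m2', Reor.trans hR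
            (Reor.cons (Or.inl rfl) (Reor.cons (Or.inl rfl) hm2)), fun z => ?_⟩
          have := h4 z
          simp only [fs_cons, sn_cons, Finsupp.add_apply] at this ⊢
          push_cast at this ⊢
          omega
        · refine ⟨(x, a) ::ₘ (b, x) ::ₘ m2', Reor.trans hR
            (Reor.cons (Or.inr rfl) (Reor.cons (Or.inr rfl) hm2)), fun z => ?_⟩
          have := h4 z
          simp only [fs_cons, sn_cons, Finsupp.add_apply, Prod.swap_prod_mk] at this ⊢
          push_cast at this ⊢
          omega

/-- Strong base orderability of a set of vectors. -/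
def SBO (B : Set (V →₀ ℕ)) : Prop :=
  ∀ u ∈ B, ∀ v ∈ B, ∃ (b : V →₀ ℕ) (m : Multiset (V × V)), u = b + fs m ∧ v = b + sn m ∧
    (∀ x, fs m x = 0 ∨ sn m x = 0) ∧ ∀ m', Reor m m' → b + fs m' ∈ B

/-- The simultaneous rebalancing of two pairs. -/
theorem rebalance {B : Set (V →₀ ℕ)} {b1 b2 : V →₀ ℕ} {m1 m2 : Multiset (V × V)}
    (h1 : ∀ m', Reor m1 m' → b1 + fs m' ∈ B) (h2 : ∀ m', Reor m2 m' → b2 + fs m' ∈ B) :
    ∃ m1' m2', Reor m1 m1' ∧ Reor m2 m2' ∧
      b1 + fs m1' ∈ B ∧ b1 + sn m1' ∈ B ∧ b2 + fs m2' ∈ B ∧ b2 + sn m2' ∈ B ∧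
      ∀ x, (((b1 + fs m1') x : ℤ) - (b2 + fs m2') x) - ((b1 + sn m1') x - (b2 + sn m2') x) ≤ 1 ∧
        (-1 : ℤ) ≤ (((b1 + fs m1') x : ℤ) - (b2 + fs m2') x) -
          ((b1 + sn m1') x - (b2 + sn m2') x) := by
  obtain ⟨h', hR, hb⟩ := balanced (m1 + m2.map Prod.swap)
  obtain ⟨a, c, ha, hc, rfl⟩ := reor_add_left hR
  have hc' : Reor m2 (c.map Prod.swap) := reor_swap (reor_swap_left hc)
  refine ⟨a, c.map Prod.swap, ha, hc', h1 a ha, ?_, h2 _ hc', ?_, fun x => ?_⟩
  · rw [← fs_swap]; exact h1 _ (reor_swap ha)
  · rw [sn_swap]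
    exact h2 _ (reor_swap_left hc)
  · have := hb x
    simp only [fs_add, sn_add, Finsupp.add_apply, fs_swap, sn_swap] at this ⊢
    push_cast at this ⊢
    omega

end Pool.Agent.X203.Toric
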