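import Mathlib
import Pool.Agent.X203.ToricA

set_option linter.unusedSectionVars false
set_option linter.unusedSimpArgs false

open Finset

namespace Pool.Agent.X203.Toric

variable {V : Type} [DecidableEq V] [Fintype V]
variable (K : Type) [Field K] (B : Set (V →₀ ℕ))

/-- The homomorphism `z_w ↦ x^w`. -/
noncomputable def toricMap : MvPolynomial B K →ₐ[K] MvPolynomial V K :=
  MvPolynomial.aeval fun w : B => MvPolynomial.monomial (w : V →₀ ℕ) 1

/-- The toric ideal. -/
noncomputable def toricIdeal : Ideal (MvPolynomial B K) := RingHom.ker (toricMap K B)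

/-- The symmetric exchange binomials. -/
def symExch : Set (MvPolynomial B K) :=
  {f | ∃ (u v u' v' : B) (ξ ρ : V), (v : V →₀ ℕ) ξ < (u : V →₀ ℕ) ξ ∧
    (u : V →₀ ℕ) ρ < (v : V →₀ ℕ) ρ ∧
    (u' : V →₀ ℕ) + Finsupp.single ξ 1 = (u : V →₀ ℕ) + Finsupp.single ρ 1 ∧
    (v' : V →₀ ℕ) + Finsupp.single ρ 1 = (v : V →₀ ℕ) + Finsupp.single ξ 1 ∧
    f = MvPolynomial.X u * MvPolynomial.X v - MvPolynomial.X u' * MvPolynomial.X v'}

open Classical in
/-- The variable of an exponent vector, `0` outside `B`. -/
noncomputable def Z (w : V →₀ ℕ) : MvPolynomial B K :=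
  if h : w ∈ B then MvPolynomial.X ⟨w, h⟩ else 0

lemma Z_of_mem {w : V →₀ ℕ} (h : w ∈ B) : Z K B w = MvPolynomial.X ⟨w, h⟩ := by
  simp [Z, h]

lemma Z_coe (w : B) : Z K B w = MvPolynomial.X w := by
  simp [Z]

/-- Symmetric exchange with total variables. -/
lemma exch_mem {u v u' v' : V →₀ ℕ} (hu : u ∈ B) (hv : v ∈ B) (hu' : u' ∈ B) (hv' : v' ∈ B)
    {ξ ρ : V} (h1 : v ξ < u ξ) (h2 : u ρ < v ρ)
    (h3 : u' + Finsupp.single ξ 1 = u + Finsupp.single ρ 1)
    (h4 : v' + Finsupp.single ρ 1 = v + Finsupp.single ξ 1) :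
    Z K B u * Z K B v - Z K B u' * Z K B v' ∈ Ideal.span (symExch K B) := by
  apply Ideal.subset_span
  refine ⟨⟨u, hu⟩, ⟨v, hv⟩, ⟨u', hu'⟩, ⟨v', hv'⟩, ξ, ρ, h1, h2, h3, h4, ?_⟩
  rw [Z_of_mem K B hu, Z_of_mem K B hv, Z_of_mem K B hu', Z_of_mem K B hv']

/-- Flipping pairs when all ends are distinct. -/
lemma flip_mem {b : V →₀ ℕ} (k m m' : Multiset (V × V)) (hR : Reor m m')
    (hB : ∀ h, Reor (k + m) h → b + fs h ∈ B)
    (hd : ∀ x, fs (k + m) x + sn (k + m) x ≤ 1) :
    Z K B (b + fs (k + m)) * Z K B (b + sn (k + m)) -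
      Z K B (b + fs (k + m')) * Z K B (b + sn (k + m')) ∈ Ideal.span (symExch K B) := by
  induction m using Multiset.induction generalizing k m' with
  | empty =>
    have : m' = 0 := by
      unfold Reor at hR
      rwa [Multiset.rel_zero_left] at hR
    subst this
    simp
  | cons e m ih =>
    obtain ⟨e', m'', he, hm, rfl⟩ := reor_cons_left hR
    have hsn : ∀ h, Reor (k + e ::ₘ m) h → b + sn h ∈ B := by
      intro h hh
      rw [← fs_swap]
      exact hB _ (reor_swap hh)
    have hRe : Reor (k + e ::ₘ m) ((e' ::ₘ k) + m) := by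
      have : (e' ::ₘ k) + m = k + e' ::ₘ m := by
        rw [Multiset.cons_add, Multiset.add_cons]
      rw [this]
      exact Reor.add (Reor.refl k) (Reor.cons he (Reor.refl m))
    have step2 := ih (e' ::ₘ k) m'' hm (fun h hh => hB h (Reor.trans hRe hh)) (by
      intro x
      have h1 := reor_deg hRe
      have h2 := DFunLike.congr_fun h1 x
      have h3 := hd x
      simp only [Finsupp.add_apply] at h2
      omega)
    have e1 : (e' ::ₘ k) + m'' = k + e' ::ₘ m'' := by
      rw [Multiset.cons_add, Multiset.add_cons]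
    rw [e1] at step2
    have step1 : Z K B (b + fs (k + e ::ₘ m)) * Z K B (b + sn (k + e ::ₘ m)) -
      Z K B (b + fs (e' ::ₘ k + m)) * Z K B (b + sn (e' ::ₘ k + m)) ∈
        Ideal.span (symExch K B) := by
      rcases he with rfl | rfl
      · have : (e' ::ₘ k) + m = k + e' ::ₘ m := by
          rw [Multiset.cons_add, Multiset.add_cons]
        rw [this]
        simp
      · have hx := hd e.1
        have hy := hd e.2
        simp only [fs_add, sn_add, fs_cons, sn_cons, Finsupp.add_apply, Finsupp.single_apply,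
          if_true] at hx hy
        have hne : e.2 ≠ e.1 := by
          intro hh
          rw [hh] at hx
          simp at hx
          omega
        have hne' : e.1 ≠ e.2 := fun hh => hne hh.symm
        simp only [hne, hne', if_false] at hx hy
        refine exch_mem K B (hB _ (Reor.refl _)) (hsn _ (Reor.refl _)) (hB _ hRe) (hsn _ hRe)
          (ξ := e.1) (ρ := e.2) ?_ ?_ ?_ ?_
        · simp only [fs_add, sn_add, fs_cons, sn_cons, Finsupp.add_apply, Finsupp.single_apply,
            if_true, hne, hne', if_false]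
          omega
        · simp only [fs_add, sn_add, fs_cons, sn_cons, Finsupp.add_apply, Finsupp.single_apply,
            if_true, hne, hne', if_false]
          omega
        · simp only [fs_add, sn_add, fs_cons, sn_cons, Prod.fst_swap, Prod.snd_swap]
          abel
        · simp only [fs_add, sn_add, fs_cons, sn_cons, Prod.fst_swap, Prod.snd_swap]
          abel
    have := Ideal.add_mem _ step1 step2
    convert this using 1
    ring

/-- Total distance. -/
def dist1 (u v : V →₀ ℕ) : ℕ := ∑ x, ((u x : ℤ) - v x).natAbs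

/-- Reaching a balanced pair. -/
lemma reach_balanced (hS : SBO B) (u v : V →₀ ℕ) (hu : u ∈ B) (hv : v ∈ B) :
    ∃ u' ∈ B, ∃ v' ∈ B, u' + v' = u + v ∧ (∀ x, ((u' x : ℤ) - v' x).natAbs ≤ 1) ∧
      Z K B u * Z K B v - Z K B u' * Z K B v' ∈ Ideal.span (symExch K B) := by
  induction hn : dist1 u v using Nat.strong_induction_on generalizing u v with
  | _ n ih =>
    by_cases h : ∀ x, ((u x : ℤ) - v x).natAbs ≤ 1
    · exact ⟨u, hu, v, hv, rfl, h, by simp⟩
    · push Not at h
      obtain ⟨x, hx⟩ := h
      -- the key step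
      have key : ∀ u v : V →₀ ℕ, u ∈ B → v ∈ B → v x + 2 ≤ u x → ∃ u' ∈ B, ∃ v' ∈ B,
          u' + v' = u + v ∧ dist1 u' v' < dist1 u v ∧
          Z K B u * Z K B v - Z K B u' * Z K B v' ∈ Ideal.span (symExch K B) := by
        intro u v hu hv hx
        obtain ⟨b, m, rfl, rfl, hc, hB⟩ := hS u hu v hv
        simp only [Finsupp.add_apply] at hx
        obtain ⟨e, he, rfl⟩ := exists_fst (m := m) (x := x) (by omega)
        obtain ⟨m0, rfl⟩ := Multiset.exists_cons_of_mem he
        have hR : Reor (e ::ₘ m0) (e.swap ::ₘ m0) := Reor.cons (Or.inr rfl) (Reor.refl m0)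
        have hne : e.2 ≠ e.1 := by
          intro hh
          have := hc e.1
          simp only [fs_cons, sn_cons, Finsupp.add_apply, hh, Finsupp.single_apply,
            if_true] at this
          omega
        have hne' : e.1 ≠ e.2 := fun hh => hne hh.symm
        have hc2 := hc e.2
        simp only [fs_cons, sn_cons, Finsupp.add_apply, Finsupp.single_apply,
          if_true, hne', hne, if_false] at hc2 hx
        have hv' : b + sn (e.swap ::ₘ m0) ∈ B := by
          rw [← fs_swap]
          exact hB _ (reor_swap hR)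
        refine ⟨b + fs (e.swap ::ₘ m0), hB _ hR, b + sn (e.swap ::ₘ m0), hv', ?_, ?_, ?_⟩
        · simp only [fs_cons, sn_cons, Prod.fst_swap, Prod.snd_swap]
          abel
        · unfold dist1
          refine Finset.sum_lt_sum (fun z _ => ?_) ⟨e.1, Finset.mem_univ _, ?_⟩
          · simp only [fs_cons, sn_cons, Prod.fst_swap, Prod.snd_swap, Finsupp.add_apply,
              Finsupp.single_apply]
            by_cases hz1 : e.1 = z
            · subst hz1
              simp only [if_true, hne, if_false]
              omega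
            · by_cases hz2 : e.2 = z
              · subst hz2
                simp only [if_true, hne', if_false]
                omega
              · simp [hz1, hz2]
          · simp only [fs_cons, sn_cons, Prod.fst_swap, Prod.snd_swap, Finsupp.add_apply,
              Finsupp.single_apply, if_true, hne, if_false]
            omega
        · refine exch_mem K B hu hv (hB _ hR) hv' (ξ := e.1) (ρ := e.2) ?_ ?_ ?_ ?_
          · simp only [fs_add, sn_add, fs_cons, sn_cons, Finsupp.add_apply, Finsupp.single_apply,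
              if_true, hne, hne', if_false]
            omega
          · simp only [fs_add, sn_add, fs_cons, sn_cons, Finsupp.add_apply, Finsupp.single_apply,
              if_true, hne, hne', if_false]
            omega
          · simp only [fs_add, sn_add, fs_cons, sn_cons, Prod.fst_swap, Prod.snd_swap]
            abel
          · simp only [fs_add, sn_add, fs_cons, sn_cons, Prod.fst_swap, Prod.snd_swap]
            abel
      have key2 : ∃ u' ∈ B, ∃ v' ∈ B,
          u' + v' = u + v ∧ dist1 u' v' < dist1 u v ∧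
          Z K B u * Z K B v - Z K B u' * Z K B v' ∈ Ideal.span (symExch K B) := by
        rcases (by omega : v x + 2 ≤ u x ∨ u x + 2 ≤ v x) with h | h
        · exact key u v hu hv h
        · obtain ⟨v', hv', u', hu', h1, h2, h3⟩ := key v u hv hu h
          refine ⟨u', hu', v', hv', by rw [add_comm, h1, add_comm], ?_, ?_⟩
          · have e1 : dist1 u' v' = dist1 v' u' := by
              unfold dist1; refine Finset.sum_congr rfl fun z _ => ?_; omega
            have e2 : dist1 u v = dist1 v u := by
              unfold dist1; refine Finset.sum_congr rfl fun z _ => ?_; omega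
            rw [e1, e2]; exact h2
          · rw [mul_comm (Z K B u), mul_comm (Z K B u')]; exact h3
      obtain ⟨u1, hu1, v1, hv1, h1, h2, h3⟩ := key2
      obtain ⟨u', hu', v', hv', g1, g2, g3⟩ := ih (dist1 u1 v1) (by rw [← hn]; exact h2) u1 v1
        hu1 hv1 rfl
      refine ⟨u', hu', v', hv', g1.trans h1, g2, ?_⟩
      have := Ideal.add_mem _ h3 g3
      convert this using 1
      ring

/-- Connectivity in degree two. -/
theorem deg_two (hS : SBO B) {u v p q : V →₀ ℕ} (hu : u ∈ B) (hv : v ∈ B) (hp : p ∈ B)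
    (hq : q ∈ B) (h : u + v = p + q) :
    Z K B u * Z K B v - Z K B p * Z K B q ∈ Ideal.span (symExch K B) := by
  obtain ⟨u1, hu1, v1, hv1, h1, h2, h3⟩ := reach_balanced K B hS u v hu hv
  obtain ⟨p1, hp1, q1, hq1, g1, g2, g3⟩ := reach_balanced K B hS p q hp hq
  obtain ⟨b1, m1, rfl, rfl, hc1, hB1⟩ := hS u1 hu1 v1 hv1
  obtain ⟨b2, m2, rfl, rfl, hc2, hB2⟩ := hS p1 hp1 q1 hq1
  obtain ⟨m1', m2', hR1, hR2, i1, i2, i3, i4, i5⟩ := rebalance hB1 hB2
  have hd1 : ∀ x, fs (0 + m1) x + sn (0 + m1) x ≤ 1 := by
    intro x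
    have := h2 x
    have := hc1 x
    simp only [zero_add, Finsupp.add_apply] at *
    omega
  have hd2 : ∀ x, fs (0 + m2) x + sn (0 + m2) x ≤ 1 := by
    intro x
    have := g2 x
    have := hc2 x
    simp only [zero_add, Finsupp.add_apply] at *
    omega
  have f1 := flip_mem K B (b := b1) 0 m1 m1' hR1 (by simpa using hB1) hd1
  have f2 := flip_mem K B (b := b2) 0 m2 m2' hR2 (by simpa using hB2) hd2
  rw [zero_add, zero_add] at f1 f2
  have hs : ∀ x, (b1 + fs m1') x = (b2 + fs m2') x ∧ (b1 + sn m1') x = (b2 + sn m2') x := by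
    intro x
    have e1 := DFunLike.congr_fun (reor_deg hR1) x
    have e2 := DFunLike.congr_fun (reor_deg hR2) x
    have e3 := DFunLike.congr_fun h x
    have e4 := DFunLike.congr_fun h1 x
    have e5 := DFunLike.congr_fun g1 x
    have e6 := i5 x
    simp only [Finsupp.add_apply] at e1 e2 e3 e4 e5 e6 ⊢
    push_cast at e6
    omega
  have hE1 : b1 + fs m1' = b2 + fs m2' := by ext x; exact (hs x).1
  have hE2 : b1 + sn m1' = b2 + sn m2' := by ext x; exact (hs x).2
  rw [hE1, hE2] at f1
  have := Ideal.add_mem _ (Ideal.add_mem _ h3 f1) (Ideal.add_mem _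
    (neg_mem g3) (neg_mem f2))
  convert this using 1
  ring

end Pool.Agent.X203.Toric
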