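import Mathlib
import Pool.Agent.X203.ToricB

set_option linter.unusedSectionVars false
set_option linter.unusedSimpArgs false

open Finset

namespace Pool.Agent.X203.Toric

variable {V : Type} [DecidableEq V] [Fintype V]
variable (K : Type) [Field K] (B : Set (V →₀ ℕ))

/-- Total distance of a multiset of pairs of elements of `B`. -/
def dd (l : Multiset (B × B)) : ℕ := (l.map fun e => dist1 (e.1 : V →₀ ℕ) e.2).sum

lemma msum_apply {ι : Type} (l : Multiset ι) (f : ι → V →₀ ℕ) (x : V) :
    (l.map f).sum x = (l.map fun i => f i x).sum := by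
  induction l using Multiset.induction with
  | empty => simp
  | cons a l ih => simp [ih]

/-- The main induction: monomials with the same image are congruent. -/
theorem mono_congr (hS : SBO B) (l : Multiset (B × B))
    (h : (l.map fun e => (e.1 : V →₀ ℕ)).sum = (l.map fun e => (e.2 : V →₀ ℕ)).sum) :
    (l.map fun e => (MvPolynomial.X e.1 : MvPolynomial B K)).prod -
      (l.map fun e => (MvPolynomial.X e.2 : MvPolynomial B K)).prod ∈
        Ideal.span (symExch K B) := by
  induction hn : dd B l using Nat.strong_induction_on generalizing l with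
  | _ n ih =>
    by_cases hall : ∀ e ∈ l, ∀ x, (e.1 : V →₀ ℕ) x ≤ (e.2 : V →₀ ℕ) x
    · -- all equal
      have heq : ∀ e ∈ l, e.1 = e.2 := by
        intro e he
        obtain ⟨l', rfl⟩ := Multiset.exists_cons_of_mem he
        apply Subtype.ext
        ext x
        have h1 := DFunLike.congr_fun h x
        rw [msum_apply, msum_apply, Multiset.map_cons, Multiset.map_cons, Multiset.sum_cons,
          Multiset.sum_cons] at h1
        have h2 : (l'.map fun i => (i.1 : V →₀ ℕ) x).sum ≤
            (l'.map fun i => (i.2 : V →₀ ℕ) x).sum :=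
          Multiset.sum_map_le_sum_map _ _ fun i hi => hall i (Multiset.mem_cons_of_mem hi) x
        have h3 := hall e he x
        omega
      have : (l.map fun e => (MvPolynomial.X e.1 : MvPolynomial B K)) =
          l.map fun e => (MvPolynomial.X e.2 : MvPolynomial B K) :=
        Multiset.map_congr rfl fun e he => by rw [heq e he]
      rw [this, sub_self]
      exact zero_mem _
    · push Not at hall
      obtain ⟨e, he, x, hx⟩ := hall
      obtain ⟨l1, rfl⟩ := Multiset.exists_cons_of_mem he
      have hf : ∃ f ∈ l1, (f.1 : V →₀ ℕ) x < (f.2 : V →₀ ℕ) x := by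
        by_contra hcon
        push Not at hcon
        have h1 := DFunLike.congr_fun h x
        rw [msum_apply, msum_apply, Multiset.map_cons, Multiset.map_cons, Multiset.sum_cons,
          Multiset.sum_cons] at h1
        have h2 : (l1.map fun i => (i.2 : V →₀ ℕ) x).sum ≤
            (l1.map fun i => (i.1 : V →₀ ℕ) x).sum :=
          Multiset.sum_map_le_sum_map _ _ fun i hi => hcon i hi
        omega
      obtain ⟨f, hf, hfx⟩ := hf
      obtain ⟨l2, rfl⟩ := Multiset.exists_cons_of_mem hf
      obtain ⟨⟨u, hu⟩, ⟨v, hv⟩⟩ := e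
      obtain ⟨⟨u', hu'⟩, ⟨v', hv'⟩⟩ := f
      simp only at hx hfx
      obtain ⟨b1, m1, rfl, rfl, hc1, hB1⟩ := hS u hu u' hu'
      obtain ⟨b2, m2, rfl, rfl, hc2, hB2⟩ := hS v hv v' hv'
      obtain ⟨m1', m2', hR1, hR2, i1, i2, i3, i4, i5⟩ := rebalance hB1 hB2
      have s1 : b1 + fs m1 + (b1 + sn m1) = b1 + fs m1' + (b1 + sn m1') := by
        have := reor_deg hR1
        calc b1 + fs m1 + (b1 + sn m1) = b1 + b1 + (fs m1 + sn m1) := by abel
          _ = _ := by rw [← this]; abel
      have s2 : b2 + fs m2 + (b2 + sn m2) = b2 + fs m2' + (b2 + sn m2') := by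
        have := reor_deg hR2
        calc b2 + fs m2 + (b2 + sn m2) = b2 + b2 + (fs m2 + sn m2) := by abel
          _ = _ := by rw [← this]; abel
      have d1 := deg_two K B hS hu hu' i1 i2 s1
      have d2 := deg_two K B hS hv hv' i3 i4 s2
      rw [Z_of_mem K B hu, Z_of_mem K B hu', Z_of_mem K B i1, Z_of_mem K B i2] at d1
      rw [Z_of_mem K B hv, Z_of_mem K B hv', Z_of_mem K B i3, Z_of_mem K B i4] at d2
      have hlt : dd B ((⟨b1 + fs m1', i1⟩, ⟨b2 + fs m2', i3⟩) ::ₘ
          (⟨b1 + sn m1', i2⟩, ⟨b2 + sn m2', i4⟩) ::ₘ l2) < n := by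
        rw [← hn]
        unfold dd
        simp only [Multiset.map_cons, Multiset.sum_cons]
        rw [← add_assoc, ← add_assoc]
        refine Nat.add_lt_add_right ?_ _
        unfold dist1
        rw [← Finset.sum_add_distrib, ← Finset.sum_add_distrib]
        have hpt : ∀ z, (((b1 + fs m1') z : ℤ) - (b2 + fs m2') z).natAbs +
            (((b1 + sn m1') z : ℤ) - (b2 + sn m2') z).natAbs =
            ((((b1 + fs m1) z : ℤ) - (b2 + fs m2) z) +
            (((b1 + sn m1) z : ℤ) - (b2 + sn m2) z)).natAbs := by
          intro z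
          have e1 := DFunLike.congr_fun (reor_deg hR1) z
          have e2 := DFunLike.congr_fun (reor_deg hR2) z
          have e6 := i5 z
          simp only [Finsupp.add_apply] at e1 e2 e6 ⊢
          push_cast at e6 ⊢
          omega
        refine Finset.sum_lt_sum (fun z _ => ?_) ⟨x, Finset.mem_univ _, ?_⟩
        · rw [hpt z]
          exact Int.natAbs_add_le _ _
        · rw [hpt x]
          simp only [Finsupp.add_apply] at hx hfx ⊢
          push_cast
          omega
      have hsum : (((⟨b1 + fs m1', i1⟩, ⟨b2 + fs m2', i3⟩) ::ₘ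
          (⟨b1 + sn m1', i2⟩, ⟨b2 + sn m2', i4⟩) ::ₘ l2 : Multiset (B × B)).map
            fun e => (e.1 : V →₀ ℕ)).sum =
          (((⟨b1 + fs m1', i1⟩, ⟨b2 + fs m2', i3⟩) ::ₘ
          (⟨b1 + sn m1', i2⟩, ⟨b2 + sn m2', i4⟩) ::ₘ l2 : Multiset (B × B)).map
            fun e => (e.2 : V →₀ ℕ)).sum := by
        simp only [Multiset.map_cons, Multiset.sum_cons] at h ⊢
        rw [← add_assoc (b1 + fs m1') (b1 + sn m1'), ← add_assoc (b2 + fs m2') (b2 + sn m2'),
          ← s1, ← s2]
        rw [← add_assoc (b1 + fs m1) (b1 + sn m1), ← add_assoc (b2 + fs m2) (b2 + sn m2)] at h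
        exact h
      have hih := ih _ hlt _ hsum rfl
      simp only [Multiset.map_cons, Multiset.prod_cons] at hih ⊢
      have t1 := Ideal.mul_mem_left (Ideal.span (symExch K B))
        ((l2.map fun e => (MvPolynomial.X e.1 : MvPolynomial B K)).prod) d1
      have t2 := Ideal.mul_mem_left (Ideal.span (symExch K B))
        ((l2.map fun e => (MvPolynomial.X e.2 : MvPolynomial B K)).prod) d2
      have := Ideal.sub_mem _ (Ideal.add_mem _ t1 hih) t2
      convert this using 1
      ring

/-- Degree of an exponent vector. -/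
def tdeg (w : V →₀ ℕ) : ℕ := ∑ x, w x

lemma tdeg_add (a b : V →₀ ℕ) : tdeg (a + b) = tdeg a + tdeg b := by
  simp [tdeg, Finset.sum_add_distrib]

lemma tdeg_msum {ι : Type} (l : Multiset ι) (f : ι → V →₀ ℕ) :
    tdeg (l.map f).sum = (l.map fun i => tdeg (f i)).sum := by
  induction l using Multiset.induction with
  | empty => simp [tdeg]
  | cons a l ih => simp [tdeg_add, ih]

lemma mono_congr' (hS : SBO B) {r : ℕ} (hr : 0 < r) (hdeg : ∀ w ∈ B, tdeg w = r)
    (s t : Multiset B)
    (h : (s.map fun e : B => (e : V →₀ ℕ)).sum = (t.map fun e : B => (e : V →₀ ℕ)).sum) :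
    (s.map fun e => (MvPolynomial.X e : MvPolynomial B K)).prod -
      (t.map fun e => (MvPolynomial.X e : MvPolynomial B K)).prod ∈
        Ideal.span (symExch K B) := by
  have hcard : s.card = t.card := by
    have h1 := congrArg tdeg h
    rw [tdeg_msum, tdeg_msum] at h1
    have h2 : ∀ s : Multiset B, (s.map fun i : B => tdeg (i : V →₀ ℕ)).sum = s.card * r := by
      intro s
      induction s using Multiset.induction with
      | empty => simp
      | cons a l ih => simp [ih, hdeg a a.2, add_mul, add_comm]
    rw [h2, h2] at h1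
    exact Nat.eq_of_mul_eq_mul_right hr h1
  -- pair up
  obtain ⟨l, hl1, hl2⟩ : ∃ l : Multiset (B × B), l.map Prod.fst = s ∧ l.map Prod.snd = t := by
    clear h
    induction s using Multiset.induction generalizing t with
    | empty =>
      have : t = 0 := by
        rw [← Multiset.card_eq_zero, ← hcard]; simp
      exact ⟨0, by simp, by simp [this]⟩
    | cons a s ih =>
      have : t ≠ 0 := by
        rintro rfl; simp at hcard
      obtain ⟨b, hb⟩ := Multiset.exists_mem_of_ne_zero this
      obtain ⟨t', rfl⟩ := Multiset.exists_cons_of_mem hb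
      obtain ⟨l, h1, h2⟩ := ih t' (by simpa using hcard)
      exact ⟨(a, b) ::ₘ l, by simp [h1], by simp [h2]⟩
  subst hl1 hl2
  have := mono_congr K B hS l (by simpa [Multiset.map_map] using h)
  simpa [Multiset.map_map] using this

lemma prod_X_eq (s : Multiset B) :
    (s.map fun e => (MvPolynomial.X e : MvPolynomial B K)).prod =
      MvPolynomial.monomial (Multiset.toFinsupp s) 1 := by
  classical
  induction s using Multiset.induction with
  | empty => simp
  | cons a s ih =>
    rw [Multiset.map_cons, Multiset.prod_cons, ih, ← Multiset.singleton_add, map_add,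
      Multiset.toFinsupp_singleton, MvPolynomial.X, MvPolynomial.monomial_mul, one_mul]

lemma toricMap_prod (s : Multiset B) :
    toricMap K B ((s.map fun e => (MvPolynomial.X e : MvPolynomial B K)).prod) =
      MvPolynomial.monomial ((s.map fun e : B => (e : V →₀ ℕ)).sum) 1 := by
  induction s using Multiset.induction with
  | empty => simp
  | cons a s ih =>
    rw [Multiset.map_cons, Multiset.prod_cons, map_mul, ih, Multiset.map_cons,
      Multiset.sum_cons, toricMap, MvPolynomial.aeval_X, MvPolynomial.monomial_mul, one_mul]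

/-- The toric ideal of a strongly base orderable set of vectors of constant positive degree is
generated by the symmetric exchange binomials. -/
theorem toric_eq (hS : SBO B) {r : ℕ} (hr : 0 < r) (hdeg : ∀ w ∈ B, tdeg w = r) :
    toricIdeal K B = Ideal.span (symExch K B) := by
  classical
  apply le_antisymm
  · intro f hf
    have hf0 : toricMap K B f = 0 := hf
    let rep : (V →₀ ℕ) → MvPolynomial B K := fun e =>
      if h : ∃ s : Multiset B, (s.map fun e : B => (e : V →₀ ℕ)).sum = e then
        ((Classical.choose h).map fun e => (MvPolynomial.X e : MvPolynomial B K)).prod else 0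
    let ψ : MvPolynomial V K →ₗ[K] (MvPolynomial B K ⧸ Ideal.span (symExch K B)) :=
      (MvPolynomial.basisMonomials V K).constr K
        fun e => Ideal.Quotient.mk (Ideal.span (symExch K B)) (rep e)
    have hψ : ∀ e, ψ (MvPolynomial.monomial e 1) =
        Ideal.Quotient.mk (Ideal.span (symExch K B)) (rep e) := by
      intro e
      have := (MvPolynomial.basisMonomials V K).constr_basis K
        (fun e => Ideal.Quotient.mk (Ideal.span (symExch K B)) (rep e)) e
      simpa using this
    have hL : ψ ∘ₗ (toricMap K B).toLinearMap =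
        (Ideal.Quotient.mkₐ K (Ideal.span (symExch K B))).toLinearMap := by
      apply (MvPolynomial.basisMonomials B K).ext
      intro α
      have hα : MvPolynomial.basisMonomials B K α =
          ((Finsupp.toMultiset α).map fun e => (MvPolynomial.X e : MvPolynomial B K)).prod := by
        rw [prod_X_eq]
        simp
      rw [hα]
      simp only [LinearMap.comp_apply, AlgHom.toLinearMap_apply]
      rw [toricMap_prod, hψ]
      have hex : ∃ s : Multiset B, (s.map fun e : B => (e : V →₀ ℕ)).sum =
        ((Finsupp.toMultiset α).map fun e : B => (e : V →₀ ℕ)).sum := ⟨_, rfl⟩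
      have hrep : rep ((Finsupp.toMultiset α).map fun e : B => (e : V →₀ ℕ)).sum =
        ((Classical.choose hex).map fun e => (MvPolynomial.X e : MvPolynomial B K)).prod := by
        simp only [rep]
        rw [dif_pos hex]
      rw [hrep]
      change Ideal.Quotient.mk _ _ = Ideal.Quotient.mk _ _
      rw [Ideal.Quotient.eq]
      exact mono_congr' K B hS hr hdeg _ _ (Classical.choose_spec hex)
    have h1 := congrArg (fun L => L f) hL
    simp only [LinearMap.comp_apply, AlgHom.toLinearMap_apply] at h1
    rw [hf0, map_zero] at h1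
    have h2 : Ideal.Quotient.mk (Ideal.span (symExch K B)) f = 0 := h1.symm
    rwa [Ideal.Quotient.eq_zero_iff_mem] at h2
  · rw [Ideal.span_le]
    rintro f ⟨u, v, u', v', ξ, ρ, _, _, h3, h4, rfl⟩
    have hs : (u : V →₀ ℕ) + (v : V →₀ ℕ) = (u' : V →₀ ℕ) + (v' : V →₀ ℕ) := by
      obtain ⟨u, hu⟩ := u
      obtain ⟨v, hv⟩ := v
      obtain ⟨u', hu'⟩ := u'
      obtain ⟨v', hv'⟩ := v'
      simp only at h3 h4 ⊢
      have : (u' + v') + (Finsupp.single ξ 1 + Finsupp.single ρ 1) =
          (u + v) + (Finsupp.single ξ 1 + Finsupp.single ρ 1) := by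
        calc (u' + v') + (Finsupp.single ξ 1 + Finsupp.single ρ 1)
            = (u' + Finsupp.single ξ 1) + (v' + Finsupp.single ρ 1) := by abel
          _ = _ := by rw [h3, h4]; abel
      exact (add_right_cancel this).symm
    change toricMap K B _ = 0
    simp only [toricMap, map_sub, map_mul, MvPolynomial.aeval_X, MvPolynomial.monomial_mul,
      one_mul]
    rw [hs, sub_self]

end Pool.Agent.X203.Toric
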