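import Mathlib
import Pool.Agent.X203.ToricA

set_option linter.unusedSectionVars false
set_option linter.unusedSimpArgs false

open Finset

namespace Pool.Agent.X203.Toric

variable {V : Type} [DecidableEq V]

/-- The degree vector of a multiset of edges. -/
noncomputable def dg (m : Multiset (V × V)) : V →₀ ℕ := fs m + sn m

@[simp] lemma dg_zero : dg (0 : Multiset (V × V)) = 0 := by simp [dg]
@[simp] lemma dg_add (m m' : Multiset (V × V)) : dg (m + m') = dg m + dg m' := by
  simp only [dg, fs_add, sn_add]; abel
lemma dg_cons (e : V × V) (m : Multiset (V × V)) :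
    dg (e ::ₘ m) = Finsupp.single e.1 1 + Finsupp.single e.2 1 + dg m := by
  simp only [dg, fs_cons, sn_cons]; abel

/-- All pairs are edges. -/
def Eds (G : SimpleGraph V) (m : Multiset (V × V)) : Prop := ∀ e ∈ m, G.Adj e.1 e.2

lemma Eds.add {G : SimpleGraph V} {m m' : Multiset (V × V)} (h : Eds G m) (h' : Eds G m') :
    Eds G (m + m') := by
  intro e he
  rw [Multiset.mem_add] at he
  rcases he with he | he
  · exact h e he
  · exact h' e he

/-- Degree vectors bounded by `c` of multisets of `q` edges. -/
def matchVecs (G : SimpleGraph V) (c : V → ℕ) (q : ℕ) : Set (V →₀ ℕ) :=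
  {w | (∃ M : Multiset (V × V), M.card = q ∧ Eds G M ∧ dg M = w) ∧ ∀ x, w x ≤ c x}

/-- Signed end. -/
def endv (a : V) (s : Bool) (x : V) : ℤ := if a = x then (if s then 1 else -1) else 0

/-- An alternating piece with signed ends. -/
def Val (G : SimpleGraph V) (p : Multiset (V × V) × Multiset (V × V)) (a : V) (sa : Bool)
    (b : V) (sb : Bool) : Prop :=
  Eds G p.1 ∧ Eds G p.2 ∧
  (∀ x, (dg p.1 x : ℤ) - dg p.2 x = endv a sa x + endv b sb x) ∧
  2 * (p.1.card : ℤ) - 2 * p.2.card = (if sa then 1 else -1) + (if sb then 1 else -1)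

lemma Val.symm {G : SimpleGraph V} {p : Multiset (V × V) × Multiset (V × V)} {a b : V}
    {sa sb : Bool} (h : Val G p a sa b sb) : Val G p b sb a sa := by
  obtain ⟨h1, h2, h3, h4⟩ := h
  exact ⟨h1, h2, fun x => by rw [h3 x]; ring, by rw [h4]; ring⟩

lemma Val.swap {G : SimpleGraph V} {p : Multiset (V × V) × Multiset (V × V)} {a b : V}
    {sa sb : Bool} (h : Val G p a sa b sb) : Val G p.swap a (!sa) b (!sb) := by
  obtain ⟨h1, h2, h3, h4⟩ := h
  refine ⟨h2, h1, fun x => ?_, ?_⟩
  · have := h3 x
    simp only [Prod.fst_swap, Prod.snd_swap]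
    have e1 : endv a (!sa) x = - endv a sa x := by
      unfold endv; cases sa <;> split_ifs <;> simp_all
    have e2 : endv b (!sb) x = - endv b sb x := by
      unfold endv; cases sb <;> split_ifs <;> simp_all
    rw [e1, e2]; linarith
  · simp only [Prod.fst_swap, Prod.snd_swap]
    cases sa <;> cases sb <;> simp at h4 ⊢ <;> linarith

lemma Val.merge {G : SimpleGraph V} {p p' : Multiset (V × V) × Multiset (V × V)} {a b b' : V}
    {sa sa' sb sb' : Bool} (h : Val G p a sa b sb) (h' : Val G p' a sa' b' sb') (hs : sa ≠ sa') :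
    Val G (p + p') b sb b' sb' := by
  obtain ⟨h1, h2, h3, h4⟩ := h
  obtain ⟨g1, g2, g3, g4⟩ := h'
  refine ⟨h1.add g1, h2.add g2, fun x => ?_, ?_⟩
  · have e1 := h3 x
    have e2 := g3 x
    have e3 : endv a sa x + endv a sa' x = 0 := by
      unfold endv; by_cases hax : a = x <;> cases sa <;> cases sa' <;> simp_all
    simp only [Prod.fst_add, Prod.snd_add, dg_add, Finsupp.add_apply]
    push_cast
    linarith
  · simp only [Prod.fst_add, Prod.snd_add, Multiset.card_add]
    push_cast
    cases sa <;> cases sa' <;> simp at hs h4 g4 ⊢ <;> linarith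

lemma val_eq {p : Multiset (V × V) × Multiset (V × V)} {a b : V}
    (h : ∀ x, (dg p.1 x : ℤ) - dg p.2 x = endv a true x + endv b false x) :
    dg p.2 + Finsupp.single a 1 = dg p.1 + Finsupp.single b 1 := by
  ext x
  have h1 := h x
  simp only [endv, if_true, Bool.false_eq_true, if_false] at h1
  simp only [Finsupp.add_apply, Finsupp.single_apply]
  by_cases ha : a = x <;> by_cases hb : b = x <;>
    simp only [ha, hb, if_true, if_false] at h1 ⊢ <;> omega

/-- No two distinct pieces have opposite ends at the same vertex. -/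
def NoOpp (G : SimpleGraph V) (L : Multiset (Multiset (V × V) × Multiset (V × V))) : Prop :=
  ∀ p p' L', L = p ::ₘ p' ::ₘ L' → ∀ a sa b sb sa' b' sb', Val G p a sa b sb →
    Val G p' a sa' b' sb' → sa = sa'

lemma NoOpp.swap {G : SimpleGraph V} {L : Multiset (Multiset (V × V) × Multiset (V × V))}
    (h : NoOpp G L) : NoOpp G (L.map Prod.swap) := by
  intro p p' L' hL a sa b sb sa' b' sb' hv hv'
  have : L = p.swap ::ₘ p'.swap ::ₘ L'.map Prod.swap := by
    have := congrArg (Multiset.map Prod.swap) hL
    simpa [Multiset.map_map] using this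
  have := h _ _ _ this a (!sa) b (!sb) (!sa') b' (!sb') hv.swap hv'.swap
  simpa using this

/-- A good decomposition exists. -/
lemma exists_decomp (G : SimpleGraph V) (P Q : Multiset (V × V)) (hP : Eds G P) (hQ : Eds G Q) :
    ∃ L : Multiset (Multiset (V × V) × Multiset (V × V)),
      (∀ p ∈ L, ∃ a sa b sb, Val G p a sa b sb) ∧ L.sum = (P, Q) ∧ NoOpp G L := by
  classical
  have hne : ∃ k, ∃ L : Multiset (Multiset (V × V) × Multiset (V × V)), L.card = k ∧
      (∀ p ∈ L, ∃ a sa b sb, Val G p a sa b sb) ∧ L.sum = (P, Q) := by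
    refine ⟨_, P.map (fun e => (({e} : Multiset (V × V)), (0 : Multiset (V × V)))) +
      Q.map (fun e => ((0 : Multiset (V × V)), ({e} : Multiset (V × V)))), rfl, ?_, ?_⟩
    · intro p hp
      rw [Multiset.mem_add, Multiset.mem_map, Multiset.mem_map] at hp
      rcases hp with ⟨e, he, rfl⟩ | ⟨e, he, rfl⟩
      · refine ⟨e.1, true, e.2, true, ?_, ?_, fun x => ?_, by simp⟩
        · intro f hf
          rw [Multiset.mem_singleton] at hf
          subst hf; exact hP _ he
        · intro f hf; simp at hf
        · have : dg ({e} : Multiset (V × V)) =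
              Finsupp.single e.1 1 + Finsupp.single e.2 1 + dg 0 := dg_cons e 0
          simp only [this, dg_zero, Finsupp.add_apply, Finsupp.single_apply, endv]
          by_cases h1 : e.1 = x <;> by_cases h2 : e.2 = x <;> simp [h1, h2]
      · refine ⟨e.1, false, e.2, false, ?_, ?_, fun x => ?_, by simp⟩
        · intro f hf; simp at hf
        · intro f hf
          rw [Multiset.mem_singleton] at hf
          subst hf; exact hQ _ he
        · have : dg ({e} : Multiset (V × V)) =
              Finsupp.single e.1 1 + Finsupp.single e.2 1 + dg 0 := dg_cons e 0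
          simp only [this, dg_zero, Finsupp.add_apply, Finsupp.single_apply, endv]
          by_cases h1 : e.1 = x <;> by_cases h2 : e.2 = x <;> simp [h1, h2]
    · rw [Multiset.sum_add]
      have h1 : ∀ P : Multiset (V × V),
          (P.map (fun e => (({e} : Multiset (V × V)), (0 : Multiset (V × V))))).sum = (P, 0) := by
        intro P
        induction P using Multiset.induction with
        | empty => rfl
        | cons e P ih => simp [ih]
      have h2 : ∀ P : Multiset (V × V),
          (P.map (fun e => ((0 : Multiset (V × V)), ({e} : Multiset (V × V))))).sum = (0, P) := by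
        intro P
        induction P using Multiset.induction with
        | empty => rfl
        | cons e P ih => simp [ih]
      rw [h1, h2]
      simp
  obtain ⟨L, hL, hv, hs⟩ := Nat.find_spec hne
  refine ⟨L, hv, hs, ?_⟩
  intro p p' L' hL' a sa b sb sa' b' sb' hvp hvp'
  by_contra hne'
  have hm := hvp.merge hvp' hne'
  have : ∃ L : Multiset (Multiset (V × V) × Multiset (V × V)), L.card = L'.card + 1 ∧
      (∀ p ∈ L, ∃ a sa b sb, Val G p a sa b sb) ∧ L.sum = (P, Q) := by
    refine ⟨(p + p') ::ₘ L', by simp, ?_, ?_⟩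
    · intro q hq
      rw [Multiset.mem_cons] at hq
      rcases hq with rfl | hq
      · exact ⟨_, _, _, _, hm⟩
      · exact hv q (by rw [hL']; exact Multiset.mem_cons_of_mem (Multiset.mem_cons_of_mem hq))
    · rw [← hs, hL']
      simp only [Multiset.sum_cons]
      abel
  have h1 := Nat.find_min' hne this
  rw [← hL, hL'] at h1
  simp at h1

lemma sum_nonneg_of (L' : Multiset (Multiset (V × V) × Multiset (V × V)))
    (x : V) (h : ∀ p ∈ L', (0 : ℤ) ≤ (dg p.1 x : ℤ) - dg p.2 x) :
    dg L'.sum.2 x ≤ dg L'.sum.1 x := by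
  induction L' using Multiset.induction with
  | empty => simp
  | cons p L' ih =>
    have h1 := h p (Multiset.mem_cons_self _ _)
    have h2 := ih fun q hq => h q (Multiset.mem_cons_of_mem hq)
    simp only [Multiset.sum_cons, Prod.fst_add, Prod.snd_add, dg_add, Finsupp.add_apply]
    omega

/-- By maximality no piece has two positive ends. -/
lemma no_double {G : SimpleGraph V} {c : V → ℕ} {δ : ℕ}
    (hmax : matchVecs G c (δ + 1) = ∅)
    {L : Multiset (Multiset (V × V) × Multiset (V × V))}
    (hv : ∀ p ∈ L, ∃ a sa b sb, Val G p a sa b sb) (hno : NoOpp G L)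
    (hcard : L.sum.2.card = δ) (hP : ∀ x, dg L.sum.1 x ≤ c x) (hQ : ∀ x, dg L.sum.2 x ≤ c x)
    {p : Multiset (V × V) × Multiset (V × V)} (hp : p ∈ L) {a b : V}
    (hval : Val G p a true b true) : False := by
  obtain ⟨L', rfl⟩ := Multiset.exists_cons_of_mem hp
  obtain ⟨h1, h2, h3, h4⟩ := id hval
  -- nonnegativity at the ends of p
  have hnn : ∀ x, (x = a ∨ x = b) → dg L'.sum.2 x ≤ dg L'.sum.1 x := by
    intro x hx
    apply sum_nonneg_of
    intro q hq
    obtain ⟨a', sa', b', sb', hq'⟩ := hv q (Multiset.mem_cons_of_mem hq)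
    obtain ⟨L'', rfl⟩ := Multiset.exists_cons_of_mem hq
    rw [hq'.2.2.1 x]
    have hsgn : ∀ (a' : V) (sa' : Bool) (b' : V) (sb' : Bool), Val G q a' sa' b' sb' →
        (0 : ℤ) ≤ endv a' sa' x := by
      intro a' sa' b' sb' hq'
      unfold endv
      by_cases hax : a' = x
      · subst hax
        rcases hx with rfl | rfl
        · have := hno _ _ _ rfl _ _ _ _ _ _ _ hval hq'
          simp [← this]
        · have := hno _ _ _ rfl _ _ _ _ _ _ _ hval.symm hq'
          simp [← this]
      · simp [hax]
    have e1 := hsgn _ _ _ _ hq'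
    have e2 := hsgn _ _ _ _ hq'.symm
    omega
  have hEL : ∀ L' : Multiset (Multiset (V × V) × Multiset (V × V)),
      (∀ p ∈ L', ∃ a sa b sb, Val G p a sa b sb) → Eds G L'.sum.2 := by
    intro L'
    induction L' using Multiset.induction with
    | empty => intro _ e he; simp at he
    | cons q L' ih =>
      intro h
      simp only [Multiset.sum_cons, Prod.snd_add]
      obtain ⟨_, _, _, _, hq⟩ := h q (Multiset.mem_cons_self _ _)
      exact hq.2.1.add (ih fun r hr => h r (Multiset.mem_cons_of_mem hr))
  have hmem : dg (p.1 + L'.sum.2) ∈ matchVecs G c (δ + 1) := by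
    refine ⟨⟨p.1 + L'.sum.2, ?_, h1.add (hEL L' fun q hq => hv q (Multiset.mem_cons_of_mem hq)),
      rfl⟩, fun x => ?_⟩
    · simp only [Multiset.sum_cons, Prod.snd_add, Multiset.card_add] at hcard
      simp only [Multiset.card_add]
      simp at h4
      omega
    · have hPx := hP x
      have hQx := hQ x
      have h3x := h3 x
      simp only [Multiset.sum_cons, Prod.fst_add, Prod.snd_add, dg_add,
        Finsupp.add_apply] at hPx hQx ⊢
      by_cases hx : x = a ∨ x = b
      · have := hnn x hx
        omega
      · push Not at hx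
        have e1 : endv a true x = 0 := by simp [endv, hx.1.symm]
        have e2 : endv b true x = 0 := by simp [endv, hx.2.symm]
        rw [e1, e2] at h3x
        omega
  rw [hmax] at hmem
  exact hmem

lemma exists_lift {α β : Type} (L : Multiset α) (R : α → β → Prop) (h : ∀ p ∈ L, ∃ t, R p t) :
    ∃ L2 : Multiset (α × β), L2.map Prod.fst = L ∧ ∀ q ∈ L2, R q.1 q.2 := by
  induction L using Multiset.induction with
  | empty => exact ⟨0, by simp, by simp⟩
  | cons p L ih =>
    obtain ⟨L2, h1, h2⟩ := ih fun q hq => h q (Multiset.mem_cons_of_mem hq)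
    obtain ⟨t, ht⟩ := h p (Multiset.mem_cons_self _ _)
    refine ⟨(p, t) ::ₘ L2, by simp [h1], ?_⟩
    intro q hq
    rw [Multiset.mem_cons] at hq
    rcases hq with rfl | hq
    · exact ht
    · exact h2 q hq

lemma rebuild {G : SimpleGraph V}
    (N : Multiset ((Multiset (V × V) × Multiset (V × V)) × (V × V)))
    (hN : ∀ q ∈ N, Val G q.1 q.2.1 true q.2.2 false) (m' : Multiset (V × V))
    (hR : Reor (N.map Prod.snd) m') :
    ∃ M' : Multiset (V × V), M'.card = (N.map Prod.fst).sum.1.card ∧ Eds G M' ∧
      dg M' + fs (N.map Prod.snd) = dg (N.map Prod.fst).sum.1 + fs m' := by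
  induction N using Multiset.induction generalizing m' with
  | empty =>
    have : m' = 0 := by
      unfold Reor at hR
      simpa [Multiset.rel_zero_left] using hR
    subst this
    exact ⟨0, by simp, by intro e he; simp at he, by simp⟩
  | cons q N ih =>
    rw [Multiset.map_cons] at hR
    obtain ⟨e', m0, he, hm, rfl⟩ := reor_cons_left hR
    obtain ⟨M0, h1, h2, h3⟩ := ih (fun r hr => hN r (Multiset.mem_cons_of_mem hr)) m0 hm
    obtain ⟨g1, g2, g3, g4⟩ := hN q (Multiset.mem_cons_self _ _)
    have hcq : q.1.1.card = q.1.2.card := by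
      simp at g4; omega
    rcases he with rfl | rfl
    · refine ⟨q.1.1 + M0, by simp [h1], g1.add h2, ?_⟩
      simp only [Multiset.map_cons, fs_cons, Multiset.sum_cons, Prod.fst_add, dg_add]
      calc dg q.1.1 + dg M0 + (Finsupp.single q.2.1 1 + fs (N.map Prod.snd))
          = dg q.1.1 + Finsupp.single q.2.1 1 + (dg M0 + fs (N.map Prod.snd)) := by abel
        _ = _ := by rw [h3]; abel
    · refine ⟨q.1.2 + M0, by simp [h1, hcq], g2.add h2, ?_⟩
      have hq : dg q.1.2 + Finsupp.single q.2.1 1 = dg q.1.1 + Finsupp.single q.2.2 1 :=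
        val_eq g3
      simp only [Multiset.map_cons, fs_cons, Multiset.sum_cons, Prod.fst_add, dg_add,
        Prod.fst_swap]
      calc dg q.1.2 + dg M0 + (Finsupp.single q.2.1 1 + fs (N.map Prod.snd))
          = dg q.1.2 + Finsupp.single q.2.1 1 + (dg M0 + fs (N.map Prod.snd)) := by abel
        _ = _ := by rw [h3, hq]; abel

/-- The vectors of maximum bounded edge multisets are strongly base orderable. -/
theorem matching_SBO (G : SimpleGraph V) (c : V → ℕ) (δ : ℕ)
    (hmax : matchVecs G c (δ + 1) = ∅) : SBO (matchVecs G c δ) := by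
  classical
  rintro u ⟨⟨P, hPc, hPE, rfl⟩, hPb⟩ v ⟨⟨Q, hQc, hQE, rfl⟩, hQb⟩
  obtain ⟨L, hv, hs, hno⟩ := exists_decomp G P Q hPE hQE
  have hs1 : L.sum.1 = P := by rw [hs]
  have hs2 : L.sum.2 = Q := by rw [hs]
  -- each piece has ends of opposite signs
  have hsgn : ∀ p ∈ L, ∃ t : V × V, Val G p t.1 true t.2 false := by
    intro p hp
    obtain ⟨a, sa, b, sb, hval⟩ := hv p hp
    cases sa <;> cases sb
    · exfalso
      refine no_double (L := L.map Prod.swap) (δ := δ) hmax ?_ hno.swap ?_ ?_ ?_
        (p := p.swap) (Multiset.mem_map_of_mem _ hp) (a := a) (b := b) ?_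
      · intro q hq
        rw [Multiset.mem_map] at hq
        obtain ⟨r, hr, rfl⟩ := hq
        obtain ⟨a, sa, b, sb, hval⟩ := hv r hr
        exact ⟨_, _, _, _, hval.swap⟩
      · have : (L.map Prod.swap).sum = L.sum.swap := by
          clear hv hs hno hs1 hs2 hp
          induction L using Multiset.induction with
          | empty => simp
          | cons a L ih => simp [ih]
        rw [this, Prod.snd_swap, hs1, hPc]
      · have : (L.map Prod.swap).sum = L.sum.swap := by
          clear hv hs hno hs1 hs2 hp
          induction L using Multiset.induction with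
          | empty => simp
          | cons a L ih => simp [ih]
        rw [this, Prod.fst_swap, hs2]
        exact hQb
      · have : (L.map Prod.swap).sum = L.sum.swap := by
          clear hv hs hno hs1 hs2 hp
          induction L using Multiset.induction with
          | empty => simp
          | cons a L ih => simp [ih]
        rw [this, Prod.snd_swap, hs1]
        exact hPb
      · simpa using hval.swap
    · exact ⟨(b, a), hval.symm⟩
    · exact ⟨(a, b), hval⟩
    · exact (no_double hmax hv hno (by rw [hs2, hQc]) (by rw [hs1]; exact hPb)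
        (by rw [hs2]; exact hQb) hp hval).elim
  obtain ⟨L2, hL2, hR⟩ := exists_lift L
    (fun (p : Multiset (V × V) × Multiset (V × V)) (t : V × V) => Val G p t.1 true t.2 false) hsgn
  set N := L2.filter (fun q => q.2.1 ≠ q.2.2) with hN
  set C := L2.filter (fun q => ¬ q.2.1 ≠ q.2.2) with hC
  have hNC : N + C = L2 := Multiset.filter_add_not _ _
  have hNR : ∀ q ∈ N, Val G q.1 q.2.1 true q.2.2 false := fun q hq =>
    hR q (Multiset.mem_of_mem_filter hq)
  have hCR : ∀ q ∈ C, Val G q.1 q.2.1 true q.2.2 false ∧ q.2.1 = q.2.2 := fun q hq =>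
    ⟨hR q (Multiset.mem_of_mem_filter hq), by simpa using Multiset.of_mem_filter hq⟩
  have hsum1 : P = (N.map Prod.fst).sum.1 + (C.map Prod.fst).sum.1 := by
    rw [← Prod.fst_add, ← Multiset.sum_add, ← Multiset.map_add, hNC, hL2, hs1]
  have hsum2 : Q = (N.map Prod.fst).sum.2 + (C.map Prod.fst).sum.2 := by
    rw [← Prod.snd_add, ← Multiset.sum_add, ← Multiset.map_add, hNC, hL2, hs2]
  have hbal : ∀ N : Multiset ((Multiset (V × V) × Multiset (V × V)) × (V × V)),
      (∀ q ∈ N, Val G q.1 q.2.1 true q.2.2 false) →
      dg (N.map Prod.fst).sum.1 + sn (N.map Prod.snd) =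
        dg (N.map Prod.fst).sum.2 + fs (N.map Prod.snd) := by
    intro N hN
    induction N using Multiset.induction with
    | empty => simp
    | cons q N ih =>
      have h1 := ih fun r hr => hN r (Multiset.mem_cons_of_mem hr)
      obtain ⟨g1, g2, g3, g4⟩ := hN q (Multiset.mem_cons_self _ _)
      have hq : dg q.1.2 + Finsupp.single q.2.1 1 = dg q.1.1 + Finsupp.single q.2.2 1 :=
        val_eq g3
      simp only [Multiset.map_cons, fs_cons, sn_cons, Multiset.sum_cons, Prod.fst_add,
        Prod.snd_add, dg_add]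
      calc dg q.1.1 + dg (N.map Prod.fst).sum.1 + (Finsupp.single q.2.2 1 + sn (N.map Prod.snd))
          = dg q.1.1 + Finsupp.single q.2.2 1 +
            (dg (N.map Prod.fst).sum.1 + sn (N.map Prod.snd)) := by abel
        _ = dg q.1.2 + Finsupp.single q.2.1 1 +
            (dg (N.map Prod.fst).sum.2 + fs (N.map Prod.snd)) := by rw [h1, hq]
        _ = _ := by abel
  have hCeq : sn (C.map Prod.snd) = fs (C.map Prod.snd) := by
    have : ∀ C : Multiset ((Multiset (V × V) × Multiset (V × V)) × (V × V)),
        (∀ q ∈ C, q.2.1 = q.2.2) → sn (C.map Prod.snd) = fs (C.map Prod.snd) := by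
      intro C hC
      induction C using Multiset.induction with
      | empty => simp
      | cons q C ih =>
        rw [Multiset.map_cons, sn_cons, fs_cons, ih fun r hr => hC r
          (Multiset.mem_cons_of_mem hr), hC q (Multiset.mem_cons_self _ _)]
    exact this C fun q hq => (hCR q hq).2
  set m := N.map Prod.snd with hm
  have hb1 := hbal N hNR
  have hb2 := hbal C fun q hq => (hCR q hq).1
  rw [hCeq] at hb2
  have hb2' : dg (C.map Prod.fst).sum.1 = dg (C.map Prod.fst).sum.2 := add_right_cancel hb2
  have htot : dg P + sn m = dg Q + fs m := by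
    rw [hsum1, hsum2, dg_add, dg_add, hb2']
    calc dg (N.map Prod.fst).sum.1 + dg (C.map Prod.fst).sum.2 + sn m
        = dg (N.map Prod.fst).sum.1 + sn m + dg (C.map Prod.fst).sum.2 := by abel
      _ = _ := by rw [hb1]; abel
  have hdis : ∀ x, fs m x = 0 ∨ sn m x = 0 := by
    intro x
    by_contra hcon
    push Not at hcon
    obtain ⟨e, he, hex⟩ := exists_fst (m := m) (x := x) (by omega)
    obtain ⟨f, hf, hfx⟩ := exists_fst (m := m.map Prod.swap) (x := x) (by
      rw [fs_swap]; omega)
    rw [Multiset.mem_map] at hf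
    obtain ⟨f, hf, rfl⟩ := hf
    rw [hm, Multiset.mem_map] at he hf
    obtain ⟨q, hq, rfl⟩ := he
    obtain ⟨r, hr, rfl⟩ := hf
    simp only [Prod.fst_swap] at hfx
    have hq1 : q.2.1 ≠ q.2.2 := by
      have hq' := hq
      rw [hN, Multiset.mem_filter] at hq'
      exact hq'.2
    have hqr : r ≠ q := by
      rintro rfl
      exact hq1 (hex.trans hfx.symm)
    have hqL : q ∈ L2 := Multiset.mem_of_mem_filter hq
    have hrL : r ∈ L2 := Multiset.mem_of_mem_filter hr
    obtain ⟨L3, hL3⟩ := Multiset.exists_cons_of_mem hqL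
    rw [hL3, Multiset.mem_cons] at hrL
    rcases hrL with h | hrL
    · exact hqr h
    · obtain ⟨L4, rfl⟩ := Multiset.exists_cons_of_mem hrL
      have hLL : L = q.1 ::ₘ r.1 ::ₘ L4.map Prod.fst := by
        rw [← hL2, hL3]; simp
      have v1 := hNR q hq
      have v2 := (hNR r hr).symm
      rw [hex] at v1
      rw [hfx] at v2
      have := hno _ _ _ hLL _ _ _ _ _ _ _ v1 v2
      simp at this
  refine ⟨dg P - fs m, m, ?_, ?_, hdis, ?_⟩
  · ext x
    have h1 := DFunLike.congr_fun htot x
    have h2 := hdis x
    simp only [Finsupp.add_apply, Finsupp.tsub_apply] at h1 ⊢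
    omega
  · ext x
    have h1 := DFunLike.congr_fun htot x
    have h2 := hdis x
    simp only [Finsupp.add_apply, Finsupp.tsub_apply] at h1 ⊢
    omega
  · intro m' hm'
    obtain ⟨M', k1, k2, k3⟩ := rebuild N hNR m' hm'
    have hEC : Eds G (C.map Prod.fst).sum.1 := by
      have : ∀ C : Multiset ((Multiset (V × V) × Multiset (V × V)) × (V × V)),
          (∀ q ∈ C, Eds G q.1.1) → Eds G (C.map Prod.fst).sum.1 := by
        intro C hC
        induction C using Multiset.induction with
        | empty => intro e he; simp at he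
        | cons q C ih =>
          simp only [Multiset.map_cons, Multiset.sum_cons, Prod.fst_add]
          exact (hC q (Multiset.mem_cons_self _ _)).add
            (ih fun r hr => hC r (Multiset.mem_cons_of_mem hr))
      exact this C fun q hq => (hCR q hq).1.1
    have hfsle : ∀ x, fs m x ≤ dg P x := by
      intro x
      have h1 := DFunLike.congr_fun htot x
      have h2 := hdis x
      simp only [Finsupp.add_apply] at h1
      omega
    refine ⟨⟨M' + (C.map Prod.fst).sum.1, ?_, k2.add hEC, ?_⟩, fun x => ?_⟩
    · rw [Multiset.card_add, k1, ← Multiset.card_add, ← hsum1, hPc]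
    · ext x
      have e1 := DFunLike.congr_fun k3 x
      have e2 := DFunLike.congr_fun (congrArg dg hsum1) x
      have e3 := hfsle x
      simp only [dg_add, Finsupp.add_apply, Finsupp.tsub_apply] at e1 e2 ⊢
      rw [← hm] at e1
      omega
    · have e1 := DFunLike.congr_fun (reor_deg hm') x
      have e3 := hfsle x
      have e4 := hdis x
      have e5 := hPb x
      have e6 := hQb x
      have e7 := DFunLike.congr_fun htot x
      simp only [Finsupp.add_apply, Finsupp.tsub_apply] at e1 e7 ⊢
      omega

end Pool.Agent.X203.Toric
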