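import Pool.Agent.X203.OctD

/-!
`FBL[E]` as a normed space, and octahedrality with respect to finite-dimensional subspaces.
-/

namespace Pool.Agent.X203.Oct

open Set Filter Topology MeasureTheory
open scoped ENNReal

/-- The linear space `FBL[E]`, as a subspace of the space of all functions on `E*`. -/
def FBLsub (E : Type*) [NormedAddCommGroup E] [NormedSpace ℝ E] :
    Submodule ℝ ((E →L[ℝ] ℝ) → ℝ) where
  carrier := FBL E
  add_mem' := fun {f g} hf hg => FBL_isClosedSublattice.add f hf g hg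
  zero_mem' := by
    have := FBL_isClosedSublattice.smul 0 _ (Gen.del (0 : E)).mem_FBL
    rwa [zero_smul] at this
  smul_mem' := fun c f hf => FBL_isClosedSublattice.smul c f hf

/-- The Banach lattice `FBL[E]`, as a normed space. -/
def FBLSpace (E : Type*) [NormedAddCommGroup E] [NormedSpace ℝ E] : Type _ := ↥(FBLsub E)

variable {E : Type*} [NormedAddCommGroup E] [NormedSpace ℝ E]

noncomputable instance : AddCommGroup (FBLSpace E) := inferInstanceAs (AddCommGroup ↥(FBLsub E))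

noncomputable instance : Module ℝ (FBLSpace E) := inferInstanceAs (Module ℝ ↥(FBLsub E))

/-- The underlying function on `E*`. -/
def FBLSpace.toFun (f : FBLSpace E) : (E →L[ℝ] ℝ) → ℝ := f.1

/-- The norm of `FBL[E]`. -/
noncomputable instance : Norm (FBLSpace E) := ⟨fun f => (nrm f.toFun).toReal⟩

theorem FBLSpace.norm_def (f : FBLSpace E) : ‖f‖ = (nrm f.toFun).toReal := rfl

theorem FBLSpace.nrm_ne_top (f : FBLSpace E) : nrm f.toFun ≠ ⊤ := (FBL_approx f.2).1.2.ne

theorem FBLSpace.nrm_eq (f : FBLSpace E) : nrm f.toFun = ENNReal.ofReal ‖f‖ :=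
  (ENNReal.ofReal_toReal f.nrm_ne_top).symm

theorem FBLSpace.posHom (f : FBLSpace E) : PosHom f.toFun := (FBL_approx f.2).1.1

theorem nrm_smul_eq (c : ℝ) (f : (E →L[ℝ] ℝ) → ℝ) :
    nrm (c • f) = ENNReal.ofReal |c| * nrm f := by
  refine le_antisymm (nrm_smul c f) ?_
  by_cases hc : c = 0
  · rw [hc, abs_zero, ENNReal.ofReal_zero, zero_mul]; exact bot_le
  · have h1 := nrm_smul c⁻¹ (c • f)
    rw [smul_smul, inv_mul_cancel₀ hc, one_smul] at h1
    calc ENNReal.ofReal |c| * nrm f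
        ≤ ENNReal.ofReal |c| * (ENNReal.ofReal |c⁻¹| * nrm (c • f)) := by gcongr
      _ = ENNReal.ofReal (|c| * |c⁻¹|) * nrm (c • f) := by
          rw [ENNReal.ofReal_mul (abs_nonneg _), mul_assoc]
      _ = nrm (c • f) := by
          rw [← abs_mul, mul_inv_cancel₀ hc, abs_one, ENNReal.ofReal_one, one_mul]

theorem FBLSpace.core : NormedSpace.Core ℝ (FBLSpace E) where
  norm_nonneg := fun f => ENNReal.toReal_nonneg
  norm_smul := fun c f => by
    rw [FBLSpace.norm_def, FBLSpace.norm_def]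
    have : (c • f).toFun = c • f.toFun := rfl
    rw [this, nrm_smul_eq, ENNReal.toReal_mul, ENNReal.toReal_ofReal (abs_nonneg _)]
    rfl
  norm_triangle := fun f g => by
    rw [FBLSpace.norm_def, FBLSpace.norm_def, FBLSpace.norm_def,
      ← ENNReal.toReal_add f.nrm_ne_top g.nrm_ne_top]
    exact ENNReal.toReal_mono (ENNReal.add_ne_top.mpr ⟨f.nrm_ne_top, g.nrm_ne_top⟩)
      (nrm_add_le f.toFun g.toFun)
  norm_eq_zero_iff := fun f => by
    constructor
    · intro h
      have h1 : nrm f.toFun = 0 := by rw [f.nrm_eq, h, ENNReal.ofReal_zero]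
      refine Subtype.ext ?_
      funext φ
      show f.toFun φ = 0
      have hb : ∀ x : E, ‖x‖ ≤ 1 → ∑ _i : Fin 1, |φ x| ≤ ‖φ‖ + 1 := by
        intro x hx
        rw [Fin.sum_univ_one]
        calc |φ x| = ‖φ x‖ := rfl
          _ ≤ ‖φ‖ * ‖x‖ := φ.le_opNorm x
          _ ≤ ‖φ‖ * 1 := mul_le_mul_of_nonneg_left hx (norm_nonneg _)
          _ ≤ ‖φ‖ + 1 := by linarith
      have h2 := le_nrm_of_bound f.posHom (φ := fun _ : Fin 1 => φ) (by positivity) hb
      rw [h1, Fin.sum_univ_one] at h2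
      have h3 : |f.toFun φ| / (‖φ‖ + 1) ≤ 0 := by
        simpa using h2
      have h4 : 0 < ‖φ‖ + 1 := by positivity
      rw [div_le_iff₀ h4, zero_mul] at h3
      exact abs_nonpos_iff.mp h3
    · intro h
      have : f.toFun = 0 := congrArg Subtype.val h
      rw [FBLSpace.norm_def, this]
      have h2 : nrm (0 : (E →L[ℝ] ℝ) → ℝ) = 0 :=
        le_antisymm (nrm_le (fun n φ _ => by simp)) bot_le
      rw [h2]; rfl

noncomputable instance : NormedAddCommGroup (FBLSpace E) :=
  NormedAddCommGroup.ofCore FBLSpace.core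

noncomputable instance : NormedSpace ℝ (FBLSpace E) := NormedSpace.ofCore FBLSpace.core

/-- A normed space has an octahedral norm if for every finite-dimensional subspace `F` and every
`δ > 0` there is a unit vector `y` with `‖u + λy‖ ≥ (1 - δ)(‖u‖ + |λ|)` for `u ∈ F`, `λ ∈ ℝ`. -/
def Octahedral (X : Type*) [NormedAddCommGroup X] [NormedSpace ℝ X] : Prop :=
  ∀ F : Submodule ℝ X, FiniteDimensional ℝ F → ∀ δ : ℝ, 0 < δ →
    ∃ y : X, ‖y‖ = 1 ∧ ∀ u ∈ F, ∀ l : ℝ, (1 - δ) * (‖u‖ + |l|) ≤ ‖u + l • y‖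

theorem octahedral_of_pts {X : Type*} [NormedAddCommGroup X] [NormedSpace ℝ X]
    (hpts : ∀ (s : Finset X), (∀ u ∈ s, ‖u‖ = 1) → ∀ η : ℝ, 0 < η →
      ∃ x : X, ‖x‖ = 1 ∧ ∀ u ∈ s, 2 - η < ‖u + x‖) : Octahedral X := by
  classical
  intro F hF δ hδ
  haveI : ProperSpace F := FiniteDimensional.proper ℝ F
  have hcomp : IsCompact ((Subtype.val : F → X) '' Metric.sphere (0 : F) 1) :=
    (isCompact_sphere (0 : F) 1).image continuous_subtype_val
  obtain ⟨t, hts, htf, htc⟩ := hcomp.finite_cover_balls (by positivity : 0 < δ / 2)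
  have htn : ∀ v ∈ t, ‖v‖ = 1 := by
    intro v hv
    obtain ⟨w, hw, rfl⟩ := hts hv
    have := mem_sphere_zero_iff_norm.mp hw
    exact this
  obtain ⟨x, hx, hxt⟩ := hpts htf.toFinset
    (fun u hu => htn u (htf.mem_toFinset.mp hu)) (δ / 2) (by positivity)
  refine ⟨x, hx, ?_⟩
  have hunit : ∀ u ∈ F, ‖u‖ = 1 → 2 - δ < ‖u + x‖ := by
    intro u hu hun
    have hmem : u ∈ (Subtype.val : F → X) '' Metric.sphere (0 : F) 1 :=
      ⟨⟨u, hu⟩, mem_sphere_zero_iff_norm.mpr hun, rfl⟩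
    obtain ⟨v, hv, huv⟩ := mem_iUnion₂.mp (htc hmem)
    have h1 := hxt v (htf.mem_toFinset.mpr hv)
    rw [Metric.mem_ball, dist_eq_norm] at huv
    have h2 : ‖v + x‖ ≤ ‖u + x‖ + ‖u - v‖ := by
      have : v + x = (u + x) - (u - v) := by abel
      calc ‖v + x‖ = ‖(u + x) - (u - v)‖ := by rw [← this]
        _ ≤ _ := norm_sub_le _ _
    linarith
  have hpos : ∀ u ∈ F, ∀ l : ℝ, 0 ≤ l → (1 - δ) * (‖u‖ + l) ≤ ‖u + l • x‖ := by
    intro u hu l hl
    by_cases h0 : u = 0
    · rw [h0, norm_zero, zero_add, zero_add, norm_smul, hx, Real.norm_of_nonneg hl]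
      nlinarith
    · have ha : 0 < ‖u‖ := norm_pos_iff.mpr h0
      set a := ‖u‖ with hadef
      have h1 : 2 - δ < ‖a⁻¹ • u + x‖ := hunit _ (F.smul_mem _ hu) (by
        rw [norm_smul, norm_inv, norm_norm, inv_mul_cancel₀ ha.ne'])
      rcases le_total l a with h | h
      · have h2 : a • (a⁻¹ • u + x) = (u + l • x) + (a - l) • x := by
          rw [smul_add, smul_smul, mul_inv_cancel₀ ha.ne', one_smul, sub_smul]
          abel
        have h3 : a * ‖a⁻¹ • u + x‖ ≤ ‖u + l • x‖ + (a - l) := by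
          calc a * ‖a⁻¹ • u + x‖ = ‖a • (a⁻¹ • u + x)‖ := by
                rw [norm_smul, Real.norm_of_nonneg ha.le]
            _ = ‖(u + l • x) + (a - l) • x‖ := by rw [h2]
            _ ≤ ‖u + l • x‖ + ‖(a - l) • x‖ := norm_add_le _ _
            _ = _ := by rw [norm_smul, hx, Real.norm_of_nonneg (by linarith), mul_one]
        nlinarith
      · have hl0 : 0 < l := lt_of_lt_of_le ha h
        have h2 : l • (a⁻¹ • u + x) = (u + l • x) + ((l - a) * a⁻¹) • u := by
          rw [smul_add, smul_smul, sub_mul, mul_inv_cancel₀ ha.ne', sub_smul, one_smul]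
          abel
        have h3 : l * ‖a⁻¹ • u + x‖ ≤ ‖u + l • x‖ + (l - a) := by
          calc l * ‖a⁻¹ • u + x‖ = ‖l • (a⁻¹ • u + x)‖ := by
                rw [norm_smul, Real.norm_of_nonneg hl0.le]
            _ = ‖(u + l • x) + ((l - a) * a⁻¹) • u‖ := by rw [h2]
            _ ≤ ‖u + l • x‖ + ‖((l - a) * a⁻¹) • u‖ := norm_add_le _ _
            _ = _ := by
                rw [norm_smul, Real.norm_of_nonneg (mul_nonneg (by linarith) (by positivity)),
                  ← hadef, mul_assoc, inv_mul_cancel₀ ha.ne', mul_one]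
        nlinarith
  intro u hu l
  rcases le_total 0 l with h | h
  · rw [abs_of_nonneg h]; exact hpos u hu l h
  · have h1 := hpos (-u) (F.neg_mem hu) (-l) (by linarith)
    rw [norm_neg] at h1
    have h2 : -u + (-l) • x = -(u + l • x) := by rw [neg_smul, neg_add]
    rw [h2, norm_neg] at h1
    rw [abs_of_nonpos h]
    exact h1

theorem octahedral_FBL [Nontrivial E] {Ω : Type*} [MeasurableSpace Ω] (μ : Measure Ω)
    (e : (E →L[ℝ] ℝ) ≃ₗᵢ[ℝ] Lp ℝ 1 μ) (hD : Daugavet E) : Octahedral (FBLSpace E) := by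
  refine octahedral_of_pts (fun s hs η hη => ?_)
  obtain ⟨g, hg, hg1, hgi⟩ := octahedral μ e hD s.card (fun i => (s.equivFin.symm i).1.toFun)
    (fun i => (s.equivFin.symm i).1.2) (fun i => by
      rw [FBLSpace.nrm_eq, hs _ (s.equivFin.symm i).2, ENNReal.ofReal_one]) hη
  refine ⟨⟨g, hg⟩, ?_, ?_⟩
  · rw [FBLSpace.norm_def]
    show (nrm g).toReal = 1
    rw [hg1]; rfl
  · intro u hu
    have h1 := hgi (s.equivFin ⟨u, hu⟩)
    simp only [Equiv.symm_apply_apply] at h1
    set y : FBLSpace E := ⟨g, hg⟩ with hy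
    have h2 : u.toFun + g = (u + y).toFun := rfl
    rw [h2, FBLSpace.nrm_eq] at h1
    by_contra hcon
    push Not at hcon
    exact absurd (ENNReal.ofReal_le_ofReal hcon) (not_le.mpr h1)

end Pool.Agent.X203.Oct
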