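import Mathlib

set_option linter.unusedSectionVars false
set_option linter.unusedSimpArgs false

/-! Embedding a locally Euclidean space as an open subset of a homogeneous one. -/

namespace Pool.Agent.X203.NHM

open Topology Set

/-- Locally homeomorphic to `ℝⁿ`. -/
def LocEuc (n : ℕ) (X : Type) [TopologicalSpace X] : Prop :=
  ∀ x : X, ∃ U : Set X, IsOpen U ∧ x ∈ U ∧ Nonempty (U ≃ₜ EuclideanSpace ℝ (Fin n))

/-- Homogeneous. -/
def Homog (X : Type) [TopologicalSpace X] : Prop := ∀ x y : X, ∃ h : X ≃ₜ X, h x = y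

section
variable {X : Type} [TopologicalSpace X]

variable (X) in
/-- Partial homeomorphisms with nonempty source. -/
abbrev PH : Type := {φ : OpenPartialHomeomorph X X // φ.source.Nonempty}

/-- Evaluation of a letter. -/
noncomputable def lett (a : PH X × Bool) : OpenPartialHomeomorph X X :=
  if a.2 then a.1.1 else a.1.1.symm

/-- Evaluation of a word as a partial homeomorphism (the last letter acts first). -/
noncomputable def ev : List (PH X × Bool) → OpenPartialHomeomorph X X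
  | [] => OpenPartialHomeomorph.refl X
  | a :: L => (ev L).trans (lett a)

/-- The word `w` takes `x` to `y`. -/
def Ev (w : List (PH X × Bool)) (x y : X) : Prop :=
  x ∈ (ev w).source ∧ ev w x = y

lemma Ev_nil (x y : X) : Ev [] x y ↔ x = y := by
  simp [Ev, ev]

lemma Ev_cons (a : PH X × Bool)
    (L : List (PH X × Bool)) (x y : X) :
    Ev (a :: L) x y ↔ ∃ z, Ev L x z ∧ z ∈ (lett a).source ∧ lett a z = y := by
  unfold Ev
  simp only [ev, OpenPartialHomeomorph.trans_source, mem_inter_iff, mem_preimage,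
    OpenPartialHomeomorph.coe_trans, Function.comp_apply]
  constructor
  · rintro ⟨⟨h1, h2⟩, h3⟩
    exact ⟨_, ⟨h1, rfl⟩, h2, h3⟩
  · rintro ⟨z, ⟨h1, rfl⟩, h2, h3⟩
    exact ⟨⟨h1, h2⟩, h3⟩

lemma Ev_append (L1 L2 : List (PH X × Bool)) (x y : X) :
    Ev (L1 ++ L2) x y ↔ ∃ z, Ev L2 x z ∧ Ev L1 z y := by
  induction L1 generalizing y with
  | nil => simp [Ev_nil]
  | cons a L ih =>
    rw [List.cons_append, Ev_cons]
    simp only [ih, Ev_cons]
    constructor
    · rintro ⟨z, ⟨w, h1, h2⟩, h3⟩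
      exact ⟨w, h1, z, h2, h3⟩
    · rintro ⟨w, h1, z, h2, h3⟩
      exact ⟨z, ⟨w, h1, h2⟩, h3⟩

lemma lett_inv (φ : PH X) (b : Bool) (x y : X) :
    (y ∈ (lett (φ, !b)).source ∧ lett (φ, !b) y = x) ↔
      (x ∈ (lett (φ, b)).source ∧ lett (φ, b) x = y) := by
  cases b
  · simp only [lett, Bool.not_false, if_true, Bool.false_eq_true, if_false,
      OpenPartialHomeomorph.symm_source]
    constructor
    · rintro ⟨h1, rfl⟩
      exact ⟨φ.1.map_source h1, φ.1.left_inv h1⟩
    · rintro ⟨h1, rfl⟩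
      exact ⟨φ.1.map_target h1, φ.1.right_inv h1⟩
  · simp only [lett, Bool.not_true, if_true, Bool.false_eq_true, if_false,
      OpenPartialHomeomorph.symm_source]
    constructor
    · rintro ⟨h1, rfl⟩
      exact ⟨φ.1.map_target h1, φ.1.right_inv h1⟩
    · rintro ⟨h1, rfl⟩
      exact ⟨φ.1.map_source h1, φ.1.left_inv h1⟩

lemma Ev_invRev (w : List (PH X × Bool)) (x y : X) :
    Ev (FreeGroup.invRev w) y x ↔ Ev w x y := by
  induction w generalizing x y with
  | nil => simp [FreeGroup.invRev, Ev_nil, eq_comm]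
  | cons a L ih =>
    obtain ⟨φ, b⟩ := a
    have : FreeGroup.invRev ((φ, b) :: L) = FreeGroup.invRev L ++ [(φ, !b)] := by
      simp [FreeGroup.invRev]
    rw [this, Ev_append, Ev_cons]
    constructor
    · rintro ⟨z, h1, h2⟩
      rw [Ev_cons] at h1
      obtain ⟨z', h3, h4⟩ := h1
      rw [Ev_nil] at h3
      subst h3
      exact ⟨z, (ih x z).mp h2, (lett_inv φ b z y).mp h4⟩
    · rintro ⟨z, h1, h2⟩
      refine ⟨z, ?_, (ih x z).mpr h1⟩
      rw [Ev_cons]
      exact ⟨y, (Ev_nil _ _).mpr rfl, (lett_inv φ b z y).mpr h2⟩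

lemma Ev_step {w w' : List (PH X × Bool)} (h : FreeGroup.Red.Step w w')
    {x y : X} (hw : Ev w x y) : Ev w' x y := by
  obtain ⟨⟩ := h
  rename_i L1 L2 φ b
  rw [Ev_append] at hw ⊢
  obtain ⟨z, h1, h2⟩ := hw
  rw [Ev_cons] at h1
  obtain ⟨z1, h3, h4⟩ := h1
  rw [Ev_cons] at h3
  obtain ⟨z2, h5, h6⟩ := h3
  have h7 := (lett_inv φ b z z1)
  have h6' := (lett_inv φ b z1 z2).mp h6
  have : z2 = z := by
    rw [← h6'.2, ← h4.2]
  subst this
  exact ⟨z2, h5, h2⟩

lemma Ev_red {w w' : List (PH X × Bool)} (h : FreeGroup.Red w w')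
    {x y : X} (hw : Ev w x y) : Ev w' x y := by
  induction h with
  | refl => exact hw
  | tail _ hstep ih => exact Ev_step hstep ih

lemma eq_of_mk_one {w : List (PH X × Bool)}
    (h : FreeGroup.mk w = 1) {x y : X} (hw : Ev w x y) : x = y := by
  have h1 : FreeGroup.mk w = FreeGroup.mk [] := h
  rw [FreeGroup.Red.exact] at h1
  obtain ⟨c, hc1, hc2⟩ := h1
  rw [FreeGroup.Red.nil_iff] at hc2
  subst hc2
  exact (Ev_nil _ _).mp (Ev_red hc1 hw)

variable (X) in
/-- The setoid of the homogenization. -/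
def hset : Setoid (Σ _ : FreeGroup (PH X), X) where
  r p q := ∃ w, FreeGroup.mk w * p.1 = q.1 ∧ Ev w p.2 q.2
  iseqv := by
    refine ⟨fun p => ⟨[], ?_, (Ev_nil _ _).mpr rfl⟩, ?_, ?_⟩
    · rw [← FreeGroup.one_eq_mk, one_mul]
    · rintro p q ⟨w, h1, h2⟩
      refine ⟨FreeGroup.invRev w, ?_, (Ev_invRev w _ _).mpr h2⟩
      rw [← FreeGroup.inv_mk, ← h1, inv_mul_cancel_left]
    · rintro p q r ⟨w, h1, h2⟩ ⟨w', h3, h4⟩
      refine ⟨w' ++ w, ?_, (Ev_append _ _ _ _).mpr ⟨_, h2, h4⟩⟩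
      rw [← FreeGroup.mul_mk, mul_assoc, h1, h3]

variable (X) in
/-- The homogenization. -/
def HM : Type := Quotient (hset X)

instance : TopologicalSpace (HM X) :=
  (inferInstance : TopologicalSpace (Quotient (hset X)))

/-- The chart. -/
def jj (g : FreeGroup (PH X)) (x : X) : HM X := Quotient.mk (hset X) ⟨g, x⟩

lemma isOpen_HM {U : Set (HM X)} : IsOpen U ↔ ∀ g, IsOpen {x | jj g x ∈ U} := by
  have h1 : IsOpen U ↔ IsOpen ((Quotient.mk (hset X)) ⁻¹' U) := Iff.rfl
  rw [h1, isOpen_sigma_iff]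
  rfl

lemma jj_eq_iff {g h : FreeGroup (PH X)} {x y : X} :
    jj g x = jj h y ↔ ∃ w, FreeGroup.mk w * g = h ∧ Ev w x y :=
  Quotient.eq (r := hset X)

lemma jj_inj (g : FreeGroup (PH X)) : Function.Injective (jj (X := X) g) := by
  intro x y hxy
  rw [jj_eq_iff] at hxy
  obtain ⟨w, h1, h2⟩ := hxy
  exact eq_of_mk_one (mul_eq_right.mp h1) h2

lemma jj_open (g : FreeGroup (PH X)) : IsOpenEmbedding (jj (X := X) g) := by
  refine IsOpenEmbedding.of_continuous_injective_isOpenMap ?_ (jj_inj g) ?_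
  · rw [continuous_def]
    intro U hU
    exact isOpen_HM.mp hU g
  · intro V hV
    rw [isOpen_HM]
    intro h
    have : {x | jj h x ∈ jj g '' V} = ⋃ w : {w // FreeGroup.mk w * g = h},
        (ev w.1) '' ((ev w.1).source ∩ V) := by
      ext y
      simp only [Set.mem_ofPred_eq, mem_image, mem_iUnion, mem_inter_iff]
      constructor
      · rintro ⟨x, hx, hxy⟩
        rw [jj_eq_iff] at hxy
        obtain ⟨w, h1, h2, h3⟩ := hxy
        exact ⟨⟨w, h1⟩, x, ⟨h2, hx⟩, h3⟩
      · rintro ⟨⟨w, h1⟩, x, ⟨h2, hx⟩, h3⟩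
        exact ⟨x, hx, jj_eq_iff.mpr ⟨w, h1, h2, h3⟩⟩
    rw [this]
    exact isOpen_iUnion fun w => OpenPartialHomeomorph.isOpen_image_source_inter _ hV

lemma jj_surj (p : HM X) : ∃ g x, jj g x = p := by
  induction p using Quotient.inductionOn with
  | h a => exact ⟨a.1, a.2, rfl⟩

/-- Right multiplication. -/
def rm (k : FreeGroup (PH X)) : HM X → HM X :=
  Quotient.map (fun p => ⟨p.1 * k, p.2⟩) (by
    rintro p q ⟨w, h1, h2⟩
    refine ⟨w, ?_, h2⟩
    change FreeGroup.mk w * (p.1 * k) = q.1 * k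
    rw [← h1, mul_assoc])

lemma rm_jj (k g : FreeGroup (PH X)) (x : X) :
    rm k (jj g x) = jj (g * k) x := rfl

lemma rm_cont (k : FreeGroup (PH X)) : Continuous (rm (X := X) k) := by
  rw [continuous_def]
  intro U hU
  rw [isOpen_HM] at hU ⊢
  intro g
  exact hU (g * k)

/-- Right multiplication as a homeomorphism. -/
def rmH (k : FreeGroup (PH X)) : HM X ≃ₜ HM X where
  toFun := rm k
  invFun := rm k⁻¹
  left_inv p := by
    obtain ⟨g, x, rfl⟩ := jj_surj p
    rw [rm_jj, rm_jj, mul_inv_cancel_right]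
  right_inv p := by
    obtain ⟨g, x, rfl⟩ := jj_surj p
    rw [rm_jj, rm_jj, inv_mul_cancel_right]
  continuous_toFun := rm_cont k
  continuous_invFun := rm_cont k⁻¹

/-- A partial homeomorphism taking `x` to `y`. -/
lemma exists_partial {n : ℕ} (hX : LocEuc n X) (x y : X) :
    ∃ φ : OpenPartialHomeomorph X X, x ∈ φ.source ∧ φ x = y := by
  obtain ⟨U, hU, hxU, ⟨e1⟩⟩ := hX x
  obtain ⟨V, hV, hyV, ⟨e2⟩⟩ := hX y
  let f1 : EuclideanSpace ℝ (Fin n) → X := fun v => (e1.symm v : X)
  let f2 : EuclideanSpace ℝ (Fin n) → X := fun v =>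
    (e2.symm (v + (e2 ⟨y, hyV⟩ - e1 ⟨x, hxU⟩)) : X)
  have hf1 : IsOpenEmbedding f1 := hU.isOpenEmbedding_subtypeVal.comp e1.symm.isOpenEmbedding
  have hf2 : IsOpenEmbedding f2 := hV.isOpenEmbedding_subtypeVal.comp
    (e2.symm.isOpenEmbedding.comp (Homeomorph.addRight _).isOpenEmbedding)
  let p1 := hf1.toOpenPartialHomeomorph f1
  let p2 := hf2.toOpenPartialHomeomorph f2
  have hx1 : p1 (e1 ⟨x, hxU⟩) = x := by
    change f1 (e1 ⟨x, hxU⟩) = x
    simp [f1]
  have hy1 : p2 (e1 ⟨x, hxU⟩) = y := by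
    change f2 (e1 ⟨x, hxU⟩) = y
    simp [f2]
  have hxt : x ∈ p1.target := by
    rw [← hx1]
    exact p1.map_source (by simp [p1])
  have hsx : p1.symm x = e1 ⟨x, hxU⟩ := by
    have := p1.left_inv (x := e1 ⟨x, hxU⟩) (by simp [p1])
    rw [hx1] at this
    exact this
  refine ⟨p1.symm.trans p2, ?_, ?_⟩
  · rw [OpenPartialHomeomorph.trans_source]
    exact ⟨hxt, by simp [p2]⟩
  · rw [OpenPartialHomeomorph.coe_trans, Function.comp_apply, hsx, hy1]

/-- **Homogenization.** Every connected locally Euclidean space is an open subspace of a connected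
homogeneous locally Euclidean space. -/
theorem homogenize {n : ℕ} (hX : LocEuc n X) [ConnectedSpace X] :
    ∃ (M : Type) (_ : TopologicalSpace M), ConnectedSpace M ∧ LocEuc n M ∧ Homog M ∧
      ∃ j : X → M, IsOpenEmbedding j := by
  refine ⟨HM X, inferInstance, ?_, ?_, ?_, jj 1, jj_open 1⟩
  · obtain ⟨x0⟩ := (inferInstance : Nonempty X)
    have hsub : ∀ (g : FreeGroup (PH X)) (x : X) (p : HM X), jj g x ∈ connectedComponent p →
        ∀ y, jj g y ∈ connectedComponent p := by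
      intro g x p hx y
      have h1 : IsPreconnected (range (jj (X := X) g)) := isPreconnected_range (jj_open g).continuous
      have h2 := h1.subset_connectedComponent (mem_range_self x)
      rw [connectedComponent_eq hx]
      exact h2 (mem_range_self y)
    -- all points lie in the component of `jj 1 x0`
    have key : ∀ L : List (PH X × Bool), ∀ x,
        jj (FreeGroup.mk L) x ∈ connectedComponent (jj 1 x0) := by
      intro L
      induction L with
      | nil => exact hsub _ x0 _ mem_connectedComponent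
      | cons a L ih =>
        obtain ⟨z, hz⟩ : (lett a).source.Nonempty := by
          obtain ⟨φ, b⟩ := a
          obtain ⟨z, hz⟩ := φ.2
          cases b
          · exact ⟨φ.1 z, by simpa [lett] using φ.1.map_source hz⟩
          · exact ⟨z, by simpa [lett] using hz⟩
        refine hsub _ (lett a z) _ ?_
        have e1 : jj (FreeGroup.mk L) z = jj (FreeGroup.mk (a :: L)) (lett a z) := by
          rw [jj_eq_iff]
          refine ⟨[a], by rw [FreeGroup.mul_mk]; rfl, ?_⟩
          rw [Ev_cons]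
          exact ⟨z, (Ev_nil _ _).mpr rfl, hz, rfl⟩
        rw [← e1]
        exact ih z
    have : ConnectedSpace (HM X) := by
      rw [connectedSpace_iff_connectedComponent]
      refine ⟨jj 1 x0, ?_⟩
      rw [eq_univ_iff_forall]
      intro p
      obtain ⟨g, x, rfl⟩ := jj_surj p
      obtain ⟨L, rfl⟩ : ∃ L, FreeGroup.mk L = g := by
        induction g using Quot.inductionOn with
        | h L => exact ⟨L, rfl⟩
      exact key L x
    exact this
  · intro p
    obtain ⟨g, x, rfl⟩ := jj_surj p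
    obtain ⟨U, hU, hxU, ⟨e⟩⟩ := hX x
    have hemb : IsEmbedding (fun u : U => jj g (u : X)) :=
      (jj_open g).isEmbedding.comp IsEmbedding.subtypeVal
    have hr : range (fun u : U => jj g (u : X)) = jj g '' U := by
      ext q
      simp
    have e' : U ≃ₜ (jj g '' U) := hemb.toHomeomorph.trans (Homeomorph.setCongr hr)
    exact ⟨jj g '' U, (jj_open g).isOpenMap U hU, ⟨x, hxU, rfl⟩, ⟨e'.symm.trans e⟩⟩
  · intro p q
    obtain ⟨g, x, rfl⟩ := jj_surj p
    obtain ⟨h, y, rfl⟩ := jj_surj q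
    obtain ⟨φ, h1, h2⟩ := exists_partial hX x y
    let ψ : PH X := ⟨φ, ⟨x, h1⟩⟩
    have e1 : jj g x = jj (FreeGroup.of ψ * g) y := by
      rw [jj_eq_iff]
      refine ⟨[(ψ, true)], rfl, ?_⟩
      rw [Ev_cons]
      exact ⟨x, (Ev_nil _ _).mpr rfl, by simpa [lett, ψ] using h1, by simpa [lett, ψ] using h2⟩
    refine ⟨rmH ((FreeGroup.of ψ * g)⁻¹ * h), ?_⟩
    change rm ((FreeGroup.of ψ * g)⁻¹ * h) (jj g x) = jj h y
    rw [e1, rm_jj, mul_inv_cancel_left]

end

end Pool.Agent.X203.NHM
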