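import Mathlib

set_option linter.unusedSectionVars false
set_option linter.unusedSimpArgs false

/-! Coherent tree orders on a well-order with countable initial segments. -/

namespace Pool.Agent.X203.NHM

open Set Classical

section
variable {Ω : Type} [LinearOrder Ω] [WellFoundedLT Ω]

/-- cofinal monotone sequences -/
lemma exists_cof (hc : ∀ a : Ω, (Iio a).Countable) (β : Ω) :
    ∃ c : ℕ → Ω, (∃ γ, γ < β) → (∀ n, c n < β) ∧ Monotone c ∧ ∀ ξ < β, ∃ n, ξ ≤ c n := by
  by_cases h : ∃ γ, γ < β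
  · obtain ⟨γ, hγ⟩ := h
    have hne : (Iio β).Nonempty := ⟨γ, hγ⟩
    obtain ⟨e, he⟩ := (hc β).exists_eq_range hne
    refine ⟨fun n => (Finset.range (n + 1)).sup' (by simp) e, fun _ => ⟨?_, ?_, ?_⟩⟩
    · intro n
      rw [Finset.sup'_lt_iff]
      intro i _
      have : e i ∈ Iio β := by rw [he]; exact mem_range_self i
      exact this
    · intro n m hnm
      refine Finset.sup'_mono _ ?_ _
      intro i hi
      simp only [Finset.mem_range] at hi ⊢
      omega
    · intro ξ hξ
      have : ξ ∈ Iio β := hξ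
      rw [he] at this
      obtain ⟨n, rfl⟩ := this
      exact ⟨n, Finset.le_sup' _ (by simp)⟩
  · exact ⟨fun _ => β, fun h' => (h h').elim⟩

variable (hc : ∀ a : Ω, (Iio a).Countable)

/-- the chosen cofinal sequences -/
noncomputable def cof (β : Ω) : ℕ → Ω := Classical.choose (exists_cof hc β)

lemma cof_spec (β : Ω) (h : ∃ γ, γ < β) : (∀ n, cof hc β n < β) ∧ Monotone (cof hc β) ∧
    ∀ ξ < β, ∃ n, ξ ≤ cof hc β n := Classical.choose_spec (exists_cof hc β) h

/-- the tree predecessors -/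
noncomputable def PP (k : ℕ) : Ω → Finset Ω :=
  WellFounded.fix (wellFounded_lt (α := Ω)) fun β IH =>
    if h : ∃ γ, γ < β then
      insert β (IH (cof hc β (Nat.findGreatest (fun n => ∀ i < n,
        cof hc β i ∈ IH (cof hc β (i + 1)) ((cof_spec hc β h).1 _)) k)) ((cof_spec hc β h).1 _))
    else {β}

/-- the level reached -/
noncomputable def NN (k : ℕ) (β : Ω) : ℕ :=
  Nat.findGreatest (fun n => ∀ i < n, cof hc β i ∈ PP hc k (cof hc β (i + 1))) k

lemma PP_pos (k : ℕ) {β : Ω} (h : ∃ γ, γ < β) :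
    PP hc k β = insert β (PP hc k (cof hc β (NN hc k β))) := by
  unfold PP
  rw [WellFounded.fix_eq, dif_pos h]
  rfl

lemma PP_neg (k : ℕ) {β : Ω} (h : ¬ ∃ γ, γ < β) : PP hc k β = {β} := by
  unfold PP
  rw [WellFounded.fix_eq, dif_neg h]

lemma NN_spec (k : ℕ) (β : Ω) : ∀ i < NN hc k β, cof hc β i ∈ PP hc k (cof hc β (i + 1)) := by
  unfold NN
  exact Nat.findGreatest_spec (P := fun n => ∀ i < n, cof hc β i ∈ PP hc k (cof hc β (i + 1)))
    (m := 0) (Nat.zero_le _) (by simp)

lemma le_NN {k n : ℕ} {β : Ω} (hn : n ≤ k)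
    (h : ∀ i < n, cof hc β i ∈ PP hc k (cof hc β (i + 1))) : n ≤ NN hc k β :=
  Nat.le_findGreatest hn h

lemma self_mem (k : ℕ) (β : Ω) : β ∈ PP hc k β := by
  by_cases h : ∃ γ, γ < β
  · rw [PP_pos hc k h]; exact Finset.mem_insert_self _ _
  · rw [PP_neg hc k h]; exact Finset.mem_singleton_self _

lemma PP_le (k : ℕ) (β : Ω) : ∀ α ∈ PP hc k β, α ≤ β := by
  induction β using WellFoundedLT.induction with
  | ind β ih =>
    intro α hα
    by_cases h : ∃ γ, γ < β
    · rw [PP_pos hc k h, Finset.mem_insert] at hα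
      rcases hα with rfl | hα
      · exact le_rfl
      · have h1 := (cof_spec hc β h).1 (NN hc k β)
        exact (ih _ h1 α hα).trans h1.le
    · rw [PP_neg hc k h, Finset.mem_singleton] at hα
      exact hα.le

lemma PP_filter (k : ℕ) (β : Ω) : ∀ α ∈ PP hc k β,
    PP hc k α = (PP hc k β).filter (· ≤ α) := by
  induction β using WellFoundedLT.induction with
  | ind β ih =>
    intro α hα
    by_cases hαβ : α = β
    · subst hαβ
      rw [Finset.filter_true_of_mem (PP_le hc k α)]
    · by_cases h : ∃ γ, γ < β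
      · have hlt : α < β := lt_of_le_of_ne (PP_le hc k β α hα) hαβ
        rw [PP_pos hc k h, Finset.mem_insert] at hα
        have hα' := hα.resolve_left hαβ
        rw [ih _ ((cof_spec hc β h).1 (NN hc k β)) α hα', PP_pos hc k h, Finset.filter_insert,
          if_neg (not_le.mpr hlt)]
      · rw [PP_neg hc k h, Finset.mem_singleton] at hα
        exact (hαβ hα).elim

lemma PP_sub {k : ℕ} {α β : Ω} (h : α ∈ PP hc k β) : PP hc k α ⊆ PP hc k β := by
  rw [PP_filter hc k β α h]
  exact Finset.filter_subset _ _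

lemma chain_mem {k : ℕ} {β : Ω} {n : ℕ}
    (h : ∀ i < n, cof hc β i ∈ PP hc k (cof hc β (i + 1))) :
    ∀ m ≤ n, PP hc k (cof hc β m) ⊆ PP hc k (cof hc β n) := by
  induction n with
  | zero => intro m hm; rw [Nat.le_zero.mp hm]
  | succ n ih =>
    intro m hm
    rcases Nat.lt_or_ge n m with h1 | h1
    · have : m = n + 1 := by omega
      rw [this]
    · exact (ih (fun i hi => h i (by omega)) m h1).trans (PP_sub hc (h n (by omega)))

lemma PP_mono_succ (k : ℕ) (β : Ω) : PP hc k β ⊆ PP hc (k + 1) β := by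
  induction β using WellFoundedLT.induction with
  | ind β ih =>
    by_cases h : ∃ γ, γ < β
    · have hlt := (cof_spec hc β h).1
      have hNN : NN hc k β ≤ NN hc (k + 1) β := by
        apply le_NN
        · exact (Nat.findGreatest_le k).trans (Nat.le_succ k)
        · intro i hi
          exact ih _ (hlt _) (NN_spec hc k β i hi)
      rw [PP_pos hc k h, PP_pos hc (k + 1) h]
      apply Finset.insert_subset_insert
      exact (ih _ (hlt _)).trans (chain_mem hc (NN_spec hc (k + 1) β) _ hNN)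
    · rw [PP_neg hc k h, PP_neg hc (k + 1) h]

lemma PP_mono {k l : ℕ} (h : k ≤ l) (β : Ω) : PP hc k β ⊆ PP hc l β := by
  induction h with
  | refl => exact Finset.Subset.refl _
  | step _ ih => exact ih.trans (PP_mono_succ hc _ β)

lemma PP_exists (β : Ω) : ∀ α ≤ β, ∃ k, α ∈ PP hc k β := by
  induction β using WellFoundedLT.induction with
  | ind β ih =>
    intro α hα
    rcases hα.eq_or_lt with rfl | hlt
    · exact ⟨0, self_mem hc 0 α⟩
    · have h : ∃ γ, γ < β := ⟨α, hlt⟩
      obtain ⟨hlt', hmono, hcof⟩ := cof_spec hc β h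
      obtain ⟨n, hn⟩ := hcof α hlt
      obtain ⟨k1, hk1⟩ := ih _ (hlt' n) α hn
      have hK : ∀ n, ∃ K, ∀ i < n, cof hc β i ∈ PP hc K (cof hc β (i + 1)) := by
        intro n
        induction n with
        | zero => exact ⟨0, by simp⟩
        | succ n ihn =>
          obtain ⟨K, hK⟩ := ihn
          obtain ⟨K', hK'⟩ := ih _ (hlt' (n + 1)) (cof hc β n) (hmono (Nat.le_succ n))
          refine ⟨max K K', fun i hi => ?_⟩
          rcases Nat.lt_succ_iff_lt_or_eq.mp hi with h1 | rfl
          · exact PP_mono hc (le_max_left _ _) _ (hK i h1)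
          · exact PP_mono hc (le_max_right _ _) _ hK'
      obtain ⟨K, hK⟩ := hK n
      refine ⟨max (max k1 K) n, ?_⟩
      rw [PP_pos hc _ h]
      apply Finset.mem_insert_of_mem
      have h1 : n ≤ NN hc (max (max k1 K) n) β := by
        apply le_NN hc (le_max_right _ _)
        intro i hi
        exact PP_mono hc ((le_max_right k1 K).trans (le_max_left _ _)) _ (hK i hi)
      have h2 := chain_mem hc (NN_spec hc (max (max k1 K) n) β) n h1
      exact h2 (PP_mono hc ((le_max_left k1 K).trans (le_max_left _ _)) _ hk1)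

/-- the function `m(λ, α)` -/
noncomputable def mm (l α : Ω) : ℕ := if h : α ≤ l then Nat.find (PP_exists hc l α h) else 0

lemma mem_of_mm_le {l α : Ω} (h : α ≤ l) {k : ℕ} (hk : mm hc l α ≤ k) : α ∈ PP hc k l := by
  unfold mm at hk
  rw [dif_pos h] at hk
  exact PP_mono hc hk _ (Nat.find_spec (PP_exists hc l α h))

lemma mm_le_of_mem {l α : Ω} (h : α ≤ l) {k : ℕ} (hk : α ∈ PP hc k l) : mm hc l α ≤ k := by
  unfold mm
  rw [dif_pos h]
  exact Nat.find_min' _ hk

/-- the function `f(α, k)` -/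
noncomputable def ff (α : Ω) (k : ℕ) : ℕ := (PP hc k α).card

lemma ff_ne {l α β : Ω} (hα : α ≤ l) (hβ : β ≤ l) (hne : α ≠ β) {k : ℕ}
    (h1 : mm hc l α ≤ k) (h2 : mm hc l β ≤ k) : ff hc α k ≠ ff hc β k := by
  have key : ∀ α β : Ω, α ≤ l → β ≤ l → α < β → mm hc l α ≤ k → mm hc l β ≤ k →
      ff hc α k < ff hc β k := by
    intro α β hα hβ hlt h1 h2
    have e1 := mem_of_mm_le hc hα h1
    have e2 := mem_of_mm_le hc hβ h2
    unfold ff
    apply Finset.card_lt_card
    rw [PP_filter hc k l α e1, PP_filter hc k l β e2]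
    rw [Finset.ssubset_iff_of_subset]
    · exact ⟨β, by simp [e2], by simp [hlt]⟩
    · intro ξ hξ
      simp only [Finset.mem_filter] at hξ ⊢
      exact ⟨hξ.1, hξ.2.trans hlt.le⟩
  rcases lt_or_gt_of_ne hne with h | h
  · exact (key α β hα hβ h h1 h2).ne
  · exact (key β α hβ hα h h2 h1).ne'

lemma mm_coh {l μ : Ω} (hμ : μ ≤ l) : {α : Ω | α ≤ μ ∧ mm hc l α ≠ mm hc μ α}.Finite := by
  set k0 := mm hc l μ with hk0
  refine (Finset.finite_toSet (PP hc k0 l ∪ PP hc k0 μ)).subset ?_
  rintro α ⟨hα, hne⟩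
  by_contra hcon
  simp only [Finset.coe_union, mem_union, Finset.mem_coe, not_or] at hcon
  apply hne
  have hαl : α ≤ l := hα.trans hμ
  have key : ∀ k, α ∈ PP hc k l ↔ α ∈ PP hc k μ := by
    intro k
    rcases le_total k0 k with h | h
    · have h1 : μ ∈ PP hc k l := mem_of_mm_le hc hμ h
      rw [PP_filter hc k l μ h1, Finset.mem_filter]
      simp [hα]
    · constructor
      · intro h1; exact (hcon.1 (PP_mono hc h _ h1)).elim
      · intro h1; exact (hcon.2 (PP_mono hc h _ h1)).elim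
  apply le_antisymm
  · apply mm_le_of_mem hc hαl
    rw [key]
    exact mem_of_mm_le hc hα le_rfl
  · apply mm_le_of_mem hc hα
    rw [← key]
    exact mem_of_mm_le hc hαl le_rfl

end

end Pool.Agent.X203.NHM
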