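import Mathlib

set_option linter.unusedSectionVars false
set_option linter.unusedSimpArgs false

/-! The long ray of a well-order with countable initial segments. -/

namespace Pool.Agent.X203.NHM

open Set Topology

/-- `Ω × [0,1)` with the lexicographic order. -/
def LR (Ω : Type) : Type := Ω ×ₗ Ico (0 : ℝ) 1

section
variable {Ω : Type} [LinearOrder Ω]

noncomputable instance : LinearOrder (LR Ω) := (inferInstance : LinearOrder (Ω ×ₗ Ico (0 : ℝ) 1))
/-- The order topology. -/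
noncomputable instance : TopologicalSpace (LR Ω) := Preorder.topology (LR Ω)
instance : OrderTopology (LR Ω) := ⟨rfl⟩

/-- first coordinate -/
def c1 (t : LR Ω) : Ω := (ofLex (show Ω ×ₗ Ico (0 : ℝ) 1 from t)).1
/-- second coordinate -/
def c2 (t : LR Ω) : ℝ := ((ofLex (show Ω ×ₗ Ico (0 : ℝ) 1 from t)).2 : ℝ)

/-- the point with given coordinates -/
def pt (α : Ω) (s : Ico (0 : ℝ) 1) : LR Ω := (toLex (α, s) : Ω ×ₗ Ico (0 : ℝ) 1)

@[simp] lemma c1_pt (α : Ω) (s : Ico (0 : ℝ) 1) : c1 (pt α s) = α := rfl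
@[simp] lemma c2_pt (α : Ω) (s : Ico (0 : ℝ) 1) : c2 (pt α s) = s := rfl

lemma c2_mem (t : LR Ω) : c2 t ∈ Ico (0 : ℝ) 1 :=
  (ofLex (show Ω ×ₗ Ico (0 : ℝ) 1 from t)).2.2

lemma pt_eta (t : LR Ω) : pt (c1 t) ⟨c2 t, c2_mem t⟩ = t := rfl

lemma LR_ext {t u : LR Ω} (h1 : c1 t = c1 u) (h2 : c2 t = c2 u) : t = u := by
  rw [← pt_eta t, ← pt_eta u]
  congr 1
  exact Subtype.ext h2

lemma LR_lt {t u : LR Ω} : t < u ↔ c1 t < c1 u ∨ c1 t = c1 u ∧ c2 t < c2 u := by
  have := Prod.Lex.lt_iff (x := (show Ω ×ₗ Ico (0 : ℝ) 1 from t))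
    (y := (show Ω ×ₗ Ico (0 : ℝ) 1 from u))
  exact this

lemma LR_le {t u : LR Ω} : t ≤ u ↔ c1 t < c1 u ∨ c1 t = c1 u ∧ c2 t ≤ c2 u := by
  have := Prod.Lex.le_iff (x := (show Ω ×ₗ Ico (0 : ℝ) 1 from t))
    (y := (show Ω ×ₗ Ico (0 : ℝ) 1 from u))
  exact this

lemma c1_mono {t u : LR Ω} (h : t ≤ u) : c1 t ≤ c1 u := by
  rw [LR_le] at h
  rcases h with h | h
  · exact h.le
  · exact h.1.le

/-- zero of `[0,1)` -/
def z0 : Ico (0 : ℝ) 1 := ⟨0, by simp⟩

/-- closed block embedding -/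
lemma block_emb (α : Ω) : IsEmbedding (pt (Ω := Ω) α) := by
  have hm : StrictMono (pt (Ω := Ω) α) := by
    intro s s' h
    rw [LR_lt]
    exact Or.inr ⟨rfl, h⟩
  apply hm.isEmbedding_of_ordConnected
  constructor
  rintro _ ⟨s, rfl⟩ _ ⟨s', rfl⟩ t ⟨h1, h2⟩
  have e1 := c1_mono h1
  have e2 := c1_mono h2
  rw [c1_pt] at e1 e2
  exact ⟨⟨c2 t, c2_mem t⟩, by rw [le_antisymm e1 e2, pt_eta]⟩

/-- inclusion of `(0,1)` in `[0,1)` -/
def inc (s : Ioo (0 : ℝ) 1) : Ico (0 : ℝ) 1 := ⟨s, Ioo_subset_Ico_self s.2⟩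

lemma inc_cont : Continuous inc := by
  unfold inc
  fun_prop

/-- open block map -/
def bl (α : Ω) (s : Ioo (0 : ℝ) 1) : LR Ω := pt α (inc s)

lemma bl_cont (α : Ω) : Continuous (bl (Ω := Ω) α) := (block_emb α).continuous.comp inc_cont

lemma range_bl (α : Ω) : range (bl (Ω := Ω) α) = {t | c1 t = α ∧ 0 < c2 t} := by
  ext t
  constructor
  · rintro ⟨s, rfl⟩
    exact ⟨rfl, s.2.1⟩
  · rintro ⟨h1, h2⟩
    exact ⟨⟨c2 t, h2, (c2_mem t).2⟩, LR_ext h1.symm rfl⟩

variable [WellFoundedLT Ω]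

lemma exists_succ (hnm : ∀ a : Ω, ∃ b, a < b) (a : Ω) : ∃ b, a < b ∧ ∀ c, a < c → b ≤ c := by
  obtain ⟨b, hb, hmin⟩ := (wellFounded_lt (α := Ω)).has_min {b | a < b} (hnm a)
  exact ⟨b, hb, fun c hc => not_lt.mp (hmin c hc)⟩

lemma bl_open (hnm : ∀ a : Ω, ∃ b, a < b) (α : Ω) : IsOpenEmbedding (bl (Ω := Ω) α) := by
  have hm : StrictMono (bl (Ω := Ω) α) := by
    intro s s' h
    rw [LR_lt]
    exact Or.inr ⟨rfl, h⟩
  refine ⟨?_, ?_⟩
  · apply hm.isEmbedding_of_ordConnected
    rw [range_bl]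
    constructor
    rintro t ⟨h1, h2⟩ t' ⟨h3, h4⟩ u ⟨h5, h6⟩
    have e1 := c1_mono h5
    have e2 := c1_mono h6
    have e3 : c1 u = α := le_antisymm (e2.trans h3.le) (h1 ▸ e1)
    refine ⟨e3, ?_⟩
    rw [LR_le] at h5
    rcases h5 with h5 | h5
    · rw [h1, e3] at h5; exact (lt_irrefl _ h5).elim
    · exact h2.trans_le h5.2
  · obtain ⟨β, hβ, hmin⟩ := exists_succ hnm α
    have : range (bl (Ω := Ω) α) = Ioo (pt α z0) (pt β z0) := by
      rw [range_bl]
      ext t
      simp only [Set.mem_ofPred_eq, mem_Ioo, LR_lt, c1_pt, c2_pt]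
      constructor
      · rintro ⟨h1, h2⟩
        exact ⟨Or.inr ⟨h1.symm, h2⟩, Or.inl (h1 ▸ hβ)⟩
      · rintro ⟨h1, h2⟩
        have h3 : c1 t ≤ α := by
          by_contra hcon
          rcases h2 with h2 | h2
          · exact (not_lt.mpr (hmin _ (not_le.mp hcon))) h2
          · exact absurd h2.2 (not_lt.mpr (c2_mem t).1)
        rcases h1 with h1 | h1
        · exact absurd h1 (not_lt.mpr h3)
        · exact ⟨h1.1.symm, h1.2⟩
    rw [this]
    exact isOpen_Ioo

/-- The point `0` of the first block is the least element: the segment below `(l, 0)` is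
homeomorphic to the line. -/
theorem seg_homeo (hc : ∀ a : Ω, (Iio a).Countable) (o l : Ω) (ho : ∀ a, o ≤ a) (hl : o < l) :
    Nonempty (Ioo (pt o z0) (pt l z0) ≃ₜ ℝ) := by
  classical
  -- weights
  have : Countable (Iio l) := (hc l).to_subtype
  obtain ⟨e, he⟩ := exists_injective_nat (Iio l)
  let w : Ω → ℝ := fun ξ => if h : ξ < l then (1 / 2 : ℝ) ^ (e ⟨ξ, h⟩) else 0
  have hw0 : ∀ ξ, 0 ≤ w ξ := by
    intro ξ; simp only [w]; split_ifs <;> positivity
  have hwpos : ∀ ξ, ξ < l → 0 < w ξ := by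
    intro ξ h; simp only [w, dif_pos h]; positivity
  have hws : Summable w := by
    have h1 : Summable (fun ξ : Iio l => (1 / 2 : ℝ) ^ (e ξ)) :=
      (summable_geometric_of_lt_one (by norm_num) (by norm_num)).comp_injective he
    have h2 : (fun ξ : Iio l => (1 / 2 : ℝ) ^ (e ξ)) = w ∘ ((↑) : Iio l → Ω) := by
      funext ξ
      have : (ξ : Ω) < l := ξ.2
      simp [w, this]
    rw [h2] at h1
    exact (Function.Injective.summable_iff Subtype.val_injective (by
      intro x hx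
      have : ¬ x < l := by simpa using hx
      simp [w, this])).mp h1
  let F : Ω → ℝ := fun α => ∑' ξ, if ξ < α then w ξ else 0
  have hFs : ∀ α, Summable (fun ξ => if ξ < α then w ξ else 0) := by
    intro α
    refine Summable.of_nonneg_of_le (fun ξ => ?_) (fun ξ => ?_) hws
    · split_ifs; exacts [hw0 ξ, le_rfl]
    · split_ifs; exacts [le_rfl, hw0 ξ]
  have hF0 : F o = 0 := by
    simp only [F]
    have : (fun ξ => if ξ < o then w ξ else 0) = fun _ => (0 : ℝ) := by
      funext ξ; rw [if_neg (not_lt.mpr (ho ξ))]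
    rw [this, tsum_zero]
  have hstep : ∀ α β, α < β → F α + w α ≤ F β := by
    intro α β h
    have h1 : F α + w α = ∑' ξ, ((if ξ < α then w ξ else 0) + (if ξ = α then w α else 0)) := by
      rw [Summable.tsum_add (hFs α) (hasSum_ite_eq α (w α)).summable, tsum_ite_eq]
    rw [h1]
    refine Summable.tsum_le_tsum (fun ξ => ?_)
      ((hFs α).add (hasSum_ite_eq α (w α)).summable) (hFs β)
    by_cases h2 : ξ < α
    · rw [if_pos h2, if_neg h2.ne, if_pos (h2.trans h)]; simp
    · by_cases h3 : ξ = α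
      · subst h3; rw [if_neg h2, if_pos rfl, if_pos h]; simp
      · rw [if_neg h2, if_neg h3]; simp only [add_zero]
        split_ifs; exacts [hw0 ξ, le_rfl]
  let Φ : LR Ω → ℝ := fun t => F (c1 t) + w (c1 t) * c2 t
  have hΦ : ∀ t u, t < u → c1 t < l → Φ t < Φ u := by
    intro t u htu ht
    rw [LR_lt] at htu
    have hwt := hwpos _ ht
    rcases htu with h | h
    · calc Φ t < F (c1 t) + w (c1 t) := by
            simp only [Φ]
            have := mul_lt_mul_of_pos_left (c2_mem t).2 hwt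
            linarith
        _ ≤ F (c1 u) := hstep _ _ h
        _ ≤ Φ u := by
            simp only [Φ]
            have := mul_nonneg (hw0 (c1 u)) (c2_mem u).1
            linarith
    · simp only [Φ, ← h.1]
      have := mul_lt_mul_of_pos_left h.2 hwt
      linarith
  set T := F l with hT
  have hTpos : 0 < T := by
    have := hstep o l hl
    have := hwpos o hl
    linarith
  have hsurj : ∀ r, 0 ≤ r → r < T → ∃ t : LR Ω, c1 t < l ∧ Φ t = r := by
    intro r hr0 hrT
    obtain ⟨α, hα, hmin⟩ := (wellFounded_lt (α := Ω)).has_min {α | r < F α} ⟨l, hrT⟩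
    have hmin' : ∀ ξ < α, F ξ ≤ r := fun ξ hξ => not_lt.mp fun h => hmin ξ h hξ
    have hαl : α ≤ l := not_lt.mp fun h => hmin l hrT h
    have hαr : r < F α := hα
    -- a finite subset
    obtain ⟨S, hS⟩ : ∃ S : Finset Ω, r < ∑ ξ ∈ S, (if ξ < α then w ξ else 0) := by
      have h1 := (hFs α).hasSum
      have h2 := h1.eventually (lt_mem_nhds hαr)
      exact h2.exists
    have hne : (S.filter (· < α)).Nonempty := by
      by_contra hcon
      rw [Finset.not_nonempty_iff_eq_empty] at hcon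
      rw [← Finset.sum_filter, hcon, Finset.sum_empty] at hS
      exact absurd hS (not_lt.mpr hr0)
    set ξ := (S.filter (· < α)).max' hne with hξ
    have hξmem := (S.filter (· < α)).max'_mem hne
    rw [← hξ, Finset.mem_filter] at hξmem
    have hle : ∑ ζ ∈ S, (if ζ < α then w ζ else 0) ≤ F ξ + w ξ := by
      have h1 : F ξ + w ξ = ∑' ζ, ((if ζ < ξ then w ζ else 0) + (if ζ = ξ then w ξ else 0)) := by
        rw [Summable.tsum_add (hFs ξ) (hasSum_ite_eq ξ (w ξ)).summable, tsum_ite_eq]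
      rw [h1]
      refine le_trans ?_ (Summable.sum_le_tsum S (fun ζ _ => ?_)
        ((hFs ξ).add (hasSum_ite_eq ξ (w ξ)).summable))
      · refine Finset.sum_le_sum fun ζ hζ => ?_
        by_cases h2 : ζ < α
        · have h3 : ζ ≤ ξ := Finset.le_max' _ _ (Finset.mem_filter.mpr ⟨hζ, h2⟩)
          rcases h3.lt_or_eq with h4 | h4
          · rw [if_pos h2, if_pos h4, if_neg h4.ne]; simp
          · rw [h4, if_pos hξmem.2]; simp
        · rw [if_neg h2]
          apply add_nonneg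
          · split_ifs; exacts [hw0 ζ, le_rfl]
          · split_ifs; exacts [hw0 ξ, le_rfl]
      · apply add_nonneg
        · split_ifs; exacts [hw0 ζ, le_rfl]
        · split_ifs; exacts [hw0 ξ, le_rfl]
    have hξl : ξ < l := hξmem.2.trans_le hαl
    have hFξ := hmin' ξ hξmem.2
    have hwξ := hwpos ξ hξl
    refine ⟨pt ξ ⟨(r - F ξ) / w ξ, div_nonneg (by linarith) hwξ.le, ?_⟩, hξl, ?_⟩
    · rw [div_lt_one hwξ]; linarith
    · simp only [Φ, c1_pt, c2_pt]
      field_simp
      ring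
  -- the order isomorphism
  have hmemT : ∀ t : Ioo (pt o z0) (pt l z0), 0 < Φ t ∧ Φ t < T ∧ c1 (t : LR Ω) < l := by
    rintro ⟨t, ht1, ht2⟩
    have h3 : c1 t < l := by
      rw [LR_lt] at ht2
      rcases ht2 with h | h
      · exact h
      · exact absurd h.2 (not_lt.mpr (c2_mem t).1)
    have h1 := hΦ _ _ ht1 hl
    have h2 := hΦ _ _ ht2 h3
    refine ⟨?_, ?_, h3⟩
    · have : Φ (pt o z0) = 0 := by simp [Φ, hF0, z0]
      rwa [this] at h1
    · have : Φ (pt l z0) = T := by simp [Φ, z0, hT]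
      rwa [this] at h2
  let Ψ : Ioo (pt o z0) (pt l z0) → ℝ := fun t =>
    Real.tanOrderIso ⟨Real.pi * (Φ t / T - 1 / 2), by
      obtain ⟨h1, h2, _⟩ := hmemT t
      have h3 : 0 < Φ t / T := div_pos h1 hTpos
      have h4 : Φ t / T < 1 := (div_lt_one hTpos).mpr h2
      constructor
      · nlinarith [Real.pi_pos]
      · nlinarith [Real.pi_pos]⟩
  have hΨm : StrictMono Ψ := by
    intro t u htu
    apply Real.tanOrderIso.strictMono
    have h1 := hΦ t u htu (hmemT t).2.2
    have h2 : Φ t / T < Φ u / T := div_lt_div_of_pos_right h1 hTpos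
    change Real.pi * (Φ t / T - 1 / 2) < Real.pi * (Φ u / T - 1 / 2)
    have := Real.pi_pos
    nlinarith
  have hΨs : Function.Surjective Ψ := by
    intro y
    obtain ⟨⟨θ, h1, h2⟩, rfl⟩ := Real.tanOrderIso.surjective y
    have hpi := Real.pi_pos
    have hr1 : 0 < T * (θ / Real.pi + 1 / 2) := by
      apply mul_pos hTpos
      have : -(1 / 2) < θ / Real.pi := by rw [lt_div_iff₀ hpi]; linarith
      linarith
    have hr2 : T * (θ / Real.pi + 1 / 2) < T := by
      have : θ / Real.pi < 1 / 2 := by rw [div_lt_iff₀ hpi]; linarith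
      nlinarith
    obtain ⟨t, ht1, ht2⟩ := hsurj _ hr1.le hr2
    have hto : pt o z0 < t := by
      by_contra hcon
      rcases (not_lt.mp hcon).lt_or_eq with h | h
      · have := hΦ _ _ h ht1
        have h0 : Φ (pt o z0) = 0 := by simp [Φ, hF0, z0]
        rw [h0, ht2] at this
        linarith
      · have h0 : Φ (pt o z0) = 0 := by simp [Φ, hF0, z0]
        rw [h, h0] at ht2
        linarith
    refine ⟨⟨t, hto, LR_lt.mpr (Or.inl ht1)⟩, ?_⟩
    simp only [Ψ]
    congr 1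
    apply Subtype.ext
    change Real.pi * (Φ t / T - 1 / 2) = θ
    rw [ht2]
    field_simp
    ring
  exact ⟨(hΨm.orderIsoOfSurjective Ψ hΨs).toHomeomorph⟩

end

end Pool.Agent.X203.NHM
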