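import Mathlib
import Pool.Agent.X203.NHB
import Pool.Agent.X203.NHC

set_option linter.unusedSectionVars false
set_option linter.unusedSimpArgs false

/-! A surface with a point which cannot be separated from the points of a long ray. -/

namespace Pool.Agent.X203.NHM

open Set Topology Classical

/-- the open rectangles of a block -/
def InR (k : ℕ) (s h : ℝ) : Prop :=
  1 / ((k : ℝ) + 3) < s ∧ s < 1 - 1 / ((k : ℝ) + 3) ∧ 1 / ((k : ℝ) + 2) < h ∧
    h < 1 / ((k : ℝ) + 1)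

/-- the union of the first `m` closed rectangles of a block -/
def InQ (m : ℕ) (s h : ℝ) : Prop :=
  ∃ k < m, 1 / ((k : ℝ) + 3) ≤ s ∧ s ≤ 1 - 1 / ((k : ℝ) + 3) ∧ 1 / ((k : ℝ) + 2) ≤ h ∧
    h ≤ 1 / ((k : ℝ) + 1)

lemma InR_pos {k : ℕ} {s h : ℝ} (H : InR k s h) : 0 < s ∧ s < 1 ∧ 0 < h := by
  obtain ⟨h1, h2, h3, h4⟩ := H
  have e1 : 0 < 1 / ((k : ℝ) + 3) := by positivity
  have e2 : 0 < 1 / ((k : ℝ) + 2) := by positivity
  exact ⟨by linarith, by linarith, by linarith⟩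

lemma lev_lt {k k' : ℕ} {h : ℝ} (h1 : 1 / ((k : ℝ) + 2) < h) (h2 : h ≤ 1 / ((k' : ℝ) + 1)) :
    k' ≤ k := by
  by_contra hcon
  have h3 : (k : ℝ) + 1 ≤ k' := by exact_mod_cast (by omega : k + 1 ≤ k')
  have h4 : 1 / ((k' : ℝ) + 1) ≤ 1 / ((k : ℝ) + 2) :=
    one_div_le_one_div_of_le (by positivity) (by linarith)
  linarith

lemma lev_lt' {k k' : ℕ} {h : ℝ} (h1 : 1 / ((k : ℝ) + 2) ≤ h) (h2 : h < 1 / ((k' : ℝ) + 1)) :
    k' ≤ k := by
  by_contra hcon
  have h3 : (k : ℝ) + 1 ≤ k' := by exact_mod_cast (by omega : k + 1 ≤ k')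
  have h4 : 1 / ((k' : ℝ) + 1) ≤ 1 / ((k : ℝ) + 2) :=
    one_div_le_one_div_of_le (by positivity) (by linarith)
  linarith

lemma InR_unique {k k' : ℕ} {s s' h : ℝ} (H : InR k s h) (H' : InR k' s' h) : k = k' :=
  le_antisymm (lev_lt H'.2.2.1 H.2.2.2.le) (lev_lt H.2.2.1 H'.2.2.2.le)

lemma InQ_iff_of_InR {k m : ℕ} {s h : ℝ} (H : InR k s h) : InQ m s h ↔ k < m := by
  constructor
  · rintro ⟨k', hk', -, -, h3, h4⟩
    have h5 := lev_lt' h3 H.2.2.2
    omega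
  · intro hk
    exact ⟨k, hk, H.1.le, H.2.1.le, H.2.2.1.le, H.2.2.2.le⟩

/-- scale factors -/
noncomputable def cc (k j : ℕ) : ℝ := (1 / 2) ^ (j + 1) / ((k : ℝ) + 1)

lemma cc_pos (k j : ℕ) : 0 < cc k j := by unfold cc; positivity

/-- the rectangles in the plane -/
noncomputable def wm (k j : ℕ) (s h : ℝ) : ℝ × ℝ := (cc k j * (1 + s), h)

lemma wm_inj {k k' j j' : ℕ} {s s' h h' : ℝ} (H : InR k s h) (H' : InR k' s' h')
    (he : wm k j s h = wm k' j' s' h') : k = k' ∧ j = j' ∧ s = s' ∧ h = h' := by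
  simp only [wm, Prod.mk.injEq] at he
  obtain ⟨h1, rfl⟩ := he
  have hk := InR_unique H H'
  subst hk
  obtain ⟨p1, p2, _⟩ := InR_pos H
  obtain ⟨p3, p4, _⟩ := InR_pos H'
  have key : ∀ j j' : ℕ, ∀ s s' : ℝ, 0 < s → s < 1 → 0 < s' → s' < 1 →
      cc k j * (1 + s) = cc k j' * (1 + s') → j' ≤ j := by
    intro j j' s s' q1 q2 q3 q4 he
    by_contra hcon
    have hjj : j + 1 ≤ j' := by omega
    have e1 : ((1 : ℝ) / 2) ^ (j' + 1) ≤ (1 / 2) ^ (j + 2) :=
      pow_le_pow_of_le_one (by norm_num) (by norm_num) (by omega)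
    have e2 : cc k j' ≤ cc k j / 2 := by
      unfold cc
      rw [div_div, mul_comm ((k : ℝ) + 1) 2, ← div_div]
      apply div_le_div_of_nonneg_right _ (by positivity)
      calc ((1 : ℝ) / 2) ^ (j' + 1) ≤ (1 / 2) ^ (j + 2) := e1
        _ = (1 / 2) ^ (j + 1) / 2 := by ring
    have e3 := cc_pos k j
    have e4 : cc k j' * (1 + s') ≤ cc k j / 2 * (1 + s') :=
      mul_le_mul_of_nonneg_right e2 (by linarith)
    nlinarith
  have hj : j = j' := le_antisymm (key j' j s' s p3 p4 p1 p2 h1.symm) (key j j' s s' p1 p2 p3 p4 h1)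
  subst hj
  have := mul_left_cancel₀ (cc_pos k j).ne' h1
  exact ⟨rfl, rfl, by linarith, rfl⟩

section
variable {Ω : Type} [LinearOrder Ω] [WellFoundedLT Ω]
variable (hc : ∀ a : Ω, (Iio a).Countable)

/-- the key of a point in the chart `l` -/
noncomputable def key (l : Ω) (p : LR Ω × ℝ) : ℕ :=
  if InQ (mm hc l (c1 p.1)) (c2 p.1) p.2 then mm hc l (c1 p.1) + 1 else 0

/-- the name of a point in the chart `l` -/
noncomputable def nam (l : Ω) (p : LR Ω × ℝ) : (ℝ × ℝ) ⊕ (LR Ω × ℝ × ℕ) :=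
  if h : ∃ k, mm hc l (c1 p.1) ≤ k ∧ InR k (c2 p.1) p.2 then
    Sum.inl (wm (Classical.choose h) (ff hc (c1 p.1) (Classical.choose h)) (c2 p.1) p.2)
  else Sum.inr (p.1, p.2, key hc l p)

lemma nam_R {l : Ω} {p : LR Ω × ℝ} {k : ℕ} (h1 : mm hc l (c1 p.1) ≤ k)
    (h2 : InR k (c2 p.1) p.2) : nam hc l p = Sum.inl (wm k (ff hc (c1 p.1) k) (c2 p.1) p.2) := by
  unfold nam
  have h : ∃ k, mm hc l (c1 p.1) ≤ k ∧ InR k (c2 p.1) p.2 := ⟨k, h1, h2⟩
  rw [dif_pos h]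
  have : Classical.choose h = k := InR_unique (Classical.choose_spec h).2 h2
  rw [this]

lemma nam_notR {l : Ω} {p : LR Ω × ℝ} (h : ¬ ∃ k, mm hc l (c1 p.1) ≤ k ∧ InR k (c2 p.1) p.2) :
    nam hc l p = Sum.inr (p.1, p.2, key hc l p) := by
  unfold nam
  rw [dif_neg h]

variable (o : Ω)

/-- the strips -/
def SS (l : Ω) : Set (LR Ω × ℝ) := Ioo (pt o z0) (pt l z0) ×ˢ univ

lemma SS_open (l : Ω) : IsOpen (SS o l) := isOpen_Ioo.prod isOpen_univ

lemma lt_of_SS {l : Ω} {p : LR Ω × ℝ} (h : p ∈ SS o l) : c1 p.1 < l := by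
  have h2 := h.1.2
  rw [LR_lt] at h2
  rcases h2 with h | h
  · exact h
  · exact absurd h.2 (not_lt.mpr (c2_mem _).1)

lemma nam_inj {l : Ω} {p q : LR Ω × ℝ} (hp : p ∈ SS o l) (hq : q ∈ SS o l)
    (h : nam hc l p = nam hc l q) : p = q := by
  have hp' := (lt_of_SS o hp).le
  have hq' := (lt_of_SS o hq).le
  by_cases h1 : ∃ k, mm hc l (c1 p.1) ≤ k ∧ InR k (c2 p.1) p.2
  · obtain ⟨k, hk1, hk2⟩ := h1
    rw [nam_R hc hk1 hk2] at h
    by_cases h2 : ∃ k, mm hc l (c1 q.1) ≤ k ∧ InR k (c2 q.1) q.2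
    · obtain ⟨k', hk1', hk2'⟩ := h2
      rw [nam_R hc hk1' hk2'] at h
      obtain ⟨e1, e2, e3, e4⟩ := wm_inj hk2 hk2' (Sum.inl_injective h)
      subst e1
      have e5 : c1 p.1 = c1 q.1 := by
        by_contra hne
        exact ff_ne hc hp' hq' hne hk1 hk1' e2
      exact Prod.ext (LR_ext e5 e3) e4
    · rw [nam_notR hc h2] at h
      exact absurd h (by simp)
  · rw [nam_notR hc h1] at h
    by_cases h2 : ∃ k, mm hc l (c1 q.1) ≤ k ∧ InR k (c2 q.1) q.2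
    · obtain ⟨k', hk1', hk2'⟩ := h2
      rw [nam_R hc hk1' hk2'] at h
      exact absurd h (by simp)
    · rw [nam_notR hc h2] at h
      have := Sum.inr_injective h
      simp only [Prod.mk.injEq] at this
      exact Prod.ext this.1 this.2.1

variable (hnm : ∀ a : Ω, ∃ b, a < b)

/-- open block chart -/
def b2 (α : Ω) (q : Ioo (0 : ℝ) 1 × ℝ) : LR Ω × ℝ := (bl α q.1, q.2)

include hnm in
lemma b2_open (α : Ω) : IsOpenEmbedding (b2 (Ω := Ω) α) :=
  (bl_open hnm α).prodMap IsOpenEmbedding.id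

/-- the rectangle embedded in the plane -/
noncomputable def w2 (k j : ℕ) (q : Ioo (0 : ℝ) 1 × ℝ) : ℝ × ℝ := wm k j q.1 q.2

lemma w2_open (k j : ℕ) : IsOpenEmbedding (w2 k j) := by
  have h1 : IsOpenEmbedding (fun s : Ioo (0 : ℝ) 1 => cc k j * (1 + (s : ℝ))) :=
    (Homeomorph.mulLeft₀ (cc k j) (cc_pos k j).ne').isOpenEmbedding.comp
      ((Homeomorph.addLeft (1 : ℝ)).isOpenEmbedding.comp isOpen_Ioo.isOpenEmbedding_subtypeVal)
  exact h1.prodMap IsOpenEmbedding.id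

/-- the open rectangle in block coordinates -/
def rR (k : ℕ) : Set (Ioo (0 : ℝ) 1 × ℝ) := {q | InR k q.1 q.2}

lemma rR_open (k : ℕ) : IsOpen (rR k) := by
  have e : rR k = ((fun q : Ioo (0 : ℝ) 1 × ℝ => (q.1 : ℝ)) ⁻¹'
      Ioo (1 / ((k : ℝ) + 3)) (1 - 1 / ((k : ℝ) + 3))) ∩
      ((fun q : Ioo (0 : ℝ) 1 × ℝ => q.2) ⁻¹' Ioo (1 / ((k : ℝ) + 2)) (1 / ((k : ℝ) + 1))) := by
    ext q
    simp only [rR, InR, Set.mem_ofPred_eq, mem_inter_iff, mem_preimage, mem_Ioo, and_assoc]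
  rw [e]
  exact (isOpen_Ioo.preimage (by fun_prop)).inter (isOpen_Ioo.preimage (by fun_prop))

include hnm in
lemma O1 (l : Ω) {V : Set (ℝ × ℝ)} (hV : IsOpen V) :
    IsOpen {p | p ∈ SS o l ∧ ∃ b ∈ V, nam hc l p = Sum.inl b} := by
  have : {p | p ∈ SS o l ∧ ∃ b ∈ V, nam hc l p = Sum.inl b} =
      SS o l ∩ ⋃ (α : Ω) (k : ℕ) (_ : mm hc l α ≤ k),
        b2 α '' (rR k ∩ (w2 k (ff hc α k)) ⁻¹' V) := by
    ext p
    simp only [Set.mem_ofPred_eq, mem_inter_iff, mem_iUnion, mem_image, mem_preimage]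
    constructor
    · rintro ⟨hp, b, hb, hn⟩
      refine ⟨hp, ?_⟩
      by_cases h1 : ∃ k, mm hc l (c1 p.1) ≤ k ∧ InR k (c2 p.1) p.2
      · obtain ⟨k, hk1, hk2⟩ := h1
        rw [nam_R hc hk1 hk2] at hn
        have hb' := Sum.inl_injective hn
        obtain ⟨e1, e2, e3⟩ := InR_pos hk2
        refine ⟨c1 p.1, k, hk1, (⟨c2 p.1, e1, e2⟩, p.2), ⟨hk2, ?_⟩, ?_⟩
        · rw [← hb'] at hb; exact hb
        · exact Prod.ext (LR_ext rfl rfl) rfl
      · rw [nam_notR hc h1] at hn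
        exact absurd hn (by simp)
    · rintro ⟨hp, α, k, hk, q, ⟨hq1, hq2⟩, rfl⟩
      exact ⟨hp, _, hq2, nam_R hc (p := b2 α q) hk hq1⟩
  rw [this]
  refine (SS_open o l).inter (isOpen_iUnion fun α => isOpen_iUnion fun k => isOpen_iUnion fun _ => ?_)
  exact (b2_open hnm α).isOpenMap _ ((rR_open k).inter (hV.preimage (w2_open k _).continuous))

include hnm in
lemma O2 (l : Ω) {V : Set (LR Ω × ℝ)} (hV : IsOpen V) :
    IsOpen {b | ∃ p, p ∈ V ∧ p ∈ SS o l ∧ nam hc l p = Sum.inl b} := by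
  have : {b | ∃ p, p ∈ V ∧ p ∈ SS o l ∧ nam hc l p = Sum.inl b} =
      ⋃ (α : Ω) (k : ℕ) (_ : mm hc l α ≤ k),
        w2 k (ff hc α k) '' (rR k ∩ (b2 α) ⁻¹' (V ∩ SS o l)) := by
    ext b
    simp only [Set.mem_ofPred_eq, mem_inter_iff, mem_iUnion, mem_image, mem_preimage]
    constructor
    · rintro ⟨p, hpV, hp, hn⟩
      by_cases h1 : ∃ k, mm hc l (c1 p.1) ≤ k ∧ InR k (c2 p.1) p.2
      · obtain ⟨k, hk1, hk2⟩ := h1
        rw [nam_R hc hk1 hk2] at hn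
        have hb' := Sum.inl_injective hn
        obtain ⟨e1, e2, e3⟩ := InR_pos hk2
        have e4 : b2 (c1 p.1) (⟨c2 p.1, e1, e2⟩, p.2) = p := Prod.ext (LR_ext rfl rfl) rfl
        refine ⟨c1 p.1, k, hk1, (⟨c2 p.1, e1, e2⟩, p.2), ⟨hk2, ?_⟩, hb'⟩
        rw [e4]
        exact ⟨hpV, hp⟩
      · rw [nam_notR hc h1] at hn
        exact absurd hn (by simp)
    · rintro ⟨α, k, hk, q, ⟨hq1, hq2⟩, rfl⟩
      exact ⟨b2 α q, hq2.1, hq2.2, nam_R hc (p := b2 α q) hk hq1⟩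
  rw [this]
  refine isOpen_iUnion fun α => isOpen_iUnion fun k => isOpen_iUnion fun _ => ?_
  exact (w2_open k _).isOpenMap _ ((rR_open k).inter
    ((hV.inter (SS_open o l)).preimage (b2_open hnm α).continuous))

/-- the closed rectangles of a block are closed -/
lemma closed_Q (α : Ω) (m : ℕ) :
    IsClosed {p : LR Ω × ℝ | c1 p.1 = α ∧ InQ m (c2 p.1) p.2} := by
  have e : {p : LR Ω × ℝ | c1 p.1 = α ∧ InQ m (c2 p.1) p.2} =
      ⋃ k ∈ Finset.range m, {p : LR Ω × ℝ | (c1 p.1 = α ∧ 1 / ((k : ℝ) + 3) ≤ c2 p.1 ∧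
        c2 p.1 ≤ 1 - 1 / ((k : ℝ) + 3)) ∧ 1 / ((k : ℝ) + 2) ≤ p.2 ∧ p.2 ≤ 1 / ((k : ℝ) + 1)} := by
    ext p
    simp only [InQ, Set.mem_ofPred_eq, mem_iUnion, Finset.mem_range, exists_prop]
    constructor
    · rintro ⟨h1, k, h2, h3, h4, h5, h6⟩
      exact ⟨k, h2, ⟨h1, h3, h4⟩, h5, h6⟩
    · rintro ⟨k, h2, ⟨h1, h3, h4⟩, h5, h6⟩
      exact ⟨h1, k, h2, h3, h4, h5, h6⟩
  rw [e]
  refine isClosed_biUnion_finset fun k _ => ?_
  have hk : 0 < 1 / ((k : ℝ) + 3) := by positivity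
  have hk3 : 1 / ((k : ℝ) + 3) ≤ 1 / 3 := by
    apply one_div_le_one_div_of_le (by norm_num)
    have : (0 : ℝ) ≤ k := Nat.cast_nonneg k
    linarith
  have h1 : IsClosed {t : LR Ω | c1 t = α ∧ 1 / ((k : ℝ) + 3) ≤ c2 t ∧
      c2 t ≤ 1 - 1 / ((k : ℝ) + 3)} := by
    have : {t : LR Ω | c1 t = α ∧ 1 / ((k : ℝ) + 3) ≤ c2 t ∧ c2 t ≤ 1 - 1 / ((k : ℝ) + 3)} =
        Icc (pt α ⟨1 / ((k : ℝ) + 3), hk.le, by linarith⟩)
          (pt α ⟨1 - 1 / ((k : ℝ) + 3), by linarith, by linarith⟩) := by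
      ext t
      simp only [Set.mem_ofPred_eq, mem_Icc, LR_le, c1_pt, c2_pt]
      constructor
      · rintro ⟨rfl, h2, h3⟩
        exact ⟨Or.inr ⟨rfl, h2⟩, Or.inr ⟨rfl, h3⟩⟩
      · rintro ⟨h2, h3⟩
        have e1 : α ≤ c1 t := by rcases h2 with h | h; exacts [h.le, h.1.le]
        have e2 : c1 t ≤ α := by rcases h3 with h | h; exacts [h.le, h.1.le]
        have e3 : c1 t = α := le_antisymm e2 e1
        refine ⟨e3, ?_, ?_⟩
        · rcases h2 with h | h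
          · exact absurd h (not_lt.mpr e2)
          · exact h.2
        · rcases h3 with h | h
          · exact absurd h (not_lt.mpr e1)
          · exact h.2
    rw [this]
    exact isClosed_Icc
  exact (h1.preimage continuous_fst).inter (isClosed_Icc.preimage continuous_snd)

lemma key_eq_iff {l m : Ω} {p : LR Ω × ℝ} (hne : mm hc l (c1 p.1) ≠ mm hc m (c1 p.1)) :
    key hc l p = key hc m p ↔
      ¬ InQ (max (mm hc l (c1 p.1)) (mm hc m (c1 p.1))) (c2 p.1) p.2 := by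
  have hmono : ∀ {a b : ℕ} {s h : ℝ}, a ≤ b → InQ a s h → InQ b s h := by
    rintro a b s h hab ⟨k, hk, H⟩
    exact ⟨k, hk.trans_le hab, H⟩
  unfold key
  constructor
  · intro he hQ
    rcases le_total (mm hc l (c1 p.1)) (mm hc m (c1 p.1)) with h | h
    · rw [max_eq_right h] at hQ
      rw [if_pos hQ] at he
      split_ifs at he with h1
      omega
    · rw [max_eq_left h] at hQ
      rw [if_pos hQ] at he
      split_ifs at he with h1
      omega
  · intro hQ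
    rw [if_neg fun h => hQ (hmono (le_max_left _ _) h),
      if_neg fun h => hQ (hmono (le_max_right _ _) h)]

lemma O3 (l m : Ω) {V : Set (LR Ω × ℝ)} (hV : IsOpen V) :
    IsOpen {p | p ∈ SS o l ∧ p ∈ SS o m ∧ p ∈ V ∧ key hc l p = key hc m p} := by
  -- the finite set of bad blocks
  have hfin : {α : Ω | α < l ∧ α < m ∧ mm hc l α ≠ mm hc m α}.Finite := by
    rcases le_total m l with h | h
    · refine (mm_coh hc h).subset ?_
      rintro α ⟨_, h2, h3⟩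
      exact ⟨h2.le, h3⟩
    · refine (mm_coh hc h).subset ?_
      rintro α ⟨h1, _, h3⟩
      exact ⟨h1.le, h3.symm⟩
  have : {p | p ∈ SS o l ∧ p ∈ SS o m ∧ p ∈ V ∧ key hc l p = key hc m p} =
      (SS o l ∩ SS o m ∩ V) ∩ (⋃ α ∈ {α : Ω | α < l ∧ α < m ∧ mm hc l α ≠ mm hc m α},
        {p : LR Ω × ℝ | c1 p.1 = α ∧ InQ (max (mm hc l α) (mm hc m α)) (c2 p.1) p.2})ᶜ := by
    ext p
    simp only [Set.mem_ofPred_eq, mem_inter_iff, mem_compl_iff, mem_iUnion, exists_prop, not_exists,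
      not_and]
    constructor
    · rintro ⟨h1, h2, h3, h4⟩
      refine ⟨⟨⟨h1, h2⟩, h3⟩, ?_⟩
      rintro α h7 rfl
      exact (key_eq_iff hc h7.2.2).mp h4
    · rintro ⟨⟨⟨h1, h2⟩, h3⟩, h4⟩
      refine ⟨h1, h2, h3, ?_⟩
      by_cases hne : mm hc l (c1 p.1) = mm hc m (c1 p.1)
      · unfold key
        rw [hne]
      · exact (key_eq_iff hc hne).mpr (h4 _ ⟨lt_of_SS o h1, lt_of_SS o h2, hne⟩ rfl)
  rw [this]
  refine (((SS_open o l).inter (SS_open o m)).inter hV).inter ?_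
  exact (hfin.isClosed_biUnion fun α _ => closed_Q α _).isOpen_compl

lemma nam_eq_of_key {l m : Ω} {p : LR Ω × ℝ} (h : key hc l p = key hc m p) :
    nam hc l p = nam hc m p := by
  by_cases hR : ∃ k, InR k (c2 p.1) p.2
  · obtain ⟨k, hk⟩ := hR
    have hiff : mm hc l (c1 p.1) ≤ k ↔ mm hc m (c1 p.1) ≤ k := by
      unfold key at h
      rw [← not_lt, ← not_lt, ← InQ_iff_of_InR hk, ← InQ_iff_of_InR hk]
      split_ifs at h with h1 h2 h2
      · simp [h1, h2]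
      · simp [h1, h2]
    by_cases h1 : mm hc l (c1 p.1) ≤ k
    · rw [nam_R hc h1 hk, nam_R hc (hiff.mp h1) hk]
    · have h2 : ¬ mm hc m (c1 p.1) ≤ k := fun h => h1 (hiff.mpr h)
      have e1 : ¬ ∃ k, mm hc l (c1 p.1) ≤ k ∧ InR k (c2 p.1) p.2 := by
        rintro ⟨k', h3, h4⟩
        rw [InR_unique hk h4] at h1
        exact h1 h3
      have e2 : ¬ ∃ k, mm hc m (c1 p.1) ≤ k ∧ InR k (c2 p.1) p.2 := by
        rintro ⟨k', h3, h4⟩
        rw [InR_unique hk h4] at h2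
        exact h2 h3
      rw [nam_notR hc e1, nam_notR hc e2, h]
  · have e1 : ¬ ∃ k, mm hc l (c1 p.1) ≤ k ∧ InR k (c2 p.1) p.2 := by
      rintro ⟨k', _, h4⟩
      exact hR ⟨k', h4⟩
    have e2 : ¬ ∃ k, mm hc m (c1 p.1) ≤ k ∧ InR k (c2 p.1) p.2 := by
      rintro ⟨k', _, h4⟩
      exact hR ⟨k', h4⟩
    rw [nam_notR hc e1, nam_notR hc e2, h]

include hnm in
lemma O4 (l m : Ω) {V : Set (LR Ω × ℝ)} (hV : IsOpen V) :
    IsOpen {p | p ∈ SS o l ∧ ∃ q, q ∈ V ∧ q ∈ SS o m ∧ nam hc l p = nam hc m q} := by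
  have : {p | p ∈ SS o l ∧ ∃ q, q ∈ V ∧ q ∈ SS o m ∧ nam hc l p = nam hc m q} =
      {p | p ∈ SS o l ∧ ∃ b ∈ {b | ∃ p, p ∈ V ∧ p ∈ SS o m ∧ nam hc m p = Sum.inl b},
        nam hc l p = Sum.inl b} ∪
      {p | p ∈ SS o l ∧ p ∈ SS o m ∧ p ∈ V ∧ key hc l p = key hc m p} := by
    ext p
    simp only [Set.mem_ofPred_eq, mem_union]
    constructor
    · rintro ⟨hp, q, hqV, hq, he⟩
      by_cases h1 : ∃ k, mm hc l (c1 p.1) ≤ k ∧ InR k (c2 p.1) p.2
      · obtain ⟨k, hk1, hk2⟩ := h1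
        left
        exact ⟨hp, _, ⟨q, hqV, hq, he ▸ nam_R hc hk1 hk2⟩, nam_R hc hk1 hk2⟩
      · right
        rw [nam_notR hc h1] at he
        by_cases h2 : ∃ k, mm hc m (c1 q.1) ≤ k ∧ InR k (c2 q.1) q.2
        · obtain ⟨k, hk1, hk2⟩ := h2
          rw [nam_R hc hk1 hk2] at he
          exact absurd he (by simp)
        · rw [nam_notR hc h2] at he
          have := Sum.inr_injective he
          simp only [Prod.mk.injEq] at this
          have hpq : p = q := Prod.ext this.1 this.2.1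
          subst hpq
          exact ⟨hp, hq, hqV, this.2.2⟩
    · rintro (⟨hp, b, ⟨q, h1, h2, h3⟩, h4⟩ | ⟨h1, h2, h3, h4⟩)
      · exact ⟨hp, q, h1, h2, h4.trans h3.symm⟩
      · exact ⟨h1, p, h3, h2, nam_eq_of_key hc h4⟩
  rw [this]
  exact (O1 hc o hnm l (O2 hc o hnm m hV)).union (O3 hc o l m hV)

/-- The surface. -/
def XX : Type := {x : (ℝ × ℝ) ⊕ (LR Ω × ℝ × ℕ) //
  (∃ b, x = Sum.inl b) ∨ ∃ l, ∃ p ∈ SS o l, x = nam hc l p}

/-- the plane chart -/
def jB (b : ℝ × ℝ) : XX hc o := ⟨Sum.inl b, Or.inl ⟨b, rfl⟩⟩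

/-- the strip charts -/
noncomputable def jS (l : Ω) (p : SS o l) : XX hc o := ⟨nam hc l p, Or.inr ⟨l, p, p.2, rfl⟩⟩

noncomputable instance : TopologicalSpace (XX hc o) :=
  TopologicalSpace.coinduced (jB hc o) inferInstance ⊔
    ⨆ l, TopologicalSpace.coinduced (jS hc o l) inferInstance

lemma isOpen_XX {U : Set (XX hc o)} :
    IsOpen U ↔ IsOpen (jB hc o ⁻¹' U) ∧ ∀ l, IsOpen (jS hc o l ⁻¹' U) := by
  have h1 : IsOpen U ↔ IsOpen[TopologicalSpace.coinduced (jB hc o) inferInstance] U ∧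
      IsOpen[⨆ l, TopologicalSpace.coinduced (jS hc o l) inferInstance] U :=
    isOpen_sup (t₁ := TopologicalSpace.coinduced (jB hc o) inferInstance)
      (t₂ := ⨆ l, TopologicalSpace.coinduced (jS hc o l) inferInstance) (s := U)
  rw [h1, isOpen_iSup_iff]
  rfl

include hnm in
lemma jB_open : IsOpenEmbedding (jB hc o) := by
  refine IsOpenEmbedding.of_continuous_injective_isOpenMap ?_ ?_ ?_
  · rw [continuous_def]
    intro U hU
    exact ((isOpen_XX hc o).mp hU).1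
  · intro b b' h
    exact Sum.inl_injective (congrArg Subtype.val h)
  · intro V hV
    rw [isOpen_XX]
    constructor
    · have : jB hc o ⁻¹' (jB hc o '' V) = V := by
        ext b
        constructor
        · rintro ⟨b', hb', h⟩
          have := Sum.inl_injective (congrArg Subtype.val h)
          rwa [← this]
        · intro hb
          exact ⟨b, hb, rfl⟩
      rw [this]
      exact hV
    · intro l
      have : jS hc o l ⁻¹' (jB hc o '' V) =
          Subtype.val ⁻¹' {p | p ∈ SS o l ∧ ∃ b ∈ V, nam hc l p = Sum.inl b} := by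
        ext p
        constructor
        · rintro ⟨b, hb, h⟩
          exact ⟨p.2, b, hb, (congrArg Subtype.val h).symm⟩
        · rintro ⟨_, b, hb, h⟩
          exact ⟨b, hb, Subtype.ext h.symm⟩
      rw [this]
      exact (O1 hc o hnm l hV).preimage continuous_subtype_val

include hnm in
lemma jS_open (m : Ω) : IsOpenEmbedding (jS hc o m) := by
  refine IsOpenEmbedding.of_continuous_injective_isOpenMap ?_ ?_ ?_
  · rw [continuous_def]
    intro U hU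
    exact ((isOpen_XX hc o).mp hU).2 m
  · intro p q h
    exact Subtype.ext (nam_inj hc o p.2 q.2 (congrArg Subtype.val h))
  · intro W hW
    obtain ⟨V, hV, rfl⟩ := isOpen_induced_iff.mp hW
    rw [isOpen_XX]
    constructor
    · have : jB hc o ⁻¹' (jS hc o m '' (Subtype.val ⁻¹' V)) =
          {b | ∃ p, p ∈ V ∧ p ∈ SS o m ∧ nam hc m p = Sum.inl b} := by
        ext b
        constructor
        · rintro ⟨p, hp, h⟩
          exact ⟨p, hp, p.2, congrArg Subtype.val h⟩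
        · rintro ⟨p, hp, hp', h⟩
          exact ⟨⟨p, hp'⟩, hp, Subtype.ext h⟩
      rw [this]
      exact O2 hc o hnm m hV
    · intro l
      have : jS hc o l ⁻¹' (jS hc o m '' (Subtype.val ⁻¹' V)) =
          Subtype.val ⁻¹' {p | p ∈ SS o l ∧ ∃ q, q ∈ V ∧ q ∈ SS o m ∧
            nam hc l p = nam hc m q} := by
        ext p
        constructor
        · rintro ⟨q, hq, h⟩
          exact ⟨p.2, q, hq, q.2, (congrArg Subtype.val h).symm⟩
        · rintro ⟨_, q, hq, hq', h⟩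
          exact ⟨⟨q, hq'⟩, hq, Subtype.ext h.symm⟩
      rw [this]
      exact (O4 hc o hnm l m hV).preimage continuous_subtype_val

/-- the base point of the plane chart -/
def x0 : XX hc o := jB hc o (0, 0)

/-- a point of the ray -/
lemma ray_nam (l : Ω) (t : LR Ω) : nam hc l (t, 0) = Sum.inr (t, 0, 0) := by
  have h1 : ¬ ∃ k, mm hc l (c1 (t, (0 : ℝ)).1) ≤ k ∧ InR k (c2 (t, (0 : ℝ)).1) (t, (0 : ℝ)).2 := by
    rintro ⟨k, _, h⟩
    exact lt_irrefl _ (InR_pos h).2.2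
  rw [nam_notR hc h1]
  have h2 : key hc l (t, 0) = 0 := by
    unfold key
    rw [if_neg]
    rintro ⟨k, _, _, _, h3, _⟩
    have : 0 < 1 / ((k : ℝ) + 2) := by positivity
    simp only at h3
    linarith
  rw [h2]

include hnm in
lemma exists_l (t : LR Ω) (ht : pt o z0 < t) : ∃ l, ((t, 0) : LR Ω × ℝ) ∈ SS o l := by
  obtain ⟨l, hl⟩ := hnm (c1 t)
  exact ⟨l, ⟨ht, LR_lt.mpr (Or.inl hl)⟩, mem_univ _⟩

/-- the ray in the surface -/
noncomputable def ry (t : {t : LR Ω // pt o z0 < t}) : XX hc o :=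
  ⟨Sum.inr (t, 0, 0), Or.inr ⟨Classical.choose (exists_l o hnm t t.2), (t, 0),
    Classical.choose_spec (exists_l o hnm t t.2), (ray_nam hc _ _).symm⟩⟩

lemma ry_eq (t : {t : LR Ω // pt o z0 < t}) (l : Ω) (h : ((t, 0) : LR Ω × ℝ) ∈ SS o l) :
    ry hc o hnm t = jS hc o l ⟨(t, 0), h⟩ := Subtype.ext (ray_nam hc l t).symm

lemma ry_emb : IsEmbedding (ry hc o hnm) := by
  have hinj : Function.Injective (ry hc o hnm) := by
    intro t u h
    have := Sum.inr_injective (congrArg Subtype.val h)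
    simp only [Prod.mk.injEq] at this
    exact Subtype.ext this.1
  refine ⟨?_, hinj⟩
  rw [isInducing_iff_nhds]
  intro t
  obtain ⟨l, hl⟩ := exists_l o hnm t t.2
  apply le_antisymm
  · -- continuity at `t`
    rw [← Filter.map_le_iff_le_comap]
    have hopen : IsOpen {u : {t : LR Ω // pt o z0 < t} | ((u, 0) : LR Ω × ℝ) ∈ SS o l} := by
      have : Continuous fun u : {t : LR Ω // pt o z0 < t} => ((u, 0) : LR Ω × ℝ) := by
        fun_prop
      exact (SS_open o l).preimage this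
    intro W hW
    rw [ry_eq hc o hnm t l hl] at hW
    have h1 := (jS_open hc o hnm l).continuous.continuousAt hW
    rw [Filter.mem_map] at h1 ⊢
    rw [mem_nhds_induced] at h1
    obtain ⟨V, hV, hVW⟩ := h1
    have h2 : (fun u : {t : LR Ω // pt o z0 < t} => ((u, 0) : LR Ω × ℝ)) ⁻¹' V ∈ 𝓝 t := by
      have : Continuous fun u : {t : LR Ω // pt o z0 < t} => ((u, 0) : LR Ω × ℝ) := by
        fun_prop
      exact this.continuousAt hV
    filter_upwards [h2, hopen.mem_nhds hl] with u hu1 hu2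
    have h3 : (⟨(u, 0), hu2⟩ : SS o l) ∈ jS hc o l ⁻¹' W := hVW hu1
    change ry hc o hnm u ∈ W
    rw [ry_eq hc o hnm u l hu2]
    exact h3
  · intro W hW
    obtain ⟨V, hV, hVo, htV⟩ := mem_nhds_iff.mp hW
    obtain ⟨V', hV', rfl⟩ := isOpen_induced_iff.mp hVo
    rw [Filter.mem_comap]
    have hO : IsOpen {p : SS o l | (p : LR Ω × ℝ).1 ∈ V'} := by
      exact hV'.preimage (by fun_prop)
    refine ⟨jS hc o l '' {p : SS o l | (p : LR Ω × ℝ).1 ∈ V'}, ?_, ?_⟩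
    · refine ((jS_open hc o hnm l).isOpenMap _ hO).mem_nhds ?_
      exact ⟨⟨(t, 0), hl⟩, htV, (ry_eq hc o hnm t l hl).symm⟩
    · rintro u ⟨p, hp, h⟩
      apply hV
      have h1 := congrArg Subtype.val h
      have h2 : nam hc l p = Sum.inr ((u : LR Ω), 0, 0) := h1
      by_cases h3 : ∃ k, mm hc l (c1 (p : LR Ω × ℝ).1) ≤ k ∧
        InR k (c2 (p : LR Ω × ℝ).1) (p : LR Ω × ℝ).2
      · obtain ⟨k, hk1, hk2⟩ := h3
        rw [nam_R hc hk1 hk2] at h2
        exact absurd h2 (by simp)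
      · rw [nam_notR hc h3] at h2
        have h4 := Sum.inr_injective h2
        simp only [Prod.mk.injEq] at h4
        change (u : LR Ω) ∈ V'
        rw [← h4.1]
        exact hp

/-- The ray points cannot be separated from `x0`. -/
lemma ry_NH (t : {t : LR Ω // pt o z0 < t}) (U V : Set (XX hc o)) (hU : IsOpen U)
    (hV : IsOpen V) (hUt : ry hc o hnm t ∈ U) (hVx : x0 hc o ∈ V) : (U ∩ V).Nonempty := by
  obtain ⟨l, hl⟩ := exists_l o hnm t t.2
  rw [ry_eq hc o hnm t l hl] at hUt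
  -- neighbourhood of the ray point in the strip
  have h1 : IsOpen (jS hc o l ⁻¹' U) := ((isOpen_XX hc o).mp hU).2 l
  obtain ⟨U', hU', hUU⟩ := isOpen_induced_iff.mp h1
  have h2 : ((t, 0) : LR Ω × ℝ) ∈ U' := by
    have : (⟨(t, 0), hl⟩ : SS o l) ∈ Subtype.val ⁻¹' U' := by rw [hUU]; exact hUt
    exact this
  have h3 : U' ∩ SS o l ∈ 𝓝 ((t, 0) : LR Ω × ℝ) :=
    (hU'.inter (SS_open o l)).mem_nhds ⟨h2, hl⟩
  rw [nhds_prod_eq, Filter.mem_prod_iff] at h3
  obtain ⟨A, hA, C, hC, hAC⟩ := h3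
  -- a point in the interior of the block
  obtain ⟨s, hs0, hs1, hsA⟩ : ∃ s : ℝ, ∃ (hs0 : 0 < s) (hs1 : s < 1),
      pt (c1 (t : LR Ω)) ⟨s, hs0.le, hs1⟩ ∈ A := by
    have h4 : (pt (Ω := Ω) (c1 (t : LR Ω))) ⁻¹' A ∈
        𝓝 (⟨c2 (t : LR Ω), c2_mem _⟩ : Ico (0 : ℝ) 1) := by
      apply (block_emb (c1 (t : LR Ω))).continuous.continuousAt
      rw [pt_eta]; exact hA
    rw [mem_nhds_induced] at h4
    obtain ⟨D, hD, hDA⟩ := h4
    obtain ⟨ε, hε, hεD⟩ := Metric.mem_nhds_iff.mp hD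
    have hc2 := c2_mem (t : LR Ω)
    have hlt : c2 (t : LR Ω) < min 1 (c2 (t : LR Ω) + ε) := lt_min hc2.2 (by linarith)
    obtain ⟨s, hs1, hs2⟩ := exists_between hlt
    have hs3 : s < 1 := hs2.trans_le (min_le_left _ _)
    have hs4 : s < c2 (t : LR Ω) + ε := hs2.trans_le (min_le_right _ _)
    have hs0 : 0 < s := hc2.1.trans_lt hs1
    refine ⟨s, hs0, hs3, ?_⟩
    apply hDA
    apply hεD
    rw [Metric.mem_ball, Real.dist_eq, abs_lt]
    change -ε < s - c2 (t : LR Ω) ∧ s - c2 (t : LR Ω) < ε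
    constructor <;> linarith
  obtain ⟨ε, hε, hεC⟩ := Metric.mem_nhds_iff.mp hC
  -- neighbourhood of the origin in the plane
  have h5 : IsOpen (jB hc o ⁻¹' V) := ((isOpen_XX hc o).mp hV).1
  obtain ⟨ε', hε', hεV⟩ := Metric.isOpen_iff.mp h5 (0, 0) hVx
  -- a large level
  have hlim : Filter.Tendsto (fun k : ℕ => 1 / ((k : ℝ) + 1)) Filter.atTop (𝓝 0) :=
    tendsto_one_div_add_atTop_nhds_zero_nat
  have hev : ∀ δ > (0 : ℝ), ∀ᶠ k : ℕ in Filter.atTop, 1 / ((k : ℝ) + 1) < δ :=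
    fun δ hδ => hlim.eventually (gt_mem_nhds hδ)
  have hs1' : 0 < 1 - s := by linarith
  obtain ⟨k, ⟨⟨⟨⟨hk1, hk2⟩, hk3⟩, hk4⟩, hk5⟩⟩ := ((((hev s hs0).and (hev (1 - s) hs1')).and
    (hev ε hε)).and (hev (ε' / 2) (by linarith))).and
    (Filter.eventually_ge_atTop (mm hc l (c1 (t : LR Ω)))) |>.exists
  have hk13 : 1 / ((k : ℝ) + 3) < 1 / ((k : ℝ) + 1) :=
    one_div_lt_one_div_of_lt (by positivity) (by linarith)
  have hk12 : 1 / ((k : ℝ) + 2) < 1 / ((k : ℝ) + 1) :=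
    one_div_lt_one_div_of_lt (by positivity) (by linarith)
  obtain ⟨h, hh1, hh2⟩ := exists_between hk12
  have hh0 : 0 < h := lt_trans (by positivity) hh1
  have hR : InR k s h := ⟨by linarith, by linarith, hh1, hh2⟩
  set p : LR Ω × ℝ := (pt (c1 (t : LR Ω)) ⟨s, hs0.le, hs1⟩, h) with hp
  have hpmem : p ∈ U' ∩ SS o l := by
    apply hAC
    refine ⟨hsA, hεC ?_⟩
    rw [Metric.mem_ball, Real.dist_eq, sub_zero, abs_of_pos hh0]
    linarith
  have hname : nam hc l p = Sum.inl (wm k (ff hc (c1 (t : LR Ω)) k) s h) := by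
    have := nam_R hc (l := l) (p := p) (k := k) hk5 hR
    exact this
  refine ⟨jS hc o l ⟨p, hpmem.2⟩, ?_, ?_⟩
  · have : (⟨p, hpmem.2⟩ : SS o l) ∈ Subtype.val ⁻¹' U' := hpmem.1
    rw [hUU] at this
    exact this
  · have e1 : jS hc o l ⟨p, hpmem.2⟩ = jB hc o (wm k (ff hc (c1 (t : LR Ω)) k) s h) :=
      Subtype.ext hname
    rw [e1]
    apply hεV
    rw [Metric.mem_ball, Prod.dist_eq]
    simp only [wm, Real.dist_eq, sub_zero]
    have hcc : cc k (ff hc (c1 (t : LR Ω)) k) ≤ 1 / ((k : ℝ) + 1) := by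
      unfold cc
      apply div_le_div_of_nonneg_right _ (by positivity)
      exact pow_le_one₀ (by norm_num) (by norm_num)
    have hccp := cc_pos k (ff hc (c1 (t : LR Ω)) k)
    rw [max_lt_iff]
    constructor
    · rw [abs_of_pos (by positivity)]
      nlinarith
    · rw [abs_of_pos hh0]
      linarith

end

end Pool.Agent.X203.NHM
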