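import Mathlib
import Pool.Agent.X203.NHA
import Pool.Agent.X203.NHD

set_option linter.unusedSectionVars false
set_option linter.unusedSimpArgs false

/-! The surface is a connected manifold; embeddings of the long ray and of `ω₁`. -/

namespace Pool.Agent.X203.NHM

open Set Topology Classical

section
variable {Ω : Type} [LinearOrder Ω] [WellFoundedLT Ω]
variable (hc : ∀ a : Ω, (Iio a).Countable) (hnm : ∀ a : Ω, ∃ b, a < b) (o : Ω)
  (ho : ∀ a, o ≤ a)

/-- the plane -/
noncomputable def planeH : (ℝ × ℝ) ≃ₜ EuclideanSpace ℝ (Fin 2) :=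
  (Homeomorph.finTwoArrow (X := ℝ)).symm.trans (EuclideanSpace.equiv (Fin 2) ℝ).symm.toHomeomorph

include hc ho in
lemma SS_homeo {l : Ω} (hl : o < l) : Nonempty (SS o l ≃ₜ ℝ × ℝ) := by
  obtain ⟨e⟩ := seg_homeo hc o l ho hl
  exact ⟨(Homeomorph.Set.prod _ _).trans (e.prodCongr (Homeomorph.Set.univ ℝ))⟩

include hnm ho in
lemma XX_locEuc : LocEuc 2 (XX hc o) := by
  rintro ⟨x, hx⟩
  rcases hx with ⟨b, rfl⟩ | ⟨l, p, hp, rfl⟩
  · refine ⟨range (jB hc o), (jB_open hc o hnm).isOpen_range, ⟨b, rfl⟩, ⟨?_⟩⟩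
    exact (jB_open hc o hnm).isEmbedding.toHomeomorph.symm.trans planeH
  · have hl : o < l := by
      have h1 := hp.1.1.trans hp.1.2
      rw [LR_lt] at h1
      rcases h1 with h | h
      · exact h
      · exact absurd h.2 (lt_irrefl _)
    obtain ⟨e⟩ := SS_homeo hc o ho hl
    refine ⟨range (jS hc o l), (jS_open hc o hnm l).isOpen_range, ⟨⟨p, hp⟩, rfl⟩, ⟨?_⟩⟩
    exact (jS_open hc o hnm l).isEmbedding.toHomeomorph.symm.trans (e.trans planeH)

include hnm ho in
lemma XX_conn : ConnectedSpace (XX hc o) := by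
  -- a point of the ray common to all strips
  have hhalf : ((1 : ℝ) / 2) ∈ Ico (0 : ℝ) 1 := by constructor <;> norm_num
  have ht0 : pt o z0 < pt o ⟨1 / 2, hhalf⟩ := LR_lt.mpr (Or.inr ⟨rfl, by simp [z0]⟩)
  let t0 : {t : LR Ω // pt o z0 < t} := ⟨pt o ⟨1 / 2, hhalf⟩, ht0⟩
  have hmem : ∀ l, o < l → ((t0, 0) : LR Ω × ℝ) ∈ SS o l := by
    intro l hl
    exact ⟨⟨ht0, LR_lt.mpr (Or.inl hl)⟩, mem_univ _⟩
  have hS : ∀ l, o < l → IsPreconnected (range (jS hc o l)) := by
    intro l hl
    obtain ⟨e⟩ := SS_homeo hc o ho hl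
    have : range (jS hc o l) = range (jS hc o l ∘ e.symm) := by
      rw [range_comp, e.symm.range_coe, image_univ]
    rw [this]
    exact isPreconnected_range ((jS_open hc o hnm l).continuous.comp e.symm.continuous)
  have hB : IsPreconnected (range (jB hc o)) :=
    isPreconnected_range (jB_open hc o hnm).continuous
  have hpre : IsPreconnected (univ : Set (XX hc o)) := by
    apply isPreconnected_of_forall (ry hc o hnm t0)
    rintro ⟨x, hx⟩ -
    rcases hx with ⟨b, rfl⟩ | ⟨l, p, hp, rfl⟩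
    · obtain ⟨l, hl⟩ := hnm o
      obtain ⟨y, hy1, hy2⟩ := ry_NH hc o hnm t0 (range (jS hc o l)) (range (jB hc o))
        (jS_open hc o hnm l).isOpen_range (jB_open hc o hnm).isOpen_range
        ⟨⟨(t0, 0), hmem l hl⟩, (ry_eq hc o hnm t0 l (hmem l hl)).symm⟩ ⟨(0, 0), rfl⟩
      refine ⟨range (jS hc o l) ∪ range (jB hc o), subset_univ _, Or.inl ?_, Or.inr ⟨b, rfl⟩, ?_⟩
      · exact ⟨⟨(t0, 0), hmem l hl⟩, (ry_eq hc o hnm t0 l (hmem l hl)).symm⟩
      · exact IsPreconnected.union y hy1 hy2 (hS l hl) hB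
    · have hl : o < l := by
        have h1 := hp.1.1.trans hp.1.2
        rw [LR_lt] at h1
        rcases h1 with h | h
        · exact h
        · exact absurd h.2 (lt_irrefl _)
      exact ⟨range (jS hc o l), subset_univ _,
        ⟨⟨(t0, 0), hmem l hl⟩, (ry_eq hc o hnm t0 l (hmem l hl)).symm⟩, ⟨⟨p, hp⟩, rfl⟩, hS l hl⟩
  have : PreconnectedSpace (XX hc o) := ⟨hpre⟩
  exact { toNonempty := ⟨x0 hc o⟩ }

/-- the shift of the long ray into itself off its initial point -/
noncomputable def shf (t : LR Ω) : LR Ω :=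
  if c1 t = o then pt o ⟨(1 + c2 t) / 2, by
    have := c2_mem t
    constructor
    · linarith [this.1]
    · linarith [this.2]⟩
  else t

include ho in
lemma shf_lt (t : LR Ω) : pt o z0 < shf o t := by
  unfold shf
  have h2 := c2_mem t
  split_ifs with h
  · refine LR_lt.mpr (Or.inr ⟨rfl, ?_⟩)
    simp only [c2_pt, z0]
    linarith [h2.1]
  · exact LR_lt.mpr (Or.inl (lt_of_le_of_ne (ho _) (Ne.symm h)))

include ho in
lemma shf_mono : StrictMono (shf (Ω := Ω) o) := by
  intro t u htu
  unfold shf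
  rw [LR_lt] at htu
  split_ifs with h1 h2 h2
  · rcases htu with h | h
    · rw [h1, h2] at h; exact (lt_irrefl _ h).elim
    · refine LR_lt.mpr (Or.inr ⟨rfl, ?_⟩)
      simp only [c2_pt]
      linarith [h.2]
  · refine LR_lt.mpr (Or.inl ?_)
    rcases htu with h | h
    · rw [c1_pt, ← h1]; exact h
    · exact (h2 (h.1 ▸ h1)).elim
  · rcases htu with h | h
    · rw [h2] at h; exact (not_lt.mpr (ho _) h).elim
    · exact (h1 (h.1.trans h2)).elim
  · exact LR_lt.mpr htu

include ho in
lemma shf_emb : IsEmbedding (shf (Ω := Ω) o) := by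
  apply (shf_mono o ho).isEmbedding_of_ordConnected
  have hhalf : ((1 : ℝ) / 2) ∈ Ico (0 : ℝ) 1 := by constructor <;> norm_num
  have : range (shf (Ω := Ω) o) = Ici (pt o ⟨1 / 2, hhalf⟩) := by
    ext t
    constructor
    · rintro ⟨u, rfl⟩
      unfold shf
      have h2 := c2_mem u
      split_ifs with h
      · refine LR_le.mpr (Or.inr ⟨rfl, ?_⟩)
        simp only [c2_pt]
        linarith [h2.1]
      · exact LR_le.mpr (Or.inl (lt_of_le_of_ne (ho _) (Ne.symm h)))
    · intro ht
      have ht' : pt o ⟨1 / 2, hhalf⟩ ≤ t := ht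
      rw [LR_le] at ht'
      by_cases h : c1 t = o
      · have h3 : 1 / 2 ≤ c2 t := by
          rcases ht' with h' | h'
          · rw [h] at h'; exact (lt_irrefl _ h').elim
          · exact h'.2
        have h4 := c2_mem t
        refine ⟨pt o ⟨2 * c2 t - 1, by constructor <;> linarith [h4.2]⟩, ?_⟩
        unfold shf
        rw [if_pos (c1_pt _ _)]
        refine LR_ext h.symm ?_
        simp only [c2_pt]
        ring
      · refine ⟨t, ?_⟩
        unfold shf
        rw [if_neg h]
  rw [this]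
  exact ordConnected_Ici

/-- the copy of `Ω` in the long ray -/
def omg (α : Ω) : LR Ω := pt α z0

include hnm in
/-- `Ω` with its order topology embeds in the long ray. -/
lemma omg_emb [TopologicalSpace Ω] [OrderTopology Ω] : IsEmbedding (omg (Ω := Ω)) := by
  have hinj : Function.Injective (omg (Ω := Ω)) := fun a b h => congrArg c1 h
  refine ⟨⟨?_⟩, hinj⟩
  apply le_antisymm
  · -- continuity
    rw [← continuous_iff_le_induced]
    rw [OrderTopology.topology_eq_generate_intervals (α := LR Ω)]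
    rw [continuous_generateFrom_iff]
    rintro s ⟨t, rfl | rfl⟩
    · have : omg ⁻¹' Ioi t = Ioi (c1 t) := by
        ext a
        simp only [mem_preimage, mem_Ioi, omg, LR_lt, c1_pt, c2_pt, z0]
        constructor
        · rintro (h | h)
          · exact h
          · exact absurd h.2 (not_lt.mpr (c2_mem t).1)
        · exact fun h => Or.inl h
      rw [this]
      exact isOpen_Ioi
    · by_cases h0 : c2 t = 0
      · have : omg ⁻¹' Iio t = Iio (c1 t) := by
          ext a
          simp only [mem_preimage, mem_Iio, omg, LR_lt, c1_pt, c2_pt, z0, h0]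
          simp
        rw [this]
        exact isOpen_Iio
      · obtain ⟨β, hβ, hmin⟩ := exists_succ hnm (c1 t)
        have : omg ⁻¹' Iio t = Iio β := by
          ext a
          simp only [mem_preimage, mem_Iio, omg, LR_lt, c1_pt, c2_pt, z0]
          have hpos : 0 < c2 t := lt_of_le_of_ne (c2_mem t).1 (Ne.symm h0)
          constructor
          · rintro (h | h)
            · exact h.trans hβ
            · exact h.1 ▸ hβ
          · intro h
            rcases lt_trichotomy a (c1 t) with h1 | h1 | h1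
            · exact Or.inl h1
            · exact Or.inr ⟨h1, hpos⟩
            · exact absurd (hmin a h1) (not_le.mpr h)
        rw [this]
        exact isOpen_Iio
  · rw [OrderTopology.topology_eq_generate_intervals (α := Ω)]
    apply le_generateFrom
    rintro s ⟨a, rfl | rfl⟩
    · refine isOpen_induced_iff.mpr ⟨Ioi (pt a z0), isOpen_Ioi, ?_⟩
      ext b
      simp [omg, LR_lt, z0]
    · refine isOpen_induced_iff.mpr ⟨Iio (pt a z0), isOpen_Iio, ?_⟩
      ext b
      simp [omg, LR_lt, z0]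

end

/-- The points not separated from `z`. -/
def NH {M : Type} [TopologicalSpace M] (z : M) : Set M :=
  {y | y ≠ z ∧ ∀ U V : Set M, IsOpen U → IsOpen V → y ∈ U → z ∈ V → (U ∩ V).Nonempty}

/-- Main theorem. -/
theorem main {Ω : Type} [LinearOrder Ω] [WellFoundedLT Ω]
    (hc : ∀ a : Ω, (Iio a).Countable) (hnm : ∀ a : Ω, ∃ b, a < b) (o : Ω) (ho : ∀ a, o ≤ a) :
    ∃ (M : Type) (_ : TopologicalSpace M), ConnectedSpace M ∧ LocEuc 2 M ∧ Homog M ∧
      ∀ z : M, ∃ e : LR Ω → NH z, IsEmbedding e := by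
  have h1 := XX_locEuc hc hnm o ho
  have h2 := XX_conn hc hnm o ho
  obtain ⟨M, tM, h3, h4, h5, j, hj⟩ := homogenize h1
  refine ⟨M, tM, h3, h4, h5, fun z => ?_⟩
  obtain ⟨h, hh⟩ := h5 (j (x0 hc o)) z
  -- the embedding
  let g : LR Ω → {t : LR Ω // pt o z0 < t} := fun t => ⟨shf o t, shf_lt o ho t⟩
  have hg : IsEmbedding g := (shf_emb o ho).codRestrict _ _
  let f : LR Ω → M := fun t => h (j (ry hc o hnm (g t)))
  have hf : IsEmbedding f := h.isEmbedding.comp (hj.isEmbedding.comp ((ry_emb hc o hnm).comp hg))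
  have hfz : ∀ t, f t ∈ NH z := by
    intro t
    refine ⟨?_, ?_⟩
    · rw [← hh]
      intro he
      have he' := hj.injective (h.injective he)
      have := congrArg Subtype.val he'
      exact absurd this (by simp [ry, x0, jB])
    · intro U V hU hV hUt hVz
      have := ry_NH hc o hnm (g t) (j ⁻¹' (h ⁻¹' U)) (j ⁻¹' (h ⁻¹' V))
        ((hU.preimage h.continuous).preimage hj.continuous)
        ((hV.preimage h.continuous).preimage hj.continuous) hUt (by
          change h (j (x0 hc o)) ∈ V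
          rw [hh]; exact hVz)
      obtain ⟨y, hy1, hy2⟩ := this
      exact ⟨h (j y), hy1, hy2⟩
  exact ⟨fun t => ⟨f t, hfz t⟩, hf.codRestrict _ _⟩

end Pool.Agent.X203.NHM
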