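import Mathlib

/-!
# Boundary limits of the system `-1/h_j = z - m_j + ∑ q_{jl} h_l`

Uniqueness of the limit points at real energies and continuity up to the real line.
-/

namespace Pool.Agent.X203.GreenLim

open scoped ComplexConjugate Topology
open Filter Set

/-- Local uniqueness: two limit solutions with sub-eigenvectors coincide. -/
theorem unique_limit {A : Type*} [Fintype A] [Nonempty A] (q : A → A → ℝ)
    (hq0 : ∀ j l, 0 ≤ q j l) (hqd : ∀ j, 0 < q j j) (c : A → ℂ)
    (L L' : A → ℂ) (v v' : A → ℝ)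
    (hL : ∀ j, L j * (c j + ∑ l, (q j l : ℂ) * L l) = -1)
    (hL' : ∀ j, L' j * (c j + ∑ l, (q j l : ℂ) * L' l) = -1)
    (him : ∀ j, 0 ≤ (L j).im) (him' : ∀ j, 0 ≤ (L' j).im)
    (hv : ∀ j, 0 < v j) (hv' : ∀ j, 0 < v' j)
    (hs : ∀ j, ‖L j‖ ^ 2 * ∑ l, q j l * v l ≤ v j)
    (hs' : ∀ j, ‖L' j‖ ^ 2 * ∑ l, q j l * v' l ≤ v' j) : L = L' := by
  classical
  set u : A → ℝ := fun j => Real.sqrt (v j * v' j) with hu
  have hupos : ∀ j, 0 < u j := fun j => Real.sqrt_pos.2 (mul_pos (hv j) (hv' j))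
  set δ : A → ℂ := fun j => L j - L' j with hδ
  obtain ⟨j, hj⟩ := Finite.exists_max (fun l => ‖δ l‖ / u l)
  set t : ℝ := ‖δ j‖ / u j with ht
  have ht0 : 0 ≤ t := div_nonneg (norm_nonneg _) (hupos j).le
  have hle : ∀ l, ‖δ l‖ ≤ t * u l := fun l => by
    have := hj l
    rwa [div_le_iff₀ (hupos l)] at this
  have hδj : ‖δ j‖ = t * u j := by rw [ht]; field_simp [(hupos j).ne']
  rcases ht0.eq_or_lt with h0 | htpos
  · funext l
    have := hle l
    rw [← h0, zero_mul] at this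
    exact sub_eq_zero.1 (norm_le_zero_iff.1 this)
  exfalso
  have hLj : L j ≠ 0 := by
    intro h
    have := hL j
    rw [h, zero_mul] at this
    norm_num at this
  have hLj' : L' j ≠ 0 := by
    intro h
    have := hL' j
    rw [h, zero_mul] at this
    norm_num at this
  set s : ℂ := ∑ l, (q j l : ℂ) * δ l with hsdef
  have hds : δ j = L j * L' j * s := by
    have h1 := hL j
    have h2 := hL' j
    have h3 : s = (c j + ∑ l, (q j l : ℂ) * L l) - (c j + ∑ l, (q j l : ℂ) * L' l) := by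
      rw [hsdef, add_sub_add_left_eq_sub, ← Finset.sum_sub_distrib]
      exact Finset.sum_congr rfl fun l _ => by rw [hδ]; ring
    rw [h3, hδ]
    linear_combination (-(L' j)) * h1 + (L j) * h2
  have hδj0 : δ j ≠ 0 := by
    intro h
    rw [h, norm_zero] at hδj
    have := mul_pos htpos (hupos j)
    linarith
  have hs0 : s ≠ 0 := by
    intro h
    rw [h, mul_zero] at hds
    exact hδj0 hds
  set X : ℝ := ∑ l, q j l * v l with hX
  set X' : ℝ := ∑ l, q j l * v' l with hX'
  set Y : ℝ := ∑ l, q j l * u l with hY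
  have hXpos : 0 < X := Finset.sum_pos' (fun l _ => mul_nonneg (hq0 j l) (hv l).le)
    ⟨j, Finset.mem_univ _, mul_pos (hqd j) (hv j)⟩
  have hXpos' : 0 < X' := Finset.sum_pos' (fun l _ => mul_nonneg (hq0 j l) (hv' l).le)
    ⟨j, Finset.mem_univ _, mul_pos (hqd j) (hv' j)⟩
  have hYpos : 0 < Y := Finset.sum_pos' (fun l _ => mul_nonneg (hq0 j l) (hupos l).le)
    ⟨j, Finset.mem_univ _, mul_pos (hqd j) (hupos j)⟩
  -- square root identities
  set a : ℝ := Real.sqrt X with ha
  set b : ℝ := Real.sqrt X' with hb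
  have ha2 : a ^ 2 = X := Real.sq_sqrt hXpos.le
  have hb2 : b ^ 2 = X' := Real.sq_sqrt hXpos'.le
  have hapos : 0 < a := Real.sqrt_pos.2 hXpos
  have hbpos : 0 < b := Real.sqrt_pos.2 hXpos'
  have hul : ∀ l, u l = Real.sqrt (v l) * Real.sqrt (v' l) := fun l => by
    rw [hu]; exact Real.sqrt_mul (hv l).le _
  have hsum : ∑ l, q j l * (Real.sqrt (v l) * b - Real.sqrt (v' l) * a) ^ 2
      = 2 * (a * b) * (a * b - Y) := by
    have h1 : ∀ l, q j l * (Real.sqrt (v l) * b - Real.sqrt (v' l) * a) ^ 2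
        = b ^ 2 * (q j l * v l) + a ^ 2 * (q j l * v' l) - 2 * (a * b) * (q j l * u l) := by
      intro l
      have e1 : Real.sqrt (v l) ^ 2 = v l := Real.sq_sqrt (hv l).le
      have e2 : Real.sqrt (v' l) ^ 2 = v' l := Real.sq_sqrt (hv' l).le
      rw [hul l]
      linear_combination (q j l * b ^ 2) * e1 + (q j l * a ^ 2) * e2
    rw [Finset.sum_congr rfl fun l _ => h1 l, Finset.sum_sub_distrib, Finset.sum_add_distrib,
      ← Finset.mul_sum, ← Finset.mul_sum, ← Finset.mul_sum, ← hX, ← hX', ← hY, ← ha2, ← hb2]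
    ring
  have hterm : ∀ l, 0 ≤ q j l * (Real.sqrt (v l) * b - Real.sqrt (v' l) * a) ^ 2 := fun l =>
    mul_nonneg (hq0 j l) (sq_nonneg _)
  have hYab : Y ≤ a * b := by
    have h1 : 0 ≤ 2 * (a * b) * (a * b - Y) := by
      rw [← hsum]; exact Finset.sum_nonneg fun l _ => hterm l
    have h2 : 0 < 2 * (a * b) := by positivity
    have := nonneg_of_mul_nonneg_right h1 h2
    linarith
  have hsY : ‖s‖ ≤ ∑ l, q j l * ‖δ l‖ := by
    refine (norm_sum_le _ _).trans (le_of_eq (Finset.sum_congr rfl fun l _ => ?_))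
    rw [norm_mul, Complex.norm_real, Real.norm_of_nonneg (hq0 j l)]
  have hsY2 : ∑ l, q j l * ‖δ l‖ ≤ t * Y := by
    rw [hY, Finset.mul_sum]
    refine Finset.sum_le_sum fun l _ => ?_
    have := mul_le_mul_of_nonneg_left (hle l) (hq0 j l)
    linarith
  set p : ℝ := ‖L j‖ with hp
  set p' : ℝ := ‖L' j‖ with hp'
  have hppos : 0 < p := norm_pos_iff.2 hLj
  have hppos' : 0 < p' := norm_pos_iff.2 hLj'
  have hnd : ‖δ j‖ = p * p' * ‖s‖ := by rw [hds, norm_mul, norm_mul]
  have h5 : p ^ 2 * X ≤ v j := hs j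
  have h5' : p' ^ 2 * X' ≤ v' j := hs' j
  have huj2 : u j ^ 2 = v j * v' j := Real.sq_sqrt (mul_pos (hv j) (hv' j)).le
  -- chain of equalities
  have hpa : (p * a) * (p' * b) ≤ u j := by
    have h1 : (p * a) ^ 2 * (p' * b) ^ 2 ≤ u j ^ 2 := by
      rw [huj2]
      have e1 : (p * a) ^ 2 = p ^ 2 * X := by rw [← ha2]; ring
      have e2 : (p' * b) ^ 2 = p' ^ 2 * X' := by rw [← hb2]; ring
      rw [e1, e2]
      exact mul_le_mul h5 h5' (by positivity) (hv j).le
    rw [← mul_pow] at h1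
    exact le_of_sq_le_sq h1 (hupos j).le |>.trans le_rfl
  have key : t * u j ≤ p * p' * ‖s‖ := by rw [← hnd, hδj]
  have k1 : p * p' * ‖s‖ ≤ p * p' * (∑ l, q j l * ‖δ l‖) :=
    mul_le_mul_of_nonneg_left hsY (by positivity)
  have k2 : p * p' * (∑ l, q j l * ‖δ l‖) ≤ p * p' * (t * Y) :=
    mul_le_mul_of_nonneg_left hsY2 (by positivity)
  have k3 : p * p' * (t * Y) ≤ p * p' * (t * (a * b)) :=
    mul_le_mul_of_nonneg_left (mul_le_mul_of_nonneg_left hYab ht0) (by positivity)
  have k4 : p * p' * (t * (a * b)) ≤ t * u j := by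
    have := mul_le_mul_of_nonneg_left hpa ht0
    nlinarith
  have hpp : 0 < p * p' := mul_pos hppos hppos'
  have e1 : ‖s‖ = ∑ l, q j l * ‖δ l‖ := by
    have : p * p' * ‖s‖ = p * p' * (∑ l, q j l * ‖δ l‖) := by linarith
    exact mul_left_cancel₀ hpp.ne' this
  have e2 : Y = a * b := by
    have h1 : p * p' * (t * Y) = p * p' * (t * (a * b)) := by linarith
    exact mul_left_cancel₀ htpos.ne' (mul_left_cancel₀ hpp.ne' h1)
  have e3 : (p * a) * (p' * b) = u j := by
    have h1 : t * ((p * a) * (p' * b)) = t * u j := by nlinarith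
    exact mul_left_cancel₀ htpos.ne' h1
  -- the sub-eigenvector inequalities are equalities
  have e4 : (p ^ 2 * X) * (p' ^ 2 * X') = v j * v' j := by
    rw [← huj2, ← e3, ← ha2, ← hb2]; ring
  have e5 : p ^ 2 * X = v j := by
    by_contra hne
    have hlt : p ^ 2 * X < v j := lt_of_le_of_ne h5 hne
    have : (p ^ 2 * X) * (p' ^ 2 * X') < v j * v' j :=
      mul_lt_mul hlt h5' (by positivity) (hv j).le
    linarith
  have e5' : p' ^ 2 * X' = v' j := by
    rw [e5] at e4
    exact mul_left_cancel₀ (hv j).ne' e4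
  -- ratio at `j`
  have hz : ∑ l, q j l * (Real.sqrt (v l) * b - Real.sqrt (v' l) * a) ^ 2 = 0 := by
    rw [hsum, e2]; ring
  have hzj := (Finset.sum_eq_zero_iff_of_nonneg fun l _ => hterm l).1 hz j (Finset.mem_univ _)
  have hzj2 : Real.sqrt (v j) * b = Real.sqrt (v' j) * a := by
    have h1 : (Real.sqrt (v j) * b - Real.sqrt (v' j) * a) ^ 2 = 0 := by
      rcases mul_eq_zero.1 hzj with h | h
      · exact absurd h (hqd j).ne'
      · exact h
    have := pow_eq_zero_iff (n := 2) (by norm_num) |>.1 h1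
    linarith
  have hrat : v j * X' = v' j * X := by
    have h1 : (Real.sqrt (v j) * b) ^ 2 = (Real.sqrt (v' j) * a) ^ 2 := by rw [hzj2]
    rw [mul_pow, mul_pow, Real.sq_sqrt (hv j).le, Real.sq_sqrt (hv' j).le, ha2, hb2] at h1
    exact h1
  have hpp2 : p ^ 2 = p' ^ 2 := by
    rw [← e5, ← e5'] at hrat
    have h1 : X * X' * p ^ 2 = X * X' * p' ^ 2 := by nlinarith
    exact mul_left_cancel₀ (mul_pos hXpos hXpos').ne' h1
  -- alignment at `j`
  have hal : ∑ l, q j l * (‖s‖ * ‖δ l‖ - (conj s * δ l).re) = 0 := by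
    have h1 : ∑ l, q j l * (conj s * δ l).re = ‖s‖ ^ 2 := by
      have h2 : (conj s * s).re = ‖s‖ ^ 2 := by
        rw [← Complex.normSq_eq_conj_mul_self, Complex.ofReal_re, Complex.normSq_eq_norm_sq]
      rw [← h2]
      conv_rhs => rw [hsdef, Finset.mul_sum, Complex.re_sum]
      refine Finset.sum_congr rfl fun l _ => ?_
      have : conj s * ((q j l : ℂ) * δ l) = (q j l : ℂ) * (conj s * δ l) := by ring
      rw [← hsdef, this, Complex.re_ofReal_mul]
    have h3 : ∑ l, q j l * (‖s‖ * ‖δ l‖ - (conj s * δ l).re)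
        = ‖s‖ * (∑ l, q j l * ‖δ l‖) - ∑ l, q j l * (conj s * δ l).re := by
      rw [Finset.mul_sum, ← Finset.sum_sub_distrib]
      exact Finset.sum_congr rfl fun l _ => by ring
    rw [h3, h1, ← e1]; ring
  have hal0 : ∀ l, 0 ≤ q j l * (‖s‖ * ‖δ l‖ - (conj s * δ l).re) := fun l => by
    refine mul_nonneg (hq0 j l) (sub_nonneg.2 ?_)
    refine (Complex.re_le_norm _).trans ?_
    rw [norm_mul, RCLike.norm_conj]
  have halj := (Finset.sum_eq_zero_iff_of_nonneg fun l _ => hal0 l).1 hal j (Finset.mem_univ _)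
  have hre : (conj s * δ j).re = ‖conj s * δ j‖ := by
    rcases mul_eq_zero.1 halj with h | h
    · exact absurd h (hqd j).ne'
    · rw [norm_mul, RCLike.norm_conj]; linarith
  have hcs : conj s * δ j = ((‖conj s * δ j‖ : ℝ) : ℂ) := by
    have h1 : (conj s * δ j).im = 0 := by
      have h2 := Complex.sq_norm_sub_sq_re (conj s * δ j)
      rw [hre] at h2
      have : (conj s * δ j).im ^ 2 = 0 := by linarith
      exact pow_eq_zero_iff (n := 2) (by norm_num) |>.1 this
    apply Complex.ext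
    · rw [Complex.ofReal_re, hre]
    · rw [Complex.ofReal_im, h1]
  -- hence `L j * L' j` is the positive number `p * p'`
  have hs2 : conj s * s = ((‖s‖ ^ 2 : ℝ) : ℂ) := by
    rw [← Complex.normSq_eq_conj_mul_self, Complex.normSq_eq_norm_sq]
  have hLL : L j * L' j = ((p * p' : ℝ) : ℂ) := by
    have h1 : (L j * L' j) * ((‖s‖ ^ 2 : ℝ) : ℂ) = ((‖conj s * δ j‖ : ℝ) : ℂ) := by
      rw [← hcs, ← hs2, hds]; ring
    have h2 : ‖conj s * δ j‖ = (p * p') * ‖s‖ ^ 2 := by
      rw [norm_mul, RCLike.norm_conj, hnd]; ring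
    rw [h2, Complex.ofReal_mul] at h1
    have h3 : ((‖s‖ ^ 2 : ℝ) : ℂ) ≠ 0 := by
      rw [Complex.ofReal_ne_zero]
      exact pow_ne_zero 2 (norm_ne_zero_iff.2 hs0)
    exact mul_right_cancel₀ h3 h1
  have hpeq : p = p' := by
    have := (sq_eq_sq₀ hppos.le hppos'.le).1 hpp2
    exact this
  have hconj : L j = conj (L' j) := by
    have h1 : conj (L' j) * L' j = ((p' ^ 2 : ℝ) : ℂ) := by
      rw [← Complex.normSq_eq_conj_mul_self, Complex.normSq_eq_norm_sq]
    have h2 : L j * L' j = conj (L' j) * L' j := by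
      rw [hLL, h1, hpeq]; norm_num [sq]
    exact mul_right_cancel₀ hLj' h2
  have himeq : (L j).im = -(L' j).im := by rw [hconj, Complex.conj_im]
  have hi1 := him j
  have hi2 := him' j
  have hz1 : (L j).im = 0 := by linarith
  have hz2 : (L' j).im = 0 := by linarith
  apply hδj0
  rw [hδ]
  apply Complex.ext
  · simp only [Complex.sub_re, Complex.zero_re]
    have : (L j).re = (L' j).re := by rw [hconj, Complex.conj_re]
    linarith
  · simp only [Complex.sub_im, Complex.zero_im]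
    linarith

/-- imaginary part identity -/
theorem im_identity {h X : ℂ} (e : h * X = -1) : h.im = ‖h‖ ^ 2 * X.im := by
  have h1 : ((‖h‖ ^ 2 : ℝ) : ℂ) * X = - conj h := by
    rw [← Complex.normSq_eq_norm_sq, Complex.normSq_eq_conj_mul_self, mul_assoc, e]; ring
  have h2 := congrArg Complex.im h1
  rw [Complex.im_ofReal_mul, Complex.neg_im, Complex.conj_im, neg_neg] at h2
  exact h2.symm

/-- Existence of the boundary limits. -/
theorem exists_limit {A : Type*} [Fintype A] [Nonempty A] (q : A → A → ℝ)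
    (hq0 : ∀ j l, 0 ≤ q j l) (hqd : ∀ j, 0 < q j j)
    (hirr : ∀ v : A → ℝ, (∀ j, 0 ≤ v j) → (∃ j, 0 < v j) →
      (∀ j l, 0 < q j l → 0 < v l → 0 < v j) → ∀ j, 0 < v j)
    (m : A → ℝ) (h : ℂ → A → ℂ)
    (hh : ∀ z : ℂ, 0 < z.im → ∀ j, h z j * ((z - m j) + ∑ l, (q j l : ℂ) * h z l) = -1)
    (him : ∀ z : ℂ, 0 < z.im → ∀ j, 0 < (h z j).im) (E : ℝ) :
    ∃ L, Tendsto h (𝓝[{z : ℂ | 0 < z.im}] (E : ℂ)) (𝓝 L) := by
  classical
  set U : Set ℂ := {z : ℂ | 0 < z.im} with hU
  have himid : ∀ z ∈ U, ∀ j, (h z j).im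
      = ‖h z j‖ ^ 2 * (z.im + ∑ l, q j l * (h z l).im) := by
    intro z hz j
    rw [im_identity (hh z hz j)]
    congr 1
    rw [Complex.add_im, Complex.sub_im, Complex.ofReal_im, sub_zero, Complex.im_sum]
    congr 1
    exact Finset.sum_congr rfl fun l _ => Complex.im_ofReal_mul _ _
  have hsub : ∀ z ∈ U, ∀ j, ‖h z j‖ ^ 2 * ∑ l, q j l * (h z l).im ≤ (h z j).im := by
    intro z hz j
    rw [himid z hz j]
    refine mul_le_mul_of_nonneg_left ?_ (sq_nonneg _)
    have : 0 < z.im := hz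
    linarith
  -- a priori bound
  have hbd : ∀ z ∈ U, ∀ j, ‖h z j‖ ≤ Real.sqrt (1 / q j j) := by
    intro z hz j
    apply Real.le_sqrt_of_sq_le
    rw [le_div_iff₀ (hqd j)]
    have h1 := hsub z hz j
    have h2 : q j j * (h z j).im ≤ ∑ l, q j l * (h z l).im :=
      Finset.single_le_sum (f := fun l => q j l * (h z l).im)
        (fun l _ => mul_nonneg (hq0 j l) (him z hz l).le) (Finset.mem_univ j)
    have h3 : ‖h z j‖ ^ 2 * (q j j * (h z j).im) ≤ (h z j).im :=
      (mul_le_mul_of_nonneg_left h2 (sq_nonneg _)).trans h1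
    have h4 := him z hz j
    by_contra hcon
    push Not at hcon
    have : (h z j).im < ‖h z j‖ ^ 2 * q j j * (h z j).im := by nlinarith
    nlinarith
  set K : Set (A → ℂ) := Set.pi Set.univ fun j => Metric.closedBall (0 : ℂ) (Real.sqrt (1 / q j j))
    with hK
  have hKc : IsCompact K := isCompact_univ_pi fun j => isCompact_closedBall _ _
  have hev : ∀ᶠ z in 𝓝[U] (E : ℂ), h z ∈ K := by
    filter_upwards [self_mem_nhdsWithin] with z hz
    intro j _
    rw [Metric.mem_closedBall, dist_zero_right]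
    exact hbd z hz j
  have hne : (𝓝[U] (E : ℂ)).NeBot := by
    rw [← mem_closure_iff_nhdsWithin_neBot]
    rw [hU, Complex.closure_setOfPred_lt_im]
    simp
  -- the data attached to a cluster point
  have hclus : ∀ L : A → ℂ, MapClusterPt L (𝓝[U] (E : ℂ)) h →
      ∃ v : A → ℝ, (∀ j, 0 < v j) ∧ (∀ j, 0 ≤ (L j).im) ∧
        (∀ j, L j * (((E : ℂ) - m j) + ∑ l, (q j l : ℂ) * L l) = -1) ∧
        (∀ j, ‖L j‖ ^ 2 * ∑ l, q j l * v l ≤ v j) := by
    intro L hL
    obtain ⟨F, hF, hFL⟩ := mapClusterPt_iff_ultrafilter.1 hL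
    have hFU : ∀ᶠ z in (F : Filter ℂ), z ∈ U := hF self_mem_nhdsWithin
    have hFE : Tendsto (fun z : ℂ => z) F (𝓝 (E : ℂ)) :=
      tendsto_id'.2 (hF.trans nhdsWithin_le_nhds)
    set S : ℂ → ℝ := fun z => ∑ l, (h z l).im with hS
    have hSpos : ∀ z ∈ U, 0 < S z := fun z hz =>
      Finset.sum_pos (fun l _ => him z hz l) Finset.univ_nonempty
    set W : ℂ → A → ℝ := fun z j => (h z j).im / S z with hW
    have hWK : ∀ᶠ z in (F : Filter ℂ), W z ∈ Set.Icc (0 : A → ℝ) 1 := by
      filter_upwards [hFU] with z hz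
      refine ⟨fun j => div_nonneg (him z hz j).le (hSpos z hz).le, fun j => ?_⟩
      refine (div_le_one (hSpos z hz)).2 ?_
      exact Finset.single_le_sum (f := fun l => (h z l).im)
        (fun l _ => (him z hz l).le) (Finset.mem_univ j)
    obtain ⟨v, hvK, hv⟩ := (isCompact_Icc (a := (0 : A → ℝ)) (b := 1)).ultrafilter_le_nhds
      (F.map W) (by rw [Ultrafilter.coe_map, le_principal_iff]; exact hWK)
    have hv' : Tendsto W F (𝓝 v) := hv
    have hvj : ∀ j, Tendsto (fun z => W z j) F (𝓝 (v j)) := fun j =>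
      (tendsto_pi_nhds.1 hv') j
    have hLj : ∀ j, Tendsto (fun z => h z j) F (𝓝 (L j)) := fun j =>
      (tendsto_pi_nhds.1 hFL) j
    have heq : ∀ j, L j * (((E : ℂ) - m j) + ∑ l, (q j l : ℂ) * L l) = -1 := by
      intro j
      have h1 : Tendsto (fun z => h z j * ((z - m j) + ∑ l, (q j l : ℂ) * h z l)) F
          (𝓝 (L j * (((E : ℂ) - m j) + ∑ l, (q j l : ℂ) * L l))) := by
        refine (hLj j).mul ((hFE.sub tendsto_const_nhds).add ?_)
        exact tendsto_finsetSum _ fun l _ => tendsto_const_nhds.mul (hLj l)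
      have h2 : Tendsto (fun z => h z j * ((z - m j) + ∑ l, (q j l : ℂ) * h z l)) F
          (𝓝 (-1)) := by
        refine tendsto_const_nhds.congr' ?_
        filter_upwards [hFU] with z hz
        exact (hh z hz j).symm
      exact tendsto_nhds_unique h1 h2
    have hL0 : ∀ j, L j ≠ 0 := by
      intro j h0
      have := heq j
      rw [h0, zero_mul] at this
      norm_num at this
    have hvsub : ∀ j, ‖L j‖ ^ 2 * ∑ l, q j l * v l ≤ v j := by
      intro j
      have h1 : Tendsto (fun z => ‖h z j‖ ^ 2 * ∑ l, q j l * W z l) F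
          (𝓝 (‖L j‖ ^ 2 * ∑ l, q j l * v l)) := by
        refine ((hLj j).norm.pow 2).mul ?_
        exact tendsto_finsetSum _ fun l _ => tendsto_const_nhds.mul (hvj l)
      refine le_of_tendsto_of_tendsto h1 (hvj j) ?_
      filter_upwards [hFU] with z hz
      have h2 := hsub z hz j
      have h3 : ∑ l, q j l * W z l = (∑ l, q j l * (h z l).im) / S z := by
        rw [Finset.sum_div]
        exact Finset.sum_congr rfl fun l _ => by rw [hW]; ring
      rw [h3, hW, mul_div_assoc']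
      exact div_le_div_of_nonneg_right h2 (hSpos z hz).le
    have hvsum : ∑ j, v j = 1 := by
      have h1 : Tendsto (fun z => ∑ j, W z j) F (𝓝 (∑ j, v j)) :=
        tendsto_finsetSum _ fun l _ => hvj l
      have h2 : Tendsto (fun z => ∑ j, W z j) F (𝓝 1) := by
        refine tendsto_const_nhds.congr' ?_
        filter_upwards [hFU] with z hz
        rw [hW, ← Finset.sum_div]
        exact (div_self (hSpos z hz).ne').symm
      exact tendsto_nhds_unique h1 h2
    have hvnn : ∀ j, 0 ≤ v j := fun j => hvK.1 j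
    have hvpos : ∀ j, 0 < v j := by
      apply hirr v hvnn
      · by_contra hcon
        push Not at hcon
        have : ∑ j, v j ≤ 0 := Finset.sum_nonpos fun j _ => hcon j
        linarith
      · intro j l hq hvl
        refine lt_of_lt_of_le ?_ (hvsub j)
        refine mul_pos (pow_pos (norm_pos_iff.2 (hL0 j)) 2) ?_
        exact Finset.sum_pos' (fun i _ => mul_nonneg (hq0 j i) (hvnn i))
          ⟨l, Finset.mem_univ _, mul_pos hq hvl⟩
    refine ⟨v, hvpos, fun j => ?_, heq, hvsub⟩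
    refine ge_of_tendsto ((Complex.continuous_im.tendsto _).comp (hLj j)) ?_
    filter_upwards [hFU] with z hz
    exact (him z hz j).le
  obtain ⟨L₀, -, hL₀⟩ := hKc.exists_mapClusterPt_of_frequently (f := h) (l := 𝓝[U] (E : ℂ))
    hev.frequently
  refine ⟨L₀, hKc.tendsto_nhds_of_unique_mapClusterPt hev fun L _ hL => ?_⟩
  obtain ⟨v, hv1, hv2, hv3, hv4⟩ := hclus L hL
  obtain ⟨v', hv1', hv2', hv3', hv4'⟩ := hclus L₀ hL₀
  exact unique_limit q hq0 hqd (fun j => (E : ℂ) - m j) L L₀ v v' hv3 hv3' hv2 hv2' hv1 hv1' hv4 hv4'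

end Pool.Agent.X203.GreenLim
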