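import Mathlib
import Pool.Agent.X203.GreenLim

/-!
# Green functions of label invariant operators on trees: recursion formulas

`H` is a Hilbert space with a total orthogonal family `δ x`, `‖δ x‖² = ν x`, indexed by the
vertices of a rooted tree given by a parent function.
-/

namespace Pool.Agent.X203.GreenTree

open scoped ComplexConjugate Topology
open Filter Set

set_option linter.unusedSectionVars false
set_option linter.unusedSimpArgs false

section Hilbert

variable {H : Type*} [NormedAddCommGroup H] [InnerProductSpace ℂ H] [CompleteSpace H]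
  {V : Type*}

/-- total orthogonal family with prescribed squared norms -/
structure OTF (δ : V → H) (ν : V → ℝ) : Prop where
  pos : ∀ x, 0 < ν x
  orth : ∀ x y, x ≠ y → inner ℂ (δ x) (δ y) = 0
  self : ∀ x, inner ℂ (δ x) (δ x) = (ν x : ℂ)
  total : ∀ f, (∀ x, inner ℂ (δ x) f = 0) → f = 0

/-- value of `f` at `x` -/
noncomputable def ev (δ : V → H) (ν : V → ℝ) (f : H) (x : V) : ℂ := inner ℂ (δ x) f / ν x

variable {δ : V → H} {ν : V → ℝ}

theorem ev_add (f g : H) (x : V) : ev δ ν (f + g) x = ev δ ν f x + ev δ ν g x := by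
  simp [ev, inner_add_right, add_div]

theorem ev_sub (f g : H) (x : V) : ev δ ν (f - g) x = ev δ ν f x - ev δ ν g x := by
  simp [ev, inner_sub_right, sub_div]

theorem ev_smul (a : ℂ) (f : H) (x : V) : ev δ ν (a • f) x = a * ev δ ν f x := by
  simp [ev, inner_smul_right, mul_div_assoc]

theorem ext_ev (h : OTF δ ν) {f g : H} (hfg : ∀ x, ev δ ν f x = ev δ ν g x) : f = g := by
  rw [← sub_eq_zero]
  refine h.total _ fun x => ?_
  have h1 : ev δ ν (f - g) x = 0 := by rw [ev_sub, hfg x, sub_self]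
  have h2 : (ν x : ℂ) ≠ 0 := by exact_mod_cast (h.pos x).ne'
  unfold ev at h1
  rcases div_eq_zero_iff.1 h1 with h3 | h3
  · exact h3
  · exact absurd h3 h2

theorem ev_self (h : OTF δ ν) (x : V) : ev δ ν (δ x) x = 1 := by
  have h2 : (ν x : ℂ) ≠ 0 := by exact_mod_cast (h.pos x).ne'
  rw [ev, h.self, div_self h2]

theorem ev_ne (h : OTF δ ν) {x y : V} (hxy : x ≠ y) : ev δ ν (δ y) x = 0 := by
  rw [ev, h.orth x y hxy, zero_div]

theorem inner_eq_ev (h : OTF δ ν) (x : V) (f : H) : inner ℂ (δ x) f = ν x * ev δ ν f x := by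
  have h2 : (ν x : ℂ) ≠ 0 := by exact_mod_cast (h.pos x).ne'
  rw [ev, mul_div_cancel₀ _ h2]

/-- the projection: restriction to W -/
noncomputable def P (δ : V → H) (W : Set V) : H →L[ℂ] H :=
  ((Submodule.span ℂ (δ '' Wᶜ))ᗮ).starProjection

theorem P_sa (W : Set V) : IsSelfAdjoint (P δ W) := isSelfAdjoint_starProjection _

theorem ev_P_mem (h : OTF δ ν) {W : Set V} {x : V} (hx : x ∈ W) (f : H) :
    ev δ ν (P δ W f) x = ev δ ν f x := by
  have h1 : δ x ∈ (Submodule.span ℂ (δ '' Wᶜ))ᗮ := by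
    rw [Submodule.mem_orthogonal]
    intro u hu
    induction hu using Submodule.span_induction with
    | mem u hu =>
      obtain ⟨y, hy, rfl⟩ := hu
      exact h.orth y x (fun e => hy (e ▸ hx))
    | zero => simp
    | add u w _ _ hu hw => rw [inner_add_left, hu, hw, add_zero]
    | smul a u _ hu => rw [inner_smul_left, hu, mul_zero]
  have h2 : P δ W (δ x) = δ x := Submodule.starProjection_eq_self_iff.2 h1
  have h3 := (P_sa (δ := δ) W).isSymmetric (δ x) f
  simp only [ContinuousLinearMap.coe_coe] at h3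
  rw [ev, ev, ← h3, h2]

theorem ev_P_notMem {W : Set V} {x : V} (hx : x ∉ W) (f : H) :
    ev δ ν (P δ W f) x = 0 := by
  have h1 : P δ W f ∈ (Submodule.span ℂ (δ '' Wᶜ))ᗮ := Submodule.starProjection_apply_mem _ _
  rw [Submodule.mem_orthogonal] at h1
  rw [ev, h1 (δ x) (Submodule.subset_span ⟨x, hx, rfl⟩), zero_div]

/-- the resolvent `(A - z)⁻¹` -/
noncomputable def Rz (A : H →L[ℂ] H) (z : ℂ) : H →L[ℂ] H :=
  Ring.inverse (A - z • (1 : H →L[ℂ] H))

theorem isUnit_sub {A : H →L[ℂ] H} (hA : IsSelfAdjoint A) {z : ℂ} (hz : z.im ≠ 0) :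
    IsUnit (A - z • (1 : H →L[ℂ] H)) := by
  by_contra hcon
  have h1 : z ∈ spectrum ℂ A := by
    rw [spectrum.mem_iff]
    intro hu
    apply hcon
    rw [← neg_sub, IsUnit.neg_iff]
    simpa [Algebra.algebraMap_eq_smul_one] using hu
  have h2 := hA.mem_spectrum_eq_re h1
  apply hz
  rw [h2, Complex.ofReal_im]

theorem sub_Rz {A : H →L[ℂ] H} (hA : IsSelfAdjoint A) {z : ℂ} (hz : z.im ≠ 0) (f : H) :
    A (Rz A z f) - z • Rz A z f = f := by
  have h1 := Ring.mul_inverse_cancel _ (isUnit_sub hA hz)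
  have h2 := congrArg (fun B : H →L[ℂ] H => B f) h1
  simpa [Rz] using h2

theorem Rz_eq {A : H →L[ℂ] H} (hA : IsSelfAdjoint A) {z : ℂ} (hz : z.im ≠ 0) {f g : H}
    (hg : A g - z • g = f) : g = Rz A z f := by
  have h1 := Ring.inverse_mul_cancel _ (isUnit_sub hA hz)
  have h2 := congrArg (fun B : H →L[ℂ] H => B g) h1
  have h3 : (A - z • (1 : H →L[ℂ] H)) g = f := by simpa using hg
  simp only [mul_apply_eq_comp, one_apply_eq_self, h3] at h2
  exact h2.symm

/-- symmetry of the resolvent -/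
theorem Rz_symm {A : H →L[ℂ] H} (hA : IsSelfAdjoint A) {z : ℂ} (hz : z.im ≠ 0) (f g : H) :
    inner ℂ f (Rz A z g) = conj (inner ℂ g (Rz A (conj z) f)) := by
  have hz' : (conj z).im ≠ 0 := by rw [Complex.conj_im]; exact neg_ne_zero.2 hz
  have h1 := sub_Rz hA hz g
  have h2 := sub_Rz hA hz' f
  have h3 := hA.isSymmetric (Rz A (conj z) f) (Rz A z g)
  simp only [ContinuousLinearMap.coe_coe] at h3
  rw [inner_conj_symm]
  set a := Rz A (conj z) f with ha
  set b := Rz A z g with hb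
  calc inner ℂ f b = inner ℂ (A a - conj z • a) b := by rw [h2]
    _ = inner ℂ a (A b - z • b) := by
        rw [inner_sub_left, inner_sub_right, inner_smul_left, inner_smul_right,
          Complex.conj_conj, h3]
    _ = inner ℂ a g := by rw [h1]

/-- imaginary part of a diagonal resolvent entry -/
theorem im_inner_Rz {A : H →L[ℂ] H} (hA : IsSelfAdjoint A) {z : ℂ} (hz : z.im ≠ 0) (f : H) :
    (inner ℂ f (Rz A z f) : ℂ).im = z.im * ‖Rz A z f‖ ^ 2 := by
  have h1 := sub_Rz hA hz f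
  have h3 := hA.isSymmetric (Rz A z f) (Rz A z f)
  simp only [ContinuousLinearMap.coe_coe] at h3
  set r := Rz A z f with hr
  have h4 : (inner ℂ (A r) r : ℂ).im = 0 := by
    have h5 : conj (inner ℂ (A r) r : ℂ) = inner ℂ (A r) r := by
      rw [inner_conj_symm, ← h3]
    exact Complex.conj_eq_iff_im.1 h5
  have h5 : (inner ℂ r r : ℂ) = ((‖r‖ ^ 2 : ℝ) : ℂ) := by
    rw [inner_self_eq_norm_sq_to_K]; norm_cast
  calc (inner ℂ f r : ℂ).im = (inner ℂ (A r - z • r) r : ℂ).im := by rw [h1]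
    _ = (inner ℂ (A r) r - conj z * ((‖r‖ ^ 2 : ℝ) : ℂ)).im := by
        rw [inner_sub_left, inner_smul_left, h5]
    _ = z.im * ‖r‖ ^ 2 := by
        rw [Complex.sub_im, h4, mul_comm, Complex.im_ofReal_mul, Complex.conj_im]; ring

theorem norm_Rz_le {A : H →L[ℂ] H} (hA : IsSelfAdjoint A) {z : ℂ} (hz : 0 < z.im) (f : H) :
    z.im * ‖Rz A z f‖ ≤ ‖f‖ := by
  have h1 := im_inner_Rz hA hz.ne' f
  have h2 : (inner ℂ f (Rz A z f) : ℂ).im ≤ ‖f‖ * ‖Rz A z f‖ :=
    (Complex.im_le_norm _).trans (norm_inner_le_norm _ _)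
  rw [h1] at h2
  rcases (norm_nonneg (Rz A z f)).eq_or_lt with h0 | h0
  · rw [← h0, mul_zero]; exact norm_nonneg _
  · have : (z.im * ‖Rz A z f‖) * ‖Rz A z f‖ ≤ ‖f‖ * ‖Rz A z f‖ := by nlinarith
    exact le_of_mul_le_mul_right this h0

end Hilbert

section Tree

variable {V : Type*}

/-- descendants of `x` (including `x`) for the parent function `par` -/
def Desc (par : V → Option V) (x : V) : Set V :=
  {y | Relation.ReflTransGen (fun a b => par b = some a) x y}

/-- `par` is the parent function of a tree with root `root` -/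
structure Tr (par : V → Option V) (root : V) : Prop where
  par_root : par root = none
  reach : ∀ x, x ∈ Desc par root

variable {par : V → Option V} {root : V}

theorem self_mem_Desc (x : V) : x ∈ Desc par x := Relation.ReflTransGen.refl

theorem child_mem_Desc {x y c : V} (hy : y ∈ Desc par x) (hc : par c = some y) :
    c ∈ Desc par x := Relation.ReflTransGen.tail hy hc

theorem Desc_subset {x c : V} (hc : par c = some x) : Desc par c ⊆ Desc par x := fun _ hy =>
  Relation.ReflTransGen.head hc hy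

theorem parent_mem_Desc {x v : V} (hv : v ∈ Desc par x) (hne : v ≠ x) :
    ∃ p, par v = some p ∧ p ∈ Desc par x := by
  rcases Relation.ReflTransGen.cases_tail hv with h | ⟨p, hp, hpv⟩
  · exact absurd h hne
  · exact ⟨p, hpv, hp⟩

theorem parent_notMem (h : Tr par root) {x p : V} (hp : par x = some p) :
    p ∉ Desc par x := by
  have key : ∀ y, Relation.ReflTransGen (fun a b => par b = some a) root y →
      ¬ Relation.TransGen (fun a b => par b = some a) y y := by
    intro y hy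
    induction hy with
    | refl =>
      intro hcon
      obtain ⟨b, -, hb⟩ := Relation.TransGen.tail'_iff.1 hcon
      rw [h.par_root] at hb
      exact absurd hb (by simp)
    | tail _ hbc ih =>
      intro hcon
      obtain ⟨d, hd1, hd2⟩ := Relation.TransGen.tail'_iff.1 hcon
      rw [hbc] at hd2
      obtain rfl := Option.some.inj hd2
      exact ih (Relation.TransGen.head' hbc hd1)
  intro hcon
  exact key x (h.reach x) (Relation.TransGen.tail'_iff.2 ⟨p, hcon, hp⟩)

end Tree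

section Operator

variable {H : Type*} [NormedAddCommGroup H] [InnerProductSpace ℂ H] [CompleteSpace H]
  {V : Type*} {δ : V → H} {ν : V → ℝ} {par : V → Option V} {root : V}

/-- contribution of the parent -/
noncomputable def up (par : V → Option V) (t : V → V → ℂ) (φ : V → ℂ) (v : V) : ℂ :=
  (par v).elim 0 fun p => t v p * φ p

/-- `T` is given by the tree formula -/
def Form (δ : V → H) (ν : V → ℝ) (par : V → Option V) (ch : V → Finset V)
    (t : V → V → ℂ) (w : V → ℝ) (T : H →L[ℂ] H) : Prop :=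
  ∀ f v, ev δ ν (T f) v = ∑ y ∈ ch v, t v y * ev δ ν f y + up par t (ev δ ν f) v
    + w v * ev δ ν f v

/-- compression to `W` -/
noncomputable def TW (δ : V → H) (T : H →L[ℂ] H) (W : Set V) : H →L[ℂ] H :=
  P δ W * T * P δ W

theorem TW_sa {T : H →L[ℂ] H} (hT : IsSelfAdjoint T) (W : Set V) :
    IsSelfAdjoint (TW δ T W) := by
  have h1 := hT.conjugate' (P δ W)
  rwa [(P_sa (δ := δ) W).star_eq] at h1

theorem TW_apply (T : H →L[ℂ] H) (W : Set V) (f : H) :
    TW δ T W f = P δ W (T (P δ W f)) := rfl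

theorem TW_univ (h : OTF δ ν) (T : H →L[ℂ] H) : TW δ T Set.univ = T := by
  ext f
  refine ext_ev h fun x => ?_
  rw [TW_apply, ev_P_mem h (Set.mem_univ x)]
  have : P δ (Set.univ : Set V) f = f := ext_ev h fun y => ev_P_mem h (Set.mem_univ y) f
  rw [this]

theorem ev_TW_notMem {T : H →L[ℂ] H} {W : Set V} {v : V} (hv : v ∉ W) (f : H) :
    ev δ ν (TW δ T W f) v = 0 := by rw [TW_apply, ev_P_notMem hv]

variable {ch : V → Finset V} {t : V → V → ℂ} {w : V → ℝ} {T : H →L[ℂ] H}

theorem ev_TW_mem (h : OTF δ ν) (hF : Form δ ν par ch t w T) {W : Set V} {v : V} (hv : v ∈ W)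
    (f : H) : ev δ ν (TW δ T W f) v = ∑ y ∈ ch v, t v y * ev δ ν (P δ W f) y
      + up par t (ev δ ν (P δ W f)) v + w v * ev δ ν f v := by
  rw [TW_apply, ev_P_mem h hv, hF, ev_P_mem h hv]

/-- cutting off the subtree below `c` -/
theorem restrict (h : OTF δ ν) (hτ : Tr par root) (hch : ∀ x y, y ∈ ch x ↔ par y = some x)
    (hF : Form δ ν par ch t w T) {W : Set V} {c p : V} (hc : par c = some p)
    (hW : Desc par c ⊆ W) (hp : p ∈ W) {z : ℂ} {ψ f : H} (hψ : TW δ T W ψ - z • ψ = f) :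
    TW δ T (Desc par c) (P δ (Desc par c) ψ) - z • P δ (Desc par c) ψ
      = P δ (Desc par c) f - (t c p * ev δ ν ψ p) • δ c := by
  refine ext_ev h fun v => ?_
  by_cases hv : v ∈ Desc par c
  · rw [ev_sub, ev_sub, ev_smul, ev_smul, ev_TW_mem h hF hv, ev_P_mem h hv, ev_P_mem h hv, ← hψ,
      ev_sub, ev_smul, ev_TW_mem h hF (hW hv)]
    have h1 : ∑ y ∈ ch v, t v y * ev δ ν (P δ (Desc par c) (P δ (Desc par c) ψ)) y
        = ∑ y ∈ ch v, t v y * ev δ ν (P δ W ψ) y := by
      refine Finset.sum_congr rfl fun y hy => ?_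
      have hy' : y ∈ Desc par c := child_mem_Desc hv ((hch v y).1 hy)
      rw [ev_P_mem h hy', ev_P_mem h hy', ev_P_mem h (hW hy')]
    rw [h1]
    by_cases hvc : v = c
    · subst hvc
      have h2 : up par t (ev δ ν (P δ (Desc par v) (P δ (Desc par v) ψ))) v = 0 := by
        rw [up, hc, Option.elim_some, ev_P_notMem (parent_notMem hτ hc), mul_zero]
      have h3 : up par t (ev δ ν (P δ W ψ)) v = t v p * ev δ ν ψ p := by
        rw [up, hc, Option.elim_some, ev_P_mem h hp]
      rw [h2, h3, ev_self h]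
      ring
    · obtain ⟨p', hp', hp'm⟩ := parent_mem_Desc hv hvc
      have h2 : up par t (ev δ ν (P δ (Desc par c) (P δ (Desc par c) ψ))) v
          = up par t (ev δ ν (P δ W ψ)) v := by
        rw [up, up, hp', Option.elim_some, Option.elim_some, ev_P_mem h hp'm, ev_P_mem h hp'm,
          ev_P_mem h (hW hp'm)]
      rw [h2, ev_ne h hvc]
      ring
  · have hvc : v ≠ c := fun e => hv (e ▸ self_mem_Desc _)
    rw [ev_sub, ev_sub, ev_smul, ev_smul, ev_TW_notMem hv, ev_P_notMem hv, ev_P_notMem hv,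
      ev_ne h hvc]
    ring

/-- normalised truncated Green function -/
noncomputable def gam (δ : V → H) (ν : V → ℝ) (par : V → Option V) (T : H →L[ℂ] H) (x : V)
    (z : ℂ) : ℂ := ev δ ν (Rz (TW δ T (Desc par x)) z (δ x)) x

/-- normalised full Green function -/
noncomputable def gre (δ : V → H) (ν : V → ℝ) (T : H →L[ℂ] H) (x : V) (z : ℂ) : ℂ :=
  ev δ ν (Rz T z (δ x)) x

theorem restrict_ev (h : OTF δ ν) (hτ : Tr par root) (hch : ∀ x y, y ∈ ch x ↔ par y = some x)
    (hF : Form δ ν par ch t w T) (hT : IsSelfAdjoint T) {W : Set V} {c p : V}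
    (hc : par c = some p) (hW : Desc par c ⊆ W) (hp : p ∈ W) {z : ℂ} (hz : z.im ≠ 0)
    {ψ f : H} (hψ : TW δ T W ψ - z • ψ = f) {b : ℂ} (hf : P δ (Desc par c) f = b • δ c) :
    ev δ ν ψ c = (b - t c p * ev δ ν ψ p) * gam δ ν par T c z := by
  have h1 := restrict h hτ hch hF hc hW hp hψ
  rw [hf, ← sub_smul] at h1
  have h2 := Rz_eq (TW_sa hT _) hz h1
  rw [map_smul] at h2
  rw [← ev_P_mem h (self_mem_Desc c) ψ, h2, ev_smul]
  rfl

theorem P_delta_self (h : OTF δ ν) {W : Set V} {x : V} (hx : x ∈ W) : P δ W (δ x) = δ x := by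
  refine ext_ev h fun v => ?_
  by_cases hv : v ∈ W
  · exact ev_P_mem h hv _
  · rw [ev_P_notMem hv, ev_ne h (by rintro rfl; exact hv hx)]

theorem P_delta_zero (h : OTF δ ν) {W : Set V} {x : V} (hx : x ∉ W) : P δ W (δ x) = 0 := by
  refine ext_ev h fun v => ?_
  have h0 : ev δ ν (0 : H) v = 0 := by simp [ev]
  rw [h0]
  by_cases hv : v ∈ W
  · rw [ev_P_mem h hv, ev_ne h (by rintro rfl; exact hx hv)]
  · exact ev_P_notMem hv _

/-- recursion for the truncated Green functions -/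
theorem gam_rec (h : OTF δ ν) (hτ : Tr par root) (hch : ∀ x y, y ∈ ch x ↔ par y = some x)
    (hF : Form δ ν par ch t w T) (hT : IsSelfAdjoint T) {z : ℂ} (hz : z.im ≠ 0) (x : V) :
    gam δ ν par T x z * ((z - w x) + ∑ c ∈ ch x, (t x c * t c x) * gam δ ν par T c z) = -1 := by
  set ψ := Rz (TW δ T (Desc par x)) z (δ x) with hψdef
  have hψ : TW δ T (Desc par x) ψ - z • ψ = δ x := sub_Rz (TW_sa hT _) hz _
  have hg : gam δ ν par T x z = ev δ ν ψ x := rfl
  have h1 : ∀ c ∈ ch x, ev δ ν ψ c = (0 - t c x * ev δ ν ψ x) * gam δ ν par T c z := by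
    intro c hc
    have hc' := (hch x c).1 hc
    refine restrict_ev h hτ hch hF hT hc' (Desc_subset hc') (self_mem_Desc x) hz hψ ?_
    rw [zero_smul]
    exact P_delta_zero h (parent_notMem hτ hc')
  have h2 := congrArg (fun g => ev δ ν g x) hψ
  simp only [ev_sub, ev_smul] at h2
  rw [ev_TW_mem h hF (self_mem_Desc x), ev_self h] at h2
  have h3 : up par t (ev δ ν (P δ (Desc par x) ψ)) x = 0 := by
    rw [up]
    rcases hpx : par x with _ | p
    · rfl
    · rw [Option.elim_some, ev_P_notMem (parent_notMem hτ hpx), mul_zero]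
  have h4 : ∑ y ∈ ch x, t x y * ev δ ν (P δ (Desc par x) ψ) y
      = - (ev δ ν ψ x * ∑ c ∈ ch x, (t x c * t c x) * gam δ ν par T c z) := by
    rw [Finset.mul_sum, ← Finset.sum_neg_distrib]
    refine Finset.sum_congr rfl fun c hc => ?_
    rw [ev_P_mem h (child_mem_Desc (self_mem_Desc x) ((hch x c).1 hc)), h1 c hc]
    ring
  rw [h3, h4] at h2
  rw [hg]
  linear_combination -h2

/-- the full Green function in terms of the one at the parent -/
theorem gre_rec (h : OTF δ ν) (hτ : Tr par root) (hch : ∀ x y, y ∈ ch x ↔ par y = some x)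
    (hF : Form δ ν par ch t w T) (hT : IsSelfAdjoint T)
    (hsym : ∀ x y, t x y * ν x = conj (t y x) * ν y) {z : ℂ} (hz : z.im ≠ 0) {x p : V}
    (hp : par x = some p) :
    gre δ ν T x z = gam δ ν par T x z
      + (t x p * t p x) * gam δ ν par T x z ^ 2 * gre δ ν T p z := by
  have hz' : (conj z).im ≠ 0 := by rw [Complex.conj_im]; exact neg_ne_zero.2 hz
  have hxν : (ν x : ℂ) ≠ 0 := by exact_mod_cast (h.pos x).ne'
  have hpν : (ν p : ℂ) ≠ 0 := by exact_mod_cast (h.pos p).ne'
  -- conjugation symmetry of diagonal entries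
  have hconj : ∀ (A : H →L[ℂ] H), IsSelfAdjoint A → ∀ v,
      conj (ev δ ν (Rz A (conj z) (δ v)) v) = ev δ ν (Rz A z (δ v)) v := by
    intro A hA v
    rw [ev, ev, map_div₀, Complex.conj_ofReal, Rz_symm hA hz]
  set ψ := Rz T z (δ x) with hψdef
  set χ := Rz T (conj z) (δ p) with hχdef
  have hψ : TW δ T Set.univ ψ - z • ψ = δ x := by
    rw [TW_univ h]; exact sub_Rz hT hz _
  have hχ : TW δ T Set.univ χ - conj z • χ = δ p := by
    rw [TW_univ h]; exact sub_Rz hT hz' _
  have h1 : ev δ ν ψ x = (1 - t x p * ev δ ν ψ p) * gam δ ν par T x z := by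
    refine restrict_ev h hτ hch hF hT hp (Set.subset_univ _) (Set.mem_univ _) hz hψ ?_
    rw [one_smul]
    exact P_delta_self h (self_mem_Desc x)
  have h2 : ev δ ν χ x = (0 - t x p * ev δ ν χ p) * gam δ ν par T x (conj z) := by
    refine restrict_ev h hτ hch hF hT hp (Set.subset_univ _) (Set.mem_univ _) hz' hχ ?_
    rw [zero_smul]
    exact P_delta_zero h (parent_notMem hτ hp)
  -- symmetry
  have h3 : ν p * ev δ ν ψ p = ν x * conj (ev δ ν χ x) := by
    rw [← inner_eq_ev h, hψdef, Rz_symm hT hz, inner_eq_ev h, map_mul, Complex.conj_ofReal]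
  have h4 : conj (ev δ ν χ p) = gre δ ν T p z := hconj T hT p
  have h5 : conj (gam δ ν par T x (conj z)) = gam δ ν par T x z :=
    hconj (TW δ T (Desc par x)) (TW_sa hT _) x
  have h6 : conj (t x p) * ν x = t p x * ν p := (hsym p x).symm
  have h7 : ev δ ν ψ p = - (t p x * gre δ ν T p z * gam δ ν par T x z) := by
    rw [h2, map_mul, map_sub, map_mul, map_zero, h4, h5] at h3
    apply mul_left_cancel₀ hpν
    rw [h3]
    linear_combination (-(gre δ ν T p z) * gam δ ν par T x z) * h6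
  have h8 : gre δ ν T x z = ev δ ν ψ x := rfl
  rw [h8, h1, h7]
  ring

theorem gam_im_pos (h : OTF δ ν) (hT : IsSelfAdjoint T) {z : ℂ} (hz : 0 < z.im) (x : V) :
    0 < (gam δ ν par T x z).im := by
  have h1 := im_inner_Rz (TW_sa (δ := δ) hT (Desc par x)) hz.ne' (δ x)
  have h2 := inner_eq_ev h x (Rz (TW δ T (Desc par x)) z (δ x))
  rw [h2, Complex.im_ofReal_mul] at h1
  have h3 : 0 < z.im * ‖Rz (TW δ T (Desc par x)) z (δ x)‖ ^ 2 := by
    refine mul_pos hz (pow_pos (norm_pos_iff.2 fun h0 => ?_) 2)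
    have h4 := sub_Rz (TW_sa (δ := δ) hT (Desc par x)) hz.ne' (δ x)
    rw [h0, map_zero, smul_zero, sub_zero] at h4
    have h5 := ev_self h x
    rw [← h4] at h5
    simp [ev] at h5
  rw [← h1] at h3
  exact (mul_pos_iff_of_pos_left (h.pos x)).1 h3

theorem gam_norm_le (h : OTF δ ν) (hT : IsSelfAdjoint T) {z : ℂ} (hz : 0 < z.im) (x : V) :
    ‖gam δ ν par T x z‖ ≤ 1 / z.im := by
  have h1 := norm_Rz_le (TW_sa (δ := δ) hT (Desc par x)) hz (δ x)
  have h2 := inner_eq_ev h x (Rz (TW δ T (Desc par x)) z (δ x))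
  have h3 : ‖(inner ℂ (δ x) (Rz (TW δ T (Desc par x)) z (δ x)) : ℂ)‖
      ≤ ‖δ x‖ * ‖Rz (TW δ T (Desc par x)) z (δ x)‖ := norm_inner_le_norm _ _
  rw [h2, norm_mul, Complex.norm_real, Real.norm_of_nonneg (h.pos x).le] at h3
  have h4 : ‖δ x‖ ^ 2 = ν x := by
    have h5 := h.self x
    rw [inner_self_eq_norm_sq_to_K] at h5
    have h6 : ((‖δ x‖ ^ 2 : ℝ) : ℂ) = (ν x : ℂ) := by rw [← h5]; norm_cast
    exact Complex.ofReal_injective h6
  rw [le_div_iff₀ hz]
  have h5 : ν x * ‖ev δ ν (Rz (TW δ T (Desc par x)) z (δ x)) x‖ * z.im ≤ ν x := by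
    calc ν x * ‖ev δ ν (Rz (TW δ T (Desc par x)) z (δ x)) x‖ * z.im
        ≤ ‖δ x‖ * ‖Rz (TW δ T (Desc par x)) z (δ x)‖ * z.im :=
          mul_le_mul_of_nonneg_right h3 hz.le
      _ = ‖δ x‖ * (z.im * ‖Rz (TW δ T (Desc par x)) z (δ x)‖) := by ring
      _ ≤ ‖δ x‖ * ‖δ x‖ := mul_le_mul_of_nonneg_left h1 (norm_nonneg _)
      _ = ν x := by rw [← h4]; ring
  have h6 : ν x * (‖ev δ ν (Rz (TW δ T (Desc par x)) z (δ x)) x‖ * z.im) ≤ ν x * 1 := by
    linarith
  exact le_of_mul_le_mul_left h6 (h.pos x)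

end Operator

end Pool.Agent.X203.GreenTree
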