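import Mathlib
import Pool.Agent.X203.GreenTree

/-!
# Label invariance of the truncated Green functions and boundary limits
-/

namespace Pool.Agent.X203.GreenTree

open scoped ComplexConjugate Topology
open Filter Set

set_option linter.unusedSectionVars false

theorem label_inv_abs {V A : Type*} [Fintype A] [DecidableEq A] (ch : V → Finset V) (a : V → A)
    (κ : A → A → ℝ) (m : A → ℝ) (N : A → A → ℕ) (hκ0 : ∀ k l, 0 ≤ κ k l)
    (hN : ∀ x l, ((ch x).filter (fun c => a c = l)).card = N (a x) l)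
    (G : V → ℂ) {z : ℂ} (hz : 0 < z.im)
    (hG : ∀ x, G x * ((z - m (a x)) + ∑ c ∈ ch x, ((κ (a x) (a c) : ℝ) : ℂ) * G c) = -1)
    (him : ∀ x, 0 < (G x).im) (hle : ∀ x, ‖G x‖ ≤ 1 / z.im) :
    ∀ x y, a x = a y → G x = G y := by
  classical
  set η := z.im with hη
  set S : A → ℝ := fun k => ∑ l, (N k l : ℝ) * κ k l with hS
  have hsumκ : ∀ x, ∑ c ∈ ch x, κ (a x) (a c) = S (a x) := by
    intro x
    rw [← Finset.sum_fiberwise (ch x) a (fun c => κ (a x) (a c)), hS]
    refine Finset.sum_congr rfl fun l _ => ?_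
    rw [Finset.sum_congr rfl (g := fun _ => κ (a x) l)
      (fun c hc => by rw [(Finset.mem_filter.1 hc).2]), Finset.sum_const, hN, nsmul_eq_mul]
  have hS0 : ∀ k, 0 ≤ S k := fun k =>
    Finset.sum_nonneg fun l _ => mul_nonneg (Nat.cast_nonneg _) (hκ0 k l)
  set X : V → ℂ := fun x => (z - m (a x)) + ∑ c ∈ ch x, ((κ (a x) (a c) : ℝ) : ℂ) * G c with hX
  set B : ℝ := 1 + ∑ k, (‖z‖ + |m k| + S k / η) with hB
  have hBterm : ∀ k, 0 ≤ ‖z‖ + |m k| + S k / η := fun k =>
    add_nonneg (add_nonneg (norm_nonneg _) (abs_nonneg _)) (div_nonneg (hS0 k) hz.le)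
  have hBpos : 0 < B := by
    have := Finset.sum_nonneg (s := Finset.univ) fun k _ => hBterm k
    linarith
  have hXB : ∀ x, ‖X x‖ ≤ B := by
    intro x
    have h1 : ‖∑ c ∈ ch x, ((κ (a x) (a c) : ℝ) : ℂ) * G c‖ ≤ S (a x) / η := by
      refine (norm_sum_le _ _).trans ?_
      rw [← hsumκ, Finset.sum_div]
      refine Finset.sum_le_sum fun c _ => ?_
      rw [norm_mul, Complex.norm_real, Real.norm_of_nonneg (hκ0 _ _)]
      have := mul_le_mul_of_nonneg_left (hle c) (hκ0 (a x) (a c))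
      rw [mul_one_div] at this
      exact this
    have h2 : ‖z - (m (a x) : ℂ)‖ ≤ ‖z‖ + |m (a x)| := by
      refine (norm_sub_le _ _).trans ?_
      rw [Complex.norm_real, Real.norm_eq_abs]
    have h3 : ‖X x‖ ≤ ‖z‖ + |m (a x)| + S (a x) / η := (norm_add_le _ _).trans (add_le_add h2 h1)
    have h4 := Finset.single_le_sum (f := fun k => ‖z‖ + |m k| + S k / η)
      (fun k _ => hBterm k) (Finset.mem_univ (a x))
    linarith
  have hGX : ∀ x, G x * X x = -1 := hG
  have hlow : ∀ x, 1 / B ≤ ‖G x‖ := by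
    intro x
    have h1 : ‖G x‖ * ‖X x‖ = 1 := by rw [← norm_mul, hGX]; simp
    rw [div_le_iff₀ hBpos, ← h1]
    exact mul_le_mul_of_nonneg_left (hXB x) (norm_nonneg _)
  set Sg : V → ℝ := fun x => ∑ c ∈ ch x, κ (a x) (a c) * (G c).im with hSg
  have hid : ∀ x, (G x).im = ‖G x‖ ^ 2 * (η + Sg x) := by
    intro x
    rw [GreenLim.im_identity (hGX x)]
    congr 1
    rw [hX, Complex.add_im, Complex.sub_im, Complex.ofReal_im, sub_zero, Complex.im_sum]
    congr 1
    exact Finset.sum_congr rfl fun l _ => Complex.im_ofReal_mul _ _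
  have hSg0 : ∀ x, 0 ≤ Sg x := fun x =>
    Finset.sum_nonneg fun c _ => mul_nonneg (hκ0 _ _) (him c).le
  set ρ : ℝ := 1 - η / B with hρ
  have hred : ∀ x, ‖G x‖ ^ 2 * Sg x ≤ ρ * (G x).im := by
    intro x
    have h1 : ‖G x‖ ^ 2 * Sg x = (G x).im - η * ‖G x‖ ^ 2 := by
      rw [hid x]; ring
    have h2 : (G x).im ≤ ‖G x‖ := Complex.im_le_norm _
    have h3 : η / B * (G x).im ≤ η * ‖G x‖ ^ 2 := by
      calc η / B * (G x).im ≤ η / B * ‖G x‖ :=
            mul_le_mul_of_nonneg_left h2 (div_nonneg hz.le hBpos.le)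
        _ = η * ((1 / B) * ‖G x‖) := by ring
        _ ≤ η * (‖G x‖ * ‖G x‖) := by
            refine mul_le_mul_of_nonneg_left ?_ hz.le
            exact mul_le_mul_of_nonneg_right (hlow x) (norm_nonneg _)
        _ = η * ‖G x‖ ^ 2 := by ring
    rw [h1, hρ]
    linarith
  intro x₀ y₀ hxy₀
  have hρ0 : 0 ≤ ρ := by
    have h1 := hred x₀
    have h2 : 0 ≤ ρ * (G x₀).im := (mul_nonneg (sq_nonneg _) (hSg0 x₀)).trans h1
    exact nonneg_of_mul_nonneg_left h2 (him x₀)
  have hρ1 : ρ < 1 := by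
    have : 0 < η / B := div_pos hz hBpos
    linarith
  set D : ℝ := 2 * B ^ 2 / η ^ 2 with hD
  have hD0 : 0 ≤ D := by positivity
  have hmain : ∀ n : ℕ, ∀ x y, a x = a y →
      ‖G x - G y‖ ≤ ρ ^ n * D * Real.sqrt ((G x).im * (G y).im) := by
    intro n
    induction n with
    | zero =>
      intro x y _
      rw [pow_zero, one_mul]
      have h1 : ‖G x - G y‖ ≤ 2 / η := by
        refine (norm_sub_le _ _).trans ?_
        have := hle x
        have := hle y
        have e : 2 / η = 1 / η + 1 / η := by ring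
        linarith
      have h2 : ∀ v, η / B ^ 2 ≤ (G v).im := by
        intro v
        rw [hid v]
        have h3 : (1 / B) ^ 2 ≤ ‖G v‖ ^ 2 := pow_le_pow_left₀ (by positivity) (hlow v) 2
        calc η / B ^ 2 = (1 / B) ^ 2 * η := by ring
          _ ≤ ‖G v‖ ^ 2 * η := mul_le_mul_of_nonneg_right h3 hz.le
          _ ≤ ‖G v‖ ^ 2 * (η + Sg v) :=
              mul_le_mul_of_nonneg_left (by have := hSg0 v; linarith) (sq_nonneg _)
      have h3 : η / B ^ 2 ≤ Real.sqrt ((G x).im * (G y).im) := by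
        apply Real.le_sqrt_of_sq_le
        rw [sq]
        exact mul_le_mul (h2 x) (h2 y) (by positivity) (him x).le
      calc ‖G x - G y‖ ≤ 2 / η := h1
        _ = D * (η / B ^ 2) := by rw [hD]; field_simp
        _ ≤ D * Real.sqrt ((G x).im * (G y).im) := mul_le_mul_of_nonneg_left h3 hD0
    | succ n ih =>
      intro x y hxy
      have hfib : ∀ l, {c : {c // c ∈ ch x} // a c.1 = l} ≃ {d : {d // d ∈ ch y} // a d.1 = l} := by
        intro l
        refine (Equiv.subtypeSubtypeEquivSubtypeInter (fun c => c ∈ ch x) (fun c => a c = l)).trans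
          (Equiv.trans ?_
            (Equiv.subtypeSubtypeEquivSubtypeInter (fun c => c ∈ ch y) (fun c => a c = l)).symm)
        refine (Equiv.subtypeEquivRight (fun c => (Finset.mem_filter
          (s := ch x) (p := fun c => a c = l) (a := c)).symm)).trans (Equiv.trans ?_
            (Equiv.subtypeEquivRight (fun c => (Finset.mem_filter
              (s := ch y) (p := fun c => a c = l) (a := c)))))
        exact Finset.equivOfCardEq (by rw [hN, hN, hxy])
      set σ : {c // c ∈ ch x} ≃ {d // d ∈ ch y} :=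
        Equiv.ofFiberEquiv (f := fun c : {c // c ∈ ch x} => a c.1)
          (g := fun d : {d // d ∈ ch y} => a d.1) hfib with hσ
      have hσa : ∀ c, a (σ c).1 = a c.1 := fun c =>
        Equiv.ofFiberEquiv_map (f := fun c : {c // c ∈ ch x} => a c.1)
          (g := fun d : {d // d ∈ ch y} => a d.1) hfib c
      have hXy : X y = (z - m (a x)) + ∑ c : {c // c ∈ ch x},
          ((κ (a x) (a c.1) : ℝ) : ℂ) * G (σ c).1 := by
        show (z - (m (a y) : ℂ)) + ∑ c ∈ ch y, ((κ (a y) (a c) : ℝ) : ℂ) * G c = _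
        rw [← hxy]
        congr 1
        rw [← Finset.sum_coe_sort (ch y), ← Equiv.sum_comp σ]
        exact Finset.sum_congr rfl fun c _ => by rw [hσa]
      have hXx : X x = (z - m (a x)) + ∑ c : {c // c ∈ ch x},
          ((κ (a x) (a c.1) : ℝ) : ℂ) * G c.1 := by
        show (z - (m (a x) : ℂ)) + ∑ c ∈ ch x, ((κ (a x) (a c) : ℝ) : ℂ) * G c = _
        congr 1
        rw [← Finset.sum_coe_sort (ch x)]
      have hSgy : Sg y = ∑ c : {c // c ∈ ch x}, κ (a x) (a c.1) * (G (σ c).1).im := by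
        show ∑ c ∈ ch y, κ (a y) (a c) * (G c).im = _
        rw [← hxy]
        rw [← Finset.sum_coe_sort (ch y), ← Equiv.sum_comp σ]
        exact Finset.sum_congr rfl fun c _ => by rw [hσa]
      have hSgx : Sg x = ∑ c : {c // c ∈ ch x}, κ (a x) (a c.1) * (G c.1).im := by
        show ∑ c ∈ ch x, κ (a x) (a c) * (G c).im = _
        rw [← Finset.sum_coe_sort (ch x)]
      set R : ℝ := ρ ^ n * D with hR
      have hR0 : 0 ≤ R := mul_nonneg (pow_nonneg hρ0 n) hD0
      have hdiff : ‖X x - X y‖ ≤ R * (Real.sqrt (Sg x) * Real.sqrt (Sg y)) := by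
        have h1 : X x - X y = ∑ c : {c // c ∈ ch x},
            ((κ (a x) (a c.1) : ℝ) : ℂ) * (G c.1 - G (σ c).1) := by
          rw [hXx, hXy, add_sub_add_left_eq_sub, ← Finset.sum_sub_distrib]
          exact Finset.sum_congr rfl fun c _ => by ring
        rw [h1]
        refine (norm_sum_le _ _).trans ?_
        have h2 : ∀ c : {c // c ∈ ch x}, ‖((κ (a x) (a c.1) : ℝ) : ℂ) * (G c.1 - G (σ c).1)‖
            ≤ R * (Real.sqrt (κ (a x) (a c.1) * (G c.1).im)
              * Real.sqrt (κ (a x) (a c.1) * (G (σ c).1).im)) := by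
          intro c
          rw [norm_mul, Complex.norm_real, Real.norm_of_nonneg (hκ0 _ _)]
          have h3 := mul_le_mul_of_nonneg_left (ih c.1 (σ c).1 (hσa c).symm) (hκ0 (a x) (a c.1))
          have h4 : Real.sqrt (κ (a x) (a c.1) * (G c.1).im)
              * Real.sqrt (κ (a x) (a c.1) * (G (σ c).1).im)
              = κ (a x) (a c.1) * Real.sqrt ((G c.1).im * (G (σ c).1).im) := by
            rw [Real.sqrt_mul (hκ0 _ _), Real.sqrt_mul (hκ0 _ _), Real.sqrt_mul (him c.1).le]
            have h5 := Real.mul_self_sqrt (hκ0 (a x) (a c.1))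
            linear_combination (Real.sqrt (G c.1).im * Real.sqrt (G (σ c).1).im) * h5
          rw [h4]
          calc _ ≤ _ := h3
            _ = _ := by ring
        refine (Finset.sum_le_sum fun c _ => h2 c).trans ?_
        rw [← Finset.mul_sum, hSgx, hSgy]
        refine mul_le_mul_of_nonneg_left ?_ hR0
        exact Real.sum_sqrt_mul_sqrt_le _ (fun c => mul_nonneg (hκ0 _ _) (him _).le)
          (fun c => mul_nonneg (hκ0 _ _) (him _).le)
      have hGG : G x - G y = G x * G y * (X x - X y) := by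
        have h1 := hGX x
        have h2 := hGX y
        linear_combination (-(G y)) * h1 + (G x) * h2
      have hhalf : ∀ v, ‖G v‖ * Real.sqrt (Sg v) ≤ Real.sqrt (ρ * (G v).im) := by
        intro v
        apply Real.le_sqrt_of_sq_le
        rw [mul_pow, Real.sq_sqrt (hSg0 v)]
        exact hred v
      calc ‖G x - G y‖ = ‖G x‖ * ‖G y‖ * ‖X x - X y‖ := by
            rw [hGG, norm_mul, norm_mul]
        _ ≤ ‖G x‖ * ‖G y‖ * (R * (Real.sqrt (Sg x) * Real.sqrt (Sg y))) :=
            mul_le_mul_of_nonneg_left hdiff (by positivity)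
        _ = R * ((‖G x‖ * Real.sqrt (Sg x)) * (‖G y‖ * Real.sqrt (Sg y))) := by ring
        _ ≤ R * (Real.sqrt (ρ * (G x).im) * Real.sqrt (ρ * (G y).im)) :=
            mul_le_mul_of_nonneg_left (mul_le_mul (hhalf x) (hhalf y) (by positivity)
              (Real.sqrt_nonneg _)) hR0
        _ = ρ ^ (n + 1) * D * Real.sqrt ((G x).im * (G y).im) := by
            rw [Real.sqrt_mul hρ0, Real.sqrt_mul hρ0, Real.sqrt_mul (him x).le, hR]
            have h5 := Real.mul_self_sqrt hρ0
            linear_combination (ρ ^ n * D * Real.sqrt (G x).im * Real.sqrt (G y).im) * h5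
  have hlim : Tendsto (fun n : ℕ => ρ ^ n * D * Real.sqrt ((G x₀).im * (G y₀).im)) atTop (𝓝 0) := by
    have h1 := ((tendsto_pow_atTop_nhds_zero_of_lt_one hρ0 hρ1).mul_const D).mul_const
      (Real.sqrt ((G x₀).im * (G y₀).im))
    simpa using h1
  have hfin : ‖G x₀ - G y₀‖ ≤ 0 :=
    ge_of_tendsto' hlim fun n => hmain n x₀ y₀ hxy₀
  exact sub_eq_zero.1 (norm_le_zero_iff.1 hfin)

/-- the limit at every real energy, taken in the upper half plane, exists -/
def HasLim (F : ℂ → ℂ) : Prop :=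
  ∀ E : ℝ, ∃ L, Tendsto F (𝓝[{z : ℂ | 0 < z.im}] (E : ℂ)) (𝓝 L)

theorem HasLim.add {F G : ℂ → ℂ} (hF : HasLim F) (hG : HasLim G) :
    HasLim (fun z => F z + G z) := fun E => by
  obtain ⟨L, hL⟩ := hF E
  obtain ⟨L', hL'⟩ := hG E
  exact ⟨_, hL.add hL'⟩

theorem HasLim.mul {F G : ℂ → ℂ} (hF : HasLim F) (hG : HasLim G) :
    HasLim (fun z => F z * G z) := fun E => by
  obtain ⟨L, hL⟩ := hF E
  obtain ⟨L', hL'⟩ := hG E
  exact ⟨_, hL.mul hL'⟩

theorem HasLim.const (c : ℂ) : HasLim (fun _ => c) := fun _ => ⟨c, tendsto_const_nhds⟩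

theorem HasLim.congr {F G : ℂ → ℂ} (hF : HasLim F) (h : ∀ z : ℂ, 0 < z.im → F z = G z) :
    HasLim G := fun E => by
  obtain ⟨L, hL⟩ := hF E
  refine ⟨L, hL.congr' ?_⟩
  filter_upwards [self_mem_nhdsWithin] with z hz
  exact h z hz

/-- continuity of the boundary values -/
theorem HasLim.continuous_boundary {F : ℂ → ℂ} (hF : HasLim F) :
    ∃ g : ℝ → ℂ, Continuous g ∧
      ∀ E : ℝ, Tendsto F (𝓝[{z : ℂ | 0 < z.im}] (E : ℂ)) (𝓝 (g E)) := by
  set U : Set ℂ := {z : ℂ | 0 < z.im} with hU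
  set B : Set ℂ := Set.range (fun x : ℝ => (x : ℂ)) with hB
  have hsub : B ⊆ closure U := by
    rintro _ ⟨x, rfl⟩
    rw [hU, Complex.closure_setOfPred_lt_im]
    simp
  have h1 : ContinuousOn (extendFrom U F) B := by
    refine continuousOn_extendFrom hsub ?_
    rintro _ ⟨x, rfl⟩
    exact hF x
  refine ⟨fun x => extendFrom U F (x : ℂ), ?_, fun E => ?_⟩
  · exact h1.comp_continuous Complex.continuous_ofReal fun x => ⟨x, rfl⟩
  · exact tendsto_extendFrom (hF E)

theorem labels_occur {V A : Type*} [Fintype A] [DecidableEq A] (ch : V → Finset V) (a : V → A)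
    (root : V) (M : Matrix A A ℕ) (hM2 : ∃ n, ∀ j k, 0 < (M ^ n) j k)
    (hcard : ∀ x l, ((ch x).filter (fun c => a c = l)).card = M (a x) l) :
    ∀ l, ∃ x, a x = l := by
  classical
  obtain ⟨n, hn⟩ := hM2
  have key : ∀ (n : ℕ) (k l : A), 0 < (M ^ n) k l → (∃ x, a x = k) → ∃ x, a x = l := by
    intro n
    induction n with
    | zero =>
      intro k l hkl hx
      rw [pow_zero, Matrix.one_apply] at hkl
      by_cases e : k = l
      · exact e ▸ hx
      · rw [if_neg e] at hkl; exact absurd hkl (lt_irrefl _)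
    | succ n ih =>
      intro k l hkl hx
      rw [pow_succ', Matrix.mul_apply] at hkl
      obtain ⟨i, -, hi⟩ := Finset.exists_ne_zero_of_sum_ne_zero hkl.ne'
      have hi1 : 0 < M k i := Nat.pos_of_ne_zero fun e => hi (by rw [e, zero_mul])
      have hi2 : 0 < (M ^ n) i l := Nat.pos_of_ne_zero fun e => hi (by rw [e, mul_zero])
      refine ih i l hi2 ?_
      obtain ⟨x, hx⟩ := hx
      have hc := hcard x i
      rw [hx] at hc
      obtain ⟨c, hc'⟩ := Finset.card_pos.1 (hc.symm ▸ hi1)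
      exact ⟨c, (Finset.mem_filter.1 hc').2⟩
  intro l
  exact key n (a root) l (hn _ _) ⟨root, rfl⟩

section Final

variable {H : Type*} [NormedAddCommGroup H] [InnerProductSpace ℂ H] [CompleteSpace H]
  {V : Type*} {δ : V → H} {ν : V → ℝ} {par : V → Option V} {root : V}
  {ch : V → Finset V} {t : V → V → ℂ} {w : V → ℝ} {T : H →L[ℂ] H}
  {A : Type*} [Fintype A] [DecidableEq A]

theorem main_abs (h : OTF δ ν) (hτ : Tr par root) (hch : ∀ x y, y ∈ ch x ↔ par y = some x)
    (hF : Form δ ν par ch t w T) (hT : IsSelfAdjoint T)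
    (hsym : ∀ x y, t x y * ν x = conj (t y x) * ν y)
    (a : V → A) (M : Matrix A A ℕ) (hM1 : ∀ j, 1 ≤ M j j)
    (hM2 : ∃ n, ∀ j k, 0 < (M ^ n) j k)
    (hcard : ∀ x l, ((ch x).filter (fun c => a c = l)).card = M (a x) l)
    (κ : A → A → ℝ) (m : A → ℝ) (hκ0 : ∀ k l, 0 ≤ κ k l) (hκpos : ∀ k l, 0 < M k l → 0 < κ k l)
    (hκ : ∀ x, ∀ c ∈ ch x, t x c * t c x = ((κ (a x) (a c) : ℝ) : ℂ))
    (hw : ∀ x, w x = m (a x)) :
    ∀ x, HasLim (gam δ ν par T x) ∧ HasLim (gre δ ν T x) := by
  classical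
  -- every label occurs
  have hlab : ∀ l, ∃ x, a x = l := by
    obtain ⟨n, hn⟩ := hM2
    have key : ∀ (n : ℕ) (k l : A), 0 < (M ^ n) k l → (∃ x, a x = k) → ∃ x, a x = l := by
      intro n
      induction n with
      | zero =>
        intro k l hkl hx
        rw [pow_zero, Matrix.one_apply] at hkl
        by_cases e : k = l
        · exact e ▸ hx
        · rw [if_neg e] at hkl; exact absurd hkl (lt_irrefl _)
      | succ n ih =>
        intro k l hkl hx
        rw [pow_succ', Matrix.mul_apply] at hkl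
        obtain ⟨i, -, hi⟩ := Finset.exists_ne_zero_of_sum_ne_zero hkl.ne'
        have hi1 : 0 < M k i := Nat.pos_of_ne_zero fun e => hi (by rw [e, zero_mul])
        have hi2 : 0 < (M ^ n) i l := Nat.pos_of_ne_zero fun e => hi (by rw [e, mul_zero])
        refine ih i l hi2 ?_
        obtain ⟨x, hx⟩ := hx
        have hc := hcard x i
        rw [hx] at hc
        obtain ⟨c, hc'⟩ := Finset.card_pos.1 (hc.symm ▸ hi1)
        exact ⟨c, (Finset.mem_filter.1 hc').2⟩
    intro l
    exact key n (a root) l (hn _ _) ⟨root, rfl⟩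
  choose rep hrep using hlab
  haveI : Nonempty A := ⟨a root⟩
  -- the equations
  have hGeq : ∀ z : ℂ, 0 < z.im → ∀ x, gam δ ν par T x z * ((z - m (a x))
      + ∑ c ∈ ch x, ((κ (a x) (a c) : ℝ) : ℂ) * gam δ ν par T c z) = -1 := by
    intro z hz x
    have h1 := gam_rec h hτ hch hF hT hz.ne' x
    rw [← hw x]
    rw [← h1]
    congr 2
    exact Finset.sum_congr rfl fun c hc => by rw [hκ x c hc]
  have hinv : ∀ z : ℂ, 0 < z.im → ∀ x y, a x = a y →
      gam δ ν par T x z = gam δ ν par T y z := fun z hz =>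
    label_inv_abs ch a κ m M hκ0 hcard (fun x => gam δ ν par T x z) hz (hGeq z hz)
      (fun x => gam_im_pos h hT hz x) (fun x => gam_norm_le h hT hz x)
  set hh : ℂ → A → ℂ := fun z j => gam δ ν par T (rep j) z with hhdef
  set q : A → A → ℝ := fun j l => κ j l * M j l with hq
  have hq0 : ∀ j l, 0 ≤ q j l := fun j l => mul_nonneg (hκ0 j l) (Nat.cast_nonneg _)
  have hqpos : ∀ j l, 0 < M j l → 0 < q j l := fun j l hjl =>
    mul_pos (hκpos j l hjl) (Nat.cast_pos.2 hjl)
  have hqd : ∀ j, 0 < q j j := fun j => hqpos j j (hM1 j)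
  have heq : ∀ z : ℂ, 0 < z.im → ∀ j,
      hh z j * ((z - m j) + ∑ l, (q j l : ℂ) * hh z l) = -1 := by
    intro z hz j
    have h1 := hGeq z hz (rep j)
    rw [hrep j] at h1
    rw [← h1]
    simp only [hhdef]
    congr 2
    rw [← Finset.sum_fiberwise (ch (rep j)) a]
    refine Finset.sum_congr rfl fun l _ => ?_
    rw [Finset.sum_congr rfl (g := fun _ => ((κ j l : ℝ) : ℂ) * gam δ ν par T (rep l) z)
      (fun c hc => by
        have hcl := (Finset.mem_filter.1 hc).2
        rw [hcl, hinv z hz c (rep l) (by rw [hcl, hrep])]), Finset.sum_const, hcard, hrep,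
      nsmul_eq_mul, hq]
    push_cast
    ring
  have hirr : ∀ v : A → ℝ, (∀ j, 0 ≤ v j) → (∃ j, 0 < v j) →
      (∀ j l, 0 < q j l → 0 < v l → 0 < v j) → ∀ j, 0 < v j := by
    intro v _ hex hstep j
    obtain ⟨l, hl⟩ := hex
    obtain ⟨n, hn⟩ := hM2
    have key : ∀ (n : ℕ) (k : A), 0 < (M ^ n) k l → 0 < v k := by
      intro n
      induction n with
      | zero =>
        intro k hkl
        rw [pow_zero, Matrix.one_apply] at hkl
        by_cases e : k = l
        · exact e ▸ hl
        · rw [if_neg e] at hkl; exact absurd hkl (lt_irrefl _)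
      | succ n ih =>
        intro k hkl
        rw [pow_succ', Matrix.mul_apply] at hkl
        obtain ⟨i, -, hi⟩ := Finset.exists_ne_zero_of_sum_ne_zero hkl.ne'
        have hi1 : 0 < M k i := Nat.pos_of_ne_zero fun e => hi (by rw [e, zero_mul])
        have hi2 : 0 < (M ^ n) i l := Nat.pos_of_ne_zero fun e => hi (by rw [e, mul_zero])
        exact hstep k i (hqpos k i hi1) (ih i hi2)
    exact key n j (hn j l)
  have hlim : ∀ x, HasLim (gam δ ν par T x) := by
    intro x E
    obtain ⟨L, hL⟩ := GreenLim.exists_limit q hq0 hqd hirr m hh heq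
      (fun z hz j => gam_im_pos h hT hz (rep j)) E
    refine ⟨L (a x), (((tendsto_pi_nhds.1 hL) (a x))).congr' ?_⟩
    filter_upwards [self_mem_nhdsWithin] with z hz
    exact hinv z hz _ _ (hrep _)
  intro x
  refine ⟨hlim x, ?_⟩
  have key : ∀ y, Relation.ReflTransGen (fun a b => par b = some a) root y →
      HasLim (gre δ ν T y) := by
    intro y hy
    induction hy with
    | refl =>
      refine (hlim root).congr fun z _ => ?_
      have h1 : Desc par root = Set.univ := Set.eq_univ_of_forall hτ.reach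
      rw [gam, gre, h1, TW_univ h]
    | tail _ hbc ih =>
      rename_i b c _
      have h1 : HasLim (fun z => gam δ ν par T c z
          + (t c b * t b c) * (gam δ ν par T c z * gam δ ν par T c z) * gre δ ν T b z) :=
        (hlim c).add (((HasLim.const _).mul ((hlim c).mul (hlim c))).mul ih)
      refine h1.congr fun z hz => ?_
      rw [gre_rec h hτ hch hF hT hsym hz.ne' hbc]
      ring
  exact key x (hτ.reach x)

end Final

end Pool.Agent.X203.GreenTree
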