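import Mathlib
import Pool.Agent.X203.GreenLabel

/-!
# Boundary continuity of Green functions on trees of finite cone type (Q1, proved)

The weighted space `ℓ²(V, ν)` is `L2 ν`, the `ℓ²`-direct sum of the one dimensional Hilbert spaces
`ℂ` with `⟨a, b⟩ = ν x * conj a * b`.
-/

namespace Pool.Agent.X203.GreenConc

open scoped ComplexConjugate Topology
open Filter Set

/-- `ℂ` with the inner product `⟨a, b⟩ = c * (conj a * b)` -/
def WC (_ : {c : ℝ // 0 < c}) : Type := ℂ

noncomputable instance (c : {c : ℝ // 0 < c}) : AddCommGroup (WC c) :=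
  inferInstanceAs (AddCommGroup ℂ)

noncomputable instance (c : {c : ℝ // 0 < c}) : Module ℂ (WC c) :=
  inferInstanceAs (Module ℂ ℂ)

/-- the identity map `WC c → ℂ` -/
def WC.toC {c : {c : ℝ // 0 < c}} (a : WC c) : ℂ := a

theorem core_symm (c : {c : ℝ // 0 < c}) (a b : WC c) :
    conj ((c.1 : ℂ) * (conj b.toC * a.toC)) = (c.1 : ℂ) * (conj a.toC * b.toC) := by
  rw [map_mul, map_mul, Complex.conj_conj, Complex.conj_ofReal]; ring

theorem core_nonneg (c : {c : ℝ // 0 < c}) (a : WC c) :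
    0 ≤ RCLike.re ((c.1 : ℂ) * (conj a.toC * a.toC)) := by
  rw [← Complex.normSq_eq_conj_mul_self, ← Complex.ofReal_mul]
  exact mul_nonneg c.2.le (Complex.normSq_nonneg _)

theorem core_add (c : {c : ℝ // 0 < c}) (a b d : WC c) :
    (c.1 : ℂ) * (conj (a + b).toC * d.toC) = (c.1 : ℂ) * (conj a.toC * d.toC)
      + (c.1 : ℂ) * (conj b.toC * d.toC) := by
  show (c.1 : ℂ) * (conj (a.toC + b.toC) * d.toC) = (c.1 : ℂ) * (conj a.toC * d.toC)
      + (c.1 : ℂ) * (conj b.toC * d.toC)
  rw [map_add]; ring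

theorem core_smul (c : {c : ℝ // 0 < c}) (a b : WC c) (r : ℂ) :
    (c.1 : ℂ) * (conj (r • a).toC * b.toC) = conj r * ((c.1 : ℂ) * (conj a.toC * b.toC)) := by
  show (c.1 : ℂ) * (conj (r * a.toC) * b.toC) = conj r * ((c.1 : ℂ) * (conj a.toC * b.toC))
  rw [map_mul]; ring

theorem core_def (c : {c : ℝ // 0 < c}) (a : WC c)
    (h1 : (c.1 : ℂ) * (conj a.toC * a.toC) = 0) : a = 0 := by
  rw [← Complex.normSq_eq_conj_mul_self, ← Complex.ofReal_mul, Complex.ofReal_eq_zero] at h1
  rcases mul_eq_zero.1 h1 with h2 | h2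
  · exact absurd h2 c.2.ne'
  · exact Complex.normSq_eq_zero.1 h2

/-- the inner product on `WC c` -/
@[reducible] noncomputable def core (c : {c : ℝ // 0 < c}) : InnerProductSpace.Core ℂ (WC c) where
  inner a b := (c.1 : ℂ) * (conj a.toC * b.toC)
  conj_inner_symm a b := core_symm c a b
  re_inner_nonneg a := core_nonneg c a
  add_left a b d := core_add c a b d
  smul_left a b r := core_smul c a b r
  definite a h := core_def c a h

noncomputable instance (c : {c : ℝ // 0 < c}) : NormedAddCommGroup (WC c) :=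
  (core c).toNormedAddCommGroup

noncomputable instance (c : {c : ℝ // 0 < c}) : InnerProductSpace ℂ (WC c) :=
  InnerProductSpace.ofCore (core c).toCore

instance (c : {c : ℝ // 0 < c}) : FiniteDimensional ℂ (WC c) :=
  inferInstanceAs (FiniteDimensional ℂ ℂ)

noncomputable instance (c : {c : ℝ // 0 < c}) : CompleteSpace (WC c) := FiniteDimensional.complete ℂ (WC c)

theorem inner_WC (c : {c : ℝ // 0 < c}) (a b : WC c) :
    (inner ℂ a b : ℂ) = (c.1 : ℂ) * (conj a.toC * b.toC) := rfl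

/-- The weighted space `ℓ²(V, ν)`. -/
noncomputable abbrev L2 {V : Type*} (ν : V → {c : ℝ // 0 < c}) := lp (fun x => WC (ν x)) 2

/-- the value `φ(x)` -/
noncomputable def val {V : Type*} {ν : V → {c : ℝ // 0 < c}} (φ : L2 ν) (x : V) : ℂ := (φ x).toC

open Classical in
/-- the function `δ_x`, equal to `1` at `x` and `0` elsewhere -/
noncomputable def delta {V : Type*} (ν : V → {c : ℝ // 0 < c}) (x : V) : L2 ν :=
  (lp.single 2 x (show WC (ν x) from (1 : ℂ)) : lp (fun x => WC (ν x)) 2)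

/-- A rooted tree with vertex set `V`, given by its root and the parent of each vertex. -/
structure RootedTree (V : Type*) where
  root : V
  par : V → Option V
  par_root : par root = none
  reach : ∀ x, Relation.ReflTransGen (fun a b => par b = some a) root x

namespace RootedTree

variable {V : Type*} (τ : RootedTree V)

/-- adjacency: `y` is the parent of `x` or `x` is the parent of `y` -/
def Adj (x y : V) : Prop := τ.par x = some y ∨ τ.par y = some x

/-- `V_x`: the vertex `x` and all its descendants -/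
def sub (x : V) : Set V := {y | Relation.ReflTransGen (fun a b => τ.par b = some a) x y}

theorem mem_sub (x : V) : x ∈ τ.sub x := Relation.ReflTransGen.refl

end RootedTree

/-- `τ` with the labelling `a` is the tree `𝕋(M, j)` -/
structure IsConeTree {A V : Type*} (M : Matrix A A ℕ) (j : A) (τ : RootedTree V) (a : V → A) :
    Prop where
  root_label : a τ.root = j
  children : ∀ x l, {y | τ.par y = some x ∧ a y = l}.encard = M (a x) l

/-- the operator `S` is given by `(S φ)(x) = ∑_{y ∼ x} t(x,y) φ(y) + w(x) φ(x)` -/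
def GivenBy {V : Type*} {ν : V → {c : ℝ // 0 < c}} (adj : V → V → Prop) (t : V → V → ℂ)
    (w : V → ℝ) (S : L2 ν →L[ℂ] L2 ν) : Prop :=
  ∀ φ x, val (S φ) x = (∑ᶠ (y : V) (_ : adj x y), t x y * val φ y) + w x * val φ x

/-- the Green function `⟨δ_x, (S - z)⁻¹ δ_x⟩` -/
noncomputable def green {V : Type*} {ν : V → {c : ℝ // 0 < c}} (S : L2 ν →L[ℂ] L2 ν) (x : V)
    (z : ℂ) : ℂ :=
  inner ℂ (delta ν x) (Ring.inverse (S - z • (1 : L2 ν →L[ℂ] L2 ν)) (delta ν x))

/-- `T` is a label invariant operator with coefficients `t`, `w` on the labelled tree. -/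
structure LabelInvariant {A V : Type*} (M : Matrix A A ℕ) (τ : RootedTree V) (a : V → A)
    (ν : V → {c : ℝ // 0 < c}) (t : V → V → ℂ) (w : V → ℝ) (T : L2 ν →L[ℂ] L2 ν) : Prop where
  selfAdjoint : IsSelfAdjoint T
  given : GivenBy τ.Adj t w T
  nonzero : ∀ x y, t x y ≠ 0 ↔ τ.Adj x y
  symm : ∀ x y, t x y * (ν x : ℝ) = conj (t y x) * (ν y : ℝ)
  inv : ∃ (m₂ : A → A → ℝ) (m₁ : A → ℝ),
    (∀ x y, τ.Adj x y → ‖t x y‖ ^ 2 * M (a x) (a y) = m₂ (a x) (a y)) ∧ ∀ x, w x = m₁ (a x)

/-- `S` is the truncated operator `T_x` on `ℓ²(V_x, ν)`. -/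
def IsTruncation {V : Type*} (τ : RootedTree V) {ν : V → {c : ℝ // 0 < c}} (t : V → V → ℂ)
    (w : V → ℝ) (x : V)
    (S : L2 (fun u : τ.sub x => ν u) →L[ℂ] L2 (fun u : τ.sub x => ν u)) : Prop :=
  GivenBy (fun u v : τ.sub x => τ.Adj u v) (fun u v => t u v) (fun u => w u) S

section Aux

variable {V : Type*} {ν : V → {c : ℝ // 0 < c}}

theorem inner_delta (x : V) (f : L2 ν) :
    (inner ℂ (delta ν x) f : ℂ) = ((ν x).1 : ℂ) * val f x := by
  classical
  have h1 : (inner ℂ (delta ν x) f : ℂ) = inner ℂ (show WC (ν x) from (1 : ℂ)) (f x) := by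
    unfold delta
    convert lp.inner_single_left (𝕜 := ℂ) (G := fun x => WC (ν x)) x
      (show WC (ν x) from (1 : ℂ)) f
  rw [h1, inner_WC]
  show ((ν x).1 : ℂ) * (conj (1 : ℂ) * val f x) = _
  rw [map_one, one_mul]

theorem val_delta_self (x : V) : val (delta ν x) x = 1 := by
  classical
  unfold val delta
  exact lp.single_apply_self 2 x _

theorem val_delta_ne {x y : V} (h : x ≠ y) : val (delta ν y) x = 0 := by
  classical
  unfold val delta
  exact lp.single_apply_ne 2 y _ h

theorem ext_val {f g : L2 ν} (h : ∀ x, val f x = val g x) : f = g :=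
  lp.ext (funext h)

theorem otf : Pool.Agent.X203.GreenTree.OTF (delta ν) (fun x => ((ν x).1 : ℝ)) where
  pos x := (ν x).2
  orth x y h := by rw [inner_delta, val_delta_ne h, mul_zero]
  self x := by rw [inner_delta, val_delta_self, mul_one]
  total f h := by
    apply ext_val
    intro x
    have h1 := h x
    rw [inner_delta] at h1
    rcases mul_eq_zero.1 h1 with h2 | h2
    · exact absurd (Complex.ofReal_eq_zero.1 h2) (ν x).2.ne'
    · rw [h2]; rfl

theorem ev_eq (f : L2 ν) (x : V) :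
    Pool.Agent.X203.GreenTree.ev (delta ν) (fun x => ((ν x).1 : ℝ)) f x = val f x := by
  have h2 : ((ν x).1 : ℂ) ≠ 0 := by exact_mod_cast (ν x).2.ne'
  rw [Pool.Agent.X203.GreenTree.ev, inner_delta, mul_div_cancel_left₀ _ h2]

theorem val_add (f g : L2 ν) (x : V) : val (f + g) x = val f x + val g x := rfl

theorem val_smul (a : ℂ) (f : L2 ν) (x : V) : val (a • f) x = a * val f x := rfl

open Classical in
/-- the inclusion of the summand at `x` -/
noncomputable def incl (ν : V → {c : ℝ // 0 < c}) (x : V) : WC (ν x) →ₗᵢ[ℂ] L2 ν where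
  toLinearMap := lp.lsingle (𝕜 := ℂ) (E := fun x => WC (ν x)) 2 x
  norm_map' := fun a => lp.norm_single (E := fun x => WC (ν x)) (p := 2) (by norm_num) x a

open Classical in
theorem incl_apply (ν : V → {c : ℝ // 0 < c}) (x : V) (a : WC (ν x)) :
    incl ν x a = (lp.single 2 x a : L2 ν) := rfl

theorem inner_delta_incl_self (x : V) (a : WC (ν x)) :
    (inner ℂ (delta ν x) (incl ν x a) : ℂ) = ((ν x).1 : ℂ) * a.toC := by
  classical
  rw [inner_delta]
  congr 1
  unfold val
  rw [incl_apply]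
  congr 1
  exact lp.single_apply_self (E := fun x => WC (ν x)) 2 x a

theorem inner_delta_incl_ne {x y : V} (h : x ≠ y) (a : WC (ν y)) :
    (inner ℂ (delta ν x) (incl ν y a) : ℂ) = 0 := by
  classical
  rw [inner_delta]
  have : val (incl ν y a) x = 0 := by
    unfold val
    rw [incl_apply, lp.single_apply_ne (E := fun x => WC (ν x)) 2 y a h]
    rfl
  rw [this, mul_zero]

theorem inner_incl_ne {x y : V} (h : x ≠ y) (a : WC (ν x)) (b : WC (ν y)) :
    (inner ℂ (incl ν x a) (incl ν y b) : ℂ) = 0 := by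
  classical
  rw [incl_apply, incl_apply, lp.inner_single_left (𝕜 := ℂ) (G := fun x => WC (ν x)),
    lp.single_apply_ne (E := fun x => WC (ν x)) 2 y b h, inner_zero_right]

variable (W : Set V)

theorem orthFam : OrthogonalFamily ℂ (fun u : W => WC (ν u)) (fun u : W => incl ν u.1) := by
  intro u v huv a b
  exact inner_incl_ne (fun e => huv (Subtype.ext e)) a b

/-- extension by zero `ℓ²(W, ν) → ℓ²(V, ν)` -/
noncomputable def J (ν : V → {c : ℝ // 0 < c}) : L2 (fun u : W => ν u) →ₗᵢ[ℂ] L2 ν := (orthFam (ν := ν) W).linearIsometry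

theorem val_J_mem {v : V} (hv : v ∈ W) (f : L2 (fun u : W => ν u)) :
    val (J W ν f) v = val f ⟨v, hv⟩ := by
  have h1 : HasSum (fun u : W => incl ν u.1 (f u)) (J W ν f) :=
    (orthFam (ν := ν) W).hasSum_linearIsometry f
  have h2 := (innerSL ℂ (delta ν v)).hasSum h1
  have h3 : HasSum (fun u : W => (innerSL ℂ (delta ν v)) (incl ν u.1 (f u)))
      ((innerSL ℂ (delta ν v)) (incl ν v (f ⟨v, hv⟩))) := by
    refine hasSum_single (f := fun u : W => (innerSL ℂ (delta ν v)) (incl ν u.1 (f u)))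
      ⟨v, hv⟩ fun u hu => ?_
    simp only [innerSL_apply_apply]
    exact inner_delta_incl_ne (fun e => hu (Subtype.ext e.symm)) _
  have h4 := h2.unique h3
  simp only [innerSL_apply_apply] at h4
  rw [inner_delta, inner_delta_incl_self] at h4
  exact mul_left_cancel₀ (by exact_mod_cast (ν v).2.ne') h4

theorem val_J_notMem {v : V} (hv : v ∉ W) (f : L2 (fun u : W => ν u)) :
    val (J W ν f) v = 0 := by
  have h1 : HasSum (fun u : W => incl ν u.1 (f u)) (J W ν f) :=
    (orthFam (ν := ν) W).hasSum_linearIsometry f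
  have h2 := (innerSL ℂ (delta ν v)).hasSum h1
  have h3 : HasSum (fun u : W => (innerSL ℂ (delta ν v)) (incl ν u.1 (f u))) 0 := by
    have : (fun u : W => (innerSL ℂ (delta ν v)) (incl ν u.1 (f u))) = fun _ => 0 := by
      funext u
      simp only [innerSL_apply_apply]
      exact inner_delta_incl_ne (by rintro rfl; exact hv u.2) _
    rw [this]
    exact hasSum_zero
  have h4 := h2.unique h3
  simp only [innerSL_apply_apply] at h4
  rw [inner_delta] at h4
  rcases mul_eq_zero.1 h4 with h5 | h5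
  · exact absurd (Complex.ofReal_eq_zero.1 h5) (ν v).2.ne'
  · exact h5

theorem J_delta {v : V} (hv : v ∈ W) :
    J W ν (delta (fun u : W => ν u) ⟨v, hv⟩) = delta ν v := by
  apply ext_val
  intro x
  by_cases hx : x ∈ W
  · rw [val_J_mem W hx]
    by_cases hxv : x = v
    · subst hxv
      rw [val_delta_self, val_delta_self]
    · rw [val_delta_ne hxv, val_delta_ne (fun e => hxv (Subtype.mk.inj e))]
  · rw [val_J_notMem W hx, val_delta_ne (by rintro rfl; exact hx hv)]

/-- the neighbour sums over `W` and over `V` agree for functions supported on `W` -/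
theorem finsum_J (adj : V → V → Prop) (t : V → V → ℂ) (v : V) (f : L2 (fun u : W => ν u)) :
    (∑ᶠ (y : V) (_ : adj v y), t v y * val (J W ν f) y)
      = ∑ᶠ (y : W) (_ : adj v y), t v y * val f y := by
  have h1 : (∑ᶠ (y : W) (_ : adj v y), t v y * val f y)
      = ∑ᶠ (y : W), (fun y : V => ∑ᶠ (_ : adj v y), t v y * val (J W ν f) y) y.1 := by
    refine finsum_congr fun y => ?_
    refine finsum_congr_Prop rfl fun _ => ?_
    rw [val_J_mem W y.2]
  have h2 := finsum_subtype_eq_finsum_cond (f := fun y : V => ∑ᶠ (_ : adj v y),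
    t v y * val (J W ν f) y) (fun y => y ∈ W)
  refine Eq.trans ?_ (h1.trans h2).symm
  refine finsum_congr fun y => ?_
  by_cases hy : y ∈ W
  · simp [hy]
  · rw [val_J_notMem W hy]
    simp

end Aux

section Main

variable {V : Type*} {ν : V → {c : ℝ // 0 < c}} {τ : RootedTree V} {t : V → V → ℂ} {w : V → ℝ}

theorem J_comm {T : L2 ν →L[ℂ] L2 ν} (hT : GivenBy τ.Adj t w T) (x : V)
    {S : L2 (fun u : τ.sub x => ν u) →L[ℂ] L2 (fun u : τ.sub x => ν u)}
    (hS : IsTruncation τ t w x S) (f : L2 (fun u : τ.sub x => ν u)) :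
    J (τ.sub x) ν (S f) = Pool.Agent.X203.GreenTree.TW (delta ν) T (τ.sub x) (J (τ.sub x) ν f) := by
  have hP : Pool.Agent.X203.GreenTree.P (delta ν) (τ.sub x) (J (τ.sub x) ν f) = J (τ.sub x) ν f := by
    apply ext_val
    intro v
    rw [← ev_eq, ← ev_eq]
    by_cases hv : v ∈ τ.sub x
    · rw [Pool.Agent.X203.GreenTree.ev_P_mem otf hv]
    · rw [Pool.Agent.X203.GreenTree.ev_P_notMem hv, ev_eq, val_J_notMem _ hv]
  apply ext_val
  intro v
  by_cases hv : v ∈ τ.sub x
  · rw [val_J_mem _ hv, hS f ⟨v, hv⟩, Pool.Agent.X203.GreenTree.TW_apply, hP, ← ev_eq (ν := ν),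
      Pool.Agent.X203.GreenTree.ev_P_mem otf hv, ev_eq, hT, finsum_J, val_J_mem _ hv]
  · rw [val_J_notMem _ hv, ← ev_eq, Pool.Agent.X203.GreenTree.ev_TW_notMem hv]

/-- the truncated operator, as a compression -/
noncomputable def trunc (T : L2 ν →L[ℂ] L2 ν) (W : Set V) :
    L2 (fun u : W => ν u) →L[ℂ] L2 (fun u : W => ν u) :=
  (ContinuousLinearMap.adjoint (J W ν).toContinuousLinearMap) ∘L T ∘L
    (J W ν).toContinuousLinearMap

theorem val_trunc (T : L2 ν →L[ℂ] L2 ν) (W : Set V) (f : L2 (fun u : W => ν u)) (v : W) :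
    val (trunc T W f) v = val (T (J W ν f)) v := by
  have h1 : (inner ℂ (delta (fun u : W => ν u) v) (trunc T W f) : ℂ)
      = inner ℂ (J W ν (delta (fun u : W => ν u) v)) (T (J W ν f)) := by
    unfold trunc
    simp only [ContinuousLinearMap.comp_apply]
    rw [ContinuousLinearMap.adjoint_inner_right]
    rfl
  rw [show (delta (fun u : W => ν u) v) = delta (fun u : W => ν u) ⟨v.1, v.2⟩ from rfl,
    inner_delta, J_delta W v.2, inner_delta] at h1
  exact mul_left_cancel₀ (by exact_mod_cast (ν v).2.ne') h1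

theorem isTruncation_trunc {T : L2 ν →L[ℂ] L2 ν} (hT : GivenBy τ.Adj t w T) (x : V) :
    IsTruncation τ t w x (trunc T (τ.sub x)) := by
  intro f v
  rw [val_trunc, hT, finsum_J, val_J_mem _ v.2]

/-- a truncated operator is self-adjoint -/
theorem truncation_sa {T : L2 ν →L[ℂ] L2 ν} (hT : GivenBy τ.Adj t w T) (hsa : IsSelfAdjoint T)
    (x : V) {S : L2 (fun u : τ.sub x => ν u) →L[ℂ] L2 (fun u : τ.sub x => ν u)}
    (hS : IsTruncation τ t w x S) : IsSelfAdjoint S := by
  rw [ContinuousLinearMap.isSelfAdjoint_iff_isSymmetric]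
  intro f g
  simp only [ContinuousLinearMap.coe_coe]
  rw [← (J (τ.sub x) ν).inner_map_map, ← (J (τ.sub x) ν).inner_map_map f, J_comm hT x hS,
    J_comm hT x hS]
  exact (Pool.Agent.X203.GreenTree.TW_sa hsa _).isSymmetric _ _

/-- the Green function of the truncated operator -/
theorem green_truncation {T : L2 ν →L[ℂ] L2 ν} (hT : GivenBy τ.Adj t w T) (hsa : IsSelfAdjoint T)
    (x : V) {S : L2 (fun u : τ.sub x => ν u) →L[ℂ] L2 (fun u : τ.sub x => ν u)}
    (hS : IsTruncation τ t w x S) {z : ℂ} (hz : z.im ≠ 0) :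
    green S ⟨x, τ.mem_sub x⟩ z = ((ν x).1 : ℂ) *
      Pool.Agent.X203.GreenTree.gam (delta ν) (fun x => ((ν x).1 : ℝ)) τ.par T x z := by
  have hSsa := truncation_sa hT hsa x hS
  set ψ := Pool.Agent.X203.GreenTree.Rz S z (delta (fun u : τ.sub x => ν u) ⟨x, τ.mem_sub x⟩)
    with hψ
  have h1 := Pool.Agent.X203.GreenTree.sub_Rz hSsa hz
    (delta (fun u : τ.sub x => ν u) ⟨x, τ.mem_sub x⟩)
  have h2 := congrArg (J (τ.sub x) ν) h1
  rw [map_sub, map_smul, J_comm hT x hS, J_delta _ (τ.mem_sub x)] at h2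
  have h3 := Pool.Agent.X203.GreenTree.Rz_eq
    (Pool.Agent.X203.GreenTree.TW_sa (δ := delta ν) hsa (τ.sub x)) hz h2
  have h4 : green S ⟨x, τ.mem_sub x⟩ z
      = inner ℂ (delta (fun u : τ.sub x => ν u) ⟨x, τ.mem_sub x⟩) ψ := rfl
  rw [h4, ← (J (τ.sub x) ν).inner_map_map, J_delta _ (τ.mem_sub x), h3, inner_delta]
  rw [Pool.Agent.X203.GreenTree.gam, ev_eq]
  rfl

theorem green_full {T : L2 ν →L[ℂ] L2 ν} (x : V) (z : ℂ) :
    green T x z = ((ν x).1 : ℂ) *
      Pool.Agent.X203.GreenTree.gre (delta ν) (fun x => ((ν x).1 : ℝ)) T x z := by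
  rw [Pool.Agent.X203.GreenTree.gre, ev_eq, ← inner_delta]
  rfl

end Main

/-- **MP_ae9099_mp, Q1 (proved).** -/
theorem result_conc {A : Type*} [Fintype A] [DecidableEq A] (M : Matrix A A ℕ)
    (hM1 : ∀ j, 1 ≤ M j j) (hM2 : ∃ n, ∀ j k, 0 < (M ^ n) j k) (j : A)
    {V : Type*} (τ : RootedTree V) (a : V → A) (hτ : IsConeTree M j τ a)
    (ν : V → {c : ℝ // 0 < c}) (hν : ∀ x y, a x = a y → ν x = ν y)
    (t : V → V → ℂ) (w : V → ℝ) (T : L2 ν →L[ℂ] L2 ν) (hT : LabelInvariant M τ a ν t w T)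
    (x : V) :
    (∃ S, IsTruncation τ t w x (ν := ν) S) ∧
    ∀ S, IsTruncation τ t w x (ν := ν) S →
      ∃ gΓ gG : ℝ → ℂ, Continuous gΓ ∧ Continuous gG ∧
        (∀ E : ℝ, Tendsto (fun η : ℝ => green S ⟨x, τ.mem_sub x⟩ (E + η * Complex.I))
          (𝓝[>] 0) (𝓝 (gΓ E))) ∧
        (∀ E : ℝ, Tendsto (fun η : ℝ => green T x (E + η * Complex.I)) (𝓝[>] 0) (𝓝 (gG E))) ∧
        (∀ E : ℝ, Tendsto (green S ⟨x, τ.mem_sub x⟩) (𝓝[{z : ℂ | 0 < z.im}] (E : ℂ))
          (𝓝 (gΓ E))) ∧
        (∀ E : ℝ, Tendsto (green T x) (𝓝[{z : ℂ | 0 < z.im}] (E : ℂ)) (𝓝 (gG E))) := by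
  classical
  obtain ⟨hsa, hgiven, hnz, hsym, m₂, m₁, hm₂, hm₁⟩ := hT
  have hTr : Pool.Agent.X203.GreenTree.Tr τ.par τ.root := ⟨τ.par_root, τ.reach⟩
  -- finite sets of children
  have hfin : ∀ x, {y | τ.par y = some x}.Finite := by
    intro x
    have h1 : {y | τ.par y = some x} = ⋃ l, {y | τ.par y = some x ∧ a y = l} := by
      ext y; simp
    rw [h1]
    refine Set.finite_iUnion fun l => ?_
    refine Set.finite_of_encard_eq_coe (hτ.children x l)
  set ch : V → Finset V := fun x => (hfin x).toFinset with hchdef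
  have hch : ∀ x y, y ∈ ch x ↔ τ.par y = some x := fun x y => by
    rw [hchdef]; simp
  have hcard : ∀ x l, ((ch x).filter (fun c => a c = l)).card = M (a x) l := by
    intro x l
    have h1 : {y | τ.par y = some x ∧ a y = l} = ((ch x).filter (fun c => a c = l) : Set V) := by
      ext y; simp [hch]
    have h2 := hτ.children x l
    rw [h1, Set.encard_coe_eq_coe_finsetCard] at h2
    exact_mod_cast h2
  have hlab := Pool.Agent.X203.GreenTree.labels_occur ch a τ.root M hM2 hcard
  -- the split form of the operator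
  have hForm : Pool.Agent.X203.GreenTree.Form (delta ν) (fun x => ((ν x).1 : ℝ)) τ.par ch t w T := by
    intro f v
    rw [ev_eq, hgiven]
    congr 1
    · have h1 : {y | τ.Adj v y} = (ch v : Set V) ∪ {y | τ.par v = some y} := by
        ext y
        simp only [RootedTree.Adj, Set.mem_ofPred_eq, Set.mem_union, Finset.mem_coe, hch]
        exact or_comm
      have hdisj : Disjoint (ch v : Set V) {y | τ.par v = some y} := by
        rw [Set.disjoint_left]
        intro y hy hy'
        have h2 : τ.par y = some v := (hch v y).1 hy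
        exact Pool.Agent.X203.GreenTree.parent_notMem hTr hy'
          (Pool.Agent.X203.GreenTree.child_mem_Desc
            (Pool.Agent.X203.GreenTree.self_mem_Desc v) h2)
      have hfin2 : {y | τ.par v = some y}.Finite := by
        rcases hpv : τ.par v with _ | p
        · simp
        · have : {y | some p = some y} = {p} := by ext y; simp [eq_comm]
          rw [this]; exact Set.finite_singleton p
      have h3 : (∑ᶠ (y : V) (_ : τ.Adj v y), t v y * val f y)
          = ∑ᶠ y ∈ (ch v : Set V) ∪ {y | τ.par v = some y}, t v y * val f y := by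
        rw [← h1]; rfl
      rw [h3, finsum_mem_union hdisj (ch v).finite_toSet hfin2, finsum_mem_coe_finset]
      congr 1
      · exact Finset.sum_congr rfl fun y _ => by rw [ev_eq]
      · rw [Pool.Agent.X203.GreenTree.up]
        rcases hpv : τ.par v with _ | p
        · simp
        · have : {y | some p = some y} = {p} := by ext y; simp [eq_comm]
          rw [this, finsum_mem_singleton, Option.elim_some, ev_eq]
    · rw [ev_eq]
  have hsym' : ∀ x y, t x y * (((ν x).1 : ℝ) : ℂ) = conj (t y x) * (((ν y).1 : ℝ) : ℂ) := hsym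
  -- the coefficients
  choose rep hrep using hlab
  set κ : A → A → ℝ := fun k l =>
    if M k l = 0 then 0 else m₂ k l / M k l * ((ν (rep k)).1 / (ν (rep l)).1) with hκdef
  have hνrep : ∀ x, ν (rep (a x)) = ν x := fun x => hν _ _ (hrep _)
  have hm2pos : ∀ k l, 0 < M k l → 0 < m₂ k l := by
    intro k l hkl
    have hc := hcard (rep k) l
    rw [hrep] at hc
    obtain ⟨c, hc'⟩ := Finset.card_pos.1 (hc.symm ▸ hkl)
    obtain ⟨hc1, hc2⟩ := Finset.mem_filter.1 hc'
    have hadj : τ.Adj (rep k) c := Or.inr ((hch _ _).1 hc1)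
    have h1 := hm₂ _ _ hadj
    rw [hrep, hc2] at h1
    rw [← h1]
    have h2 : 0 < ‖t (rep k) c‖ := norm_pos_iff.2 ((hnz _ _).2 hadj)
    positivity
  have hκpos : ∀ k l, 0 < M k l → 0 < κ k l := by
    intro k l hkl
    simp only [hκdef, if_neg hkl.ne']
    have h1 := hm2pos k l hkl
    have h2 := (ν (rep k)).2
    have h3 := (ν (rep l)).2
    positivity
  have hκ0 : ∀ k l, 0 ≤ κ k l := by
    intro k l
    rcases Nat.eq_zero_or_pos (M k l) with h | h
    · simp only [hκdef, if_pos h]; exact le_rfl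
    · exact (hκpos k l h).le
  have hκ : ∀ x, ∀ c ∈ ch x, t x c * t c x = ((κ (a x) (a c) : ℝ) : ℂ) := by
    intro x c hc
    have hpos : 0 < M (a x) (a c) := by
      rw [← hcard x (a c)]
      exact Finset.card_pos.2 ⟨c, Finset.mem_filter.2 ⟨hc, rfl⟩⟩
    have hadj : τ.Adj x c := Or.inr ((hch _ _).1 hc)
    have h1 := hm₂ _ _ hadj
    have h2 := hsym c x
    have hνc : (((ν c).1 : ℝ) : ℂ) ≠ 0 := by exact_mod_cast (ν c).2.ne'
    have hMne : ((M (a x) (a c) : ℕ) : ℝ) ≠ 0 := by exact_mod_cast hpos.ne'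
    have h3 : t x c * t c x * (((ν c).1 : ℝ) : ℂ)
        = ((‖t x c‖ ^ 2 : ℝ) : ℂ) * (((ν x).1 : ℝ) : ℂ) := by
      rw [mul_assoc, h2, ← mul_assoc, ← Complex.normSq_eq_norm_sq, Complex.mul_conj]
    have h4 : κ (a x) (a c) * (ν c).1 = ‖t x c‖ ^ 2 * (ν x).1 := by
      simp only [hκdef, if_neg hpos.ne', hνrep]
      rw [← h1]
      have := (ν c).2.ne'
      field_simp
    apply mul_right_cancel₀ hνc
    rw [h3, ← Complex.ofReal_mul, ← Complex.ofReal_mul, h4]
  have hmain := Pool.Agent.X203.GreenTree.main_abs (otf (ν := ν)) hTr hch hForm hsa hsym' a M hM1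
    hM2 hcard κ m₁ hκ0 hκpos hκ hm₁ x
  refine ⟨⟨_, isTruncation_trunc hgiven x⟩, fun S hS => ?_⟩
  have hΓ : Pool.Agent.X203.GreenTree.HasLim (green S ⟨x, τ.mem_sub x⟩) :=
    ((Pool.Agent.X203.GreenTree.HasLim.const ((ν x).1 : ℂ)).mul hmain.1).congr
      fun z hz => (green_truncation hgiven hsa x hS hz.ne').symm
  have hG : Pool.Agent.X203.GreenTree.HasLim (green T x) :=
    ((Pool.Agent.X203.GreenTree.HasLim.const ((ν x).1 : ℂ)).mul hmain.2).congr
      fun z _ => (green_full x z).symm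
  obtain ⟨gΓ, hc1, hl1⟩ := hΓ.continuous_boundary
  obtain ⟨gG, hc2, hl2⟩ := hG.continuous_boundary
  have hvert : ∀ E : ℝ, Tendsto (fun η : ℝ => (E : ℂ) + η * Complex.I) (𝓝[>] 0)
      (𝓝[{z : ℂ | 0 < z.im}] (E : ℂ)) := by
    intro E
    refine tendsto_nhdsWithin_iff.2 ⟨?_, ?_⟩
    · have h1 : Continuous (fun η : ℝ => (E : ℂ) + η * Complex.I) := by fun_prop
      have h2 := h1.tendsto 0
      simp only [Complex.ofReal_zero, zero_mul, add_zero] at h2
      exact h2.mono_left nhdsWithin_le_nhds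
    · filter_upwards [self_mem_nhdsWithin] with η hη
      simpa using hη
  exact ⟨gΓ, gG, hc1, hc2, fun E => (hl1 E).comp (hvert E), fun E => (hl2 E).comp (hvert E),
    hl1, hl2⟩

end Pool.Agent.X203.GreenConc
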