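import Mathlib

set_option linter.unusedSectionVars false
set_option linter.unusedSimpArgs false

/-! Finite nonnegative almost monotone systems with strong cancellation. -/

namespace Pool.Agent.X203.NN

open Finset

/-- the combination `∑_{m<M} a_m w_m` evaluated at `i` -/
noncomputable def XX (M : ℕ) (w : ℕ → ℕ → ℝ) (a : ℕ → ℝ) (i : ℕ) : ℝ :=
  ∑ m ∈ range M, a m * w m i

/-- `p`-th power of the norm of the combination -/
noncomputable def NW (p : ℝ) (M D : ℕ) (w : ℕ → ℕ → ℝ) (a : ℕ → ℝ) : ℝ :=
  ∑ i ∈ range D, |XX M w a i| ^ p

/-- truncation -/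
noncomputable def tr (N : ℕ) (a : ℕ → ℝ) (m : ℕ) : ℝ := if m < N then a m else 0

/-- the tensor powers of the pair `(1,0), (δ,1)` -/
noncomputable def wT (δ : ℝ) : ℕ → ℕ → ℕ → ℝ
  | 0, m, i => if m = 0 ∧ i = 0 then 1 else 0
  | r + 1, m, i =>
    if m < 2 ^ r then (if i < 2 ^ r then wT δ r m i else 0)
    else (if i < 2 ^ r then δ * wT δ r (m - 2 ^ r) i else wT δ r (m - 2 ^ r) (i - 2 ^ r))

lemma wT_nonneg {δ : ℝ} (hδ : 0 ≤ δ) (r m i : ℕ) : 0 ≤ wT δ r m i := by
  induction r generalizing m i with
  | zero => simp only [wT]; split_ifs <;> norm_num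
  | succ r ih =>
    simp only [wT]
    split_ifs
    · exact ih _ _
    · exact le_rfl
    · exact mul_nonneg hδ (ih _ _)
    · exact ih _ _

/-- abbreviation for the tensor combination -/
noncomputable def XT (δ : ℝ) (r : ℕ) (a : ℕ → ℝ) (i : ℕ) : ℝ := XX (2 ^ r) (wT δ r) a i

/-- second half of a coefficient sequence -/
def hi (r : ℕ) (a : ℕ → ℝ) (m : ℕ) : ℝ := a (2 ^ r + m)

lemma XT_lo (δ : ℝ) (r : ℕ) (a : ℕ → ℝ) {i : ℕ} (h : i < 2 ^ r) :
    XT δ (r + 1) a i = XT δ r a i + δ * XT δ r (hi r a) i := by
  unfold XT XX
  rw [pow_succ, mul_two, sum_range_add, mul_sum]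
  congr 1
  · refine sum_congr rfl fun m hm => ?_
    rw [mem_range] at hm
    simp only [wT, if_pos hm, if_pos h]
  · refine sum_congr rfl fun m hm => ?_
    have : ¬ (2 ^ r + m < 2 ^ r) := by omega
    simp only [wT, if_neg this, if_pos h, hi, Nat.add_sub_cancel_left]
    ring

lemma XT_hi (δ : ℝ) (r : ℕ) (a : ℕ → ℝ) (i : ℕ) :
    XT δ (r + 1) a (2 ^ r + i) = XT δ r (hi r a) i := by
  unfold XT XX
  rw [pow_succ, mul_two, sum_range_add]
  have h2 : ¬ (2 ^ r + i < 2 ^ r) := by omega
  have h1 : ∑ x ∈ range (2 ^ r), a x * wT δ (r + 1) x (2 ^ r + i) = 0 := by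
    apply sum_eq_zero
    intro m hm
    rw [mem_range] at hm
    simp only [wT, if_pos hm, if_neg h2, mul_zero]
  rw [h1, zero_add]
  refine sum_congr rfl fun m hm => ?_
  have : ¬ (2 ^ r + m < 2 ^ r) := by omega
  simp only [wT, if_neg this, if_neg h2, hi, Nat.add_sub_cancel_left]

lemma XT_zero_r (δ : ℝ) (a : ℕ → ℝ) : XT δ 0 a 0 = a 0 := by
  simp [XT, XX, wT]

lemma XT_congr (δ : ℝ) (r : ℕ) {a b : ℕ → ℝ} (h : ∀ m < 2 ^ r, a m = b m) (i : ℕ) :
    XT δ r a i = XT δ r b i := by
  unfold XT XX
  exact sum_congr rfl fun m hm => by rw [h m (mem_range.mp hm)]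

lemma XT_zero_a (δ : ℝ) (r i : ℕ) : XT δ r (fun _ => 0) i = 0 := by
  simp [XT, XX]

lemma XT_neg (δ : ℝ) (r : ℕ) (a : ℕ → ℝ) (i : ℕ) : XT δ r (fun m => - a m) i = - XT δ r a i := by
  simp [XT, XX, sum_neg_distrib]

/-- Schur test. -/
lemma schur {n : ℕ} {p α β : ℝ} (hp : 1 ≤ p) (hα : 0 ≤ α) (A : ℕ → ℕ → ℝ)
    (hA : ∀ i j, 0 ≤ A i j) (hr : ∀ i < n, ∑ j ∈ range n, A i j ≤ α)
    (hc : ∀ j < n, ∑ i ∈ range n, A i j ≤ β) (y : ℕ → ℝ) (hy : ∀ j, 0 ≤ y j) :
    ∑ i ∈ range n, (∑ j ∈ range n, A i j * y j) ^ p ≤
      α ^ (p - 1) * β * ∑ j ∈ range n, y j ^ p := by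
  have key : ∀ i < n, (∑ j ∈ range n, A i j * y j) ^ p ≤
      α ^ (p - 1) * ∑ j ∈ range n, A i j * y j ^ p := by
    intro i hi
    set S := ∑ j ∈ range n, A i j with hS
    have hS0 : 0 ≤ S := sum_nonneg fun j _ => hA i j
    rcases hS0.eq_or_lt with h0 | hpos
    · have hz : ∀ j ∈ range n, A i j = 0 := by
        intro j hj
        exact (sum_eq_zero_iff_of_nonneg fun j _ => hA i j).mp (hS ▸ h0.symm) j hj
      rw [sum_eq_zero fun j hj => by rw [hz j hj, zero_mul], Real.zero_rpow (by linarith)]
      apply mul_nonneg (Real.rpow_nonneg hα _)
      exact sum_nonneg fun j _ => mul_nonneg (hA i j) (Real.rpow_nonneg (hy j) _)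
    · have hconv := (convexOn_rpow hp).map_sum_le (t := range n) (w := fun j => A i j / S)
        (p := y) (fun j _ => div_nonneg (hA i j) hS0)
        (by rw [← sum_div, ← hS, div_self hpos.ne']) (fun j _ => hy j)
      simp only [smul_eq_mul] at hconv
      have e1 : ∑ j ∈ range n, A i j / S * y j = (∑ j ∈ range n, A i j * y j) / S := by
        rw [sum_div]; exact sum_congr rfl fun j _ => by ring
      have e2 : ∑ j ∈ range n, A i j / S * y j ^ p = (∑ j ∈ range n, A i j * y j ^ p) / S := by
        rw [sum_div]; exact sum_congr rfl fun j _ => by ring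
      rw [e1, e2, Real.div_rpow (sum_nonneg fun j _ => mul_nonneg (hA i j) (hy j)) hS0] at hconv
      have hSp : 0 < S ^ p := Real.rpow_pos_of_pos hpos p
      rw [div_le_div_iff₀ hSp hpos] at hconv
      have hSS : S ^ p = S ^ (p - 1) * S := by
        rw [← Real.rpow_add_one hpos.ne']; congr 1; ring
      have h1 : (∑ j ∈ range n, A i j * y j) ^ p ≤
          S ^ (p - 1) * ∑ j ∈ range n, A i j * y j ^ p := by
        have h2 : (∑ j ∈ range n, A i j * y j) ^ p * S ≤
            (S ^ (p - 1) * ∑ j ∈ range n, A i j * y j ^ p) * S := by
          rw [hSS] at hconv; linarith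
        exact le_of_mul_le_mul_right h2 hpos
      refine h1.trans (mul_le_mul_of_nonneg_right ?_
        (sum_nonneg fun j _ => mul_nonneg (hA i j) (Real.rpow_nonneg (hy j) _)))
      exact Real.rpow_le_rpow hS0 (hr i hi) (by linarith)
  calc ∑ i ∈ range n, (∑ j ∈ range n, A i j * y j) ^ p
      ≤ ∑ i ∈ range n, α ^ (p - 1) * ∑ j ∈ range n, A i j * y j ^ p :=
        sum_le_sum fun i hi => key i (mem_range.mp hi)
    _ = α ^ (p - 1) * ∑ j ∈ range n, (∑ i ∈ range n, A i j) * y j ^ p := by
        rw [← mul_sum, sum_comm]
        congr 1
        exact sum_congr rfl fun j _ => by rw [sum_mul]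
    _ ≤ α ^ (p - 1) * ∑ j ∈ range n, β * y j ^ p := by
        refine mul_le_mul_of_nonneg_left (sum_le_sum fun j hj => ?_) (Real.rpow_nonneg hα _)
        exact mul_le_mul_of_nonneg_right (hc j (mem_range.mp hj)) (Real.rpow_nonneg (hy j) _)
    _ = _ := by rw [← mul_sum]; ring

/-- The deviation of the partial sum projection from the coordinate projection. -/
lemma dev {δ : ℝ} (hδ : 0 ≤ δ) (r : ℕ) : ∀ N ≤ 2 ^ r, ∃ A B : ℕ → ℕ → ℝ,
    (∀ i j, 0 ≤ A i j) ∧ (∀ i j, 0 ≤ B i j) ∧
    (∀ i < 2 ^ r, ∑ j ∈ range (2 ^ r), A i j ≤ (1 + δ) ^ r - 1) ∧
    (∀ j < 2 ^ r, ∑ i ∈ range (2 ^ r), A i j ≤ δ * (1 + δ) ^ r) ∧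
    (∀ i < 2 ^ r, ∑ j ∈ range (2 ^ r), B i j ≤ δ * (1 + δ) ^ r) ∧
    (∀ j < 2 ^ r, ∑ i ∈ range (2 ^ r), B i j ≤ (1 + δ) ^ r - 1) ∧
    ∀ (a : ℕ → ℝ) (i : ℕ), i < 2 ^ r → |XT δ r (tr N a) i - tr N (XT δ r a) i| ≤
      ∑ j ∈ range (2 ^ r), (A i j + B i j) * |XT δ r a j| := by
  have hd1 : ∀ (q i : ℕ) (P : Prop) [Decidable P],
      ∑ j ∈ range q, (if i = j ∧ P then (1 : ℝ) else 0) ≤ 1 := by
    intro q i P _
    calc ∑ j ∈ range q, (if i = j ∧ P then (1 : ℝ) else 0)
        ≤ ∑ j ∈ range q, (if i = j then (1 : ℝ) else 0) := by
          refine sum_le_sum fun j _ => ?_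
          by_cases h1 : i = j <;> by_cases h2 : P <;> simp [h1, h2]
      _ ≤ 1 := by
          rw [sum_ite_eq]
          split_ifs <;> norm_num
  have hd2 : ∀ (q j : ℕ) (P : ℕ → Prop) [DecidablePred P],
      ∑ i ∈ range q, (if i = j ∧ P i then (1 : ℝ) else 0) ≤ 1 := by
    intro q j P _
    calc ∑ i ∈ range q, (if i = j ∧ P i then (1 : ℝ) else 0)
        ≤ ∑ i ∈ range q, (if i = j then (1 : ℝ) else 0) := by
          refine sum_le_sum fun i _ => ?_
          by_cases h1 : i = j
          · subst h1; by_cases h2 : P i <;> simp [h2]
          · simp [h1]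
      _ ≤ 1 := by
          rw [sum_ite_eq']
          split_ifs <;> norm_num
  induction r with
  | zero =>
    intro N hN
    refine ⟨fun _ _ => 0, fun _ _ => 0, fun _ _ => le_rfl, fun _ _ => le_rfl, ?_, ?_, ?_, ?_, ?_⟩
    · intro i _; simp
    · intro i _; simpa using hδ
    · intro i _; simpa using hδ
    · intro i _; simp
    · intro a i hi
      have hi0 : i = 0 := by simpa using hi
      subst hi0
      rw [XT_zero_r]
      unfold tr
      rw [XT_zero_r]
      simp
  | succ r ih =>
    intro N hN
    set q := 2 ^ r with hq
    have hpow : (1 : ℝ) ≤ (1 + δ) ^ r := one_le_pow₀ (by linarith)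
    have hps : (1 + δ) ^ (r + 1) = (1 + δ) * (1 + δ) ^ r := by ring
    have h2q : 2 ^ (r + 1) = q + q := by rw [hq, pow_succ, mul_two]
    rcases le_total N q with hNq | hNq
    · obtain ⟨A, B, hA, hB, hAr, hAc, hBr, hBc, hdev⟩ := ih N hNq
      refine ⟨fun i j => if i < q then (if j < q then A i j else
          δ * (A i (j - q) + (if i = j - q ∧ i < N then 1 else 0))) else 0,
        fun i j => if i < q then (if j < q then B i j else δ * B i (j - q)) else 0,
        ?_, ?_, ?_, ?_, ?_, ?_, ?_⟩
      · intro i j; dsimp only; split_ifs
        · exact hA i j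
        · exact mul_nonneg hδ (add_nonneg (hA _ _) (by norm_num))
        · exact mul_nonneg hδ (add_nonneg (hA _ _) le_rfl)
        · exact le_rfl
      · intro i j; dsimp only; split_ifs
        · exact hB i j
        · exact mul_nonneg hδ (hB _ _)
        · exact le_rfl
      · intro i _
        rw [h2q, sum_range_add]
        by_cases hi : i < q
        · simp only [if_pos hi]
          have e1 : ∑ x ∈ range q, (if x < q then A i x else
              δ * (A i (x - q) + (if i = x - q ∧ i < N then 1 else 0))) =
              ∑ x ∈ range q, A i x := sum_congr rfl fun x hx => by rw [if_pos (mem_range.mp hx)]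
          have e2 : ∑ x ∈ range q, (if q + x < q then A i (q + x) else
              δ * (A i (q + x - q) + (if i = q + x - q ∧ i < N then 1 else 0))) =
              δ * (∑ x ∈ range q, A i x + ∑ x ∈ range q, (if i = x ∧ i < N then (1:ℝ) else 0)) := by
            rw [← sum_add_distrib, mul_sum]
            refine sum_congr rfl fun x hx => ?_
            rw [if_neg (by omega), Nat.add_sub_cancel_left]
          rw [e1, e2]
          have h1 := hAr i hi
          have h2 := hd1 q i (i < N)
          rw [hps]
          nlinarith
        · simp only [if_neg hi, sum_const_zero, add_zero]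
          nlinarith
      · intro j _
        rw [h2q, sum_range_add]
        have e2 : ∑ x ∈ range q, (if q + x < q then (if j < q then A (q + x) j else
            δ * (A (q + x) (j - q) + (if q + x = j - q ∧ q + x < N then 1 else 0))) else 0) =
            (0 : ℝ) := sum_eq_zero fun x _ => if_neg (by omega)
        rw [e2, add_zero]
        by_cases hj : j < q
        · have e1 : ∑ x ∈ range q, (if x < q then (if j < q then A x j else
            δ * (A x (j - q) + (if x = j - q ∧ x < N then 1 else 0))) else 0) =
            ∑ x ∈ range q, A x j := sum_congr rfl fun x hx => by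
              rw [if_pos (mem_range.mp hx), if_pos hj]
          rw [e1, hps]
          have h1 := hAc j hj
          nlinarith [mul_nonneg hδ (mul_nonneg hδ (le_trans zero_le_one hpow))]
        · have e1 : ∑ x ∈ range q, (if x < q then (if j < q then A x j else
            δ * (A x (j - q) + (if x = j - q ∧ x < N then 1 else 0))) else 0) =
            δ * (∑ x ∈ range q, A x (j - q) +
              ∑ x ∈ range q, (if x = j - q ∧ x < N then (1:ℝ) else 0)) := by
            rw [← sum_add_distrib, mul_sum]
            refine sum_congr rfl fun x hx => ?_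
            rw [if_pos (mem_range.mp hx), if_neg hj]
          rw [e1, hps]
          have h1 := hAc (j - q) (by omega)
          have h2 := hd2 q (j - q) (fun x => x < N)
          have h3 : ∑ x ∈ range q, A x (j - q) +
              ∑ x ∈ range q, (if x = j - q ∧ x < N then (1:ℝ) else 0) ≤
              δ * (1 + δ) ^ r + 1 := by linarith
          have h4 := mul_le_mul_of_nonneg_left h3 hδ
          nlinarith
      · intro i _
        rw [h2q, sum_range_add]
        by_cases hi : i < q
        · simp only [if_pos hi]
          have e1 : ∑ x ∈ range q, (if x < q then B i x else δ * B i (x - q)) =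
              ∑ x ∈ range q, B i x := sum_congr rfl fun x hx => by rw [if_pos (mem_range.mp hx)]
          have e2 : ∑ x ∈ range q, (if q + x < q then B i (q + x) else δ * B i (q + x - q)) =
              δ * ∑ x ∈ range q, B i x := by
            rw [mul_sum]
            refine sum_congr rfl fun x hx => ?_
            rw [if_neg (by omega), Nat.add_sub_cancel_left]
          rw [e1, e2]
          have h1 := hBr i hi
          rw [hps]
          nlinarith
        · simp only [if_neg hi, sum_const_zero, add_zero]
          positivity
      · intro j _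
        rw [h2q, sum_range_add]
        have e2 : ∑ x ∈ range q, (if q + x < q then (if j < q then B (q + x) j else
            δ * B (q + x) (j - q)) else 0) = (0 : ℝ) := sum_eq_zero fun x _ => if_neg (by omega)
        rw [e2, add_zero]
        by_cases hj : j < q
        · have e1 : ∑ x ∈ range q, (if x < q then (if j < q then B x j else
            δ * B x (j - q)) else 0) = ∑ x ∈ range q, B x j := sum_congr rfl fun x hx => by
              rw [if_pos (mem_range.mp hx), if_pos hj]
          rw [e1, hps]
          have h1 := hBc j hj
          nlinarith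
        · have e1 : ∑ x ∈ range q, (if x < q then (if j < q then B x j else
            δ * B x (j - q)) else 0) = δ * ∑ x ∈ range q, B x (j - q) := by
            rw [mul_sum]
            refine sum_congr rfl fun x hx => ?_
            rw [if_pos (mem_range.mp hx), if_neg hj]
          rw [e1, hps]
          have h1 := hBc (j - q) (by omega)
          have h4 := mul_le_mul_of_nonneg_left h1 hδ
          nlinarith
      · intro a i _
        have hhi : ∀ m, hi r (tr N a) m = 0 := by
          intro m
          unfold hi tr
          rw [if_neg]
          omega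
        rw [h2q, sum_range_add]
        by_cases hi' : i < q
        · rw [XT_lo δ r _ hi']
          have e0 : XT δ r (hi r (tr N a)) i = 0 := by
            have : hi r (tr N a) = fun _ => 0 := funext hhi
            rw [this, XT_zero_a]
          have e1 : tr N (XT δ (r + 1) a) i = tr N (XT δ r a) i +
              (if i < N then δ * XT δ r (hi r a) i else 0) := by
            unfold tr
            split_ifs
            · rw [XT_lo δ r _ hi']
            · simp
          rw [e0, e1, mul_zero, add_zero]
          have h1 := hdev a i hi'
          have h2 : ∀ j < q, |XT δ r a j| ≤ |XT δ (r + 1) a j| + δ * |XT δ (r + 1) a (q + j)| := by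
            intro j hj
            rw [hq, XT_hi, XT_lo δ r _ (hq ▸ hj)]
            have := abs_sub_abs_le_abs_sub (XT δ r a j) (-(δ * XT δ r (hi r a) j))
            rw [sub_neg_eq_add, abs_neg, abs_mul, abs_of_nonneg hδ] at this
            linarith
          have h3 : ∑ j ∈ range q, (A i j + B i j) * |XT δ r a j| ≤
              ∑ j ∈ range q, (A i j + B i j) * (|XT δ (r + 1) a j| +
                δ * |XT δ (r + 1) a (q + j)|) :=
            sum_le_sum fun j hj => mul_le_mul_of_nonneg_left (h2 j (mem_range.mp hj))
              (add_nonneg (hA _ _) (hB _ _))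
          have e2 : ∑ x ∈ range q, ((if i < q then (if x < q then A i x else
              δ * (A i (x - q) + (if i = x - q ∧ i < N then 1 else 0))) else 0) +
              (if i < q then (if x < q then B i x else δ * B i (x - q)) else 0)) *
              |XT δ (r + 1) a x| = ∑ x ∈ range q, (A i x + B i x) * |XT δ (r + 1) a x| :=
            sum_congr rfl fun x hx => by
              simp only [if_pos hi', if_pos (mem_range.mp hx)]
          have e3 : ∑ x ∈ range q, ((if i < q then (if q + x < q then A i (q + x) else
              δ * (A i (q + x - q) + (if i = q + x - q ∧ i < N then 1 else 0))) else 0) +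
              (if i < q then (if q + x < q then B i (q + x) else δ * B i (q + x - q)) else 0)) *
              |XT δ (r + 1) a (q + x)| =
              ∑ x ∈ range q, δ * ((A i x + B i x) * |XT δ (r + 1) a (q + x)|) +
              ∑ x ∈ range q, (if i = x then
                (if i < N then δ * |XT δ (r + 1) a (q + x)| else 0) else 0) := by
            rw [← sum_add_distrib]
            refine sum_congr rfl fun x hx => ?_
            have hn : ¬ (q + x < q) := by omega
            simp only [if_pos hi', if_neg hn, Nat.add_sub_cancel_left]
            by_cases c1 : i = x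
            · subst c1
              by_cases c2 : i < N
              · simp only [c2, and_self, if_true]; ring
              · simp only [c2, and_false, if_true, if_false]; ring
            · simp only [c1, false_and, if_false]; ring
          rw [e2, e3, sum_ite_eq, if_pos (mem_range.mpr hi')]
          have e4 : (if i < N then δ * |XT δ (r + 1) a (q + i)| else 0) =
              |(if i < N then δ * XT δ r (hi r a) i else 0)| := by
            split_ifs
            · rw [hq, XT_hi, abs_mul, abs_of_nonneg hδ]
            · simp
          rw [e4]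
          calc |XT δ r (tr N a) i - (tr N (XT δ r a) i +
                (if i < N then δ * XT δ r (hi r a) i else 0))|
              = |(XT δ r (tr N a) i - tr N (XT δ r a) i) -
                (if i < N then δ * XT δ r (hi r a) i else 0)| := by congr 1; ring
            _ ≤ |XT δ r (tr N a) i - tr N (XT δ r a) i| +
                |(if i < N then δ * XT δ r (hi r a) i else 0)| := abs_sub _ _
            _ ≤ _ := by
                have h5 := h1.trans h3
                have e5 : ∑ j ∈ range q, (A i j + B i j) * (|XT δ (r + 1) a j| +
                    δ * |XT δ (r + 1) a (q + j)|) =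
                    ∑ x ∈ range q, (A i x + B i x) * |XT δ (r + 1) a x| +
                    ∑ x ∈ range q, δ * ((A i x + B i x) * |XT δ (r + 1) a (q + x)|) := by
                  rw [← sum_add_distrib]
                  exact sum_congr rfl fun x _ => by ring
                rw [e5] at h5
                linarith
        · obtain ⟨i', rfl⟩ : ∃ i', i = q + i' := ⟨i - q, by omega⟩
          have e0 : XT δ (r + 1) (tr N a) (q + i') = 0 := by
            rw [hq, XT_hi]
            have : hi r (tr N a) = fun _ => 0 := funext hhi
            rw [this, XT_zero_a]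
          have e1 : tr N (XT δ (r + 1) a) (q + i') = 0 := by
            unfold tr; rw [if_neg]; omega
          rw [e0, e1, sub_zero, abs_zero]
          simp [hi']
    · obtain ⟨N', rfl⟩ : ∃ N', N = q + N' := ⟨N - q, by omega⟩
      obtain ⟨A, B, hA, hB, hAr, hAc, hBr, hBc, hdev⟩ := ih N' (by omega)
      refine ⟨fun i j => if j < q then 0 else (if i < q then δ * A i (j - q) else
          A (i - q) (j - q)),
        fun i j => if j < q then 0 else (if i < q then
          δ * (B i (j - q) + (if i = j - q ∧ ¬ i < N' then 1 else 0)) else B (i - q) (j - q)),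
        ?_, ?_, ?_, ?_, ?_, ?_, ?_⟩
      · intro i j; dsimp only; split_ifs
        · exact le_rfl
        · exact mul_nonneg hδ (hA _ _)
        · exact hA _ _
      · intro i j; dsimp only; split_ifs
        · exact le_rfl
        · exact mul_nonneg hδ (add_nonneg (hB _ _) (by norm_num))
        · exact mul_nonneg hδ (add_nonneg (hB _ _) le_rfl)
        · exact hB _ _
      · intro i hi2
        rw [h2q, sum_range_add]
        have e1 : ∑ x ∈ range q, (if x < q then (0 : ℝ) else (if i < q then δ * A i (x - q) else
          A (i - q) (x - q))) = 0 := sum_eq_zero fun x hx => if_pos (mem_range.mp hx)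
        rw [e1, zero_add]
        by_cases hi' : i < q
        · have e2 : ∑ x ∈ range q, (if q + x < q then (0 : ℝ) else (if i < q then
            δ * A i (q + x - q) else A (i - q) (q + x - q))) = δ * ∑ x ∈ range q, A i x := by
            rw [mul_sum]
            refine sum_congr rfl fun x _ => ?_
            rw [if_neg (by omega), if_pos hi', Nat.add_sub_cancel_left]
          rw [e2, hps]
          have := mul_le_mul_of_nonneg_left (hAr i hi') hδ
          nlinarith
        · have e2 : ∑ x ∈ range q, (if q + x < q then (0 : ℝ) else (if i < q then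
            δ * A i (q + x - q) else A (i - q) (q + x - q))) = ∑ x ∈ range q, A (i - q) x := by
            refine sum_congr rfl fun x _ => ?_
            rw [if_neg (by omega), if_neg hi', Nat.add_sub_cancel_left]
          rw [e2, hps]
          have := hAr (i - q) (by omega)
          nlinarith
      · intro j hj2
        rw [h2q, sum_range_add]
        by_cases hj : j < q
        · simp only [if_pos hj, sum_const_zero, add_zero]
          positivity
        · simp only [if_neg hj]
          have e1 : ∑ x ∈ range q, (if x < q then δ * A x (j - q) else A (x - q) (j - q)) =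
              δ * ∑ x ∈ range q, A x (j - q) := by
            rw [mul_sum]
            exact sum_congr rfl fun x hx => by rw [if_pos (mem_range.mp hx)]
          have e2 : ∑ x ∈ range q, (if q + x < q then δ * A (q + x) (j - q) else
              A (q + x - q) (j - q)) = ∑ x ∈ range q, A x (j - q) := by
            refine sum_congr rfl fun x _ => ?_
            rw [if_neg (by omega), Nat.add_sub_cancel_left]
          rw [e1, e2, hps]
          have := hAc (j - q) (by omega)
          nlinarith
      · intro i hi2
        rw [h2q, sum_range_add]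
        have e1 : ∑ x ∈ range q, (if x < q then (0 : ℝ) else (if i < q then
          δ * (B i (x - q) + (if i = x - q ∧ ¬ i < N' then 1 else 0)) else
          B (i - q) (x - q))) = 0 := sum_eq_zero fun x hx => if_pos (mem_range.mp hx)
        rw [e1, zero_add]
        by_cases hi' : i < q
        · have e2 : ∑ x ∈ range q, (if q + x < q then (0 : ℝ) else (if i < q then
            δ * (B i (q + x - q) + (if i = q + x - q ∧ ¬ i < N' then 1 else 0)) else
            B (i - q) (q + x - q))) = δ * (∑ x ∈ range q, B i x +
              ∑ x ∈ range q, (if i = x ∧ ¬ i < N' then (1:ℝ) else 0)) := by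
            rw [← sum_add_distrib, mul_sum]
            refine sum_congr rfl fun x _ => ?_
            rw [if_neg (by omega), if_pos hi', Nat.add_sub_cancel_left]
          rw [e2, hps]
          have h1 := hBr i hi'
          have h2 := hd1 q i (¬ i < N')
          have h3 : ∑ x ∈ range q, B i x +
              ∑ x ∈ range q, (if i = x ∧ ¬ i < N' then (1:ℝ) else 0) ≤
              δ * (1 + δ) ^ r + 1 := by linarith
          have h4 := mul_le_mul_of_nonneg_left h3 hδ
          nlinarith
        · have e2 : ∑ x ∈ range q, (if q + x < q then (0 : ℝ) else (if i < q then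
            δ * (B i (q + x - q) + (if i = q + x - q ∧ ¬ i < N' then 1 else 0)) else
            B (i - q) (q + x - q))) = ∑ x ∈ range q, B (i - q) x := by
            refine sum_congr rfl fun x _ => ?_
            rw [if_neg (by omega), if_neg hi', Nat.add_sub_cancel_left]
          rw [e2, hps]
          have := hBr (i - q) (by omega)
          nlinarith [mul_nonneg hδ (mul_nonneg hδ (le_trans zero_le_one hpow))]
      · intro j hj2
        rw [h2q, sum_range_add]
        by_cases hj : j < q
        · simp only [if_pos hj, sum_const_zero, add_zero]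
          nlinarith
        · simp only [if_neg hj]
          have e1 : ∑ x ∈ range q, (if x < q then
              δ * (B x (j - q) + (if x = j - q ∧ ¬ x < N' then 1 else 0)) else
              B (x - q) (j - q)) =
              δ * (∑ x ∈ range q, B x (j - q) +
                ∑ x ∈ range q, (if x = j - q ∧ ¬ x < N' then (1:ℝ) else 0)) := by
            rw [← sum_add_distrib, mul_sum]
            exact sum_congr rfl fun x hx => by rw [if_pos (mem_range.mp hx)]
          have e2 : ∑ x ∈ range q, (if q + x < q then
              δ * (B (q + x) (j - q) + (if q + x = j - q ∧ ¬ q + x < N' then 1 else 0)) else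
              B (q + x - q) (j - q)) = ∑ x ∈ range q, B x (j - q) := by
            refine sum_congr rfl fun x _ => ?_
            rw [if_neg (by omega), Nat.add_sub_cancel_left]
          rw [e1, e2, hps]
          have h1 := hBc (j - q) (by omega)
          have h2 := hd2 q (j - q) (fun x => ¬ x < N')
          have h3 : ∑ x ∈ range q, B x (j - q) +
              ∑ x ∈ range q, (if x = j - q ∧ ¬ x < N' then (1:ℝ) else 0) ≤
              (1 + δ) ^ r - 1 + 1 := by linarith
          have h4 := mul_le_mul_of_nonneg_left h3 hδ
          nlinarith
      · intro a i hi2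
        have hhi : hi r (tr (q + N') a) = tr N' (hi r a) := by
          funext m
          unfold hi tr
          rw [← hq]
          by_cases hm : m < N'
          · rw [if_pos (by omega), if_pos hm]
          · rw [if_neg (by omega), if_neg hm]
        have hlo : ∀ i, XT δ r (tr (q + N') a) i = XT δ r a i := by
          intro i
          apply XT_congr
          intro m hm
          unfold tr
          rw [if_pos (by omega)]
        rw [h2q, sum_range_add]
        have e0 : ∑ x ∈ range q, ((if x < q then (0 : ℝ) else (if i < q then δ * A i (x - q) else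
          A (i - q) (x - q))) + (if x < q then 0 else (if i < q then
          δ * (B i (x - q) + (if i = x - q ∧ ¬ i < N' then 1 else 0)) else
          B (i - q) (x - q)))) * |XT δ (r + 1) a x| = 0 := sum_eq_zero fun x hx => by
            rw [if_pos (mem_range.mp hx), if_pos (mem_range.mp hx)]; simp
        rw [e0, zero_add]
        by_cases hi' : i < q
        · rw [XT_lo δ r _ hi', hhi, hlo]
          have e1 : tr (q + N') (XT δ (r + 1) a) i = XT δ r a i + δ * XT δ r (hi r a) i := by
            unfold tr
            rw [if_pos (by omega), XT_lo δ r _ hi']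
          rw [e1]
          have h1 := hdev (hi r a) i hi'
          have e3 : ∑ x ∈ range q, ((if q + x < q then (0 : ℝ) else (if i < q then
              δ * A i (q + x - q) else A (i - q) (q + x - q))) +
              (if q + x < q then 0 else (if i < q then
              δ * (B i (q + x - q) + (if i = q + x - q ∧ ¬ i < N' then 1 else 0)) else
              B (i - q) (q + x - q)))) * |XT δ (r + 1) a (q + x)| =
              δ * ∑ x ∈ range q, (A i x + B i x) * |XT δ r (hi r a) x| +
              ∑ x ∈ range q, (if i = x then
                (if i < N' then 0 else δ * |XT δ r (hi r a) x|) else 0) := by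
            rw [mul_sum, ← sum_add_distrib]
            refine sum_congr rfl fun x hx => ?_
            have hn : ¬ (q + x < q) := by omega
            rw [hq, XT_hi, ← hq]
            simp only [if_pos hi', if_neg hn, Nat.add_sub_cancel_left]
            by_cases c1 : i = x
            · subst c1
              by_cases c2 : i < N'
              · simp only [c2, not_true, and_false, if_true, if_false]; ring
              · simp only [c2, not_false_eq_true, and_self, if_true, if_false]; ring
            · simp only [c1, false_and, if_false]; ring
          rw [e3, sum_ite_eq, if_pos (mem_range.mpr hi')]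
          have e4 : XT δ r a i + δ * XT δ r (tr N' (hi r a)) i -
              (XT δ r a i + δ * XT δ r (hi r a) i) =
              δ * (XT δ r (tr N' (hi r a)) i - tr N' (XT δ r (hi r a)) i) -
              (if i < N' then 0 else δ * XT δ r (hi r a) i) := by
            unfold tr
            split_ifs <;> ring
          have e5 : (if i < N' then 0 else δ * |XT δ r (hi r a) i|) =
              |(if i < N' then 0 else δ * XT δ r (hi r a) i)| := by
            split_ifs
            · simp
            · rw [abs_mul, abs_of_nonneg hδ]
          rw [e4, e5]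
          refine (abs_sub _ _).trans ?_
          rw [abs_mul, abs_of_nonneg hδ]
          have := mul_le_mul_of_nonneg_left h1 hδ
          linarith
        · obtain ⟨i', rfl⟩ : ∃ i', i = q + i' := ⟨i - q, by omega⟩
          have e1 : tr (q + N') (XT δ (r + 1) a) (q + i') = tr N' (XT δ r (hi r a)) i' := by
            unfold tr
            by_cases c : i' < N'
            · rw [if_pos (by omega), if_pos c, hq, XT_hi]
            · rw [if_neg (by omega), if_neg c]
          rw [e1, hq, XT_hi, ← hq, hhi]
          have h1 := hdev (hi r a) i' (by omega)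
          refine h1.trans (le_of_eq ?_)
          refine sum_congr rfl fun x hx => ?_
          have hn : ¬ (q + x < q) := by omega
          rw [hq, XT_hi, ← hq]
          simp only [if_neg hi', if_neg hn, Nat.add_sub_cancel_left]

end Pool.Agent.X203.NN
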