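import Mathlib
import Pool.Agent.X203.NNA

set_option linter.unusedSectionVars false
set_option linter.unusedSimpArgs false

namespace Pool.Agent.X203.NN

open Finset

/-- the signs read off an equivalence -/
noncomputable def sgn {N : ℕ} (e : Fin (2 * N) ≃ Bool × Fin N) (m : ℕ) : ℝ :=
  if h : m < 2 * N then (if (e ⟨m, h⟩).1 then 1 else -1) else 0

lemma exists_equiv (N : ℕ) (s : ℕ → ℝ) (hs : ∀ m < 2 * N, s m = 1 ∨ s m = -1)
    (h0 : ∑ m ∈ range (2 * N), s m = 0) :
    ∃ e : Fin (2 * N) ≃ Bool × Fin N, ∀ m < 2 * N, sgn e m = s m := by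
  classical
  let A : Fin (2 * N) → Prop := fun m => s m = -1
  have hcard : Fintype.card {m // A m} = N ∧ Fintype.card {m // ¬ A m} = N := by
    have h1 : Fintype.card {m // A m} + Fintype.card {m // ¬ A m} = 2 * N := by
      rw [← Fintype.card_sum, Fintype.card_congr (Equiv.sumCompl A), Fintype.card_fin]
    have h2 : ∑ m : Fin (2 * N), s m = 0 := by
      rw [← h0, Finset.sum_range]
    have h3 : ∑ m : Fin (2 * N), s m =
        (Fintype.card {m // ¬ A m} : ℝ) - Fintype.card {m // A m} := by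
      have e1 : ∀ m : Fin (2 * N), s m = (if ¬ A m then 1 else 0) - (if A m then 1 else 0) := by
        intro m
        by_cases h : A m
        · simp only [h, not_true, if_false, if_true]
          have : s m = -1 := h
          rw [this]; norm_num
        · simp only [h, not_false_eq_true, if_false, if_true]
          rcases hs m m.2 with h' | h'
          · rw [h']; norm_num
          · exact (h h').elim
      rw [sum_congr rfl fun m _ => e1 m, sum_sub_distrib, Fintype.card_subtype,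
        Fintype.card_subtype, Finset.sum_boole, Finset.sum_boole]
    rw [h2] at h3
    have h4 : (Fintype.card {m // ¬ A m} : ℝ) = Fintype.card {m // A m} := by linarith
    have h5 : Fintype.card {m // ¬ A m} = Fintype.card {m // A m} := by exact_mod_cast h4
    omega
  let e1 : Fin (2 * N) ≃ Fin N ⊕ Fin N := (Equiv.sumCompl A).symm.trans
    (Equiv.sumCongr (Fintype.equivFinOfCardEq hcard.1) (Fintype.equivFinOfCardEq hcard.2))
  refine ⟨e1.trans (Equiv.boolProdEquivSum (Fin N)).symm, fun m hm => ?_⟩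
  unfold sgn
  rw [dif_pos hm]
  by_cases hA : A ⟨m, hm⟩
  · have : s m = -1 := hA
    simp [e1, Equiv.sumCompl_symm_apply_of_pos hA, this]
  · have : s m = 1 := by
      rcases hs m hm with h | h
      · exact h
      · exact (hA h).elim
    simp [e1, Equiv.sumCompl_symm_apply_of_neg hA, this]

/-- tensor signs -/
noncomputable def sT : ℕ → ℕ → ℝ
  | 0, _ => 1
  | r + 1, m => if m < 2 ^ r then sT r m else - sT r (m - 2 ^ r)

lemma sT_pm (r m : ℕ) : sT r m = 1 ∨ sT r m = -1 := by
  induction r generalizing m with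
  | zero => left; rfl
  | succ r ih =>
    unfold sT
    split_ifs
    · exact ih m
    · rcases ih (m - 2 ^ r) with h | h <;> rw [h] <;> norm_num

lemma sT_hi (r : ℕ) : hi r (sT (r + 1)) = fun m => - sT r m := by
  funext m
  unfold hi
  rw [sT, if_neg (by omega), Nat.add_sub_cancel_left]

lemma sT_sum (r : ℕ) : ∑ m ∈ range (2 ^ (r + 1)), sT (r + 1) m = 0 := by
  rw [pow_succ, mul_two, sum_range_add]
  have e1 : ∑ x ∈ range (2 ^ r), sT (r + 1) x = ∑ x ∈ range (2 ^ r), sT r x :=
    sum_congr rfl fun x hx => by rw [sT, if_pos (mem_range.mp hx)]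
  have e2 : ∑ x ∈ range (2 ^ r), sT (r + 1) (2 ^ r + x) = ∑ x ∈ range (2 ^ r), - sT r x :=
    sum_congr rfl fun x _ => congrFun (sT_hi r) x
  rw [e1, e2, sum_neg_distrib]
  ring

/-- the tensor norm -/
noncomputable def NT (p δ : ℝ) (r : ℕ) (a : ℕ → ℝ) : ℝ := ∑ i ∈ range (2 ^ r), |XT δ r a i| ^ p

lemma NT_nonneg (p δ : ℝ) (r : ℕ) (a : ℕ → ℝ) : 0 ≤ NT p δ r a :=
  sum_nonneg fun _ _ => Real.rpow_nonneg (abs_nonneg _) _

lemma NT_sT {p δ : ℝ} (hδ : 0 < δ) (hδ1 : δ < 1) (r : ℕ) :
    NT p δ r (sT r) = (1 + (1 - δ) ^ p) ^ r := by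
  induction r with
  | zero =>
    unfold NT
    rw [pow_zero, range_one, sum_singleton, XT_zero_r, pow_zero]
    simp [sT]
  | succ r ih =>
    unfold NT at ih ⊢
    rw [pow_succ, mul_two, sum_range_add, pow_succ, ← ih]
    have hlo : ∀ i, XT δ r (sT (r + 1)) i = XT δ r (sT r) i := by
      intro i
      apply XT_congr
      intro m hm
      rw [sT, if_pos hm]
    have e1 : ∑ x ∈ range (2 ^ r), |XT δ (r + 1) (sT (r + 1)) x| ^ p =
        (1 - δ) ^ p * ∑ x ∈ range (2 ^ r), |XT δ r (sT r) x| ^ p := by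
      rw [mul_sum]
      refine sum_congr rfl fun x hx => ?_
      rw [XT_lo δ r _ (mem_range.mp hx), sT_hi, XT_neg, hlo]
      rw [show XT δ r (sT r) x + δ * -XT δ r (sT r) x = (1 - δ) * XT δ r (sT r) x by ring,
        abs_mul, abs_of_pos (by linarith : 0 < 1 - δ),
        Real.mul_rpow (by linarith) (abs_nonneg _)]
    have e2 : ∑ x ∈ range (2 ^ r), |XT δ (r + 1) (sT (r + 1)) (2 ^ r + x)| ^ p =
        ∑ x ∈ range (2 ^ r), |XT δ r (sT r) x| ^ p := by
      refine sum_congr rfl fun x _ => ?_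
      rw [XT_hi, sT_hi, XT_neg, abs_neg]
    rw [e1, e2]
    ring

lemma XT_lin (δ : ℝ) (r : ℕ) (a b : ℕ → ℝ) (i : ℕ) :
    XT δ r (fun m => a m + δ * b m) i = XT δ r a i + δ * XT δ r b i := by
  unfold XT XX
  rw [mul_sum, ← sum_add_distrib]
  exact sum_congr rfl fun m _ => by ring

lemma sum_le_XT {δ : ℝ} (hδ : 0 ≤ δ) (hδ1 : δ ≤ 1) (r : ℕ) : ∀ a : ℕ → ℝ,
    |∑ m ∈ range (2 ^ r), a m| ≤ ∑ i ∈ range (2 ^ r), |XT δ r a i| := by
  induction r with
  | zero => intro a; simp [XT, XX, wT]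
  | succ r ih =>
    intro a
    rw [pow_succ, mul_two, sum_range_add, sum_range_add]
    have h1 := ih (fun m => a m + δ * hi r a m)
    have h2 := ih (hi r a)
    have e1 : ∑ x ∈ range (2 ^ r), |XT δ (r + 1) a x| =
        ∑ x ∈ range (2 ^ r), |XT δ r (fun m => a m + δ * hi r a m) x| :=
      sum_congr rfl fun x hx => by rw [XT_lo δ r _ (mem_range.mp hx), XT_lin]
    have e2 : ∑ x ∈ range (2 ^ r), |XT δ (r + 1) a (2 ^ r + x)| =
        ∑ x ∈ range (2 ^ r), |XT δ r (hi r a) x| :=
      sum_congr rfl fun x _ => by rw [XT_hi]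
    rw [e1, e2]
    have e3 : ∑ x ∈ range (2 ^ r), a x + ∑ x ∈ range (2 ^ r), a (2 ^ r + x) =
        ∑ m ∈ range (2 ^ r), (a m + δ * hi r a m) + (1 - δ) * ∑ m ∈ range (2 ^ r), hi r a m := by
      rw [sum_add_distrib, ← mul_sum]
      unfold hi
      ring
    rw [e3]
    refine (abs_add_le _ _).trans ?_
    rw [abs_mul, abs_of_nonneg (by linarith : 0 ≤ 1 - δ)]
    have h3 : (1 - δ) * |∑ m ∈ range (2 ^ r), hi r a m| ≤ ∑ x ∈ range (2 ^ r), |XT δ r (hi r a) x| := by
      calc (1 - δ) * |∑ m ∈ range (2 ^ r), hi r a m| ≤ 1 * |∑ m ∈ range (2 ^ r), hi r a m| :=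
            mul_le_mul_of_nonneg_right (by linarith) (abs_nonneg _)
        _ ≤ _ := by rw [one_mul]; exact h2
    linarith

/-- ℓ₁–ℓ_p comparison -/
lemma l1_lp {p : ℝ} (hp : 1 ≤ p) (n : ℕ) (x : ℕ → ℝ) :
    ∑ i ∈ range n, |x i| ≤ (n : ℝ) ^ (1 - 1 / p) * (∑ i ∈ range n, |x i| ^ p) ^ (1 / p) := by
  have h := Real.rpow_sum_le_const_mul_sum_rpow (range n) x hp
  rw [card_range] at h
  have hp0 : 0 < p := by linarith
  have h2 := Real.rpow_le_rpow (Real.rpow_nonneg (sum_nonneg fun i _ => abs_nonneg (x i)) p) h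
    (by positivity : 0 ≤ 1 / p)
  rw [← Real.rpow_mul (sum_nonneg fun i _ => abs_nonneg (x i)), mul_one_div_cancel hp0.ne',
    Real.rpow_one, Real.mul_rpow (by positivity)
      (sum_nonneg fun i _ => Real.rpow_nonneg (abs_nonneg _) _),
    ← Real.rpow_mul (by positivity)] at h2
  have e1 : (p - 1) * (1 / p) = 1 - 1 / p := by field_simp
  rwa [e1] at h2

lemma lp_add3 {p : ℝ} (hp : 1 ≤ p) (n : ℕ) (x f g h : ℕ → ℝ) (hf : ∀ i, 0 ≤ f i)
    (hg : ∀ i, 0 ≤ g i) (hh : ∀ i, 0 ≤ h i) (hx : ∀ i < n, |x i| ≤ f i + g i + h i) :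
    (∑ i ∈ range n, |x i| ^ p) ^ (1 / p) ≤ (∑ i ∈ range n, f i ^ p) ^ (1 / p) +
      (∑ i ∈ range n, g i ^ p) ^ (1 / p) + (∑ i ∈ range n, h i ^ p) ^ (1 / p) := by
  have hp0 : 0 < p := by linarith
  have h1 : (∑ i ∈ range n, |x i| ^ p) ^ (1 / p) ≤
      (∑ i ∈ range n, (f i + g i + h i) ^ p) ^ (1 / p) := by
    apply Real.rpow_le_rpow (sum_nonneg fun i _ => Real.rpow_nonneg (abs_nonneg _) _) _
      (by positivity)
    exact sum_le_sum fun i hi => Real.rpow_le_rpow (abs_nonneg _) (hx i (mem_range.mp hi)) hp0.le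
  have h2 := Real.Lp_add_le_of_nonneg (range n) hp (f := fun i => f i + g i) (g := h)
    (fun i _ => add_nonneg (hf i) (hg i)) (fun i _ => hh i)
  have h3 := Real.Lp_add_le_of_nonneg (range n) hp (f := f) (g := g)
    (fun i _ => hf i) (fun i _ => hg i)
  linarith

/-- The required system, as a statement. -/
def WS (p ε θ : ℝ) (N D : ℕ) (w : ℕ → ℕ → ℝ) (e : Fin (2 * N) ≃ Bool × Fin N) : Prop :=
  0 < N ∧ (∀ m i, 0 ≤ w m i) ∧
  (∀ a K, K ≤ 2 * N → NW p (2 * N) D w (tr K a) ^ (1 / p) ≤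
    (1 + ε) * NW p (2 * N) D w a ^ (1 / p)) ∧
  (∀ a : ℕ → ℝ, |∑ m ∈ range (2 * N), a m| ≤
    ((2 * N : ℕ) : ℝ) ^ (1 - 1 / p) * NW p (2 * N) D w a ^ (1 / p)) ∧
  NW p (2 * N) D w (sgn e) ^ (1 / p) ≤ θ * ((2 * N : ℕ) : ℝ) ^ (1 / p)

lemma NW_congr {p : ℝ} {M D : ℕ} {w : ℕ → ℕ → ℝ} {a b : ℕ → ℝ} (h : ∀ m < M, a m = b m) :
    NW p M D w a = NW p M D w b := by
  unfold NW XX
  refine sum_congr rfl fun i _ => ?_
  congr 2
  exact sum_congr rfl fun m hm => by rw [h m (mem_range.mp hm)]

/-- the case `p > 1` -/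
theorem WS_gt {p : ℝ} (hp : 1 < p) {ε θ : ℝ} (hε : 0 < ε) (hθ : 0 < θ) :
    ∃ N D w e, WS p ε θ N D w e := by
  have hp0 : 0 < p := by linarith
  -- the parameter `L`
  obtain ⟨L, hL0, hL⟩ : ∃ L : ℝ, 0 < L ∧ Real.exp (-(L / 2)) ≤ θ ^ p := by
    have hpos : 0 < θ ^ p := Real.rpow_pos_of_pos hθ p
    refine ⟨max 1 (-2 * Real.log (θ ^ p)), by positivity, ?_⟩
    rw [← Real.le_log_iff_exp_le hpos]
    have := le_max_right 1 (-2 * Real.log (θ ^ p))
    linarith
  -- the parameter `δ`
  obtain ⟨δ, hδ0, hδ1, hδ⟩ : ∃ δ : ℝ, 0 < δ ∧ δ < 1 ∧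
      δ ^ (1 / p) * Real.exp (L + 1) + δ ^ (1 - 1 / p) * Real.exp (L + 1) < ε := by
    have h1 : Filter.Tendsto (fun δ : ℝ => δ ^ (1 / p) * Real.exp (L + 1) +
        δ ^ (1 - 1 / p) * Real.exp (L + 1)) (nhdsWithin 0 (Set.Ioi 0)) (nhds 0) := by
      have a1 : 0 < 1 / p := by positivity
      have a2 : 0 < 1 - 1 / p := by
        rw [sub_pos, div_lt_one hp0]; exact hp
      have t1 : Filter.Tendsto (fun δ : ℝ => δ ^ (1 / p)) (nhds 0) (nhds 0) := by
        have := (Real.continuousAt_rpow_const 0 (1 / p) (Or.inr a1.le)).tendsto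
        rwa [Real.zero_rpow a1.ne'] at this
      have t2 : Filter.Tendsto (fun δ : ℝ => δ ^ (1 - 1 / p)) (nhds 0) (nhds 0) := by
        have := (Real.continuousAt_rpow_const 0 (1 - 1 / p) (Or.inr a2.le)).tendsto
        rwa [Real.zero_rpow a2.ne'] at this
      have := ((t1.mul_const (Real.exp (L + 1))).add (t2.mul_const (Real.exp (L + 1))))
      simp only [zero_mul, add_zero] at this
      exact this.mono_left nhdsWithin_le_nhds
    have h2 := h1.eventually (gt_mem_nhds hε)
    have h3 : ∀ᶠ δ : ℝ in nhdsWithin 0 (Set.Ioi 0), δ < 1 :=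
      (Filter.Eventually.filter_mono nhdsWithin_le_nhds (gt_mem_nhds one_pos))
    have h4 : ∀ᶠ δ : ℝ in nhdsWithin 0 (Set.Ioi 0), 0 < δ := self_mem_nhdsWithin
    obtain ⟨δ, ⟨h5, h6⟩, h7⟩ := ((h2.and h3).and h4).exists
    exact ⟨δ, h7, h6, h5⟩
  -- the number of factors
  obtain ⟨r, hr1, hr2, hr3⟩ : ∃ r : ℕ, 0 < r ∧ L ≤ δ * r ∧ δ * r ≤ L + 1 := by
    refine ⟨⌈L / δ⌉₊, Nat.ceil_pos.mpr (by positivity), ?_, ?_⟩
    · have := Nat.le_ceil (L / δ)
      rw [div_le_iff₀ hδ0] at this
      linarith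
    · have := (Nat.ceil_lt_add_one (by positivity : 0 ≤ L / δ)).le
      have h2 := mul_le_mul_of_nonneg_left this hδ0.le
      have h3 : δ * (L / δ + 1) = L + δ := by field_simp
      linarith
  obtain ⟨r', rfl⟩ : ∃ r', r = r' + 1 := ⟨r - 1, by omega⟩
  have h2N : 2 * 2 ^ r' = 2 ^ (r' + 1) := by rw [pow_succ, mul_comm]
  obtain ⟨e, he⟩ := exists_equiv (2 ^ r') (sT (r' + 1)) (fun m _ => sT_pm _ _)
    (by rw [h2N]; exact sT_sum r')
  set ρ := (1 + δ) ^ (r' + 1) with hρ
  have hρ1 : 1 ≤ ρ := one_le_pow₀ (by linarith)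
  have hρe : ρ ≤ Real.exp (L + 1) := by
    calc ρ ≤ (Real.exp δ) ^ (r' + 1) := by
          apply pow_le_pow_left₀ (by linarith)
          have := Real.add_one_le_exp δ
          linarith
      _ = Real.exp (δ * (r' + 1 : ℕ)) := by rw [← Real.exp_nat_mul]; ring_nf
      _ ≤ _ := Real.exp_le_exp.mpr hr3
  have hNT : ∀ a, NW p (2 * 2 ^ r') (2 * 2 ^ r') (wT δ (r' + 1)) a = NT p δ (r' + 1) a := by
    intro a
    unfold NW NT XT
    rw [h2N]
  refine ⟨2 ^ r', 2 * 2 ^ r', wT δ (r' + 1), e, by positivity, wT_nonneg hδ0.le _, ?_, ?_, ?_⟩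
  · intro a K hK
    rw [hNT, hNT]
    rw [h2N] at hK
    obtain ⟨A, B, hA, hB, hAr, hAc, hBr, hBc, hdev⟩ := dev hδ0.le (r' + 1) K hK
    set n := 2 ^ (r' + 1) with hn
    have hS1 := schur (n := n) (p := p) (α := ρ) (β := δ * ρ) hp.le (by linarith) A hA
      (fun i hi => (hAr i hi).trans (by linarith)) hAc (fun j => |XT δ (r' + 1) a j|)
      (fun j => abs_nonneg _)
    have hS2 := schur (n := n) (p := p) (α := δ * ρ) (β := ρ) hp.le (by positivity) B hB
      hBr (fun i hi => (hBc i hi).trans (by linarith)) (fun j => |XT δ (r' + 1) a j|)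
      (fun j => abs_nonneg _)
    have hxN : 0 ≤ NT p δ (r' + 1) a := NT_nonneg _ _ _ _
    have h3 := lp_add3 hp.le n (XT δ (r' + 1) (tr K a)) (fun i => |XT δ (r' + 1) a i|)
      (fun i => ∑ j ∈ range n, A i j * |XT δ (r' + 1) a j|)
      (fun i => ∑ j ∈ range n, B i j * |XT δ (r' + 1) a j|)
      (fun i => abs_nonneg _)
      (fun i => sum_nonneg fun j _ => mul_nonneg (hA i j) (abs_nonneg _))
      (fun i => sum_nonneg fun j _ => mul_nonneg (hB i j) (abs_nonneg _)) (by
        intro i hi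
        have h1 := hdev a i hi
        have h2 : |tr K (XT δ (r' + 1) a) i| ≤ |XT δ (r' + 1) a i| := by
          unfold tr; split_ifs
          · exact le_rfl
          · rw [abs_zero]; exact abs_nonneg _
        have h4 := abs_sub_abs_le_abs_sub (XT δ (r' + 1) (tr K a) i) (tr K (XT δ (r' + 1) a) i)
        have h5 : ∑ j ∈ range n, (A i j + B i j) * |XT δ (r' + 1) a j| =
            ∑ j ∈ range n, A i j * |XT δ (r' + 1) a j| +
            ∑ j ∈ range n, B i j * |XT δ (r' + 1) a j| := by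
          rw [← sum_add_distrib]; exact sum_congr rfl fun j _ => by ring
        rw [h5] at h1
        linarith)
    have hpp : 0 ≤ 1 / p := by positivity
    have hρ0 : 0 ≤ ρ := by linarith
    have g1 : (∑ i ∈ range n, (∑ j ∈ range n, A i j * |XT δ (r' + 1) a j|) ^ p) ^ (1 / p) ≤
        δ ^ (1 / p) * ρ * NT p δ (r' + 1) a ^ (1 / p) := by
      refine (Real.rpow_le_rpow (sum_nonneg fun i _ => Real.rpow_nonneg
        (sum_nonneg fun j _ => mul_nonneg (hA i j) (abs_nonneg _)) _) hS1 hpp).trans ?_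
      have e1 : ρ ^ (p - 1) * (δ * ρ) * ∑ j ∈ range n, |XT δ (r' + 1) a j| ^ p =
          δ * ρ ^ p * NT p δ (r' + 1) a := by
        have : ρ ^ p = ρ ^ (p - 1) * ρ := by
          rw [← Real.rpow_add_one (by linarith)]; congr 1; ring
        unfold NT
        rw [this]; ring
      rw [e1, Real.mul_rpow (by positivity) hxN, Real.mul_rpow hδ0.le (by positivity),
        ← Real.rpow_mul hρ0, mul_one_div_cancel hp0.ne', Real.rpow_one]
    have g2 : (∑ i ∈ range n, (∑ j ∈ range n, B i j * |XT δ (r' + 1) a j|) ^ p) ^ (1 / p) ≤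
        δ ^ (1 - 1 / p) * ρ * NT p δ (r' + 1) a ^ (1 / p) := by
      refine (Real.rpow_le_rpow (sum_nonneg fun i _ => Real.rpow_nonneg
        (sum_nonneg fun j _ => mul_nonneg (hB i j) (abs_nonneg _)) _) hS2 hpp).trans ?_
      have e1 : (δ * ρ) ^ (p - 1) * ρ * ∑ j ∈ range n, |XT δ (r' + 1) a j| ^ p =
          δ ^ (p - 1) * ρ ^ p * NT p δ (r' + 1) a := by
        have : ρ ^ p = ρ ^ (p - 1) * ρ := by
          rw [← Real.rpow_add_one (by linarith)]; congr 1; ring
        unfold NT
        rw [this, Real.mul_rpow hδ0.le hρ0]; ring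
      have e2 : (p - 1) * (1 / p) = 1 - 1 / p := by field_simp
      rw [e1, Real.mul_rpow (by positivity) hxN, Real.mul_rpow (by positivity) (by positivity),
        ← Real.rpow_mul hρ0, mul_one_div_cancel hp0.ne', Real.rpow_one,
        ← Real.rpow_mul hδ0.le, e2]
    have hN0 : 0 ≤ NT p δ (r' + 1) a ^ (1 / p) := Real.rpow_nonneg hxN _
    have g3 : NT p δ (r' + 1) (tr K a) ^ (1 / p) ≤ NT p δ (r' + 1) a ^ (1 / p) +
        (∑ i ∈ range n, (∑ j ∈ range n, A i j * |XT δ (r' + 1) a j|) ^ p) ^ (1 / p) +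
        (∑ i ∈ range n, (∑ j ∈ range n, B i j * |XT δ (r' + 1) a j|) ^ p) ^ (1 / p) := h3
    have g4 : δ ^ (1 / p) * ρ ≤ δ ^ (1 / p) * Real.exp (L + 1) :=
      mul_le_mul_of_nonneg_left hρe (by positivity)
    have g5 : δ ^ (1 - 1 / p) * ρ ≤ δ ^ (1 - 1 / p) * Real.exp (L + 1) :=
      mul_le_mul_of_nonneg_left hρe (by positivity)
    nlinarith
  · intro a
    rw [hNT, h2N]
    refine (sum_le_XT hδ0.le hδ1.le (r' + 1) a).trans ?_
    exact l1_lp hp.le (2 ^ (r' + 1)) (XT δ (r' + 1) a)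
  · rw [NW_congr (fun m hm => he m hm), hNT, NT_sT hδ0 hδ1, h2N]
    have h1 : (1 - δ) ^ p ≤ 1 - δ := by
      have := Real.rpow_le_rpow_of_exponent_ge (by linarith : 0 < 1 - δ) (by linarith) hp.le
      rwa [Real.rpow_one] at this
    have h2 : (1 + (1 - δ) ^ p) ^ (r' + 1) ≤ θ ^ p * ((2 : ℝ) ^ (r' + 1)) := by
      have h1' : 0 ≤ (1 - δ) ^ p := Real.rpow_nonneg (by linarith) _
      calc (1 + (1 - δ) ^ p) ^ (r' + 1) ≤ (2 * Real.exp (-(δ / 2))) ^ (r' + 1) := by
            apply pow_le_pow_left₀ (by linarith)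
            have := Real.add_one_le_exp (-(δ / 2))
            linarith
        _ = 2 ^ (r' + 1) * Real.exp (-(δ * (r' + 1 : ℕ) / 2)) := by
            rw [mul_pow, ← Real.exp_nat_mul]
            congr 2
            push_cast; ring
        _ ≤ 2 ^ (r' + 1) * Real.exp (-(L / 2)) := by
            apply mul_le_mul_of_nonneg_left _ (by positivity)
            apply Real.exp_le_exp.mpr
            linarith
        _ ≤ _ := by
            rw [mul_comm]
            exact mul_le_mul_of_nonneg_right hL (by positivity)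
    have h3 := Real.rpow_le_rpow (pow_nonneg (by
      have : 0 ≤ (1 - δ) ^ p := Real.rpow_nonneg (by linarith) _
      linarith) _) h2 (by positivity : 0 ≤ 1 / p)
    rw [Real.mul_rpow (by positivity) (by positivity), ← Real.rpow_mul hθ.le,
      mul_one_div_cancel hp0.ne', Real.rpow_one] at h3
    push_cast
    exact h3

/-- the case `p = 1` -/
theorem WS_one {ε θ : ℝ} (hε : 0 < ε) (hθ : 0 < θ) : ∃ N D w e, WS 1 ε θ N D w e := by
  obtain ⟨N, hN⟩ := exists_nat_gt (1 / θ)
  have hNpos : 0 < N := by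
    have : (0 : ℝ) < N := lt_trans (by positivity) hN
    exact_mod_cast this
  set M := 2 * N with hM
  let w : ℕ → ℕ → ℝ := fun m i => if i = m ∨ i = m + 1 then 1 / 2 else 0
  have hw : ∀ m i, 0 ≤ w m i := by
    intro m i; simp only [w]; split_ifs <;> norm_num
  let s : ℕ → ℝ := fun m => (-1) ^ m
  have hX : ∀ (a : ℕ → ℝ) (i : ℕ), XX M w a i =
      ((if i < M then a i else 0) + (if 1 ≤ i ∧ i ≤ M then a (i - 1) else 0)) / 2 := by
    intro a i
    unfold XX
    have e1 : ∀ m ∈ range M, a m * w m i =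
        (if m = i then a i / 2 else 0) + (if m = i - 1 ∧ 1 ≤ i then a (i - 1) / 2 else 0) := by
      intro m _
      simp only [w]
      by_cases h1 : i = m
      · subst h1
        have h3 : ¬ (i = i - 1 ∧ 1 ≤ i) := by omega
        rw [if_pos (Or.inl rfl), if_pos rfl, if_neg h3]; ring
      · by_cases h2 : i = m + 1
        · subst h2
          have h4 : m = m + 1 - 1 ∧ 1 ≤ m + 1 := by omega
          rw [if_pos (Or.inr rfl), if_neg (by omega), if_pos h4, Nat.add_sub_cancel]; ring
        · have h3 : ¬ (m = i - 1 ∧ 1 ≤ i) := by omega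
          have h4 : ¬ m = i := fun h => h1 h.symm
          rw [if_neg (by tauto), if_neg h4, if_neg h3]; ring
    rw [sum_congr rfl e1, sum_add_distrib, sum_ite_eq']
    have e2 : ∑ m ∈ range M, (if m = i - 1 ∧ 1 ≤ i then a (i - 1) / 2 else 0) =
        if 1 ≤ i ∧ i ≤ M then a (i - 1) / 2 else 0 := by
      by_cases h1 : 1 ≤ i
      · simp only [h1, and_true, true_and]
        rw [sum_ite_eq']
        by_cases h2 : i ≤ M
        · rw [if_pos (by rw [mem_range]; omega), if_pos h2]
        · rw [if_neg (by rw [mem_range]; omega), if_neg h2]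
      · simp [h1]
    rw [e2]
    simp only [mem_range]
    split_ifs <;> ring
  have hs0 : ∑ m ∈ range (2 * N), s m = 0 := by
    have : ∀ N : ℕ, ∑ m ∈ range (2 * N), ((-1 : ℝ)) ^ m = 0 := by
      intro N
      induction N with
      | zero => simp
      | succ N ih =>
        rw [mul_add, mul_one, sum_range_succ, sum_range_succ, ih]
        rw [pow_succ, pow_mul]
        norm_num
    exact this N
  obtain ⟨e, he⟩ := exists_equiv N s (fun m _ => by
    simp only [s]
    rcases Nat.even_or_odd m with h | h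
    · left; exact h.neg_one_pow
    · right; exact h.neg_one_pow) hs0
  have hNW : ∀ a, NW 1 M (M + 1) w a ^ (1 / (1 : ℝ)) = ∑ i ∈ range (M + 1), |XX M w a i| := by
    intro a
    unfold NW
    simp only [Real.rpow_one, div_one]
  refine ⟨N, M + 1, w, e, hNpos, hw, ?_, ?_, ?_⟩
  · intro a K hK
    rw [hNW, hNW]
    have hmain : ∑ i ∈ range (M + 1), |XX M w (tr K a) i| ≤ ∑ i ∈ range (M + 1), |XX M w a i| := by
      rcases Nat.eq_zero_or_pos K with h0 | hKpos
      · subst h0
        have : ∀ i, XX M w (tr 0 a) i = 0 := by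
          intro i; unfold XX tr; simp
        simp only [this, abs_zero, sum_const_zero]
        exact sum_nonneg fun i _ => abs_nonneg _
      · -- tail estimate
        have htail : ∀ d, d ≤ M → M - d ≥ 1 → |a (M - d - 1)| / 2 ≤
            ∑ i ∈ Ico (M - d) (M + 1), |XX M w a i| := by
          intro d
          induction d with
          | zero =>
            intro _ h1
            rw [Nat.sub_zero, Nat.Ico_succ_singleton, sum_singleton, hX]
            rw [if_neg (by omega), if_pos (by omega)]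
            rw [zero_add, abs_div, abs_of_pos (by norm_num : (0 : ℝ) < 2)]
          | succ d ih =>
            intro h1 h2
            have h3 := ih (by omega) (by omega)
            rw [sum_eq_sum_Ico_succ_bot (by omega)]
            have e1 : M - (d + 1) + 1 = M - d := by omega
            have e2 : M - d - 1 = M - (d + 1) := by omega
            rw [e1]
            rw [e2] at h3
            rw [hX a (M - (d + 1)), if_pos (by omega), if_pos (by omega)]
            rw [abs_div, abs_of_pos (by norm_num : (0 : ℝ) < 2)]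
            have h4 := abs_sub_abs_le_abs_sub (a (M - (d + 1) - 1)) (-(a (M - (d + 1))))
            rw [sub_neg_eq_add, abs_neg, add_comm (a (M - (d + 1) - 1))] at h4
            linarith
        have h1 := htail (M - K) (by omega) (by omega)
        have e1 : M - (M - K) = K := by omega
        rw [e1] at h1
        rw [range_eq_Ico, ← sum_Ico_consecutive _ (Nat.zero_le K) (by omega : K ≤ M + 1),
          ← sum_Ico_consecutive _ (Nat.zero_le K) (by omega : K ≤ M + 1)]
        have e2 : ∑ i ∈ Ico 0 K, |XX M w (tr K a) i| = ∑ i ∈ Ico 0 K, |XX M w a i| := by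
          refine sum_congr rfl fun i hi => ?_
          rw [mem_Ico] at hi
          rw [hX, hX]
          unfold tr
          congr 3
          · rw [if_pos hi.2]
          · by_cases h : 1 ≤ i ∧ i ≤ M
            · rw [if_pos h, if_pos h, if_pos (by omega)]
            · rw [if_neg h, if_neg h]
        have e3 : ∑ i ∈ Ico K (M + 1), |XX M w (tr K a) i| = |a (K - 1)| / 2 := by
          rw [sum_eq_single K]
          · rw [hX]
            unfold tr
            rw [if_pos (by omega : 1 ≤ K ∧ K ≤ M), if_pos (by omega : K - 1 < K)]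
            have : (if K < M then (if K < K then a K else 0) else 0) = (0 : ℝ) := by
              split_ifs with h1 h2
              · omega
              · rfl
              · rfl
            rw [this, zero_add, abs_div, abs_of_pos (by norm_num : (0 : ℝ) < 2)]
          · intro i hi hiK
            rw [mem_Ico] at hi
            rw [hX]
            unfold tr
            have h2 : ¬ i < K := by omega
            have h3 : ¬ i - 1 < K := by omega
            simp [h2, h3]
          · intro h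
            exact absurd (mem_Ico.mpr ⟨le_rfl, by omega⟩) h
        rw [e2, e3]
        linarith
    have hnn : 0 ≤ ∑ i ∈ range (M + 1), |XX M w a i| := sum_nonneg fun i _ => abs_nonneg _
    nlinarith
  · intro a
    rw [hNW]
    have e1 : (1 : ℝ) - 1 / 1 = 0 := by norm_num
    rw [e1, Real.rpow_zero, one_mul]
    have e2 : ∑ m ∈ range M, a m = ∑ i ∈ range (M + 1), XX M w a i := by
      have e3 : ∀ i ∈ range (M + 1), XX M w a i =
          (if i < M then a i else 0) / 2 + (if 1 ≤ i ∧ i ≤ M then a (i - 1) else 0) / 2 := by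
        intro i _; rw [hX]; ring
      rw [sum_congr rfl e3, sum_add_distrib, sum_range_succ, sum_range_succ']
      have e4 : ∑ x ∈ range M, (if x < M then a x else 0) / 2 = (∑ m ∈ range M, a m) / 2 := by
        rw [sum_div]
        exact sum_congr rfl fun x hx => by rw [if_pos (mem_range.mp hx)]
      have e5 : ∑ k ∈ range M, (if 1 ≤ k + 1 ∧ k + 1 ≤ M then a (k + 1 - 1) else 0) / 2 =
          (∑ m ∈ range M, a m) / 2 := by
        rw [sum_div]
        refine sum_congr rfl fun x hx => ?_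
        rw [mem_range] at hx
        rw [if_pos (by omega), Nat.add_sub_cancel]
      rw [e4, e5]
      simp
    rw [e2]
    exact abs_sum_le_sum_abs _ _
  · rw [NW_congr (fun m hm => he m hm), hNW]
    have e1 : ∑ i ∈ range (M + 1), |XX M w s i| = 1 := by
      rw [sum_range_succ, hX, if_neg (by omega), if_pos (by omega)]
      obtain ⟨M', hM'⟩ : ∃ M', M = M' + 1 := ⟨M - 1, by omega⟩
      rw [hM', sum_range_succ', ← hM', hX, if_pos (by omega), if_neg (by omega)]
      have e2 : ∑ k ∈ range M', |XX M w s (k + 1)| = 0 := by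
        apply sum_eq_zero
        intro k hk
        rw [mem_range] at hk
        rw [hX, if_pos (by omega), if_pos (by omega), Nat.add_sub_cancel]
        simp only [s]
        rw [pow_succ]; ring_nf; simp
      rw [e2]
      simp only [s]
      rw [pow_zero, zero_add, zero_add, add_zero, abs_div, abs_div, abs_one, abs_pow, abs_neg,
        abs_one, one_pow]
      norm_num
    rw [e1]
    have e3 : (1 : ℝ) / 1 = 1 := by norm_num
    rw [e3, Real.rpow_one]
    have h1 : 1 < θ * N := by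
      rw [div_lt_iff₀ hθ] at hN
      linarith
    push_cast
    nlinarith

theorem WS_exists {p : ℝ} (hp : 1 ≤ p) {ε θ : ℝ} (hε : 0 < ε) (hθ : 0 < θ) :
    ∃ N D w e, WS p ε θ N D w e := by
  rcases hp.eq_or_lt with rfl | h
  · exact WS_one hε hθ
  · exact WS_gt h hε hθ

end Pool.Agent.X203.NN
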