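import Mathlib
import Pool.Agent.X203.NNB

set_option linter.unusedSectionVars false
set_option linter.unusedSimpArgs false
set_option linter.unusedVariables false

namespace Pool.Agent.X203.NN

open Filter Finset Topology

/-- Grünblum's criterion: uniformly bounded initial-segment projections give a basic sequence. -/
theorem grunblum {X : Type*} [NormedAddCommGroup X] [NormedSpace ℝ X] [CompleteSpace X]
    (x : ℕ → X) (hx : ∀ n, x n ≠ 0) (K : ℝ)
    (h : ∀ (a : ℕ → ℝ) (m n : ℕ), m ≤ n →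
      ‖∑ i ∈ range m, a i • x i‖ ≤ K * ‖∑ i ∈ range n, a i • x i‖) :
    ∀ y ∈ closure (Submodule.span ℝ (Set.range x) : Set X),
      ∃! a : ℕ → ℝ, Tendsto (fun n => ∑ i ∈ range n, a i • x i) atTop (𝓝 y) := by
  intro y hy
  have hK : 1 ≤ K := by
    have h1 := h (fun _ => 1) 1 1 le_rfl
    simp only [range_one, sum_singleton, one_smul] at h1
    have h2 : 0 < ‖x 0‖ := norm_pos_iff.2 (hx 0)
    by_contra hcon
    push Not at hcon
    nlinarith
  have hK0 : 0 ≤ K := by linarith
  have hspan : ∀ z ∈ Submodule.span ℝ (Set.range x), ∃ (a : ℕ → ℝ) (N : ℕ),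
      ∀ n, N ≤ n → ∑ i ∈ range n, a i • x i = z := by
    intro z hz
    rw [Finsupp.mem_span_range_iff_exists_finsupp] at hz
    obtain ⟨c, hc⟩ := hz
    refine ⟨c, c.support.sup id + 1, ?_⟩
    intro n hn
    rw [← hc, Finsupp.sum]
    symm
    apply sum_subset
    · intro i hi
      rw [mem_range]
      have : i ≤ c.support.sup id := le_sup (f := id) hi
      omega
    · intro i _ hi
      rw [Finsupp.notMem_support_iff.1 hi, zero_smul]
  obtain ⟨Y, hYmem, hYlim⟩ := mem_closure_iff_seq_limit.1 hy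
  choose A N hA using fun k => hspan (Y k) (hYmem k)
  have hdiff : ∀ k l m, ‖∑ i ∈ range m, A k i • x i - ∑ i ∈ range m, A l i • x i‖
      ≤ K * ‖Y k - Y l‖ := by
    intro k l m
    have h1 := h (fun i => A k i - A l i) m (max m (max (N k) (N l))) (le_max_left _ _)
    simp only [sub_smul, sum_sub_distrib] at h1
    rw [hA k (max m (max (N k) (N l))) (by simp), hA l (max m (max (N k) (N l))) (by simp)] at h1
    exact h1
  have hYc : CauchySeq Y := hYlim.cauchySeq
  have hcoef : ∀ i, ∃ c : ℝ, Tendsto (fun k => A k i) atTop (𝓝 c) := by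
    intro i
    apply cauchySeq_tendsto_of_complete
    rw [Metric.cauchySeq_iff'] at hYc ⊢
    intro ε hε
    have hxi : 0 < ‖x i‖ := norm_pos_iff.2 (hx i)
    obtain ⟨M, hM⟩ := hYc (ε * ‖x i‖ / (2 * K)) (by positivity)
    refine ⟨M, fun k hk => ?_⟩
    have h1 := hM k hk
    rw [dist_eq_norm] at h1
    rw [Real.dist_eq]
    have h2 : (A k i - A M i) • x i = (∑ j ∈ range (i + 1), A k j • x j
        - ∑ j ∈ range (i + 1), A M j • x j) - (∑ j ∈ range i, A k j • x j
        - ∑ j ∈ range i, A M j • x j) := by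
      rw [sum_range_succ, sum_range_succ, sub_smul]
      abel
    have h3 : |A k i - A M i| * ‖x i‖ ≤ 2 * K * ‖Y k - Y M‖ := by
      rw [← Real.norm_eq_abs, ← norm_smul, h2]
      refine (norm_sub_le _ _).trans ?_
      have := hdiff k M (i + 1)
      have := hdiff k M i
      linarith
    have h4 : 2 * K * ‖Y k - Y M‖ < ε * ‖x i‖ := by
      rw [lt_div_iff₀ (by positivity)] at h1
      linarith
    exact lt_of_mul_lt_mul_right (h3.trans_lt h4) hxi.le
  choose a ha using hcoef
  have hS : ∀ m, Tendsto (fun k => ∑ i ∈ range m, A k i • x i) atTop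
      (𝓝 (∑ i ∈ range m, a i • x i)) := by
    intro m
    apply tendsto_finsetSum
    intro i _
    exact (ha i).smul_const (x i)
  have hlim : ∀ k m, ‖∑ i ∈ range m, A k i • x i - ∑ i ∈ range m, a i • x i‖
      ≤ K * ‖Y k - y‖ := by
    intro k m
    have h1 : Tendsto (fun l => ‖∑ i ∈ range m, A k i • x i - ∑ i ∈ range m, A l i • x i‖) atTop
        (𝓝 ‖∑ i ∈ range m, A k i • x i - ∑ i ∈ range m, a i • x i‖) :=
      ((hS m).const_sub _).norm
    have h2 : Tendsto (fun l => K * ‖Y k - Y l‖) atTop (𝓝 (K * ‖Y k - y‖)) :=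
      ((hYlim.const_sub _).norm).const_mul K
    exact le_of_tendsto_of_tendsto' h1 h2 (fun l => hdiff k l m)
  refine ⟨a, ?_, ?_⟩
  · simp only
    rw [Metric.tendsto_atTop]
    intro ε hε
    rw [Metric.tendsto_atTop] at hYlim
    obtain ⟨k, hk⟩ := hYlim (ε / (K + 1)) (by positivity)
    have hk' := hk k le_rfl
    rw [dist_eq_norm, lt_div_iff₀ (by positivity)] at hk'
    refine ⟨N k, fun m hm => ?_⟩
    rw [dist_eq_norm]
    have h1 := hlim k m
    rw [hA k m hm] at h1
    have h2 : ∑ i ∈ range m, a i • x i - y = (Y k - y) - (Y k - ∑ i ∈ range m, a i • x i) := by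
      abel
    rw [h2]
    refine (norm_sub_le _ _).trans_lt ?_
    linarith
  · intro b hb
    have hgoal : Tendsto (fun n => ∑ i ∈ range n, a i • x i) atTop (𝓝 y) := by
      rw [Metric.tendsto_atTop]
      intro ε hε
      rw [Metric.tendsto_atTop] at hYlim
      obtain ⟨k, hk⟩ := hYlim (ε / (K + 1)) (by positivity)
      have hk' := hk k le_rfl
      rw [dist_eq_norm, lt_div_iff₀ (by positivity)] at hk'
      refine ⟨N k, fun m hm => ?_⟩
      rw [dist_eq_norm]
      have h1 := hlim k m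
      rw [hA k m hm] at h1
      have h2 : ∑ i ∈ range m, a i • x i - y = (Y k - y) - (Y k - ∑ i ∈ range m, a i • x i) := by
        abel
      rw [h2]
      refine (norm_sub_le _ _).trans_lt ?_
      linarith
    have hz : Tendsto (fun n => ∑ i ∈ range n, (b i - a i) • x i) atTop (𝓝 0) := by
      have := hb.sub hgoal
      rw [sub_self] at this
      refine this.congr ?_
      intro n
      rw [← sum_sub_distrib]
      simp only [sub_smul]
    have hzero : ∀ m, ∑ i ∈ range m, (b i - a i) • x i = 0 := by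
      intro m
      have h1 : Tendsto (fun n => K * ‖∑ i ∈ range n, (b i - a i) • x i‖) atTop (𝓝 0) := by
        have := (hz.norm).const_mul K
        rwa [norm_zero, mul_zero] at this
      have h2 : ‖∑ i ∈ range m, (b i - a i) • x i‖ ≤ 0 := by
        apply ge_of_tendsto h1
        filter_upwards [eventually_ge_atTop m] with n hn
        exact h (fun i => b i - a i) m n hn
      exact norm_le_zero_iff.1 h2
    funext i
    have h1 := hzero (i + 1)
    rw [sum_range_succ, hzero i, zero_add, smul_eq_zero] at h1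
    rcases h1 with h1 | h1
    · linarith
    · exact absurd h1 (hx i)


/-- the block hypothesis -/
def BlockAt {V : Type*} [NormedAddCommGroup V] [NormedSpace ℝ V] (p : ℝ) (M : ℕ) (k : ℕ → V)
    (u : V) : Prop :=
  ∃ (R : ℝ) (g : ℝ → ℝ), 0 ≤ R ∧ (∀ c, 0 ≤ g c) ∧ ConvexOn ℝ Set.univ g ∧
    ∀ b : ℕ → ℝ, ‖u + ∑ m ∈ range M, b m • k m‖ ^ p = R + ∑ m ∈ range M, g (b m)

section block

variable {V : Type*} [NormedAddCommGroup V] [NormedSpace ℝ V] {p : ℝ} {M : ℕ} {k : ℕ → V} {u : V}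

/-- averaging over a set of pieces decreases the norm -/
lemma block_avg (hp : 1 ≤ p) (H : BlockAt p M k u) (S : Finset ℕ) (hS : S ⊆ range M)
    (hne : S.Nonempty) (b : ℕ → ℝ) :
    ‖u + ∑ m ∈ range M, (if m ∈ S then (∑ m ∈ S, b m) / S.card else b m) • k m‖ ≤
      ‖u + ∑ m ∈ range M, b m • k m‖ := by
  classical
  obtain ⟨R, g, hR, hg, hconv, hK⟩ := H
  have hp0 : 0 < p := by linarith
  rw [← Real.rpow_le_rpow_iff (norm_nonneg _) (norm_nonneg _) hp0, hK, hK]
  have hc : (0 : ℝ) < S.card := by exact_mod_cast hne.card_pos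
  have hJ := hconv.map_sum_le (t := S) (w := fun _ => 1 / (S.card : ℝ)) (p := b)
    (fun _ _ => by positivity) (by rw [sum_const, nsmul_eq_mul]; field_simp)
    (fun _ _ => Set.mem_univ _)
  simp only [smul_eq_mul] at hJ
  rw [← mul_sum, ← mul_sum] at hJ
  have e0 : 1 / (S.card : ℝ) * ∑ m ∈ S, b m = (∑ m ∈ S, b m) / S.card := by ring
  rw [e0] at hJ
  have h1 : (S.card : ℝ) * g ((∑ m ∈ S, b m) / S.card) ≤ ∑ m ∈ S, g (b m) := by
    have := mul_le_mul_of_nonneg_left hJ hc.le
    have e1 : (S.card : ℝ) * (1 / (S.card : ℝ) * ∑ m ∈ S, g (b m)) = ∑ m ∈ S, g (b m) := by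
      field_simp
    linarith
  rw [← sum_sdiff hS, ← sum_sdiff hS]
  have e2 : ∑ x ∈ range M \ S, g (if x ∈ S then (∑ m ∈ S, b m) / S.card else b x) =
      ∑ x ∈ range M \ S, g (b x) := sum_congr rfl fun x hx => by
    rw [if_neg (Finset.mem_sdiff.mp hx).2]
  have e3 : ∑ x ∈ S, g (if x ∈ S then (∑ m ∈ S, b m) / S.card else b x) =
      (S.card : ℝ) * g ((∑ m ∈ S, b m) / S.card) := by
    rw [sum_congr rfl fun x hx => by rw [if_pos hx], sum_const, nsmul_eq_mul]
  rw [e2, e3]
  linarith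

lemma block_I1 (hp : 1 ≤ p) (hM : 0 < M) (H : BlockAt p M k u)
    (H3 : ∀ S ⊆ range M, ‖∑ m ∈ S, k m‖ = (S.card : ℝ) ^ (1 / p)) (b : ℕ → ℝ) :
    ‖u‖ ≤ ‖u + ∑ m ∈ range M, b m • k m‖ + (M : ℝ) ^ (1 / p - 1) * |∑ m ∈ range M, b m| := by
  have h1 := block_avg hp H (range M) Subset.rfl (nonempty_range_iff.mpr hM.ne') b
  rw [card_range] at h1
  have e1 : ∑ m ∈ range M, (if m ∈ range M then (∑ m ∈ range M, b m) / M else b m) • k m =
      ((∑ m ∈ range M, b m) / M) • ∑ m ∈ range M, k m := by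
    rw [smul_sum]
    exact sum_congr rfl fun m hm => by rw [if_pos hm]
  rw [e1] at h1
  set d := ∑ m ∈ range M, b m with hd
  have h2 : ‖u‖ ≤ ‖u + (d / M) • ∑ m ∈ range M, k m‖ + ‖(d / M) • ∑ m ∈ range M, k m‖ := by
    have := norm_sub_le (u + (d / M) • ∑ m ∈ range M, k m) ((d / M) • ∑ m ∈ range M, k m)
    rwa [add_sub_cancel_right] at this
  have hMr : (0 : ℝ) < M := by exact_mod_cast hM
  have h3 : ‖(d / M) • ∑ m ∈ range M, k m‖ = (M : ℝ) ^ (1 / p - 1) * |d| := by
    rw [norm_smul, H3 _ Subset.rfl, card_range, Real.norm_eq_abs, abs_div, abs_of_pos hMr,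
      Real.rpow_sub_one hMr.ne']
    ring
  linarith

lemma block_I2 (hp : 1 ≤ p) (hM : 0 < M) (H : BlockAt p M k u)
    (H3 : ∀ S ⊆ range M, ‖∑ m ∈ S, k m‖ = (S.card : ℝ) ^ (1 / p)) {τ : ℝ} (hτ : 0 < τ)
    (b : ℕ → ℝ) {N : ℕ} (hN : N ≤ M) :
    ‖u + ∑ m ∈ range M, tr N b m • k m‖ ≤ (1 + τ) * ‖u + ∑ m ∈ range M, b m • k m‖ +
      (M : ℝ) ^ (1 / p - 1) * (τ ^ (1 - p) * |∑ m ∈ Ico N M, b m| +
        τ * |∑ m ∈ range M, b m|) := by
  classical
  have hp0 : 0 < p := by linarith
  have hMr : (0 : ℝ) < M := by exact_mod_cast hM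
  have hcard : ((Ico N M).card : ℝ) = (M : ℝ) - N := by
    rw [Nat.card_Ico, Nat.cast_sub hN]
  have hsub : Ico N M ⊆ range M := fun x hx => by
    rw [mem_Ico] at hx; exact mem_range.mpr hx.2
  have hpos1 : 0 ≤ (M : ℝ) ^ (1 / p - 1) := Real.rpow_nonneg hMr.le _
  have hpos2 : 0 ≤ τ ^ (1 - p) := Real.rpow_nonneg hτ.le _
  rcases le_or_gt (τ ^ p * M) ((M : ℝ) - N) with hc | hc
  · -- large tail
    have hτp : 0 < τ ^ p * M := by positivity
    have hs : (0 : ℝ) < (M : ℝ) - N := lt_of_lt_of_le hτp hc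
    have hne : (Ico N M).Nonempty := by
      rw [nonempty_Ico]
      have : (N : ℝ) < M := by linarith
      exact_mod_cast this
    have h1 := block_avg hp H (Ico N M) hsub hne b
    set d := ∑ m ∈ Ico N M, b m with hd
    rw [hcard] at h1
    have e1 : u + ∑ m ∈ range M, tr N b m • k m =
        (u + ∑ m ∈ range M, (if m ∈ Ico N M then d / ((M : ℝ) - N) else b m) • k m) -
        (d / ((M : ℝ) - N)) • ∑ m ∈ Ico N M, k m := by
      rw [← sum_sdiff hsub, ← sum_sdiff hsub, smul_sum]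
      have e2 : ∑ x ∈ Ico N M, tr N b x • k x = 0 := by
        apply sum_eq_zero
        intro x hx
        rw [mem_Ico] at hx
        unfold tr
        rw [if_neg (by omega), zero_smul]
      have e3 : ∑ x ∈ Ico N M, (if x ∈ Ico N M then d / ((M : ℝ) - N) else b x) • k x =
          ∑ x ∈ Ico N M, (d / ((M : ℝ) - N)) • k x := sum_congr rfl fun x hx => by
        rw [if_pos hx]
      have e4 : ∑ x ∈ range M \ Ico N M, (if x ∈ Ico N M then d / ((M : ℝ) - N) else b x) • k x =
          ∑ x ∈ range M \ Ico N M, tr N b x • k x := sum_congr rfl fun x hx => by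
        rw [Finset.mem_sdiff] at hx
        rw [if_neg hx.2]
        unfold tr
        rw [if_pos]
        have h1 := mem_range.mp hx.1
        have h2 := hx.2
        rw [mem_Ico] at h2
        omega
      rw [e2, e3, e4]
      abel
    rw [e1]
    refine (norm_sub_le _ _).trans ?_
    have h3 : ‖(d / ((M : ℝ) - N)) • ∑ m ∈ Ico N M, k m‖ ≤
        (M : ℝ) ^ (1 / p - 1) * (τ ^ (1 - p) * |d|) := by
      rw [norm_smul, H3 _ hsub, hcard, Real.norm_eq_abs, abs_div, abs_of_pos hs]
      have e5 : |d| / ((M : ℝ) - N) * ((M : ℝ) - N) ^ (1 / p) =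
          ((M : ℝ) - N) ^ (1 / p - 1) * |d| := by
        rw [Real.rpow_sub_one hs.ne']
        ring
      rw [e5]
      have h4 : ((M : ℝ) - N) ^ (1 / p - 1) ≤ (τ ^ p * M) ^ (1 / p - 1) := by
        apply Real.rpow_le_rpow_of_nonpos hτp hc
        rw [sub_nonpos, div_le_one hp0]
        exact hp
      have e6 : (τ ^ p * M) ^ (1 / p - 1) = τ ^ (1 - p) * (M : ℝ) ^ (1 / p - 1) := by
        rw [Real.mul_rpow (by positivity) hMr.le, ← Real.rpow_mul hτ.le]
        congr 2
        field_simp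
      rw [e6] at h4
      have := mul_le_mul_of_nonneg_right h4 (abs_nonneg d)
      linarith
    have h5 : 0 ≤ τ * ‖u + ∑ m ∈ range M, b m • k m‖ := by positivity
    have h6 : 0 ≤ (M : ℝ) ^ (1 / p - 1) * (τ * |∑ m ∈ range M, b m|) := by positivity
    linarith
  · -- small tail
    have hI1 := block_I1 hp hM H H3 b
    obtain ⟨R, g, hR, hg, hconv, hK⟩ := H
    have h1 : ‖u + ∑ m ∈ range M, tr N b m • k m‖ ^ p ≤
        ‖u + ∑ m ∈ range M, b m • k m‖ ^ p + (τ * ‖u‖) ^ p := by
      rw [hK, hK]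
      have h0 := hK (fun _ => 0)
      simp only [zero_smul, sum_const_zero, add_zero, sum_const, card_range, nsmul_eq_mul] at h0
      rw [Real.mul_rpow hτ.le (norm_nonneg _), h0]
      have e1 : ∑ m ∈ range M, g (tr N b m) =
          ∑ m ∈ range M \ Ico N M, g (b m) + ((M : ℝ) - N) * g 0 := by
        rw [← sum_sdiff hsub]
        congr 1
        · refine sum_congr rfl fun x hx => ?_
          rw [Finset.mem_sdiff] at hx
          unfold tr
          rw [if_pos]
          have h1 := mem_range.mp hx.1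
          have h2 := hx.2
          rw [mem_Ico] at h2
          omega
        · rw [← hcard, ← nsmul_eq_mul, ← sum_const]
          refine sum_congr rfl fun x hx => ?_
          rw [mem_Ico] at hx
          unfold tr
          rw [if_neg (by omega)]
      have e2 : ∑ m ∈ range M, g (b m) = ∑ m ∈ range M \ Ico N M, g (b m) +
          ∑ m ∈ Ico N M, g (b m) := (sum_sdiff hsub).symm
      rw [e1, e2]
      have h2 : 0 ≤ ∑ m ∈ Ico N M, g (b m) := sum_nonneg fun m _ => hg _
      have h3 : ((M : ℝ) - N) * g 0 ≤ τ ^ p * M * g 0 :=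
        mul_le_mul_of_nonneg_right hc.le (hg 0)
      have h4 : 0 ≤ τ ^ p * R := by positivity
      nlinarith
    have h2 : ‖u + ∑ m ∈ range M, b m • k m‖ ^ p + (τ * ‖u‖) ^ p ≤
        (‖u + ∑ m ∈ range M, b m • k m‖ + τ * ‖u‖) ^ p :=
      Real.add_rpow_le_rpow_add (norm_nonneg _) (by positivity) hp
    have h3 : ‖u + ∑ m ∈ range M, tr N b m • k m‖ ≤
        ‖u + ∑ m ∈ range M, b m • k m‖ + τ * ‖u‖ := by
      rw [← Real.rpow_le_rpow_iff (norm_nonneg _) (by positivity) hp0]
      exact h1.trans h2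
    have h4 := mul_le_mul_of_nonneg_left hI1 hτ.le
    have h5 : 0 ≤ (M : ℝ) ^ (1 / p - 1) * (τ ^ (1 - p) * |∑ m ∈ Ico N M, b m|) := by positivity
    linarith

end block

/-- two-dimensional Minkowski -/
lemma mink2 {p : ℝ} (hp : 1 ≤ p) {α ρ x w y w' : ℝ} (hα : 0 ≤ α) (hρ : 0 ≤ ρ) (hx : 0 ≤ x)
    (hw : 0 ≤ w) (hy0 : 0 ≤ y) (hw0 : 0 ≤ w') (hy : y ≤ α * x + ρ * w) (hw' : w' ≤ α * w) :
    (y ^ p + w' ^ p) ^ (1 / p) ≤ (α + ρ) * (x ^ p + w ^ p) ^ (1 / p) := by
  have hp0 : 0 < p := by linarith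
  have hpp : 0 ≤ 1 / p := by positivity
  have h := Real.Lp_add_le_of_nonneg (Finset.univ : Finset Bool) hp
    (f := fun i => if i then α * x else α * w) (g := fun i => if i then ρ * w else 0)
    (fun i _ => by split_ifs <;> positivity)
    (fun i _ => by split_ifs <;> positivity)
  simp only [Fintype.sum_bool, if_true, if_false, Bool.false_eq_true, add_zero] at h
  have h1 : (y ^ p + w' ^ p) ^ (1 / p) ≤ ((α * x + ρ * w) ^ p + (α * w) ^ p) ^ (1 / p) := by
    apply Real.rpow_le_rpow (by positivity) _ hpp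
    exact add_le_add (Real.rpow_le_rpow hy0 hy hp0.le) (Real.rpow_le_rpow hw0 hw' hp0.le)
  have h2 : ((α * x) ^ p + (α * w) ^ p) ^ (1 / p) = α * (x ^ p + w ^ p) ^ (1 / p) := by
    rw [Real.mul_rpow hα hx, Real.mul_rpow hα hw, ← mul_add, Real.mul_rpow (by positivity)
      (by positivity), ← Real.rpow_mul hα, mul_one_div_cancel hp0.ne', Real.rpow_one]
  have h3 : ((ρ * w) ^ p + 0 ^ p) ^ (1 / p) = ρ * w := by
    rw [Real.zero_rpow hp0.ne', add_zero, ← Real.rpow_mul (by positivity),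
      mul_one_div_cancel hp0.ne', Real.rpow_one]
  have h4 : w ≤ (x ^ p + w ^ p) ^ (1 / p) := by
    calc w = (w ^ p) ^ (1 / p) := by
          rw [← Real.rpow_mul hw, mul_one_div_cancel hp0.ne', Real.rpow_one]
      _ ≤ _ := Real.rpow_le_rpow (by positivity) (by
          have : 0 ≤ x ^ p := by positivity
          linarith) hpp
  have h5 := mul_le_mul_of_nonneg_left h4 hρ
  rw [h2, h3] at h
  linarith

end Pool.Agent.X203.NN
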