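import Mathlib
import Pool.Agent.X203.NNC

set_option linter.unusedSectionVars false
set_option linter.unusedSimpArgs false
set_option linter.unusedVariables false

namespace Pool.Agent.X203.NN

open Filter Finset Topology

/-- abstract assembly data -/
structure Sys (p : ℝ) (V E : Type*) [NormedAddCommGroup V] [NormedSpace ℝ V]
    [NormedAddCommGroup E] [NormedSpace ℝ E] where
  J : V →ₗᵢ[ℝ] E
  e : (Σ _ : ℕ, ℕ) → E
  nf : ∀ (v : V) (S : Finset (Σ _ : ℕ, ℕ)) (c : (Σ _ : ℕ, ℕ) → ℝ),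
    ‖J v + ∑ q ∈ S, c q • e q‖ ^ p = ‖v‖ ^ p + ∑ q ∈ S, |c q| ^ p
  M : ℕ → ℕ
  D : ℕ → ℕ
  w : ℕ → ℕ → ℕ → ℝ
  k0 : V
  k : ℕ → ℕ → V
  Mpos : ∀ n, 0 < M n
  block : ∀ n (c : ℝ) (b : ℕ → ℕ → ℝ), BlockAt p (M n) (k n)
    (c • k0 + ∑ j ∈ range n, ∑ m ∈ range (M j), b j m • k j m)
  kn : ∀ n (b : ℕ → ℝ), ‖∑ m ∈ range (M n), b m • k n m‖ ^ p = ∑ m ∈ range (M n), |b m| ^ p
  one_le : 1 ≤ p
  σ : ℝ
  σpos : 0 < σ
  wtr : ∀ n a K, K ≤ M n → NW p (M n) (D n) (w n) (tr K a) ^ (1 / p) ≤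
    (1 + σ) * NW p (M n) (D n) (w n) a ^ (1 / p)
  wsum : ∀ n (a : ℕ → ℝ), |∑ m ∈ range (M n), a m| ≤
    (M n : ℝ) ^ (1 - 1 / p) * NW p (M n) (D n) (w n) a ^ (1 / p)
  η : ℕ → ℝ
  ηpos : ∀ n, 0 < η n
  k0ne : k0 ≠ 0

namespace Sys

variable {p : ℝ} {V E : Type*} [NormedAddCommGroup V] [NormedSpace ℝ V]
    [NormedAddCommGroup E] [NormedSpace ℝ E] (T : Sys p V E)

include T in
lemma ppos : 0 < p := by linarith [T.one_le]

lemma h3 (n : ℕ) (S : Finset ℕ) (hS : S ⊆ range (T.M n)) :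
    ‖∑ m ∈ S, T.k n m‖ = (S.card : ℝ) ^ (1 / p) := by
  classical
  have hp0 := T.ppos
  have h := T.kn n (fun m => if m ∈ S then 1 else 0)
  rw [← sum_sdiff hS, ← sum_sdiff hS] at h
  have e1 : ∑ x ∈ range (T.M n) \ S, (if x ∈ S then (1 : ℝ) else 0) • T.k n x = 0 :=
    sum_eq_zero fun x hx => by rw [if_neg (Finset.mem_sdiff.mp hx).2, zero_smul]
  have e2 : ∑ x ∈ range (T.M n) \ S, |(if x ∈ S then (1 : ℝ) else 0)| ^ p = 0 :=
    sum_eq_zero fun x hx => by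
      rw [if_neg (Finset.mem_sdiff.mp hx).2, abs_zero, Real.zero_rpow hp0.ne']
  have e3 : ∑ x ∈ S, (if x ∈ S then (1 : ℝ) else 0) • T.k n x = ∑ x ∈ S, T.k n x :=
    sum_congr rfl fun x hx => by rw [if_pos hx, one_smul]
  have e4 : ∑ x ∈ S, |(if x ∈ S then (1 : ℝ) else 0)| ^ p = S.card := by
    rw [sum_congr rfl fun x hx => by rw [if_pos hx, abs_one, Real.one_rpow], sum_const,
      nsmul_eq_mul, mul_one]
  rw [e1, e2, e3, e4, zero_add, zero_add] at h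
  rw [← h, ← Real.rpow_mul (norm_nonneg _), mul_one_div_cancel hp0.ne', Real.rpow_one]

/-- `K`-part -/
noncomputable def U (c : ℝ) (a : ℕ → ℕ → ℝ) (n : ℕ) : V :=
  c • T.k0 + ∑ j ∈ range n, ∑ m ∈ range (T.M j), (T.η j * a j m) • T.k j m

/-- the elements -/
noncomputable def f (n m : ℕ) : E :=
  T.J (T.η n • T.k n m) + ∑ i ∈ range (T.D n), T.w n m i • T.e ⟨n, i⟩

/-- finite combination -/
noncomputable def full (c : ℝ) (a : ℕ → ℕ → ℝ) (B : ℕ) : E :=
  c • T.J T.k0 + ∑ n ∈ range B, ∑ m ∈ range (T.M n), a n m • T.f n m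

/-- the norm of the `W` part of one block -/
noncomputable def nw (n : ℕ) (a : ℕ → ℝ) : ℝ := NW p (T.M n) (T.D n) (T.w n) a

lemma nw_nonneg (n : ℕ) (a : ℕ → ℝ) : 0 ≤ T.nw n a := by
  unfold nw NW
  exact sum_nonneg fun _ _ => Real.rpow_nonneg (abs_nonneg _) _

lemma blockW (n : ℕ) (a : ℕ → ℝ) : ∑ m ∈ range (T.M n), a m • T.f n m =
    T.J (∑ m ∈ range (T.M n), (T.η n * a m) • T.k n m) +
    ∑ i ∈ range (T.D n), XX (T.M n) (T.w n) a i • T.e ⟨n, i⟩ := by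
  unfold f XX
  simp only [smul_add, sum_add_distrib, map_sum, map_smul, smul_smul, smul_sum, sum_smul]
  congr 1
  · exact sum_congr rfl fun m _ => by rw [mul_comm]
  · rw [sum_comm]

lemma full_eq (c : ℝ) (a : ℕ → ℕ → ℝ) (B : ℕ) : T.full c a B = T.J (T.U c a B) +
    ∑ q ∈ (range B).sigma (fun n => range (T.D n)),
      XX (T.M q.1) (T.w q.1) (a q.1) q.2 • T.e q := by
  unfold full U
  rw [sum_sigma, map_add, map_smul, map_sum, add_assoc, ← sum_add_distrib]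
  congr 1
  exact sum_congr rfl fun n _ => T.blockW n (a n)

lemma full_norm (c : ℝ) (a : ℕ → ℕ → ℝ) (B : ℕ) :
    ‖T.full c a B‖ ^ p = ‖T.U c a B‖ ^ p + ∑ n ∈ range B, T.nw n (a n) := by
  rw [full_eq, T.nf, sum_sigma]
  rfl

lemma U_succ (c : ℝ) (a : ℕ → ℕ → ℝ) (n : ℕ) : T.U c a (n + 1) =
    T.U c a n + ∑ m ∈ range (T.M n), (T.η n * a n m) • T.k n m := by
  unfold U
  rw [sum_range_succ, add_assoc]

lemma U_block (c : ℝ) (a : ℕ → ℕ → ℝ) (n : ℕ) : BlockAt p (T.M n) (T.k n) (T.U c a n) :=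
  T.block n c (fun j m => T.η j * a j m)

lemma Mr (n : ℕ) : (0 : ℝ) < T.M n := by exact_mod_cast T.Mpos n

lemma Mpow (n : ℕ) : (T.M n : ℝ) ^ (1 / p - 1) * (T.M n : ℝ) ^ (1 - 1 / p) = 1 := by
  rw [← Real.rpow_add (T.Mr n)]
  simp

lemma step (hp : 1 ≤ p) (c : ℝ) (a : ℕ → ℕ → ℝ) (n : ℕ) :
    ‖T.U c a n‖ ≤ ‖T.U c a (n + 1)‖ + T.η n * T.nw n (a n) ^ (1 / p) := by
  have h := block_I1 hp (T.Mpos n) (T.U_block c a n) (T.h3 n) (fun m => T.η n * a n m)
  rw [← T.U_succ, ← mul_sum, abs_mul, abs_of_pos (T.ηpos n)] at h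
  have h2 := T.wsum n (a n)
  have h3 := mul_le_mul_of_nonneg_left h2
    (mul_nonneg (Real.rpow_nonneg (T.Mr n).le (1 / p - 1)) (T.ηpos n).le)
  have h4 : (T.M n : ℝ) ^ (1 / p - 1) * T.η n * ((T.M n : ℝ) ^ (1 - 1 / p) *
      NW p (T.M n) (T.D n) (T.w n) (a n) ^ (1 / p)) = T.η n * T.nw n (a n) ^ (1 / p) := by
    have := T.Mpow n
    unfold nw
    linear_combination (T.η n * NW p (T.M n) (T.D n) (T.w n) (a n) ^ (1 / p)) * this
  rw [h4] at h3
  linarith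

lemma chain (hp : 1 ≤ p) (c : ℝ) (a : ℕ → ℕ → ℝ) (n B : ℕ) (h : n ≤ B) :
    ‖T.U c a n‖ ≤ ‖T.U c a B‖ + ∑ j ∈ Ico n B, T.η j * T.nw j (a j) ^ (1 / p) := by
  induction B, h using Nat.le_induction with
  | base => simp
  | succ B hB ih =>
    rw [sum_Ico_succ_top hB]
    have := T.step hp c a B
    linarith

/-- the truncated array -/
noncomputable def trA (n K : ℕ) (a : ℕ → ℕ → ℝ) (j m : ℕ) : ℝ :=
  if j < n then a j m else if j = n then tr K (a n) m else 0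

lemma XX_zero (M : ℕ) (w : ℕ → ℕ → ℝ) (a : ℕ → ℝ) (ha : ∀ m, a m = 0) (i : ℕ) :
    XX M w a i = 0 := by
  unfold XX
  exact sum_eq_zero fun m _ => by rw [ha, zero_mul]

lemma nw_zero (hp : 1 ≤ p) (n : ℕ) (a : ℕ → ℝ) (ha : ∀ m, a m = 0) : T.nw n a = 0 := by
  unfold nw NW
  apply sum_eq_zero
  intro i _
  rw [XX_zero _ _ _ ha, abs_zero, Real.zero_rpow (by linarith)]

lemma U_trA (c : ℝ) (a : ℕ → ℕ → ℝ) (n B K : ℕ) (h : n < B) : T.U c (trA n K a) B =
    T.U c a n + ∑ m ∈ range (T.M n), (tr K (fun m => T.η n * a n m) m) • T.k n m := by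
  have h1 : T.U c (trA n K a) B = T.U c (trA n K a) (n + 1) := by
    obtain ⟨d, rfl⟩ : ∃ d, B = n + 1 + d := ⟨B - (n + 1), by omega⟩
    induction d with
    | zero => rfl
    | succ d ih =>
      rw [← add_assoc, U_succ, ih (by omega)]
      rw [sum_eq_zero, add_zero]
      intro m _
      unfold trA
      rw [if_neg (by omega), if_neg (by omega), mul_zero, zero_smul]
  rw [h1, U_succ]
  congr 1
  · unfold U
    congr 1
    refine sum_congr rfl fun j hj => sum_congr rfl fun m _ => ?_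
    unfold trA
    rw [if_pos (mem_range.mp hj)]
  · refine sum_congr rfl fun m _ => ?_
    unfold trA tr
    rw [if_neg (lt_irrefl _), if_pos rfl]
    congr 1
    split_ifs
    · rfl
    · rw [mul_zero]

/-- the constant of the block estimate -/
noncomputable def C : ℝ := T.σ ^ (1 - p) * (2 + T.σ) + T.σ

theorem G (hp : 1 ≤ p) (c : ℝ) (a : ℕ → ℕ → ℝ) (n B K : ℕ) (h : n < B) (hK : K ≤ T.M n)
    {ρ : ℝ} (hρ0 : 0 ≤ ρ)
    (hρ : (1 + T.σ) * ∑ j ∈ Ico (n + 1) B, T.η j + T.C * T.η n ≤ ρ) :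
    ‖T.full c (trA n K a) B‖ ≤ (1 + T.σ + ρ) * ‖T.full c a B‖ := by
  have hp0 : 0 < p := by linarith
  have hpp : 0 ≤ 1 / p := by positivity
  have hσ := T.σpos
  set x := ‖T.U c a B‖ with hx
  set w := (∑ j ∈ range B, T.nw j (a j)) ^ (1 / p) with hw
  have hsum0 : 0 ≤ ∑ j ∈ range B, T.nw j (a j) := sum_nonneg fun j _ => T.nw_nonneg j _
  have hw0 : 0 ≤ w := Real.rpow_nonneg hsum0 _
  have hwp : w ^ p = ∑ j ∈ range B, T.nw j (a j) := by
    rw [hw, ← Real.rpow_mul hsum0, one_div_mul_cancel hp0.ne', Real.rpow_one]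
  have hwj : ∀ j < B, T.nw j (a j) ^ (1 / p) ≤ w := by
    intro j hj
    apply Real.rpow_le_rpow (T.nw_nonneg _ _) _ hpp
    exact single_le_sum (f := fun j => T.nw j (a j)) (fun j _ => T.nw_nonneg j _)
      (mem_range.mpr hj)
  -- the K part
  have hI2 := block_I2 hp (T.Mpos n) (T.U_block c a n) (T.h3 n) hσ
    (fun m => T.η n * a n m) hK
  rw [← T.U_succ, ← T.U_trA c a n B K h] at hI2
  have hch := T.chain hp c a (n + 1) B h
  have hs1 : ∑ j ∈ Ico (n + 1) B, T.η j * T.nw j (a j) ^ (1 / p) ≤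
      (∑ j ∈ Ico (n + 1) B, T.η j) * w := by
    rw [sum_mul]
    refine sum_le_sum fun j hj => ?_
    exact mul_le_mul_of_nonneg_left (hwj j (mem_Ico.mp hj).2) (T.ηpos j).le
  have hall := T.wsum n (a n)
  have htr := T.wsum n (tr K (a n))
  have htr2 := T.wtr n (a n) K hK
  have e1 : ∑ m ∈ range (T.M n), tr K (a n) m = ∑ m ∈ range K, a n m := by
    rw [range_eq_Ico, ← sum_Ico_consecutive _ (Nat.zero_le K) hK]
    have e2 : ∑ i ∈ Ico K (T.M n), tr K (a n) i = 0 := by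
      apply sum_eq_zero
      intro i hi
      rw [mem_Ico] at hi
      unfold tr
      rw [if_neg (by omega)]
    rw [e2, add_zero, range_eq_Ico]
    refine sum_congr rfl fun i hi => ?_
    rw [mem_Ico] at hi
    unfold tr
    rw [if_pos hi.2]
  have e3 : ∑ m ∈ Ico K (T.M n), a n m = ∑ m ∈ range (T.M n), a n m - ∑ m ∈ range K, a n m := by
    rw [range_eq_Ico, ← sum_Ico_consecutive _ (Nat.zero_le K) hK, range_eq_Ico]
    ring
  have hMp : 0 ≤ (T.M n : ℝ) ^ (1 - 1 / p) := Real.rpow_nonneg (T.Mr n).le _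
  have hMm : 0 ≤ (T.M n : ℝ) ^ (1 / p - 1) := Real.rpow_nonneg (T.Mr n).le _
  have hwn : T.nw n (a n) ^ (1 / p) ≤ w := hwj n h
  have hwn0 : 0 ≤ T.nw n (a n) ^ (1 / p) := Real.rpow_nonneg (T.nw_nonneg _ _) _
  have htail : |∑ m ∈ Ico K (T.M n), a n m| ≤ (T.M n : ℝ) ^ (1 - 1 / p) * ((2 + T.σ) * w) := by
    rw [e3]
    refine (abs_sub _ _).trans ?_
    rw [e1] at htr
    have h1 := mul_le_mul_of_nonneg_left (htr2.trans
      (mul_le_mul_of_nonneg_left hwn (by linarith : 0 ≤ 1 + T.σ))) hMp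
    have h2 := mul_le_mul_of_nonneg_left hwn hMp
    have h3 : |∑ m ∈ range (T.M n), a n m| ≤ (T.M n : ℝ) ^ (1 - 1 / p) * w := hall.trans h2
    have h4 : |∑ m ∈ range K, a n m| ≤ (T.M n : ℝ) ^ (1 - 1 / p) * ((1 + T.σ) * w) := htr.trans h1
    linarith
  have hall2 : |∑ m ∈ range (T.M n), a n m| ≤ (T.M n : ℝ) ^ (1 - 1 / p) * w :=
    hall.trans (mul_le_mul_of_nonneg_left hwn hMp)
  have e4 : ∑ m ∈ Ico K (T.M n), T.η n * a n m = T.η n * ∑ m ∈ Ico K (T.M n), a n m :=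
    (mul_sum _ _ _).symm
  have e5 : ∑ m ∈ range (T.M n), T.η n * a n m = T.η n * ∑ m ∈ range (T.M n), a n m :=
    (mul_sum _ _ _).symm
  rw [e4, e5, abs_mul, abs_mul, abs_of_pos (T.ηpos n)] at hI2
  have hσp : 0 ≤ T.σ ^ (1 - p) := Real.rpow_nonneg hσ.le _
  have hy1 : (T.M n : ℝ) ^ (1 / p - 1) * (T.σ ^ (1 - p) * (T.η n * |∑ m ∈ Ico K (T.M n), a n m|) +
      T.σ * (T.η n * |∑ m ∈ range (T.M n), a n m|)) ≤ T.C * T.η n * w := by
    have h1 : T.σ ^ (1 - p) * (T.η n * |∑ m ∈ Ico K (T.M n), a n m|) +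
        T.σ * (T.η n * |∑ m ∈ range (T.M n), a n m|) ≤
        T.σ ^ (1 - p) * (T.η n * ((T.M n : ℝ) ^ (1 - 1 / p) * ((2 + T.σ) * w))) +
        T.σ * (T.η n * ((T.M n : ℝ) ^ (1 - 1 / p) * w)) :=
      add_le_add (mul_le_mul_of_nonneg_left (mul_le_mul_of_nonneg_left htail (T.ηpos n).le) hσp)
        (mul_le_mul_of_nonneg_left (mul_le_mul_of_nonneg_left hall2 (T.ηpos n).le) hσ.le)
    refine (mul_le_mul_of_nonneg_left h1 hMm).trans (le_of_eq ?_)
    have := T.Mpow n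
    unfold C
    linear_combination (T.σ ^ (1 - p) * T.η n * (2 + T.σ) * w + T.σ * T.η n * w) * this
  have hy : ‖T.U c (trA n K a) B‖ ≤ (1 + T.σ) * x + ρ * w := by
    have h1 := mul_le_mul_of_nonneg_left (hch.trans (add_le_add le_rfl hs1))
      (by linarith : 0 ≤ 1 + T.σ)
    have h2 := mul_le_mul_of_nonneg_right hρ hw0
    linarith
  -- the W part
  set w' := (∑ j ∈ range B, T.nw j (trA n K a j)) ^ (1 / p) with hw'
  have hsum0' : 0 ≤ ∑ j ∈ range B, T.nw j (trA n K a j) := sum_nonneg fun j _ => T.nw_nonneg j _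
  have hw'p : w' ^ p = ∑ j ∈ range B, T.nw j (trA n K a j) := by
    rw [hw', ← Real.rpow_mul hsum0', one_div_mul_cancel hp0.ne', Real.rpow_one]
  have hww : w' ≤ (1 + T.σ) * w := by
    have h1 : ∑ j ∈ range B, T.nw j (trA n K a j) ≤
        (1 + T.σ) ^ p * ∑ j ∈ range B, T.nw j (a j) := by
      rw [mul_sum]
      refine sum_le_sum fun j _ => ?_
      have hone : (1 : ℝ) ≤ (1 + T.σ) ^ p := Real.one_le_rpow (by linarith) hp0.le
      rcases lt_trichotomy j n with hj | hj | hj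
      · have : T.nw j (trA n K a j) = T.nw j (a j) := by
          apply NW_congr
          intro m _
          unfold trA
          rw [if_pos hj]
        rw [this]
        have := T.nw_nonneg j (a j)
        nlinarith
      · subst hj
        have e6 : T.nw j (trA j K a j) = T.nw j (tr K (a j)) := by
          apply NW_congr
          intro m _
          unfold trA
          rw [if_neg (lt_irrefl _), if_pos rfl]
        rw [e6]
        have h5 : (NW p (T.M j) (T.D j) (T.w j) (tr K (a j)) ^ (1 / p)) ^ p ≤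
            ((1 + T.σ) * NW p (T.M j) (T.D j) (T.w j) (a j) ^ (1 / p)) ^ p :=
          Real.rpow_le_rpow (Real.rpow_nonneg (T.nw_nonneg j (tr K (a j))) _) htr2 hp0.le
        have e10 : ((1 + T.σ) * NW p (T.M j) (T.D j) (T.w j) (a j) ^ (1 / p)) ^ p =
            (1 + T.σ) ^ p * (NW p (T.M j) (T.D j) (T.w j) (a j) ^ (1 / p)) ^ p :=
          Real.mul_rpow (by linarith) (Real.rpow_nonneg (T.nw_nonneg j _) _)
        have e7 : ∀ b, (NW p (T.M j) (T.D j) (T.w j) b ^ (1 / p)) ^ p =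
            NW p (T.M j) (T.D j) (T.w j) b := by
          intro b
          have hb : 0 ≤ NW p (T.M j) (T.D j) (T.w j) b := T.nw_nonneg j b
          rw [← Real.rpow_mul hb, one_div_mul_cancel hp0.ne', Real.rpow_one]
        rw [e10, e7, e7] at h5
        exact h5
      · rw [T.nw_zero hp j (trA n K a j) (fun m => by
          unfold trA
          rw [if_neg (by omega), if_neg (by omega)])]
        exact mul_nonneg (by linarith) (T.nw_nonneg _ _)
    calc w' ≤ ((1 + T.σ) ^ p * ∑ j ∈ range B, T.nw j (a j)) ^ (1 / p) :=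
          Real.rpow_le_rpow hsum0' h1 hpp
      _ = (1 + T.σ) * w := by
          rw [Real.mul_rpow (by positivity) hsum0, ← Real.rpow_mul (by linarith),
            mul_one_div_cancel hp0.ne', Real.rpow_one]
  have hfin := mink2 hp (by linarith : 0 ≤ 1 + T.σ) hρ0 (norm_nonneg _) hw0
    (norm_nonneg (T.U c (trA n K a) B)) (Real.rpow_nonneg hsum0' _) hy hww
  rw [hwp, ← hw', hw'p] at hfin
  have e9 : ∀ z : E, ‖z‖ = (‖z‖ ^ p) ^ (1 / p) := by
    intro z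
    rw [← Real.rpow_mul (norm_nonneg _), mul_one_div_cancel hp0.ne', Real.rpow_one]
  rw [e9 (T.full c (trA n K a) B), e9 (T.full c a B), full_norm, full_norm]
  exact hfin

end Sys

end Pool.Agent.X203.NN
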