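import Mathlib
import Pool.Agent.X203.NND

set_option linter.unusedSectionVars false
set_option linter.unusedSimpArgs false
set_option linter.unusedVariables false

namespace Pool.Agent.X203.NN

open Filter Finset Topology

namespace Sys

variable {p : ℝ} {V E : Type*} [NormedAddCommGroup V] [NormedSpace ℝ V]
    [NormedAddCommGroup E] [NormedSpace ℝ E] (T : Sys p V E)

/-- starting index of block `n` -/
def St (n : ℕ) : ℕ := 1 + ∑ j ∈ range n, T.M j

lemma St_succ (n : ℕ) : T.St (n + 1) = T.St n + T.M n := by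
  unfold St; rw [sum_range_succ, add_assoc]

lemma St_mono {n n' : ℕ} (h : n ≤ n') : T.St n ≤ T.St n' := by
  induction n', h using Nat.le_induction with
  | base => exact le_rfl
  | succ k _ ih => rw [St_succ]; omega

lemma le_St (n : ℕ) : n + 1 ≤ T.St n := by
  induction n with
  | zero => simp [St]
  | succ n ih => rw [St_succ]; have := T.Mpos n; omega

lemma exists_rep (l : ℕ) (hl : 1 ≤ l) : ∃ q : ℕ × ℕ, q.2 < T.M q.1 ∧ l = T.St q.1 + q.2 := by
  induction l, hl using Nat.le_induction with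
  | base => exact ⟨(0, 0), T.Mpos 0, by simp [St]⟩
  | succ l _ ih =>
    obtain ⟨⟨n, m⟩, h1, h2⟩ := ih
    simp only at h1 h2
    by_cases h : m + 1 < T.M n
    · exact ⟨(n, m + 1), h, by simp only; omega⟩
    · refine ⟨(n + 1, 0), T.Mpos _, ?_⟩
      simp only [St_succ]
      omega

lemma rep_unique {n m n' m' : ℕ} (h : m < T.M n) (h' : m' < T.M n')
    (he : T.St n + m = T.St n' + m') : n = n' ∧ m = m' := by
  have h1 : n = n' := by
    rcases lt_trichotomy n n' with hn | hn | hn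
    · have := T.St_mono (Nat.succ_le_of_lt hn)
      rw [Nat.succ_eq_add_one, St_succ] at this
      omega
    · exact hn
    · have := T.St_mono (Nat.succ_le_of_lt hn)
      rw [Nat.succ_eq_add_one, St_succ] at this
      omega
  subst h1
  exact ⟨rfl, by omega⟩

open Classical in
/-- the flattened sequence -/
noncomputable def F (l : ℕ) : E :=
  if h : ∃ q : ℕ × ℕ, q.2 < T.M q.1 ∧ l = T.St q.1 + q.2 then T.f h.choose.1 h.choose.2
  else T.J T.k0

lemma F_zero : T.F 0 = T.J T.k0 := by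
  unfold F
  rw [dif_neg]
  rintro ⟨q, _, h⟩
  have := T.le_St q.1
  omega

lemma F_St {n m : ℕ} (h : m < T.M n) : T.F (T.St n + m) = T.f n m := by
  have hex : ∃ q : ℕ × ℕ, q.2 < T.M q.1 ∧ T.St n + m = T.St q.1 + q.2 := ⟨(n, m), h, rfl⟩
  unfold F
  rw [dif_pos hex]
  obtain ⟨h1, h2⟩ := T.rep_unique h hex.choose_spec.1 hex.choose_spec.2
  rw [← h1, ← h2]

lemma sum_St (b : ℕ → ℝ) (B : ℕ) : ∑ l ∈ range (T.St B), b l • T.F l =
    T.full (b 0) (fun n m => b (T.St n + m)) B := by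
  induction B with
  | zero => simp [St, full, F_zero]
  | succ B ih =>
    rw [St_succ, sum_range_add, ih]
    unfold full
    rw [sum_range_succ, add_assoc]
    congr 2
    exact sum_congr rfl fun m hm => by rw [T.F_St (mem_range.mp hm)]

lemma full_congr {c : ℝ} {a b : ℕ → ℕ → ℝ} {B : ℕ} (h : ∀ n, ∀ m < T.M n, a n m = b n m) :
    T.full c a B = T.full c b B := by
  unfold full
  congr 1
  exact sum_congr rfl fun n _ => sum_congr rfl fun m hm => by rw [h n m (mem_range.mp hm)]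

lemma sum_tr (b : ℕ → ℝ) (x : ℕ → E) {L S : ℕ} (h : L ≤ S) :
    ∑ l ∈ range S, tr L b l • x l = ∑ l ∈ range L, b l • x l := by
  rw [range_eq_Ico, ← sum_Ico_consecutive _ (Nat.zero_le L) h, range_eq_Ico]
  have e1 : ∑ i ∈ Ico L S, tr L b i • x i = 0 := by
    apply sum_eq_zero
    intro i hi
    rw [mem_Ico] at hi
    unfold tr
    rw [if_neg (by omega), zero_smul]
  rw [e1, add_zero]
  refine sum_congr rfl fun i hi => ?_
  rw [mem_Ico] at hi
  unfold tr
  rw [if_pos hi.2]

/-- the almost monotone inequality -/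
theorem grun {ρ : ℝ} (hρ0 : 0 ≤ ρ)
    (hρ : ∀ n B, (1 + T.σ) * ∑ j ∈ Ico (n + 1) B, T.η j + T.C * T.η n ≤ ρ)
    (a : ℕ → ℝ) (L L' : ℕ) (h : L ≤ L') :
    ‖∑ l ∈ range L, a l • T.F l‖ ≤ (1 + T.σ + ρ) * ‖∑ l ∈ range L', a l • T.F l‖ := by
  have hσ := T.σpos
  rcases Nat.eq_zero_or_pos L with h0 | hpos
  · subst h0
    rw [range_zero, sum_empty, norm_zero]
    positivity
  rcases h.eq_or_lt with heq | hlt
  · subst heq
    have := norm_nonneg (∑ l ∈ range L, a l • T.F l)
    nlinarith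
  obtain ⟨⟨n, K⟩, hK, hL⟩ := T.exists_rep L hpos
  simp only at hK hL
  have hB : L' ≤ T.St L' := by have := T.le_St L'; omega
  have hnB : n < L' := by have := T.le_St n; omega
  have e1 : ∑ l ∈ range L', a l • T.F l =
      T.full (tr L' a 0) (fun n m => tr L' a (T.St n + m)) L' := by
    rw [← sum_St, sum_tr a T.F hB]
  have e2 : ∑ l ∈ range L, a l • T.F l =
      T.full (tr L' a 0) (trA n K (fun n m => tr L' a (T.St n + m))) L' := by
    rw [← sum_tr a T.F (hlt.le.trans hB), sum_St]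
    have e3 : tr L a 0 = tr L' a 0 := by
      unfold tr; rw [if_pos hpos, if_pos (by omega)]
    rw [e3]
    apply full_congr
    intro j m hm
    unfold trA
    rcases lt_trichotomy j n with hj | hj | hj
    · rw [if_pos hj]
      have h1 := T.St_mono (Nat.succ_le_of_lt hj)
      rw [Nat.succ_eq_add_one, St_succ] at h1
      unfold tr
      dsimp only
      rw [if_pos (by omega), if_pos (by omega)]
    · subst hj
      rw [if_neg (lt_irrefl _), if_pos rfl]
      unfold tr
      dsimp only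
      by_cases hmK : m < K
      · rw [if_pos (by omega), if_pos hmK, if_pos (by omega)]
      · rw [if_neg (by omega), if_neg hmK]
    · rw [if_neg (by omega), if_neg (by omega)]
      have h1 := T.St_mono (Nat.succ_le_of_lt hj)
      rw [Nat.succ_eq_add_one, St_succ] at h1
      unfold tr
      rw [if_neg (by omega)]
  rw [e1, e2]
  exact T.G T.one_le _ _ n L' K hnB hK.le hρ0 (hρ n L')

lemma f_ne (n m : ℕ) (hm : m < T.M n) : T.f n m ≠ 0 := by
  intro h
  have hp0 := T.ppos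
  have h1 := T.nf (T.η n • T.k n m) (({n} : Finset ℕ).sigma fun j => range (T.D j))
    (fun q => T.w q.1 m q.2)
  rw [sum_sigma, sum_singleton] at h1
  have h2 : T.J (T.η n • T.k n m) + ∑ s ∈ range (T.D n), T.w n m s • T.e ⟨n, s⟩ = 0 := h
  simp only at h1
  rw [h2, norm_zero, Real.zero_rpow hp0.ne'] at h1
  have h3 := T.h3 n {m} (by simpa using hm)
  rw [sum_singleton, card_singleton, Nat.cast_one, Real.one_rpow] at h3
  rw [norm_smul, h3, mul_one, Real.norm_eq_abs, abs_of_pos (T.ηpos n)] at h1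
  have h4 : 0 < T.η n ^ p := Real.rpow_pos_of_pos (T.ηpos n) p
  have h5 : 0 ≤ ∑ q ∈ (({n} : Finset ℕ).sigma fun j => range (T.D j)), |T.w q.1 m q.2| ^ p :=
    sum_nonneg fun _ _ => Real.rpow_nonneg (abs_nonneg _) _
  linarith

lemma F_ne (l : ℕ) : T.F l ≠ 0 := by
  rcases Nat.eq_zero_or_pos l with h0 | hpos
  · subst h0
    rw [F_zero]
    intro h
    exact T.k0ne (T.J.injective (by rw [h, map_zero]))
  · obtain ⟨⟨n, m⟩, h1, h2⟩ := T.exists_rep l hpos
    simp only at h1 h2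
    rw [h2, T.F_St h1]
    exact T.f_ne n m h1

/-! ### the embedding -/

section embed

variable {X : Type*} [NormedAddCommGroup X] [NormedSpace ℝ X] (ι : X →ₗᵢ[ℝ] V) (one : X)
  (hX : ℕ → X) (β : ℕ → ℝ) (s : ℕ → ℕ → ℝ)

/-- the basis on the `X` side -/
def xb : ℕ → X
  | 0 => one
  | n + 1 => hX n

/-- perturbed elements -/
noncomputable def g (n : ℕ) : E := (T.η n)⁻¹ • β n • ∑ m ∈ range (T.M n), s n m • T.f n m

/-- the basis on the `E` side -/
noncomputable def eb : ℕ → E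
  | 0 => T.J T.k0
  | n + 1 => T.g β s n

/-- partial sums on the `X` side -/
noncomputable def xs (c : ℕ → ℝ) (N : ℕ) : X := ∑ l ∈ range (N + 1), c l • xb one hX l

/-- partial sums on the `E` side -/
noncomputable def es (c : ℕ → ℝ) (N : ℕ) : E := ∑ l ∈ range (N + 1), c l • T.eb β s l

/-- the `W` part of the perturbed element -/
noncomputable def vv (n : ℕ) : E := ∑ i ∈ range (T.D n),
  ((T.η n)⁻¹ * β n * XX (T.M n) (T.w n) (s n) i) • T.e ⟨n, i⟩

variable (h1 : ι one = T.k0) (hh : ∀ n, ι (hX n) = β n • ∑ m ∈ range (T.M n), s n m • T.k n m)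
  (hs : ∀ n m, |s n m| = 1) (hs0 : ∀ n, ∑ m ∈ range (T.M n), s n m = 0) (hβ : ∀ n, 0 < β n)
  (hθ : ∀ n, T.nw n (s n) ^ (1 / p) ≤ T.η n * (1 / 2) ^ n * (T.M n : ℝ) ^ (1 / p))

include hh in
lemma g_eq (n : ℕ) : T.g β s n = T.J (ι (hX n)) + T.vv β s n := by
  unfold g vv
  rw [T.blockW, hh]
  simp only [smul_add, map_smul, map_sum, smul_sum, smul_smul]
  congr 1
  · refine sum_congr rfl fun m _ => ?_
    congr 1
    have := (T.ηpos n).ne'
    field_simp
  · exact sum_congr rfl fun i _ => by rw [mul_assoc]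

include h1 hh in
lemma ixs (c : ℕ → ℝ) (N : ℕ) : ι (xs one hX c N) = c 0 • T.k0 + ∑ j ∈ range N,
    ∑ m ∈ range (T.M j), (c (j + 1) * β j * s j m) • T.k j m := by
  unfold xs
  rw [sum_range_succ', add_comm, map_add, map_sum]
  congr 1
  · rw [map_smul]
    show c 0 • ι one = _
    rw [h1]
  · refine sum_congr rfl fun j _ => ?_
    rw [map_smul]
    show c (j + 1) • ι (hX j) = _
    rw [hh, smul_smul, smul_sum]
    exact sum_congr rfl fun m _ => by rw [smul_smul]

include h1 hh hs0 in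
lemma xs_mono (c : ℕ → ℝ) {N N' : ℕ} (h : N ≤ N') : ‖xs one hX c N‖ ≤ ‖xs one hX c N'‖ := by
  induction N', h using Nat.le_induction with
  | base => exact le_rfl
  | succ N' _ ih =>
    refine ih.trans ?_
    rw [← ι.norm_map, ← ι.norm_map (xs one hX c (N' + 1)), T.ixs ι one hX β s h1 hh,
      T.ixs ι one hX β s h1 hh, sum_range_succ, ← add_assoc]
    have h2 := block_I1 T.one_le (T.Mpos N') (T.block N' (c 0)
      (fun j m => c (j + 1) * β j * s j m)) (T.h3 N') (fun m => c (N' + 1) * β N' * s N' m)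
    have e1 : ∑ m ∈ range (T.M N'), c (N' + 1) * β N' * s N' m = 0 := by
      rw [← mul_sum, hs0, mul_zero]
    rw [e1, abs_zero, mul_zero, add_zero] at h2
    exact h2

include hh hs hβ in
lemma norm_hX (n : ℕ) : ‖hX n‖ = β n * (T.M n : ℝ) ^ (1 / p) := by
  have hp0 := T.ppos
  rw [← ι.norm_map, hh, norm_smul, Real.norm_eq_abs, abs_of_pos (hβ n)]
  congr 1
  have h2 := T.kn n (s n)
  simp only [hs, Real.one_rpow, sum_const, card_range, nsmul_eq_mul, mul_one] at h2
  rw [← h2, ← Real.rpow_mul (norm_nonneg _), mul_one_div_cancel hp0.ne', Real.rpow_one]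

include hh hs hβ hθ in
lemma norm_vv (n : ℕ) : ‖T.vv β s n‖ ≤ ‖hX n‖ * (1 / 2) ^ n := by
  have hp0 := T.ppos
  have h2 := T.nf 0 (({n} : Finset ℕ).sigma fun j => range (T.D j))
    (fun q => (T.η q.1)⁻¹ * β q.1 * XX (T.M q.1) (T.w q.1) (s q.1) q.2)
  rw [sum_sigma, sum_singleton, map_zero, zero_add, norm_zero, Real.zero_rpow hp0.ne', zero_add,
    sum_sigma, sum_singleton] at h2
  have h3 : ‖T.vv β s n‖ ^ p = ((T.η n)⁻¹ * β n) ^ p * T.nw n (s n) := by
    unfold vv
    rw [h2]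
    unfold nw NW
    rw [mul_sum]
    refine sum_congr rfl fun i _ => ?_
    have h0 : 0 < (T.η n)⁻¹ * β n := mul_pos (inv_pos.mpr (T.ηpos n)) (hβ n)
    simp only
    rw [abs_mul, abs_of_pos h0, Real.mul_rpow h0.le (abs_nonneg _)]
  have h0 : 0 < (T.η n)⁻¹ * β n := mul_pos (inv_pos.mpr (T.ηpos n)) (hβ n)
  have h4 : ‖T.vv β s n‖ = (T.η n)⁻¹ * β n * T.nw n (s n) ^ (1 / p) := by
    have e1 : ‖T.vv β s n‖ = (‖T.vv β s n‖ ^ p) ^ (1 / p) := by
      rw [← Real.rpow_mul (norm_nonneg _), mul_one_div_cancel hp0.ne', Real.rpow_one]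
    rw [e1, h3, Real.mul_rpow (by positivity) (T.nw_nonneg _ _), ← Real.rpow_mul h0.le,
      mul_one_div_cancel hp0.ne', Real.rpow_one]
  rw [h4, T.norm_hX ι hX β s hh hs hβ n]
  have h5 := mul_le_mul_of_nonneg_left (hθ n) h0.le
  refine h5.trans (le_of_eq ?_)
  have := (T.ηpos n).ne'
  field_simp

include h1 hh in
lemma es_eq (c : ℕ → ℝ) (N : ℕ) : T.es β s c N =
    T.J (ι (xs one hX c N)) + ∑ n ∈ range N, c (n + 1) • T.vv β s n := by
  unfold es xs
  rw [sum_range_succ', sum_range_succ', map_add, map_add, map_sum, map_sum]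
  have e1 : ∀ n, T.eb β s (n + 1) = T.J (ι (hX n)) + T.vv β s n := fun n =>
    T.g_eq ι hX β s hh n
  have e2 : T.eb β s 0 = T.J (ι one) := by rw [h1]; rfl
  have e3 : ∀ n, xb one hX (n + 1) = hX n := fun n => rfl
  have e4 : xb one hX 0 = one := rfl
  simp only [e1, e2, e3, e4, smul_add, sum_add_distrib, map_smul]
  abel

include h1 hh in
lemma es_lower (c : ℕ → ℝ) (N : ℕ) : ‖xs one hX c N‖ ≤ ‖T.es β s c N‖ := by
  have hp0 := T.ppos
  rw [T.es_eq ι one hX β s h1 hh, ← Real.rpow_le_rpow_iff (norm_nonneg _) (norm_nonneg _) hp0]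
  have h2 := T.nf (ι (xs one hX c N)) ((range N).sigma fun j => range (T.D j))
    (fun q => c (q.1 + 1) * ((T.η q.1)⁻¹ * β q.1 * XX (T.M q.1) (T.w q.1) (s q.1) q.2))
  rw [sum_sigma] at h2
  have e1 : ∑ n ∈ range N, c (n + 1) • T.vv β s n = ∑ n ∈ range N, ∑ i ∈ range (T.D n),
      (c (n + 1) * ((T.η n)⁻¹ * β n * XX (T.M n) (T.w n) (s n) i)) • T.e ⟨n, i⟩ := by
    refine sum_congr rfl fun n _ => ?_
    unfold vv
    rw [smul_sum]
    exact sum_congr rfl fun i _ => by rw [smul_smul]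
  rw [e1]
  simp only at h2
  rw [h2, ι.norm_map]
  have : 0 ≤ ∑ q ∈ (range N).sigma fun j => range (T.D j),
      |c (q.1 + 1) * ((T.η q.1)⁻¹ * β q.1 * XX (T.M q.1) (T.w q.1) (s q.1) q.2)| ^ p :=
    sum_nonneg fun _ _ => Real.rpow_nonneg (abs_nonneg _) _
  linarith

include h1 hh hs hs0 hβ hθ in
lemma es_upper (c : ℕ → ℝ) (N : ℕ) : ‖T.es β s c N‖ ≤ 5 * ‖xs one hX c N‖ := by
  rw [T.es_eq ι one hX β s h1 hh]
  refine (norm_add_le _ _).trans ?_
  rw [T.J.norm_map, ι.norm_map]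
  have h2 : ‖∑ n ∈ range N, c (n + 1) • T.vv β s n‖ ≤ 4 * ‖xs one hX c N‖ := by
    calc ‖∑ n ∈ range N, c (n + 1) • T.vv β s n‖
        ≤ ∑ n ∈ range N, ‖c (n + 1) • T.vv β s n‖ := norm_sum_le _ _
      _ ≤ ∑ n ∈ range N, 2 * ‖xs one hX c N‖ * (1 / 2) ^ n := by
          refine sum_le_sum fun n hn => ?_
          rw [mem_range] at hn
          have a1 := T.xs_mono ι one hX β s h1 hh hs0 c (Nat.succ_le_of_lt hn)
          have a2 := T.xs_mono ι one hX β s h1 hh hs0 c hn.le
          have a3 : c (n + 1) • hX n = xs one hX c (n + 1) - xs one hX c n := by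
            unfold xs
            rw [sum_range_succ _ (n + 1)]
            show c (n + 1) • hX n = _ + c (n + 1) • hX n - _
            abel
          have a4 : ‖c (n + 1) • hX n‖ ≤ 2 * ‖xs one hX c N‖ := by
            rw [a3]
            refine (norm_sub_le _ _).trans ?_
            have a5 : ‖xs one hX c (n + 1)‖ ≤ ‖xs one hX c N‖ := a1
            linarith
          rw [norm_smul] at a4 ⊢
          have a6 := T.norm_vv ι hX β s hh hs hβ hθ n
          calc ‖c (n + 1)‖ * ‖T.vv β s n‖ ≤ ‖c (n + 1)‖ * (‖hX n‖ * (1 / 2) ^ n) :=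
                mul_le_mul_of_nonneg_left a6 (norm_nonneg _)
            _ = (‖c (n + 1)‖ * ‖hX n‖) * (1 / 2) ^ n := by ring
            _ ≤ _ := mul_le_mul_of_nonneg_right a4 (by positivity)
      _ = 2 * ‖xs one hX c N‖ * ∑ n ∈ range N, (1 / 2 : ℝ) ^ n := by rw [mul_sum]
      _ ≤ 2 * ‖xs one hX c N‖ * 2 := by
          apply mul_le_mul_of_nonneg_left _ (by positivity)
          exact sum_geometric_two_le N
      _ = _ := by ring
  linarith

lemma lin_eq {Z : Type*} [NormedAddCommGroup Z] [NormedSpace ℝ Z] (z : ℕ → Z) (c : ℕ →₀ ℝ) :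
    ∃ N, Finsupp.linearCombination ℝ z c = ∑ l ∈ range (N + 1), c l • z l ∧
      ∀ N' ≥ N, Finsupp.linearCombination ℝ z c = ∑ l ∈ range (N' + 1), c l • z l := by
  have key : ∀ N' ≥ c.support.sup id,
      Finsupp.linearCombination ℝ z c = ∑ l ∈ range (N' + 1), c l • z l := by
    intro N' hN'
    rw [Finsupp.linearCombination_apply, Finsupp.sum]
    apply sum_subset
    · intro i hi
      rw [mem_range]
      have : i ≤ c.support.sup id := le_sup (f := id) hi
      omega
    · intro i _ hi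
      rw [Finsupp.notMem_support_iff.1 hi, zero_smul]
  exact ⟨_, key _ le_rfl, key⟩

include h1 hh hs hs0 hβ hθ in
theorem embed [CompleteSpace E] (hd : DenseRange (Finsupp.linearCombination ℝ (xb one hX))) :
    ∃ Φ : X →L[ℝ] E, (∀ x, ‖x‖ ≤ ‖Φ x‖) ∧
      ∀ x, Φ x ∈ closure (Submodule.span ℝ (Set.range T.F) : Set E) := by
  set Le := Finsupp.linearCombination ℝ (xb one hX) with hLe
  set Lf := Finsupp.linearCombination ℝ (T.eb β s) with hLf
  have hrep : ∀ c : ℕ →₀ ℝ, ∃ N, Le c = xs one hX c N ∧ Lf c = T.es β s c N := by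
    intro c
    obtain ⟨N1, -, h2⟩ := lin_eq (xb one hX) c
    obtain ⟨N2, -, h3⟩ := lin_eq (T.eb β s) c
    exact ⟨max N1 N2, h2 _ (le_max_left _ _), h3 _ (le_max_right _ _)⟩
  have hup : ∀ c, ‖Lf c‖ ≤ 5 * ‖Le c‖ := by
    intro c
    obtain ⟨N, h2, h3⟩ := hrep c
    rw [h2, h3]
    exact T.es_upper ι one hX β s h1 hh hs hs0 hβ hθ c N
  have hlo : ∀ c, ‖Le c‖ ≤ ‖Lf c‖ := by
    intro c
    obtain ⟨N, h2, h3⟩ := hrep c
    rw [h2, h3]
    exact T.es_lower ι one hX β s h1 hh c N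
  have hspan : ∀ c, Lf c ∈ Submodule.span ℝ (Set.range T.F) := by
    intro c
    rw [hLf, Finsupp.linearCombination_apply]
    refine Submodule.sum_mem _ fun l _ => Submodule.smul_mem _ _ ?_
    rcases l with _ | n
    · exact Submodule.subset_span ⟨0, T.F_zero⟩
    · show T.g β s n ∈ _
      unfold g
      refine Submodule.smul_mem _ _ (Submodule.smul_mem _ _ (Submodule.sum_mem _ fun m hm =>
        Submodule.smul_mem _ _ ?_))
      exact Submodule.subset_span ⟨T.St n + m, T.F_St (mem_range.mp hm)⟩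
  have hext : ∀ c, Lf.extendOfNorm Le (Le c) = Lf c :=
    LinearMap.extendOfNorm_eq hd ⟨5, hup⟩
  refine ⟨Lf.extendOfNorm Le, ?_, ?_⟩
  · intro x
    refine hd.induction_on (p := fun x => ‖x‖ ≤ ‖Lf.extendOfNorm Le x‖) x ?_ ?_
    · exact isClosed_le continuous_norm (ContinuousLinearMap.continuous _).norm
    · intro c
      show ‖Le c‖ ≤ ‖Lf.extendOfNorm Le (Le c)‖
      rw [hext]
      exact hlo c
  · intro x
    refine hd.induction_on (p := fun x => Lf.extendOfNorm Le x ∈
      closure (Submodule.span ℝ (Set.range T.F) : Set E)) x ?_ ?_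
    · exact isClosed_closure.preimage (ContinuousLinearMap.continuous _)
    · intro c
      show Lf.extendOfNorm Le (Le c) ∈ _
      rw [hext]
      exact subset_closure (hspan c)

end embed

end Sys

end Pool.Agent.X203.NN
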