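import Mathlib
import Pool.Agent.X203.NNB

set_option linter.unusedSectionVars false
set_option linter.unusedSimpArgs false
set_option linter.unusedVariables false

namespace Pool.Agent.X203.NN

open Filter Finset Topology MeasureTheory Set
open scoped ENNReal

/-! ### dyadic intervals -/

/-- depth -/
def dp (n : ℕ) : ℕ := Nat.log 2 (n + 1)

/-- floor at level `d` -/
noncomputable def fl (d : ℕ) (x : ℝ) : ℕ := ⌊(1 + x) * 2 ^ d⌋₊

/-- dyadic interval, heap indexed (root `0`, children `2n+1`, `2n+2`) -/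
def A (n : ℕ) : Set ℝ := {x : ℝ | 0 ≤ x ∧ fl (dp n) x = n + 1}

lemma A_eq (n : ℕ) : A n = Ico (((n : ℝ) + 1) / 2 ^ dp n - 1) (((n : ℝ) + 2) / 2 ^ dp n - 1) := by
  have h2 : (0 : ℝ) < 2 ^ dp n := by positivity
  have h1 : (2 : ℝ) ^ dp n ≤ n + 1 := by
    have := Nat.pow_log_le_self 2 (show n + 1 ≠ 0 by omega)
    exact_mod_cast this
  ext x
  simp only [A, fl, Set.mem_ofPred_eq, Set.mem_Ico]
  constructor
  · rintro ⟨h0, h3⟩
    rw [Nat.floor_eq_iff (by positivity)] at h3
    push_cast at h3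
    rw [sub_le_iff_le_add, div_le_iff₀ h2, lt_sub_iff_add_lt, lt_div_iff₀ h2]
    constructor
    · linarith [h3.1]
    · linarith [h3.2]
  · rintro ⟨h3, h4⟩
    have h0 : 0 ≤ x := by
      have : 1 ≤ ((n : ℝ) + 1) / 2 ^ dp n := by rw [le_div_iff₀ h2]; linarith
      linarith
    refine ⟨h0, ?_⟩
    rw [Nat.floor_eq_iff (by positivity)]
    push_cast
    rw [sub_le_iff_le_add, div_le_iff₀ h2] at h3
    rw [lt_sub_iff_add_lt, lt_div_iff₀ h2] at h4
    constructor <;> linarith

lemma measurableSet_A (n : ℕ) : MeasurableSet (A n) := by rw [A_eq]; exact measurableSet_Ico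

lemma A_sub (n : ℕ) : A n ⊆ Ico (0 : ℝ) 1 := by
  intro x hx
  refine ⟨hx.1, ?_⟩
  rw [A_eq] at hx
  have h2 : (0 : ℝ) < 2 ^ dp n := by positivity
  have h1 : (n : ℝ) + 2 ≤ 2 * 2 ^ dp n := by
    have := Nat.lt_pow_succ_log_self (b := 2) (by norm_num) (n + 1)
    have h3 : n + 2 ≤ 2 * 2 ^ dp n := by
      unfold dp; rw [Nat.succ_eq_add_one, pow_succ] at this; omega
    exact_mod_cast h3
  have h3 : ((n : ℝ) + 2) / 2 ^ dp n ≤ 2 := by rw [div_le_iff₀ h2]; linarith
  linarith [hx.2]

lemma A_nonempty (n : ℕ) : (A n).Nonempty := by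
  rw [A_eq]
  apply Set.nonempty_Ico.mpr
  have h2 : (0 : ℝ) < 2 ^ dp n := by positivity
  have : ((n : ℝ) + 1) / 2 ^ dp n < ((n : ℝ) + 2) / 2 ^ dp n := by
    apply div_lt_div_of_pos_right _ h2; linarith
  linarith

lemma fl_div (d k : ℕ) (x : ℝ) (hx : 0 ≤ x) : fl d x = fl (d + k) x / 2 ^ k := by
  unfold fl
  have h : (2 : ℕ) ^ k = ((2 ^ k : ℕ)) := rfl
  rw [← Nat.floor_div_natCast]
  congr 1
  push_cast
  rw [pow_add]
  field_simp

lemma dp_child (n : ℕ) : dp (2 * n + 1) = dp n + 1 ∧ dp (2 * n + 2) = dp n + 1 := by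
  unfold dp
  have h1 : Nat.log 2 ((2 * n + 1 + 1) / 2) = Nat.log 2 (2 * n + 1 + 1) - 1 :=
    Nat.log_div_base 2 _
  have h2 : Nat.log 2 ((2 * n + 2 + 1) / 2) = Nat.log 2 (2 * n + 2 + 1) - 1 :=
    Nat.log_div_base 2 _
  have e1 : (2 * n + 1 + 1) / 2 = n + 1 := by omega
  have e2 : (2 * n + 2 + 1) / 2 = n + 1 := by omega
  rw [e1] at h1
  rw [e2] at h2
  have p1 : 0 < Nat.log 2 (2 * n + 1 + 1) := Nat.log_pos (by norm_num) (by omega)
  have p2 : 0 < Nat.log 2 (2 * n + 2 + 1) := Nat.log_pos (by norm_num) (by omega)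
  omega

/-- children -/
def ch (n : ℕ) (s : Bool) : ℕ := if s then 2 * n + 1 else 2 * n + 2

lemma dp_ch (n : ℕ) (s : Bool) : dp (ch n s) = dp n + 1 := by
  unfold ch; cases s
  · exact (dp_child n).2
  · exact (dp_child n).1

lemma ch_sub (n : ℕ) (s : Bool) : A (ch n s) ⊆ A n := by
  intro x hx
  refine ⟨hx.1, ?_⟩
  have h := hx.2
  rw [dp_ch] at h
  rw [fl_div (dp n) 1 x hx.1, h]
  unfold ch; cases s <;> simp <;> omega

lemma ch_unique {n : ℕ} {x : ℝ} (hx : x ∈ A n) : ∃ s : Bool, ∀ t : Bool, x ∈ A (ch n t) ↔ t = s := by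
  have h0 := hx.2
  rw [fl_div (dp n) 1 x hx.1, pow_one] at h0
  have hmem : ∀ t, x ∈ A (ch n t) ↔ fl (dp n + 1) x = ch n t + 1 := by
    intro t
    unfold A
    rw [Set.mem_ofPred_eq, dp_ch]
    exact ⟨fun h => h.2, fun h => ⟨hx.1, h⟩⟩
  rcases Nat.even_or_odd (fl (dp n + 1) x) with ⟨r, hr⟩ | ⟨r, hr⟩
  · refine ⟨true, fun t => ?_⟩
    rw [hmem]
    unfold ch
    cases t
    · simp; omega
    · simp; omega
  · refine ⟨false, fun t => ?_⟩
    rw [hmem]
    unfold ch
    cases t
    · simp; omega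
    · simp; omega

lemma dp_mono {a b : ℕ} (h : a ≤ b) : dp a ≤ dp b := Nat.log_mono_right (by omega)

/-- children of earlier nodes are constant on `A n` -/
lemma const_ch {j n : ℕ} (h : j < n) (s : Bool) {x x' : ℝ} (hx : x ∈ A n) (hx' : x' ∈ A n)
    (hm : x ∈ A (ch j s)) : x' ∈ A (ch j s) := by
  refine ⟨hx'.1, ?_⟩
  have hdj := dp_mono h.le
  have hch := dp_ch j s
  rcases Nat.lt_or_ge (dp n) (dp (ch j s)) with hlt | hge
  · -- impossible
    exfalso
    have hd : dp j = dp n := by omega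
    have h1 := (ch_sub j s hm).2
    rw [hd, hx.2] at h1
    omega
  · obtain ⟨k, hk⟩ : ∃ k, dp n = dp (ch j s) + k := ⟨dp n - dp (ch j s), by omega⟩
    rw [fl_div _ k x' hx'.1, ← hk, hx'.2, ← hx.2, hk, ← fl_div _ k x hx.1]
    exact hm.2

/-- measure on `X` -/
noncomputable def muX : Measure ℝ := volume.restrict (Ico (0 : ℝ) 1)

instance : IsProbabilityMeasure muX := ⟨by
  unfold muX
  rw [Measure.restrict_apply MeasurableSet.univ, univ_inter, Real.volume_Ico]
  norm_num⟩

lemma muX_A (n : ℕ) : muX.real (A n) = (1 / 2) ^ dp n := by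
  unfold muX
  rw [measureReal_restrict_apply (measurableSet_A n), inter_eq_left.mpr (A_sub n), A_eq,
    Measure.real, Real.volume_Ico, ENNReal.toReal_ofReal]
  · have : (2 : ℝ) ^ dp n ≠ 0 := by positivity
    rw [one_div, inv_pow]
    field_simp
    ring
  · have h2 : (0 : ℝ) < 2 ^ dp n := by positivity
    have : ((n : ℝ) + 1) / 2 ^ dp n < ((n : ℝ) + 2) / 2 ^ dp n := by
      apply div_lt_div_of_pos_right _ h2; linarith
    linarith

/-! ### the infinite product -/

/-- uniform measure -/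
noncomputable def unif (N : ℕ) : Measure (Fin N) := (N : ℝ≥0∞)⁻¹ • Measure.count

instance unif_prob (N : ℕ) [NeZero N] : IsProbabilityMeasure (unif N) := ⟨by
  unfold unif
  rw [Measure.smul_apply, Measure.count_univ, smul_eq_mul]
  simp
  rw [ENNReal.inv_mul_cancel]
  · exact_mod_cast NeZero.ne N
  · exact ENNReal.natCast_ne_top N⟩

lemma unif_map (N : ℕ) (σ : Equiv.Perm (Fin N)) : (unif N).map σ = unif N := by
  unfold unif
  rw [Measure.map_smul]
  congr 1
  ext s hs
  rw [Measure.map_apply (measurable_of_finite _) hs, Measure.count_apply (MeasurableSet.of_discrete),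
    Measure.count_apply hs]
  exact Set.encard_preimage_of_bijective σ.bijective s ▸ rfl

variable (N : ℕ → ℕ) [∀ n, NeZero (N n)]

/-- the product space -/
abbrev Y : Type := ∀ n, Fin (N n)

/-- the product measure -/
noncomputable def nu : Measure (Y N) := Measure.infinitePi (fun n => unif (N n))

instance : IsProbabilityMeasure (nu N) := by unfold nu; infer_instance

open Classical in
/-- swapping two values of a coordinate -/
def swp (n : ℕ) (σ : Equiv.Perm (Fin (N n))) (y : Y N) : Y N := Function.update y n (σ (y n))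

lemma ms_coord (n : ℕ) (i : Fin (N n)) : MeasurableSet {y : Y N | y n = i} := by
  have h : Measurable (fun y : Y N => y n) := measurable_pi_apply n
  exact h (measurableSet_singleton i)

lemma swp_mp (n : ℕ) (σ : Equiv.Perm (Fin (N n))) : MeasurePreserving (swp N n σ) (nu N) (nu N) := by
  classical
  let f : ∀ k, Fin (N k) → Fin (N k) := Function.update (fun k => id) n σ
  have hf : ∀ k, Measurable (f k) := fun k => measurable_of_finite _
  have h := Measure.infinitePi_map_pi (μ := fun n => unif (N n)) (f := f) hf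
  have e1 : (fun (x : Y N) i => f i (x i)) = swp N n σ := by
    funext y k
    unfold swp
    by_cases hk : k = n
    · subst hk
      simp [f]
    · simp [f, hk]
  have e2 : (fun i => (unif (N i)).map (f i)) = fun i => unif (N i) := by
    funext k
    by_cases hk : k = n
    · subst hk
      simp only [f, Function.update_self]
      exact unif_map _ σ
    · simp only [f, Function.update_of_ne hk]
      exact Measure.map_id
  refine ⟨?_, ?_⟩
  · rw [← e1]
    exact measurable_pi_lambda _ fun k => (hf k).comp (measurable_pi_apply k)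
  · unfold nu
    rw [← e1]
    refine h.trans ?_
    congr 1

open Classical in
lemma coord_int (n : ℕ) (v : Y N → ℝ) (hv : Measurable v) (C : ℝ) (hC : ∀ y, |v y| ≤ C)
    (hup : ∀ y i, v (Function.update y n i) = v y) (i : Fin (N n)) :
    ∫ y in {y : Y N | y n = i}, v y ∂(nu N) = (1 / (N n : ℝ)) * ∫ y, v y ∂(nu N) := by
  have hms : ∀ i, MeasurableSet {y : Y N | y n = i} := fun i => ms_coord N n i
  have hint : Integrable v (nu N) := by
    refine Integrable.of_bound hv.aestronglyMeasurable C (Eventually.of_forall fun y => ?_)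
    rw [Real.norm_eq_abs]; exact hC y
  have hswap : ∀ i j : Fin (N n), ∫ y in {y : Y N | y n = i}, v y ∂(nu N) =
      ∫ y in {y : Y N | y n = j}, v y ∂(nu N) := by
    intro i j
    rw [← integral_indicator (hms i), ← integral_indicator (hms j)]
    have hmp := swp_mp N n (Equiv.swap i j)
    rw [← hmp.map_eq, integral_map hmp.measurable.aemeasurable
      ((hv.indicator (hms j)).aestronglyMeasurable), hmp.map_eq]
    refine integral_congr_ae (Eventually.of_forall fun y => ?_)
    have e1 : (swp N n (Equiv.swap i j) y) n = Equiv.swap i j (y n) := by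
      unfold swp; simp
    have e2 : v (swp N n (Equiv.swap i j) y) = v y := hup _ _
    simp only [indicator, Set.mem_ofPred_eq, e1, e2]
    by_cases h : y n = i
    · rw [if_pos h, h, Equiv.swap_apply_left, if_pos rfl]
    · rw [if_neg h, if_neg]
      intro h2
      apply h
      rw [Equiv.swap_apply_eq_iff, Equiv.swap_apply_right] at h2
      exact h2
  have hsum : ∑ j : Fin (N n), ∫ y in {y : Y N | y n = j}, v y ∂(nu N) = ∫ y, v y ∂(nu N) := by
    simp only [← integral_indicator (hms _)]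
    rw [← integral_finsetSum _ (fun j _ => hint.indicator (hms j))]
    refine integral_congr_ae (Eventually.of_forall fun y => ?_)
    simp only [indicator, Set.mem_ofPred_eq]
    rw [Finset.sum_eq_single (y n)]
    · rw [if_pos rfl]
    · intro b _ hb
      rw [if_neg (fun h => hb h.symm)]
    · intro h
      exact absurd (Finset.mem_univ _) h
  rw [Finset.sum_congr rfl fun j _ => hswap j i, Finset.sum_const, Finset.card_univ,
    Fintype.card_fin, nsmul_eq_mul] at hsum
  rw [← hsum]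
  have : (N n : ℝ) ≠ 0 := by exact_mod_cast NeZero.ne (N n)
  field_simp

/-- the product with `X` -/
noncomputable def zeta : Measure (ℝ × Y N) := muX.prod (nu N)

instance : IsProbabilityMeasure (zeta N) := by unfold zeta; infer_instance

/-- pieces -/
def Gs (n : ℕ) (q : Bool × Fin (N n)) : Set (ℝ × Y N) := A (ch n q.1) ×ˢ {y | y n = q.2}

lemma measurableSet_Gs (n : ℕ) (q : Bool × Fin (N n)) : MeasurableSet (Gs N n q) :=
  (measurableSet_A _).prod (ms_coord N n q.2)

open Classical in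
/-- functions not depending on the new block -/
def Old (n : ℕ) (U : ℝ × Y N → ℝ) : Prop :=
  Measurable U ∧ (∃ C, ∀ z, |U z| ≤ C) ∧
  (∀ x ∈ A n, ∀ x' ∈ A n, ∀ y, U (x, y) = U (x', y)) ∧
  (∀ x y i, U (x, Function.update y n i) = U (x, y))

lemma bdd_int {U : ℝ × Y N → ℝ} (h1 : Measurable U) (h2 : ∃ C, ∀ z, |U z| ≤ C) :
    Integrable U (zeta N) := by
  obtain ⟨C, hC⟩ := h2
  refine Integrable.of_bound h1.aestronglyMeasurable C (Eventually.of_forall fun y => ?_)
  rw [Real.norm_eq_abs]; exact hC y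

lemma prod_int {n : ℕ} {V : ℝ × Y N → ℝ} (hV : Old N n V) {x₀ : ℝ} (hx₀ : x₀ ∈ A n) {S : Set ℝ}
    (hS : S ⊆ A n) (hSm : MeasurableSet S) (B : Set (Y N)) :
    ∫ z in S ×ˢ B, V z ∂(zeta N) = muX.real S * ∫ y in B, V (x₀, y) ∂(nu N) := by
  unfold zeta
  rw [setIntegral_prod V (bdd_int N hV.1 hV.2.1).integrableOn]
  have e1 : ∫ x in S, ∫ y in B, V (x, y) ∂(nu N) ∂muX =
      ∫ x in S, (∫ y in B, V (x₀, y) ∂(nu N)) ∂muX := by
    apply setIntegral_congr_fun hSm
    intro x hx
    simp only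
    congr 1
    funext y
    exact hV.2.2.1 x (hS hx) x₀ hx₀ y
  rw [e1, setIntegral_const, smul_eq_mul]

lemma piece_int {n : ℕ} {V : ℝ × Y N → ℝ} (hV : Old N n V) (q : Bool × Fin (N n)) :
    ∫ z in Gs N n q, V z ∂(zeta N) =
      (1 / (2 * N n : ℝ)) * ∫ z in A n ×ˢ univ, V z ∂(zeta N) := by
  classical
  obtain ⟨x₀, hx₀⟩ := A_nonempty n
  unfold Gs
  rw [prod_int N hV hx₀ (ch_sub n q.1) (measurableSet_A _),
    prod_int N hV hx₀ Subset.rfl (measurableSet_A _), muX_A, muX_A, dp_ch]
  obtain ⟨C, hC⟩ := hV.2.1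
  rw [coord_int N n (fun y => V (x₀, y)) (hV.1.comp measurable_prodMk_left) C
    (fun y => hC _) (fun y i => hV.2.2.2 x₀ y i) q.2]
  rw [Measure.restrict_univ, pow_succ]
  have : (N n : ℝ) ≠ 0 := by exact_mod_cast NeZero.ne (N n)
  field_simp

end Pool.Agent.X203.NN
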