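import Mathlib
import Pool.Agent.X203.NNC
import Pool.Agent.X203.NNF

set_option linter.unusedSectionVars false
set_option linter.unusedSimpArgs false
set_option linter.unusedVariables false

namespace Pool.Agent.X203.NN

open Filter Finset Topology MeasureTheory Set
open scoped ENNReal

/-! ### generalities on `Lp` -/

lemma norm_pow {α : Type*} {m : MeasurableSpace α} {μ : Measure α} {P : ℝ≥0∞} (h1 : P ≠ 0)
    (h2 : P ≠ ∞) (v : Lp ℝ P μ) {f : α → ℝ} (h : v =ᵐ[μ] f) :
    ‖v‖ ^ P.toReal = ∫ x, |f x| ^ P.toReal ∂μ := by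
  have hp0 : 0 < P.toReal := ENNReal.toReal_pos h1 h2
  rw [Lp.norm_def, (Lp.memLp v).eLpNorm_eq_integral_rpow_norm h1 h2]
  have hnn : 0 ≤ ∫ a, ‖v a‖ ^ P.toReal ∂μ :=
    integral_nonneg fun a => Real.rpow_nonneg (norm_nonneg _) _
  rw [ENNReal.toReal_ofReal (Real.rpow_nonneg hnn _), ← Real.rpow_mul hnn,
    inv_mul_cancel₀ hp0.ne', Real.rpow_one]
  refine integral_congr_ae ?_
  filter_upwards [h] with x hx
  rw [hx, Real.norm_eq_abs]

lemma ae_sum {α ι : Type*} {m : MeasurableSpace α} {μ : Measure α} {P : ℝ≥0∞} (S : Finset ι)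
    (v : ι → Lp ℝ P μ) (f : ι → α → ℝ) (h : ∀ i ∈ S, v i =ᵐ[μ] f i) (c : ι → ℝ) :
    (∑ i ∈ S, c i • v i : Lp ℝ P μ) =ᵐ[μ] fun z => ∑ i ∈ S, c i * f i z := by
  classical
  induction S using Finset.induction with
  | empty =>
    simp only [Finset.sum_empty]
    exact Lp.coeFn_zero _ _ _
  | insert a S ha ih =>
    rw [Finset.sum_insert ha]
    have h1 := ih fun i hi => h i (Finset.mem_insert_of_mem hi)
    have h2 := h a (Finset.mem_insert_self a S)
    filter_upwards [Lp.coeFn_add (c a • v a) (∑ i ∈ S, c i • v i), Lp.coeFn_smul (c a) (v a),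
      h1, h2] with z z1 z2 z3 z4
    rw [z1, Pi.add_apply, z2, Pi.smul_apply, z3, z4, smul_eq_mul, Finset.sum_insert ha]

/-! ### the system on `X × Y` -/

variable (N : ℕ → ℕ) [∀ n, NeZero (N n)] (P : ℝ≥0∞) (e : ∀ n, Fin (2 * N n) ≃ Bool × Fin (N n))

open Classical in
/-- piece number `m` of block `n` -/
noncomputable def Gm (n m : ℕ) : Set (ℝ × Y N) :=
  if h : m < 2 * N n then Gs N n (e n ⟨m, h⟩) else ∅

lemma ms_Gm (n m : ℕ) : MeasurableSet (Gm N e n m) := by
  unfold Gm
  split_ifs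
  · exact measurableSet_Gs N n _
  · exact MeasurableSet.empty

/-- the normalizing constant -/
noncomputable def kap (n : ℕ) : ℝ := ((2 * N n : ℝ) * 2 ^ dp n) ^ (1 / P.toReal)

lemma Npos (n : ℕ) : (0 : ℝ) < N n := by exact_mod_cast Nat.pos_of_ne_zero (NeZero.ne (N n))

lemma kap_pos (n : ℕ) : 0 < kap N P n := by
  have := Npos N n
  unfold kap
  positivity

/-- the functions -/
noncomputable def kf (n m : ℕ) : ℝ × Y N → ℝ := (Gm N e n m).indicator (fun _ => kap N P n)

lemma kf_meas (n m : ℕ) : Measurable (kf N P e n m) :=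
  measurable_const.indicator (ms_Gm N e n m)

lemma kf_nonneg (n m : ℕ) (z) : 0 ≤ kf N P e n m z :=
  indicator_nonneg (fun _ _ => (kap_pos N P n).le) z

lemma kf_le (n m : ℕ) (z) : |kf N P e n m z| ≤ kap N P n := by
  rw [abs_of_nonneg (kf_nonneg N P e n m z)]
  unfold kf indicator
  split_ifs
  · exact le_rfl
  · exact (kap_pos N P n).le

lemma pick {n : ℕ} {z : ℝ × Y N} (hz : z.1 ∈ A n) :
    ∃ m₀ < 2 * N n, ∀ m < 2 * N n, z ∈ Gm N e n m ↔ m = m₀ := by
  obtain ⟨s, hs⟩ := ch_unique hz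
  refine ⟨(e n).symm (s, z.2 n), ((e n).symm (s, z.2 n)).2, fun m hm => ?_⟩
  unfold Gm
  rw [dif_pos hm]
  unfold Gs
  rw [Set.mem_prod, hs, Set.mem_ofPred_eq]
  constructor
  · rintro ⟨h1, h2⟩
    have h3 : e n ⟨m, hm⟩ = (s, z.2 n) := Prod.ext h1 h2.symm
    rw [← h3, Equiv.symm_apply_apply]
  · intro h
    have h3 : (⟨m, hm⟩ : Fin (2 * N n)) = (e n).symm (s, z.2 n) := Fin.ext h
    rw [h3, Equiv.apply_symm_apply]
    exact ⟨rfl, rfl⟩

lemma outside {n m : ℕ} {z : ℝ × Y N} (hz : z.1 ∉ A n) : z ∉ Gm N e n m := by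
  unfold Gm
  split_ifs
  · intro h
    exact hz (ch_sub n _ h.1)
  · exact Set.notMem_empty z

lemma piece_int' {n m : ℕ} (hm : m < 2 * N n) {V : ℝ × Y N → ℝ} (hV : Old N n V) :
    ∫ z in Gm N e n m, V z ∂(zeta N) =
      (1 / (2 * N n : ℝ)) * ∫ z in A n ×ˢ univ, V z ∂(zeta N) := by
  unfold Gm
  rw [dif_pos hm]
  exact piece_int N hV _

lemma Old_pow {n : ℕ} {U : ℝ × Y N → ℝ} (hU : Old N n U) {p : ℝ} (hp : 0 ≤ p) (c : ℝ) :
    Old N n (fun z => |U z + c| ^ p) := by
  obtain ⟨h1, ⟨C, hC⟩, h3, h4⟩ := hU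
  refine ⟨?_, ⟨(C + |c|) ^ p, ?_⟩, ?_, ?_⟩
  · exact ((h1.add_const c).abs).pow_const p
  · intro z
    rw [abs_of_nonneg (Real.rpow_nonneg (abs_nonneg _) _)]
    apply Real.rpow_le_rpow (abs_nonneg _) _ hp
    exact (abs_add_le _ _).trans (add_le_add (hC z) le_rfl)
  · intro x hx x' hx' y
    simp only [h3 x hx x' hx' y]
  · intro x y i
    simp only [h4 x y i]

open Classical in
lemma blk_point (p : ℝ) (n : ℕ) (U : ℝ × Y N → ℝ) (b : ℕ → ℝ) (z : ℝ × Y N) :
    |U z + ∑ m ∈ range (2 * N n), b m * kf N P e n m z| ^ p =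
      ((A n ×ˢ (univ : Set (Y N)))ᶜ).indicator (fun z => |U z + 0| ^ p) z +
      ∑ m ∈ range (2 * N n),
        (Gm N e n m).indicator (fun z => |U z + kap N P n * b m| ^ p) z := by
  by_cases hz : z.1 ∈ A n
  · obtain ⟨m₀, hm₀, hpick⟩ := pick N e hz
    have h1 : z ∉ (A n ×ˢ (univ : Set (Y N)))ᶜ := by
      intro h; exact h ⟨hz, Set.mem_univ _⟩
    rw [Set.indicator_of_notMem h1, zero_add, Finset.sum_eq_single m₀, Finset.sum_eq_single m₀]
    · have h2 : z ∈ Gm N e n m₀ := (hpick m₀ hm₀).mpr rfl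
      rw [Set.indicator_of_mem h2]
      unfold kf
      rw [Set.indicator_of_mem h2, mul_comm]
    · intro m hm hne
      rw [Set.indicator_of_notMem]
      exact fun h => hne ((hpick m (Finset.mem_range.mp hm)).mp h)
    · intro h; exact absurd (Finset.mem_range.mpr hm₀) h
    · intro m hm hne
      unfold kf
      rw [Set.indicator_of_notMem, mul_zero]
      exact fun h => hne ((hpick m (Finset.mem_range.mp hm)).mp h)
    · intro h; exact absurd (Finset.mem_range.mpr hm₀) h
  · have h1 : z ∈ (A n ×ˢ (univ : Set (Y N)))ᶜ := fun h => hz h.1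
    have e1 : ∑ m ∈ range (2 * N n), b m * kf N P e n m z = 0 := Finset.sum_eq_zero fun m _ => by
      unfold kf
      rw [Set.indicator_of_notMem (outside N e hz), mul_zero]
    have e2 : ∑ m ∈ range (2 * N n),
        (Gm N e n m).indicator (fun z => |U z + kap N P n * b m| ^ p) z = 0 :=
      Finset.sum_eq_zero fun m _ => by
        rw [Set.indicator_of_notMem (outside N e hz)]
    rw [Set.indicator_of_mem h1, e1, e2, add_zero, add_zero]

lemma blk_int {p : ℝ} (hp : 0 ≤ p) {n : ℕ} {U : ℝ × Y N → ℝ} (hU : Old N n U) (b : ℕ → ℝ) :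
    ∫ z, |U z + ∑ m ∈ range (2 * N n), b m * kf N P e n m z| ^ p ∂(zeta N) =
      ∫ z in (A n ×ˢ (univ : Set (Y N)))ᶜ, |U z + 0| ^ p ∂(zeta N) +
      ∑ m ∈ range (2 * N n), (1 / (2 * N n : ℝ)) *
        ∫ z in A n ×ˢ univ, |U z + kap N P n * b m| ^ p ∂(zeta N) := by
  classical
  have hmc : MeasurableSet ((A n ×ˢ (univ : Set (Y N)))ᶜ) :=
    ((measurableSet_A n).prod MeasurableSet.univ).compl
  have hint : ∀ c : ℝ, Integrable (fun z => |U z + c| ^ p) (zeta N) := fun c =>
    bdd_int N (Old_pow N hU hp c).1 (Old_pow N hU hp c).2.1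
  rw [integral_congr_ae (Eventually.of_forall (blk_point N P e p n U b)),
    integral_add ((hint 0).indicator hmc)
      (integrable_finsetSum _ fun m _ => (hint _).indicator (ms_Gm N e n m)),
    integral_indicator hmc, integral_finsetSum _ fun m _ => (hint _).indicator (ms_Gm N e n m)]
  congr 1
  refine Finset.sum_congr rfl fun m hm => ?_
  rw [integral_indicator (ms_Gm N e n m), piece_int' N e (Finset.mem_range.mp hm)
    (Old_pow N hU hp _)]

lemma conv_pt {p : ℝ} (hp : 1 ≤ p) (s t a b : ℝ) (ha : 0 ≤ a) (hb : 0 ≤ b) (hab : a + b = 1) :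
    |a * s + b * t| ^ p ≤ a * |s| ^ p + b * |t| ^ p := by
  have h1 : |a * s + b * t| ≤ a * |s| + b * |t| := by
    refine (abs_add_le _ _).trans ?_
    rw [abs_mul, abs_mul, abs_of_nonneg ha, abs_of_nonneg hb]
  have h2 := (convexOn_rpow hp).2 (Set.mem_Ici.mpr (abs_nonneg s)) (Set.mem_Ici.mpr (abs_nonneg t))
    ha hb hab
  simp only [smul_eq_mul] at h2
  exact (Real.rpow_le_rpow (abs_nonneg _) h1 (by linarith)).trans h2

variable {P} [hP1 : Fact (1 ≤ P)]

lemma preal (hP : P ≠ ∞) : 1 ≤ P.toReal := by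
  have := ENNReal.toReal_mono hP hP1.out
  simpa using this

lemma memLp_bdd {U : ℝ × Y N → ℝ} (h1 : Measurable U) {C : ℝ} (h2 : ∀ z, |U z| ≤ C) :
    MemLp U P (zeta N) :=
  MemLp.of_bound h1.aestronglyMeasurable C (Eventually.of_forall fun z => by
    rw [Real.norm_eq_abs]; exact h2 z)

variable (P) in
/-- the elements of `Lp` -/
noncomputable def kL (n m : ℕ) : Lp ℝ P (zeta N) :=
  (memLp_bdd N (kf_meas N P e n m) (kf_le N P e n m)).toLp

variable (P) in
/-- the constant function -/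
noncomputable def k0L : Lp ℝ P (zeta N) :=
  (memLp_bdd N (U := fun _ => (1 : ℝ)) measurable_const (C := 1) (fun _ => by simp)).toLp

lemma kL_ae (n m : ℕ) : kL N P e n m =ᵐ[zeta N] kf N P e n m := MemLp.coeFn_toLp _

lemma k0L_ae : k0L N P =ᵐ[zeta N] fun _ => (1 : ℝ) := MemLp.coeFn_toLp _

lemma blockAt (hP : P ≠ ∞) {n : ℕ} {u : Lp ℝ P (zeta N)} {U : ℝ × Y N → ℝ} (hU : Old N n U)
    (hu : u =ᵐ[zeta N] U) : BlockAt P.toReal (2 * N n) (kL N P e n) u := by
  have hp := preal (P := P) hP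
  have hp0 : (0 : ℝ) ≤ P.toReal := by linarith
  have hint : ∀ c : ℝ, Integrable (fun z => |U z + c| ^ P.toReal) (zeta N) := fun c =>
    bdd_int N (Old_pow N hU hp0 c).1 (Old_pow N hU hp0 c).2.1
  have hN := Npos N n
  refine ⟨∫ z in (A n ×ˢ (univ : Set (Y N)))ᶜ, |U z + 0| ^ P.toReal ∂(zeta N),
    fun c => (1 / (2 * N n : ℝ)) *
        ∫ z in A n ×ˢ univ, |U z + kap N P n * c| ^ P.toReal ∂(zeta N), ?_, ?_, ?_, ?_⟩
  · exact integral_nonneg fun z => Real.rpow_nonneg (abs_nonneg _) _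
  · intro c
    exact mul_nonneg (by positivity) (integral_nonneg fun z => Real.rpow_nonneg (abs_nonneg _) _)
  · refine ⟨convex_univ, ?_⟩
    intro x _ y _ a b ha hb hab
    simp only [smul_eq_mul]
    have h1 : ∫ z in A n ×ˢ univ, |U z + kap N P n * (a * x + b * y)| ^ P.toReal ∂(zeta N) ≤
        a * ∫ z in A n ×ˢ univ, |U z + kap N P n * x| ^ P.toReal ∂(zeta N) +
        b * ∫ z in A n ×ˢ univ, |U z + kap N P n * y| ^ P.toReal ∂(zeta N) := by
      rw [← integral_const_mul, ← integral_const_mul,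
        ← integral_add ((hint _).integrableOn.const_mul a) ((hint _).integrableOn.const_mul b)]
      apply integral_mono (hint _).integrableOn
        (((hint _).integrableOn.const_mul a).add ((hint _).integrableOn.const_mul b))
      intro z
      have h2 := conv_pt hp (U z + kap N P n * x) (U z + kap N P n * y) a b ha hb hab
      have h3 : a * (U z + kap N P n * x) + b * (U z + kap N P n * y) =
          U z + kap N P n * (a * x + b * y) := by
        have : U z = (a + b) * U z := by rw [hab, one_mul]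
        linear_combination -this
      rw [h3] at h2
      exact h2
    have h4 := mul_le_mul_of_nonneg_left h1 (by positivity : 0 ≤ 1 / (2 * N n : ℝ))
    refine h4.trans (le_of_eq (by ring))
  · intro b
    have hae : (u + ∑ m ∈ range (2 * N n), b m • kL N P e n m : Lp ℝ P (zeta N)) =ᵐ[zeta N]
        fun z => U z + ∑ m ∈ range (2 * N n), b m * kf N P e n m z := by
      filter_upwards [Lp.coeFn_add u (∑ m ∈ range (2 * N n), b m • kL N P e n m), hu,
        ae_sum (range (2 * N n)) (kL N P e n) (kf N P e n) (fun i _ => kL_ae N e n i) b]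
        with z z1 z2 z3
      rw [z1, Pi.add_apply, z2, z3]
    rw [norm_pow (zero_lt_one.trans_le hP1.out).ne' hP _ hae, blk_int N P e hp0 hU b]

/-! ### old functions -/

open Classical in
lemma Old_kf {j n : ℕ} (h : j < n) (m : ℕ) : Old N n (kf N P e j m) := by
  refine ⟨kf_meas N P e j m, ⟨_, kf_le N P e j m⟩, ?_, ?_⟩
  · intro x hx x' hx' y
    have key : ((x, y) : ℝ × Y N) ∈ Gm N e j m ↔ ((x', y) : ℝ × Y N) ∈ Gm N e j m := by
      unfold Gm
      split_ifs with hm
      · unfold Gs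
        rw [Set.mem_prod, Set.mem_prod]
        exact ⟨fun h1 => ⟨const_ch h _ hx hx' h1.1, h1.2⟩, fun h1 => ⟨const_ch h _ hx' hx h1.1, h1.2⟩⟩
      · simp
    unfold kf indicator
    by_cases h1 : ((x, y) : ℝ × Y N) ∈ Gm N e j m
    · rw [if_pos h1, if_pos (key.mp h1)]
    · rw [if_neg h1, if_neg (fun h2 => h1 (key.mpr h2))]
  · intro x y i
    have key : ((x, Function.update y n i) : ℝ × Y N) ∈ Gm N e j m ↔
        ((x, y) : ℝ × Y N) ∈ Gm N e j m := by
      unfold Gm
      split_ifs with hm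
      · unfold Gs
        rw [Set.mem_prod, Set.mem_prod]
        simp only [Set.mem_ofPred_eq]
        rw [Function.update_of_ne (by omega : j ≠ n)]
      · simp
    unfold kf indicator
    by_cases h1 : ((x, y) : ℝ × Y N) ∈ Gm N e j m
    · rw [if_pos h1, if_pos (key.mpr h1)]
    · rw [if_neg h1, if_neg (fun h2 => h1 (key.mp h2))]

lemma Old_const (n : ℕ) (c : ℝ) : Old N n (fun _ => c) :=
  ⟨measurable_const, ⟨|c|, fun _ => le_rfl⟩, fun _ _ _ _ _ => rfl, fun _ _ _ => rfl⟩

lemma Old_add {n : ℕ} {U U' : ℝ × Y N → ℝ} (h : Old N n U) (h' : Old N n U') :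
    Old N n (fun z => U z + U' z) := by
  obtain ⟨h1, ⟨C, hC⟩, h3, h4⟩ := h
  obtain ⟨h1', ⟨C', hC'⟩, h3', h4'⟩ := h'
  refine ⟨h1.add h1', ⟨C + C', fun z => (abs_add_le _ _).trans (add_le_add (hC z) (hC' z))⟩, ?_, ?_⟩
  · intro x hx x' hx' y
    simp only [h3 x hx x' hx' y, h3' x hx x' hx' y]
  · intro x y i
    simp only [h4 x y i, h4' x y i]

lemma Old_smul {n : ℕ} {U : ℝ × Y N → ℝ} (h : Old N n U) (c : ℝ) :
    Old N n (fun z => c * U z) := by
  obtain ⟨h1, ⟨C, hC⟩, h3, h4⟩ := h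
  refine ⟨h1.const_mul c, ⟨|c| * C, fun z => ?_⟩, ?_, ?_⟩
  · rw [abs_mul]
    exact mul_le_mul_of_nonneg_left (hC z) (abs_nonneg _)
  · intro x hx x' hx' y
    simp only [h3 x hx x' hx' y]
  · intro x y i
    simp only [h4 x y i]

lemma Old_sum {ι : Type*} {n : ℕ} (S : Finset ι) (U : ι → ℝ × Y N → ℝ)
    (h : ∀ i ∈ S, Old N n (U i)) : Old N n (fun z => ∑ i ∈ S, U i z) := by
  classical
  induction S using Finset.induction with
  | empty =>
    simp only [Finset.sum_empty]
    exact Old_const N n 0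
  | insert a S ha ih =>
    simp only [Finset.sum_insert ha]
    exact Old_add N (h a (Finset.mem_insert_self a S))
      (ih fun i hi => h i (Finset.mem_insert_of_mem hi))

/-- function representing old combinations -/
noncomputable def uf (P : ℝ≥0∞) (c : ℝ) (b : ℕ → ℕ → ℝ) (n : ℕ) (z : ℝ × Y N) : ℝ :=
  c + ∑ j ∈ range n, ∑ m ∈ range (2 * N j), b j m * kf N P e j m z

lemma Old_uf (c : ℝ) (b : ℕ → ℕ → ℝ) (n : ℕ) : Old N n (uf N e P c b n) :=
  Old_add N (Old_const N n c) (Old_sum N _ _ fun j hj => Old_sum N _ _ fun m _ =>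
    Old_smul N (Old_kf N e (Finset.mem_range.mp hj) m) _)

lemma uf_ae (c : ℝ) (b : ℕ → ℕ → ℝ) (n : ℕ) :
    (c • k0L N P + ∑ j ∈ range n, ∑ m ∈ range (2 * N j), b j m • kL N P e j m :
      Lp ℝ P (zeta N)) =ᵐ[zeta N] uf N e P c b n := by
  have h1 : ∀ j, (∑ m ∈ range (2 * N j), b j m • kL N P e j m : Lp ℝ P (zeta N)) =ᵐ[zeta N]
      fun z => ∑ m ∈ range (2 * N j), b j m * kf N P e j m z := fun j =>
    ae_sum _ (kL N P e j) (kf N P e j) (fun i _ => kL_ae N e j i) (b j)
  have h2 := ae_sum (range n) (fun j => (∑ m ∈ range (2 * N j), b j m • kL N P e j m :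
    Lp ℝ P (zeta N))) (fun j z => ∑ m ∈ range (2 * N j), b j m * kf N P e j m z)
    (fun j _ => h1 j) (fun _ => 1)
  simp only [one_smul, one_mul] at h2
  filter_upwards [Lp.coeFn_add (c • k0L N P)
    (∑ j ∈ range n, ∑ m ∈ range (2 * N j), b j m • kL N P e j m), h2,
    Lp.coeFn_smul c (k0L N P), k0L_ae N (P := P)] with z z1 z2 z3 z4
  rw [z1, Pi.add_apply, z2, z3, Pi.smul_apply, z4, smul_eq_mul, mul_one]
  rfl

theorem block_all (hP : P ≠ ∞) (n : ℕ) (c : ℝ) (b : ℕ → ℕ → ℝ) :
    BlockAt P.toReal (2 * N n) (kL N P e n)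
      (c • k0L N P + ∑ j ∈ range n, ∑ m ∈ range (2 * N j), b j m • kL N P e j m) :=
  blockAt N e hP (Old_uf N e c b n) (uf_ae N e c b n)

theorem kn_all (hP : P ≠ ∞) (n : ℕ) (b : ℕ → ℝ) :
    ‖∑ m ∈ range (2 * N n), b m • kL N P e n m‖ ^ P.toReal =
      ∑ m ∈ range (2 * N n), |b m| ^ P.toReal := by
  have hp := preal (P := P) hP
  have hp0 : (0 : ℝ) < P.toReal := by linarith
  have hae := ae_sum (range (2 * N n)) (kL N P e n) (kf N P e n) (fun i _ => kL_ae N e n i) b
  have h := blk_int N P e hp0.le (Old_const N n 0) b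
  simp only [zero_add, add_zero, abs_zero, Real.zero_rpow hp0.ne'] at h
  rw [norm_pow (zero_lt_one.trans_le hP1.out).ne' hP _ hae, h]
  simp only [integral_zero, zero_add]
  refine Finset.sum_congr rfl fun m _ => ?_
  have hN := Npos N n
  rw [setIntegral_const, smul_eq_mul, abs_mul, abs_of_pos (kap_pos N P n),
    Real.mul_rpow (kap_pos N P n).le (abs_nonneg _)]
  have e1 : kap N P n ^ P.toReal = (2 * N n : ℝ) * 2 ^ dp n := by
    unfold kap
    rw [← Real.rpow_mul (by positivity), one_div_mul_cancel hp0.ne', Real.rpow_one]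
  have e2 : (zeta N).real (A n ×ˢ (univ : Set (Y N))) = (1 / 2) ^ dp n := by
    unfold zeta
    rw [measureReal_prod_prod, muX_A]
    simp
  rw [e1, e2]
  have : (2 : ℝ) ^ dp n ≠ 0 := by positivity
  rw [one_div_pow]
  field_simp

/-! ### Haar functions -/

/-- Haar function on the line -/
noncomputable def hf (n : ℕ) (x : ℝ) : ℝ :=
  (A (2 * n + 1)).indicator (fun _ => (1 : ℝ)) x - (A (2 * n + 2)).indicator (fun _ => (1 : ℝ)) x

lemma hf_meas (n : ℕ) : Measurable (hf n) :=
  (measurable_const.indicator (measurableSet_A _)).sub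
    (measurable_const.indicator (measurableSet_A _))

lemma hf_le (n : ℕ) (x : ℝ) : |hf n x| ≤ 1 := by
  unfold hf indicator
  split_ifs <;> norm_num

variable (P) in
/-- Haar functions in `Lp` -/
noncomputable def hL (n : ℕ) : Lp ℝ P muX :=
  (MemLp.of_bound (hf_meas n).aestronglyMeasurable 1 (Eventually.of_forall fun z => by
    rw [Real.norm_eq_abs]; exact hf_le n z) : MemLp (hf n) P muX).toLp

variable (P) in
/-- constant function in `Lp` -/
noncomputable def oneL : Lp ℝ P muX :=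
  (MemLp.of_bound measurable_const.aestronglyMeasurable 1 (Eventually.of_forall fun z => by
    simp) : MemLp (fun _ => (1 : ℝ)) P muX).toLp

open Classical in
/-- signs, extended by one -/
noncomputable def sg (n m : ℕ) : ℝ := if m < 2 * N n then sgn (e n) m else 1

lemma sg_abs (n m : ℕ) : |sg N e n m| = 1 := by
  unfold sg
  split_ifs with h
  · unfold sgn
    rw [dif_pos h]
    split_ifs <;> norm_num
  · norm_num

lemma haar_pt (n : ℕ) (z : ℝ × Y N) : hf n z.1 =
    (kap N P n)⁻¹ * ∑ m ∈ range (2 * N n), sg N e n m * kf N P e n m z := by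
  classical
  have hk := (kap_pos N P n).ne'
  by_cases hz : z.1 ∈ A n
  · obtain ⟨s, hs⟩ := ch_unique hz
    have hmem : ∀ m (hm : m < 2 * N n), z ∈ Gm N e n m ↔ e n ⟨m, hm⟩ = (s, z.2 n) := by
      intro m hm
      unfold Gm
      rw [dif_pos hm]
      unfold Gs
      rw [Set.mem_prod, hs, Set.mem_ofPred_eq]
      constructor
      · rintro ⟨h1, h2⟩
        exact Prod.ext h1 h2.symm
      · intro h3
        rw [h3]
        exact ⟨rfl, rfl⟩
    set m₀ := (e n).symm (s, z.2 n) with hm₀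
    have hem : e n m₀ = (s, z.2 n) := by rw [hm₀, Equiv.apply_symm_apply]
    rw [Finset.sum_eq_single (m₀ : ℕ)]
    · have h2 : z ∈ Gm N e n m₀ := (hmem m₀ m₀.2).mpr hem
      unfold kf
      rw [Set.indicator_of_mem h2]
      unfold sg sgn
      rw [if_pos m₀.2, dif_pos m₀.2]
      have h3 : e n ⟨(m₀ : ℕ), m₀.2⟩ = (s, z.2 n) := hem
      rw [h3]
      unfold hf
      have h4 := hs true
      have h5 := hs false
      unfold ch at h4 h5
      simp only [if_true, Bool.false_eq_true, if_false] at h4 h5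
      cases s
      · have h6 : z.1 ∉ A (2 * n + 1) := fun h => by simpa using h4.mp h
        rw [Set.indicator_of_notMem h6, Set.indicator_of_mem (h5.mpr rfl)]
        simp only [Bool.false_eq_true, if_false]
        field_simp
        norm_num
      · have h6 : z.1 ∉ A (2 * n + 2) := fun h => by simpa using h5.mp h
        rw [Set.indicator_of_notMem h6, Set.indicator_of_mem (h4.mpr rfl)]
        simp only [if_true]
        field_simp
        norm_num
    · intro m hm hne
      unfold kf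
      rw [Set.indicator_of_notMem, mul_zero]
      intro h
      have h1 := (hmem m (Finset.mem_range.mp hm)).mp h
      apply hne
      rw [hm₀, ← h1, Equiv.symm_apply_apply]
    · intro h; exact absurd (Finset.mem_range.mpr m₀.2) h
  · have e1 : ∑ m ∈ range (2 * N n), sg N e n m * kf N P e n m z = 0 :=
      Finset.sum_eq_zero fun m _ => by
        unfold kf
        rw [Set.indicator_of_notMem (outside N e hz), mul_zero]
    rw [e1, mul_zero]
    unfold hf
    have h1 : z.1 ∉ A (2 * n + 1) := fun h => hz (by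
      have := ch_sub n true
      unfold ch at this
      exact this h)
    have h2 : z.1 ∉ A (2 * n + 2) := fun h => hz (by
      have := ch_sub n false
      unfold ch at this
      exact this h)
    rw [Set.indicator_of_notMem h1, Set.indicator_of_notMem h2, sub_zero]

/-- the projection to `X` is measure preserving -/
lemma fst_mp : MeasurePreserving (Prod.fst : ℝ × Y N → ℝ) (zeta N) muX := by
  unfold zeta
  exact measurePreserving_fst

variable (P) in
/-- `Lp(X)` inside `Lp(X × Y)` -/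
noncomputable def iota : Lp ℝ P muX →ₗᵢ[ℝ] Lp ℝ P (zeta N) :=
  Lp.compMeasurePreservingₗᵢ ℝ Prod.fst (fst_mp N)

lemma iota_one : iota N P (oneL P) = k0L N P := by
  rfl

lemma iota_h (n : ℕ) : iota N P (hL P n) =
    (kap N P n)⁻¹ • ∑ m ∈ range (2 * N n), sg N e n m • kL N P e n m := by
  apply Lp.ext
  have h1 : iota N P (hL P n) =ᵐ[zeta N] fun z => hf n z.1 := by
    have h2 := Lp.coeFn_compMeasurePreserving (hL P n) (fst_mp N)
    have h3 : hL P n =ᵐ[muX] hf n := MemLp.coeFn_toLp _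
    have h4 := (fst_mp N).quasiMeasurePreserving.ae_eq_comp h3
    exact h2.trans h4
  filter_upwards [h1, Lp.coeFn_smul (kap N P n)⁻¹ (∑ m ∈ range (2 * N n),
    sg N e n m • kL N P e n m), ae_sum (range (2 * N n)) (kL N P e n) (kf N P e n)
    (fun i _ => kL_ae N e n i) (sg N e n)] with z z1 z2 z3
  rw [z1, z2, Pi.smul_apply, z3, smul_eq_mul]
  exact haar_pt N e n z

end Pool.Agent.X203.NN
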