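import Mathlib
import Pool.Agent.X203.NNG

set_option linter.unusedSectionVars false
set_option linter.unusedSimpArgs false
set_option linter.unusedVariables false

namespace Pool.Agent.X203.NN

open Filter Finset Topology MeasureTheory Set
open scoped ENNReal

/-- the unit interval from `muX` -/
lemma proj_mp : MeasurePreserving (Set.projIcc (0 : ℝ) 1 zero_le_one) muX
    (volume : Measure unitInterval) := by
  have h0 : muX = volume.restrict (Icc (0 : ℝ) 1) := by
    unfold muX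
    exact Measure.restrict_congr_set Ico_ae_eq_Icc
  have hmeas : Measurable (Set.projIcc (0 : ℝ) 1 zero_le_one) := continuous_projIcc.measurable
  refine ⟨hmeas, ?_⟩
  have h1 : (volume : Measure unitInterval).map ((↑) : unitInterval → ℝ) =
      volume.restrict (Icc (0 : ℝ) 1) := unitInterval.measurePreserving_coe.map_eq
  rw [h0, ← h1, Measure.map_map hmeas measurable_subtype_coe]
  have h2 : (Set.projIcc (0 : ℝ) 1 zero_le_one) ∘ ((↑) : unitInterval → ℝ) = id := by
    funext x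
    exact Set.projIcc_val zero_le_one x
  rw [h2, Measure.map_id]

/-- every standard Borel probability space is an image of `muX` -/
lemma exists_mp {Z : Type*} [MeasurableSpace Z] [StandardBorelSpace Z] [Nonempty Z]
    (μ : Measure Z) [IsProbabilityMeasure μ] : ∃ f : ℝ → Z, MeasurePreserving f muX μ := by
  obtain ⟨f, hf, hm⟩ := Measure.exists_measurable_map_eq μ
  exact ⟨f ∘ Set.projIcc (0 : ℝ) 1 zero_le_one,
    (⟨hf, hm⟩ : MeasurePreserving f volume μ).comp proj_mp⟩

variable {P : ℝ≥0∞} [hP1 : Fact (1 ≤ P)]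

/-- extension by zero -/
lemma ext_memLp (v : Lp ℝ P muX) : MemLp ((Ico (0 : ℝ) 1).indicator v) P volume :=
  (memLp_indicator_iff_restrict measurableSet_Ico).mpr (Lp.memLp v)

lemma ext_norm (v : Lp ℝ P muX) : ‖(ext_memLp v).toLp‖ = ‖v‖ := by
  rw [Lp.norm_toLp, eLpNorm_indicator_eq_eLpNorm_restrict measurableSet_Ico, Lp.norm_def]
  rfl

variable (P) in
/-- extension by zero as an isometry -/
noncomputable def extL : Lp ℝ P muX →ₗᵢ[ℝ] Lp ℝ P (volume : Measure ℝ) where
  toFun v := (ext_memLp v).toLp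
  map_add' v w := by
    have h1 : ∀ᵐ x ∂(volume : Measure ℝ), x ∈ Ico (0 : ℝ) 1 → (v + w : Lp ℝ P muX) x = v x + w x := by
      rw [← ae_restrict_iff' measurableSet_Ico]
      exact Lp.coeFn_add v w
    apply Lp.ext
    filter_upwards [h1, (ext_memLp (v + w)).coeFn_toLp, (ext_memLp v).coeFn_toLp,
      (ext_memLp w).coeFn_toLp, Lp.coeFn_add (ext_memLp v).toLp (ext_memLp w).toLp]
      with x h2 h3 h4 h5 h6
    rw [h3, h6, Pi.add_apply, h4, h5]
    by_cases hx : x ∈ Ico (0 : ℝ) 1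
    · rw [Set.indicator_of_mem hx, Set.indicator_of_mem hx, Set.indicator_of_mem hx, h2 hx]
    · rw [Set.indicator_of_notMem hx, Set.indicator_of_notMem hx, Set.indicator_of_notMem hx,
        add_zero]
  map_smul' c v := by
    have h1 : ∀ᵐ x ∂(volume : Measure ℝ), x ∈ Ico (0 : ℝ) 1 → (c • v : Lp ℝ P muX) x = c * v x := by
      rw [← ae_restrict_iff' measurableSet_Ico]
      exact Lp.coeFn_smul c v
    apply Lp.ext
    filter_upwards [h1, (ext_memLp (c • v)).coeFn_toLp, (ext_memLp v).coeFn_toLp,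
      Lp.coeFn_smul c (ext_memLp v).toLp]
      with x h2 h3 h4 h6
    rw [h3, RingHom.id_apply, h6, Pi.smul_apply, h4]
    by_cases hx : x ∈ Ico (0 : ℝ) 1
    · rw [Set.indicator_of_mem hx, Set.indicator_of_mem hx, h2 hx, smul_eq_mul]
    · rw [Set.indicator_of_notMem hx, Set.indicator_of_notMem hx, smul_zero]
  norm_map' v := ext_norm v

lemma extL_ae (v : Lp ℝ P muX) : extL P v =ᵐ[volume] (Ico (0 : ℝ) 1).indicator v :=
  (ext_memLp v).coeFn_toLp

/-- the intervals for the discrete part -/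
def Iq (q : Σ _ : ℕ, ℕ) : Set ℝ := Ico ((Nat.pair q.1 q.2 : ℝ) + 1) ((Nat.pair q.1 q.2 : ℝ) + 2)

lemma ms_Iq (q : Σ _ : ℕ, ℕ) : MeasurableSet (Iq q) := measurableSet_Ico

lemma vol_Iq (q : Σ _ : ℕ, ℕ) : volume (Iq q) = 1 := by
  unfold Iq
  rw [Real.volume_Ico]
  norm_num

lemma Iq_uniq {x : ℝ} {q q' : Σ _ : ℕ, ℕ} (h : x ∈ Iq q) (h' : x ∈ Iq q') : q = q' := by
  have key : ∀ q : (Σ _ : ℕ, ℕ), x ∈ Iq q → ⌊x⌋₊ = Nat.pair q.1 q.2 + 1 := by
    intro q h
    have h0 : 0 ≤ x := by
      have := h.1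
      have h3 : (0 : ℝ) ≤ (Nat.pair q.1 q.2 : ℝ) := Nat.cast_nonneg _
      linarith
    rw [Nat.floor_eq_iff h0]
    push_cast
    exact ⟨h.1, by linarith [h.2]⟩
  have h1 := key q h
  have h2 := key q' h'
  rw [h1] at h2
  have h3 : Nat.pair q.1 q.2 = Nat.pair q'.1 q'.2 := by omega
  rw [Nat.pair_eq_pair] at h3
  obtain ⟨a, b⟩ := q
  obtain ⟨a', b'⟩ := q'
  simp only at h3
  rw [h3.1, h3.2]

lemma Iq_disj {x : ℝ} {q : Σ _ : ℕ, ℕ} (h : x ∈ Ico (0 : ℝ) 1) : x ∉ Iq q := by
  intro h'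
  have := h'.1
  have h3 : (0 : ℝ) ≤ (Nat.pair q.1 q.2 : ℝ) := Nat.cast_nonneg _
  linarith [h.2]

variable (P) in
/-- unit vectors of the discrete part -/
noncomputable def eL (q : Σ _ : ℕ, ℕ) : Lp ℝ P (volume : Measure ℝ) :=
  indicatorConstLp P (ms_Iq q) (by rw [vol_Iq]; exact ENNReal.one_ne_top) (1 : ℝ)

lemma eL_ae (q : Σ _ : ℕ, ℕ) : eL P q =ᵐ[volume] (Iq q).indicator (fun _ => (1 : ℝ)) :=
  indicatorConstLp_coeFn

theorem nf_ext (hP : P ≠ ∞) (v : Lp ℝ P muX) (S : Finset (Σ _ : ℕ, ℕ))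
    (c : (Σ _ : ℕ, ℕ) → ℝ) : ‖extL P v + ∑ q ∈ S, c q • eL P q‖ ^ P.toReal =
      ‖v‖ ^ P.toReal + ∑ q ∈ S, |c q| ^ P.toReal := by
  classical
  have hP0 : P ≠ 0 := (zero_lt_one.trans_le hP1.out).ne'
  have hp0 : 0 < P.toReal := ENNReal.toReal_pos hP0 hP
  have hae : (extL P v + ∑ q ∈ S, c q • eL P q : Lp ℝ P (volume : Measure ℝ)) =ᵐ[volume]
      fun x => (Ico (0 : ℝ) 1).indicator v x +
        ∑ q ∈ S, c q * (Iq q).indicator (fun _ => (1 : ℝ)) x := by
    filter_upwards [Lp.coeFn_add (extL P v) (∑ q ∈ S, c q • eL P q), extL_ae v,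
      ae_sum S (eL P) (fun q => (Iq q).indicator (fun _ => (1 : ℝ))) (fun q _ => eL_ae q) c]
      with x h1 h2 h3
    rw [h1, Pi.add_apply, h2, h3]
  rw [norm_pow hP0 hP _ hae]
  have hpt : ∀ x : ℝ, |(Ico (0 : ℝ) 1).indicator v x +
      ∑ q ∈ S, c q * (Iq q).indicator (fun _ => (1 : ℝ)) x| ^ P.toReal =
      (Ico (0 : ℝ) 1).indicator (fun x => |v x| ^ P.toReal) x +
      ∑ q ∈ S, (Iq q).indicator (fun _ => |c q| ^ P.toReal) x := by
    intro x
    by_cases hx : x ∈ Ico (0 : ℝ) 1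
    · have e1 : ∑ q ∈ S, c q * (Iq q).indicator (fun _ => (1 : ℝ)) x = 0 :=
        Finset.sum_eq_zero fun q _ => by
          rw [Set.indicator_of_notMem (Iq_disj hx), mul_zero]
      have e2 : ∑ q ∈ S, (Iq q).indicator (fun _ => |c q| ^ P.toReal) x = 0 :=
        Finset.sum_eq_zero fun q _ => by
          rw [Set.indicator_of_notMem (Iq_disj hx)]
      rw [e1, e2, Set.indicator_of_mem hx, Set.indicator_of_mem hx, add_zero, add_zero]
    · rw [Set.indicator_of_notMem hx, Set.indicator_of_notMem hx, zero_add, zero_add]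
      by_cases hq : ∃ q ∈ S, x ∈ Iq q
      · obtain ⟨q, hqS, hxq⟩ := hq
        rw [Finset.sum_eq_single q, Finset.sum_eq_single q]
        · rw [Set.indicator_of_mem hxq, Set.indicator_of_mem hxq, mul_one]
        · intro q' _ hne
          rw [Set.indicator_of_notMem fun h => hne (Iq_uniq h hxq)]
        · intro h; exact absurd hqS h
        · intro q' _ hne
          rw [Set.indicator_of_notMem fun h => hne (Iq_uniq h hxq), mul_zero]
        · intro h; exact absurd hqS h
      · have hn : ∀ q ∈ S, x ∉ Iq q := fun q hq1 h => hq ⟨q, hq1, h⟩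
        have e1 : ∑ q ∈ S, c q * (Iq q).indicator (fun _ => (1 : ℝ)) x = 0 :=
          Finset.sum_eq_zero fun q hq => by
            rw [Set.indicator_of_notMem (hn q hq), mul_zero]
        have e2 : ∑ q ∈ S, (Iq q).indicator (fun _ => |c q| ^ P.toReal) x = 0 :=
          Finset.sum_eq_zero fun q hq => by
            rw [Set.indicator_of_notMem (hn q hq)]
        rw [e1, e2, abs_zero, Real.zero_rpow hp0.ne']
  rw [integral_congr_ae (Eventually.of_forall hpt)]
  have hvint : Integrable (fun x => |v x| ^ P.toReal) muX := by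
    have := (Lp.memLp v).integrable_norm_rpow hP0 hP
    simpa only [Real.norm_eq_abs] using this
  have hi1 : Integrable ((Ico (0 : ℝ) 1).indicator (fun x => |v x| ^ P.toReal)) volume :=
    (integrable_indicator_iff measurableSet_Ico).mpr hvint
  have hi2 : ∀ q, Integrable ((Iq q).indicator (fun _ => |c q| ^ P.toReal)) (volume : Measure ℝ) := by
    intro q
    rw [integrable_indicator_iff (ms_Iq q)]
    exact integrableOn_const (by rw [vol_Iq]; exact ENNReal.one_ne_top)
  rw [integral_add hi1 (integrable_finsetSum _ fun q _ => hi2 q),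
    integral_indicator measurableSet_Ico, integral_finsetSum _ fun q _ => hi2 q]
  congr 1
  · exact (norm_pow hP0 hP v (EventuallyEq.refl _ _)).symm
  · refine Finset.sum_congr rfl fun q _ => ?_
    rw [integral_indicator (ms_Iq q), setIntegral_const, Measure.real, vol_Iq]
    simp

end Pool.Agent.X203.NN
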