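import Mathlib
import Pool.Agent.X203.NNE
import Pool.Agent.X203.NNH

set_option linter.unusedSectionVars false
set_option linter.unusedSimpArgs false
set_option linter.unusedVariables false

namespace Pool.Agent.X203.NN

open Filter Finset Topology MeasureTheory Set
open scoped ENNReal

variable {P : ℝ≥0∞} [hP1 : Fact (1 ≤ P)]

/-! ### density of the Haar system -/

variable (P) in
/-- indicator functions of dyadic intervals -/
noncomputable def aL (n : ℕ) : Lp ℝ P muX :=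
  indicatorConstLp P (measurableSet_A n) (measure_ne_top _ _) (1 : ℝ)

lemma aL_ae (n : ℕ) : aL P n =ᵐ[muX] (A n).indicator (fun _ => (1 : ℝ)) := indicatorConstLp_coeFn

lemma hL_ae (n : ℕ) : hL P n =ᵐ[muX] hf n := MemLp.coeFn_toLp _

lemma oneL_ae : oneL P =ᵐ[muX] fun _ => (1 : ℝ) := MemLp.coeFn_toLp _

lemma A_zero : A 0 = Ico (0 : ℝ) 1 := by
  rw [A_eq]
  have : dp 0 = 0 := by unfold dp; simp
  rw [this]
  norm_num

lemma muX_mem : ∀ᵐ x ∂muX, x ∈ Ico (0 : ℝ) 1 := by
  unfold muX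
  exact ae_restrict_mem measurableSet_Ico

lemma aL_zero : aL P 0 = oneL P := by
  apply Lp.ext
  filter_upwards [aL_ae (P := P) 0, oneL_ae (P := P), muX_mem] with x h1 h2 h3
  rw [h1, h2, A_zero, Set.indicator_of_mem h3]

lemma ind_child (n : ℕ) (x : ℝ) : (A (2 * n + 1)).indicator (fun _ => (1 : ℝ)) x +
    (A (2 * n + 2)).indicator (fun _ => (1 : ℝ)) x = (A n).indicator (fun _ => (1 : ℝ)) x := by
  by_cases hx : x ∈ A n
  · obtain ⟨s, hs⟩ := ch_unique hx
    have h4 := hs true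
    have h5 := hs false
    unfold ch at h4 h5
    simp only [if_true, Bool.false_eq_true, if_false] at h4 h5
    rw [Set.indicator_of_mem hx]
    cases s
    · have h6 : x ∉ A (2 * n + 1) := fun h => by simpa using h4.mp h
      rw [Set.indicator_of_notMem h6, Set.indicator_of_mem (h5.mpr rfl), zero_add]
    · have h6 : x ∉ A (2 * n + 2) := fun h => by simpa using h5.mp h
      rw [Set.indicator_of_notMem h6, Set.indicator_of_mem (h4.mpr rfl), add_zero]
  · have h1 : x ∉ A (2 * n + 1) := fun h => hx (by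
      have := ch_sub n true
      unfold ch at this
      exact this h)
    have h2 : x ∉ A (2 * n + 2) := fun h => hx (by
      have := ch_sub n false
      unfold ch at this
      exact this h)
    rw [Set.indicator_of_notMem h1, Set.indicator_of_notMem h2, Set.indicator_of_notMem hx,
      add_zero]

lemma aL_left (n : ℕ) : aL P (2 * n + 1) = (1 / 2 : ℝ) • (aL P n + hL P n) := by
  apply Lp.ext
  filter_upwards [aL_ae (P := P) (2 * n + 1), aL_ae (P := P) n, hL_ae (P := P) n,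
    Lp.coeFn_smul (1 / 2 : ℝ) (aL P n + hL P n), Lp.coeFn_add (aL P n) (hL P n)]
    with x h1 h2 h3 h4 h5
  rw [h1, h4, Pi.smul_apply, h5, Pi.add_apply, h2, h3, smul_eq_mul, ← ind_child n x]
  unfold hf
  ring

lemma aL_right (n : ℕ) : aL P (2 * n + 2) = (1 / 2 : ℝ) • (aL P n - hL P n) := by
  apply Lp.ext
  filter_upwards [aL_ae (P := P) (2 * n + 2), aL_ae (P := P) n, hL_ae (P := P) n,
    Lp.coeFn_smul (1 / 2 : ℝ) (aL P n - hL P n), Lp.coeFn_sub (aL P n) (hL P n)]
    with x h1 h2 h3 h4 h5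
  rw [h1, h4, Pi.smul_apply, h5, Pi.sub_apply, h2, h3, smul_eq_mul, ← ind_child n x]
  unfold hf
  ring

variable (P) in
/-- the span of the Haar system -/
noncomputable def HS : Submodule ℝ (Lp ℝ P muX) :=
  Submodule.span ℝ (Set.range (Sys.xb (oneL P) (hL P)))

lemma aL_mem (n : ℕ) : aL P n ∈ HS P := by
  induction n using Nat.strong_induction_on with
  | _ n ih =>
    rcases Nat.eq_zero_or_pos n with h0 | hpos
    · subst h0
      rw [aL_zero]
      exact Submodule.subset_span ⟨0, rfl⟩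
    · rcases Nat.even_or_odd' n with ⟨j, hj | hj⟩
      · obtain ⟨j', rfl⟩ : ∃ j', j = j' + 1 := ⟨j - 1, by omega⟩
        have e1 : n = 2 * j' + 2 := by omega
        rw [e1, aL_right]
        exact Submodule.smul_mem _ _ (Submodule.sub_mem _ (ih j' (by omega))
          (Submodule.subset_span ⟨j' + 1, rfl⟩))
      · rw [hj, aL_left]
        exact Submodule.smul_mem _ _ (Submodule.add_mem _ (ih j (by omega))
          (Submodule.subset_span ⟨j + 1, rfl⟩))

lemma mem_A_level {d i : ℕ} (hi : i < 2 ^ d) {x : ℝ} (hx : x ∈ Ico (0 : ℝ) 1) :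
    x ∈ A (2 ^ d - 1 + i) ↔ fl d x = 2 ^ d + i := by
  have hpos : 0 < 2 ^ d := by positivity
  have e1 : 2 ^ d - 1 + i + 1 = 2 ^ d + i := by omega
  have hdp : dp (2 ^ d - 1 + i) = d := by
    unfold dp
    rw [e1]
    rw [Nat.log_eq_iff (Or.inr ⟨by norm_num, by omega⟩)]
    constructor
    · omega
    · rw [pow_succ]; omega
  unfold A
  rw [Set.mem_ofPred_eq, hdp, e1]
  exact ⟨fun h => h.2, fun h => ⟨hx.1, h⟩⟩

lemma fl_range {d : ℕ} {x : ℝ} (hx : x ∈ Ico (0 : ℝ) 1) :
    ∃ i < 2 ^ d, fl d x = 2 ^ d + i ∧ |x - (i : ℝ) / 2 ^ d| ≤ 1 / 2 ^ d := by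
  have hpos : (0 : ℝ) < 2 ^ d := by positivity
  have hnn : 0 ≤ (1 + x) * 2 ^ d := mul_nonneg (by linarith [hx.1]) hpos.le
  have h1 : ((fl d x : ℕ) : ℝ) ≤ (1 + x) * 2 ^ d := Nat.floor_le hnn
  have h2 : (1 + x) * 2 ^ d < (fl d x : ℕ) + 1 := Nat.lt_floor_add_one _
  have h3 : 2 ^ d ≤ fl d x := by
    unfold fl
    apply Nat.le_floor
    push_cast
    have := mul_nonneg hx.1 hpos.le
    linarith
  have h4 : fl d x < 2 ^ d + 2 ^ d := by
    have : ((fl d x : ℕ) : ℝ) < 2 ^ d + 2 ^ d := by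
      have := mul_lt_mul_of_pos_right hx.2 hpos
      linarith
    exact_mod_cast this
  refine ⟨fl d x - 2 ^ d, by omega, by omega, ?_⟩
  rw [Nat.cast_sub h3]
  push_cast
  have e1 : x - (((fl d x : ℕ) : ℝ) - 2 ^ d) / 2 ^ d = ((1 + x) * 2 ^ d - fl d x) / 2 ^ d := by
    field_simp
    ring
  rw [e1, abs_div, abs_of_pos hpos, abs_of_nonneg (by linarith)]
  apply div_le_div_of_nonneg_right _ hpos.le
  linarith

instance : muX.Regular := by unfold muX; infer_instance

lemma haar_dense (hP : P ≠ ∞) : DenseRange (Finsupp.linearCombination ℝ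
    (Sys.xb (oneL P) (hL P))) := by
  have hrange : Set.range (Finsupp.linearCombination ℝ (Sys.xb (oneL P) (hL P))) =
      (HS P : Set (Lp ℝ P muX)) := by
    unfold HS
    rw [← Finsupp.range_linearCombination]
    rfl
  unfold DenseRange
  rw [hrange]
  intro v
  rw [Metric.mem_closure_iff]
  intro ε hε
  obtain ⟨g, hgs, hg1, hgc, hgm⟩ := (Lp.memLp v).exists_hasCompactSupport_eLpNorm_sub_le hP
    (ε := ENNReal.ofReal (ε / 3)) (by simp; linarith)
  have hguc : UniformContinuous g := hgs.uniformContinuous_of_continuous hgc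
  rw [Metric.uniformContinuous_iff] at hguc
  obtain ⟨δ, hδ, hgδ⟩ := hguc (ε / 3) (by positivity)
  obtain ⟨d, hd⟩ := exists_pow_lt_of_lt_one hδ (by norm_num : (1 / 2 : ℝ) < 1)
  set s : Lp ℝ P muX := ∑ i ∈ range (2 ^ d), g ((i : ℝ) / 2 ^ d) • aL P (2 ^ d - 1 + i) with hs
  refine ⟨s, Submodule.sum_mem _ fun i _ => Submodule.smul_mem _ _ (aL_mem _), ?_⟩
  have hsae : s =ᵐ[muX] fun x => ∑ i ∈ range (2 ^ d), g ((i : ℝ) / 2 ^ d) *
      (A (2 ^ d - 1 + i)).indicator (fun _ => (1 : ℝ)) x :=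
    ae_sum (range (2 ^ d)) (fun i => aL P (2 ^ d - 1 + i))
      (fun i => (A (2 ^ d - 1 + i)).indicator (fun _ => (1 : ℝ)))
      (fun i _ => aL_ae (P := P) (2 ^ d - 1 + i)) (fun i => g ((i : ℝ) / 2 ^ d))
  have h1 : ‖v - hgm.toLp‖ ≤ ε / 3 := by
    have e1 : v - hgm.toLp = ((Lp.memLp v).sub hgm).toLp := by
      rw [MemLp.toLp_sub (Lp.memLp v) hgm, Lp.toLp_coeFn _ (Lp.memLp v)]
    rw [e1, Lp.norm_toLp]
    exact ENNReal.toReal_le_of_le_ofReal (by positivity) hg1
  have h2 : ‖hgm.toLp - s‖ ≤ ε / 3 := by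
    have hb : ∀ᵐ x ∂muX, ‖(hgm.toLp - s : Lp ℝ P muX) x‖ ≤ ε / 3 := by
      filter_upwards [Lp.coeFn_sub hgm.toLp s, hgm.coeFn_toLp, hsae, muX_mem] with x z1 z2 z3 z4
      rw [z1, Pi.sub_apply, z2, z3]
      obtain ⟨i, hi, hfl, hdist⟩ := fl_range (d := d) z4
      rw [Finset.sum_eq_single i]
      · rw [Set.indicator_of_mem ((mem_A_level hi z4).mpr hfl), mul_one]
        have h5 := hgδ (a := x) (b := (i : ℝ) / 2 ^ d) (by
          rw [Real.dist_eq]
          refine hdist.trans_lt ?_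
          rwa [one_div_pow] at hd)
        rw [← dist_eq_norm]
        exact h5.le
      · intro j hj hne
        rw [Set.indicator_of_notMem, mul_zero]
        intro h
        have := (mem_A_level (Finset.mem_range.mp hj) z4).mp h
        omega
      · intro h; exact absurd (Finset.mem_range.mpr hi) h
    have h3 := Lp.norm_le_of_ae_bound (by positivity : 0 ≤ ε / 3) hb
    have h4 : (measureUnivNNReal muX : ℝ) = 1 := by
      simp [measureUnivNNReal]
    rw [h4, Real.one_rpow, one_mul] at h3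
    exact h3
  rw [dist_eq_norm]
  calc ‖v - s‖ = ‖(v - hgm.toLp) + (hgm.toLp - s)‖ := by congr 1; abel
    _ ≤ ‖v - hgm.toLp‖ + ‖hgm.toLp - s‖ := norm_add_le _ _
    _ < ε := by linarith

/-! ### `Lp(ℝ)` inside `Lp(X)` -/

/-- density -/
noncomputable def rho (x : ℝ) : ℝ := ProbabilityTheory.gaussianPDFReal 0 1 x

lemma rho_pos (x : ℝ) : 0 < rho x := ProbabilityTheory.gaussianPDFReal_pos _ _ _ one_ne_zero

/-- the probability measure -/
noncomputable def gam : Measure ℝ := ProbabilityTheory.gaussianReal 0 1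

instance : IsProbabilityMeasure gam := by unfold gam; infer_instance

lemma gam_eq : gam = volume.withDensity (fun x => ENNReal.ofReal (rho x)) := by
  unfold gam
  rw [ProbabilityTheory.gaussianReal_of_var_ne_zero _ one_ne_zero]
  rfl

lemma gam_ac : gam ≪ volume := by rw [gam_eq]; exact withDensity_absolutelyContinuous _ _

lemma rho_meas : Measurable rho := ProbabilityTheory.measurable_gaussianPDFReal _ _

lemma mul_norm (hP : P ≠ ∞) (v : ℝ → ℝ) :
    eLpNorm (fun x => rho x ^ (-(1 / P.toReal)) * v x) P gam = eLpNorm v P volume := by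
  have hP0 : P ≠ 0 := (zero_lt_one.trans_le hP1.out).ne'
  have hp0 : 0 < P.toReal := ENNReal.toReal_pos hP0 hP
  rw [eLpNorm_eq_lintegral_rpow_enorm_toReal hP0 hP, eLpNorm_eq_lintegral_rpow_enorm_toReal hP0 hP,
    gam_eq, lintegral_withDensity_eq_lintegral_mul_non_measurable _ rho_meas.ennreal_ofReal
      (Eventually.of_forall fun x => ENNReal.ofReal_lt_top)]
  congr 1
  refine lintegral_congr fun x => ?_
  have hr := rho_pos x
  rw [Pi.mul_apply, enorm_mul, ENNReal.mul_rpow_of_nonneg _ _ hp0.le, ← mul_assoc]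
  have e1 : ENNReal.ofReal (rho x) * ‖rho x ^ (-(1 / P.toReal))‖ₑ ^ P.toReal = 1 := by
    rw [Real.enorm_eq_ofReal (Real.rpow_nonneg hr.le _), ENNReal.ofReal_rpow_of_nonneg
      (Real.rpow_nonneg hr.le _) hp0.le, ← Real.rpow_mul hr.le, ← ENNReal.ofReal_mul hr.le]
    have e2 : -(1 / P.toReal) * P.toReal = -1 := by field_simp
    rw [e2, Real.rpow_neg_one, mul_inv_cancel₀ hr.ne', ENNReal.ofReal_one]
  rw [e1, one_mul]

lemma mul_memLp (hP : P ≠ ∞) (v : Lp ℝ P (volume : Measure ℝ)) :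
    MemLp (fun x => rho x ^ (-(1 / P.toReal)) * v x) P gam := by
  refine ⟨?_, ?_⟩
  · exact ((rho_meas.pow_const _).aestronglyMeasurable).mul
      ((Lp.aestronglyMeasurable v).mono_ac gam_ac)
  · rw [mul_norm hP]
    exact (Lp.memLp v).2

/-- change of density -/
noncomputable def mulL (hP : P ≠ ∞) : Lp ℝ P (volume : Measure ℝ) →ₗᵢ[ℝ] Lp ℝ P gam where
  toFun v := (mul_memLp hP v).toLp
  map_add' v w := by
    apply Lp.ext
    filter_upwards [(mul_memLp hP (v + w)).coeFn_toLp, (mul_memLp hP v).coeFn_toLp,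
      (mul_memLp hP w).coeFn_toLp, Lp.coeFn_add (mul_memLp hP v).toLp (mul_memLp hP w).toLp,
      gam_ac.ae_le (Lp.coeFn_add v w)] with x h1 h2 h3 h4 h5
    rw [h1, h4, Pi.add_apply, h2, h3, h5, Pi.add_apply]
    ring
  map_smul' c v := by
    apply Lp.ext
    filter_upwards [(mul_memLp hP (c • v)).coeFn_toLp, (mul_memLp hP v).coeFn_toLp,
      Lp.coeFn_smul c (mul_memLp hP v).toLp,
      gam_ac.ae_le (Lp.coeFn_smul c v)] with x h1 h2 h4 h5
    rw [h1, RingHom.id_apply, h4, Pi.smul_apply, h2, h5, Pi.smul_apply, smul_eq_mul, smul_eq_mul]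
    ring
  norm_map' v := by
    show ‖(mul_memLp hP v).toLp‖ = ‖v‖
    rw [Lp.norm_toLp, mul_norm hP, Lp.norm_def]

/-- `Lp(ℝ)` embeds isometrically in `Lp(muX)` -/
theorem exists_emb (hP : P ≠ ∞) : Nonempty (Lp ℝ P (volume : Measure ℝ) →ₗᵢ[ℝ] Lp ℝ P muX) := by
  obtain ⟨f, hf⟩ := exists_mp gam
  exact ⟨(Lp.compMeasurePreservingₗᵢ ℝ f hf).comp (mulL hP)⟩

end Pool.Agent.X203.NN
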