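import Mathlib

set_option linter.unusedSectionVars false
set_option linter.unusedSimpArgs false
set_option linter.unusedVariables false

/-! Mixed radix digits and sums over residues. -/

namespace Pool.Agent.X203.VL

open Finset

/-- `M_0 = 1`, `M_{k+1} = m_k M_k` -/
def MM (m : ℕ → ℕ) : ℕ → ℕ
  | 0 => 1
  | k + 1 => MM m k * m k

/-- digits -/
def dig (m : ℕ → ℕ) (k x : ℕ) : ℕ := x / MM m k % m k

variable {m : ℕ → ℕ} (hm : ∀ k, 2 ≤ m k)

include hm in
lemma MM_pos (k : ℕ) : 0 < MM m k := by
  induction k with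
  | zero => simp [MM]
  | succ k ih => unfold MM; have := hm k; positivity

lemma MM_dvd {j k : ℕ} (h : j ≤ k) : MM m j ∣ MM m k := by
  induction k, h using Nat.le_induction with
  | base => exact dvd_rfl
  | succ k _ ih => exact ih.trans ⟨m k, rfl⟩

include hm in
lemma MM_mono {j k : ℕ} (h : j ≤ k) : MM m j ≤ MM m k :=
  Nat.le_of_dvd (MM_pos hm k) (MM_dvd h)

include hm in
lemma two_pow_le {j k : ℕ} (h : j ≤ k) : MM m j * 2 ^ (k - j) ≤ MM m k := by
  induction k, h using Nat.le_induction with
  | base => simp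
  | succ k hk ih =>
    have e1 : k + 1 - j = (k - j) + 1 := by omega
    rw [e1, pow_succ, ← mul_assoc]
    exact Nat.mul_le_mul ih (hm k)

include hm in
lemma lt_MM (k : ℕ) : k < MM m k := by
  have h := two_pow_le hm (Nat.zero_le k)
  simp only [MM, one_mul, Nat.sub_zero] at h
  exact lt_of_lt_of_le Nat.lt_two_pow_self h

include hm in
lemma dig_lt (k x : ℕ) : dig m k x < m k := Nat.mod_lt _ (by have := hm k; omega)

include hm in
lemma dig_add_lt {k j : ℕ} (h : k < j) (x c : ℕ) : dig m k (x + c * MM m j) = dig m k x := by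
  obtain ⟨t, ht⟩ : MM m (k + 1) ∣ MM m j := MM_dvd h
  have hpos := MM_pos hm k
  unfold dig
  have e1 : x + c * MM m j = x + MM m k * (m k * (c * t)) := by
    rw [ht]
    show x + c * (MM m k * m k * t) = _
    ring
  rw [e1, Nat.add_mul_div_left _ _ hpos, Nat.add_mul_mod_self_left]

include hm in
lemma dig_add_eq {j x c : ℕ} (hx : x < MM m j) (hc : c < m j) : dig m j (x + c * MM m j) = c := by
  unfold dig
  rw [Nat.add_mul_div_right _ _ (MM_pos hm j), Nat.div_eq_of_lt hx, zero_add, Nat.mod_eq_of_lt hc]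

lemma mod_mod {i j : ℕ} (h : i ≤ j) (x : ℕ) : x % MM m j % MM m i = x % MM m i :=
  Nat.mod_mod_of_dvd x (MM_dvd h)

lemma mod_succ (j x : ℕ) : x % MM m (j + 1) = x % MM m j + dig m j x * MM m j := by
  unfold dig
  show x % (MM m j * m j) = _
  rw [Nat.mod_mul]
  ring

include hm in
lemma dig_mod {k j : ℕ} (h : k < j) (x : ℕ) : dig m k (x % MM m j) = dig m k x := by
  have e1 : x = x % MM m j + (x / MM m j) * MM m j := by
    have := Nat.mod_add_div x (MM m j)
    rw [mul_comm]; omega
  conv_rhs => rw [e1]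
  rw [dig_add_lt hm h]

section sums

variable {R : Type*} [CommSemiring R]

lemma sum_mul_range (a b : ℕ) (F : ℕ → R) :
    ∑ x ∈ range (b * a), F x = ∑ c ∈ range a, ∑ x ∈ range b, F (x + c * b) := by
  induction a with
  | zero => simp
  | succ a ih =>
    rw [mul_add, mul_one, sum_range_add, ih, sum_range_succ]
    congr 1
    refine sum_congr rfl fun x _ => ?_
    congr 1
    ring

lemma sum_succ (j : ℕ) (F : ℕ → R) : ∑ x ∈ range (MM m (j + 1)), F x =
    ∑ c ∈ range (m j), ∑ x ∈ range (MM m j), F (x + c * MM m j) :=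
  sum_mul_range _ _ F

/-- sums of functions of the residue -/
lemma sum_res {j n : ℕ} (h : j ≤ n) (F : ℕ → R) (hF : ∀ x, F x = F (x % MM m j)) :
    ∑ x ∈ range (MM m n), F x = ((MM m n / MM m j : ℕ) : R) * ∑ x ∈ range (MM m j), F x := by
  obtain ⟨t, ht⟩ := MM_dvd (m := m) h
  rcases Nat.eq_zero_or_pos (MM m j) with h0 | hpos
  · rw [ht, h0]; simp
  rw [ht, Nat.mul_div_cancel_left _ hpos, sum_mul_range]
  have e1 : ∀ c ∈ range t, ∑ x ∈ range (MM m j), F (x + c * MM m j) =
      ∑ x ∈ range (MM m j), F x := by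
    intro c _
    refine sum_congr rfl fun x _ => ?_
    rw [hF (x + c * MM m j), Nat.add_mul_mod_self_right, ← hF]
  rw [sum_congr rfl e1, sum_const, card_range, nsmul_eq_mul]

include hm in
/-- product formula -/
lemma sum_prod (N : ℕ) (φ : ℕ → ℕ → R) : ∑ x ∈ range (MM m N), ∏ k ∈ range N, φ k (dig m k x) =
    ∏ k ∈ range N, ∑ c ∈ range (m k), φ k c := by
  induction N with
  | zero => simp [MM]
  | succ N ih =>
    rw [sum_succ, prod_range_succ, ← ih, mul_comm, sum_mul]
    refine sum_congr rfl fun c hc => ?_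
    rw [mul_sum]
    refine sum_congr rfl fun x hx => ?_
    rw [prod_range_succ, dig_add_eq hm (mem_range.mp hx) (mem_range.mp hc), mul_comm]
    congr 1
    refine prod_congr rfl fun k hk => ?_
    rw [dig_add_lt hm (mem_range.mp hk)]

end sums

include hm in
/-- a residue is determined by its digits -/
lemma mod_eq_of_dig {N : ℕ} {x y : ℕ} (h : ∀ k < N, dig m k x = dig m k y) :
    x % MM m N = y % MM m N := by
  induction N with
  | zero => simp [MM, Nat.mod_one]
  | succ N ih =>
    rw [mod_succ, mod_succ, ih fun k hk => h k (by omega), h N (by omega)]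

lemma factorial_le {N : ℕ} (S : Finset ℕ) (hS : S ⊆ range N) :
    (S.card.factorial : ℝ) ≤ ∏ k ∈ S, ((N : ℝ) - k) := by
  induction S using Finset.induction_on_min with
  | empty => simp
  | insert a S ha ih =>
    have haS : a ∉ S := fun h => lt_irrefl _ (ha a h)
    rw [prod_insert haS, card_insert_of_notMem haS, Nat.factorial_succ]
    push_cast
    have h1 := ih fun x hx => hS (mem_insert_of_mem hx)
    have h2 : S.card + 1 ≤ N - a := by
      have h3 : insert a S ⊆ Ico a N := by
        intro x hx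
        rw [mem_Ico]
        have h4 := mem_range.mp (hS hx)
        rcases mem_insert.mp hx with rfl | h5
        · exact ⟨le_rfl, h4⟩
        · exact ⟨(ha x h5).le, h4⟩
      have h4 := card_le_card h3
      rw [card_insert_of_notMem haS, Nat.card_Ico] at h4
      exact h4
    have h3 : (S.card : ℝ) + 1 ≤ (N : ℝ) - a := by
      have ha' := mem_range.mp (hS (mem_insert_self a S))
      have : ((S.card + 1 : ℕ) : ℝ) ≤ ((N - a : ℕ) : ℝ) := by exact_mod_cast h2
      rw [Nat.cast_sub ha'.le] at this
      push_cast at this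
      exact this
    exact mul_le_mul h3 h1 (by positivity) (by
      have : (0 : ℝ) ≤ S.card := Nat.cast_nonneg _
      linarith)

end Pool.Agent.X203.VL
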