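import Mathlib
import Pool.Agent.X203.VLA

set_option linter.unusedSectionVars false
set_option linter.unusedSimpArgs false
set_option linter.unusedVariables false

/-! Vilenkin characters at finite level, `L^2` theory. -/

namespace Pool.Agent.X203.VL

open Finset ComplexConjugate

/-- primitive root -/
noncomputable def om (m : ℕ → ℕ) (k : ℕ) : ℂ := Complex.exp (2 * Real.pi * Complex.I / m k)

/-- characters at level `n` -/
noncomputable def Psi (m : ℕ → ℕ) (n i x : ℕ) : ℂ :=
  ∏ k ∈ range n, om m k ^ (dig m k i * dig m k x)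

variable {m : ℕ → ℕ} (hm : ∀ k, 2 ≤ m k)

include hm in
lemma om_prim (k : ℕ) : IsPrimitiveRoot (om m k) (m k) :=
  Complex.isPrimitiveRoot_exp (m k) (by have := hm k; omega)

lemma om_norm (k : ℕ) : ‖om m k‖ = 1 := by
  unfold om
  have : (2 * Real.pi * Complex.I / (m k : ℂ) : ℂ) = ((2 * Real.pi / m k : ℝ) : ℂ) * Complex.I := by
    push_cast; ring
  rw [this, Complex.norm_exp_ofReal_mul_I]

lemma root_sum {ζ : ℂ} {n : ℕ} (h : ζ ^ n = 1) (h1 : ζ ≠ 1) : ∑ c ∈ range n, ζ ^ c = 0 := by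
  have := geom_sum_mul ζ n
  rw [h, sub_self] at this
  exact (mul_eq_zero.mp this).resolve_right (sub_ne_zero.mpr h1)

lemma Psi_norm (n i x : ℕ) : ‖Psi m n i x‖ = 1 := by
  unfold Psi
  rw [norm_prod]
  exact prod_eq_one fun k _ => by rw [norm_pow, om_norm, one_pow]

lemma Psi_symm (n i x : ℕ) : Psi m n i x = Psi m n x i := by
  unfold Psi
  exact prod_congr rfl fun k _ => by rw [mul_comm]

/-- the ratio of two characters of one coordinate -/
noncomputable def chi (m : ℕ → ℕ) (x y k : ℕ) : ℂ :=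
  om m k ^ (dig m k x) * conj (om m k ^ (dig m k y))

lemma om_conj (k : ℕ) : om m k * conj (om m k) = 1 := by
  rw [Complex.mul_conj', om_norm]; norm_num

lemma chi_norm (x y k : ℕ) : ‖chi m x y k‖ = 1 := by
  unfold chi
  rw [norm_mul, RCLike.norm_conj, norm_pow, norm_pow, om_norm]
  norm_num

lemma chi_self {x y k : ℕ} (h : dig m k x = dig m k y) : chi m x y k = 1 := by
  unfold chi
  rw [h, Complex.mul_conj', norm_pow, om_norm]; norm_num

include hm in
lemma chi_pow (x y k : ℕ) : chi m x y k ^ m k = 1 := by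
  unfold chi
  rw [mul_pow, ← pow_mul, ← map_pow, ← pow_mul, mul_comm (dig m k x), mul_comm (dig m k y),
    pow_mul, pow_mul, (om_prim hm k).pow_eq_one]
  simp

include hm in
lemma chi_ne {x y k : ℕ} (h : dig m k x ≠ dig m k y) : chi m x y k ≠ 1 := by
  intro h1
  apply h
  unfold chi at h1
  have h2 : om m k ^ dig m k x = om m k ^ dig m k y := by
    have e1 : om m k ^ dig m k y * conj (om m k ^ dig m k y) = 1 := by
      rw [Complex.mul_conj', norm_pow, om_norm]; norm_num
    have h3 : (om m k ^ dig m k x * conj (om m k ^ dig m k y)) * om m k ^ dig m k y =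
        om m k ^ dig m k y := by rw [h1, one_mul]
    rw [mul_assoc, mul_comm (conj _), e1, mul_one] at h3
    exact h3
  exact (om_prim hm k).pow_inj (dig_lt hm k x) (dig_lt hm k y) h2

lemma Psi_ratio (n i x y : ℕ) : Psi m n i x * conj (Psi m n i y) =
    ∏ k ∈ range n, chi m x y k ^ (dig m k i) := by
  unfold Psi chi
  rw [map_prod, ← prod_mul_distrib]
  refine prod_congr rfl fun k _ => ?_
  rw [mul_pow, ← pow_mul, ← map_pow, ← pow_mul, mul_comm (dig m k i), mul_comm (dig m k i)]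

include hm in
/-- orthogonality -/
lemma orth {n i j : ℕ} (hi : i < MM m n) (hj : j < MM m n) :
    ∑ x ∈ range (MM m n), Psi m n i x * conj (Psi m n j x) =
      if i = j then (MM m n : ℂ) else 0 := by
  have h1 : ∀ x, Psi m n i x * conj (Psi m n j x) =
      ∏ k ∈ range n, (fun k c => chi m i j k ^ c) k (dig m k x) := by
    intro x
    rw [Psi_symm, Psi_symm n j x, Psi_ratio]
  rw [sum_congr rfl fun x _ => h1 x, sum_prod hm]
  split_ifs with hij
  · subst hij
    have h2 : ∀ k ∈ range n, ∑ c ∈ range (m k), chi m i i k ^ c = (m k : ℂ) := by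
      intro k _
      rw [chi_self rfl]
      simp
    rw [prod_congr rfl h2]
    have h3 : ∀ n, ∏ k ∈ range n, (m k : ℂ) = (MM m n : ℂ) := by
      intro n
      induction n with
      | zero => simp [MM]
      | succ n ih => rw [prod_range_succ, ih]; simp [MM]
    exact h3 n
  · have h2 : ∃ k < n, dig m k i ≠ dig m k j := by
      by_contra hcon
      push Not at hcon
      apply hij
      have := mod_eq_of_dig hm hcon
      rwa [Nat.mod_eq_of_lt hi, Nat.mod_eq_of_lt hj] at this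
    obtain ⟨k, hk, hne⟩ := h2
    apply prod_eq_zero (mem_range.mpr hk)
    exact root_sum (chi_pow hm i j k) (chi_ne hm hne)

include hm in
lemma iso (n : ℕ) (a : ℕ → ℂ) :
    ∑ x ∈ range (MM m n), ‖∑ i ∈ range (MM m n), a i * Psi m n i x‖ ^ 2 =
      (MM m n : ℝ) * ∑ i ∈ range (MM m n), ‖a i‖ ^ 2 := by
  have key : ((∑ x ∈ range (MM m n), ‖∑ i ∈ range (MM m n), a i * Psi m n i x‖ ^ 2 : ℝ) : ℂ) =
      (((MM m n : ℝ) * ∑ i ∈ range (MM m n), ‖a i‖ ^ 2 : ℝ) : ℂ) := by
    push_cast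
    have e1 : ∀ x, (‖∑ i ∈ range (MM m n), a i * Psi m n i x‖ : ℂ) ^ 2 =
        ∑ i ∈ range (MM m n), ∑ j ∈ range (MM m n),
          a i * conj (a j) * (Psi m n i x * conj (Psi m n j x)) := by
      intro x
      rw [← Complex.mul_conj', map_sum, sum_mul_sum]
      refine sum_congr rfl fun i _ => sum_congr rfl fun j _ => ?_
      rw [map_mul]; ring
    rw [sum_congr rfl fun x _ => e1 x, sum_comm, mul_sum]
    refine sum_congr rfl fun i hi => ?_
    rw [sum_comm]
    have e2 : ∀ j ∈ range (MM m n), ∑ x ∈ range (MM m n),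
        a i * conj (a j) * (Psi m n i x * conj (Psi m n j x)) =
        if i = j then a i * conj (a i) * (MM m n : ℂ) else 0 := by
      intro j hj
      rw [← mul_sum, orth hm (mem_range.mp hi) (mem_range.mp hj)]
      split_ifs with h
      · rw [h]
      · rw [mul_zero]
    rw [sum_congr rfl e2, sum_ite_eq, if_pos hi, Complex.mul_conj']
    ring
  exact_mod_cast key

/-- Fourier coefficients at level `n` -/
noncomputable def co (m : ℕ → ℕ) (n : ℕ) (g : ℕ → ℂ) (i : ℕ) : ℂ :=
  (1 / (MM m n : ℂ)) * ∑ t ∈ range (MM m n), g t * conj (Psi m n i t)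

include hm in
lemma parseval (n : ℕ) (g : ℕ → ℂ) : (MM m n : ℝ) * ∑ i ∈ range (MM m n), ‖co m n g i‖ ^ 2 =
    ∑ t ∈ range (MM m n), ‖g t‖ ^ 2 := by
  have h := iso hm n (fun t => conj (g t))
  have hpos : (0 : ℝ) < MM m n := by exact_mod_cast MM_pos hm n
  have e1 : ∀ i, ‖co m n g i‖ ^ 2 = (1 / (MM m n : ℝ)) ^ 2 *
      ‖∑ t ∈ range (MM m n), conj (g t) * Psi m n t i‖ ^ 2 := by
    intro i
    unfold co
    rw [norm_mul, mul_pow]
    congr 1
    · simp
    · have : ∑ t ∈ range (MM m n), g t * conj (Psi m n i t) =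
          conj (∑ t ∈ range (MM m n), conj (g t) * Psi m n t i) := by
        rw [map_sum]
        refine sum_congr rfl fun t _ => ?_
        rw [map_mul, Complex.conj_conj, Psi_symm]
      rw [this, RCLike.norm_conj]
  simp only [RCLike.norm_conj] at h
  rw [sum_congr rfl fun i _ => e1 i, ← mul_sum, h]
  field_simp

/-- multiplier operator -/
noncomputable def Top (m : ℕ → ℕ) (n : ℕ) (c : ℕ → ℝ) (g : ℕ → ℂ) (x : ℕ) : ℂ :=
  ∑ i ∈ range (MM m n), (c i * co m n g i) * Psi m n i x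

include hm in
/-- `L^2` bound -/
lemma Top_L2 (n : ℕ) (c : ℕ → ℝ) (hc : ∀ i < MM m n, |c i| ≤ 1) (g : ℕ → ℂ) :
    ∑ x ∈ range (MM m n), ‖Top m n c g x‖ ^ 2 ≤ ∑ t ∈ range (MM m n), ‖g t‖ ^ 2 := by
  unfold Top
  rw [iso hm n (fun i => c i * co m n g i), ← parseval hm n g]
  apply mul_le_mul_of_nonneg_left _ (Nat.cast_nonneg _)
  refine sum_le_sum fun i hi => ?_
  rw [norm_mul, mul_pow, Complex.norm_real, Real.norm_eq_abs]
  have h1 := hc i (mem_range.mp hi)
  have h2 : |c i| ^ 2 ≤ 1 := pow_le_one₀ (abs_nonneg _) h1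
  have h3 : 0 ≤ ‖co m n g i‖ ^ 2 := by positivity
  nlinarith

lemma co_sum {ι : Type*} (n : ℕ) (S : Finset ι) (g : ι → ℕ → ℂ) (i : ℕ) :
    co m n (fun t => ∑ s ∈ S, g s t) i = ∑ s ∈ S, co m n (g s) i := by
  unfold co
  simp only [sum_mul]
  rw [sum_comm, mul_sum]

lemma Top_sum {ι : Type*} (n : ℕ) (c : ℕ → ℝ) (S : Finset ι) (g : ι → ℕ → ℂ) (x : ℕ) :
    Top m n c (fun t => ∑ s ∈ S, g s t) x = ∑ s ∈ S, Top m n c (g s) x := by
  unfold Top
  rw [sum_comm]
  refine sum_congr rfl fun i _ => ?_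
  rw [co_sum, mul_sum, sum_mul]

lemma co_add (n : ℕ) (g g' : ℕ → ℂ) (i : ℕ) :
    co m n (fun t => g t + g' t) i = co m n g i + co m n g' i := by
  unfold co
  simp only [add_mul, sum_add_distrib, mul_add]

lemma Top_add (n : ℕ) (c : ℕ → ℝ) (g g' : ℕ → ℂ) (x : ℕ) :
    Top m n c (fun t => g t + g' t) x = Top m n c g x + Top m n c g' x := by
  unfold Top
  rw [← sum_add_distrib]
  refine sum_congr rfl fun i _ => ?_
  rw [co_add]; ring

lemma co_congr {n : ℕ} {g g' : ℕ → ℂ} (h : ∀ t < MM m n, g t = g' t) (i : ℕ) :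
    co m n g i = co m n g' i := by
  unfold co
  congr 1
  exact sum_congr rfl fun t ht => by rw [h t (mem_range.mp ht)]

lemma Top_congr {n : ℕ} {c : ℕ → ℝ} {g g' : ℕ → ℂ} (h : ∀ t < MM m n, g t = g' t) (x : ℕ) :
    Top m n c g x = Top m n c g' x := by
  unfold Top
  exact sum_congr rfl fun i _ => by rw [co_congr h]

end Pool.Agent.X203.VL
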