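import Mathlib
import Pool.Agent.X203.VLB

set_option linter.unusedSectionVars false
set_option linter.unusedSimpArgs false
set_option linter.unusedVariables false

/-! Higher differences of the harmonic weights against characters. -/

namespace Pool.Agent.X203.VL

open Finset ComplexConjugate

/-- backward difference operator -/
def DD {R : Type*} [AddCommGroup R] (h : ℕ → R) (i : ℕ) : R := h i - h (i + 1)

section diff

variable {R : Type*} [CommRing R]

lemma DD_succ (j : ℕ) (h : ℕ → R) (y : ℕ) :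
    (DD^[j + 1] h) y = (DD^[j] h) y - (DD^[j] h) (y + 1) := by
  rw [Function.iterate_succ_apply']; rfl

lemma DD_shift (j a : ℕ) (h : ℕ → R) (y : ℕ) :
    (DD^[j] fun y => h (y + a)) y = (DD^[j] h) (y + a) := by
  induction j generalizing y with
  | zero => rfl
  | succ j ih =>
    rw [DD_succ, DD_succ, ih, ih, show y + 1 + a = y + a + 1 by omega]

lemma DD_sum {ι : Type*} (S : Finset ι) (j : ℕ) (α : ι → R) (h : ι → ℕ → R) (y : ℕ) :
    (DD^[j] fun y => ∑ c ∈ S, α c * h c y) y = ∑ c ∈ S, α c * (DD^[j] (h c)) y := by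
  induction j generalizing y with
  | zero => rfl
  | succ j ih =>
    rw [DD_succ, ih, ih, ← sum_sub_distrib]
    refine sum_congr rfl fun c _ => ?_
    rw [DD_succ]
    ring

lemma DD_tele (j a : ℕ) (h : ℕ → R) (y : ℕ) :
    (DD^[j] h) (y + a) - (DD^[j] h) y = - ∑ u ∈ range a, (DD^[j + 1] h) (y + u) := by
  induction a with
  | zero => simp
  | succ a ih =>
    rw [sum_range_succ, neg_add, ← ih, DD_succ, ← add_assoc]
    ring

end diff

variable {m : ℕ → ℕ} (hm : ∀ k, 2 ≤ m k)

/-- the exponential sum -/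
noncomputable def Phi (m : ℕ → ℕ) (N : ℕ) (χ : ℕ → ℂ) (h : ℕ → ℂ) (x : ℕ) : ℂ :=
  ∑ r ∈ range (MM m N), (∏ k ∈ range N, χ k ^ dig m k r) * h (x + r)

open Classical in
/-- weights -/
noncomputable def Wk (m : ℕ → ℕ) (χ : ℕ → ℂ) (k : ℕ) : ℝ :=
  if χ k = 1 then (m k : ℝ) else (m k : ℝ) * MM m (k + 1)

open Classical in
/-- number of nontrivial coordinates -/
noncomputable def nj (χ : ℕ → ℂ) (N : ℕ) : ℕ := ((range N).filter fun k => χ k ≠ 1).card

lemma Wk_nonneg (χ : ℕ → ℂ) (k : ℕ) : 0 ≤ Wk m χ k := by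
  unfold Wk; split_ifs <;> positivity

include hm in
theorem Phi_bound (χ : ℕ → ℂ) (h1 : ∀ k, ‖χ k‖ = 1) (h2 : ∀ k, χ k ^ m k = 1) (N : ℕ) :
    ∀ (h : ℕ → ℂ) (x : ℕ) (b : ℝ), 0 ≤ b → (∀ y, x ≤ y → ‖(DD^[nj χ N] h) y‖ ≤ b) →
      ‖Phi m N χ h x‖ ≤ (∏ k ∈ range N, Wk m χ k) * b := by
  classical
  induction N with
  | zero =>
    intro h x b hb hy
    have := hy x le_rfl
    simp only [nj, range_zero, filter_empty, card_empty, Function.iterate_zero, id_eq] at this
    simpa [Phi, MM] using this
  | succ N ih =>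
    intro h x b hb hy
    have hrec : Phi m (N + 1) χ h x =
        Phi m N χ (fun y => ∑ c ∈ range (m N), χ N ^ c * h (y + c * MM m N)) x := by
      unfold Phi
      rw [sum_succ]
      rw [sum_comm]
      refine sum_congr rfl fun r hr => ?_
      rw [mul_sum]
      refine sum_congr rfl fun c hc => ?_
      rw [prod_range_succ, dig_add_eq hm (mem_range.mp hr) (mem_range.mp hc)]
      have e1 : ∏ k ∈ range N, χ k ^ dig m k (r + c * MM m N) = ∏ k ∈ range N, χ k ^ dig m k r :=
        prod_congr rfl fun k hk => by rw [dig_add_lt hm (mem_range.mp hk)]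
      rw [e1, mul_assoc, add_assoc]
    rw [hrec, prod_range_succ]
    by_cases hχ : χ N = 1
    · have hj : nj χ (N + 1) = nj χ N := by
        unfold nj
        rw [range_add_one, filter_insert, if_neg (by simpa using hχ)]
      rw [hj] at hy
      have hW : Wk m χ N = m N := by unfold Wk; rw [if_pos hχ]
      rw [hW, mul_assoc]
      apply ih _ x (m N * b) (by positivity)
      intro y hxy
      rw [DD_sum]
      refine (norm_sum_le _ _).trans ?_
      calc ∑ c ∈ range (m N), ‖χ N ^ c * (DD^[nj χ N] fun y => h (y + c * MM m N)) y‖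
          ≤ ∑ c ∈ range (m N), b := by
            refine sum_le_sum fun c _ => ?_
            rw [norm_mul, norm_pow, h1, one_pow, one_mul, DD_shift]
            exact hy _ (by omega)
        _ = m N * b := by rw [sum_const, card_range, nsmul_eq_mul]
    · have hj : nj χ (N + 1) = nj χ N + 1 := by
        unfold nj
        rw [range_add_one, filter_insert, if_pos hχ, card_insert_of_notMem (by simp)]
      rw [hj] at hy
      have hW : Wk m χ N = m N * MM m (N + 1) := by unfold Wk; rw [if_neg hχ]
      rw [hW, mul_assoc]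
      apply ih _ x (m N * MM m (N + 1) * b) (by positivity)
      intro y hxy
      rw [DD_sum]
      have e2 : ∑ c ∈ range (m N), χ N ^ c * (DD^[nj χ N] fun y => h (y + c * MM m N)) y =
          ∑ c ∈ range (m N), χ N ^ c * ((DD^[nj χ N] h) (y + c * MM m N) - (DD^[nj χ N] h) y) := by
        have e3 : ∑ c ∈ range (m N), χ N ^ c * (DD^[nj χ N] h) y = 0 := by
          rw [← sum_mul, root_sum (h2 N) hχ, zero_mul]
        simp only [mul_sub, sum_sub_distrib, e3, sub_zero, DD_shift]
      rw [e2]
      refine (norm_sum_le _ _).trans ?_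
      calc ∑ c ∈ range (m N), ‖χ N ^ c *
            ((DD^[nj χ N] h) (y + c * MM m N) - (DD^[nj χ N] h) y)‖
          ≤ ∑ c ∈ range (m N), MM m (N + 1) * b := by
            refine sum_le_sum fun c hc => ?_
            rw [norm_mul, norm_pow, h1, one_pow, one_mul, DD_tele, norm_neg]
            refine (norm_sum_le _ _).trans ?_
            calc ∑ u ∈ range (c * MM m N), ‖(DD^[nj χ N + 1] h) (y + u)‖
                ≤ ∑ u ∈ range (c * MM m N), b := sum_le_sum fun u _ => hy _ (by omega)
              _ = ((c * MM m N : ℕ) : ℝ) * b := by rw [sum_const, card_range, nsmul_eq_mul]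
              _ ≤ MM m (N + 1) * b := by
                  apply mul_le_mul_of_nonneg_right _ hb
                  have : c * MM m N ≤ MM m (N + 1) := by
                    show _ ≤ MM m N * m N
                    rw [mul_comm]
                    exact Nat.mul_le_mul_left _ (mem_range.mp hc).le
                  exact_mod_cast this
        _ = m N * MM m (N + 1) * b := by
            rw [sum_const, card_range, nsmul_eq_mul]; ring

/-- harmonic numbers -/
noncomputable def har (n : ℕ) : ℝ := ∑ k ∈ range n, 1 / ((k : ℝ) + 1)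

lemma har_diff (L : ℝ) (j : ℕ) : ∀ i : ℕ, (DD^[j + 1] fun i => L - har i) i =
    (j.factorial : ℝ) / ∏ u ∈ range (j + 1), ((i : ℝ) + 1 + u) := by
  induction j with
  | zero =>
    intro i
    simp only [zero_add, Function.iterate_one, DD, har, sum_range_succ, prod_range_one]
    simp
  | succ j ih =>
    intro i
    rw [DD_succ, ih, ih]
    have hpos : ∀ u : ℕ, (0 : ℝ) < (i : ℝ) + 1 + u := fun u => by positivity
    have hP : (0 : ℝ) < ∏ u ∈ range j, ((i : ℝ) + 2 + u) := prod_pos fun u _ => by positivity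
    have e1 : ∏ u ∈ range (j + 1), ((i : ℝ) + 1 + u) =
        (∏ u ∈ range j, ((i : ℝ) + 2 + u)) * ((i : ℝ) + 1) := by
      rw [prod_range_succ']
      congr 1
      · refine prod_congr rfl fun u _ => ?_
        push_cast; ring
      · simp
    have e2 : ∏ u ∈ range (j + 1), (((i + 1 : ℕ) : ℝ) + 1 + u) =
        (∏ u ∈ range j, ((i : ℝ) + 2 + u)) * ((i : ℝ) + 2 + j) := by
      rw [prod_range_succ]
      congr 1
      · refine prod_congr rfl fun u _ => ?_
        push_cast; ring
      · push_cast; ring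
    have e3 : ∏ u ∈ range (j + 1 + 1), ((i : ℝ) + 1 + u) =
        (∏ u ∈ range j, ((i : ℝ) + 2 + u)) * ((i : ℝ) + 1) * ((i : ℝ) + 2 + j) := by
      rw [prod_range_succ, e1]
      congr 1
      push_cast; ring
    rw [e1, e2, e3, Nat.factorial_succ]
    have h3 : (i : ℝ) + 1 ≠ 0 := by positivity
    have h4 : (i : ℝ) + 2 + j ≠ 0 := by positivity
    have h5 := hP.ne'
    push_cast
    field_simp
    ring

lemma DD_cast (j : ℕ) (h : ℕ → ℝ) (i : ℕ) :
    (DD^[j] fun i => ((h i : ℝ) : ℂ)) i = (((DD^[j] h) i : ℝ) : ℂ) := by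
  induction j generalizing i with
  | zero => rfl
  | succ j ih =>
    rw [DD_succ, DD_succ, ih, ih]
    push_cast; rfl

lemma har_bound (L : ℝ) {j : ℕ} (hj : 1 ≤ j) {x y : ℕ} (hx : 1 ≤ x) (hxy : x ≤ y) :
    ‖(DD^[j] fun i => ((L - har i : ℝ) : ℂ)) y‖ ≤ (j.factorial : ℝ) / (x : ℝ) ^ j := by
  obtain ⟨j', rfl⟩ : ∃ j', j = j' + 1 := ⟨j - 1, by omega⟩
  rw [DD_cast (j' + 1) (fun i => L - har i), har_diff, Complex.norm_real, Real.norm_eq_abs]
  have hx0 : (0 : ℝ) < x := by exact_mod_cast hx
  have hxy' : (x : ℝ) ≤ y := by exact_mod_cast hxy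
  have hP : (x : ℝ) ^ (j' + 1) ≤ ∏ u ∈ range (j' + 1), ((y : ℝ) + 1 + u) := by
    rw [← card_range (j' + 1), ← prod_const]
    simp only [card_range]
    apply prod_le_prod
    · intro _ _; exact hx0.le
    · intro u _
      have : (0 : ℝ) ≤ u := Nat.cast_nonneg _
      linarith
  have hPpos : 0 < ∏ u ∈ range (j' + 1), ((y : ℝ) + 1 + u) := lt_of_lt_of_le (by positivity) hP
  rw [abs_of_nonneg (by positivity)]
  have h1 : (j'.factorial : ℝ) ≤ (j' + 1).factorial := by
    exact_mod_cast Nat.factorial_le (Nat.le_succ j')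
  exact div_le_div₀ (by positivity) h1 (by positivity) hP

end Pool.Agent.X203.VL
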