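import Mathlib
import Pool.Agent.X203.VLC

set_option linter.unusedSectionVars false
set_option linter.unusedSimpArgs false
set_option linter.unusedVariables false

/-! The atom estimate. -/

namespace Pool.Agent.X203.VL

open Finset ComplexConjugate

variable {m : ℕ → ℕ} (hm : ∀ k, 2 ≤ m k)

/-- the multiplier of the Riesz logarithmic mean `R_{M_n}` -/
noncomputable def cw (m : ℕ → ℕ) (n i : ℕ) : ℝ := (har (MM m n) - har i) / har (MM m n)

lemma har_mono {a b : ℕ} (h : a ≤ b) : har a ≤ har b := by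
  unfold har
  exact sum_le_sum_of_subset_of_nonneg (range_subset_range.mpr h) fun i _ _ => by positivity

lemma har_nonneg (a : ℕ) : 0 ≤ har a := by
  unfold har; exact sum_nonneg fun i _ => by positivity

include hm in
lemma har_pos (n : ℕ) : 0 < har (MM m n) := by
  have h1 : har 1 ≤ har (MM m n) := har_mono (MM_pos hm n)
  have : har 1 = 1 := by simp [har]
  linarith

include hm in
lemma cw_le (n : ℕ) {i : ℕ} (hi : i < MM m n) : |cw m n i| ≤ 1 := by
  unfold cw
  have h1 := har_pos hm n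
  have h2 := har_mono hi.le
  have h3 := har_nonneg i
  rw [abs_of_nonneg (div_nonneg (by linarith) h1.le), div_le_one h1]
  linarith

include hm in
lemma dig_block {N r q k : ℕ} (hr : r < MM m N) (hk : N ≤ k) :
    dig m k (r + q * MM m N) = dig m k (q * MM m N) ∧ dig m k r = 0 := by
  obtain ⟨t, ht⟩ := MM_dvd (m := m) hk
  have hpos := MM_pos hm N
  constructor
  · unfold dig
    rw [ht, ← Nat.div_div_eq_div_mul, ← Nat.div_div_eq_div_mul, Nat.add_mul_div_right _ _ hpos,
      Nat.div_eq_of_lt hr, zero_add, Nat.mul_div_cancel _ hpos]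
  · unfold dig
    rw [Nat.div_eq_of_lt (lt_of_lt_of_le hr (MM_mono hm hk)), Nat.zero_mod]

include hm in
lemma dig_zero_block {N q k : ℕ} (hk : k < N) : dig m k (q * MM m N) = 0 := by
  have h := dig_add_lt hm hk 0 q
  rw [zero_add] at h
  rw [h]
  unfold dig
  simp

include hm in
lemma Psi_block {N n r q : ℕ} (hN : N ≤ n) (hr : r < MM m N) (x : ℕ) :
    Psi m n (r + q * MM m N) x = Psi m n r x * Psi m n (q * MM m N) x := by
  unfold Psi
  rw [← prod_mul_distrib]
  refine prod_congr rfl fun k _ => ?_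
  rw [← pow_add, ← add_mul]
  congr 2
  rcases Nat.lt_or_ge k N with h | h
  · rw [dig_add_lt hm h, dig_zero_block hm h, add_zero]
  · rw [(dig_block hm hr h).1, (dig_block hm hr (q := q) h).2, zero_add]

include hm in
lemma Psi_low {N n r x y : ℕ} (hN : N ≤ n) (hr : r < MM m N)
    (h : ∀ k < N, dig m k x = dig m k y) : Psi m n r x = Psi m n r y := by
  unfold Psi
  refine prod_congr rfl fun k _ => ?_
  rcases Nat.lt_or_ge k N with hk | hk
  · rw [h k hk]
  · rw [(dig_block hm hr (q := 0) hk).2, zero_mul, zero_mul]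

include hm in
lemma Psi_ratio_low {N n r : ℕ} (hN : N ≤ n) (hr : r < MM m N) (x y : ℕ) :
    Psi m n r x * conj (Psi m n r y) = ∏ k ∈ range N, chi m x y k ^ dig m k r := by
  rw [Psi_ratio]
  symm
  apply prod_subset (range_subset_range.mpr hN)
  intro k _ hk
  rw [mem_range, not_lt] at hk
  rw [(dig_block hm hr (q := 0) hk).2, pow_zero]

include hm in
lemma count_res {N n y : ℕ} (hN : N ≤ n) (hy : y < MM m N) :
    ∑ t ∈ range (MM m n), (if t % MM m N = y then (1 : ℝ) else 0) =
      ((MM m n / MM m N : ℕ) : ℝ) := by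
  rw [sum_res hN _ (fun x => by rw [Nat.mod_mod])]
  have : ∑ x ∈ range (MM m N), (if x % MM m N = y then (1 : ℝ) else 0) = 1 := by
    rw [sum_eq_single y]
    · rw [Nat.mod_eq_of_lt hy, if_pos rfl]
    · intro x hx hne
      rw [Nat.mod_eq_of_lt (mem_range.mp hx), if_neg hne]
    · intro h; exact absurd (mem_range.mpr hy) h
  rw [this, mul_one]

/-- coordinate weights -/
noncomputable def Yk (N k : ℕ) : ℝ := ((N : ℝ) - k) * (1 / 2) ^ (N - 1 - k)

include hm in
theorem offdiag {N n y : ℕ} (hN : N ≤ n) (hy : y < MM m N) {a : ℕ → ℂ} {A : ℝ} (hA : 0 ≤ A)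
    (ha1 : ∀ t, t % MM m N ≠ y → a t = 0) (ha2 : ∀ t, ‖a t‖ ≤ A)
    (ha3 : ∑ t ∈ range (MM m n), a t = 0) {x : ℕ} (hx : x % MM m N ≠ y) :
    ‖Top m n (cw m n) a x‖ ≤ A * ∏ k ∈ (range N).filter (fun k => dig m k x ≠ dig m k y),
      Yk N k := by
  classical
  set S := (range N).filter (fun k => dig m k x ≠ dig m k y) with hS
  have hMN := MM_pos hm N
  have hMNr : (0 : ℝ) < MM m N := by exact_mod_cast hMN
  have hMnr : (0 : ℝ) < MM m n := by exact_mod_cast MM_pos hm n
  have hL := har_pos hm n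
  obtain ⟨Q, hQ⟩ := MM_dvd (m := m) hN
  have hQpos : 0 < Q := by
    rcases Nat.eq_zero_or_pos Q with h | h
    · rw [h, mul_zero] at hQ
      have := MM_pos hm n
      omega
    · exact h
  -- S is nonempty
  have hSne : S.Nonempty := by
    by_contra hcon
    rw [not_nonempty_iff_eq_empty] at hcon
    apply hx
    rw [← Nat.mod_eq_of_lt hy]
    apply mod_eq_of_dig hm
    intro k hk
    by_contra h
    have : k ∈ S := by rw [hS, mem_filter, mem_range]; exact ⟨hk, h⟩
    rw [hcon] at this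
    exact absurd this (notMem_empty k)
  have hj1 : 1 ≤ S.card := hSne.card_pos
  set h : ℕ → ℂ := fun i => ((har (MM m n) - har i : ℝ) : ℂ) with hh
  have hnj : nj (chi m x y) N = S.card := by
    unfold nj
    congr 1
    rw [hS]
    apply filter_congr
    intro k _
    constructor
    · intro h1 h2; exact h1 (chi_self h2)
    · intro h1; exact chi_ne hm h1
  have hW : ∏ k ∈ range N, Wk m (chi m x y) k = (MM m N : ℝ) * ∏ k ∈ S, (MM m (k + 1) : ℝ) := by
    have h1 : ∀ k ∈ range N, Wk m (chi m x y) k =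
        (m k : ℝ) * (if dig m k x ≠ dig m k y then (MM m (k + 1) : ℝ) else 1) := by
      intro k _
      unfold Wk
      by_cases h2 : dig m k x = dig m k y
      · rw [if_pos (chi_self h2), if_neg (by simpa using h2), mul_one]
      · rw [if_neg (chi_ne hm h2), if_pos h2]
    rw [prod_congr rfl h1, prod_mul_distrib, hS, prod_filter]
    congr 1
    have h3 : ∀ n, ∏ k ∈ range n, (m k : ℝ) = (MM m n : ℝ) := by
      intro n
      induction n with
      | zero => simp [MM]
      | succ n ih => rw [prod_range_succ, ih]; simp [MM]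
    exact h3 N
  -- the coefficients
  set α : ℕ → ℂ := fun q => co m n a (q * MM m N) with hα
  have hco : ∀ q, ∀ r < MM m N, co m n a (r + q * MM m N) = conj (Psi m n r y) * α q := by
    intro q r hr
    simp only [hα]
    unfold co
    rw [mul_left_comm]
    congr 1
    rw [mul_sum]
    refine sum_congr rfl fun t _ => ?_
    by_cases ht : t % MM m N = y
    · have h1 : Psi m n r t = Psi m n r y := by
        apply Psi_low hm hN hr
        intro k hk
        rw [← ht, dig_mod hm hk]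
      rw [Psi_block hm hN hr, map_mul, h1]
      ring
    · rw [ha1 t ht]; ring
  have hα0 : α 0 = 0 := by
    simp only [hα]
    unfold co
    have h1 : ∑ t ∈ range (MM m n), a t * conj (Psi m n (0 * MM m N) t) =
        ∑ t ∈ range (MM m n), a t := by
      refine sum_congr rfl fun t _ => ?_
      have : Psi m n (0 * MM m N) t = 1 := by
        unfold Psi
        apply prod_eq_one
        intro k _
        have : dig m k (0 * MM m N) = 0 := by unfold dig; simp
        rw [this, zero_mul, pow_zero]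
      rw [this, map_one, mul_one]
    rw [h1, ha3, mul_zero]
  have hαb : ∀ q, ‖α q‖ ≤ A / MM m N := by
    intro q
    simp only [hα]
    unfold co
    rw [norm_mul]
    have h1 : ‖∑ t ∈ range (MM m n), a t * conj (Psi m n (q * MM m N) t)‖ ≤
        A * ((MM m n / MM m N : ℕ) : ℝ) := by
      rw [← count_res hm hN hy, mul_sum]
      refine (norm_sum_le _ _).trans (sum_le_sum fun t _ => ?_)
      rw [norm_mul, RCLike.norm_conj, Psi_norm, mul_one]
      split_ifs with h2
      · rw [mul_one]; exact ha2 t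
      · rw [ha1 t h2, norm_zero, mul_zero]
    have h2 : ‖(1 / (MM m n : ℂ))‖ = 1 / (MM m n : ℝ) := by simp
    rw [h2]
    refine (mul_le_mul_of_nonneg_left h1 (by positivity)).trans (le_of_eq ?_)
    rw [hQ, Nat.mul_div_cancel_left _ hMN]
    have hQr : (Q : ℝ) ≠ 0 := by exact_mod_cast hQpos.ne'
    push_cast
    field_simp
  -- the formula
  have hform : Top m n (cw m n) a x = ∑ q ∈ range Q, α q * Psi m n (q * MM m N) x *
      ((1 / (har (MM m n) : ℂ)) * Phi m N (chi m x y) h (q * MM m N)) := by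
    unfold Top
    have hQ' : MM m n = MM m N * Q := hQ
    conv_lhs => rw [show range (MM m n) = range (MM m N * Q) by rw [hQ']]
    rw [sum_mul_range]
    refine sum_congr rfl fun q _ => ?_
    unfold Phi
    rw [mul_sum, mul_sum]
    refine sum_congr rfl fun r hr => ?_
    have hr' := mem_range.mp hr
    rw [hco q r hr', Psi_block hm hN hr', ← Psi_ratio_low hm hN hr']
    unfold cw
    simp only [hh]
    rw [add_comm (q * MM m N) r]
    push_cast
    ring
  rw [hform]
  -- bound of one term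
  have hterm : ∀ q ∈ range Q, ‖α q * Psi m n (q * MM m N) x *
      ((1 / (har (MM m n) : ℂ)) * Phi m N (chi m x y) h (q * MM m N))‖ ≤
      (if q = 0 then 0 else 1 / (q : ℝ)) * (1 / har (MM m n)) *
        (A * ((S.card.factorial : ℝ) * ∏ k ∈ S, ((MM m (k + 1) : ℝ) / MM m N))) := by
    intro q _
    by_cases hq : q = 0
    · rw [if_pos hq, hq, hα0]; simp
    rw [if_neg hq]
    have hq1 : 1 ≤ q := Nat.one_le_iff_ne_zero.mpr hq
    have hqr : (1 : ℝ) ≤ q := by exact_mod_cast hq1
    have hx1 : 1 ≤ q * MM m N := Nat.one_le_iff_ne_zero.mpr (by positivity)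
    have hPhi := Phi_bound hm (chi m x y) (chi_norm x y) (chi_pow hm x y) N h (q * MM m N)
      ((S.card.factorial : ℝ) / ((q * MM m N : ℕ) : ℝ) ^ S.card) (by positivity) (by
        intro z hz
        rw [hnj]
        exact har_bound _ hj1 hx1 hz)
    rw [hW] at hPhi
    rw [norm_mul, norm_mul, norm_mul, Psi_norm, mul_one]
    have h1 : ‖(1 / (har (MM m n) : ℂ))‖ = 1 / har (MM m n) := by
      rw [norm_div, norm_one, Complex.norm_real, Real.norm_eq_abs, abs_of_pos hL]
    rw [h1]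
    have h2 : ‖α q‖ * (1 / har (MM m n) * ‖Phi m N (chi m x y) h (q * MM m N)‖) ≤
        (A / MM m N) * (1 / har (MM m n) * (((MM m N : ℝ) * ∏ k ∈ S, (MM m (k + 1) : ℝ)) *
          ((S.card.factorial : ℝ) / ((q * MM m N : ℕ) : ℝ) ^ S.card))) :=
      mul_le_mul (hαb q) (mul_le_mul_of_nonneg_left hPhi (by positivity)) (by positivity)
        (by positivity)
    refine h2.trans ?_
    have h3 : ∏ k ∈ S, ((MM m (k + 1) : ℝ) / MM m N) =
        (∏ k ∈ S, (MM m (k + 1) : ℝ)) / (MM m N : ℝ) ^ S.card := by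
      rw [prod_div_distrib, prod_const]
    rw [h3]
    have h4 : (1 : ℝ) / (q : ℝ) ^ S.card ≤ 1 / q := by
      apply one_div_le_one_div_of_le (by positivity)
      calc (q : ℝ) = (q : ℝ) ^ 1 := (pow_one _).symm
        _ ≤ _ := pow_le_pow_right₀ hqr hj1
    have h5 : 0 ≤ (1 / har (MM m n)) * (A * ((S.card.factorial : ℝ) *
        ((∏ k ∈ S, (MM m (k + 1) : ℝ)) / (MM m N : ℝ) ^ S.card))) := by positivity
    have h6 := mul_le_mul_of_nonneg_right h4 h5
    refine le_trans (le_of_eq ?_) (h6.trans (le_of_eq ?_))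
    · push_cast
      rw [mul_pow]
      field_simp
    · ring
  refine (norm_sum_le _ _).trans ((sum_le_sum hterm).trans ?_)
  rw [← sum_mul, ← sum_mul]
  have hsumq : ∑ q ∈ range Q, (if q = 0 then (0 : ℝ) else 1 / (q : ℝ)) ≤ har (MM m n) := by
    obtain ⟨Q', rfl⟩ : ∃ Q', Q = Q' + 1 := ⟨Q - 1, by omega⟩
    rw [sum_range_succ', if_pos rfl, add_zero]
    have h1 : ∑ k ∈ range Q', (if k + 1 = 0 then (0 : ℝ) else 1 / ((k + 1 : ℕ) : ℝ)) = har Q' := by
      unfold har
      refine sum_congr rfl fun k _ => ?_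
      rw [if_neg (by omega)]
      push_cast; rfl
    rw [h1]
    apply har_mono
    have : Q' + 1 ≤ MM m N * (Q' + 1) := Nat.le_mul_of_pos_left _ hMN
    omega
  have hfac := factorial_le S (N := N) (by rw [hS]; exact filter_subset _ _)
  have hprod0 : 0 ≤ ∏ k ∈ S, ((MM m (k + 1) : ℝ) / MM m N) :=
    prod_nonneg fun k _ => by positivity
  have hYprod : (∏ k ∈ S, ((N : ℝ) - k)) * ∏ k ∈ S, ((MM m (k + 1) : ℝ) / MM m N) ≤
      ∏ k ∈ S, Yk N k := by
    rw [← prod_mul_distrib]
    apply prod_le_prod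
    · intro k hk
      have : k < N := by
        rw [hS, mem_filter, mem_range] at hk; exact hk.1
      have : (k : ℝ) ≤ N := by exact_mod_cast this.le
      apply mul_nonneg (by linarith) (by positivity)
    · intro k hk
      have hkN : k < N := by
        rw [hS, mem_filter, mem_range] at hk; exact hk.1
      unfold Yk
      have : (k : ℝ) ≤ N := by exact_mod_cast hkN.le
      apply mul_le_mul_of_nonneg_left _ (by linarith)
      rw [div_le_iff₀ hMNr]
      have h1 := two_pow_le hm (Nat.succ_le_of_lt hkN)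
      rw [Nat.succ_eq_add_one] at h1
      have e1 : N - (k + 1) = N - 1 - k := by omega
      rw [e1] at h1
      have h2 : (MM m (k + 1) : ℝ) * 2 ^ (N - 1 - k) ≤ MM m N := by exact_mod_cast h1
      have h3 : (2 : ℝ) ^ (N - 1 - k) * (1 / 2) ^ (N - 1 - k) = 1 := by
        rw [← mul_pow]; norm_num
      calc (MM m (k + 1) : ℝ) = (MM m (k + 1) : ℝ) * 2 ^ (N - 1 - k) * (1 / 2) ^ (N - 1 - k) := by
            rw [mul_assoc, h3, mul_one]
        _ ≤ MM m N * (1 / 2) ^ (N - 1 - k) := mul_le_mul_of_nonneg_right h2 (by positivity)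
        _ = _ := by ring
  have h7 : (∑ q ∈ range Q, (if q = 0 then (0 : ℝ) else 1 / (q : ℝ))) * (1 / har (MM m n)) ≤ 1 := by
    rw [mul_one_div, div_le_one hL]
    exact hsumq
  have h8 : 0 ≤ A * ((S.card.factorial : ℝ) * ∏ k ∈ S, ((MM m (k + 1) : ℝ) / MM m N)) := by
    positivity
  refine (mul_le_of_le_one_left h8 h7).trans ?_
  apply mul_le_mul_of_nonneg_left _ hA
  exact (mul_le_mul_of_nonneg_right hfac hprod0).trans hYprod

/-! ### `p`-norms -/

lemma Yk_nonneg {N k : ℕ} (h : k < N) : 0 ≤ Yk N k := by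
  unfold Yk
  have : (k : ℝ) ≤ N := by exact_mod_cast h.le
  apply mul_nonneg (by linarith) (by positivity)

lemma Yk_le {N k : ℕ} (h : k < N) : Yk N k ≤ 2 * (3 / 4) ^ (N - 1 - k) := by
  unfold Yk
  obtain ⟨t, ht⟩ : ∃ t, N = k + 1 + t := ⟨N - (k + 1), by omega⟩
  have e1 : N - 1 - k = t := by omega
  have e2 : (N : ℝ) - k = t + 1 := by rw [ht]; push_cast; ring
  rw [e1, e2]
  have h1 : 1 + (t : ℝ) * (1 / 2) ≤ (1 + 1 / 2) ^ t := one_add_mul_le_pow (by norm_num) t
  have h2 : (3 / 4 : ℝ) ^ t = (3 / 2) ^ t * (1 / 2) ^ t := by rw [← mul_pow]; norm_num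
  have h3 : (1 + 1 / 2 : ℝ) = 3 / 2 := by norm_num
  rw [h3] at h1
  rw [h2, ← mul_assoc]
  apply mul_le_mul_of_nonneg_right _ (by positivity)
  have : (0 : ℝ) ≤ t := Nat.cast_nonneg _
  linarith

/-- the off-diagonal constant -/
noncomputable def Coff (B p : ℝ) : ℝ := Real.exp (B * (2 ^ p / (1 - (3 / 4) ^ p)))

lemma ratio_lt {p : ℝ} (hp : 0 < p) : (3 / 4 : ℝ) ^ p < 1 :=
  Real.rpow_lt_one (by norm_num) (by norm_num) hp

include hm in
lemma sum_Y {B : ℝ} (hB : ∀ k, (m k : ℝ) ≤ B) {p : ℝ} (hp : 0 < p) (N y : ℕ) :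
    ∏ k ∈ range N, ∑ c ∈ range (m k), (if c ≠ dig m k y then Yk N k ^ p else 1) ≤ Coff B p := by
  classical
  have hB0 : 0 ≤ B := (Nat.cast_nonneg _).trans (hB 0)
  have h1 : ∀ k ∈ range N, ∑ c ∈ range (m k), (if c ≠ dig m k y then Yk N k ^ p else 1) ≤
      Real.exp (B * (2 ^ p * ((3 / 4) ^ p) ^ (N - 1 - k))) := by
    intro k hk
    have hkN := mem_range.mp hk
    have hY0 := Yk_nonneg hkN
    have hYp : 0 ≤ Yk N k ^ p := Real.rpow_nonneg hY0 p
    have hY : Yk N k ^ p ≤ 2 ^ p * ((3 / 4) ^ p) ^ (N - 1 - k) := by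
      have h2 := Real.rpow_le_rpow hY0 (Yk_le hkN) hp.le
      rw [Real.mul_rpow (by norm_num) (by positivity)] at h2
      have h3 : (((3 / 4 : ℝ)) ^ (N - 1 - k)) ^ p = ((3 / 4) ^ p) ^ (N - 1 - k) := by
        rw [← Real.rpow_natCast, ← Real.rpow_natCast, ← Real.rpow_mul (by norm_num),
          ← Real.rpow_mul (by norm_num), mul_comm]
      rwa [h3] at h2
    have h4 : ∑ c ∈ range (m k), (if c ≠ dig m k y then Yk N k ^ p else 1) ≤
        1 + m k * Yk N k ^ p := by
      calc ∑ c ∈ range (m k), (if c ≠ dig m k y then Yk N k ^ p else 1)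
          ≤ ∑ c ∈ range (m k), ((if c = dig m k y then 1 else 0) + Yk N k ^ p) := by
            refine sum_le_sum fun c _ => ?_
            by_cases hc : c = dig m k y
            · rw [if_neg (by simpa using hc), if_pos hc]; linarith
            · rw [if_pos hc, if_neg hc]; linarith
        _ ≤ 1 + m k * Yk N k ^ p := by
            rw [sum_add_distrib, sum_ite_eq', sum_const, card_range, nsmul_eq_mul]
            apply add_le_add _ le_rfl
            split_ifs <;> norm_num
    calc _ ≤ 1 + m k * Yk N k ^ p := h4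
      _ ≤ 1 + B * (2 ^ p * ((3 / 4) ^ p) ^ (N - 1 - k)) := by
          apply add_le_add le_rfl
          exact mul_le_mul (hB k) hY hYp hB0
      _ ≤ _ := by
          have := Real.add_one_le_exp (B * (2 ^ p * ((3 / 4) ^ p) ^ (N - 1 - k)))
          linarith
  refine (prod_le_prod (fun k hk => sum_nonneg fun c _ => ?_) h1).trans ?_
  · split_ifs
    · exact Real.rpow_nonneg (Yk_nonneg (mem_range.mp hk)) p
    · norm_num
  rw [← Real.exp_sum]
  unfold Coff
  apply Real.exp_le_exp.mpr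
  rw [← mul_sum]
  apply mul_le_mul_of_nonneg_left _ hB0
  rw [← mul_sum, sum_range_reflect (fun j => (((3 / 4 : ℝ)) ^ p) ^ j) N]
  have hr := ratio_lt hp
  have hr0 : (0 : ℝ) ≤ (3 / 4) ^ p := by positivity
  have hs : ∑ j ∈ range N, (((3 / 4 : ℝ)) ^ p) ^ j ≤ (1 - (3 / 4 : ℝ) ^ p)⁻¹ := by
    rw [← tsum_geometric_of_lt_one hr0 hr]
    exact (summable_geometric_of_lt_one hr0 hr).sum_le_tsum _ (fun i _ => by positivity)
  have h2 := mul_le_mul_of_nonneg_left hs (by positivity : (0 : ℝ) ≤ 2 ^ p)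
  rwa [← div_eq_mul_inv] at h2

lemma rpow_le_sq {u p : ℝ} (hu : 0 ≤ u) (hp : 0 < p) (hp2 : p ≤ 2) : u ^ p ≤ 1 + u ^ 2 := by
  rcases le_total u 1 with h | h
  · have := Real.rpow_le_one hu h hp.le
    nlinarith [sq_nonneg u]
  · have := Real.rpow_le_rpow_of_exponent_le h hp2
    rw [Real.rpow_two] at this
    linarith

/-- scaled version -/
lemma rpow_scale {u A p : ℝ} (hu : 0 ≤ u) (hA : 0 < A) (hp : 0 < p) (hp2 : p ≤ 2) :
    u ^ p ≤ A ^ p * (1 + u ^ 2 / A ^ 2) := by
  have h := rpow_le_sq (div_nonneg hu hA.le) hp hp2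
  rw [Real.div_rpow hu hA.le, div_le_iff₀ (by positivity), div_pow] at h
  linarith

include hm in
/-- bounded functions -/
theorem bdd_est {n : ℕ} {g : ℕ → ℂ} {A p : ℝ} (hA : 0 < A) (hp : 0 < p) (hp2 : p ≤ 2)
    (hg : ∀ t, ‖g t‖ ≤ A) : ∑ x ∈ range (MM m n), ‖Top m n (cw m n) g x‖ ^ p ≤
      2 * A ^ p * MM m n := by
  have h1 := Top_L2 hm n (cw m n) (fun i hi => cw_le hm n hi) g
  have h2 : ∑ t ∈ range (MM m n), ‖g t‖ ^ 2 ≤ MM m n * A ^ 2 := by
    calc ∑ t ∈ range (MM m n), ‖g t‖ ^ 2 ≤ ∑ t ∈ range (MM m n), A ^ 2 :=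
          sum_le_sum fun t _ => pow_le_pow_left₀ (norm_nonneg _) (hg t) 2
      _ = _ := by rw [sum_const, card_range, nsmul_eq_mul]
  calc ∑ x ∈ range (MM m n), ‖Top m n (cw m n) g x‖ ^ p
      ≤ ∑ x ∈ range (MM m n), A ^ p * (1 + ‖Top m n (cw m n) g x‖ ^ 2 / A ^ 2) :=
        sum_le_sum fun x _ => rpow_scale (norm_nonneg _) hA hp hp2
    _ = A ^ p * (MM m n + (∑ x ∈ range (MM m n), ‖Top m n (cw m n) g x‖ ^ 2) / A ^ 2) := by
        rw [← mul_sum, sum_add_distrib, sum_const, card_range, nsmul_eq_mul, mul_one, sum_div]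
    _ ≤ A ^ p * (MM m n + (MM m n * A ^ 2) / A ^ 2) := by
        apply mul_le_mul_of_nonneg_left _ (by positivity)
        apply add_le_add le_rfl
        exact div_le_div_of_nonneg_right (h1.trans h2) (by positivity)
    _ = _ := by field_simp; ring

include hm in
/-- the atom estimate -/
theorem atom_est {B : ℝ} (hB : ∀ k, (m k : ℝ) ≤ B) {N n y : ℕ} (hN : N ≤ n) (hy : y < MM m N)
    {a : ℕ → ℂ} {A p : ℝ} (hA : 0 < A) (hp : 0 < p) (hp2 : p ≤ 2)
    (ha1 : ∀ t, t % MM m N ≠ y → a t = 0) (ha2 : ∀ t, ‖a t‖ ≤ A)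
    (ha3 : ∑ t ∈ range (MM m n), a t = 0) :
    ∑ x ∈ range (MM m n), ‖Top m n (cw m n) a x‖ ^ p ≤
      (2 + Coff B p) * A ^ p * ((MM m n / MM m N : ℕ) : ℝ) := by
  classical
  set R : ℝ := ((MM m n / MM m N : ℕ) : ℝ) with hR
  have h1 := Top_L2 hm n (cw m n) (fun i hi => cw_le hm n hi) a
  have h2 : ∑ t ∈ range (MM m n), ‖a t‖ ^ 2 ≤ A ^ 2 * R := by
    rw [hR, ← count_res hm hN hy, mul_sum]
    refine sum_le_sum fun t _ => ?_
    split_ifs with h
    · rw [mul_one]; exact pow_le_pow_left₀ (norm_nonneg _) (ha2 t) 2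
    · rw [ha1 t h]; simp
  have hpt : ∀ x, ‖Top m n (cw m n) a x‖ ^ p ≤
      A ^ p * ((if x % MM m N = y then 1 else 0) + ‖Top m n (cw m n) a x‖ ^ 2 / A ^ 2) +
      A ^ p * ∏ k ∈ range N, (fun k c => if c ≠ dig m k y then Yk N k ^ p else 1) k (dig m k x) := by
    intro x
    have hprod0 : 0 ≤ ∏ k ∈ range N,
        (fun k c => if c ≠ dig m k y then Yk N k ^ p else 1) k (dig m k x) := by
      apply prod_nonneg
      intro k hk
      simp only
      split_ifs
      · exact Real.rpow_nonneg (Yk_nonneg (mem_range.mp hk)) p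
      · norm_num
    by_cases hx : x % MM m N = y
    · rw [if_pos hx]
      have := rpow_scale (norm_nonneg (Top m n (cw m n) a x)) hA hp hp2
      have h3 : 0 ≤ A ^ p * ∏ k ∈ range N,
        (fun k c => if c ≠ dig m k y then Yk N k ^ p else 1) k (dig m k x) :=
        mul_nonneg (by positivity) hprod0
      linarith
    · rw [if_neg hx]
      have h3 := offdiag hm hN hy hA.le ha1 ha2 ha3 hx
      have h4 := Real.rpow_le_rpow (norm_nonneg _) h3 hp.le
      have h5 : 0 ≤ ∏ k ∈ (range N).filter (fun k => dig m k x ≠ dig m k y), Yk N k :=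
        prod_nonneg fun k hk => Yk_nonneg (mem_range.mp (mem_filter.mp hk).1)
      rw [Real.mul_rpow hA.le h5] at h4
      have h6 : (∏ k ∈ (range N).filter (fun k => dig m k x ≠ dig m k y), Yk N k) ^ p =
          ∏ k ∈ range N, (fun k c => if c ≠ dig m k y then Yk N k ^ p else 1) k (dig m k x) := by
        rw [← Real.finsetProd_rpow _ _ (fun k hk => Yk_nonneg (mem_range.mp (mem_filter.mp hk).1)),
          prod_filter]
      rw [h6] at h4
      have h7 : 0 ≤ A ^ p * (0 + ‖Top m n (cw m n) a x‖ ^ 2 / A ^ 2) := by positivity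
      linarith
  refine (sum_le_sum fun x _ => hpt x).trans ?_
  rw [sum_add_distrib, ← mul_sum, ← mul_sum, sum_add_distrib, count_res hm hN hy, ← sum_div]
  have hF : ∀ x, ∏ k ∈ range N, (fun k c => if c ≠ dig m k y then Yk N k ^ p else 1) k (dig m k x) =
      ∏ k ∈ range N, (fun k c => if c ≠ dig m k y then Yk N k ^ p else 1) k
        (dig m k (x % MM m N)) := by
    intro x
    refine prod_congr rfl fun k hk => ?_
    rw [dig_mod hm (mem_range.mp hk)]
  rw [sum_res hN _ hF, sum_prod hm N (fun k c => if c ≠ dig m k y then Yk N k ^ p else 1)]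
  have h8 := sum_Y hm hB hp N y
  have hR0 : 0 ≤ R := Nat.cast_nonneg _
  have h9 : (∑ x ∈ range (MM m n), ‖Top m n (cw m n) a x‖ ^ 2) / A ^ 2 ≤ R := by
    rw [div_le_iff₀ (by positivity)]
    linarith
  have hAp : 0 < A ^ p := by positivity
  have h10 : A ^ p * (R + (∑ x ∈ range (MM m n), ‖Top m n (cw m n) a x‖ ^ 2) / A ^ 2) ≤
      A ^ p * (R + R) := mul_le_mul_of_nonneg_left (add_le_add le_rfl h9) hAp.le
  have h11 := mul_le_mul_of_nonneg_left h8 (mul_nonneg hAp.le hR0)
  rw [← hR]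
  linarith

end Pool.Agent.X203.VL
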