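import Mathlib
import Pool.Agent.X203.VLD

set_option linter.unusedSectionVars false
set_option linter.unusedSimpArgs false
set_option linter.unusedVariables false

/-! Stopping time decomposition of finite martingales. -/

namespace Pool.Agent.X203.VL

open Finset ComplexConjugate

variable {m : ℕ → ℕ} (hm : ∀ k, 2 ≤ m k)

/-- finite-level martingale -/
structure Mart (m : ℕ → ℕ) (f : ℕ → ℕ → ℂ) : Prop where
  res : ∀ j x, f j x = f j (x % MM m j)
  avg : ∀ j, ∀ x < MM m j, ∑ c ∈ range (m j), f (j + 1) (x + c * MM m j) = (m j : ℂ) * f j x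

/-- not yet stopped -/
def Alive (m : ℕ → ℕ) (f : ℕ → ℕ → ℂ) (τ : ℝ) (j x : ℕ) : Prop :=
  ∀ i < j, ∀ c < m i, ‖f (i + 1) (x % MM m i + c * MM m i)‖ ≤ τ

variable {f : ℕ → ℕ → ℂ} {τ τ' : ℝ}

lemma Alive_zero (x : ℕ) : Alive m f τ 0 x := fun i hi => absurd hi (Nat.not_lt_zero i)

lemma Alive_mono {j j' x : ℕ} (h : j ≤ j') (ha : Alive m f τ j' x) : Alive m f τ j x :=
  fun i hi => ha i (by omega)

lemma Alive_tau {j x : ℕ} (h : τ ≤ τ') (ha : Alive m f τ j x) : Alive m f τ' j x :=
  fun i hi c hc => (ha i hi c hc).trans h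

lemma Alive_succ {j x : ℕ} : Alive m f τ (j + 1) x ↔
    Alive m f τ j x ∧ ∀ c < m j, ‖f (j + 1) (x % MM m j + c * MM m j)‖ ≤ τ := by
  constructor
  · intro h
    exact ⟨Alive_mono (Nat.le_succ j) h, h j (Nat.lt_succ_self j)⟩
  · rintro ⟨h1, h2⟩ i hi
    rcases Nat.lt_succ_iff_lt_or_eq.mp hi with h | h
    · exact h1 i h
    · subst h; exact h2

lemma Alive_mod {j l x : ℕ} (h : j ≤ l + 1) : Alive m f τ j (x % MM m l) ↔ Alive m f τ j x := by
  unfold Alive
  constructor
  · intro ha i hi
    have := ha i hi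
    rwa [mod_mod (by omega)] at this
  · intro ha i hi
    rw [mod_mod (by omega)]
    exact ha i hi

include hm in
lemma Alive_le (hf : Mart m f) {j x : ℕ} (h : Alive m f τ (j + 1) x) : ‖f (j + 1) x‖ ≤ τ := by
  rw [hf.res, mod_succ]
  exact (Alive_succ.mp h).2 _ (dig_lt hm j x)

open Classical in
/-- stopped martingale -/
noncomputable def st (m : ℕ → ℕ) (f : ℕ → ℕ → ℂ) (τ : ℝ) (l x : ℕ) : ℂ :=
  f 0 x + ∑ j ∈ range l, if Alive m f τ (j + 1) x then f (j + 1) x - f j x else 0

lemma st_alive {l x : ℕ} (h : Alive m f τ l x) : st m f τ l x = f l x := by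
  classical
  unfold st
  have : ∀ j ∈ range l, (if Alive m f τ (j + 1) x then f (j + 1) x - f j x else 0) =
      f (j + 1) x - f j x := fun j hj => by
    rw [mem_range] at hj
    rw [if_pos (Alive_mono (by omega) h)]
  rw [sum_congr rfl this, sum_range_sub (fun j => f j x)]
  ring

include hm in
lemma st_bound (hf : Mart m f) (h0 : ∀ x, ‖f 0 x‖ ≤ τ) (l x : ℕ) : ‖st m f τ l x‖ ≤ τ := by
  classical
  induction l with
  | zero => unfold st; simpa using h0 x
  | succ l ih =>
    by_cases h : Alive m f τ (l + 1) x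
    · rw [st_alive h]; exact Alive_le hm hf h
    · have : st m f τ (l + 1) x = st m f τ l x := by
        unfold st
        rw [sum_range_succ, if_neg h, add_zero]
      rw [this]; exact ih

/-- stopping at level `j` -/
def Stp (m : ℕ → ℕ) (f : ℕ → ℕ → ℂ) (τ : ℝ) (j x : ℕ) : Prop :=
  Alive m f τ j x ∧ ¬ Alive m f τ (j + 1) x

/-- difference of stopped martingales -/
noncomputable def bb (m : ℕ → ℕ) (f : ℕ → ℕ → ℂ) (τ τ' : ℝ) (n x : ℕ) : ℂ :=
  st m f τ' n x - st m f τ n x

include hm in
lemma mart_sum (hf : Mart m f) {i n : ℕ} (h : i < n) (φ : ℕ → ℂ) :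
    ∑ x ∈ range (MM m n), φ (x % MM m i) * (f (i + 1) x - f i x) = 0 := by
  have hF : ∀ x, φ (x % MM m i) * (f (i + 1) x - f i x) =
      φ (x % MM m (i + 1) % MM m i) * (f (i + 1) (x % MM m (i + 1)) - f i (x % MM m (i + 1))) := by
    intro x
    rw [mod_mod (Nat.le_succ i), ← hf.res (i + 1) x, hf.res i (x % MM m (i + 1)),
      mod_mod (Nat.le_succ i), ← hf.res i x]
  rw [sum_res (Nat.succ_le_of_lt h) (fun x => φ (x % MM m i) * (f (i + 1) x - f i x)) hF, sum_succ,
    sum_comm]
  have h0 : ∑ u ∈ range (MM m i), ∑ c ∈ range (m i), φ ((u + c * MM m i) % MM m i) *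
      (f (i + 1) (u + c * MM m i) - f i (u + c * MM m i)) = 0 := by
    apply sum_eq_zero
    intro u hu
    have hu' := mem_range.mp hu
    have h1 : ∀ c ∈ range (m i), φ ((u + c * MM m i) % MM m i) *
        (f (i + 1) (u + c * MM m i) - f i (u + c * MM m i)) =
        φ u * (f (i + 1) (u + c * MM m i) - f i u) := by
      intro c _
      rw [hf.res i (u + c * MM m i), Nat.add_mul_mod_self_right, Nat.mod_eq_of_lt hu']
    rw [sum_congr rfl h1, ← mul_sum, sum_sub_distrib, hf.avg i u hu', sum_const, card_range,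
      nsmul_eq_mul, sub_self, mul_zero]
  rw [h0, mul_zero]

open Classical in
include hm in
lemma atom_mean (hf : Mart m f) (hττ : τ ≤ τ') {j n y : ℕ} (hj : j < n) (hs : Stp m f τ j y) :
    ∑ x ∈ range (MM m n), (if x % MM m j = y then bb m f τ τ' n x else 0) = 0 := by
  have h1 : ∀ x, (if x % MM m j = y then bb m f τ τ' n x else 0) = ∑ i ∈ range n,
      (if j ≤ i ∧ x % MM m i % MM m j = y ∧ Alive m f τ' (i + 1) (x % MM m i) then (1 : ℂ) else 0) *
        (f (i + 1) x - f i x) := by
    intro x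
    by_cases hx : x % MM m j = y
    · rw [if_pos hx]
      unfold bb st
      rw [add_sub_add_left_eq_sub, ← sum_sub_distrib]
      refine sum_congr rfl fun i hi => ?_
      rcases Nat.lt_or_ge i j with hij | hij
      · have a1 : Alive m f τ (i + 1) x := by
          rw [← Alive_mod (l := j) (by omega), hx]
          exact Alive_mono (by omega) hs.1
        rw [if_pos a1, if_pos (Alive_tau hττ a1), sub_self, if_neg (by omega), zero_mul]
      · have a1 : ¬ Alive m f τ (i + 1) x := by
          intro h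
          apply hs.2
          have h2 : Alive m f τ (j + 1) x := Alive_mono (by omega) h
          rwa [← Alive_mod (l := j) le_rfl, hx] at h2
        rw [if_neg a1, sub_zero]
        by_cases a2 : Alive m f τ' (i + 1) x
        · rw [if_pos a2, if_pos ⟨hij, by rw [mod_mod hij]; exact hx,
            (Alive_mod (l := i) le_rfl).mpr a2⟩, one_mul]
        · rw [if_neg a2, if_neg (fun h => a2 ((Alive_mod (l := i) le_rfl).mp h.2.2)), zero_mul]
    · rw [if_neg hx]
      symm
      apply sum_eq_zero
      intro i _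
      rw [if_neg, zero_mul]
      rintro ⟨hij, h2, -⟩
      rw [mod_mod hij] at h2
      exact hx h2
  rw [sum_congr rfl fun x _ => h1 x, sum_comm]
  apply sum_eq_zero
  intro i hi
  exact mart_sum hm hf (mem_range.mp hi)
    (fun u => if j ≤ i ∧ u % MM m j = y ∧ Alive m f τ' (i + 1) u then (1 : ℂ) else 0)

open Classical in
lemma stop_tele (n x : ℕ) : ∑ j ∈ range n, (if Stp m f τ j x then (1 : ℂ) else 0) =
    1 - (if Alive m f τ n x then 1 else 0) := by
  induction n with
  | zero => simp [Alive_zero]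
  | succ n ih =>
    rw [sum_range_succ, ih]
    unfold Stp
    by_cases h1 : Alive m f τ (n + 1) x
    · have h2 := Alive_mono (Nat.le_succ n) h1
      simp [h1, h2]
    · by_cases h2 : Alive m f τ n x
      · simp [h1, h2]
      · simp [h1, h2]

open Classical in
lemma bb_decomp (hττ : τ ≤ τ') (hmpos : ∀ j, 0 < MM m j) (n x : ℕ) : bb m f τ τ' n x =
    ∑ j ∈ range n, ∑ y ∈ range (MM m j), (if Stp m f τ j y then
      (if x % MM m j = y then bb m f τ τ' n x else 0) else 0) := by
  have h1 : ∀ j ∈ range n, ∑ y ∈ range (MM m j), (if Stp m f τ j y then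
      (if x % MM m j = y then bb m f τ τ' n x else 0) else 0) =
      (if Stp m f τ j x then (1 : ℂ) else 0) * bb m f τ τ' n x := by
    intro j _
    rw [sum_eq_single (x % MM m j)]
    · have h2 : Stp m f τ j (x % MM m j) ↔ Stp m f τ j x := by
        unfold Stp
        rw [Alive_mod (by omega), Alive_mod (by omega)]
      rw [if_pos rfl]
      by_cases h3 : Stp m f τ j x
      · rw [if_pos (h2.mpr h3), if_pos h3, one_mul]
      · rw [if_neg (fun h => h3 (h2.mp h)), if_neg h3, zero_mul]
    · intro y _ hne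
      have h4 : ¬ (x % MM m j = y) := fun h => hne h.symm
      simp only [if_neg h4, ite_self]
    · intro h
      exact absurd (mem_range.mpr (Nat.mod_lt _ (hmpos j))) h
  rw [sum_congr rfl h1, ← sum_mul, stop_tele]
  by_cases h : Alive m f τ n x
  · have : bb m f τ τ' n x = 0 := by
      unfold bb
      rw [st_alive h, st_alive (Alive_tau hττ h), sub_self]
    rw [this, mul_zero]
  · rw [if_neg h, sub_zero, one_mul]

open Classical in
include hm in
lemma stop_count (hf : Mart m f) {B : ℝ} (hB : ∀ k, (m k : ℝ) ≤ B) {n : ℕ} {G : ℕ → ℝ}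
    (hG : ∀ j ≤ n, ∀ x, ‖f j x‖ ≤ G x) :
    ∑ j ∈ range n, ∑ y ∈ range (MM m j), (if Stp m f τ j y then
      ((MM m n / MM m j : ℕ) : ℝ) else 0) ≤
      B * ∑ x ∈ range (MM m n), (if τ < G x then (1 : ℝ) else 0) := by
  have hB0 : 0 ≤ B := (Nat.cast_nonneg _).trans (hB 0)
  have h1 : ∀ j ∈ range n, ∑ y ∈ range (MM m j), (if Stp m f τ j y then
      ((MM m n / MM m j : ℕ) : ℝ) else 0) ≤
      B * ∑ x ∈ range (MM m n),
        (if Alive m f τ j x ∧ τ < ‖f (j + 1) x‖ then (1 : ℝ) else 0) := by
    intro j hj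
    have hj' := mem_range.mp hj
    have hF : ∀ x, (if Alive m f τ j x ∧ τ < ‖f (j + 1) x‖ then (1 : ℝ) else 0) =
        (if Alive m f τ j (x % MM m (j + 1)) ∧ τ < ‖f (j + 1) (x % MM m (j + 1))‖
          then (1 : ℝ) else 0) := by
      intro x
      rw [← hf.res (j + 1) x]
      have : Alive m f τ j (x % MM m (j + 1)) ↔ Alive m f τ j x := Alive_mod (by omega)
      simp only [this]
    rw [sum_res (Nat.succ_le_of_lt hj') _ hF, sum_succ, sum_comm]
    have hR : ((MM m n / MM m j : ℕ) : ℝ) = m j * ((MM m n / MM m (j + 1) : ℕ) : ℝ) := by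
      obtain ⟨t, ht⟩ := MM_dvd (m := m) (Nat.succ_le_of_lt hj')
      have p1 := MM_pos hm j
      have p2 := MM_pos hm (j + 1)
      have e1 : MM m n / MM m (j + 1) = t := by
        rw [ht]; exact Nat.mul_div_cancel_left _ p2
      have e2 : MM m n / MM m j = m j * t := by
        rw [ht]
        show MM m j * m j * t / MM m j = _
        rw [mul_assoc]; exact Nat.mul_div_cancel_left _ p1
      rw [e1, e2]; push_cast; rfl
    rw [← mul_assoc, mul_sum]
    refine sum_le_sum fun y hy => ?_
    have hy' := mem_range.mp hy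
    have hsum0 : 0 ≤ ∑ c ∈ range (m j), (if Alive m f τ j (y + c * MM m j) ∧
        τ < ‖f (j + 1) (y + c * MM m j)‖ then (1 : ℝ) else 0) :=
      sum_nonneg fun c _ => by split_ifs <;> norm_num
    split_ifs with hs
    · have h2 : ∃ c < m j, τ < ‖f (j + 1) (y + c * MM m j)‖ := by
        by_contra hcon
        push Not at hcon
        apply hs.2
        rw [Alive_succ]
        refine ⟨hs.1, fun c hc => ?_⟩
        rw [Nat.mod_eq_of_lt hy']
        exact hcon c hc
      obtain ⟨c₀, hc₀, hc1⟩ := h2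
      have h3 : (1 : ℝ) ≤ ∑ c ∈ range (m j), (if Alive m f τ j (y + c * MM m j) ∧
          τ < ‖f (j + 1) (y + c * MM m j)‖ then (1 : ℝ) else 0) := by
        have h4 := single_le_sum (f := fun c => (if Alive m f τ j (y + c * MM m j) ∧
          τ < ‖f (j + 1) (y + c * MM m j)‖ then (1 : ℝ) else 0))
          (fun c _ => by split_ifs <;> norm_num) (mem_range.mpr hc₀)
        have h5 : Alive m f τ j (y + c₀ * MM m j) := by
          rw [← Alive_mod (l := j) (by omega), Nat.add_mul_mod_self_right, Nat.mod_eq_of_lt hy']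
          exact hs.1
        simp only [h5, hc1, and_self, if_true] at h4
        exact h4
      rw [hR]
      have h6 : (0 : ℝ) ≤ ((MM m n / MM m (j + 1) : ℕ) : ℝ) := Nat.cast_nonneg _
      calc (m j : ℝ) * ((MM m n / MM m (j + 1) : ℕ) : ℝ)
          ≤ B * ((MM m n / MM m (j + 1) : ℕ) : ℝ) := mul_le_mul_of_nonneg_right (hB j) h6
        _ = B * ((MM m n / MM m (j + 1) : ℕ) : ℝ) * 1 := by ring
        _ ≤ _ := mul_le_mul_of_nonneg_left h3 (by positivity)
    · positivity
  refine (sum_le_sum h1).trans ?_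
  rw [← mul_sum, sum_comm]
  apply mul_le_mul_of_nonneg_left _ hB0
  refine sum_le_sum fun x _ => ?_
  have key : ∀ l ≤ n, ∑ j ∈ range l, (if Alive m f τ j x ∧ τ < ‖f (j + 1) x‖ then (1 : ℝ) else 0) ≤
      1 - (if Alive m f τ l x then 1 else 0) := by
    intro l
    induction l with
    | zero => intro _; simp [Alive_zero]
    | succ l ih =>
      intro hl
      rw [sum_range_succ]
      have ih' := ih (by omega)
      by_cases a1 : Alive m f τ (l + 1) x
      · have a2 := Alive_mono (Nat.le_succ l) a1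
        have a3 := Alive_le hm hf a1
        rw [if_pos a2] at ih'
        rw [if_pos a1, if_neg (fun h => absurd h.2 (not_lt.mpr a3))]
        linarith
      · rw [if_neg a1]
        by_cases a2 : Alive m f τ l x
        · rw [if_pos a2] at ih'
          split_ifs <;> linarith
        · rw [if_neg a2] at ih'
          rw [if_neg (fun h => a2 h.1)]
          linarith
  by_cases hx : τ < G x
  · rw [if_pos hx]
    refine (key n le_rfl).trans ?_
    split_ifs <;> norm_num
  · rw [if_neg hx]
    apply le_of_eq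
    apply sum_eq_zero
    intro j hj
    rw [if_neg]
    rintro ⟨-, h⟩
    exact hx (h.trans_le (hG _ (Nat.succ_le_of_lt (mem_range.mp hj)) x))

end Pool.Agent.X203.VL
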