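import Mathlib
import Pool.Agent.X203.VLE

set_option linter.unusedSectionVars false
set_option linter.unusedSimpArgs false
set_option linter.unusedVariables false

/-! The finite-level theorem. -/

namespace Pool.Agent.X203.VL

open Finset ComplexConjugate

variable {m : ℕ → ℕ} (hm : ∀ k, 2 ≤ m k)

lemma norm_sum_rpow {ι : Type*} (S : Finset ι) (z : ι → ℂ) {p : ℝ} (hp : 0 < p) (hp1 : p ≤ 1) :
    ‖∑ s ∈ S, z s‖ ^ p ≤ ∑ s ∈ S, ‖z s‖ ^ p := by
  classical
  induction S using Finset.induction with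
  | empty => simp [Real.zero_rpow hp.ne']
  | insert a S ha ih =>
    rw [sum_insert ha, sum_insert ha]
    calc ‖z a + ∑ s ∈ S, z s‖ ^ p ≤ (‖z a‖ + ‖∑ s ∈ S, z s‖) ^ p :=
          Real.rpow_le_rpow (norm_nonneg _) (norm_add_le _ _) hp.le
      _ ≤ ‖z a‖ ^ p + ‖∑ s ∈ S, z s‖ ^ p :=
          Real.rpow_add_le_add_rpow (norm_nonneg _) (norm_nonneg _) hp.le hp1
      _ ≤ _ := by linarith

variable {f : ℕ → ℕ → ℂ}

include hm in
/-- one layer -/
theorem layer (hf : Mart m f) {B : ℝ} (hB : ∀ k, (m k : ℝ) ≤ B) {n : ℕ} {G : ℕ → ℝ}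
    (hG : ∀ j ≤ n, ∀ x, ‖f j x‖ ≤ G x) {τ p : ℝ} (hτ : 0 < τ) (h0 : ∀ x, ‖f 0 x‖ ≤ τ)
    (hp : 0 < p) (hp1 : p ≤ 1) :
    ∑ x ∈ range (MM m n), ‖Top m n (cw m n) (bb m f τ (2 * τ) n) x‖ ^ p ≤
      (2 + Coff B p) * (3 * τ) ^ p *
        (B * ∑ x ∈ range (MM m n), (if τ < G x then (1 : ℝ) else 0)) := by
  classical
  have hττ : τ ≤ 2 * τ := by linarith
  have hbb : ∀ x, ‖bb m f τ (2 * τ) n x‖ ≤ 3 * τ := by
    intro x
    unfold bb
    refine (norm_sub_le _ _).trans ?_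
    have h1 := st_bound hm hf (τ := 2 * τ) (fun x => (h0 x).trans hττ) n x
    have h2 := st_bound hm hf h0 n x
    linarith
  set I : Finset (Σ _ : ℕ, ℕ) := (range n).sigma (fun j => range (MM m j)) with hI
  set I' : Finset (Σ _ : ℕ, ℕ) := I.filter (fun q => Stp m f τ q.1 q.2) with hI'
  set a : (Σ _ : ℕ, ℕ) → ℕ → ℂ := fun q x =>
    if x % MM m q.1 = q.2 then bb m f τ (2 * τ) n x else 0 with ha
  have hdec : ∀ x, bb m f τ (2 * τ) n x = ∑ q ∈ I', a q x := by
    intro x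
    conv_lhs => rw [bb_decomp hττ (fun j => MM_pos hm j) n x]
    rw [hI', sum_filter, hI, sum_sigma]
  have hT : ∀ x, Top m n (cw m n) (bb m f τ (2 * τ) n) x =
      ∑ q ∈ I', Top m n (cw m n) (a q) x := by
    intro x
    rw [← Top_sum]
    exact Top_congr (fun t _ => hdec t) x
  have hatom : ∀ q ∈ I', ∑ x ∈ range (MM m n), ‖Top m n (cw m n) (a q) x‖ ^ p ≤
      (2 + Coff B p) * (3 * τ) ^ p * ((MM m n / MM m q.1 : ℕ) : ℝ) := by
    intro q hq
    rw [hI', mem_filter, hI, mem_sigma, mem_range, mem_range] at hq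
    obtain ⟨⟨hj, hy⟩, hs⟩ := hq
    apply atom_est hm hB hj.le hy (by linarith) hp (by linarith)
    · intro t ht
      simp only [ha, if_neg ht]
    · intro t
      simp only [ha]
      split_ifs
      · exact hbb t
      · rw [norm_zero]; linarith
    · exact atom_mean hm hf hττ hj hs
  calc ∑ x ∈ range (MM m n), ‖Top m n (cw m n) (bb m f τ (2 * τ) n) x‖ ^ p
      ≤ ∑ x ∈ range (MM m n), ∑ q ∈ I', ‖Top m n (cw m n) (a q) x‖ ^ p := by
        refine sum_le_sum fun x _ => ?_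
        rw [hT]
        exact norm_sum_rpow _ _ hp hp1
    _ = ∑ q ∈ I', ∑ x ∈ range (MM m n), ‖Top m n (cw m n) (a q) x‖ ^ p := sum_comm
    _ ≤ ∑ q ∈ I', (2 + Coff B p) * (3 * τ) ^ p * ((MM m n / MM m q.1 : ℕ) : ℝ) :=
        sum_le_sum hatom
    _ = (2 + Coff B p) * (3 * τ) ^ p * ∑ j ∈ range n, ∑ y ∈ range (MM m j),
          (if Stp m f τ j y then ((MM m n / MM m j : ℕ) : ℝ) else 0) := by
        rw [← mul_sum, hI', sum_filter, hI, sum_sigma]
    _ ≤ _ := by
        apply mul_le_mul_of_nonneg_left (stop_count hm hf hB hG)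
        have : 0 < Coff B p := Real.exp_pos _
        positivity

/-- geometric layering -/
lemma geo_layer {lam F p : ℝ} (hl : 0 < lam) (hF : 0 ≤ F) (hp : 0 < p) (K : ℕ) :
    ∑ k ∈ range K, (lam * 2 ^ k) ^ p * (if lam * 2 ^ k < F then (1 : ℝ) else 0) ≤
      2 ^ p / (2 ^ p - 1) * F ^ p := by
  have h2 : (1 : ℝ) < 2 ^ p := Real.one_lt_rpow (by norm_num) hp
  have hd : 0 < (2 : ℝ) ^ p - 1 := by linarith
  induction K with
  | zero =>
    simp only [range_zero, sum_empty]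
    positivity
  | succ K ih =>
    rw [sum_range_succ]
    by_cases h : lam * 2 ^ K < F
    · rw [if_pos h, mul_one]
      have hpow : ∀ k : ℕ, (lam * 2 ^ k) ^ p = lam ^ p * ((2 : ℝ) ^ p) ^ k := by
        intro k
        rw [Real.mul_rpow hl.le (by positivity), ← Real.rpow_natCast, ← Real.rpow_natCast,
          ← Real.rpow_mul (by norm_num), ← Real.rpow_mul (by norm_num), mul_comm p]
      have h3 : ∑ k ∈ range K, (lam * 2 ^ k) ^ p * (if lam * 2 ^ k < F then (1 : ℝ) else 0) ≤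
          ∑ k ∈ range K, (lam * 2 ^ k) ^ p := by
        refine sum_le_sum fun k _ => ?_
        have : 0 ≤ (lam * 2 ^ k) ^ p := by positivity
        split_ifs <;> nlinarith
      have h4 : ∑ k ∈ range K, (lam * 2 ^ k) ^ p + (lam * 2 ^ K) ^ p =
          lam ^ p * ((((2 : ℝ) ^ p) ^ (K + 1) - 1) / (2 ^ p - 1)) := by
        rw [← sum_range_succ (fun k => (lam * 2 ^ k) ^ p), sum_congr rfl fun k _ => hpow k,
          ← mul_sum, geom_sum_eq h2.ne']
      have h5 : lam ^ p * ((((2 : ℝ) ^ p) ^ (K + 1) - 1) / (2 ^ p - 1)) ≤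
          2 ^ p / (2 ^ p - 1) * (lam * 2 ^ K) ^ p := by
        rw [hpow, pow_succ]
        have e1 : 2 ^ p / (2 ^ p - 1) * (lam ^ p * ((2 : ℝ) ^ p) ^ K) =
            lam ^ p * ((((2 : ℝ) ^ p) ^ K * 2 ^ p) / (2 ^ p - 1)) := by ring
        rw [e1]
        apply mul_le_mul_of_nonneg_left _ (by positivity)
        exact div_le_div_of_nonneg_right (by linarith) hd.le
      have h6 : (lam * 2 ^ K) ^ p ≤ F ^ p := Real.rpow_le_rpow (by positivity) h.le hp.le
      have h7 := mul_le_mul_of_nonneg_left h6 (by positivity : 0 ≤ 2 ^ p / ((2 : ℝ) ^ p - 1))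
      linarith
    · rw [if_neg h, mul_zero, add_zero]
      exact ih

/-- the constant -/
noncomputable def Cfin (B p : ℝ) : ℝ :=
  2 + (2 + Coff B p) * 3 ^ p * B * (2 ^ p / (2 ^ p - 1))

include hm in
/-- **The finite theorem.** -/
theorem finite_main (hf : Mart m f) {B : ℝ} (hB : ∀ k, (m k : ℝ) ≤ B) {n : ℕ} {G : ℕ → ℝ}
    (hG : ∀ j ≤ n, ∀ x, ‖f j x‖ ≤ G x) {p : ℝ} (hp : 0 < p) (hp1 : p ≤ 1) :
    ∑ x ∈ range (MM m n), ‖Top m n (cw m n) (f n) x‖ ^ p ≤
      Cfin B p * ∑ x ∈ range (MM m n), G x ^ p := by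
  classical
  have hB0 : 0 ≤ B := (Nat.cast_nonneg _).trans (hB 0)
  have hG0 : ∀ x, 0 ≤ G x := fun x => (norm_nonneg _).trans (hG 0 (Nat.zero_le n) x)
  have hMn : (0 : ℝ) < MM m n := by exact_mod_cast MM_pos hm n
  have hf0 : ∀ x, f 0 x = f 0 0 := by
    intro x
    rw [hf.res 0 x]
    simp [MM, Nat.mod_one]
  set Gs := ∑ x ∈ range (MM m n), G x ^ p with hGs
  have hGs0 : 0 ≤ Gs := sum_nonneg fun x _ => Real.rpow_nonneg (hG0 x) p
  have hCoff : 0 < Coff B p := Real.exp_pos _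
  have h2p : (1 : ℝ) < 2 ^ p := Real.one_lt_rpow (by norm_num) hp
  have hdp : 0 < (2 : ℝ) ^ p - 1 := by linarith
  rcases hGs0.eq_or_lt with hz | hpos
  · -- trivial case
    have hGz : ∀ x < MM m n, G x = 0 := by
      intro x hx
      have h1 := (sum_eq_zero_iff_of_nonneg (fun x _ => Real.rpow_nonneg (hG0 x) p)).mp hz.symm x
        (mem_range.mpr hx)
      exact (Real.rpow_eq_zero (hG0 x) hp.ne').mp h1
    have hT : ∀ x, Top m n (cw m n) (f n) x = 0 := by
      intro x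
      have h1 : Top m n (cw m n) (f n) x = Top m n (cw m n) (fun t => ∑ s ∈ (∅ : Finset ℕ), (0:ℂ)) x := by
        apply Top_congr
        intro t ht
        have := hG n le_rfl t
        rw [hGz t ht] at this
        rw [sum_empty]
        exact norm_le_zero_iff.mp this
      rw [h1, Top_sum]; simp
    rw [← hz, mul_zero]
    apply le_of_eq
    apply sum_eq_zero
    intro x _
    rw [hT, norm_zero, Real.zero_rpow hp.ne']
  -- the base level
  obtain ⟨lam, hlam⟩ : ∃ lam : ℝ, lam = (Gs / MM m n) ^ (1 / p) := ⟨_, rfl⟩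
  have hlam0 : 0 < lam := by rw [hlam]; positivity
  have hlamp : lam ^ p = Gs / MM m n := by
    rw [hlam, ← Real.rpow_mul (by positivity), one_div_mul_cancel hp.ne', Real.rpow_one]
  have h0 : ∀ x, ‖f 0 x‖ ≤ lam := by
    intro x
    rw [hf0, ← Real.rpow_le_rpow_iff (norm_nonneg _) hlam0.le hp, hlamp, le_div_iff₀ hMn]
    have h1 : ∑ x ∈ range (MM m n), ‖f 0 0‖ ^ p ≤ Gs := by
      refine sum_le_sum fun x _ => ?_
      apply Real.rpow_le_rpow (norm_nonneg _) _ hp.le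
      rw [← hf0 x]
      exact hG 0 (Nat.zero_le n) x
    rw [sum_const, card_range, nsmul_eq_mul] at h1
    linarith
  -- top level
  obtain ⟨K, hK⟩ : ∃ K : ℕ, ∀ x < MM m n, G x ≤ lam * 2 ^ K := by
    obtain ⟨K, hK⟩ := pow_unbounded_of_one_lt ((∑ x ∈ range (MM m n), G x) / lam)
      (by norm_num : (1 : ℝ) < 2)
    refine ⟨K, fun x hx => ?_⟩
    rw [div_lt_iff₀ hlam0] at hK
    have := single_le_sum (f := G) (fun x _ => hG0 x) (mem_range.mpr hx)
    linarith
  have hτpos : ∀ k : ℕ, 0 < lam * 2 ^ k := fun k => by positivity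
  have hτ0 : ∀ k : ℕ, ∀ x, ‖f 0 x‖ ≤ lam * 2 ^ k := by
    intro k x
    refine (h0 x).trans ?_
    have : (1 : ℝ) ≤ 2 ^ k := one_le_pow₀ (by norm_num)
    nlinarith
  have htop : ∀ x, st m f (lam * 2 ^ K) n x = f n x := by
    intro x
    apply st_alive
    intro i hi c hc
    have hlt : x % MM m i + c * MM m i < MM m (i + 1) := by
      show _ < MM m i * m i
      have h1 : x % MM m i < MM m i := Nat.mod_lt _ (MM_pos hm i)
      calc x % MM m i + c * MM m i < MM m i + c * MM m i := by omega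
        _ = (c + 1) * MM m i := by ring
        _ ≤ m i * MM m i := Nat.mul_le_mul_right _ hc
        _ = _ := mul_comm _ _
    have hlt2 : x % MM m i + c * MM m i < MM m n :=
      lt_of_lt_of_le hlt (MM_mono hm (Nat.succ_le_of_lt hi))
    exact (hG (i + 1) (Nat.succ_le_of_lt hi) _).trans (hK _ hlt2)
  have hdec : ∀ x, f n x = st m f lam n x +
      ∑ k ∈ range K, bb m f (lam * 2 ^ k) (2 * (lam * 2 ^ k)) n x := by
    intro x
    have h1 : ∀ k ∈ range K, bb m f (lam * 2 ^ k) (2 * (lam * 2 ^ k)) n x =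
        st m f (lam * 2 ^ (k + 1)) n x - st m f (lam * 2 ^ k) n x := by
      intro k _
      unfold bb
      rw [show 2 * (lam * 2 ^ k) = lam * 2 ^ (k + 1) by ring]
    rw [sum_congr rfl h1, sum_range_sub (fun k => st m f (lam * 2 ^ k) n x), htop]
    simp
  have hTdec : ∀ x, Top m n (cw m n) (f n) x = Top m n (cw m n) (st m f lam n) x +
      ∑ k ∈ range K, Top m n (cw m n) (bb m f (lam * 2 ^ k) (2 * (lam * 2 ^ k)) n) x := by
    intro x
    rw [← Top_sum, ← Top_add]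
    exact Top_congr (fun t _ => hdec t) x
  have hbase := bdd_est hm (n := n) hlam0 hp (by linarith) (st_bound hm hf h0 n)
  calc ∑ x ∈ range (MM m n), ‖Top m n (cw m n) (f n) x‖ ^ p
      ≤ ∑ x ∈ range (MM m n), (‖Top m n (cw m n) (st m f lam n) x‖ ^ p +
          ∑ k ∈ range K, ‖Top m n (cw m n) (bb m f (lam * 2 ^ k) (2 * (lam * 2 ^ k)) n) x‖ ^ p) := by
        refine sum_le_sum fun x _ => ?_
        rw [hTdec]
        calc _ ≤ (‖Top m n (cw m n) (st m f lam n) x‖ + ‖∑ k ∈ range K,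
              Top m n (cw m n) (bb m f (lam * 2 ^ k) (2 * (lam * 2 ^ k)) n) x‖) ^ p :=
              Real.rpow_le_rpow (norm_nonneg _) (norm_add_le _ _) hp.le
          _ ≤ _ := (Real.rpow_add_le_add_rpow (norm_nonneg _) (norm_nonneg _) hp.le hp1).trans
              (add_le_add le_rfl (norm_sum_rpow _ _ hp hp1))
    _ = ∑ x ∈ range (MM m n), ‖Top m n (cw m n) (st m f lam n) x‖ ^ p +
          ∑ k ∈ range K, ∑ x ∈ range (MM m n),
            ‖Top m n (cw m n) (bb m f (lam * 2 ^ k) (2 * (lam * 2 ^ k)) n) x‖ ^ p := by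
        rw [sum_add_distrib, sum_comm (s := range K)]
    _ ≤ 2 * lam ^ p * MM m n + ∑ k ∈ range K, (2 + Coff B p) * (3 * (lam * 2 ^ k)) ^ p *
          (B * ∑ x ∈ range (MM m n), (if lam * 2 ^ k < G x then (1 : ℝ) else 0)) :=
        add_le_add hbase (sum_le_sum fun k _ => layer hm hf hB hG (hτpos k) (hτ0 k) hp hp1)
    _ = 2 * Gs + (2 + Coff B p) * 3 ^ p * B * ∑ x ∈ range (MM m n), ∑ k ∈ range K,
          (lam * 2 ^ k) ^ p * (if lam * 2 ^ k < G x then (1 : ℝ) else 0) := by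
        congr 1
        · rw [hlamp]; field_simp
        · rw [sum_comm, mul_sum]
          refine sum_congr rfl fun k _ => ?_
          rw [Real.mul_rpow (by norm_num) (hτpos k).le, ← mul_sum]
          ring
    _ ≤ 2 * Gs + (2 + Coff B p) * 3 ^ p * B * ∑ x ∈ range (MM m n),
          2 ^ p / (2 ^ p - 1) * G x ^ p := by
        apply add_le_add le_rfl
        apply mul_le_mul_of_nonneg_left _ (by positivity)
        exact sum_le_sum fun x _ => geo_layer hlam0 (hG0 x) hp K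
    _ = Cfin B p * Gs := by
        rw [← mul_sum]
        unfold Cfin
        ring

end Pool.Agent.X203.VL
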