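import Mathlib
import Pool.Agent.X203.VLF

set_option linter.unusedSectionVars false
set_option linter.unusedSimpArgs false
set_option linter.unusedVariables false

/-! Transfer to the Vilenkin group. -/

namespace Pool.Agent.X203.VL

open Finset ComplexConjugate MeasureTheory Filter Topology
open scoped ENNReal

/-- uniform probability measure on `Fin N` -/
noncomputable def unif (N : ℕ) : Measure (Fin N) := (N : ℝ≥0∞)⁻¹ • Measure.count

instance unif_prob (N : ℕ) [NeZero N] : IsProbabilityMeasure (unif N) := ⟨by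
  unfold unif
  rw [Measure.smul_apply, Measure.count_univ, smul_eq_mul]
  simp
  rw [ENNReal.inv_mul_cancel]
  · exact_mod_cast NeZero.ne N
  · exact ENNReal.natCast_ne_top N⟩

variable (m : ℕ → ℕ) [∀ k, NeZero (m k)]

/-- the Vilenkin group as a set -/
abbrev Gm : Type := ∀ k, Fin (m k)

/-- product measure -/
noncomputable def mu : Measure (Gm m) := Measure.infinitePi (fun k => unif (m k))

instance : IsProbabilityMeasure (mu m) := by unfold mu; infer_instance

/-- the point with the digits of `x` -/
def pt (x : ℕ) : Gm m := fun k => ⟨dig m k x, Nat.mod_lt _ (Nat.pos_of_ne_zero (NeZero.ne _))⟩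

/-- cylinder -/
def cyl (n : ℕ) (z : Gm m) : Set (Gm m) := {y | ∀ k < n, y k = z k}

lemma cyl_eq (n : ℕ) (z : Gm m) : cyl m n z = Set.pi (range n : Set ℕ) (fun k => {z k}) := by
  ext y
  simp [cyl, Set.mem_pi]

lemma ms_cyl (n : ℕ) (z : Gm m) : MeasurableSet (cyl m n z) := by
  rw [cyl_eq]
  exact MeasurableSet.pi (range n).countable_toSet fun k _ => measurableSet_singleton _

lemma mu_cyl (n : ℕ) (z : Gm m) : mu m (cyl m n z) = ((MM m n : ℕ) : ℝ≥0∞)⁻¹ := by
  rw [cyl_eq]
  unfold mu
  rw [Measure.infinitePi_pi _ (fun k _ => measurableSet_singleton _)]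
  have h1 : ∀ k, unif (m k) {z k} = (m k : ℝ≥0∞)⁻¹ := by
    intro k
    unfold unif
    rw [Measure.smul_apply, Measure.count_singleton, smul_eq_mul, mul_one]
  rw [prod_congr rfl fun k _ => h1 k]
  induction n with
  | zero => simp [MM]
  | succ n ih =>
    rw [prod_range_succ, ih]
    show _ = ((MM m n * m n : ℕ) : ℝ≥0∞)⁻¹
    push_cast
    rw [ENNReal.mul_inv]
    · right; exact ENNReal.natCast_ne_top _
    · left; exact ENNReal.natCast_ne_top _

/-- depends on the first `n` coordinates -/
def Dep {α : Type*} (n : ℕ) (g : Gm m → α) : Prop := ∀ x y, (∀ k < n, x k = y k) → g x = g y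

variable {m} (hm : ∀ k, 2 ≤ m k)

include hm in
lemma exists_code (n : ℕ) (y : Gm m) : ∃ x < MM m n, ∀ k < n, pt m x k = y k := by
  induction n with
  | zero => exact ⟨0, by simp [MM], fun k hk => absurd hk (Nat.not_lt_zero k)⟩
  | succ n ih =>
    obtain ⟨x, hx, hk⟩ := ih
    refine ⟨x + (y n : ℕ) * MM m n, ?_, ?_⟩
    · show _ < MM m n * m n
      calc x + (y n : ℕ) * MM m n < MM m n + (y n : ℕ) * MM m n := by omega
        _ = ((y n : ℕ) + 1) * MM m n := by ring
        _ ≤ m n * MM m n := Nat.mul_le_mul_right _ (y n).2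
        _ = _ := mul_comm _ _
    · intro k hkn
      rcases Nat.lt_succ_iff_lt_or_eq.mp hkn with h | h
      · rw [← hk k h]
        apply Fin.ext
        show dig m k (x + (y n : ℕ) * MM m n) = dig m k x
        exact dig_add_lt hm h _ _
      · subst h
        apply Fin.ext
        exact dig_add_eq hm hx (y k).2

include hm in
lemma code_unique {n x x' : ℕ} (hx : x < MM m n) (hx' : x' < MM m n)
    (h : ∀ k < n, pt m x k = pt m x' k) : x = x' := by
  have := mod_eq_of_dig hm (N := n) (x := x) (y := x') fun k hk => congrArg Fin.val (h k hk)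
  rwa [Nat.mod_eq_of_lt hx, Nat.mod_eq_of_lt hx'] at this

include hm in
lemma ind_sum {R : Type*} [AddCommMonoid R] {n : ℕ} {g : Gm m → R} (hg : Dep m n g) (y : Gm m) :
    g y = ∑ x ∈ range (MM m n), (cyl m n (pt m x)).indicator (fun _ => g (pt m x)) y := by
  obtain ⟨x, hx, hk⟩ := exists_code hm n y
  rw [sum_eq_single x]
  · rw [Set.indicator_of_mem (show y ∈ cyl m n (pt m x) from fun k h => (hk k h).symm)]
    exact hg _ _ fun k h => (hk k h).symm
  · intro x' hx' hne
    rw [Set.indicator_of_notMem]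
    intro h
    apply hne
    exact code_unique hm (mem_range.mp hx') hx fun k hk' => by rw [← h k hk', hk k hk']
  · intro h
    exact absurd (mem_range.mpr hx) h

include hm in
lemma lint {n : ℕ} {g : Gm m → ℝ≥0∞} (hg : Dep m n g) : ∫⁻ y, g y ∂(mu m) =
    ((MM m n : ℕ) : ℝ≥0∞)⁻¹ * ∑ x ∈ range (MM m n), g (pt m x) := by
  rw [lintegral_congr fun y => ind_sum hm hg y, lintegral_finsetSum _ fun x _ =>
    measurable_const.indicator (ms_cyl m n _), mul_sum]
  refine sum_congr rfl fun x _ => ?_
  rw [lintegral_indicator_const (ms_cyl m n _), mu_cyl, mul_comm]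

include hm in
lemma cint {n : ℕ} {g : Gm m → ℂ} (hg : Dep m n g) : ∫ y, g y ∂(mu m) =
    (1 / (MM m n : ℂ)) * ∑ x ∈ range (MM m n), g (pt m x) := by
  rw [integral_congr_ae (Eventually.of_forall fun y => ind_sum hm hg y),
    integral_finsetSum _ fun x _ => (integrable_const _).indicator (ms_cyl m n _), mul_sum]
  refine sum_congr rfl fun x _ => ?_
  rw [integral_indicator_const _ (ms_cyl m n _), Measure.real, mu_cyl]
  simp

end Pool.Agent.X203.VL
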