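import Mathlib

/-! The free Banach lattice over a set of positive generators, as a lattice of functions on a cube.
(The treatment of generated pairs follows helper138's file for MP_f25e07.) -/

open Filter Topology

namespace Pool.Agent.X203.FBLp

universe v

set_option linter.unusedSectionVars false

/-- Real Banach lattices. -/
class BanachLattice (X : Type*) [NormedAddCommGroup X] [Lattice X] [NormedSpace ℝ X] : Prop where
  ordered : IsOrderedAddMonoid X
  smul : PosSMulMono ℝ X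
  solid : HasSolidNorm X
  complete : CompleteSpace X

attribute [instance] BanachLattice.ordered BanachLattice.smul BanachLattice.solid
  BanachLattice.complete

section
variable {X Y : Type*} [NormedAddCommGroup X] [Lattice X] [NormedSpace ℝ X]
  [NormedAddCommGroup Y] [Lattice Y] [NormedSpace ℝ Y]

/-- Lattice homomorphisms: (bounded) linear maps which preserve finite suprema and infima. -/
structure IsLatticeHom (T : X →L[ℝ] Y) : Prop where
  sup : ∀ x y, T (x ⊔ y) = T x ⊔ T y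
  inf : ∀ x y, T (x ⊓ y) = T x ⊓ T y

/-- Quotient maps `X → X / J` by closed ideals, up to isometric isomorphism: lattice homomorphisms
`Q` onto `Y` such that the norm of `Y` is the quotient norm. -/
structure IsQuotientMap (Q : X →L[ℝ] Y) : Prop where
  hom : IsLatticeHom Q
  norm_le : ∀ x, ‖Q x‖ ≤ ‖x‖
  lift : ∀ y, ∀ r : ℝ, ‖y‖ < r → ∃ x, Q x = y ∧ ‖x‖ < r

end

/-- Projective Banach lattices. -/
def Projective (P : Type*) [NormedAddCommGroup P] [Lattice P] [NormedSpace ℝ P] : Prop :=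
  ∀ (X Y : Type v) [NormedAddCommGroup X] [Lattice X] [NormedSpace ℝ X] [BanachLattice X]
    [NormedAddCommGroup Y] [Lattice Y] [NormedSpace ℝ Y] [BanachLattice Y]
    (Q : X →L[ℝ] Y), IsQuotientMap Q → ∀ T : P →L[ℝ] Y, IsLatticeHom T → ∀ ε : ℝ, 0 < ε →
      ∃ S : P →L[ℝ] X, IsLatticeHom S ∧ (∀ p, Q (S p) = T p) ∧ ‖S‖ ≤ (1 + ε) * ‖T‖

/-- `e` is a topological order unit: `e ≥ 0` and the closed ideal generated by `e` is
everything. -/
def IsTopologicalOrderUnit {P : Type*} [NormedAddCommGroup P] [Lattice P] [NormedSpace ℝ P]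
    (e : P) : Prop :=
  0 ≤ e ∧ ∀ J : Submodule ℝ P, (∀ x y : P, |y| ≤ |x| → x ∈ J → y ∈ J) → IsClosed (J : Set P) →
    e ∈ J → J = ⊤

/-- `F` with `δ : B → F` is the free Banach lattice over the set `B`. -/
structure IsFBL {B F : Type*} [NormedAddCommGroup F] [Lattice F] [NormedSpace ℝ F] (δ : B → F) :
    Prop where
  norm_one : ∀ b, ‖δ b‖ = 1
  universal : ∀ (X : Type v) [NormedAddCommGroup X] [Lattice X] [NormedSpace ℝ X] [BanachLattice X]
    (f : B → X), BddAbove (Set.range fun b => ‖f b‖) →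
    ∃ T : F →L[ℝ] X, IsLatticeHom T ∧ (∀ b, T (δ b) = f b) ∧ ‖T‖ = ⨆ b, ‖f b‖ ∧
      ∀ T' : F →L[ℝ] X, IsLatticeHom T' → (∀ b, T' (δ b) = f b) → T' = T

/-! ### The cube -/

/-- the cube -/
abbrev K (A : Type) := A → unitInterval

/-- `ℓ₁(A)` -/
abbrev L1 (A : Type) := lp (fun _ : A => ℝ) 1

variable {A : Type}

theorem summable_abs (x : L1 A) : Summable (fun i => |x i|) := by
  have := (lp.memℓp x).summable (by norm_num)
  simpa using this

theorem norm_eq (x : L1 A) : ‖x‖ = ∑' i, |x i| := by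
  rw [lp.norm_eq_tsum_rpow (by norm_num)]
  simp

theorem term_le (c : L1 A) (k : K A) (a : A) : |c a * (k a : ℝ)| ≤ |c a| := by
  rw [abs_mul, abs_of_nonneg (k a).2.1]
  exact mul_le_of_le_one_right (abs_nonneg _) (k a).2.2

theorem summable_term (c : L1 A) (k : K A) : Summable (fun a => c a * (k a : ℝ)) := by
  apply Summable.of_norm
  exact (summable_abs c).of_nonneg_of_le (fun _ => norm_nonneg _) (fun a => term_le c k a)

/-- evaluation of the linear function with coefficients `c` -/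
noncomputable def ev (k : K A) : L1 A →L[ℝ] ℝ :=
  LinearMap.mkContinuous
    { toFun := fun c => ∑' a, c a * (k a : ℝ)
      map_add' := fun c d => by
        rw [← (summable_term c k).tsum_add (summable_term d k)]
        congr 1
        funext a
        rw [lp.coeFn_add, Pi.add_apply, add_mul]
      map_smul' := fun r c => by
        simp only [lp.coeFn_smul, Pi.smul_apply, smul_eq_mul, RingHom.id_apply, mul_assoc,
          tsum_mul_left] } 1 (fun c => by
    rw [one_mul, norm_eq]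
    show |∑' a, c a * (k a : ℝ)| ≤ _
    have h1 : Summable (fun a => |c a * (k a : ℝ)|) :=
      (summable_abs c).of_nonneg_of_le (fun _ => abs_nonneg _) (fun a => term_le c k a)
    refine (norm_tsum_le_tsum_norm (f := fun a => c a * (k a : ℝ)) h1).trans ?_
    exact h1.tsum_le_tsum (fun a => term_le c k a) (summable_abs c))

theorem ev_apply (k : K A) (c : L1 A) : ev k c = ∑' a, c a * (k a : ℝ) := rfl

theorem ev_le (k : K A) (c : L1 A) : |ev k c| ≤ ‖c‖ := by
  have h1 : ‖ev k‖ ≤ 1 := LinearMap.mkContinuous_norm_le _ zero_le_one _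
  have := (ev k).le_of_opNorm_le h1 c
  simpa using this

/-- domination -/
def Dom (f : K A → ℝ) (c : L1 A) : Prop := (∀ a, 0 ≤ c a) ∧ ∀ k, |f k| ≤ ev k c

theorem Dom.zero : Dom (0 : K A → ℝ) 0 := ⟨fun _ => le_rfl, fun k => by simp⟩

theorem Dom.add {f g : K A → ℝ} {c d : L1 A} (h : Dom f c) (h' : Dom g d) : Dom (f + g) (c + d) :=
  ⟨fun a => add_nonneg (h.1 a) (h'.1 a), fun k => by
    rw [map_add]
    exact (abs_add_le _ _).trans (add_le_add (h.2 k) (h'.2 k))⟩

theorem Dom.mono {f g : K A → ℝ} {c : L1 A} (h : Dom f c) (h' : ∀ k, |g k| ≤ |f k|) : Dom g c :=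
  ⟨h.1, fun k => (h' k).trans (h.2 k)⟩

theorem Dom.smul {f : K A → ℝ} {c : L1 A} (h : Dom f c) (r : ℝ) : Dom (r • f) (|r| • c) :=
  ⟨fun a => mul_nonneg (abs_nonneg r) (h.1 a), fun k => by
    rw [map_smul, Pi.smul_apply, smul_eq_mul, smul_eq_mul, abs_mul]
    exact mul_le_mul_of_nonneg_left (h.2 k) (abs_nonneg r)⟩

theorem Dom.neg {f : K A → ℝ} {c : L1 A} (h : Dom f c) : Dom (-f) c :=
  h.mono fun k => by rw [Pi.neg_apply, abs_neg]

theorem Dom.le_norm {f : K A → ℝ} {c : L1 A} (h : Dom f c) (k : K A) : |f k| ≤ ‖c‖ :=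
  (h.2 k).trans ((le_abs_self _).trans (ev_le k c))

/-! ### Generated pairs -/

/-- the coordinates -/
def pr (a : A) : K A → ℝ := fun k => (k a : ℝ)

/-- generated pairs -/
inductive Gen {Z : Type*} [AddCommGroup Z] [Lattice Z] [Module ℝ Z] (u : A → Z) :
    (K A → ℝ) → Z → Prop
  | zero : Gen u 0 0
  | pi (a : A) : Gen u (pr a) (u a)
  | add {f g x y} : Gen u f x → Gen u g y → Gen u (f + g) (x + y)
  | smul (r : ℝ) {f x} : Gen u f x → Gen u (r • f) (r • x)
  | sup {f g x y} : Gen u f x → Gen u g y → Gen u (f ⊔ g) (x ⊔ y)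

/-- generated functions -/
def GenF (f : K A → ℝ) : Prop := Gen pr f f

section
variable {Z : Type*} [AddCommGroup Z] [Lattice Z] [Module ℝ Z] {u : A → Z}

theorem Gen.genF {f : K A → ℝ} {x : Z} (h : Gen u f x) : GenF f := by
  induction h with
  | zero => exact .zero
  | pi a => exact .pi a
  | add _ _ ih1 ih2 => exact .add ih1 ih2
  | smul r _ ih => exact .smul r ih
  | sup _ _ ih1 ih2 => exact .sup ih1 ih2

theorem Gen.exists_of {Z' : Type*} [AddCommGroup Z'] [Lattice Z'] [Module ℝ Z'] {u' : A → Z'}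
    {f : K A → ℝ} {x : Z} (h : Gen u f x) : ∃ y, Gen u' f y := by
  induction h with
  | zero => exact ⟨_, .zero⟩
  | pi a => exact ⟨_, .pi a⟩
  | add _ _ ih1 ih2 =>
    obtain ⟨y1, h1⟩ := ih1
    obtain ⟨y2, h2⟩ := ih2
    exact ⟨_, .add h1 h2⟩
  | smul r _ ih =>
    obtain ⟨y1, h1⟩ := ih
    exact ⟨_, .smul r h1⟩
  | sup _ _ ih1 ih2 =>
    obtain ⟨y1, h1⟩ := ih1
    obtain ⟨y2, h2⟩ := ih2
    exact ⟨_, .sup h1 h2⟩

theorem Gen.exists_dom {f : K A → ℝ} {x : Z} (h : Gen u f x) : ∃ c, Dom f c := by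
  classical
  induction h with
  | zero => exact ⟨0, Dom.zero⟩
  | pi a =>
    refine ⟨lp.single 1 a (1 : ℝ), fun b => ?_, fun k => ?_⟩
    · rw [lp.single_apply, Pi.single_apply]
      split_ifs <;> norm_num
    · rw [ev_apply, tsum_eq_single a]
      · rw [lp.single_apply, Pi.single_eq_same, one_mul]
        exact (abs_of_nonneg (k a).2.1).le
      · intro b hb
        rw [lp.single_apply, Pi.single_eq_of_ne hb, zero_mul]
  | add _ _ ih1 ih2 =>
    obtain ⟨y1, h1⟩ := ih1
    obtain ⟨y2, h2⟩ := ih2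
    exact ⟨_, h1.add h2⟩
  | smul r _ ih =>
    obtain ⟨y1, h1⟩ := ih
    exact ⟨_, h1.smul r⟩
  | sup _ _ ih1 ih2 =>
    obtain ⟨y1, h1⟩ := ih1
    obtain ⟨y2, h2⟩ := ih2
    refine ⟨y1 + y2, fun a => add_nonneg (h1.1 a) (h2.1 a), fun k => ?_⟩
    have h3 := h1.2 k
    have h4 := h2.2 k
    rw [map_add, Pi.sup_apply]
    have h5 := abs_nonneg (_ : ℝ) |>.trans h3
    have h6 := abs_nonneg (_ : ℝ) |>.trans h4
    refine (abs_max_le_max_abs_abs).trans (max_le ?_ ?_) <;> linarith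

/-- generated functions depend on finitely many coordinates -/
theorem Gen.finite_dep {f : K A → ℝ} {x : Z} (h : Gen u f x) :
    ∃ s : Finset A, ∀ k k' : K A, (∀ a ∈ s, k a = k' a) → f k = f k' := by
  classical
  induction h with
  | zero => exact ⟨∅, fun k k' h => rfl⟩
  | pi a => exact ⟨{a}, fun k k' h => by simp [pr, h a (Finset.mem_singleton_self a)]⟩
  | add _ _ ih1 ih2 =>
    obtain ⟨s1, h1⟩ := ih1
    obtain ⟨s2, h2⟩ := ih2
    refine ⟨s1 ∪ s2, fun k k' h => ?_⟩
    rw [Pi.add_apply, Pi.add_apply, h1 k k' fun a ha => h a (Finset.mem_union_left _ ha),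
      h2 k k' fun a ha => h a (Finset.mem_union_right _ ha)]
  | smul r _ ih =>
    obtain ⟨s, h1⟩ := ih
    exact ⟨s, fun k k' h => by rw [Pi.smul_apply, Pi.smul_apply, h1 k k' h]⟩
  | sup _ _ ih1 ih2 =>
    obtain ⟨s1, h1⟩ := ih1
    obtain ⟨s2, h2⟩ := ih2
    refine ⟨s1 ∪ s2, fun k k' h => ?_⟩
    rw [Pi.sup_apply, Pi.sup_apply, h1 k k' fun a ha => h a (Finset.mem_union_left _ ha),
      h2 k k' fun a ha => h a (Finset.mem_union_right _ ha)]

end

/-! ### Positivity -/

/-- the linear function with the given coefficients -/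
noncomputable def lv (c : A →₀ ℝ) : K A → ℝ := Finsupp.linearCombination ℝ pr c

/-- its counterpart -/
noncomputable def sv {Z : Type*} [AddCommGroup Z] [Module ℝ Z] (u : A → Z) (c : A →₀ ℝ) : Z :=
  Finsupp.linearCombination ℝ u c

lemma lv_apply (c : A →₀ ℝ) (k : K A) : lv c k = ∑ a ∈ c.support, c a * (k a : ℝ) := by
  unfold lv
  rw [Finsupp.linearCombination_apply, Finsupp.sum, Finset.sum_apply]
  rfl

/-- maxima of finitely many linear functions -/
inductive Mx {Z : Type*} [AddCommGroup Z] [Lattice Z] [Module ℝ Z] (u : A → Z) :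
    (K A → ℝ) → Z → Prop
  | lin (c : A →₀ ℝ) : Mx u (lv c) (sv u c)
  | sup {f g x y} : Mx u f x → Mx u g y → Mx u (f ⊔ g) (x ⊔ y)

section
variable {X : Type*} [AddCommGroup X] [Lattice X] [IsOrderedAddMonoid X] [Module ℝ X]
  [PosSMulMono ℝ X] {u : A → X}

lemma Mx.add {f g : K A → ℝ} {x y : X} (h : Mx u f x) (h' : Mx u g y) :
    Mx u (f + g) (x + y) := by
  induction h with
  | lin c =>
    induction h' with
    | lin d =>
      have e1 : lv c + lv d = lv (c + d) := by unfold lv; rw [map_add]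
      have e2 : sv u c + sv u d = sv u (c + d) := by unfold sv; rw [map_add]
      rw [e1, e2]; exact .lin _
    | sup _ _ ih1 ih2 => rw [add_sup, add_sup]; exact ih1.sup ih2
  | sup _ _ ih1 ih2 => rw [sup_add, sup_add]; exact ih1.sup ih2

lemma smul_sup' {Z : Type*} [AddCommGroup Z] [Lattice Z] [Module ℝ Z]
    [IsOrderedAddMonoid Z] [PosSMulMono ℝ Z] {r : ℝ} (hr : 0 < r) (x y : Z) :
    r • (x ⊔ y) = r • x ⊔ r • y := by
  apply le_antisymm
  · have h : x ⊔ y ≤ r⁻¹ • (r • x ⊔ r • y) := by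
      apply sup_le
      · have := smul_le_smul_of_nonneg_left (le_sup_left : r • x ≤ r • x ⊔ r • y)
          (inv_pos.2 hr).le
        rwa [smul_smul, inv_mul_cancel₀ hr.ne', one_smul] at this
      · have := smul_le_smul_of_nonneg_left (le_sup_right : r • y ≤ r • x ⊔ r • y)
          (inv_pos.2 hr).le
        rwa [smul_smul, inv_mul_cancel₀ hr.ne', one_smul] at this
    have := smul_le_smul_of_nonneg_left h hr.le
    rwa [smul_smul, mul_inv_cancel₀ hr.ne', one_smul] at this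
  · exact sup_le (smul_le_smul_of_nonneg_left le_sup_left hr.le)
      (smul_le_smul_of_nonneg_left le_sup_right hr.le)

instance : PosSMulMono ℝ (K A → ℝ) :=
  ⟨fun r hr f g h k => mul_le_mul_of_nonneg_left (h k) hr⟩

lemma Mx.smul {f : K A → ℝ} {x : X} (h : Mx u f x) {r : ℝ} (hr : 0 < r) :
    Mx u (r • f) (r • x) := by
  induction h with
  | lin c =>
    have e1 : r • lv c = lv (r • c) := by unfold lv; rw [map_smul]
    have e2 : r • sv u c = sv u (r • c) := by unfold sv; rw [map_smul]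
    rw [e1, e2]; exact .lin _
  | @sup f g x y _ _ ih1 ih2 =>
    have e1 : r • (f ⊔ g) = r • f ⊔ r • g := smul_sup' hr f g
    have e2 : r • (x ⊔ y) = r • x ⊔ r • y := smul_sup' hr x y
    rw [e1, e2]
    exact ih1.sup ih2

lemma sub_sup_sub {Z : Type*} [AddCommGroup Z] [Lattice Z] [IsOrderedAddMonoid Z]
    (a b c d : Z) : (a - b) ⊔ (c - d) = ((a + d) ⊔ (c + b)) - (b + d) := by
  rw [sup_sub]
  congr 1 <;> abel

lemma Gen.nf {f : K A → ℝ} {x : X} (h : Gen u f x) :
    ∃ a p b q, Mx u a p ∧ Mx u b q ∧ f = a - b ∧ x = p - q := by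
  have h0 : Mx u 0 0 := by
    have := Mx.lin (u := u) 0
    have e1 : lv (0 : A →₀ ℝ) = 0 := by simp [lv]
    have e2 : sv u 0 = 0 := by simp [sv]
    rwa [e1, e2] at this
  induction h with
  | zero => exact ⟨0, 0, 0, 0, h0, h0, by simp, by simp⟩
  | pi γ =>
    refine ⟨pr γ, u γ, 0, 0, ?_, h0, by simp, by simp⟩
    have := Mx.lin (u := u) (Finsupp.single γ 1)
    have e1 : lv (Finsupp.single γ 1 : A →₀ ℝ) = pr γ := by simp [lv]
    have e2 : sv u (Finsupp.single γ 1) = u γ := by simp [sv]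
    rwa [e1, e2] at this
  | add _ _ ih1 ih2 =>
    obtain ⟨a, p, b, q, h1, h2, rfl, rfl⟩ := ih1
    obtain ⟨a', p', b', q', h1', h2', rfl, rfl⟩ := ih2
    exact ⟨_, _, _, _, h1.add h1', h2.add h2', by abel, by abel⟩
  | smul r _ ih =>
    obtain ⟨a, p, b, q, h1, h2, rfl, rfl⟩ := ih
    rcases lt_trichotomy r 0 with hr | hr | hr
    · refine ⟨_, _, _, _, h2.smul (neg_pos.2 hr), h1.smul (neg_pos.2 hr), ?_, ?_⟩ <;>
      · rw [smul_sub, neg_smul, neg_smul]; abel
    · subst hr
      exact ⟨0, 0, 0, 0, h0, h0, by simp, by simp⟩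
    · exact ⟨_, _, _, _, h1.smul hr, h2.smul hr, smul_sub _ _ _, smul_sub _ _ _⟩
  | sup _ _ ih1 ih2 =>
    obtain ⟨a, p, b, q, h1, h2, rfl, rfl⟩ := ih1
    obtain ⟨a', p', b', q', h1', h2', rfl, rfl⟩ := ih2
    exact ⟨_, _, _, _, (h1.add h2').sup (h1'.add h2), h2.add h2', sub_sup_sub _ _ _ _,
      sub_sup_sub _ _ _ _⟩

lemma Mx.fam {f : K A → ℝ} {x : X} (h : Mx u f x) :
    ∃ T : Finset (A →₀ ℝ), (∀ c ∈ T, sv u c ≤ x) ∧ ∀ k, ∃ c ∈ T, f k = lv c k := by
  classical
  induction h with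
  | lin c => exact ⟨{c}, by simp, by simp⟩
  | @sup f g x y _ _ ih1 ih2 =>
    obtain ⟨T, h1, h2⟩ := ih1
    obtain ⟨T', h1', h2'⟩ := ih2
    refine ⟨T ∪ T', fun c hc => ?_, fun k => ?_⟩
    · rcases Finset.mem_union.1 hc with hc | hc
      · exact (h1 c hc).trans le_sup_left
      · exact (h1' c hc).trans le_sup_right
    · rw [Pi.sup_apply]
      rcases le_total (f k) (g k) with h | h
      · obtain ⟨c, hc, hk⟩ := h2' k
        exact ⟨c, Finset.mem_union_right _ hc, by rw [sup_eq_right.2 h]; exact hk⟩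
      · obtain ⟨c, hc, hk⟩ := h2 k
        exact ⟨c, Finset.mem_union_left _ hc, by rw [sup_eq_left.2 h]; exact hk⟩

/-- positivity of linear functions -/
lemma pos_lin (hu : ∀ γ, 0 ≤ u γ) (c : A →₀ ℝ) (hc : ∀ k, 0 ≤ lv c k) : 0 ≤ sv u c := by
  classical
  have h1 : ∀ a ∈ c.support, 0 ≤ c a := by
    intro a ha
    have h2 := hc (fun γ => if γ = a then 1 else 0)
    rw [lv_apply, Finset.sum_eq_single a] at h2
    · simpa using h2
    · intro b _ hb
      simp [hb]
    · intro h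
      exact absurd ha h
  unfold sv
  rw [Finsupp.linearCombination_apply, Finsupp.sum]
  exact Finset.sum_nonneg fun a ha => smul_nonneg (h1 a ha) (hu a)

/-- the minimax theorem for linear functions on the cube -/
lemma minimax (T : Finset (A →₀ ℝ)) (hT : ∀ k : K A, ∃ c ∈ T, 0 ≤ lv c k) :
    ∃ l : (A →₀ ℝ) → ℝ, (∀ c ∈ T, 0 ≤ l c) ∧ 0 < ∑ c ∈ T, l c ∧
      ∀ k : K A, 0 ≤ ∑ c ∈ T, l c * lv c k := by
  classical
  set s : Set (T → ℝ) := {v | ∀ c, v c < 0} with hs
  set t : Set (T → ℝ) := Set.range fun (k : K A) (c : T) => lv c.1 k with ht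
  have hs1 : Convex ℝ s := by
    intro v hv w hw a b ha hb hab c
    have h1 := hv c
    have h2 := hw c
    simp only [Pi.add_apply, Pi.smul_apply, smul_eq_mul]
    rcases eq_or_lt_of_le ha with h | h
    · subst h
      have : b = 1 := by linarith
      subst this
      linarith
    · nlinarith
  have hs2 : IsOpen s := by
    have : s = Set.pi Set.univ fun _ => Set.Iio 0 := by
      ext v; simp [hs]
    rw [this]
    exact isOpen_set_pi Set.finite_univ fun _ _ => isOpen_Iio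
  have ht1 : Convex ℝ t := by
    rintro _ ⟨k, rfl⟩ _ ⟨l, rfl⟩ a b ha hb hab
    refine ⟨fun γ => ⟨a * k γ + b * l γ, ?_, ?_⟩, ?_⟩
    · have := (k γ).2.1
      have := (l γ).2.1
      positivity
    · nlinarith [(k γ).2.2, (l γ).2.2]
    · funext c
      simp only [Pi.add_apply, Pi.smul_apply, smul_eq_mul, lv_apply]
      have : ∀ γ, c.1 γ * (a * (k γ : ℝ) + b * (l γ : ℝ)) =
          a * (c.1 γ * (k γ : ℝ)) + b * (c.1 γ * (l γ : ℝ)) := fun γ => by ring
      simp only [this, Finset.sum_add_distrib, ← Finset.mul_sum]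
  have hdis : Disjoint s t := by
    rw [Set.disjoint_left]
    rintro _ h ⟨k, rfl⟩
    obtain ⟨c, hc, hk⟩ := hT k
    exact absurd (h ⟨c, hc⟩) (not_lt.2 hk)
  obtain ⟨f, r, hf1, hf2⟩ := geometric_hahn_banach_open hs1 hs2 ht1 hdis
  have hf : ∀ w : T → ℝ, f w = ∑ c, w c * f (Pi.single c 1) := by
    intro w
    conv_lhs => rw [← Finset.univ_sum_single w]
    rw [map_sum]
    apply Finset.sum_congr rfl
    intro c _
    rw [← smul_eq_mul, ← map_smul]
    congr 1
    ext d
    by_cases h : d = c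
    · subst h; simp
    · simp [h]
  have hr : 0 ≤ r := by
    by_contra hneg
    push Not at hneg
    have h1 : ∀ δ : ℝ, 0 < δ → δ * f (fun _ => -1) < r := by
      intro δ hδ
      have := hf1 (δ • fun _ => -1) (fun c => by simp [hδ])
      rwa [map_smul, smul_eq_mul] at this
    set A := f (fun _ => (-1 : ℝ))
    rcases le_or_gt 0 A with hA | hA
    · have := h1 1 one_pos
      linarith
    · have h2 := h1 (r / (2 * A)) (div_pos_of_neg_of_neg hneg (by linarith))
      have hA0 : A ≠ 0 := hA.ne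
      have h3 : r / (2 * A) * A = r / 2 := by
        rw [div_mul_eq_mul_div, mul_comm 2 A, mul_comm r A, mul_div_mul_left _ _ hA0]
      rw [h3] at h2
      linarith
  have hl : ∀ c : T, 0 ≤ f (Pi.single c 1) := by
    intro c
    by_contra hneg
    push Not at hneg
    set A := f (fun _ => (-1 : ℝ)) with hA
    set L := f (Pi.single c (1 : ℝ)) with hL
    have h1 : ∀ M : ℝ, 0 ≤ M → A - M * L < r := by
      intro M hM
      have := hf1 ((fun _ => (-1 : ℝ)) - M • Pi.single c 1) (fun d => by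
        simp only [Pi.sub_apply, Pi.smul_apply, smul_eq_mul]
        by_cases h : d = c
        · subst h; simp; linarith
        · simp [h])
      rwa [map_sub, map_smul, smul_eq_mul] at this
    have h2 := h1 ((|A| + |r| + 1) / (-L)) (by
      apply div_nonneg (by positivity); linarith)
    have h3 : (|A| + |r| + 1) / (-L) * L = -(|A| + |r| + 1) := by
      have : L ≠ 0 := hneg.ne
      field_simp
    rw [h3] at h2
    have := neg_abs_le A
    have := le_abs_self r
    linarith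
  have k0 : K A := fun _ => 0
  refine ⟨fun c => if h : c ∈ T then f (Pi.single ⟨c, h⟩ 1) else 0, fun c hc => ?_, ?_, fun k => ?_⟩
  · simp only [hc, dif_pos]
    exact hl _
  · have e1 : ∑ c ∈ T, (if h : c ∈ T then f (Pi.single ⟨c, h⟩ 1) else 0) =
        ∑ c : T, f (Pi.single c 1) := by
      rw [← Finset.sum_coe_sort T]
      apply Finset.sum_congr rfl
      intro c _
      simp
    rw [e1]
    refine lt_of_le_of_ne (Finset.sum_nonneg fun c _ => hl c) fun h0 => ?_
    have h2 : ∀ c : T, f (Pi.single c 1) = 0 := fun c =>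
      (Finset.sum_eq_zero_iff_of_nonneg fun c _ => hl c).1 h0.symm c (Finset.mem_univ c)
    have h3 := hf1 (fun _ => -1) (fun c => by simp)
    have h4 := hf2 _ ⟨k0, rfl⟩
    rw [hf] at h3 h4
    simp only [h2, mul_zero, Finset.sum_const_zero] at h3 h4
    linarith
  · have h4 := hf2 _ ⟨k, rfl⟩
    rw [hf] at h4
    have e1 : ∑ c ∈ T, (if h : c ∈ T then f (Pi.single ⟨c, h⟩ 1) else 0) * lv c k =
        ∑ c : T, lv c.1 k * f (Pi.single c 1) := by
      rw [← Finset.sum_coe_sort T]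
      apply Finset.sum_congr rfl
      intro c _
      simp [mul_comm]
    rw [e1]
    exact hr.trans h4

lemma Mx.pos (hu : ∀ γ, 0 ≤ u γ) {f : K A → ℝ} {x : X}
    (h : Mx u f x) (hf : 0 ≤ f) : 0 ≤ x := by
  obtain ⟨T, h1, h2⟩ := h.fam
  obtain ⟨l, l1, l2, l3⟩ := minimax T fun k => by
    obtain ⟨c, hc, hk⟩ := h2 k
    exact ⟨c, hc, hk ▸ hf k⟩
  have h3 : ∀ S : Finset (A →₀ ℝ), sv u (∑ c ∈ S, l c • c) = ∑ c ∈ S, l c • sv u c := by
    intro S
    unfold sv
    rw [map_sum]
    simp_rw [map_smul]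
  have h4 : ∀ S : Finset (A →₀ ℝ), lv (∑ c ∈ S, l c • c) = ∑ c ∈ S, l c • lv c := by
    intro S
    unfold lv
    rw [map_sum]
    simp_rw [map_smul]
  have h5 : 0 ≤ sv u (∑ c ∈ T, l c • c) := by
    apply pos_lin hu
    intro k
    rw [h4, Finset.sum_apply]
    simpa using l3 k
  rw [h3] at h5
  have h6 : ∑ c ∈ T, l c • sv u c ≤ (∑ c ∈ T, l c) • x := by
    rw [Finset.sum_smul]
    exact Finset.sum_le_sum fun c hc => smul_le_smul_of_nonneg_left (h1 c hc) (l1 c hc)
  have h7 := smul_le_smul_of_nonneg_left (h5.trans h6) (inv_pos.2 l2).le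
  rwa [smul_zero, smul_smul, inv_mul_cancel₀ l2.ne', one_smul] at h7

lemma Mx.mono (hu : ∀ γ, 0 ≤ u γ) {f g : K A → ℝ} {x y : X}
    (h : Mx u f x) (h' : Mx u g y) (hfg : f ≤ g) : x ≤ y := by
  induction h with
  | lin c =>
    have e1 : lv ((-1 : ℝ) • c) = - lv c := by unfold lv; rw [map_smul, neg_one_smul]
    have e2 : sv u ((-1 : ℝ) • c) = - sv u c := by unfold sv; rw [map_smul, neg_one_smul]
    have h1 := (Mx.lin (u := u) ((-1 : ℝ) • c)).add h'
    have h2 := h1.pos hu (by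
      rw [e1, neg_add_eq_sub]
      exact sub_nonneg.2 hfg)
    rw [e2, neg_add_eq_sub] at h2
    exact sub_nonneg.1 h2
  | sup _ _ ih1 ih2 =>
    exact sup_le (ih1 (le_sup_left.trans hfg)) (ih2 (le_sup_right.trans hfg))

lemma Gen.pos (hu : ∀ γ, 0 ≤ u γ) {f : K A → ℝ} {x : X}
    (h : Gen u f x) (hf : 0 ≤ f) : 0 ≤ x := by
  obtain ⟨a, p, b, q, h1, h2, rfl, rfl⟩ := h.nf
  exact sub_nonneg.2 (h2.mono hu h1 (sub_nonneg.1 hf))

end

section
variable {X : Type*} [NormedAddCommGroup X] [Lattice X] [NormedSpace ℝ X] [BanachLattice X]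
  {u : A → X}

lemma Gen.sum {f : A → ℝ} (s : Finset A) : Gen u (∑ a ∈ s, f a • pr a) (∑ a ∈ s, f a • u a) := by
  classical
  induction s using Finset.induction_on with
  | empty => simpa using Gen.zero
  | insert a s ha ih =>
    rw [Finset.sum_insert ha, Finset.sum_insert ha]
    exact ((Gen.pi a).smul (f a)).add ih

lemma Gen.bound (hu : ∀ γ, 0 ≤ u γ) {C : ℝ} (hC : ∀ γ, ‖u γ‖ ≤ C) (hC0 : 0 ≤ C) {f : K A → ℝ}
    {x : X} (h : Gen u f x) {c : L1 A} (hd : Dom f c) : ‖x‖ ≤ C * ‖c‖ := by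
  classical
  obtain ⟨s, hs⟩ := h.finite_dep
  have h1 : ∀ k : K A, |f k| ≤ ∑ a ∈ s, c a * (k a : ℝ) := by
    intro k
    set k' : K A := fun a => if a ∈ s then k a else 0 with hk'
    have h2 : f k = f k' := hs k k' fun a ha => by simp [hk', ha]
    rw [h2]
    refine (hd.2 k').trans ?_
    rw [ev_apply, tsum_eq_sum (s := s)]
    · refine (Finset.sum_congr rfl fun a ha => ?_).le
      simp [hk', ha]
    · intro a ha
      simp [hk', ha]
  have h3 : ∀ k, (∑ a ∈ s, c a • pr a : K A → ℝ) k = ∑ a ∈ s, c a * (k a : ℝ) := by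
    intro k
    rw [Finset.sum_apply]
    rfl
  have h4 : 0 ≤ ∑ a ∈ s, c a • u a + (-1 : ℝ) • x := by
    refine ((Gen.sum (u := u) (f := fun a => c a) s).add (h.smul (-1))).pos hu fun k => ?_
    have := (abs_le.1 (h1 k)).2
    simp only [Pi.add_apply, h3, Pi.smul_apply, smul_eq_mul, Pi.zero_apply]
    linarith
  have h5 : 0 ≤ ∑ a ∈ s, c a • u a + (1 : ℝ) • x := by
    refine ((Gen.sum (u := u) (f := fun a => c a) s).add (h.smul 1)).pos hu fun k => ?_
    have := (abs_le.1 (h1 k)).1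
    simp only [Pi.add_apply, h3, Pi.smul_apply, smul_eq_mul, Pi.zero_apply]
    linarith
  rw [neg_one_smul, ← sub_eq_add_neg] at h4
  rw [one_smul] at h5
  have h0 : 0 ≤ ∑ a ∈ s, c a • u a := Finset.sum_nonneg fun a _ => smul_nonneg (hd.1 a) (hu a)
  have h6 : |x| ≤ |∑ a ∈ s, c a • u a| := by
    rw [abs_of_nonneg h0]
    exact abs_le'.2 ⟨sub_nonneg.1 h4, by
      have := h5
      rw [← sub_neg_eq_add] at this
      exact sub_nonneg.1 this⟩
  refine (HasSolidNorm.solid h6).trans ?_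
  refine (norm_sum_le _ _).trans ?_
  rw [norm_eq]
  calc ∑ a ∈ s, ‖c a • u a‖ ≤ ∑ a ∈ s, C * |c a| := by
        apply Finset.sum_le_sum
        intro a _
        rw [norm_smul, Real.norm_eq_abs, mul_comm]
        exact mul_le_mul_of_nonneg_right (hC a) (abs_nonneg _)
    _ = C * ∑ a ∈ s, |c a| := (Finset.mul_sum _ _ _).symm
    _ ≤ C * ∑' a, |c a| := by
        apply mul_le_mul_of_nonneg_left _ hC0
        exact (summable_abs c).sum_le_tsum s (fun a _ => abs_nonneg _)

end

end Pool.Agent.X203.FBLp
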