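import Pool.Agent.X203.FBLp

/-! The free Banach lattice over a set of positive generators: the space. -/

open Filter Topology

namespace Pool.Agent.X203.FBLp

universe v

set_option linter.unusedSectionVars false

variable {A : Type}

/-- the underlying vector lattice of functions -/
def sub (A : Type) : Submodule ℝ (K A → ℝ) where
  carrier := {f | ∀ ε : ℝ, 0 < ε → ∃ g c, GenF g ∧ Dom (f - g) c ∧ ‖c‖ < ε}
  zero_mem' := fun ε hε => ⟨0, 0, Gen.zero, by rw [sub_zero]; exact Dom.zero, by rwa [norm_zero]⟩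
  add_mem' := by
    intro f f' hf hf' ε hε
    obtain ⟨g, c, h1, h2, h3⟩ := hf (ε / 2) (by positivity)
    obtain ⟨g', c', h1', h2', h3'⟩ := hf' (ε / 2) (by positivity)
    refine ⟨g + g', c + c', h1.add h1', ?_, ?_⟩
    · rw [add_sub_add_comm]
      exact h2.add h2'
    · have := norm_add_le c c'
      linarith
  smul_mem' := by
    intro r f hf ε hε
    obtain ⟨g, c, h1, h2, h3⟩ := hf (ε / (|r| + 1)) (by positivity)
    refine ⟨r • g, |r| • c, h1.smul r, ?_, ?_⟩
    · rw [← smul_sub]
      exact h2.smul r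
    · rw [norm_smul, Real.norm_eq_abs, abs_abs]
      calc |r| * ‖c‖ ≤ (|r| + 1) * ‖c‖ := by gcongr; linarith
        _ < (|r| + 1) * (ε / (|r| + 1)) := by gcongr
        _ = ε := by field_simp

theorem sub_sup {f f' : K A → ℝ} (hf : f ∈ sub A) (hf' : f' ∈ sub A) : f ⊔ f' ∈ sub A := by
  intro ε hε
  obtain ⟨g, c, h1, h2, h3⟩ := hf (ε / 2) (by positivity)
  obtain ⟨g', c', h1', h2', h3'⟩ := hf' (ε / 2) (by positivity)
  refine ⟨g ⊔ g', c + c', h1.sup h1', ⟨fun a => add_nonneg (h2.1 a) (h2'.1 a), fun k => ?_⟩, ?_⟩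
  · rw [map_add, Pi.sub_apply, Pi.sup_apply, Pi.sup_apply]
    have h4 := h2.2 k
    have h5 := h2'.2 k
    rw [Pi.sub_apply] at h4 h5
    have h6 := abs_max_sub_max_le_max (f k) (f' k) (g k) (g' k)
    refine h6.trans (max_le ?_ ?_)
    · linarith [(abs_nonneg _).trans h5]
    · linarith [(abs_nonneg _).trans h4]
  · have := norm_add_le c c'
    linarith

theorem sub_inf {f f' : K A → ℝ} (hf : f ∈ sub A) (hf' : f' ∈ sub A) : f ⊓ f' ∈ sub A := by
  have h1 : f ⊓ f' = -(-f ⊔ -f') := by rw [neg_sup, neg_neg, neg_neg]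
  rw [h1]
  exact (sub A).neg_mem (sub_sup ((sub A).neg_mem hf) ((sub A).neg_mem hf'))

/-- the space -/
def P (A : Type) : Type := sub A

noncomputable instance : AddCommGroup (P A) := inferInstanceAs (AddCommGroup (sub A))
noncomputable instance : Module ℝ (P A) := inferInstanceAs (Module ℝ (sub A))
noncomputable instance : Lattice (P A) :=
  Subtype.lattice (P := fun f : K A → ℝ => f ∈ sub A) (fun _ _ h h' => sub_sup h h')
    (fun _ _ h h' => sub_inf h h')

lemma P_ext {x y : P A} (h : ∀ k, x.1 k = y.1 k) : x = y := Subtype.ext (funext h)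

@[simp] lemma add_ap (x y : P A) (k : K A) : (x + y).1 k = x.1 k + y.1 k := rfl
@[simp] lemma sub_ap (x y : P A) (k : K A) : (x - y).1 k = x.1 k - y.1 k := rfl
@[simp] lemma neg_ap (x : P A) (k : K A) : (-x).1 k = -x.1 k := rfl
@[simp] lemma zero_ap (k : K A) : (0 : P A).1 k = 0 := rfl
@[simp] lemma smul_ap (c : ℝ) (x : P A) (k : K A) : (c • x).1 k = c * x.1 k := rfl
@[simp] lemma sup_ap (x y : P A) (k : K A) : (x ⊔ y).1 k = max (x.1 k) (y.1 k) := rfl
@[simp] lemma inf_ap (x y : P A) (k : K A) : (x ⊓ y).1 k = min (x.1 k) (y.1 k) := rfl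
@[simp] lemma abs_ap (x : P A) (k : K A) : (|x|).1 k = |x.1 k| := rfl
lemma le_iff {x y : P A} : x ≤ y ↔ ∀ k, x.1 k ≤ y.1 k := Iff.rfl

lemma add_val (x y : P A) : (x + y).1 = x.1 + y.1 := rfl
lemma neg_val (x : P A) : (-x).1 = -x.1 := rfl
lemma smul_val (c : ℝ) (x : P A) : (c • x).1 = c • x.1 := rfl

lemma P_dom (x : P A) : ∃ c, Dom x.1 c := by
  obtain ⟨g, c, h1, h2, -⟩ := x.2 1 one_pos
  obtain ⟨c', h3⟩ := h1.exists_dom
  refine ⟨c + c', ?_⟩
  have := h2.add h3
  rwa [sub_add_cancel] at this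

/-- the norm -/
noncomputable def nrm (x : P A) : ℝ := sInf {r | ∃ c, Dom x.1 c ∧ r = ‖c‖}

lemma nrm_le {x : P A} {c : L1 A} (h : Dom x.1 c) : nrm x ≤ ‖c‖ := by
  refine csInf_le ?_ ⟨c, h, rfl⟩
  refine ⟨0, ?_⟩
  rintro _ ⟨c, -, rfl⟩
  exact norm_nonneg _

lemma exists_of_lt {x : P A} {r : ℝ} (h : nrm x < r) : ∃ c, Dom x.1 c ∧ ‖c‖ < r := by
  obtain ⟨c, hc⟩ := P_dom x
  have hne : {r | ∃ c, Dom x.1 c ∧ r = ‖c‖}.Nonempty := ⟨_, c, hc, rfl⟩
  obtain ⟨_, ⟨c, hc, rfl⟩, h1⟩ := exists_lt_of_csInf_lt hne h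
  exact ⟨c, hc, h1⟩

lemma le_nrm (x : P A) (k : K A) : |x.1 k| ≤ nrm x := by
  obtain ⟨c, hc⟩ := P_dom x
  refine le_csInf ⟨_, c, hc, rfl⟩ ?_
  rintro _ ⟨c, hc, rfl⟩
  exact hc.le_norm k

/-- the group norm -/
noncomputable def nrmGroup : AddGroupNorm (P A) where
  toFun := nrm
  map_zero' := le_antisymm ((nrm_le (x := 0) Dom.zero).trans_eq norm_zero)
    ((abs_nonneg _).trans (le_nrm 0 fun _ => 0))
  add_le' := by
    intro x y
    refine le_of_forall_pos_le_add fun ε hε => ?_
    obtain ⟨c, hc, h1⟩ := exists_of_lt (x := x) (r := nrm x + ε / 2) (by linarith)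
    obtain ⟨d, hd, h2⟩ := exists_of_lt (x := y) (r := nrm y + ε / 2) (by linarith)
    have h3 : nrm (x + y) ≤ ‖c + d‖ := nrm_le (hc.add hd)
    have := norm_add_le c d
    linarith
  neg' := by
    intro x
    have h1 : ∀ c, Dom (-x).1 c ↔ Dom x.1 c := fun c => ⟨fun h => by
      have := h.neg
      rw [neg_val, neg_neg] at this
      exact this, fun h => h.neg⟩
    unfold nrm
    simp_rw [h1]
  eq_zero_of_map_eq_zero' := by
    intro x hx
    apply P_ext
    intro k
    have h1 := le_nrm x k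
    have h2 : nrm x = 0 := hx
    rw [h2] at h1
    rw [zero_ap]
    exact abs_nonpos_iff.1 h1

noncomputable instance : NormedAddCommGroup (P A) := AddGroupNorm.toNormedAddCommGroup nrmGroup

lemma norm_def (x : P A) : ‖x‖ = nrm x := rfl

noncomputable instance : NormedSpace ℝ (P A) where
  norm_smul_le := by
    intro r x
    rw [norm_def, norm_def]
    refine le_of_forall_pos_le_add fun ε hε => ?_
    obtain ⟨c, hc, h1⟩ := exists_of_lt (x := x) (r := nrm x + ε / (‖r‖ + 1)) (by
      have : 0 < ε / (‖r‖ + 1) := by positivity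
      linarith)
    have h3 : nrm (r • x) ≤ ‖(|r|) • c‖ := nrm_le (hc.smul r)
    rw [norm_smul, Real.norm_eq_abs, abs_abs] at h3
    refine h3.trans ?_
    calc |r| * ‖c‖ ≤ ‖r‖ * (nrm x + ε / (‖r‖ + 1)) := by
          rw [Real.norm_eq_abs]
          exact mul_le_mul_of_nonneg_left h1.le (abs_nonneg r)
      _ = ‖r‖ * nrm x + ‖r‖ * (ε / (‖r‖ + 1)) := by ring
      _ ≤ ‖r‖ * nrm x + ε := by
          gcongr
          rw [← mul_div_assoc, div_le_iff₀ (by positivity)]
          nlinarith [norm_nonneg r]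

/-- evaluation at a point -/
noncomputable def evl (k : K A) : P A →L[ℝ] ℝ :=
  LinearMap.mkContinuous
    { toFun := fun x => x.1 k
      map_add' := fun _ _ => rfl
      map_smul' := fun _ _ => rfl } 1 (fun x => by
    rw [one_mul]
    exact le_nrm x k)

@[simp] lemma evl_apply (k : K A) (x : P A) : evl k x = x.1 k := rfl

/-- the generators -/
def dl (a : A) : P A := ⟨pr a, fun ε hε => ⟨pr a, 0, Gen.pi a, by
  rw [sub_self]; exact Dom.zero, by rwa [norm_zero]⟩⟩

lemma dl_ap (a : A) (k : K A) : (dl a).1 k = k a := rfl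

lemma dom_dl (a : A) [DecidableEq A] : Dom (dl a).1 (lp.single 1 a (1 : ℝ)) := by
  refine ⟨fun b => ?_, fun k => ?_⟩
  · rw [lp.single_apply, Pi.single_apply]
    split_ifs <;> norm_num
  · rw [ev_apply, tsum_eq_single a]
    · rw [lp.single_apply, Pi.single_eq_same, one_mul]
      exact (abs_of_nonneg (k a).2.1).le
    · intro b hb
      rw [lp.single_apply, Pi.single_eq_of_ne hb, zero_mul]

lemma norm_dl_le (a : A) : ‖dl a‖ ≤ 1 := by
  classical
  refine (nrm_le (dom_dl a)).trans ?_
  rw [lp.norm_single (by norm_num)]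
  simp

theorem complete_P : CompleteSpace (P A) := by
  apply NormedAddCommGroup.completeSpace_of_summable_imp_tendsto
  intro u hu
  have hex : ∀ n, ∃ c, Dom (u n).1 c ∧ ‖c‖ < ‖u n‖ + (1 / 2 : ℝ) ^ n := by
    intro n
    apply exists_of_lt
    rw [norm_def]
    have : (0 : ℝ) < (1 / 2) ^ n := by positivity
    linarith
  choose c hc hcn using hex
  have hcs : Summable (fun n => ‖c n‖) :=
    (hu.add summable_geometric_two).of_nonneg_of_le (fun _ => norm_nonneg _) (fun n => (hcn n).le)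
  have hcs' : Summable c := hcs.of_norm
  -- pointwise sums
  have hus : ∀ k, Summable (fun n => (u n).1 k) := by
    intro k
    apply Summable.of_norm
    exact hcs.of_nonneg_of_le (fun _ => norm_nonneg _) (fun n => (hc n).le_norm k)
  let f : K A → ℝ := fun k => ∑' n, (u n).1 k
  have htail : ∀ n, Dom (f - (∑ i ∈ Finset.range n, u i).1) (∑' i, c (i + n)) := by
    intro n
    have hs : Summable (fun i => c (i + n)) := (summable_nat_add_iff n).2 hcs'
    refine ⟨fun a => ?_, fun k => ?_⟩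
    · have h1 : (∑' i, c (i + n)) a = ∑' i, c (i + n) a := by
        have h2 : HasSum (fun i => c (i + n)) (∑' i, c (i + n)) := hs.hasSum
        have h3 : Continuous (fun x : L1 A => x a) := by
          apply LipschitzWith.continuous (K := 1)
          apply LipschitzWith.of_dist_le_mul
          intro x y
          rw [dist_eq_norm, dist_eq_norm, NNReal.coe_one, one_mul]
          exact lp.norm_apply_le_norm (by norm_num) (x - y) a
        let φ : L1 A →+ ℝ := { toFun := fun x => x a, map_zero' := rfl, map_add' := fun _ _ => rfl }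
        exact (h2.map φ h3).tsum_eq.symm
      rw [h1]
      exact tsum_nonneg fun i => (hc _).1 a
    · have h1 : ev k (∑' i, c (i + n)) = ∑' i, ev k (c (i + n)) := (ev k).map_tsum hs
      have h2 : (∑ i ∈ Finset.range n, u i).1 k = ∑ i ∈ Finset.range n, (u i).1 k := by
        exact map_sum (evl k) u (Finset.range n)
      have h3 : (f - (∑ i ∈ Finset.range n, u i).1) k = ∑' i, (u (i + n)).1 k := by
        rw [Pi.sub_apply, h2]
        have := (hus k).sum_add_tsum_nat_add n
        simp only [f]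
        linarith
      rw [h1, h3]
      have h4 : Summable (fun i => ev k (c (i + n))) := (ev k).summable hs
      have h5 : Summable (fun i => |(u (i + n)).1 k|) :=
        h4.of_nonneg_of_le (fun _ => abs_nonneg _) (fun i => (hc _).2 k)
      refine (norm_tsum_le_tsum_norm (f := fun i => (u (i + n)).1 k) h5).trans ?_
      exact h5.tsum_le_tsum (fun i => (hc _).2 k) h4
  have hlim : Tendsto (fun n => ‖∑' i, c (i + n)‖) atTop (𝓝 0) := by
    have := tendsto_sum_nat_add c
    simpa using this.norm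
  have hf : f ∈ sub A := by
    intro ε hε
    obtain ⟨n, hn⟩ := (hlim.eventually (gt_mem_nhds (half_pos hε))).exists
    obtain ⟨g, d, h1, h2, h3⟩ := (∑ i ∈ Finset.range n, u i).2 (ε / 2) (half_pos hε)
    refine ⟨g, (∑' i, c (i + n)) + d, h1, ?_, ?_⟩
    · have := (htail n).add h2
      rwa [sub_add_sub_cancel] at this
    · have := norm_add_le (∑' i, c (i + n)) d
      linarith
  refine ⟨⟨f, hf⟩, ?_⟩
  rw [tendsto_iff_norm_sub_tendsto_zero]
  refine squeeze_zero (fun _ => norm_nonneg _) (fun n => ?_) hlim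
  rw [← norm_neg, neg_sub]
  exact nrm_le (htail n)

instance : BanachLattice (P A) where
  ordered := by
    refine { add_le_add_left := fun x y h z => ?_ }
    intro k
    have := h k
    simp only [add_ap]
    linarith
  smul := ⟨fun r hr x y h k => mul_le_mul_of_nonneg_left (h k) hr⟩
  solid := ⟨fun x y h => by
    rw [norm_def, norm_def]
    refine le_of_forall_pos_le_add fun ε hε => ?_
    obtain ⟨c, hc, h1⟩ := exists_of_lt (x := y) (r := nrm y + ε) (by linarith)
    exact (nrm_le (hc.mono fun k => h k)).trans h1.le⟩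
  complete := complete_P

/-- two evaluations -/
lemma evl_add_evl (k l : K A) (h : ∀ a, (k a : ℝ) + l a ≤ 1) : ‖evl k + evl l‖ ≤ 1 := by
  refine ContinuousLinearMap.opNorm_le_bound _ zero_le_one fun x => ?_
  rw [one_mul, norm_def]
  refine le_of_forall_pos_le_add fun ε hε => ?_
  obtain ⟨c, hc, h1⟩ := exists_of_lt (x := x) (r := nrm x + ε) (by linarith)
  have h2 := hc.2 k
  have h3 := hc.2 l
  rw [_root_.add_apply, evl_apply, evl_apply, Real.norm_eq_abs]
  refine (abs_add_le _ _).trans ?_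
  have h4 : ev k c + ev l c ≤ ‖c‖ := by
    rw [ev_apply, ev_apply, ← (summable_term c k).tsum_add (summable_term c l), norm_eq]
    refine ((summable_term c k).add (summable_term c l)).tsum_le_tsum (fun a => ?_)
      (summable_abs c)
    rw [← mul_add, abs_of_nonneg (hc.1 a)]
    exact mul_le_of_le_one_right (hc.1 a) (h a)
  linarith

lemma le_one_of_evl (k l : K A) (h : ‖evl k + evl l‖ ≤ 1) (a : A) : (k a : ℝ) + l a ≤ 1 := by
  have h1 := (evl k + evl l).le_opNorm (dl a)
  rw [_root_.add_apply, evl_apply, evl_apply, dl_ap, dl_ap, Real.norm_eq_abs] at h1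
  have h2 := norm_dl_le a
  have h3 := le_abs_self ((k a : ℝ) + l a)
  have h4 : ‖evl k + evl l‖ * ‖dl a‖ ≤ 1 * 1 := by gcongr
  linarith

lemma evl_hom (k : K A) : IsLatticeHom (evl k) := ⟨fun _ _ => rfl, fun _ _ => rfl⟩

end Pool.Agent.X203.FBLp
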