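import Mathlib

/-! An abstract fixed point theorem for the partially bicyclic semigroup. -/

namespace Pool.Agent.X203.FixPt

open Filter Topology Set

theorem exists_minimal {Z : Type*} [TopologicalSpace Z] [CompactSpace Z] (P : Set Z → Prop)
    (hP : ∀ c : Set (Set Z), c.Nonempty → (∀ s ∈ c, P s) → P (⋂₀ c)) (A : Set Z)
    (hA : IsClosed A) (hne : A.Nonempty) (hPA : P A) :
    ∃ m ⊆ A, IsClosed m ∧ m.Nonempty ∧ P m ∧
      ∀ m' ⊆ m, IsClosed m' → m'.Nonempty → P m' → m' = m := by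
  obtain ⟨m, hmA, hm⟩ := zorn_superset_nonempty {s : Set Z | IsClosed s ∧ s.Nonempty ∧ P s} (by
    intro c hc hchain hcne
    refine ⟨⋂₀ c, ⟨isClosed_sInter fun s hs => (hc hs).1, ?_, hP c hcne fun s hs => (hc hs).2.2⟩,
      fun s hs => sInter_subset_of_mem hs⟩
    have : Nonempty c := hcne.to_subtype
    apply IsCompact.nonempty_sInter_of_directed_nonempty_isCompact_isClosed
    · intro s hs t ht
      rcases hchain.total hs ht with h | h
      · exact ⟨s, hs, subset_rfl, h⟩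
      · exact ⟨t, ht, h, subset_rfl⟩
    · exact fun s hs => (hc hs).2.1
    · exact fun s hs => (hc hs).1.isCompact
    · exact fun s hs => (hc hs).1) A ⟨hA, hne, hPA⟩
  refine ⟨m, hmA, hm.prop.1, hm.prop.2.1, hm.prop.2.2, fun m' h1 h2 h3 h4 => ?_⟩
  exact subset_antisymm h1 (hm.le_of_le ⟨h2, h3, h4⟩ h1)

/-- action of words in two letters -/
def act {Z : Type*} (f g : Z → Z) : List Bool → Z → Z
  | [], x => x
  | true :: l, x => act f g l (f x)
  | false :: l, x => act f g l (g x)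

section

variable {Z V : Type*} [TopologicalSpace Z] [CompactSpace Z] [T2Space Z]
  [NormedAddCommGroup V] [NormedSpace ℝ V] (j : Z → V)

theorem act_continuous {f g : Z → Z} (hf : Continuous f) (hg : Continuous g) (l : List Bool) :
    Continuous (act f g l) := by
  induction l with
  | nil => exact continuous_id
  | cons a l ih =>
    cases a with
    | true => exact ih.comp hf
    | false => exact ih.comp hg

/-- Total boundedness of a minimal set of two isometric maps. -/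
theorem totally_bounded (hball : ∀ y r, IsClosed {x | ‖j x - j y‖ ≤ r})
    (hsep : ∃ d : ℕ → Z, ∀ x, ∀ ε > 0, ∃ n, ‖j x - j (d n)‖ ≤ ε) {f g : Z → Z}
    (hf : Continuous f) (hg : Continuous g) (D : Set Z) (hD : IsClosed D) (hDne : D.Nonempty)
    (hDf : ∀ x ∈ D, f x ∈ D) (hDg : ∀ x ∈ D, g x ∈ D)
    (hmin : ∀ m' ⊆ D, IsClosed m' → m'.Nonempty → ((∀ x ∈ m', f x ∈ m') ∧ ∀ x ∈ m', g x ∈ m') →
      m' = D)
    (hfi : ∀ x ∈ D, ∀ y ∈ D, ‖j (f x) - j (f y)‖ = ‖j x - j y‖)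
    (hgi : ∀ x ∈ D, ∀ y ∈ D, ‖j (g x) - j (g y)‖ = ‖j x - j y‖) (ε : ℝ) (hε : 0 < ε) :
    ∃ N : Finset Z, (∀ z ∈ N, z ∈ D) ∧ ∀ x ∈ D, ∃ z ∈ N, ‖j x - j z‖ ≤ ε := by
  classical
  have hact : ∀ l, ∀ x ∈ D, act f g l x ∈ D := by
    intro l
    induction l with
    | nil => exact fun x hx => hx
    | cons a l ih =>
      intro x hx
      cases a with
      | true => exact ih _ (hDf x hx)
      | false => exact ih _ (hDg x hx)
  have hiso : ∀ l, ∀ x ∈ D, ∀ y ∈ D, ‖j (act f g l x) - j (act f g l y)‖ = ‖j x - j y‖ := by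
    intro l
    induction l with
    | nil => exact fun x _ y _ => rfl
    | cons a l ih =>
      intro x hx y hy
      cases a with
      | true => exact (ih _ (hDf x hx) _ (hDf y hy)).trans (hfi x hx y hy)
      | false => exact (ih _ (hDg x hx) _ (hDg y hy)).trans (hgi x hx y hy)
  obtain ⟨d, hd⟩ := hsep
  -- Baire category
  have : CompactSpace D := isCompact_iff_compactSpace.1 hD.isCompact
  have : Nonempty D := hDne.to_subtype
  obtain ⟨n, hn⟩ := nonempty_interior_of_iUnion_of_closed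
    (f := fun n : ℕ => {x : D | ‖j x - j (d n)‖ ≤ ε / 2})
    (fun n => (hball (d n) (ε / 2)).preimage continuous_subtype_val)
    (by
      ext x
      simp only [mem_iUnion, mem_univ, iff_true]
      exact hd x (ε / 2) (half_pos hε))
  obtain ⟨O, hO, hOU⟩ := isOpen_induced_iff.1
    (isOpen_interior (s := {x : D | ‖j x - j (d n)‖ ≤ ε / 2}))
  obtain ⟨u, hu⟩ := hn
  have huO : (u : Z) ∈ O := by
    have : u ∈ Subtype.val ⁻¹' O := by rw [hOU]; exact hu
    exact this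
  have hOd : ∀ x ∈ D, x ∈ O → ‖j x - j (d n)‖ ≤ ε / 2 := by
    intro x hx hxO
    have h1 : (⟨x, hx⟩ : D) ∈ Subtype.val ⁻¹' O := hxO
    rw [hOU] at h1
    have h2 := interior_subset h1
    exact h2
  -- orbits hit `O`
  have horb : ∀ x ∈ D, ∃ l, act f g l x ∈ O := by
    by_contra hcon
    push Not at hcon
    obtain ⟨x₀, hx₀, hx₀O⟩ := hcon
    have h1 := hmin (D ∩ ⋂ l, (act f g l) ⁻¹' Oᶜ) inter_subset_left
      (hD.inter (isClosed_iInter fun l =>
        hO.isClosed_compl.preimage (act_continuous hf hg l)))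
      ⟨x₀, hx₀, mem_iInter.2 fun l => hx₀O l⟩
      ⟨fun x hx => ⟨hDf x hx.1, mem_iInter.2 fun l => mem_iInter.1 hx.2 (true :: l)⟩,
        fun x hx => ⟨hDg x hx.1, mem_iInter.2 fun l => mem_iInter.1 hx.2 (false :: l)⟩⟩
    have h2 : (u : Z) ∈ D ∩ ⋂ l, (act f g l) ⁻¹' Oᶜ := by rw [h1]; exact u.2
    exact (mem_iInter.1 h2.2 []) huO
  obtain ⟨F, hF⟩ := hD.isCompact.elim_finite_subcover (fun l : List Bool => (act f g l) ⁻¹' O)
    (fun l => hO.preimage (act_continuous hf hg l)) (by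
      intro x hx
      obtain ⟨l, hl⟩ := horb x hx
      exact mem_iUnion.2 ⟨l, hl⟩)
  -- choose points
  let pt : List Bool → Z := fun l => if h : ∃ x ∈ D, act f g l x ∈ O then h.choose else u
  refine ⟨F.image pt, ?_, ?_⟩
  · intro z hz
    obtain ⟨l, -, rfl⟩ := Finset.mem_image.1 hz
    simp only [pt]
    split_ifs with h
    · exact h.choose_spec.1
    · exact u.2
  · intro x hx
    have h1 := hF hx
    simp only [mem_iUnion, mem_preimage, exists_prop] at h1
    obtain ⟨l, hl, hxl⟩ := h1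
    refine ⟨pt l, Finset.mem_image_of_mem _ hl, ?_⟩
    have hex : ∃ x ∈ D, act f g l x ∈ O := ⟨x, hx, hxl⟩
    have hpt : pt l ∈ D ∧ act f g l (pt l) ∈ O := by
      simp only [pt]
      rw [dif_pos hex]
      exact hex.choose_spec
    rw [← hiso l x hx _ hpt.1]
    have h2 := hOd _ (hact l x hx) hxl
    have h3 := hOd _ (hact l _ hpt.1) hpt.2
    calc ‖j (act f g l x) - j (act f g l (pt l))‖
        = ‖(j (act f g l x) - j (d n)) - (j (act f g l (pt l)) - j (d n))‖ := by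
          congr 1; abel
      _ ≤ ‖j (act f g l x) - j (d n)‖ + ‖j (act f g l (pt l)) - j (d n)‖ := norm_sub_le _ _
      _ ≤ ε := by linarith

/-- Isometric self-maps of totally bounded sets with closed range are onto. -/
theorem onto (hnc : ∀ K : Set Z, IsClosed K → ∀ x, (∀ ε > 0, ∃ y ∈ K, ‖j x - j y‖ ≤ ε) → x ∈ K)
    {f : Z → Z} (hf : Continuous f) (D : Set Z) (hD : IsClosed D) (hDf : ∀ x ∈ D, f x ∈ D)
    (hfi : ∀ x ∈ D, ∀ y ∈ D, ‖j (f x) - j (f y)‖ = ‖j x - j y‖)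
    (htb : ∀ ε > (0 : ℝ), ∃ N : Finset Z, (∀ z ∈ N, z ∈ D) ∧ ∀ x ∈ D, ∃ z ∈ N, ‖j x - j z‖ ≤ ε) :
    f '' D = D := by
  apply subset_antisymm
  · rintro _ ⟨x, hx, rfl⟩
    exact hDf x hx
  · intro x hx
    apply hnc (f '' D) ((hD.isCompact.image hf).isClosed) x
    intro ε hε
    obtain ⟨N, -, hN⟩ := htb (ε / 2) (half_pos hε)
    have hit : ∀ n : ℕ, ∀ y ∈ D, f^[n] y ∈ D := by
      intro n
      induction n with
      | zero => exact fun y hy => hy
      | succ n ih => intro y hy; rw [Function.iterate_succ_apply']; exact hDf _ (ih y hy)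
    have hisn : ∀ n : ℕ, ∀ y ∈ D, ∀ z ∈ D, ‖j (f^[n] y) - j (f^[n] z)‖ = ‖j y - j z‖ := by
      intro n
      induction n with
      | zero => exact fun y _ z _ => rfl
      | succ n ih =>
        intro y hy z hz
        rw [Function.iterate_succ_apply', Function.iterate_succ_apply',
          hfi _ (hit n y hy) _ (hit n z hz), ih y hy z hz]
    choose c hcN hc using hN
    let q : ℕ → N := fun n => ⟨c (f^[n] x) (hit n x hx), hcN _ _⟩
    obtain ⟨a, b, hab, hq⟩ := Finite.exists_ne_map_eq_of_infinite q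
    have key : ∀ a b : ℕ, a < b → q a = q b → ∃ y ∈ f '' D, ‖j x - j y‖ ≤ ε := by
      intro a b hab hq
      obtain ⟨k, rfl⟩ := Nat.exists_eq_add_of_lt hab
      refine ⟨f^[k + 1] x, ?_, ?_⟩
      · rw [Function.iterate_succ_apply']
        exact ⟨_, hit k x hx, rfl⟩
      · rw [← hisn a x hx _ (hit (k + 1) x hx), ← Function.iterate_add_apply]
        have h1 := hc (f^[a] x) (hit a x hx)
        have h2 := hc (f^[a + k + 1] x) (hit _ x hx)
        have h3 : c (f^[a] x) (hit a x hx) = c (f^[a + k + 1] x) (hit _ x hx) :=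
          congrArg Subtype.val hq
        rw [h3] at h1
        rw [show a + (k + 1) = a + k + 1 by ring]
        calc ‖j (f^[a] x) - j (f^[a + k + 1] x)‖
            = ‖(j (f^[a] x) - j (c (f^[a + k + 1] x) (hit _ x hx))) -
              (j (f^[a + k + 1] x) - j (c (f^[a + k + 1] x) (hit _ x hx)))‖ := by
              congr 1; abel
          _ ≤ _ := norm_sub_le _ _
          _ ≤ ε := by linarith
    rcases lt_or_gt_of_ne hab with h | h
    · exact key a b h hq
    · exact key b a h hq.symm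

/-- De Marr's lemma for totally bounded sets. -/
theorem deMarr (D : Set Z) {x₁ x₂ : Z} (h1 : x₁ ∈ D) (h2 : x₂ ∈ D) (hne : 0 < ‖j x₁ - j x₂‖)
    (htb : ∀ ε > (0 : ℝ), ∃ N : Finset Z, (∀ z ∈ N, z ∈ D) ∧ ∀ x ∈ D, ∃ z ∈ N, ‖j x - j z‖ ≤ ε) :
    ∃ u ∈ convexHull ℝ (j '' D), ∃ r : ℝ, (∀ y ∈ D, ‖u - j y‖ ≤ r) ∧
      ∃ a ∈ D, ∃ b ∈ D, r < ‖j a - j b‖ := by
  classical
  -- boundedness
  obtain ⟨N₁, hN₁D, hN₁⟩ := htb 1 one_pos
  have hbdd : ∃ M, ∀ x ∈ D, ∀ y ∈ D, ‖j x - j y‖ ≤ M := by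
    obtain ⟨B, hB⟩ : ∃ B, ∀ z ∈ N₁, ‖j z‖ ≤ B := by
      obtain ⟨B, hB⟩ := (N₁.finite_toSet.image (fun z => ‖j z‖)).bddAbove
      exact ⟨B, fun z hz => hB ⟨z, hz, rfl⟩⟩
    refine ⟨2 * (B + 1), fun x hx y hy => ?_⟩
    have hb : ∀ x ∈ D, ‖j x‖ ≤ B + 1 := by
      intro x hx
      obtain ⟨z, hz, hxz⟩ := hN₁ x hx
      have := hB z hz
      calc ‖j x‖ = ‖(j x - j z) + j z‖ := by rw [sub_add_cancel]
        _ ≤ ‖j x - j z‖ + ‖j z‖ := norm_add_le _ _
        _ ≤ B + 1 := by linarith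
    calc ‖j x - j y‖ ≤ ‖j x‖ + ‖j y‖ := norm_sub_le _ _
      _ ≤ 2 * (B + 1) := by linarith [hb x hx, hb y hy]
  set A : Set ℝ := {t | ∃ a ∈ D, ∃ b ∈ D, t = ‖j a - j b‖} with hA
  have hAne : A.Nonempty := ⟨_, x₁, h1, x₂, h2, rfl⟩
  obtain ⟨M, hM⟩ := hbdd
  have hAb : BddAbove A := ⟨M, by rintro _ ⟨a, ha, b, hb, rfl⟩; exact hM a ha b hb⟩
  set δ := sSup A with hδ
  have hδle : ∀ a ∈ D, ∀ b ∈ D, ‖j a - j b‖ ≤ δ := fun a ha b hb =>
    le_csSup hAb ⟨a, ha, b, hb, rfl⟩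
  have hδpos : 0 < δ := lt_of_lt_of_le hne (hδle _ h1 _ h2)
  obtain ⟨N, hND, hN⟩ := htb (δ / 2) (half_pos hδpos)
  have hNne : N.Nonempty := by
    obtain ⟨z, hz, -⟩ := hN x₁ h1
    exact ⟨z, hz⟩
  have hn : (0 : ℝ) < (N.card : ℝ) := by exact_mod_cast hNne.card_pos
  set n : ℝ := (N.card : ℝ) with hnn
  refine ⟨∑ z ∈ N, (1 / n) • j z, ?_, δ - δ / (2 * n), ?_, ?_⟩
  · apply (convex_convexHull ℝ (j '' D)).sum_mem
    · intro i _; positivity
    · rw [Finset.sum_const, nsmul_eq_mul, ← hnn]; field_simp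
    · intro z hz
      exact subset_convexHull ℝ _ ⟨z, hND z hz, rfl⟩
  · intro y hy
    obtain ⟨z₀, hz₀, hyz₀⟩ := hN y hy
    have h3 : (∑ z ∈ N, (1 / n) • j z) - j y = ∑ z ∈ N, (1 / n) • (j z - j y) := by
      simp only [smul_sub, Finset.sum_sub_distrib]
      rw [Finset.sum_const, ← Nat.cast_smul_eq_nsmul ℝ, smul_smul, ← hnn]
      rw [show n * (1 / n) = 1 by field_simp, one_smul]
    rw [h3]
    refine (norm_sum_le _ _).trans ?_
    rw [← Finset.add_sum_erase N _ hz₀]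
    have h4 : ‖(1 / n) • (j z₀ - j y)‖ ≤ (1 / n) * (δ / 2) := by
      rw [norm_smul, Real.norm_eq_abs, abs_of_pos (by positivity), norm_sub_rev]
      gcongr
    have h5 : ∑ z ∈ N.erase z₀, ‖(1 / n) • (j z - j y)‖ ≤ (n - 1) * ((1 / n) * δ) := by
      calc ∑ z ∈ N.erase z₀, ‖(1 / n) • (j z - j y)‖ ≤ ∑ z ∈ N.erase z₀, (1 / n) * δ := by
            apply Finset.sum_le_sum
            intro z hz
            rw [norm_smul, Real.norm_eq_abs, abs_of_pos (by positivity)]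
            gcongr
            exact hδle z (hND z (Finset.mem_of_mem_erase hz)) y hy
        _ = (n - 1) * ((1 / n) * δ) := by
            rw [Finset.sum_const, Finset.card_erase_of_mem hz₀, nsmul_eq_mul,
              Nat.cast_sub hNne.card_pos, Nat.cast_one]
    calc ‖(1 / n) • (j z₀ - j y)‖ + ∑ z ∈ N.erase z₀, ‖(1 / n) • (j z - j y)‖
        ≤ (1 / n) * (δ / 2) + (n - 1) * ((1 / n) * δ) := add_le_add h4 h5
      _ = δ - δ / (2 * n) := by field_simp; ring
  · have h6 : δ - δ / (2 * n) < δ := by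
      have : 0 < δ / (2 * n) := by positivity
      linarith
    obtain ⟨t, ⟨a, ha, b, hb, rfl⟩, hlt⟩ := exists_lt_of_lt_csSup hAne h6
    exact ⟨a, ha, b, hb, hlt⟩

end

end Pool.Agent.X203.FixPt
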