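import Pool.Agent.X203.GamData

/-!
# A 96-gon: from the kernel-checked data to real inequalities
-/

namespace Pool.Agent.X203.Gam

theorem geo_lt {i : ℕ} (hi : i < 96) : geo i = true :=
  List.all_eq_true.1 geo_all i (List.mem_range.2 hi)

theorem chk_lt {i j : ℕ} (hi : i < 96) (hj : j < 96) : chk i j = true :=
  List.all_eq_true.1 (List.all_eq_true.1 chk_all i (List.mem_range.2 hi)) j (List.mem_range.2 hj)

theorem p_mod (i : ℕ) : p (i % 96) = p i := by simp [p]

theorem q_mod (i : ℕ) : q (i % 96) = q i := by simp [q]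

theorem p_add (i : ℕ) : p (i + 96) = p i := by simp [p]

theorem q_add (i : ℕ) : q (i + 96) = q i := by simp [q]

theorem p_add_mod (i k : ℕ) : p (i % 96 + k) = p (i + k) := by simp [p]

theorem q_add_mod (i k : ℕ) : q (i % 96 + k) = q (i + k) := by simp [q]

theorem dd_mod (i : ℕ) : dd (i % 96) = dd i := by
  simp only [dd, p_mod, q_mod, p_add_mod, q_add_mod]

theorem wx_mod (i : ℕ) : wx (i % 96) = wx i := by
  simp only [wx, q_mod, q_add_mod]

theorem wy_mod (i : ℕ) : wy (i % 96) = wy i := by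
  simp only [wy, p_mod, p_add_mod]

theorem dd_pos (i : ℕ) : 0 < dd i := by
  have h := geo_lt (Nat.mod_lt i (by norm_num : 0 < 96))
  simp only [geo, Bool.and_eq_true, decide_eq_true_eq] at h
  rw [← dd_mod]
  exact h.1.1.1.1

theorem geo1 {i : ℕ} (hi : i < 96) :
    p (i + 95) * wx (i + 1) + q (i + 95) * wy (i + 1) < dd (i + 1) := by
  have h := geo_lt hi
  simp only [geo, Bool.and_eq_true, decide_eq_true_eq] at h
  exact h.1.1.1.2

theorem geo2 {i : ℕ} (hi : i < 96) : p (i + 1) * wx i + q (i + 1) * wy i < dd i := by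
  have h := geo_lt hi
  simp only [geo, Bool.and_eq_true, decide_eq_true_eq] at h
  exact h.1.1.2

theorem sym {i : ℕ} (hi : i < 96) : p (i + 48) = - p i ∧ q (i + 48) = - q i := by
  have h := geo_lt hi
  simp only [geo, Bool.and_eq_true, decide_eq_true_eq] at h
  exact ⟨h.1.2, h.2⟩

/-- A point of an edge is a convex combination of the end points. -/
theorem edge_real (P0 Q0 P1 Q1 P2 Q2 M x y : ℝ) (hM : 0 < M) (hD1 : 0 < P0 * Q1 - P1 * Q0)
    (hD2 : 0 < P1 * Q2 - P2 * Q1)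
    (hg : P2 * (Q1 - Q0) + Q2 * (P0 - P1) < P0 * Q1 - P1 * Q0)
    (h0 : P1 * x + Q1 * y = M) (h1 : P0 * x + Q0 * y ≤ M) (h2 : P2 * x + Q2 * y ≤ M) :
    ∃ s t : ℝ, 0 ≤ s ∧ 0 ≤ t ∧ s + t = 1 ∧ ∀ a b : ℝ, a * x + b * y =
      M * (s * ((a * (Q1 - Q0) + b * (P0 - P1)) / (P0 * Q1 - P1 * Q0)) +
        t * ((a * (Q2 - Q1) + b * (P1 - P2)) / (P1 * Q2 - P2 * Q1))) := by
  set D1 := P0 * Q1 - P1 * Q0 with hD1e
  set D2 := P1 * Q2 - P2 * Q1 with hD2e
  set A := D1 - (P2 * (Q1 - Q0) + Q2 * (P0 - P1)) with hA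
  have hApos : 0 < A := by rw [hA]; linarith
  refine ⟨(M - (P2 * x + Q2 * y)) * D1 / (A * M), (M - (P0 * x + Q0 * y)) * D2 / (A * M), ?_, ?_,
    ?_, fun a b => ?_⟩
  · have : 0 ≤ M - (P2 * x + Q2 * y) := by linarith
    positivity
  · have : 0 ≤ M - (P0 * x + Q0 * y) := by linarith
    positivity
  · rw [← add_div, div_eq_one_iff_eq (by positivity)]
    rw [hA, hD1e, hD2e]
    linear_combination (P2 * Q0 - P0 * Q2) * h0
  · have h3 : M * ((M - (P2 * x + Q2 * y)) * D1 / (A * M) *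
        ((a * (Q1 - Q0) + b * (P0 - P1)) / D1) +
        (M - (P0 * x + Q0 * y)) * D2 / (A * M) * ((a * (Q2 - Q1) + b * (P1 - P2)) / D2)) =
        ((M - (P2 * x + Q2 * y)) * (a * (Q1 - Q0) + b * (P0 - P1)) +
          (M - (P0 * x + Q0 * y)) * (a * (Q2 - Q1) + b * (P1 - P2))) / A := by
      field_simp
    rw [h3, eq_div_iff hApos.ne', hA, hD1e]
    linear_combination (a * (Q2 - Q0) + b * (P0 - P2)) * h0

/-- The functionals. -/
noncomputable def fr (i : ℕ) (x y : ℝ) : ℝ := (p i * x + q i * y) / 100000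

theorem edge {i : ℕ} (hi : i < 96) {x y : ℝ} (h0 : fr i x y = 1) (h1 : fr (i + 95) x y ≤ 1)
    (h2 : fr (i + 1) x y ≤ 1) : ∃ s t : ℝ, 0 ≤ s ∧ 0 ≤ t ∧ s + t = 1 ∧ ∀ a b : ℝ, a * x + b * y =
      100000 * (s * ((a * wx i + b * wy i) / dd i) +
        t * ((a * wx (i + 1) + b * wy (i + 1)) / dd (i + 1))) := by
  unfold fr at h0 h1 h2
  have hd1 : (0 : ℝ) < (dd i : ℝ) := by exact_mod_cast dd_pos i
  have hd2 : (0 : ℝ) < (dd (i + 1) : ℝ) := by exact_mod_cast dd_pos (i + 1)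
  have hg : ((p (i + 1) * wx i + q (i + 1) * wy i : ℤ) : ℝ) < (dd i : ℝ) := by
    exact_mod_cast geo2 hi
  have e1 : p (i + 1 + 95) = p i := by rw [add_assoc]; exact p_add i
  have e2 : q (i + 1 + 95) = q i := by rw [add_assoc]; exact q_add i
  simp only [dd, wx, wy, e1, e2] at hd1 hd2 hg ⊢
  push_cast at hd1 hd2 hg ⊢
  exact edge_real _ _ _ _ _ _ 100000 x y (by norm_num) hd1 hd2 hg
    (by field_simp at h0; linarith) (by rw [div_le_one (by norm_num)] at h1; linarith)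
    (by rw [div_le_one (by norm_num)] at h2; linarith)

theorem corner_real {gx gy l : ℤ} {s t : ℕ} (h : corner gx gy l s t = true) :
    ((gx : ℝ) * wx s + gy * wy s) / dd s - (gx * wx t + gy * wy t) / dd t ≤
      64 * (21277 / 10000) - 1462 / 1000 * l := by
  unfold corner at h
  rw [decide_eq_true_eq] at h
  have hs : (0 : ℝ) < (dd s : ℝ) := by exact_mod_cast dd_pos s
  have ht : (0 : ℝ) < (dd t : ℝ) := by exact_mod_cast dd_pos t
  have h' : (10000 * (((gx : ℝ) * wx s + gy * wy s) * dd t - (gx * wx t + gy * wy t) * dd s) +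
    (14620 * l - 21277 * 64) * (dd s * dd t)) ≤ 0 := by exact_mod_cast h
  rw [div_sub_div _ _ hs.ne' ht.ne', div_le_iff₀ (by positivity)]
  nlinarith

/-- The main inequality. -/
theorem main {i j : ℕ} (hi : i < 96) (hj : j < 96) {x y x' y' : ℝ}
    (hx : ∀ k, fr k x y ≤ 1) (hy : ∀ k, fr k x' y' ≤ 1)
    (hxi : fr i x y = 1) (hyj : fr j x' y' = 1)
    (hd : ∀ k, fr k (x - x') (y - y') ≤ 1462 / 1000) :
    fr i (x - x') (y - y') - fr j (x - x') (y - y') ≤ 21277 / 10000 := by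
  obtain ⟨s, t, hs, ht, hst, h⟩ := edge hi hxi (hx _) (hx _)
  obtain ⟨s', t', hs', ht', hst', h'⟩ := edge hj hyj (hy _) (hy _)
  have hc := chk_lt hi hj
  simp only [chk, Bool.and_eq_true] at hc
  obtain ⟨⟨⟨c1, c2⟩, c3⟩, c4⟩ := hc
  have r1 := corner_real c1
  have r2 := corner_real c2
  have r3 := corner_real c3
  have r4 := corner_real c4
  clear c1 c2 c3 c4
  have hl : (0 : ℝ) ≤ (cl i j : ℝ) := by
    have : 0 ≤ cl i j := Int.natCast_nonneg _
    exact_mod_cast this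
  have hk := hd (ck i j)
  unfold fr at hk ⊢
  have e1 := h ((64 * p i - 64 * p j - cl i j * p (ck i j) : ℤ) : ℝ)
    ((64 * q i - 64 * q j - cl i j * q (ck i j) : ℤ) : ℝ)
  have e2 := h' ((64 * p i - 64 * p j - cl i j * p (ck i j) : ℤ) : ℝ)
    ((64 * q i - 64 * q j - cl i j * q (ck i j) : ℤ) : ℝ)
  generalize hA : (((64 * p i - 64 * p j - cl i j * p (ck i j) : ℤ) : ℝ) * wx i +
    ((64 * q i - 64 * q j - cl i j * q (ck i j) : ℤ) : ℝ) * wy i) / dd i = A at r1 r2 r3 r4 e1 e2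
  generalize hB : (((64 * p i - 64 * p j - cl i j * p (ck i j) : ℤ) : ℝ) * wx (i + 1) +
    ((64 * q i - 64 * q j - cl i j * q (ck i j) : ℤ) : ℝ) * wy (i + 1)) / dd (i + 1) = B
    at r1 r2 r3 r4 e1 e2
  generalize hC : (((64 * p i - 64 * p j - cl i j * p (ck i j) : ℤ) : ℝ) * wx j +
    ((64 * q i - 64 * q j - cl i j * q (ck i j) : ℤ) : ℝ) * wy j) / dd j = C at r1 r2 r3 r4 e1 e2
  generalize hE : (((64 * p i - 64 * p j - cl i j * p (ck i j) : ℤ) : ℝ) * wx (j + 1) +
    ((64 * q i - 64 * q j - cl i j * q (ck i j) : ℤ) : ℝ) * wy (j + 1)) / dd (j + 1) = E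
    at r1 r2 r3 r4 e1 e2
  push_cast at e1 e2
  -- the convex combination
  have hcomb : s * A + t * B - s' * C - t' * E ≤ 64 * (21277 / 10000) - 1462 / 1000 * cl i j := by
    have k1 : s * (s' * (A - C)) ≤ s * (s' * (64 * (21277 / 10000) - 1462 / 1000 * cl i j)) := by
      gcongr
    have k2 : t * (s' * (B - C)) ≤ t * (s' * (64 * (21277 / 10000) - 1462 / 1000 * cl i j)) := by
      gcongr
    have k3 : s * (t' * (A - E)) ≤ s * (t' * (64 * (21277 / 10000) - 1462 / 1000 * cl i j)) := by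
      gcongr
    have k4 : t * (t' * (B - E)) ≤ t * (t' * (64 * (21277 / 10000) - 1462 / 1000 * cl i j)) := by
      gcongr
    have hs1 : s = 1 - t := by linarith
    have hs2 : s' = 1 - t' := by linarith
    subst hs1 hs2
    linarith
  have hkk : (cl i j : ℝ) * ((p (ck i j) * (x - x') + q (ck i j) * (y - y')) / 100000) ≤
      cl i j * (1462 / 1000) := mul_le_mul_of_nonneg_left hk hl
  have e3 : 64 * ((p i * (x - x') + q i * (y - y')) / 100000 -
      (p j * (x - x') + q j * (y - y')) / 100000) =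
      (s * A + t * B - s' * C - t' * E) + cl i j *
        ((p (ck i j) * (x - x') + q (ck i j) * (y - y')) / 100000) := by
    linear_combination (1 / 100000) * e1 - (1 / 100000) * e2
  linarith

end Pool.Agent.X203.Gam
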