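import Pool.Agent.X203.RNPTree
import Pool.Agent.Helper902.NASimons

/-! Norm attainment in Bochner spaces and the Radon-Nikodym property. -/

namespace Pool.Agent.X203.NA

open MeasureTheory Set Filter Topology Pool.Agent.X203.Sier Pool.Agent.X203.RNPTree
open scoped ENNReal

set_option linter.unusedSectionVars false

/-- bounded orthogonal sequences are weakly null -/
theorem tendsto_inner {𝕜 H : Type*} [RCLike 𝕜] [NormedAddCommGroup H] [InnerProductSpace 𝕜 H]
    (x : ℕ → H) (C : ℝ) (hC : ∀ k, ‖x k‖ ≤ C)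
    (horth : ∀ k l, k < l → inner 𝕜 (x k) (x l) = 0) (u : H) :
    Tendsto (fun k => inner 𝕜 u (x k)) atTop (𝓝 0) := by
  let a : ℕ → 𝕜 := fun k => inner 𝕜 u (x k)
  let Q : ℕ → ℝ := fun N => ∑ k ∈ Finset.range N, ‖a k‖ ^ 2
  let T : ℕ → H := fun N => ∑ k ∈ Finset.range N, (starRingEnd 𝕜 (a k)) • x k
  have hC0 : 0 ≤ C := (norm_nonneg _).trans (hC 0)
  have hTx : ∀ N l, N ≤ l → inner 𝕜 (T N) (x l) = 0 := by
    intro N l hl
    simp only [T]
    rw [sum_inner]
    apply Finset.sum_eq_zero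
    intro k hk
    rw [inner_smul_left, horth k l (lt_of_lt_of_le (Finset.mem_range.1 hk) hl), mul_zero]
  have hT : ∀ N, ‖T N‖ ^ 2 ≤ C ^ 2 * Q N := by
    intro N
    induction N with
    | zero => simp [T, Q]
    | succ N ih =>
      have h1 : T (N + 1) = T N + (starRingEnd 𝕜 (a N)) • x N := by
        simp only [T]; rw [Finset.sum_range_succ]
      have h2 : Q (N + 1) = Q N + ‖a N‖ ^ 2 := by
        simp only [Q]; rw [Finset.sum_range_succ]
      have h3 : inner 𝕜 (T N) ((starRingEnd 𝕜 (a N)) • x N) = 0 := by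
        rw [inner_smul_right, hTx N N le_rfl, mul_zero]
      rw [h1, h2, @norm_add_sq 𝕜, h3, map_zero, mul_zero, add_zero, norm_smul, RCLike.norm_conj,
        mul_pow]
      have h4 : ‖x N‖ ^ 2 ≤ C ^ 2 := by
        have := hC N
        gcongr
      have h5 : 0 ≤ ‖a N‖ ^ 2 := by positivity
      nlinarith
  have hQ : ∀ N, Q N ≤ C ^ 2 * ‖u‖ ^ 2 := by
    intro N
    have h0 : 0 ≤ Q N := Finset.sum_nonneg fun _ _ => by positivity
    have h1 : inner 𝕜 u (T N) = (Q N : 𝕜) := by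
      simp only [T, Q]
      rw [inner_sum]
      push_cast
      apply Finset.sum_congr rfl
      intro k _
      rw [inner_smul_right]
      exact RCLike.conj_mul (a k)
    have h2 : Q N ≤ ‖u‖ * ‖T N‖ := by
      have := norm_inner_le_norm (𝕜 := 𝕜) u (T N)
      rw [h1, RCLike.norm_ofReal, abs_of_nonneg h0] at this
      exact this
    have h3 : Q N ^ 2 ≤ ‖u‖ ^ 2 * (C ^ 2 * Q N) := by
      calc Q N ^ 2 ≤ (‖u‖ * ‖T N‖) ^ 2 := by gcongr
        _ = ‖u‖ ^ 2 * ‖T N‖ ^ 2 := mul_pow _ _ _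
        _ ≤ _ := by gcongr; exact hT N
    rcases h0.eq_or_lt with h | h
    · rw [← h]; positivity
    · have h4 : Q N * Q N ≤ (C ^ 2 * ‖u‖ ^ 2) * Q N := by nlinarith
      exact le_of_mul_le_mul_right h4 h
  have hs : Summable (fun k => ‖a k‖ ^ 2) :=
    summable_of_sum_range_le (fun _ => by positivity) hQ
  have h1 := hs.tendsto_atTop_zero
  rw [tendsto_zero_iff_norm_tendsto_zero]
  have h2 := h1.sqrt
  simpa [Real.sqrt_sq (norm_nonneg _)] using h2

theorem exists_near {𝕜 X : Type*} [RCLike 𝕜] [NormedAddCommGroup X] [NormedSpace 𝕜 X]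
    (f : StrongDual 𝕜 X) {δ : ℝ} (hδ : 0 < δ) :
    ∃ y : X, ‖y‖ ≤ 1 ∧ ‖f‖ - δ ≤ RCLike.re (f y) := by
  obtain ⟨x, hx, h⟩ := f.exists_lt_apply_of_lt_opNorm (show ‖f‖ - δ < ‖f‖ by linarith)
  obtain ⟨c, hc, hcx⟩ : ∃ c : 𝕜, ‖c‖ = 1 ∧ c * f x = ‖f x‖ := by
    rcases eq_or_ne (f x) 0 with h0 | h0
    · exact ⟨1, by simp, by simp [h0]⟩
    · refine ⟨starRingEnd 𝕜 (f x) / ‖f x‖, ?_, ?_⟩
      · rw [norm_div, RCLike.norm_conj, RCLike.norm_ofReal, abs_norm,
          div_self (norm_ne_zero_iff.2 h0)]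
      · rw [div_mul_eq_mul_div, RCLike.conj_mul, sq]
        have : (‖f x‖ : 𝕜) ≠ 0 := by
          rw [Ne, RCLike.ofReal_eq_zero]
          exact norm_ne_zero_iff.2 h0
        field_simp
  refine ⟨c • x, ?_, ?_⟩
  · rw [norm_smul, hc, one_mul]; exact hx.le
  · rw [map_smul, smul_eq_mul, hcx, RCLike.ofReal_re]
    exact h.le

/-! ### The test functions -/

section tree

variable {𝕜 X : Type*} [RCLike 𝕜] [NormedAddCommGroup X] [NormedSpace 𝕜 X] [NormedSpace ℝ X]
  [IsScalarTower ℝ 𝕜 X]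

theorem sum_tower {ι : Type*} [DecidableEq ι] (T : WTree ι) (k : ℕ) {M : Type*} [AddCommMonoid M]
    (G : ι → M) :
    ∑ i ∈ T.S (k + 1), G i = ∑ t ∈ T.S k, ∑ i ∈ T.S (k + 1) with T.r k i = t, G i :=
  (Finset.sum_fiberwise_of_maps_to (T.maps k) G).symm

theorem sum_weights {ι : Type*} [DecidableEq ι] (T : WTree ι) (k : ℕ) :
    ∑ i ∈ T.S k, T.p k i = 1 := by
  induction k with
  | zero => exact T.total
  | succ k ih =>
    rw [sum_tower, ← ih]
    exact Finset.sum_congr rfl fun t ht => T.sum_eq k t ht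

variable (B : Bush (StrongDual 𝕜 X))

theorem exists_y (k : ℕ) (i : B.ι) : ∃ y : X, ‖y‖ ≤ 1 ∧
    ‖B.v (k + 1) i - B.v k (B.T.r k i)‖ - B.ε / 2 ≤
      RCLike.re ((B.v (k + 1) i - B.v k (B.T.r k i)) y) :=
  exists_near _ (half_pos B.pos)

/-- the test vectors -/
noncomputable def y (k : ℕ) (i : B.ι) : X := (exists_y B k i).choose

theorem norm_y (k : ℕ) (i : B.ι) : ‖y B k i‖ ≤ 1 := (exists_y B k i).choose_spec.1

theorem re_y (k : ℕ) (i : B.ι) : ‖B.v (k + 1) i - B.v k (B.T.r k i)‖ - B.ε / 2 ≤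
      RCLike.re ((B.v (k + 1) i - B.v k (B.T.r k i)) (y B k i)) := (exists_y B k i).choose_spec.2

/-- their averages -/
noncomputable def z (k : ℕ) (t : B.ι) : X :=
  (B.T.p k t)⁻¹ • ∑ i ∈ B.T.S (k + 1) with B.T.r k i = t, B.T.p (k + 1) i • y B k i

/-- the centred test vectors -/
noncomputable def Y (k : ℕ) (i : B.ι) : X := y B k i - z B k (B.T.r k i)

theorem smul_z (k : ℕ) {t : B.ι} (ht : t ∈ B.T.S k) : B.T.p k t • z B k t =
    ∑ i ∈ B.T.S (k + 1) with B.T.r k i = t, B.T.p (k + 1) i • y B k i := by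
  unfold z
  rcases (B.T.nonneg k t ht).eq_or_lt with h | h
  · rw [← h, zero_smul]
    symm
    apply Finset.sum_eq_zero
    intro i hi
    have h1 := B.T.sum_eq k t ht
    rw [← h, Finset.sum_eq_zero_iff_of_nonneg
      (fun i hi => B.T.nonneg _ i (Finset.mem_filter.1 hi).1)] at h1
    rw [h1 i hi, zero_smul]
  · rw [smul_smul, mul_inv_cancel₀ h.ne', one_smul]

theorem norm_z (k : ℕ) {t : B.ι} (ht : t ∈ B.T.S k) : ‖z B k t‖ ≤ 1 := by
  unfold z
  rcases (B.T.nonneg k t ht).eq_or_lt with h | h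
  · rw [← h]; simp
  · rw [norm_smul, norm_inv, Real.norm_eq_abs, abs_of_pos h, inv_mul_le_iff₀ h, mul_one,
      ← B.T.sum_eq k t ht]
    refine (norm_sum_le _ _).trans (Finset.sum_le_sum fun i hi => ?_)
    have h1 := B.T.nonneg (k + 1) i (Finset.mem_filter.1 hi).1
    rw [norm_smul, Real.norm_eq_abs, abs_of_nonneg h1]
    exact mul_le_of_le_one_right h1 (norm_y B k i)

theorem norm_Y (k : ℕ) {i : B.ι} (hi : i ∈ B.T.S (k + 1)) : ‖Y B k i‖ ≤ 2 := by
  have h1 := norm_y B k i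
  have h2 := norm_z B k (B.T.maps k i hi)
  have h3 := norm_sub_le (y B k i) (z B k (B.T.r k i))
  unfold Y
  linarith

theorem centred (k : ℕ) {t : B.ι} (ht : t ∈ B.T.S k) :
    ∑ i ∈ B.T.S (k + 1) with B.T.r k i = t, B.T.p (k + 1) i • Y B k i = 0 := by
  have h1 : ∑ i ∈ B.T.S (k + 1) with B.T.r k i = t, B.T.p (k + 1) i • Y B k i =
      ∑ i ∈ B.T.S (k + 1) with B.T.r k i = t,
        (B.T.p (k + 1) i • y B k i - B.T.p (k + 1) i • z B k t) := by
    apply Finset.sum_congr rfl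
    intro i hi
    unfold Y
    rw [smul_sub, (Finset.mem_filter.1 hi).2]
  rw [h1, Finset.sum_sub_distrib, ← Finset.sum_smul, B.T.sum_eq k t ht, smul_z B k ht, sub_self]

/-- the value at the first level -/
theorem first_value (k : ℕ) : B.ε / 2 ≤
    RCLike.re (∑ i ∈ B.T.S (k + 1), B.T.p (k + 1) i • B.v (k + 1) i (Y B k i)) := by
  have h1 : ∑ i ∈ B.T.S (k + 1), B.T.p (k + 1) i • B.v k (B.T.r k i) (Y B k i) = 0 := by
    rw [sum_tower]
    apply Finset.sum_eq_zero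
    intro t ht
    have h2 : ∑ i ∈ B.T.S (k + 1) with B.T.r k i = t,
        B.T.p (k + 1) i • B.v k (B.T.r k i) (Y B k i) =
        B.v k t (∑ i ∈ B.T.S (k + 1) with B.T.r k i = t, B.T.p (k + 1) i • Y B k i) := by
      rw [map_sum]
      apply Finset.sum_congr rfl
      intro i hi
      rw [(Finset.mem_filter.1 hi).2]
      exact ((B.v k t).map_smul_of_tower _ _).symm
    rw [h2, centred B k ht, map_zero]
  have h3 : ∑ i ∈ B.T.S (k + 1), B.T.p (k + 1) i •
      (B.v (k + 1) i - B.v k (B.T.r k i)) (z B k (B.T.r k i)) = 0 := by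
    rw [sum_tower]
    apply Finset.sum_eq_zero
    intro t ht
    have h2 : ∑ i ∈ B.T.S (k + 1) with B.T.r k i = t, B.T.p (k + 1) i •
        (B.v (k + 1) i - B.v k (B.T.r k i)) (z B k (B.T.r k i)) =
        (∑ i ∈ B.T.S (k + 1) with B.T.r k i = t, B.T.p (k + 1) i • B.v (k + 1) i) (z B k t) -
          (∑ i ∈ B.T.S (k + 1) with B.T.r k i = t, B.T.p (k + 1) i) • (B.v k t) (z B k t) := by
      rw [Finset.sum_smul, _root_.sum_apply, ← Finset.sum_sub_distrib]
      apply Finset.sum_congr rfl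
      intro i hi
      rw [(Finset.mem_filter.1 hi).2, _root_.smul_apply, ← smul_sub, _root_.sub_apply]
    rw [h2, B.mart k t ht, B.T.sum_eq k t ht, _root_.smul_apply, sub_self]
  have h4 : ∑ i ∈ B.T.S (k + 1), B.T.p (k + 1) i • B.v (k + 1) i (Y B k i) =
      ∑ i ∈ B.T.S (k + 1), B.T.p (k + 1) i •
        (B.v (k + 1) i - B.v k (B.T.r k i)) (y B k i) := by
    have h5 : ∑ i ∈ B.T.S (k + 1), B.T.p (k + 1) i • B.v (k + 1) i (Y B k i) =
        ∑ i ∈ B.T.S (k + 1), B.T.p (k + 1) i • B.v k (B.T.r k i) (Y B k i) +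
        (∑ i ∈ B.T.S (k + 1), B.T.p (k + 1) i •
          (B.v (k + 1) i - B.v k (B.T.r k i)) (y B k i) -
        ∑ i ∈ B.T.S (k + 1), B.T.p (k + 1) i •
          (B.v (k + 1) i - B.v k (B.T.r k i)) (z B k (B.T.r k i))) := by
      rw [← Finset.sum_sub_distrib, ← Finset.sum_add_distrib]
      apply Finset.sum_congr rfl
      intro i _
      rw [← smul_sub, ← map_sub, ← smul_add]
      congr 1
      rw [_root_.sub_apply]
      show _ = _ + (_ - _)
      unfold Y
      abel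
    rw [h5, h1, h3, zero_add, sub_zero]
  rw [h4, map_sum]
  have h6 : ∀ i ∈ B.T.S (k + 1), B.T.p (k + 1) i * ‖B.v (k + 1) i - B.v k (B.T.r k i)‖ -
      B.T.p (k + 1) i * (B.ε / 2) ≤
      RCLike.re (B.T.p (k + 1) i • (B.v (k + 1) i - B.v k (B.T.r k i)) (y B k i)) := by
    intro i hi
    rw [RCLike.smul_re, ← mul_sub]
    exact mul_le_mul_of_nonneg_left (re_y B k i) (B.T.nonneg _ i hi)
  refine le_trans ?_ (Finset.sum_le_sum h6)
  rw [Finset.sum_sub_distrib, ← Finset.sum_mul, sum_weights]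
  have := B.big k
  linarith

end tree

end Pool.Agent.X203.NA
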