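import Pool.Agent.X203.NormAttain

/-! Norm attainment in Bochner spaces and the Radon-Nikodym property: functions. -/

namespace Pool.Agent.X203.NA

open MeasureTheory Set Filter Topology Pool.Agent.X203.Sier Pool.Agent.X203.RNPTree
open scoped ENNReal

set_option linter.unusedSectionVars false

section levels

variable {Ω : Type*} [MeasurableSpace Ω] {μ : Measure Ω} [IsProbabilityMeasure μ]
  {ι : Type*} [DecidableEq ι] {T : WTree ι} (l : ∀ k, Level T μ k)
  (hl : ∀ k ω, T.r k ((l (k + 1)).d ω) = (l k).d ω)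

theorem int_level {E : Type*} [NormedAddCommGroup E] [NormedSpace ℝ E] [CompleteSpace E] (k : ℕ)
    (G : ι → E) : ∫ ω, G ((l k).d ω) ∂μ = ∑ i ∈ T.S k, T.p k i • G i := by
  rw [integral_comp (l k).d (T.S k) (l k).mem (l k).meas G]
  exact Finset.sum_congr rfl fun i hi => by rw [(l k).weight i hi]

theorem memLp_level {E : Type*} [NormedAddCommGroup E] (k : ℕ) (G : ι → E) (r : ℝ≥0∞) :
    MemLp (fun ω => G ((l k).d ω)) r μ := by
  apply MemLp.of_bound (C := ∑ i ∈ T.S k, ‖G i‖)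
  · exact (integrable_comp (ρ := μ) (l k).d (T.S k) (l k).mem (l k).meas G).aestronglyMeasurable
  · refine Eventually.of_forall fun ω => ?_
    exact Finset.single_le_sum (f := fun i => ‖G i‖) (fun i _ => norm_nonneg _) ((l k).mem ω)

include hl

theorem anc (j : ℕ) : ∀ K, j ≤ K → ∃ ρ : ι → ι, ∀ ω, (l j).d ω = ρ ((l K).d ω) := by
  intro K hK
  induction K, hK using Nat.le_induction with
  | base => exact ⟨id, fun _ => rfl⟩
  | succ K _ ih =>
    obtain ⟨ρ, hρ⟩ := ih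
    exact ⟨ρ ∘ T.r K, fun ω => by rw [Function.comp, hl]; exact hρ ω⟩

end levels

section main

variable {𝕜 X : Type*} [RCLike 𝕜] [NormedAddCommGroup X] [NormedSpace 𝕜 X] [NormedSpace ℝ X]
  [IsScalarTower ℝ 𝕜 X] (B : Bush (StrongDual 𝕜 X))
  {Ω : Type*} [MeasurableSpace Ω] {μ : Measure Ω} [IsProbabilityMeasure μ]
  (l : ∀ k, Level B.T μ k) (hl : ∀ k ω, B.T.r k ((l (k + 1)).d ω) = (l k).d ω)

/-- the test functions -/
noncomputable def W (k : ℕ) (ω : Ω) : X := Y B k ((l (k + 1)).d ω)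

theorem norm_W (k : ℕ) (ω : Ω) : ‖W B l k ω‖ ≤ 2 := norm_Y B k ((l (k + 1)).mem ω)

theorem memLp_W (k : ℕ) (r : ℝ≥0∞) : MemLp (W B l k) r μ := memLp_level l (k + 1) (Y B k) r

/-- the martingale in the dual -/
noncomputable def b (K : ℕ) (ω : Ω) : StrongDual 𝕜 X := B.v K ((l K).d ω)

theorem norm_b (K : ℕ) (ω : Ω) : ‖b B l K ω‖ ≤ 1 := B.norm_le _ _

theorem memLp_b (K : ℕ) (r : ℝ≥0∞) : MemLp (b B l K) r μ := memLp_level l K (B.v K) r

include hl in
theorem step (K : ℕ) (h : B.ι → X) :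
    ∫ ω, b B l (K + 1) ω (h ((l K).d ω)) ∂μ = ∫ ω, b B l K ω (h ((l K).d ω)) ∂μ := by
  have h1 : ∀ ω, b B l (K + 1) ω (h ((l K).d ω)) =
      (fun i => B.v (K + 1) i (h (B.T.r K i))) ((l (K + 1)).d ω) := by
    intro ω
    simp only [b]
    rw [hl]
  have h2 : ∀ ω, b B l K ω (h ((l K).d ω)) = (fun t => B.v K t (h t)) ((l K).d ω) := fun ω => rfl
  simp_rw [h1, h2]
  rw [int_level l (K + 1) (fun i => B.v (K + 1) i (h (B.T.r K i))),
    int_level l K (fun t => B.v K t (h t)), sum_tower]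
  apply Finset.sum_congr rfl
  intro t ht
  have h3 : ∑ i ∈ B.T.S (K + 1) with B.T.r K i = t,
      B.T.p (K + 1) i • B.v (K + 1) i (h (B.T.r K i)) =
      (∑ i ∈ B.T.S (K + 1) with B.T.r K i = t, B.T.p (K + 1) i • B.v (K + 1) i) (h t) := by
    rw [_root_.sum_apply]
    apply Finset.sum_congr rfl
    intro i hi
    rw [(Finset.mem_filter.1 hi).2, _root_.smul_apply]
  rw [h3, B.mart K t ht, _root_.smul_apply]

include hl in
theorem value (k K : ℕ) (hk : k + 1 ≤ K) :
    B.ε / 2 ≤ RCLike.re (∫ ω, b B l K ω (W B l k ω) ∂μ) := by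
  induction K, hk using Nat.le_induction with
  | base =>
    have h1 := first_value B k
    have h2 : ∀ ω, b B l (k + 1) ω (W B l k ω) =
        (fun i => B.v (k + 1) i (Y B k i)) ((l (k + 1)).d ω) := fun ω => rfl
    simp_rw [h2]
    rw [int_level l (k + 1) (fun i => B.v (k + 1) i (Y B k i))]
    exact h1
  | succ K hK ih =>
    obtain ⟨ρ, hρ⟩ := anc l hl (k + 1) K hK
    have h1 : ∀ ω, W B l k ω = (fun t => Y B k (ρ t)) ((l K).d ω) := by
      intro ω
      unfold W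
      rw [hρ]
    have h2 := step B l hl K (fun t => Y B k (ρ t))
    simp_rw [← h1] at h2
    rw [h2]
    exact ih

/-- composition with a functional, in `L²` -/
noncomputable def s2 (φ : StrongDual 𝕜 X) (k : ℕ) : Lp 𝕜 2 μ :=
  (memLp_level l (k + 1) (fun i => φ (Y B k i)) 2).toLp

theorem s2_ae (φ : StrongDual 𝕜 X) (k : ℕ) : s2 B l φ k =ᵐ[μ] fun ω => φ (W B l k ω) :=
  MemLp.coeFn_toLp _

include hl in
theorem orth (φ : StrongDual 𝕜 X) (k m : ℕ) (hkm : k < m) :
    inner 𝕜 (s2 B l φ k) (s2 B l φ m) = 0 := by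
  rw [L2.inner_def]
  obtain ⟨ρ, hρ⟩ := anc l hl (k + 1) m hkm
  have h1 : (fun ω => inner 𝕜 (s2 B l φ k ω) (s2 B l φ m ω)) =ᵐ[μ] fun ω =>
      (fun i => inner 𝕜 (φ (Y B k (ρ (B.T.r m i)))) (φ (Y B m i))) ((l (m + 1)).d ω) := by
    filter_upwards [s2_ae B l φ k, s2_ae B l φ m] with ω h2 h3
    rw [h2, h3]
    simp only [W]
    rw [hρ, hl]
  rw [integral_congr_ae h1, int_level l (m + 1)
    (fun i => inner 𝕜 (φ (Y B k (ρ (B.T.r m i)))) (φ (Y B m i))), sum_tower]
  apply Finset.sum_eq_zero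
  intro t ht
  have h3 : ∑ i ∈ B.T.S (m + 1) with B.T.r m i = t,
      B.T.p (m + 1) i • inner 𝕜 (φ (Y B k (ρ (B.T.r m i)))) (φ (Y B m i)) =
      inner 𝕜 (φ (Y B k (ρ t)))
        (φ (∑ i ∈ B.T.S (m + 1) with B.T.r m i = t, B.T.p (m + 1) i • Y B m i)) := by
    rw [map_sum, inner_sum]
    apply Finset.sum_congr rfl
    intro i hi
    rw [(Finset.mem_filter.1 hi).2]
    rw [show φ (B.T.p (m + 1) i • Y B m i) = B.T.p (m + 1) i • φ (Y B m i) from
      φ.map_smul_of_tower _ _]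
    rw [RCLike.real_smul_eq_coe_smul (K := 𝕜), RCLike.real_smul_eq_coe_smul (K := 𝕜),
      inner_smul_right, smul_eq_mul]
  rw [h3, centred B m ht, map_zero, inner_zero_right]

theorem norm_s2 (φ : StrongDual 𝕜 X) (k : ℕ) : ‖s2 B l φ k‖ ≤ 2 * ‖φ‖ := by
  have h1 : ∀ᵐ ω ∂μ, ‖s2 B l φ k ω‖ ≤ 2 * ‖φ‖ := by
    filter_upwards [s2_ae B l φ k] with ω hω
    rw [hω]
    have h2 := φ.le_opNorm (W B l k ω)
    have h3 := norm_W B l k ω
    have h4 := norm_nonneg φ
    nlinarith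
  have h2 := Lp.norm_le_of_ae_bound (by positivity) h1
  have h3 : measureUnivNNReal μ = 1 := by
    unfold measureUnivNNReal
    simp
  rw [h3] at h2
  simpa using h2

include hl in
theorem weak_null_ind (φ : StrongDual 𝕜 X) {A : Set Ω} (hA : MeasurableSet A) :
    Tendsto (fun k => ∫ ω in A, φ (W B l k ω) ∂μ) atTop (𝓝 0) := by
  have h1 := tendsto_inner (𝕜 := 𝕜) (fun k => s2 B l φ k) (2 * ‖φ‖) (norm_s2 B l φ)
    (orth B l hl φ) (indicatorConstLp 2 hA (measure_ne_top μ A) (1 : 𝕜))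
  refine h1.congr fun k => ?_
  rw [L2.inner_indicatorConstLp_one]
  exact integral_congr_ae (ae_restrict_of_ae (s2_ae B l φ k))

theorem integrable_pair {g : Ω → StrongDual 𝕜 X} (hg : Integrable g μ) (k : ℕ) :
    Integrable (fun ω => g ω (W B l k ω)) μ := by
  have := (ContinuousLinearMap.id 𝕜 (StrongDual 𝕜 X)).integrable_of_bilin_of_bdd_right 2 hg
    (memLp_W B l k 1).aestronglyMeasurable (Eventually.of_forall (norm_W B l k))
  exact this

theorem norm_pair_le {g : Ω → StrongDual 𝕜 X} (hg : Integrable g μ) (k : ℕ) :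
    ‖∫ ω, g ω (W B l k ω) ∂μ‖ ≤ 2 * ∫ ω, ‖g ω‖ ∂μ := by
  rw [← integral_const_mul]
  refine (norm_integral_le_integral_norm _).trans ?_
  apply integral_mono (integrable_pair B l hg k).norm (hg.norm.const_mul 2)
  intro ω
  have h2 := (g ω).le_opNorm (W B l k ω)
  have h3 := norm_W B l k ω
  have h4 := norm_nonneg (g ω)
  simp only
  nlinarith

include hl in
theorem weak_null {g : Ω → StrongDual 𝕜 X} (hg : Integrable g μ) :
    Tendsto (fun k => ∫ ω, g ω (W B l k ω) ∂μ) atTop (𝓝 0) := by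
  refine Integrable.induction
    (P := fun g : Ω → StrongDual 𝕜 X =>
      Tendsto (fun k => ∫ ω, g ω (W B l k ω) ∂μ) atTop (𝓝 0)) ?_ ?_ ?_ ?_ hg
  · intro c s hs _
    refine (weak_null_ind B l hl c hs).congr fun k => ?_
    rw [← integral_indicator hs]
    congr 1
    funext ω
    by_cases h : ω ∈ s
    · rw [indicator_of_mem h, indicator_of_mem h]
    · rw [indicator_of_notMem h, indicator_of_notMem h]
      rfl
  · intro f g _ hf hg ihf ihg
    have := ihf.add ihg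
    rw [add_zero] at this
    refine this.congr fun k => ?_
    rw [← integral_add (integrable_pair B l hf k) (integrable_pair B l hg k)]
    rfl
  · rw [← isSeqClosed_iff_isClosed]
    intro g g0 hg hlim
    simp only [mem_ofPred_eq] at hg ⊢
    rw [Metric.tendsto_atTop]
    intro ε hε
    rw [Metric.tendsto_atTop] at hlim
    obtain ⟨N, hN⟩ := hlim (ε / 4) (by positivity)
    obtain ⟨M, hM⟩ := Metric.tendsto_atTop.1 (hg N) (ε / 2) (by positivity)
    refine ⟨M, fun k hk => ?_⟩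
    have h1 := hM k hk
    have h2 := hN N le_rfl
    rw [dist_zero_right] at h1 ⊢
    have i1 := L1.integrable_coeFn (g N)
    have i2 := L1.integrable_coeFn g0
    have h3 := norm_pair_le B l (i2.sub i1) k
    have h4 : ∫ ω, ‖(g0 - g N : Ω → StrongDual 𝕜 X) ω‖ ∂μ = dist (g N) g0 := by
      rw [dist_comm, dist_eq_norm, L1.norm_eq_integral_norm]
      apply integral_congr_ae
      filter_upwards [Lp.coeFn_sub g0 (g N)] with ω hω
      rw [hω]
    have h5 : ∫ ω, (g0 - g N : Ω → StrongDual 𝕜 X) ω (W B l k ω) ∂μ =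
        ∫ ω, g0 ω (W B l k ω) ∂μ - ∫ ω, g N ω (W B l k ω) ∂μ := by
      rw [← integral_sub (integrable_pair B l i2 k) (integrable_pair B l i1 k)]
      rfl
    rw [h5, h4] at h3
    have h6 := norm_add_le (∫ ω, g0 ω (W B l k ω) ∂μ - ∫ ω, g N ω (W B l k ω) ∂μ)
      (∫ ω, g N ω (W B l k ω) ∂μ)
    rw [sub_add_cancel] at h6
    linarith
  · intro f g hfg _ ih
    refine ih.congr fun k => ?_
    apply integral_congr_ae
    filter_upwards [hfg] with ω hω
    rw [hω]

end main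

end Pool.Agent.X203.NA
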