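import Mathlib

/-! Numerical radius, skew-hermitian operators and the second numerical index of a real Banach
space. -/

namespace Pool.Agent.X203.NumIdx

section Defs

variable {X : Type*} [NormedAddCommGroup X] [NormedSpace ℝ X]

/-- The numerical radius `v(T)`. -/
noncomputable def numRadius (T : X →L[ℝ] X) : ℝ :=
  sSup {t : ℝ | ∃ (x : X) (f : X →L[ℝ] ℝ), ‖x‖ = 1 ∧ ‖f‖ = 1 ∧ f x = 1 ∧ t = |f (T x)|}

/-- The quotient norm `‖T + Z(X)‖`, where `Z(X)` is the set of the operators with numerical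
radius `0` (skew-hermitian operators). -/
noncomputable def quotNorm (T : X →L[ℝ] X) : ℝ :=
  sInf {t : ℝ | ∃ S : X →L[ℝ] X, numRadius S = 0 ∧ t = ‖T - S‖}

variable (X) in
/-- The second numerical index `n'(X)`. -/
noncomputable def secondIndex : ℝ :=
  sSup {k : ℝ | 0 ≤ k ∧ ∀ T : X →L[ℝ] X, k * quotNorm T ≤ numRadius T}

end Defs

section Basic

variable {X : Type*} [NormedAddCommGroup X] [NormedSpace ℝ X]

theorem bddAbove_num (T : X →L[ℝ] X) :
    BddAbove {t : ℝ | ∃ (x : X) (f : X →L[ℝ] ℝ), ‖x‖ = 1 ∧ ‖f‖ = 1 ∧ f x = 1 ∧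
      t = |f (T x)|} := by
  refine ⟨‖T‖, ?_⟩
  rintro t ⟨x, f, hx, hf, -, rfl⟩
  calc |f (T x)| = ‖f (T x)‖ := (Real.norm_eq_abs _).symm
    _ ≤ ‖f‖ * ‖T x‖ := f.le_opNorm _
    _ ≤ ‖f‖ * (‖T‖ * ‖x‖) := by gcongr; exact T.le_opNorm x
    _ = ‖T‖ := by rw [hf, hx]; ring

theorem le_numRadius (T : X →L[ℝ] X) {x : X} {f : X →L[ℝ] ℝ} (hx : ‖x‖ = 1) (hf : ‖f‖ = 1)
    (hfx : f x = 1) : |f (T x)| ≤ numRadius T :=
  le_csSup (bddAbove_num T) ⟨x, f, hx, hf, hfx, rfl⟩

theorem numRadius_nonneg (T : X →L[ℝ] X) : 0 ≤ numRadius T := by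
  apply Real.sSup_nonneg
  rintro t ⟨x, f, -, -, -, rfl⟩
  exact abs_nonneg _

theorem exists_pair [Nontrivial X] :
    ∃ (x : X) (f : X →L[ℝ] ℝ), ‖x‖ = 1 ∧ ‖f‖ = 1 ∧ f x = 1 := by
  obtain ⟨x, hx⟩ := exists_norm_eq X (zero_le_one' ℝ)
  obtain ⟨f, hf, hfx⟩ := exists_dual_vector ℝ x (by rw [hx]; exact one_ne_zero)
  exact ⟨x, f, hx, hf, by simpa [hx] using hfx⟩

theorem numRadius_le [Nontrivial X] (T : X →L[ℝ] X) {c : ℝ}
    (h : ∀ (x : X) (f : X →L[ℝ] ℝ), ‖x‖ = 1 → ‖f‖ = 1 → f x = 1 → |f (T x)| ≤ c) :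
    numRadius T ≤ c := by
  obtain ⟨x, f, hx, hf, hfx⟩ := exists_pair (X := X)
  refine csSup_le ⟨_, x, f, hx, hf, hfx, rfl⟩ ?_
  rintro t ⟨x, f, hx, hf, hfx, rfl⟩
  exact h x f hx hf hfx

theorem numRadius_zero [Nontrivial X] : numRadius (0 : X →L[ℝ] X) = 0 := by
  apply le_antisymm _ (numRadius_nonneg _)
  apply numRadius_le
  intro x f _ _ _
  simp

theorem quot_bddBelow (T : X →L[ℝ] X) :
    BddBelow {t : ℝ | ∃ S : X →L[ℝ] X, numRadius S = 0 ∧ t = ‖T - S‖} := by
  refine ⟨0, ?_⟩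
  rintro t ⟨S, -, rfl⟩
  exact norm_nonneg _

theorem one_le_quotNorm_id [Nontrivial X] : 1 ≤ quotNorm (ContinuousLinearMap.id ℝ X) := by
  refine le_csInf ⟨_, 0, numRadius_zero, rfl⟩ ?_
  rintro t ⟨S, hS, rfl⟩
  obtain ⟨x, f, hx, hf, hfx⟩ := exists_pair (X := X)
  have h1 : |f (S x)| ≤ 0 := hS ▸ le_numRadius S hx hf hfx
  have h2 : f (S x) = 0 := abs_nonpos_iff.1 h1
  calc (1 : ℝ) = f ((ContinuousLinearMap.id ℝ X - S) x) := by simp [h2, hfx]
    _ ≤ ‖f ((ContinuousLinearMap.id ℝ X - S) x)‖ := le_abs_self _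
    _ ≤ ‖f‖ * (‖ContinuousLinearMap.id ℝ X - S‖ * ‖x‖) :=
        (f.le_opNorm _).trans (by gcongr; exact ContinuousLinearMap.le_opNorm _ _)
    _ = ‖ContinuousLinearMap.id ℝ X - S‖ := by rw [hf, hx]; ring

theorem bddAbove_index [Nontrivial X] :
    BddAbove {k : ℝ | 0 ≤ k ∧ ∀ T : X →L[ℝ] X, k * quotNorm T ≤ numRadius T} := by
  refine ⟨1, ?_⟩
  rintro k ⟨hk, h⟩
  have h1 := h (ContinuousLinearMap.id ℝ X)
  have h2 : numRadius (ContinuousLinearMap.id ℝ X) ≤ 1 := by
    apply numRadius_le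
    intro x f _ _ hfx
    simp [hfx]
  have h3 := one_le_quotNorm_id (X := X)
  nlinarith

end Basic

/-! ### `ℓ₁`-sums of Euclidean planes -/

/-- Coordinates identifying a real Banach space with the `ℓ₁`-sum of countably many copies of
the Euclidean plane `ℂ`. -/
structure L1Coord (Y : Type*) [NormedAddCommGroup Y] [NormedSpace ℝ Y] where
  a : ℕ → Y →L[ℝ] ℂ
  bld : (ℕ → ℂ) → Y
  a_bld : ∀ b, Summable (fun i => ‖b i‖) → ∀ i, a i (bld b) = b i
  hasSum_norm : ∀ y, HasSum (fun i => ‖a i y‖) ‖y‖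

namespace L1Coord

variable {Y : Type*} [NormedAddCommGroup Y] [NormedSpace ℝ Y] (D : L1Coord Y)

theorem ext {x y : Y} (h : ∀ i, D.a i x = D.a i y) : x = y := by
  have h1 := D.hasSum_norm (x - y)
  simp only [map_sub, h, sub_self, norm_zero] at h1
  have h2 := h1.unique hasSum_zero
  exact sub_eq_zero.1 (norm_eq_zero.1 h2)

/-- the `i`-th inclusion -/
noncomputable def inc (i : ℕ) (u : ℂ) : Y := D.bld (fun j => if j = i then u else 0)

theorem summable_single (i : ℕ) (u : ℂ) : Summable (fun j => ‖(if j = i then u else 0 : ℂ)‖) :=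
  (hasSum_single i (fun j hj => by simp [hj])).summable

theorem a_inc (i j : ℕ) (u : ℂ) : D.a j (D.inc i u) = if j = i then u else 0 :=
  D.a_bld _ (summable_single i u) j

theorem a_inc_self (i : ℕ) (u : ℂ) : D.a i (D.inc i u) = u := by rw [a_inc, if_pos rfl]

theorem norm_inc (i : ℕ) (u : ℂ) : ‖D.inc i u‖ = ‖u‖ := by
  have h1 := D.hasSum_norm (D.inc i u)
  simp only [a_inc] at h1
  have h2 : HasSum (fun j => ‖(if j = i then u else 0 : ℂ)‖) ‖(if i = i then u else 0 : ℂ)‖ :=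
    hasSum_single i (fun j hj => by simp [hj])
  rw [if_pos rfl] at h2
  exact h1.unique h2

theorem inc_add (i : ℕ) (u v : ℂ) : D.inc i (u + v) = D.inc i u + D.inc i v := by
  apply D.ext
  intro j
  rw [map_add, a_inc, a_inc, a_inc]
  split_ifs <;> simp

theorem inc_smul (i : ℕ) (r : ℝ) (u : ℂ) : D.inc i (r • u) = r • D.inc i u := by
  apply D.ext
  intro j
  rw [map_smul, a_inc, a_inc]
  split_ifs <;> simp

/-- norm of the part off a finite set -/
theorem norm_sub_sum (y : Y) (F : Finset ℕ) :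
    ‖y - ∑ i ∈ F, D.inc i (D.a i y)‖ = ‖y‖ - ∑ i ∈ F, ‖D.a i y‖ := by
  classical
  have h1 := D.hasSum_norm (y - ∑ i ∈ F, D.inc i (D.a i y))
  have h2 : ∀ j, ‖D.a j (y - ∑ i ∈ F, D.inc i (D.a i y))‖ =
      ‖D.a j y‖ - (if j ∈ F then ‖D.a j y‖ else 0) := by
    intro j
    rw [map_sub, map_sum]
    simp only [a_inc]
    rw [Finset.sum_ite_eq]
    split_ifs <;> simp
  simp only [h2] at h1
  have h3 : HasSum (fun j => if j ∈ F then ‖D.a j y‖ else 0) (∑ i ∈ F, ‖D.a i y‖) := by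
    have := hasSum_sum_of_ne_finset_zero (f := fun j => if j ∈ F then ‖D.a j y‖ else 0) (s := F)
      (L := SummationFilter.unconditional ℕ)
      (fun b hb => by simp [hb])
    convert this using 1
    exact Finset.sum_congr rfl fun i hi => by simp [hi]
  exact h1.unique ((D.hasSum_norm y).sub h3)

theorem norm_sub_inc (y : Y) (i : ℕ) : ‖y - D.inc i (D.a i y)‖ = ‖y‖ - ‖D.a i y‖ := by
  simpa using D.norm_sub_sum y {i}

theorem hasSum_inc (y : Y) : HasSum (fun i => D.inc i (D.a i y)) y := by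
  rw [HasSum, tendsto_iff_norm_sub_tendsto_zero]
  have h1 : Filter.Tendsto (fun F : Finset ℕ => ‖y‖ - ∑ i ∈ F, ‖D.a i y‖)
      (SummationFilter.unconditional ℕ).filter (nhds (‖y‖ - ‖y‖)) :=
    tendsto_const_nhds.sub (D.hasSum_norm y)
  rw [sub_self] at h1
  refine h1.congr fun F => ?_
  rw [← D.norm_sub_sum y F, ← norm_neg, neg_sub]

theorem norm_le_of_atoms {W : Type*} [NormedAddCommGroup W] [NormedSpace ℝ W] (T : Y →L[ℝ] W)
    {K : ℝ} (hK : 0 ≤ K) (h : ∀ i u, ‖u‖ = 1 → ‖T (D.inc i u)‖ ≤ K) : ‖T‖ ≤ K := by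
  apply ContinuousLinearMap.opNorm_le_bound _ hK
  intro y
  have h1 : HasSum (fun i => T (D.inc i (D.a i y))) (T y) := T.hasSum (D.hasSum_inc y)
  have h2 : HasSum (fun i => K * ‖D.a i y‖) (K * ‖y‖) := (D.hasSum_norm y).mul_left K
  rw [← h1.tsum_eq]
  apply tsum_of_norm_bounded h2
  intro i
  by_cases h0 : D.a i y = 0
  · have : D.inc i (D.a i y) = 0 := by
      apply D.ext; intro j; rw [a_inc, h0]; simp
    rw [this]; simp; positivity
  · have hpos : 0 < ‖D.a i y‖ := norm_pos_iff.2 h0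
    have h3 := h i (‖D.a i y‖⁻¹ • D.a i y) (by
      rw [norm_smul, norm_inv, norm_norm, inv_mul_cancel₀ hpos.ne'])
    rw [D.inc_smul, map_smul, norm_smul, norm_inv, norm_norm, inv_mul_le_iff₀ hpos] at h3
    linarith

/-- the operator multiplying the `i`-th coordinate by `s i * I` -/
noncomputable def rot (s : ℕ → ℝ) (M : ℝ) (hs : ∀ i, |s i| ≤ M) : Y →L[ℝ] Y :=
  LinearMap.mkContinuous
    { toFun := fun y => D.bld (fun i => (s i : ℂ) * Complex.I * D.a i y)
      map_add' := by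
        intro x y
        apply D.ext
        intro i
        have hsum : ∀ z, Summable (fun i => ‖(s i : ℂ) * Complex.I * D.a i z‖) := by
          intro z
          refine Summable.of_nonneg_of_le (fun i => norm_nonneg _) (fun i => ?_)
            ((D.hasSum_norm z).summable.mul_left M)
          rw [norm_mul, norm_mul, Complex.norm_I, mul_one, Complex.norm_real]
          gcongr
          exact hs i
        rw [map_add, D.a_bld _ (hsum _), D.a_bld _ (hsum _), D.a_bld _ (hsum _), map_add]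
        ring
      map_smul' := by
        intro r x
        apply D.ext
        intro i
        have hsum : ∀ z, Summable (fun i => ‖(s i : ℂ) * Complex.I * D.a i z‖) := by
          intro z
          refine Summable.of_nonneg_of_le (fun i => norm_nonneg _) (fun i => ?_)
            ((D.hasSum_norm z).summable.mul_left M)
          rw [norm_mul, norm_mul, Complex.norm_I, mul_one, Complex.norm_real]
          gcongr
          exact hs i
        rw [RingHom.id_apply, map_smul, D.a_bld _ (hsum _), D.a_bld _ (hsum _), map_smul]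
        simp only [Complex.real_smul]
        ring }
    M (by
      intro z
      have hle : ∀ i, ‖(s i : ℂ) * Complex.I * D.a i z‖ ≤ M * ‖D.a i z‖ := by
        intro i
        rw [norm_mul, norm_mul, Complex.norm_I, mul_one, Complex.norm_real]
        gcongr
        exact hs i
      have hsum : Summable (fun i => ‖(s i : ℂ) * Complex.I * D.a i z‖) :=
        Summable.of_nonneg_of_le (fun i => norm_nonneg _) hle
          ((D.hasSum_norm z).summable.mul_left M)
      have h1 := D.hasSum_norm (D.bld (fun i => (s i : ℂ) * Complex.I * D.a i z))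
      simp only [D.a_bld _ hsum] at h1
      exact hasSum_le hle h1 ((D.hasSum_norm z).mul_left M))

theorem a_rot (s : ℕ → ℝ) (M : ℝ) (hs : ∀ i, |s i| ≤ M) (z : Y) (i : ℕ) :
    D.a i (D.rot s M hs z) = (s i : ℂ) * Complex.I * D.a i z := by
  apply D.a_bld
  refine Summable.of_nonneg_of_le (fun i => norm_nonneg _) (fun i => ?_)
    ((D.hasSum_norm z).summable.mul_left M)
  rw [norm_mul, norm_mul, Complex.norm_I, mul_one, Complex.norm_real]
  gcongr
  exact hs i

/-- A functional of norm one on the plane attaining its norm at `y` vanishes at `I * y`. -/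
theorem plane_aux (l : ℂ →ₗ[ℝ] ℝ) (hl : ∀ u, |l u| ≤ ‖u‖) (y : ℂ) (hy : l y = ‖y‖) :
    l (Complex.I * y) = 0 := by
  by_contra hne
  set b := l (Complex.I * y) with hb
  have key : ∀ t : ℝ, (‖y‖ + t * b) ^ 2 ≤ ‖y‖ ^ 2 * (1 + t ^ 2) := by
    intro t
    have h1 := hl (y + t • (Complex.I * y))
    rw [map_add, map_smul, hy, smul_eq_mul, ← hb] at h1
    have h2 : ‖y + t • (Complex.I * y)‖ ^ 2 = ‖y‖ ^ 2 * (1 + t ^ 2) := by
      rw [← Complex.normSq_eq_norm_sq, ← Complex.normSq_eq_norm_sq, Complex.normSq_apply,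
        Complex.normSq_apply]
      simp
      ring
    rw [← h2]
    exact sq_le_sq' (by linarith [abs_le.1 h1]) (by linarith [abs_le.1 h1])
  -- choose a small `t` with the sign of `b`
  have hy0 : 0 ≤ ‖y‖ := norm_nonneg y
  by_cases h0 : ‖y‖ = 0
  · have : y = 0 := norm_eq_zero.1 h0
    apply hne
    rw [hb, this, mul_zero, map_zero]
  · have hpos : 0 < ‖y‖ := lt_of_le_of_ne hy0 (Ne.symm h0)
    have h3 := key (b / ‖y‖)
    have h4 : (‖y‖ + b / ‖y‖ * b) ^ 2 = ‖y‖ ^ 2 + 2 * b ^ 2 + (b ^ 2 / ‖y‖) ^ 2 := by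
      field_simp
      ring
    have h5 : ‖y‖ ^ 2 * (1 + (b / ‖y‖) ^ 2) = ‖y‖ ^ 2 + b ^ 2 := by
      field_simp
    rw [h4, h5] at h3
    have h6 : 0 < b ^ 2 := by positivity
    nlinarith [sq_nonneg (b ^ 2 / ‖y‖)]

/-- the composition of a functional with an inclusion -/
noncomputable def incL (i : ℕ) : ℂ →ₗ[ℝ] Y where
  toFun := D.inc i
  map_add' := D.inc_add i
  map_smul' := fun r u => D.inc_smul i r u

theorem numRadius_rot [Nontrivial Y] (s : ℕ → ℝ) (M : ℝ) (hs : ∀ i, |s i| ≤ M) :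
    numRadius (D.rot s M hs) = 0 := by
  apply le_antisymm _ (numRadius_nonneg _)
  apply numRadius_le
  intro y f hy hf hfy
  have hfle : ∀ z, |f z| ≤ ‖z‖ := fun z => by
    calc |f z| = ‖f z‖ := (Real.norm_eq_abs _).symm
      _ ≤ ‖f‖ * ‖z‖ := f.le_opNorm z
      _ = ‖z‖ := by rw [hf, one_mul]
  have h1 : HasSum (fun i => f (D.inc i (D.a i y))) 1 := hfy ▸ f.hasSum (D.hasSum_inc y)
  have h2 : HasSum (fun i => ‖D.a i y‖) 1 := hy ▸ D.hasSum_norm y
  have h3 : HasSum (fun i => ‖D.a i y‖ - f (D.inc i (D.a i y))) 0 := by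
    simpa using h2.sub h1
  have h4 : ∀ i, 0 ≤ ‖D.a i y‖ - f (D.inc i (D.a i y)) := by
    intro i
    have := (abs_le.1 (hfle (D.inc i (D.a i y)))).2
    rw [D.norm_inc] at this
    linarith
  have h5 := (hasSum_zero_iff_of_nonneg h4).1 h3
  have h6 : ∀ i, f (D.inc i (Complex.I * D.a i y)) = 0 := by
    intro i
    have := congrFun h5 i
    simp only [Pi.zero_apply] at this
    exact plane_aux ((f : Y →ₗ[ℝ] ℝ) ∘ₗ D.incL i) (fun u => by
      have := hfle (D.inc i u)
      rwa [D.norm_inc] at this) (D.a i y) (by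
      show f (D.inc i (D.a i y)) = ‖D.a i y‖
      linarith)
  have h7 : HasSum (fun i => f (D.inc i (D.a i (D.rot s M hs y)))) (f (D.rot s M hs y)) :=
    f.hasSum (D.hasSum_inc _)
  have h8 : ∀ i, f (D.inc i (D.a i (D.rot s M hs y))) = 0 := by
    intro i
    rw [D.a_rot, show (s i : ℂ) * Complex.I * D.a i y = s i • (Complex.I * D.a i y) by
      rw [Complex.real_smul]; ring, D.inc_smul, map_smul, h6, smul_zero]
  simp only [h8] at h7
  rw [h7.unique hasSum_zero, abs_zero]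

/-- Lower bound of the numerical radius by the values on atoms. -/
theorem atom_le [Nontrivial Y] (T : Y →L[ℝ] Y) (i : ℕ) (u : ℂ) (hu : ‖u‖ = 1) :
    |(starRingEnd ℂ u * D.a i (T (D.inc i u))).re| +
      ‖T (D.inc i u) - D.inc i (D.a i (T (D.inc i u)))‖ ≤ numRadius T := by
  set ψ := T (D.inc i u) with hψ
  set ψ' := ψ - D.inc i (D.a i ψ) with hψ'
  obtain ⟨Θ, hΘ, hΘψ⟩ : ∃ Θ : Y →L[ℝ] ℝ, ‖Θ‖ ≤ 1 ∧ Θ ψ' = ‖ψ'‖ := by
    by_cases h0 : ψ' = 0
    · exact ⟨0, by simp, by simp [h0]⟩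
    · obtain ⟨Θ, h1, h2⟩ := exists_dual_vector ℝ ψ' (norm_ne_zero_iff.2 h0)
      exact ⟨Θ, h1.le, h2⟩
  have key : ∀ σ : ℝ, |σ| = 1 → |(starRingEnd ℂ u * D.a i ψ).re + σ * ‖ψ'‖| ≤ numRadius T := by
    intro σ hσ
    -- the functional
    let L : Y →ₗ[ℝ] ℝ :=
      { toFun := fun y => (starRingEnd ℂ u * D.a i y).re + σ * Θ (y - D.inc i (D.a i y))
        map_add' := by
          intro x y
          rw [map_add, D.inc_add, mul_add, Complex.add_re,
            show x + y - (D.inc i (D.a i x) + D.inc i (D.a i y)) =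
              (x - D.inc i (D.a i x)) + (y - D.inc i (D.a i y)) by abel, map_add]
          ring
        map_smul' := by
          intro r x
          rw [map_smul, D.inc_smul, ← smul_sub, map_smul, RingHom.id_apply]
          simp
          ring }
    have hLb : ∀ y, ‖L y‖ ≤ 1 * ‖y‖ := by
      intro y
      have h1 : |(starRingEnd ℂ u * D.a i y).re| ≤ ‖D.a i y‖ := by
        calc |(starRingEnd ℂ u * D.a i y).re| ≤ ‖starRingEnd ℂ u * D.a i y‖ :=
              Complex.abs_re_le_norm _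
          _ = ‖D.a i y‖ := by rw [norm_mul, RCLike.norm_conj, hu, one_mul]
      have h2 : |σ * Θ (y - D.inc i (D.a i y))| ≤ ‖y‖ - ‖D.a i y‖ := by
        rw [abs_mul, hσ, one_mul, ← D.norm_sub_inc y i]
        calc |Θ (y - D.inc i (D.a i y))| = ‖Θ (y - D.inc i (D.a i y))‖ := rfl
          _ ≤ ‖Θ‖ * ‖y - D.inc i (D.a i y)‖ := Θ.le_opNorm _
          _ ≤ 1 * ‖y - D.inc i (D.a i y)‖ := by gcongr
          _ = _ := one_mul _
      calc ‖L y‖ = |(starRingEnd ℂ u * D.a i y).re + σ * Θ (y - D.inc i (D.a i y))| := rfl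
        _ ≤ |(starRingEnd ℂ u * D.a i y).re| + |σ * Θ (y - D.inc i (D.a i y))| := abs_add_le _ _
        _ ≤ 1 * ‖y‖ := by linarith
    let Lc : Y →L[ℝ] ℝ := L.mkContinuous 1 hLb
    have hLu : Lc (D.inc i u) = 1 := by
      show (starRingEnd ℂ u * D.a i (D.inc i u)).re +
        σ * Θ (D.inc i u - D.inc i (D.a i (D.inc i u))) = 1
      rw [D.a_inc_self, sub_self, map_zero, mul_zero, add_zero, mul_comm, Complex.mul_conj,
        Complex.normSq_eq_norm_sq, hu]
      simp
    have hnu : ‖D.inc i u‖ = 1 := by rw [D.norm_inc, hu]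
    have hL1 : ‖Lc‖ = 1 := by
      apply le_antisymm (LinearMap.mkContinuous_norm_le _ zero_le_one _)
      calc (1 : ℝ) = Lc (D.inc i u) := hLu.symm
        _ ≤ ‖Lc (D.inc i u)‖ := le_abs_self _
        _ ≤ ‖Lc‖ * ‖D.inc i u‖ := Lc.le_opNorm _
        _ = ‖Lc‖ := by rw [hnu, mul_one]
    have := le_numRadius T hnu hL1 hLu
    have h3 : Lc (T (D.inc i u)) = (starRingEnd ℂ u * D.a i ψ).re + σ * ‖ψ'‖ := by
      rw [← hΘψ]; rfl
    rwa [h3] at this
  have hn : 0 ≤ ‖ψ'‖ := norm_nonneg _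
  rcases le_total 0 ((starRingEnd ℂ u * D.a i ψ).re) with h | h
  · have := key 1 (by simp)
    rw [one_mul] at this
    rw [abs_of_nonneg h]
    exact (le_abs_self _).trans this
  · have := key (-1) (by simp)
    rw [abs_of_nonpos h]
    have h2 := (neg_le_abs _).trans this
    linarith

include D in
/-- The main estimate: some rotation `S` satisfies `‖T - S‖ ≤ √2 v(T)`. -/
theorem exists_rot [Nontrivial Y] (T : Y →L[ℝ] Y) :
    ∃ S : Y →L[ℝ] Y, numRadius S = 0 ∧ ‖T - S‖ ≤ Real.sqrt 2 * numRadius T := by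
  -- the diagonal blocks
  let A : ℕ → ℂ → ℂ := fun i u => D.a i (T (D.inc i u))
  have hA1 : ∀ i u, ‖A i u‖ ≤ ‖T‖ * ‖u‖ := by
    intro i u
    have h1 : ‖D.a i (T (D.inc i u))‖ ≤ ‖T (D.inc i u)‖ := by
      have := D.norm_sub_inc (T (D.inc i u)) i
      have h2 := norm_nonneg (T (D.inc i u) - D.inc i (D.a i (T (D.inc i u))))
      linarith
    refine h1.trans ((T.le_opNorm _).trans ?_)
    rw [D.norm_inc]
  let α : ℕ → ℂ := fun i => (A i 1 - Complex.I * A i Complex.I) / 2
  let β : ℕ → ℂ := fun i => (A i 1 + Complex.I * A i Complex.I) / 2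
  have hAadd : ∀ i u v, A i (u + v) = A i u + A i v := by
    intro i u v; simp only [A]; rw [D.inc_add, map_add, map_add]
  have hAsmul : ∀ i (r : ℝ) u, A i (r • u) = r • A i u := by
    intro i r u; simp only [A]; rw [D.inc_smul, map_smul, map_smul]
  have hA' : ∀ i (x y : ℝ), A i ((x : ℂ) + (y : ℂ) * Complex.I) =
      α i * ((x : ℂ) + (y : ℂ) * Complex.I) + β i * ((x : ℂ) - (y : ℂ) * Complex.I) := by
    intro i x y
    have h1 : (x : ℂ) + (y : ℂ) * Complex.I = x • (1 : ℂ) + y • Complex.I := by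
      simp [Complex.real_smul]
    have h2 : A i ((x : ℂ) + (y : ℂ) * Complex.I) = x * A i 1 + y * A i Complex.I := by
      rw [h1, hAadd, hAsmul, hAsmul, Complex.real_smul, Complex.real_smul]
    rw [h2]
    simp only [α, β]
    linear_combination ((y : ℂ) * A i Complex.I) * Complex.I_sq
  have hA : ∀ i u, A i u = α i * u + β i * starRingEnd ℂ u := by
    intro i u
    have h2 : starRingEnd ℂ u = (u.re : ℂ) - (u.im : ℂ) * Complex.I := by
      apply Complex.ext <;> simp
    have h3 := hA' i u.re u.im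
    rw [Complex.re_add_im] at h3
    rw [h2, h3]
  let s : ℕ → ℝ := fun i => (α i).im
  have hs : ∀ i, |s i| ≤ ‖T‖ := by
    intro i
    calc |s i| ≤ ‖α i‖ := Complex.abs_im_le_norm _
      _ = ‖A i 1 - Complex.I * A i Complex.I‖ / 2 := by
          simp only [α]; rw [norm_div]; simp
      _ ≤ (‖A i 1‖ + ‖Complex.I * A i Complex.I‖) / 2 := by gcongr; exact norm_sub_le _ _
      _ ≤ (‖T‖ + ‖T‖) / 2 := by
          gcongr
          · simpa using hA1 i 1
          · rw [norm_mul, Complex.norm_I, one_mul]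
            simpa using hA1 i Complex.I
      _ = ‖T‖ := by ring
  refine ⟨D.rot s ‖T‖ hs, D.numRadius_rot s _ hs, ?_⟩
  have hv0 : 0 ≤ numRadius T := numRadius_nonneg T
  apply D.norm_le_of_atoms _ (by positivity)
  intro i u hu
  -- off diagonal seminorm
  let R : ℂ → ℝ := fun u => ‖T (D.inc i u) - D.inc i (A i u)‖
  have hR : ∀ (c d : ℝ) (w z : ℂ), R (c • w + d • z) ≤ |c| * R w + |d| * R z := by
    intro c d w z
    have h1 : T (D.inc i (c • w + d • z)) - D.inc i (A i (c • w + d • z)) =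
        c • (T (D.inc i w) - D.inc i (A i w)) + d • (T (D.inc i z) - D.inc i (A i z)) := by
      rw [D.inc_add, D.inc_smul, D.inc_smul, hAadd, hAsmul, hAsmul, D.inc_add, D.inc_smul,
        D.inc_smul, map_add, map_smul, map_smul, smul_sub, smul_sub]
      abel
    simp only [R]
    rw [h1]
    refine (norm_add_le _ _).trans ?_
    rw [norm_smul, norm_smul, Real.norm_eq_abs, Real.norm_eq_abs]
  -- eigenvector
  obtain ⟨w, hw, hwβ⟩ : ∃ w : ℂ, ‖w‖ = 1 ∧ (‖β i‖ : ℂ) * (w * w) = β i := by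
    refine ⟨Complex.exp ((Complex.arg (β i) / 2 : ℝ) * Complex.I), ?_, ?_⟩
    · exact Complex.norm_exp_ofReal_mul_I _
    · rw [← Complex.exp_add]
      have : ((Complex.arg (β i) / 2 : ℝ) : ℂ) * Complex.I +
          ((Complex.arg (β i) / 2 : ℝ) : ℂ) * Complex.I = (Complex.arg (β i) : ℂ) * Complex.I := by
        push_cast; ring
      rw [this]
      exact Complex.norm_mul_exp_arg_mul_I _
  have hww : starRingEnd ℂ w * w = 1 := by
    rw [mul_comm, Complex.mul_conj, Complex.normSq_eq_norm_sq, hw]; simp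
  have hβw : β i * starRingEnd ℂ w = (‖β i‖ : ℂ) * w := by
    rw [← hwβ]
    have : (‖(‖β i‖ : ℂ) * (w * w)‖ : ℂ) = (‖β i‖ : ℂ) := by
      rw [hwβ]
    rw [this]
    calc (‖β i‖ : ℂ) * (w * w) * starRingEnd ℂ w = (‖β i‖ : ℂ) * w * (starRingEnd ℂ w * w) := by
          ring
      _ = (‖β i‖ : ℂ) * w := by rw [hww, mul_one]
  set p : ℝ := (α i).re with hp
  set b : ℝ := ‖β i‖ with hb
  have hα : α i = (p : ℂ) + (s i : ℂ) * Complex.I := (Complex.re_add_im (α i)).symm
  have hAw : A i w = ((p + b : ℝ) : ℂ) * w + (s i : ℂ) * Complex.I * w := by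
    rw [hA, hβw, hα]; push_cast; ring
  have hAIw : A i (Complex.I * w) = ((p - b : ℝ) : ℂ) * (Complex.I * w) +
      (s i : ℂ) * Complex.I * (Complex.I * w) := by
    rw [hA, map_mul, Complex.conj_I, show β i * (-Complex.I * starRingEnd ℂ w) =
      -Complex.I * (β i * starRingEnd ℂ w) by ring, hβw, hα]
    push_cast; ring
  have hnIw : ‖Complex.I * w‖ = 1 := by rw [norm_mul, Complex.norm_I, hw, one_mul]
  have hv1 : |p + b| + R w ≤ numRadius T := by
    have h1 := D.atom_le T i w hw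
    have h2 : (starRingEnd ℂ w * D.a i (T (D.inc i w))).re = p + b := by
      have : D.a i (T (D.inc i w)) = A i w := rfl
      rw [this, hAw, mul_add, show starRingEnd ℂ w * (((p + b : ℝ) : ℂ) * w) =
        ((p + b : ℝ) : ℂ) * (starRingEnd ℂ w * w) by ring,
        show starRingEnd ℂ w * ((s i : ℂ) * Complex.I * w) =
        ((s i : ℂ) * Complex.I) * (starRingEnd ℂ w * w) by ring, hww]
      simp
    rw [h2] at h1
    exact h1
  have hv2 : |p - b| + R (Complex.I * w) ≤ numRadius T := by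
    have h1 := D.atom_le T i (Complex.I * w) hnIw
    have h2 : (starRingEnd ℂ (Complex.I * w) * D.a i (T (D.inc i (Complex.I * w)))).re =
        p - b := by
      have h3 : D.a i (T (D.inc i (Complex.I * w))) = A i (Complex.I * w) := rfl
      have h4 : starRingEnd ℂ (Complex.I * w) * (Complex.I * w) = 1 := by
        rw [mul_comm, Complex.mul_conj, Complex.normSq_eq_norm_sq, hnIw]; simp
      rw [h3, hAIw, mul_add, show starRingEnd ℂ (Complex.I * w) *
        (((p - b : ℝ) : ℂ) * (Complex.I * w)) =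
        ((p - b : ℝ) : ℂ) * (starRingEnd ℂ (Complex.I * w) * (Complex.I * w)) by ring,
        show starRingEnd ℂ (Complex.I * w) * ((s i : ℂ) * Complex.I * (Complex.I * w)) =
        ((s i : ℂ) * Complex.I) * (starRingEnd ℂ (Complex.I * w) * (Complex.I * w)) by ring, h4]
      simp
    rw [h2] at h1
    exact h1
  -- coordinates of `u`
  set z : ℂ := starRingEnd ℂ w * u with hz
  have hnz : ‖z‖ = 1 := by rw [hz, norm_mul, RCLike.norm_conj, hw, hu, one_mul]
  have huz : u = z.re • w + z.im • (Complex.I * w) := by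
    have h1 : u = z * w := by
      rw [hz, mul_right_comm, hww, one_mul]
    conv_lhs => rw [h1, ← Complex.re_add_im z]
    rw [Complex.real_smul, Complex.real_smul]
    ring
  have hsq : z.re ^ 2 + z.im ^ 2 = 1 := by
    have := Complex.normSq_eq_norm_sq z
    rw [hnz, Complex.normSq_apply] at this
    nlinarith
  have hcs : |z.re| + |z.im| ≤ Real.sqrt 2 := by
    apply Real.le_sqrt_of_sq_le
    have h1 := sq_abs z.re
    have h2 := sq_abs z.im
    nlinarith [sq_nonneg (|z.re| - |z.im|)]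
  -- the norm
  have hsplit : ‖(T - D.rot s ‖T‖ hs) (D.inc i u)‖ =
      ‖A i u - (s i : ℂ) * Complex.I * u‖ + R u := by
    have h1 := D.norm_sub_inc ((T - D.rot s ‖T‖ hs) (D.inc i u)) i
    have h2 : D.a i ((T - D.rot s ‖T‖ hs) (D.inc i u)) = A i u - (s i : ℂ) * Complex.I * u := by
      rw [_root_.sub_apply, map_sub, D.a_rot, D.a_inc_self]
    have h3 : (T - D.rot s ‖T‖ hs) (D.inc i u) -
        D.inc i (A i u - (s i : ℂ) * Complex.I * u) = T (D.inc i u) - D.inc i (A i u) := by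
      apply D.ext
      intro j
      rw [_root_.sub_apply]
      simp only [map_sub, D.a_rot, D.a_inc]
      split_ifs with h
      · subst h; ring
      · simp
    rw [h2, h3] at h1
    have h4 : R u = ‖T (D.inc i u) - D.inc i (A i u)‖ := rfl
    rw [h4, h1]; ring
  rw [hsplit]
  have hA' : A i u - (s i : ℂ) * Complex.I * u =
      (z.re * (p + b)) • w + (z.im * (p - b)) • (Complex.I * w) := by
    conv_lhs => rw [huz]
    rw [hAadd, hAsmul, hAsmul, hAw, hAIw]
    simp only [Complex.real_smul]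
    push_cast
    ring
  have h1 : ‖A i u - (s i : ℂ) * Complex.I * u‖ ≤ |z.re| * |p + b| + |z.im| * |p - b| := by
    rw [hA']
    refine (norm_add_le _ _).trans ?_
    rw [norm_smul, norm_smul, hw, hnIw, Real.norm_eq_abs, Real.norm_eq_abs, abs_mul, abs_mul,
      mul_one, mul_one]
  have h2 : R u ≤ |z.re| * R w + |z.im| * R (Complex.I * w) := by
    conv_lhs => rw [huz]
    exact hR _ _ _ _
  calc ‖A i u - (s i : ℂ) * Complex.I * u‖ + R u
      ≤ |z.re| * (|p + b| + R w) + |z.im| * (|p - b| + R (Complex.I * w)) := by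
        linarith
    _ ≤ |z.re| * numRadius T + |z.im| * numRadius T := by gcongr
    _ = (|z.re| + |z.im|) * numRadius T := by ring
    _ ≤ Real.sqrt 2 * numRadius T := by gcongr

include D in
theorem secondIndex_ge [Nontrivial Y] : 1 / Real.sqrt 2 ≤ secondIndex Y := by
  apply le_csSup bddAbove_index
  refine ⟨by positivity, fun T => ?_⟩
  obtain ⟨S, hS, hle⟩ := D.exists_rot T
  have h1 : quotNorm T ≤ Real.sqrt 2 * numRadius T :=
    (csInf_le (quot_bddBelow T) ⟨S, hS, rfl⟩).trans hle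
  have h2 : 0 < Real.sqrt 2 := by positivity
  rw [one_div, inv_mul_le_iff₀ h2]
  exact h1

end L1Coord

end Pool.Agent.X203.NumIdx
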