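import Mathlib

/-! Ordered Banach spaces: closed cones, normality. -/

namespace Pool.Agent.X203.OBS

open Filter Topology

variable {X : Type*} [NormedAddCommGroup X] [NormedSpace ℝ X]

/-- `C` is a closed cone in `X`. -/
structure IsClosedCone (C : Set X) : Prop where
  isClosed : IsClosed C
  zero_mem : (0 : X) ∈ C
  add_mem : ∀ x ∈ C, ∀ y ∈ C, x + y ∈ C
  smul_mem : ∀ (t : ℝ), 0 ≤ t → ∀ x ∈ C, t • x ∈ C
  pointed : ∀ x, x ∈ C → -x ∈ C → x = 0

/-- The cone `C` is normal: `0 ≤ x ≤ y` implies `‖x‖ ≤ c ‖y‖`, for some constant `c ≥ 1`. -/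
def IsNormal (C : Set X) : Prop :=
  ∃ c : ℝ, 1 ≤ c ∧ ∀ x y : X, x ∈ C → y - x ∈ C → ‖x‖ ≤ c * ‖y‖

namespace IsClosedCone

variable {C : Set X} (hC : IsClosedCone C)

include hC

theorem sum_mem {ι : Type*} (s : Finset ι) (f : ι → X) (hf : ∀ i ∈ s, f i ∈ C) :
    ∑ i ∈ s, f i ∈ C := by
  classical
  induction s using Finset.induction_on with
  | empty => simpa using hC.zero_mem
  | insert a s ha ih =>
    rw [Finset.sum_insert ha]
    exact hC.add_mem _ (hf a (Finset.mem_insert_self a s)) _
      (ih fun i hi => hf i (Finset.mem_insert_of_mem hi))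

theorem tsum_mem {f : ℕ → X} (hs : Summable f) (hf : ∀ i, f i ∈ C) : ∑' i, f i ∈ C := by
  apply hC.isClosed.mem_of_tendsto hs.hasSum
  filter_upwards with s
  exact hC.sum_mem s f fun i _ => hf i

/-- In a non-normal closed cone there is an unbounded order interval. -/
theorem exists_unbounded [CompleteSpace X] (hN : ¬ IsNormal C) :
    ∃ u ∈ C, ∀ M : ℝ, ∃ x ∈ C, u - x ∈ C ∧ M < ‖x‖ := by
  classical
  have h1 : ∀ n : ℕ, ∃ x y : X, x ∈ C ∧ y - x ∈ C ∧ (4 : ℝ) ^ n * ‖y‖ < ‖x‖ := by
    intro n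
    by_contra hcon
    push Not at hcon
    exact hN ⟨4 ^ n, one_le_pow₀ (by norm_num), fun x y hx hy => hcon x y hx hy⟩
  choose x y hx hy hxy using h1
  have hyC : ∀ n, y n ∈ C := fun n => by
    have := hC.add_mem _ (hy n) _ (hx n)
    simpa using this
  have hxpos : ∀ n, 0 < ‖x n‖ := fun n => lt_of_le_of_lt (by positivity) (hxy n)
  -- rescale
  set a : ℕ → ℝ := fun n => 2 ^ n / ‖x n‖ with ha
  have hapos : ∀ n, 0 < a n := fun n => div_pos (by positivity) (hxpos n)
  have hsum : Summable (fun n => a n • y n) := by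
    apply Summable.of_norm_bounded (g := fun n => (1 / 2 : ℝ) ^ n)
    · exact summable_geometric_of_lt_one (by norm_num) (by norm_num)
    · intro n
      rw [norm_smul, Real.norm_eq_abs, abs_of_pos (hapos n)]
      simp only [ha]
      rw [div_mul_eq_mul_div, div_le_iff₀ (hxpos n)]
      have h4 : (4 : ℝ) ^ n = 2 ^ n * 2 ^ n := by rw [← mul_pow]; norm_num
      have h2 : (1 / 2 : ℝ) ^ n * 2 ^ n = 1 := by rw [← mul_pow]; norm_num
      have h5 := (hxy n).le
      rw [h4] at h5
      have h3 : (0 : ℝ) < (1 / 2) ^ n := by positivity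
      calc (2 : ℝ) ^ n * ‖y n‖ = (1 / 2 : ℝ) ^ n * (2 ^ n * 2 ^ n * ‖y n‖) := by
            rw [show (1 / 2 : ℝ) ^ n * (2 ^ n * 2 ^ n * ‖y n‖) =
              ((1 / 2 : ℝ) ^ n * 2 ^ n) * (2 ^ n * ‖y n‖) by ring, h2, one_mul]
        _ ≤ (1 / 2) ^ n * ‖x n‖ := by gcongr
  refine ⟨∑' n, a n • y n, ?_, ?_⟩
  · exact hC.tsum_mem hsum fun n => hC.smul_mem _ (hapos n).le _ (hyC n)
  · intro M
    obtain ⟨n, hn⟩ := pow_unbounded_of_one_lt M (one_lt_two : (1 : ℝ) < 2)
    refine ⟨a n • x n, hC.smul_mem _ (hapos n).le _ (hx n), ?_, ?_⟩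
    · have h6 : ∑' m, a m • y m = a n • y n + ∑' m, (if m = n then 0 else a m • y m) :=
        hsum.tsum_eq_add_tsum_ite n
      have hs2 : Summable (fun m => if m = n then (0 : X) else a m • y m) := by
        have := hsum.sub (f := fun m => a m • y m)
          (g := fun m => if m = n then a n • y n else 0)
          (hasSum_ite_eq n (a n • y n)).summable
        refine this.congr ?_
        intro m
        by_cases h : m = n
        · simp [h]
        · simp [h]
      rw [h6, show a n • y n + (∑' m, (if m = n then (0 : X) else a m • y m)) - a n • x n =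
        a n • (y n - x n) + ∑' m, (if m = n then (0 : X) else a m • y m) by
          rw [smul_sub]; abel]
      apply hC.add_mem
      · exact hC.smul_mem _ (hapos n).le _ (hy n)
      · apply hC.tsum_mem hs2
        intro m
        by_cases h : m = n
        · simp only [h, if_true]; exact hC.zero_mem
        · simp only [h, if_false]; exact hC.smul_mem _ (hapos m).le _ (hyC m)
    · rw [norm_smul, Real.norm_eq_abs, abs_of_pos (hapos n)]
      simp only [ha]
      rw [div_mul_cancel₀ _ (hxpos n).ne']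
      exact hn

end IsClosedCone

end Pool.Agent.X203.OBS

namespace Pool.Agent.X203

open Filter Topology

/-- Weak convergence tested on functionals. -/
theorem tendsto_weak_iff {X : Type*} [NormedAddCommGroup X] [NormedSpace ℝ X] {ι : Type*}
    {l : Filter ι} (x : ι → X) (a : X) :
    Tendsto (fun i => toWeakSpace ℝ X (x i)) l (𝓝 (toWeakSpace ℝ X a)) ↔
      ∀ f : X →L[ℝ] ℝ, Tendsto (fun i => f (x i)) l (𝓝 (f a)) := by
  have hinj : Function.Injective (topDualPairing ℝ X).flip := by
    intro a b hab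
    by_contra hne
    obtain ⟨f, hf⟩ := SeparatingDual.exists_separating_of_ne (R := ℝ) hne
    exact hf (DFunLike.congr_fun hab f)
  exact WeakBilin.tendsto_iff_forall_eval_tendsto (B := (topDualPairing ℝ X).flip) hinj

end Pool.Agent.X203
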