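import Mathlib

/-!
The Daugavet property implies octahedrality.
-/

namespace Pool.Agent.X203.Oct

open Set Filter Topology

variable {E : Type*} [NormedAddCommGroup E] [NormedSpace ℝ E]

/-- The Daugavet property. -/
def Daugavet (E : Type*) [NormedAddCommGroup E] [NormedSpace ℝ E] : Prop :=
  ∀ T : E →L[ℝ] E, Module.finrank ℝ (LinearMap.range (T : E →ₗ[ℝ] E)) = 1 →
    ‖ContinuousLinearMap.id ℝ E + T‖ = 1 + ‖T‖

theorem finrank_smulRight (g : E →L[ℝ] ℝ) (v : E) {u : E} (hg : g u ≠ 0) (hv : v ≠ 0) :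
    Module.finrank ℝ (LinearMap.range ((g.smulRight v : E →L[ℝ] E) : E →ₗ[ℝ] E)) = 1 := by
  have : LinearMap.range ((g.smulRight v : E →L[ℝ] E) : E →ₗ[ℝ] E) = Submodule.span ℝ {v} := by
    ext y
    rw [LinearMap.mem_range, Submodule.mem_span_singleton]
    constructor
    · rintro ⟨x, rfl⟩
      exact ⟨g x, rfl⟩
    · rintro ⟨c, rfl⟩
      refine ⟨(c / g u) • u, ?_⟩
      show (g ((c / g u) • u)) • v = c • v
      rw [map_smul, smul_eq_mul, div_mul_cancel₀ _ hg]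
  rw [this]
  exact finrank_span_singleton hv

theorem slice_step (hD : Daugavet E) (φ : E →L[ℝ] ℝ) {c : ℝ} (hc : 0 ≤ c) {y₀ : E}
    (hy₀ : ‖y₀‖ ≤ 1) (hcy : c < φ y₀) {u : E} (hu : ‖u‖ = 1) {η : ℝ} (hη : 0 < η) :
    ∃ (φ' : E →L[ℝ] ℝ) (c' : ℝ) (y₀' : E), 0 ≤ c' ∧ ‖y₀'‖ ≤ 1 ∧ c' < φ' y₀' ∧
      ∀ y, ‖y‖ ≤ 1 → c' < φ' y → c < φ y ∧ 2 - η < ‖u + y‖ := by
  set N := ‖φ‖ with hN
  have hcN : c < N := by
    calc c < φ y₀ := hcy
      _ ≤ ‖φ y₀‖ := le_abs_self _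
      _ ≤ ‖φ‖ * ‖y₀‖ := φ.le_opNorm _
      _ ≤ N * 1 := mul_le_mul_of_nonneg_left hy₀ (norm_nonneg _)
      _ = N := mul_one _
  have hNpos : 0 < N := lt_of_le_of_lt hc hcN
  -- choose κ
  set κ := min (min (η / 3) (1 / 2)) ((1 - c / N) / 3) with hκ
  have h1c : 0 < 1 - c / N := by
    have : c / N < 1 := (div_lt_one hNpos).mpr hcN
    linarith
  have hκ0 : 0 < κ := by positivity
  have hκη : κ ≤ η / 3 := (min_le_left _ _).trans (min_le_left _ _)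
  have hκ2 : κ ≤ 1 / 2 := (min_le_left _ _).trans (min_le_right _ _)
  have hκc : κ ≤ (1 - c / N) / 3 := min_le_right _ _
  set φ₁ : E →L[ℝ] ℝ := N⁻¹ • φ with hφ₁
  have hφ₁n : ‖φ₁‖ = 1 := by
    rw [hφ₁, norm_smul, norm_inv, Real.norm_of_nonneg hNpos.le, ← hN, inv_mul_cancel₀ hNpos.ne']
  have hφy : φ₁ y₀ ≠ 0 := by
    rw [hφ₁]
    show N⁻¹ * φ y₀ ≠ 0
    have : 0 < φ y₀ := by linarith
    positivity
  have hune : u ≠ 0 := by
    intro h; rw [h, norm_zero] at hu; exact zero_ne_one hu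
  have hT := hD (φ₁.smulRight u) (finrank_smulRight φ₁ u hφy hune)
  rw [ContinuousLinearMap.norm_smulRight_apply, hφ₁n, hu, mul_one] at hT
  have hlt : 2 - κ < ‖ContinuousLinearMap.id ℝ E + φ₁.smulRight u‖ := by rw [hT]; linarith
  obtain ⟨y₁, hy₁, hy₁'⟩ := ContinuousLinearMap.exists_lt_apply_of_lt_opNorm _ hlt
  -- sign normalisation
  have hex : ∃ y : E, ‖y‖ ≤ 1 ∧ 0 ≤ φ₁ y ∧ 2 - κ < ‖y + φ₁ y • u‖ := by
    have hval : (ContinuousLinearMap.id ℝ E + φ₁.smulRight u) y₁ = y₁ + φ₁ y₁ • u := rfl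
    rw [hval] at hy₁'
    rcases le_total 0 (φ₁ y₁) with h | h
    · exact ⟨y₁, hy₁.le, h, hy₁'⟩
    · refine ⟨-y₁, by rw [norm_neg]; exact hy₁.le, by rw [map_neg]; linarith, ?_⟩
      have : -y₁ + φ₁ (-y₁) • u = -(y₁ + φ₁ y₁ • u) := by
        rw [map_neg, neg_smul, neg_add]
      rw [this, norm_neg]
      exact hy₁'
  obtain ⟨y, hy, hφ0, hyn⟩ := hex
  obtain ⟨ψ, hψ, hψw⟩ := exists_dual_vector'' ℝ (y + φ₁ y • u)
  have hψw' : ψ y + φ₁ y * ψ u = ‖y + φ₁ y • u‖ := by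
    rw [← smul_eq_mul, ← map_smul, ← map_add, hψw]
    rfl
  have hψle : ∀ v : E, ‖v‖ ≤ 1 → ψ v ≤ 1 := by
    intro v hv
    calc ψ v ≤ ‖ψ v‖ := le_abs_self _
      _ ≤ ‖ψ‖ * ‖v‖ := ψ.le_opNorm _
      _ ≤ 1 * 1 := mul_le_mul hψ hv (norm_nonneg _) zero_le_one
      _ = 1 := by norm_num
  have hφle : ∀ v : E, ‖v‖ ≤ 1 → φ₁ v ≤ 1 := by
    intro v hv
    calc φ₁ v ≤ ‖φ₁ v‖ := le_abs_self _
      _ ≤ ‖φ₁‖ * ‖v‖ := φ₁.le_opNorm _
      _ ≤ 1 * 1 := mul_le_mul hφ₁n.le hv (norm_nonneg _) zero_le_one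
      _ = 1 := by norm_num
  have h1 := hψle y hy
  have h2 := hψle u hu.le
  have h3 := hφle y hy
  have h4 : 1 - κ < φ₁ y * ψ u := by linarith
  have h5 : 0 < ψ u := by
    by_contra hcon
    push Not at hcon
    have : φ₁ y * ψ u ≤ 0 := mul_nonpos_of_nonneg_of_nonpos hφ0 hcon
    linarith
  have h6 : 1 - κ < φ₁ y := by nlinarith
  have h7 : 1 - κ < ψ u := by nlinarith
  have h8 : 1 - κ < ψ y := by nlinarith
  refine ⟨φ₁ + ψ, 2 - 2 * κ, y, by linarith, hy, ?_, ?_⟩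
  · show 2 - 2 * κ < φ₁ y + ψ y
    linarith
  · intro v hv hv'
    have hv'' : 2 - 2 * κ < φ₁ v + ψ v := hv'
    have e1 := hψle v hv
    have e2 := hφle v hv
    constructor
    · have e3 : 1 - 2 * κ < φ₁ v := by linarith
      have e4 : φ₁ v = N⁻¹ * φ v := rfl
      rw [e4, ← div_eq_inv_mul, lt_div_iff₀ hNpos] at e3
      have e5 : c / N < 1 - 2 * κ := by linarith
      rw [div_lt_iff₀ hNpos] at e5
      linarith
    · have e3 : ψ (u + v) ≤ ‖u + v‖ := by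
        calc ψ (u + v) ≤ ‖ψ (u + v)‖ := le_abs_self _
          _ ≤ ‖ψ‖ * ‖u + v‖ := ψ.le_opNorm _
          _ ≤ 1 * ‖u + v‖ := mul_le_mul_of_nonneg_right hψ (norm_nonneg _)
          _ = _ := one_mul _
      rw [map_add] at e3
      linarith

theorem oct_slice [Nontrivial E] (hD : Daugavet E) {η : ℝ} (hη : 0 < η) (s : Finset E)
    (hs : ∀ u ∈ s, ‖u‖ = 1) :
    ∃ (φ : E →L[ℝ] ℝ) (c : ℝ) (y₀ : E), 0 ≤ c ∧ ‖y₀‖ ≤ 1 ∧ c < φ y₀ ∧
      ∀ y, ‖y‖ ≤ 1 → c < φ y → ∀ u ∈ s, 2 - η < ‖u + y‖ := by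
  classical
  induction s using Finset.induction_on with
  | empty =>
    obtain ⟨x, hx⟩ := exists_ne (0 : E)
    have hxn : 0 < ‖x‖ := norm_pos_iff.mpr hx
    obtain ⟨g, hg, hgx⟩ := exists_dual_vector ℝ x hxn.ne'
    refine ⟨g, 0, ‖x‖⁻¹ • x, le_rfl, ?_, ?_, by simp⟩
    · rw [norm_smul, norm_inv, norm_norm, inv_mul_cancel₀ hxn.ne']
    · rw [map_smul, hgx, smul_eq_mul]
      have : ‖x‖⁻¹ * ‖x‖ = 1 := inv_mul_cancel₀ hxn.ne'
      show (0 : ℝ) < ‖x‖⁻¹ * ((‖x‖ : ℝ) : ℝ)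
      rw [this]; exact one_pos
  | insert u s hus ih =>
    obtain ⟨φ, c, y₀, h1, h2, h3, h4⟩ := ih (fun v hv => hs v (Finset.mem_insert_of_mem hv))
    obtain ⟨φ', c', y₀', g1, g2, g3, g4⟩ :=
      slice_step hD φ h1 h2 h3 (hs u (Finset.mem_insert_self _ _)) hη
    refine ⟨φ', c', y₀', g1, g2, g3, fun y hy hcy v hv => ?_⟩
    obtain ⟨k1, k2⟩ := g4 y hy hcy
    rcases Finset.mem_insert.mp hv with h | h
    · rw [h]; exact k2
    · exact h4 y hy k1 v h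

theorem oct_pts [Nontrivial E] (hD : Daugavet E) {η : ℝ} (hη : 0 < η) (s : Finset E)
    (hs : ∀ u ∈ s, ‖u‖ = 1) : ∃ x : E, ‖x‖ = 1 ∧ ∀ u ∈ s, 2 - η < ‖u + x‖ := by
  classical
  -- add an auxiliary point to control the norm of `y`
  obtain ⟨x₀, hx₀⟩ := exists_ne (0 : E)
  have hx₀n : 0 < ‖x₀‖ := norm_pos_iff.mpr hx₀
  set e := ‖x₀‖⁻¹ • x₀ with he
  have hen : ‖e‖ = 1 := by rw [he, norm_smul, norm_inv, norm_norm, inv_mul_cancel₀ hx₀n.ne']
  set κ := min (η / 2) (1 / 2) with hκ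
  have hκ0 : 0 < κ := by positivity
  have hκη : κ ≤ η / 2 := min_le_left _ _
  have hκ2 : κ ≤ 1 / 2 := min_le_right _ _
  obtain ⟨φ, c, y, h1, h2, h3, h4⟩ := oct_slice hD hκ0 (insert e s) (by
    intro u hu
    rcases Finset.mem_insert.mp hu with h | h
    · rw [h]; exact hen
    · exact hs u h)
  have h5 := h4 y h2 h3
  have h6 := h5 e (Finset.mem_insert_self _ _)
  have h7 : 1 - κ < ‖y‖ := by
    have := norm_add_le e y
    linarith
  have hy0 : 0 < ‖y‖ := by linarith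
  refine ⟨‖y‖⁻¹ • y, by rw [norm_smul, norm_inv, norm_norm, inv_mul_cancel₀ hy0.ne'], ?_⟩
  intro u hu
  have h8 := h5 u (Finset.mem_insert_of_mem hu)
  have h9 : ‖‖y‖⁻¹ • y - y‖ = 1 - ‖y‖ := by
    have : ‖y‖⁻¹ • y - y = (‖y‖⁻¹ - 1) • y := by rw [sub_smul, one_smul]
    rw [this, norm_smul]
    have h10 : 1 ≤ ‖y‖⁻¹ := (one_le_inv₀ hy0).mpr h2
    rw [Real.norm_of_nonneg (by linarith), sub_mul, inv_mul_cancel₀ hy0.ne', one_mul]
  have h10 : ‖u + y‖ ≤ ‖u + ‖y‖⁻¹ • y‖ + ‖‖y‖⁻¹ • y - y‖ := by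
    have : u + y = (u + ‖y‖⁻¹ • y) - (‖y‖⁻¹ • y - y) := by abel
    calc ‖u + y‖ = ‖(u + ‖y‖⁻¹ • y) - (‖y‖⁻¹ • y - y)‖ := by rw [← this]
      _ ≤ _ := norm_sub_le _ _
  linarith

/-- Octahedrality with respect to finite-dimensional subspaces. -/
theorem oct_sub [Nontrivial E] (hD : Daugavet E) {δ : ℝ} (hδ : 0 < δ) (Y : Finset E) :
    ∃ x : E, ‖x‖ = 1 ∧ ∀ u ∈ Submodule.span ℝ (Y : Set E), ∀ l : ℝ,
      (1 - δ) * (‖u‖ + |l|) ≤ ‖u + l • x‖ := by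
  classical
  let F := Submodule.span ℝ (Y : Set E)
  haveI : FiniteDimensional ℝ F := FiniteDimensional.span_finset ℝ Y
  haveI : ProperSpace F := FiniteDimensional.proper ℝ F
  have hcomp : IsCompact ((Subtype.val : F → E) '' Metric.sphere (0 : F) 1) :=
    (isCompact_sphere (0 : F) 1).image continuous_subtype_val
  obtain ⟨t, hts, htf, htc⟩ := hcomp.finite_cover_balls (by positivity : 0 < δ / 2)
  have htn : ∀ v ∈ t, ‖v‖ = 1 := by
    intro v hv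
    obtain ⟨w, hw, rfl⟩ := hts hv
    have := mem_sphere_zero_iff_norm.mp hw
    exact this
  obtain ⟨x, hx, hxt⟩ := oct_pts hD (by positivity : 0 < δ / 2) htf.toFinset
    (fun u hu => htn u (htf.mem_toFinset.mp hu))
  refine ⟨x, hx, ?_⟩
  have hunit : ∀ u ∈ F, ‖u‖ = 1 → 2 - δ < ‖u + x‖ := by
    intro u hu hun
    have hmem : u ∈ (Subtype.val : F → E) '' Metric.sphere (0 : F) 1 :=
      ⟨⟨u, hu⟩, mem_sphere_zero_iff_norm.mpr hun, rfl⟩
    obtain ⟨v, hv, huv⟩ := mem_iUnion₂.mp (htc hmem)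
    have h1 := hxt v (htf.mem_toFinset.mpr hv)
    rw [Metric.mem_ball, dist_eq_norm] at huv
    have h2 : ‖v + x‖ ≤ ‖u + x‖ + ‖u - v‖ := by
      have : v + x = (u + x) - (u - v) := by abel
      calc ‖v + x‖ = ‖(u + x) - (u - v)‖ := by rw [← this]
        _ ≤ _ := norm_sub_le _ _
    linarith
  have hpos : ∀ u ∈ F, ∀ l : ℝ, 0 ≤ l → (1 - δ) * (‖u‖ + l) ≤ ‖u + l • x‖ := by
    intro u hu l hl
    by_cases h0 : u = 0
    · rw [h0, norm_zero, zero_add, zero_add, norm_smul, hx, Real.norm_of_nonneg hl]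
      nlinarith
    · have ha : 0 < ‖u‖ := norm_pos_iff.mpr h0
      set a := ‖u‖ with hadef
      have h1 : 2 - δ < ‖a⁻¹ • u + x‖ := hunit _ (F.smul_mem _ hu) (by
        rw [norm_smul, norm_inv, norm_norm, inv_mul_cancel₀ ha.ne'])
      rcases le_total l a with h | h
      · -- a ≥ l
        have h2 : a • (a⁻¹ • u + x) = (u + l • x) + (a - l) • x := by
          rw [smul_add, smul_smul, mul_inv_cancel₀ ha.ne', one_smul, sub_smul]
          abel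
        have h3 : a * ‖a⁻¹ • u + x‖ ≤ ‖u + l • x‖ + (a - l) := by
          calc a * ‖a⁻¹ • u + x‖ = ‖a • (a⁻¹ • u + x)‖ := by
                rw [norm_smul, Real.norm_of_nonneg ha.le]
            _ = ‖(u + l • x) + (a - l) • x‖ := by rw [h2]
            _ ≤ ‖u + l • x‖ + ‖(a - l) • x‖ := norm_add_le _ _
            _ = _ := by rw [norm_smul, hx, Real.norm_of_nonneg (by linarith), mul_one]
        nlinarith
      · -- l ≥ a
        have hl0 : 0 < l := lt_of_lt_of_le ha h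
        have h2 : l • (a⁻¹ • u + x) = (u + l • x) + ((l - a) * a⁻¹) • u := by
          rw [smul_add, smul_smul, sub_mul, mul_inv_cancel₀ ha.ne', sub_smul, one_smul]
          abel
        have h3 : l * ‖a⁻¹ • u + x‖ ≤ ‖u + l • x‖ + (l - a) := by
          calc l * ‖a⁻¹ • u + x‖ = ‖l • (a⁻¹ • u + x)‖ := by
                rw [norm_smul, Real.norm_of_nonneg hl0.le]
            _ = ‖(u + l • x) + ((l - a) * a⁻¹) • u‖ := by rw [h2]
            _ ≤ ‖u + l • x‖ + ‖((l - a) * a⁻¹) • u‖ := norm_add_le _ _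
            _ = _ := by
                rw [norm_smul, Real.norm_of_nonneg (mul_nonneg (by linarith) (by positivity)),
                  ← hadef, mul_assoc, inv_mul_cancel₀ ha.ne', mul_one]
        nlinarith
  intro u hu l
  rcases le_total 0 l with h | h
  · rw [abs_of_nonneg h]; exact hpos u hu l h
  · have h1 := hpos (-u) (F.neg_mem hu) (-l) (by linarith)
    rw [norm_neg] at h1
    have h2 : -u + (-l) • x = -(u + l • x) := by rw [neg_smul, neg_add]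
    rw [h2, norm_neg] at h1
    rw [abs_of_nonpos h]
    exact h1

end Pool.Agent.X203.Oct
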