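import Pool.Agent.X203.OctA

/-!
Two tools: a Helly-type extension lemma, and the finite approximation of families in `L¹`.
-/

namespace Pool.Agent.X203.Oct

open Set Filter Topology MeasureTheory

theorem extend_of_bound {E : Type*} [NormedAddCommGroup E] [NormedSpace ℝ E]
    {V : Type*} [AddCommGroup V] [Module ℝ V] (T : V →ₗ[ℝ] E) (c : V →ₗ[ℝ] ℝ) {C : ℝ}
    (hC : 0 ≤ C) (h : ∀ v, |c v| ≤ C * ‖T v‖) :
    ∃ g : E →L[ℝ] ℝ, ‖g‖ ≤ C ∧ ∀ v, g (T v) = c v := by
  obtain ⟨S, hS⟩ := LinearMap.exists_rightInverse_of_surjective T.rangeRestrict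
    (LinearMap.range_eq_top.mpr T.surjective_rangeRestrict)
  have hS' : ∀ w : LinearMap.range T, T (S w) = w := by
    intro w
    have := LinearMap.congr_fun hS w
    have h2 := congrArg (Subtype.val) this
    simpa using h2
  have hcS : ∀ v, c (S (T.rangeRestrict v)) = c v := by
    intro v
    have h1 : T (S (T.rangeRestrict v) - v) = 0 := by
      rw [map_sub, hS']
      simp
    have h2 := h (S (T.rangeRestrict v) - v)
    rw [h1, norm_zero, mul_zero, map_sub] at h2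
    have := abs_nonpos_iff.mp h2
    linarith
  let g₀ : LinearMap.range T →L[ℝ] ℝ := LinearMap.mkContinuous (c.comp S) C (by
    intro w
    have := h (S w)
    rw [hS'] at this
    exact this)
  have hg₀ : ‖g₀‖ ≤ C := LinearMap.mkContinuous_norm_le _ hC _
  obtain ⟨g, hg, hgn⟩ := exists_extension_norm_eq (LinearMap.range T) g₀
  refine ⟨g, by rw [hgn]; exact hg₀, fun v => ?_⟩
  have := hg (T.rangeRestrict v)
  have h2 : ((T.rangeRestrict v : LinearMap.range T) : E) = T v := rfl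
  rw [h2] at this
  rw [this]
  exact hcS v

theorem ext2 {E : Type*} [NormedAddCommGroup E] [NormedSpace ℝ E] (F : Submodule ℝ E)
    (x z : E) (h : E →L[ℝ] ℝ) (s t : ℝ) {C : ℝ} (hC : 0 ≤ C)
    (hb : ∀ u ∈ F, ∀ l m : ℝ, |h u + s * l + t * m| ≤ C * ‖u + l • x + m • z‖) :
    ∃ g : E →L[ℝ] ℝ, ‖g‖ ≤ C ∧ (∀ u ∈ F, g u = h u) ∧ g x = s ∧ g z = t := by
  let T : (F × ℝ × ℝ) →ₗ[ℝ] E := F.subtype.coprod
    ((LinearMap.toSpanSingleton ℝ E x).coprod (LinearMap.toSpanSingleton ℝ E z))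
  let c : (F × ℝ × ℝ) →ₗ[ℝ] ℝ := ((h : E →ₗ[ℝ] ℝ).comp F.subtype).coprod
    ((LinearMap.toSpanSingleton ℝ ℝ s).coprod (LinearMap.toSpanSingleton ℝ ℝ t))
  have hT : ∀ (u : F) (l m : ℝ), T (u, l, m) = u + l • x + m • z := by
    intro u l m
    simp [T, add_assoc]
  have hc : ∀ (u : F) (l m : ℝ), c (u, l, m) = h u + s * l + t * m := by
    intro u l m
    simp [c, add_assoc, mul_comm]
  obtain ⟨g, hg, hgT⟩ := extend_of_bound T c hC (by
    rintro ⟨u, l, m⟩
    rw [hT, hc]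
    exact hb u u.2 l m)
  refine ⟨g, hg, ?_, ?_, ?_⟩
  · intro u hu
    have := hgT (⟨u, hu⟩, 0, 0)
    rw [hT, hc] at this
    simpa using this
  · have := hgT (0, 1, 0)
    rw [hT, hc] at this
    simpa using this
  · have := hgT (0, 0, 1)
    rw [hT, hc] at this
    simpa using this

/-- Approximation of a finite family in `L¹` by combinations of disjoint functions. -/
theorem L1_approx {Ω : Type*} [MeasurableSpace Ω] (μ : Measure Ω) {K : ℕ}
    (F : Fin K → Lp ℝ 1 μ) {η : ℝ} (hη : 0 < η) :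
    ∃ (T : Finset (Fin K → ℝ)) (H : (Fin K → ℝ) → Lp ℝ 1 μ),
      (∀ k, ‖F k - ∑ v ∈ T, v k • H v‖ ≤ η) ∧
      ∀ c : (Fin K → ℝ) → ℝ, ∑ v ∈ T, |c v| * ‖H v‖ ≤ ‖∑ v ∈ T, c v • H v‖ := by
  classical
  set G : Ω → (Fin K → ℝ) := fun ω k => F k ω with hG
  have hGint : Integrable G μ := by
    rw [hG]
    exact Integrable.of_eval (fun k => L1.integrable_coeFn (F k))
  have hGmem : MemLp G 1 μ := memLp_one_iff_integrable.mpr hGint
  obtain ⟨Φ, hΦ, hΦm⟩ := hGmem.exists_simpleFunc_eLpNorm_sub_lt (by simp)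
    (ε := ENNReal.ofReal η) (by simpa using hη)
  have hΦint : Integrable Φ μ := memLp_one_iff_integrable.mp hΦm
  have hfin : ∀ v : Fin K → ℝ, v ≠ 0 → μ (Φ ⁻¹' {v}) ≠ ⊤ := by
    intro v hv
    exact ((SimpleFunc.integrable_iff.mp hΦint) v hv).ne
  set T : Finset (Fin K → ℝ) := Φ.range.filter (· ≠ 0) with hT
  set H : (Fin K → ℝ) → Lp ℝ 1 μ := fun v =>
    if hv : v ≠ 0 then indicatorConstLp 1 (Φ.measurableSet_fiber v) (hfin v hv) (1 : ℝ) else 0
    with hH
  have hHae : ∀ v ∈ T, (H v : Ω → ℝ) =ᵐ[μ] (Φ ⁻¹' {v}).indicator (fun _ => (1 : ℝ)) := by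
    intro v hv
    have hv0 : v ≠ 0 := (Finset.mem_filter.mp hv).2
    rw [hH]
    simp only [hv0, ne_eq, not_false_eq_true, dite_true]
    exact indicatorConstLp_coeFn
  have hHn : ∀ v ∈ T, ‖H v‖ = μ.real (Φ ⁻¹' {v}) := by
    intro v hv
    have hv0 : v ≠ 0 := (Finset.mem_filter.mp hv).2
    rw [hH]
    simp only [hv0, ne_eq, not_false_eq_true, dite_true]
    rw [norm_indicatorConstLp (by simp) (by simp)]
    simp
  -- sum of indicator functions
  have hsum : ∀ c : (Fin K → ℝ) → ℝ, ∀ ω, ∑ v ∈ T, c v * (Φ ⁻¹' {v}).indicator (fun _ => (1 : ℝ)) ω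
      = if Φ ω ≠ 0 then c (Φ ω) else 0 := by
    intro c ω
    by_cases h0 : Φ ω = 0
    · rw [if_neg (by simpa using h0)]
      refine Finset.sum_eq_zero (fun v hv => ?_)
      have hv0 : v ≠ 0 := (Finset.mem_filter.mp hv).2
      rw [indicator_of_notMem, mul_zero]
      intro hmem
      have : Φ ω = v := hmem
      exact hv0 (this ▸ h0)
    · rw [if_pos h0]
      have hmem : Φ ω ∈ T := Finset.mem_filter.mpr ⟨Φ.mem_range_self ω, h0⟩
      rw [Finset.sum_eq_single (Φ ω)]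
      · rw [indicator_of_mem (by simp), mul_one]
      · intro v _ hv
        rw [indicator_of_notMem, mul_zero]
        intro hmem'
        have : Φ ω = v := hmem'
        exact hv this.symm
      · intro h
        exact absurd hmem h
  have hcoe : ∀ c : (Fin K → ℝ) → ℝ, ((∑ v ∈ T, c v • H v : Lp ℝ 1 μ) : Ω → ℝ) =ᵐ[μ]
      fun ω => if Φ ω ≠ 0 then c (Φ ω) else 0 := by
    intro c
    have h1 : ((∑ v ∈ T, c v • H v : Lp ℝ 1 μ) : Ω → ℝ) =ᵐ[μ]
        fun ω => ∑ v ∈ T, (c v • H v : Lp ℝ 1 μ) ω := by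
      have := Lp.coeFn_finsetSum (p := 1) (μ := μ) (E := ℝ) T (fun v => c v • H v)
      filter_upwards [this] with ω hω
      rw [hω]
      simp
    have h2 : ∀ᵐ ω ∂μ, ∀ v ∈ T, (c v • H v : Lp ℝ 1 μ) ω = c v * (Φ ⁻¹' {v}).indicator (fun _ => (1 : ℝ)) ω := by
      refine (ae_ball_iff T.countable_toSet).mpr ?_
      intro v hv
      filter_upwards [Lp.coeFn_smul (c v) (H v), hHae v hv] with ω h3 h4
      rw [h3, Pi.smul_apply, h4, smul_eq_mul]
    filter_upwards [h1, h2] with ω h3 h4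
    rw [h3, ← hsum c ω]
    exact Finset.sum_congr rfl (fun v hv => h4 v hv)
  refine ⟨T, H, ?_, ?_⟩
  · intro k
    have h1 : ‖F k - ∑ v ∈ T, v k • H v‖ = ∫ ω, ‖(F k - ∑ v ∈ T, v k • H v : Lp ℝ 1 μ) ω‖ ∂μ :=
      L1.norm_eq_integral_norm _
    rw [h1]
    have h2 : ∫ ω, ‖(F k - ∑ v ∈ T, v k • H v : Lp ℝ 1 μ) ω‖ ∂μ ≤ ∫ ω, ‖G ω - Φ ω‖ ∂μ := by
      refine integral_mono_ae (L1.integrable_coeFn _).norm (hGint.sub hΦint).norm ?_
      filter_upwards [Lp.coeFn_sub (F k) (∑ v ∈ T, v k • H v), hcoe (fun v => v k)] with ω h3 h4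
      rw [h3, Pi.sub_apply, h4]
      have h5 : (if Φ ω ≠ 0 then (Φ ω) k else 0) = Φ ω k := by
        by_cases h0 : Φ ω = 0
        · rw [if_neg (by simpa using h0), h0]; rfl
        · rw [if_pos h0]
      rw [h5]
      exact norm_le_pi_norm (G ω - Φ ω) k
    refine h2.trans ?_
    have h3 : ENNReal.ofReal (∫ ω, ‖G ω - Φ ω‖ ∂μ) = eLpNorm (G - ⇑Φ) 1 μ := by
      rw [eLpNorm_one_eq_lintegral_enorm]
      exact ofReal_integral_norm_eq_lintegral_enorm (hGint.sub hΦint)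
    have h4 : ENNReal.ofReal (∫ ω, ‖G ω - Φ ω‖ ∂μ) ≤ ENNReal.ofReal η := by
      rw [h3]; exact hΦ.le
    exact (ENNReal.ofReal_le_ofReal_iff hη.le).mp h4
  · intro c
    have h1 : ‖∑ v ∈ T, c v • H v‖ = ∫ ω, ‖(∑ v ∈ T, c v • H v : Lp ℝ 1 μ) ω‖ ∂μ :=
      L1.norm_eq_integral_norm _
    have h2 : ∫ ω, ‖(∑ v ∈ T, c v • H v : Lp ℝ 1 μ) ω‖ ∂μ =
        ∫ ω, ∑ v ∈ T, |c v| * (Φ ⁻¹' {v}).indicator (fun _ => (1 : ℝ)) ω ∂μ := by
      refine integral_congr_ae ?_
      filter_upwards [hcoe c] with ω h3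
      rw [h3, hsum (fun v => |c v|) ω]
      by_cases h0 : Φ ω = 0
      · simp [h0]
      · simp [h0]
    rw [h1, h2, integral_finsetSum]
    · refine Finset.sum_le_sum (fun v hv => ?_)
      have h3 : ∫ ω, (Φ ⁻¹' {v}).indicator (fun _ => (1 : ℝ)) ω ∂μ = μ.real (Φ ⁻¹' {v}) :=
        integral_indicator_one (Φ.measurableSet_fiber v)
      rw [integral_const_mul, h3, hHn v hv]
    · intro v hv
      have hv0 : v ≠ 0 := (Finset.mem_filter.mp hv).2
      refine Integrable.const_mul ?_ _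
      exact (integrable_indicator_iff (Φ.measurableSet_fiber v)).mpr
        (integrableOn_const (hfin v hv0))

/-- Approximation of an admissible family of functionals on an `L₁`-predual. -/
theorem dual_approx {E : Type*} [NormedAddCommGroup E] [NormedSpace ℝ E]
    {Ω : Type*} [MeasurableSpace Ω] (μ : Measure Ω) (e : (E →L[ℝ] ℝ) ≃ₗᵢ[ℝ] Lp ℝ 1 μ)
    {K : ℕ} (φ : Fin K → (E →L[ℝ] ℝ)) (hφ : ∀ y : E, ‖y‖ ≤ 1 → ∑ k, |φ k y| ≤ 1)
    {η : ℝ} (hη : 0 < η) :
    ∃ (T : Finset (Fin K → ℝ)) (h : (Fin K → ℝ) → (E →L[ℝ] ℝ)) (a : Fin K → (Fin K → ℝ) → ℝ),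
      (∀ v, ‖h v‖ ≤ 1) ∧ (∀ k, ‖φ k - ∑ v ∈ T, a k v • h v‖ ≤ η) ∧
      ∀ s : (Fin K → ℝ) → ℝ, (∀ v, |s v| ≤ 1) → ∑ k, |∑ v ∈ T, a k v * s v| ≤ 1 + K * η := by
  classical
  obtain ⟨T, H, hH1, hH2⟩ := L1_approx μ (fun k => e (φ k)) hη
  set h : (Fin K → ℝ) → (E →L[ℝ] ℝ) := fun v => ‖H v‖⁻¹ • e.symm (H v) with hh
  set a : Fin K → (Fin K → ℝ) → ℝ := fun k v => v k * ‖H v‖ with ha
  have hterm : ∀ k v, a k v • h v = e.symm (v k • H v) := by
    intro k v
    rw [ha, hh]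
    simp only
    rw [smul_smul, map_smul]
    by_cases h0 : ‖H v‖ = 0
    · have : H v = 0 := norm_eq_zero.mp h0
      rw [this]; simp
    · rw [mul_assoc, mul_inv_cancel₀ h0, mul_one]
  have hsumk : ∀ k, ∑ v ∈ T, a k v • h v = e.symm (∑ v ∈ T, v k • H v) := by
    intro k
    rw [map_sum]
    exact Finset.sum_congr rfl (fun v _ => hterm k v)
  have happ : ∀ k, ‖φ k - ∑ v ∈ T, a k v • h v‖ ≤ η := by
    intro k
    rw [hsumk, ← e.norm_map]
    rw [map_sub, LinearIsometryEquiv.apply_symm_apply]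
    exact hH1 k
  refine ⟨T, h, a, ?_, happ, ?_⟩
  · intro v
    rw [hh]
    simp only
    rw [norm_smul, LinearIsometryEquiv.norm_map, norm_inv, norm_norm]
    by_cases h0 : ‖H v‖ = 0
    · rw [h0]; simp
    · rw [inv_mul_cancel₀ h0]
  · intro s hs
    -- choose signs
    choose θ hθ1 hθ2 using fun k : Fin K => (show ∃ θ : ℝ, |θ| ≤ 1 ∧
        |∑ v ∈ T, a k v * s v| = θ * ∑ v ∈ T, a k v * s v by
      rcases abs_cases (∑ v ∈ T, a k v * s v) with ⟨h1, _⟩ | ⟨h1, _⟩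
      · exact ⟨1, by norm_num, by rw [h1, one_mul]⟩
      · exact ⟨-1, by norm_num, by rw [h1, neg_one_mul]⟩)
    calc ∑ k, |∑ v ∈ T, a k v * s v| = ∑ k, θ k * ∑ v ∈ T, a k v * s v :=
          Finset.sum_congr rfl (fun k _ => hθ2 k)
      _ = ∑ v ∈ T, s v * ((∑ k, θ k * v k) * ‖H v‖) := by
          simp_rw [Finset.mul_sum, Finset.sum_mul]
          rw [Finset.sum_comm]
          refine Finset.sum_congr rfl (fun v _ => ?_)
          rw [Finset.mul_sum]
          refine Finset.sum_congr rfl (fun k _ => ?_)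
          rw [ha]; ring
      _ ≤ ∑ v ∈ T, |∑ k, θ k * v k| * ‖H v‖ := by
          refine Finset.sum_le_sum (fun v _ => ?_)
          calc s v * ((∑ k, θ k * v k) * ‖H v‖) ≤ |s v * ((∑ k, θ k * v k) * ‖H v‖)| := le_abs_self _
            _ = |s v| * (|∑ k, θ k * v k| * ‖H v‖) := by
                rw [abs_mul, abs_mul, abs_of_nonneg (norm_nonneg (H v))]
            _ ≤ 1 * (|∑ k, θ k * v k| * ‖H v‖) :=
                mul_le_mul_of_nonneg_right (hs v) (by positivity)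
            _ = _ := one_mul _
      _ ≤ ‖∑ v ∈ T, (∑ k, θ k * v k) • H v‖ := hH2 (fun v => ∑ k, θ k * v k)
      _ = ‖∑ k, θ k • ∑ v ∈ T, v k • H v‖ := by
          congr 1
          simp_rw [Finset.sum_smul, Finset.smul_sum, smul_smul]
          rw [Finset.sum_comm]
      _ = ‖∑ k, θ k • ∑ v ∈ T, a k v • h v‖ := by
          rw [← e.symm.norm_map]
          congr 1
          rw [map_sum]
          refine Finset.sum_congr rfl (fun k _ => ?_)
          rw [map_smul, hsumk]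
      _ = ‖∑ k, θ k • φ k - ∑ k, θ k • (φ k - ∑ v ∈ T, a k v • h v)‖ := by
          congr 1
          rw [← Finset.sum_sub_distrib]
          refine Finset.sum_congr rfl (fun k _ => ?_)
          rw [smul_sub (θ k) (φ k) (∑ v ∈ T, a k v • h v)]; abel
      _ ≤ ‖∑ k, θ k • φ k‖ + ‖∑ k, θ k • (φ k - ∑ v ∈ T, a k v • h v)‖ := norm_sub_le _ _
      _ ≤ 1 + K * η := by
          refine add_le_add ?_ ?_
          · refine ContinuousLinearMap.opNorm_le_of_unit_norm zero_le_one (fun y hy => ?_)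
            have h1 : (∑ k, θ k • φ k) y = ∑ k, θ k * φ k y := by
              simp
            rw [h1, Real.norm_eq_abs]
            calc |∑ k, θ k * φ k y| ≤ ∑ k, |θ k * φ k y| := Finset.abs_sum_le_sum_abs _ _
              _ ≤ ∑ k, |φ k y| := Finset.sum_le_sum (fun k _ => by
                  rw [abs_mul]
                  calc |θ k| * |φ k y| ≤ 1 * |φ k y| :=
                        mul_le_mul_of_nonneg_right (hθ1 k) (abs_nonneg _)
                    _ = _ := one_mul _)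
              _ ≤ 1 := hφ y hy.le
          · calc ‖∑ k, θ k • (φ k - ∑ v ∈ T, a k v • h v)‖
                ≤ ∑ k, ‖θ k • (φ k - ∑ v ∈ T, a k v • h v)‖ := norm_sum_le _ _
              _ ≤ ∑ _k : Fin K, η := Finset.sum_le_sum (fun k _ => by
                  rw [norm_smul, Real.norm_eq_abs]
                  calc |θ k| * ‖φ k - ∑ v ∈ T, a k v • h v‖ ≤ 1 * η :=
                        mul_le_mul (hθ1 k) (happ k) (norm_nonneg _) zero_le_one
                    _ = η := one_mul _)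
              _ = K * η := by simp

end Pool.Agent.X203.Oct
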