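import Pool.Agent.X203.OctB

/-!
The free Banach lattice of a Banach space: definition and basic facts.
-/

namespace Pool.Agent.X203.Oct

open Set Filter Topology MeasureTheory
open scoped ENNReal

variable {E : Type*} [NormedAddCommGroup E] [NormedSpace ℝ E]

/-- A family `x₁*, …, xₙ*` with `sup_{x ∈ B_E} ∑ |xᵢ*(x)| ≤ 1`. -/
def Adm {n : ℕ} (φ : Fin n → (E →L[ℝ] ℝ)) : Prop := ∀ x : E, ‖x‖ ≤ 1 → ∑ i, |φ i x| ≤ 1

/-- Positively homogeneous functions on the dual. -/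
def PosHom (f : (E →L[ℝ] ℝ) → ℝ) : Prop := ∀ c : ℝ, 0 ≤ c → ∀ φ, f (c • φ) = c * f φ

/-- The (extended-valued) free lattice norm. -/
noncomputable def nrm (f : (E →L[ℝ] ℝ) → ℝ) : ℝ≥0∞ :=
  ⨆ (n : ℕ) (φ : Fin n → (E →L[ℝ] ℝ)) (_ : Adm φ), ∑ i, ENNReal.ofReal |f (φ i)|

/-- The evaluation `δ_x`. -/
def del (x : E) : (E →L[ℝ] ℝ) → ℝ := fun φ => φ x

/-- `S` is a closed sublattice of the Banach lattice of positively homogeneous functions
of finite norm. -/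
structure IsClosedSublattice (S : Set ((E →L[ℝ] ℝ) → ℝ)) : Prop where
  mem : ∀ f ∈ S, PosHom f ∧ nrm f < ⊤
  add : ∀ f ∈ S, ∀ g ∈ S, f + g ∈ S
  smul : ∀ (c : ℝ), ∀ f ∈ S, c • f ∈ S
  sup : ∀ f ∈ S, ∀ g ∈ S, f ⊔ g ∈ S
  closed : ∀ f, PosHom f → nrm f < ⊤ → (∀ ε : ℝ, 0 < ε → ∃ g ∈ S, nrm (f - g) ≤ ENNReal.ofReal ε) →
    f ∈ S

/-- The free Banach lattice `FBL[E]`. -/
def FBL (E : Type*) [NormedAddCommGroup E] [NormedSpace ℝ E] : Set ((E →L[ℝ] ℝ) → ℝ) :=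
  {f | ∀ S : Set ((E →L[ℝ] ℝ) → ℝ), IsClosedSublattice S → (∀ x, del x ∈ S) → f ∈ S}

/-- The sublattice generated by the evaluations. -/
inductive Gen : ((E →L[ℝ] ℝ) → ℝ) → Prop
  | del (x : E) : Gen (del x)
  | add (f g : (E →L[ℝ] ℝ) → ℝ) : Gen f → Gen g → Gen (f + g)
  | smul (c : ℝ) (f : (E →L[ℝ] ℝ) → ℝ) : Gen f → Gen (c • f)
  | sup (f g : (E →L[ℝ] ℝ) → ℝ) : Gen f → Gen g → Gen (f ⊔ g)

theorem Gen.mem_FBL {f : (E →L[ℝ] ℝ) → ℝ} (h : Gen f) : f ∈ FBL E := by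
  intro S hS hd
  induction h with
  | del x => exact hd x
  | add f g _ _ h1 h2 => exact hS.add f h1 g h2
  | smul c f _ h1 => exact hS.smul c f h1
  | sup f g _ _ h1 h2 => exact hS.sup f h1 g h2

theorem Gen.neg {f : (E →L[ℝ] ℝ) → ℝ} (h : Gen f) : Gen (-f) := by
  have := Gen.smul (-1) f h
  rwa [neg_one_smul] at this

theorem Gen.sub {f g : (E →L[ℝ] ℝ) → ℝ} (h : Gen f) (h' : Gen g) : Gen (f - g) := by
  rw [sub_eq_add_neg]
  exact Gen.add _ _ h h'.neg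

theorem Gen.inf {f g : (E →L[ℝ] ℝ) → ℝ} (h : Gen f) (h' : Gen g) : Gen (f ⊓ g) := by
  have h1 := (Gen.sup _ _ h.neg h'.neg).neg
  have h2 : -(-f ⊔ -g) = f ⊓ g := by
    funext φ
    show -max (-f φ) (-g φ) = min (f φ) (g φ)
    rw [max_neg_neg, neg_neg]
  rwa [h2] at h1

theorem Gen.zero [Nonempty E] : Gen (0 : (E →L[ℝ] ℝ) → ℝ) := by
  have := Gen.smul 0 (Oct.del (0 : E)) (Gen.del 0)
  rwa [zero_smul] at this

/-! ### Properties of the norm -/

theorem le_nrm (f : (E →L[ℝ] ℝ) → ℝ) {n : ℕ} {φ : Fin n → (E →L[ℝ] ℝ)} (h : Adm φ) :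
    ∑ i, ENNReal.ofReal |f (φ i)| ≤ nrm f :=
  le_iSup_of_le n (le_iSup_of_le φ (le_iSup_of_le h le_rfl))

theorem nrm_le {f : (E →L[ℝ] ℝ) → ℝ} {r : ℝ≥0∞}
    (h : ∀ (n : ℕ) (φ : Fin n → (E →L[ℝ] ℝ)), Adm φ → ∑ i, ENNReal.ofReal |f (φ i)| ≤ r) :
    nrm f ≤ r :=
  iSup_le (fun n => iSup_le (fun φ => iSup_le (fun hφ => h n φ hφ)))

theorem nrm_mono {f g : (E →L[ℝ] ℝ) → ℝ} (h : ∀ φ, |f φ| ≤ |g φ|) : nrm f ≤ nrm g :=
  nrm_le (fun _ _ hφ => (Finset.sum_le_sum (fun i _ => ENNReal.ofReal_le_ofReal (h _))).trans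
    (le_nrm g hφ))

theorem nrm_add_le (f g : (E →L[ℝ] ℝ) → ℝ) : nrm (f + g) ≤ nrm f + nrm g := by
  refine nrm_le (fun n φ hφ => ?_)
  calc ∑ i, ENNReal.ofReal |(f + g) (φ i)|
      ≤ ∑ i, (ENNReal.ofReal |f (φ i)| + ENNReal.ofReal |g (φ i)|) := by
        refine Finset.sum_le_sum (fun i _ => ?_)
        rw [← ENNReal.ofReal_add (abs_nonneg _) (abs_nonneg _)]
        exact ENNReal.ofReal_le_ofReal (abs_add_le _ _)
    _ = _ := Finset.sum_add_distrib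
    _ ≤ _ := add_le_add (le_nrm f hφ) (le_nrm g hφ)

theorem nrm_smul (c : ℝ) (f : (E →L[ℝ] ℝ) → ℝ) : nrm (c • f) ≤ ENNReal.ofReal |c| * nrm f := by
  refine nrm_le (fun n φ hφ => ?_)
  calc ∑ i, ENNReal.ofReal |(c • f) (φ i)|
      = ENNReal.ofReal |c| * ∑ i, ENNReal.ofReal |f (φ i)| := by
        rw [Finset.mul_sum]
        refine Finset.sum_congr rfl (fun i _ => ?_)
        rw [← ENNReal.ofReal_mul (abs_nonneg _), ← abs_mul]
        rfl
    _ ≤ _ := by gcongr; exact le_nrm f hφ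

theorem nrm_neg (f : (E →L[ℝ] ℝ) → ℝ) : nrm (-f) = nrm f :=
  le_antisymm (nrm_mono (fun φ => by simp)) (nrm_mono (fun φ => by simp))

theorem nrm_sub_le (f g : (E →L[ℝ] ℝ) → ℝ) : nrm (f - g) ≤ nrm f + nrm g := by
  rw [sub_eq_add_neg, ← nrm_neg g]; exact nrm_add_le _ _

theorem nrm_del_le (x : E) : nrm (del x) ≤ ENNReal.ofReal ‖x‖ := by
  refine nrm_le (fun n φ hφ => ?_)
  rw [← ENNReal.ofReal_sum_of_nonneg (fun _ _ => abs_nonneg _)]
  refine ENNReal.ofReal_le_ofReal ?_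
  show ∑ i, |φ i x| ≤ ‖x‖
  by_cases h0 : x = 0
  · simp [h0]
  · have hx : 0 < ‖x‖ := norm_pos_iff.mpr h0
    have h1 := hφ (‖x‖⁻¹ • x) (by rw [norm_smul, norm_inv, norm_norm, inv_mul_cancel₀ hx.ne'])
    have h2 : ∑ i, |φ i (‖x‖⁻¹ • x)| = ‖x‖⁻¹ * ∑ i, |φ i x| := by
      rw [Finset.mul_sum]
      refine Finset.sum_congr rfl (fun i _ => ?_)
      rw [map_smul, smul_eq_mul, abs_mul, abs_of_pos (inv_pos.mpr hx)]
    rw [h2, ← div_eq_inv_mul, div_le_one hx] at h1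
    exact h1

theorem nrm_del [Nontrivial E] {x : E} (hx : ‖x‖ = 1) : nrm (del x) = 1 := by
  refine le_antisymm (by simpa [hx] using nrm_del_le x) ?_
  obtain ⟨g, hg, hgx⟩ := exists_dual_vector ℝ x (by rw [hx]; exact one_ne_zero)
  have hadm : Adm (fun _ : Fin 1 => g) := by
    intro y hy
    rw [Fin.sum_univ_one]
    calc |g y| = ‖g y‖ := rfl
      _ ≤ ‖g‖ * ‖y‖ := g.le_opNorm y
      _ ≤ 1 * 1 := mul_le_mul hg.le hy (norm_nonneg _) zero_le_one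
      _ = 1 := one_mul _
  have h1 := le_nrm (del x) hadm
  rw [Fin.sum_univ_one] at h1
  have h2 : del x g = 1 := by
    show g x = 1
    rw [hgx, hx]; rfl
  rw [h2] at h1
  simpa using h1

/-- Scaling: families that are admissible up to a factor `R`. -/
theorem le_nrm_of_bound {f : (E →L[ℝ] ℝ) → ℝ} (hf : PosHom f) {n : ℕ}
    {φ : Fin n → (E →L[ℝ] ℝ)} {R : ℝ} (hR : 0 < R)
    (h : ∀ x : E, ‖x‖ ≤ 1 → ∑ i, |φ i x| ≤ R) :
    ENNReal.ofReal ((∑ i, |f (φ i)|) / R) ≤ nrm f := by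
  have hadm : Adm (fun i => R⁻¹ • φ i) := by
    intro x hx
    have h1 : ∑ i, |(R⁻¹ • φ i) x| = R⁻¹ * ∑ i, |φ i x| := by
      rw [Finset.mul_sum]
      refine Finset.sum_congr rfl (fun i _ => ?_)
      show |R⁻¹ * φ i x| = _
      rw [abs_mul, abs_of_pos (inv_pos.mpr hR)]
    rw [h1, ← div_eq_inv_mul, div_le_one hR]
    exact h x hx
  have h2 := le_nrm f hadm
  rw [← ENNReal.ofReal_sum_of_nonneg (fun _ _ => abs_nonneg _)] at h2
  have h3 : ∑ i, |f (R⁻¹ • φ i)| = (∑ i, |f (φ i)|) / R := by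
    rw [div_eq_inv_mul, Finset.mul_sum]
    refine Finset.sum_congr rfl (fun i _ => ?_)
    rw [hf _ (inv_pos.mpr hR).le, abs_mul, abs_of_pos (inv_pos.mpr hR)]
  rw [h3] at h2
  exact h2

/-! ### Properties of generated functions -/

theorem PosHom.sup {f g : (E →L[ℝ] ℝ) → ℝ} (hf : PosHom f) (hg : PosHom g) : PosHom (f ⊔ g) := by
  intro c hc φ
  rw [Pi.sup_apply, Pi.sup_apply, hf c hc, hg c hc]
  exact (mul_max_of_nonneg _ _ hc).symm

theorem PosHom.add {f g : (E →L[ℝ] ℝ) → ℝ} (hf : PosHom f) (hg : PosHom g) : PosHom (f + g) := by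
  intro c hc φ
  rw [Pi.add_apply, Pi.add_apply, hf c hc, hg c hc, mul_add]

theorem PosHom.smul (a : ℝ) {f : (E →L[ℝ] ℝ) → ℝ} (hf : PosHom f) : PosHom (a • f) := by
  intro c hc φ
  rw [Pi.smul_apply, Pi.smul_apply, hf c hc, smul_eq_mul, smul_eq_mul]; ring

theorem Gen.mem {f : (E →L[ℝ] ℝ) → ℝ} (h : Gen f) : PosHom f ∧ nrm f < ⊤ := by
  induction h with
  | del x =>
    refine ⟨fun c _ φ => by show (c • φ) x = _; rfl, ?_⟩
    exact (nrm_del_le x).trans_lt ENNReal.ofReal_lt_top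
  | add f g _ _ h1 h2 =>
    exact ⟨h1.1.add h2.1, (nrm_add_le f g).trans_lt (ENNReal.add_lt_top.mpr ⟨h1.2, h2.2⟩)⟩
  | smul c f _ h1 =>
    exact ⟨h1.1.smul c, (nrm_smul c f).trans_lt (ENNReal.mul_lt_top ENNReal.ofReal_lt_top h1.2)⟩
  | sup f g _ _ h1 h2 =>
    refine ⟨h1.1.sup h2.1, ?_⟩
    have h3 : nrm (f ⊔ g) ≤ nrm (|f| + |g|) := by
      refine nrm_mono (fun φ => ?_)
      rw [Pi.sup_apply, Pi.add_apply, Pi.abs_apply, Pi.abs_apply]
      rw [abs_of_nonneg (add_nonneg (abs_nonneg (f φ)) (abs_nonneg (g φ)))]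
      rw [abs_le]
      constructor
      · have := neg_abs_le (f φ); have := abs_nonneg (g φ); have := le_max_left (f φ) (g φ)
        show _ ≤ max (f φ) (g φ)
        linarith
      · refine max_le ?_ ?_
        · have := le_abs_self (f φ); have := abs_nonneg (g φ); linarith
        · have := le_abs_self (g φ); have := abs_nonneg (f φ); linarith
    have h4 : nrm |f| ≤ nrm f := nrm_mono (fun φ => by rw [Pi.abs_apply, abs_abs])
    have h5 : nrm |g| ≤ nrm g := nrm_mono (fun φ => by rw [Pi.abs_apply, abs_abs])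
    exact (h3.trans (nrm_add_le _ _)).trans_lt
      (ENNReal.add_lt_top.mpr ⟨h4.trans_lt h1.2, h5.trans_lt h2.2⟩)

/-- Generated functions depend on finitely many coordinates and are Lipschitz. -/
theorem Gen.fin_lip {f : (E →L[ℝ] ℝ) → ℝ} (h : Gen f) : ∃ (Y : Finset E) (L : ℝ), 0 ≤ L ∧
    (∀ φ ψ : E →L[ℝ] ℝ, (∀ y ∈ Y, φ y = ψ y) → f φ = f ψ) ∧
    ∀ φ ψ : E →L[ℝ] ℝ, |f φ - f ψ| ≤ L * ‖φ - ψ‖ := by
  classical
  induction h with
  | del x =>
    refine ⟨{x}, ‖x‖, norm_nonneg _, fun φ ψ h => h x (by simp), fun φ ψ => ?_⟩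
    have := (φ - ψ).le_opNorm x
    rw [mul_comm] at this
    exact this
  | add f g _ _ h1 h2 =>
    obtain ⟨Y1, L1, a1, b1, c1⟩ := h1
    obtain ⟨Y2, L2, a2, b2, c2⟩ := h2
    refine ⟨Y1 ∪ Y2, L1 + L2, add_nonneg a1 a2, fun φ ψ h => ?_, fun φ ψ => ?_⟩
    · rw [Pi.add_apply, Pi.add_apply, b1 φ ψ (fun y hy => h y (Finset.mem_union_left _ hy)),
        b2 φ ψ (fun y hy => h y (Finset.mem_union_right _ hy))]
    · have h3 := c1 φ ψ
      have h4 := c2 φ ψ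
      have h5 : (f + g) φ - (f + g) ψ = (f φ - f ψ) + (g φ - g ψ) := by
        rw [Pi.add_apply, Pi.add_apply]; ring
      rw [h5, add_mul]
      exact (abs_add_le _ _).trans (add_le_add h3 h4)
  | smul c f _ h1 =>
    obtain ⟨Y1, L1, a1, b1, c1⟩ := h1
    refine ⟨Y1, |c| * L1, mul_nonneg (abs_nonneg _) a1, fun φ ψ h => ?_, fun φ ψ => ?_⟩
    · rw [Pi.smul_apply, Pi.smul_apply, b1 φ ψ h]
    · rw [Pi.smul_apply, Pi.smul_apply, ← smul_sub, smul_eq_mul, abs_mul, mul_assoc]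
      exact mul_le_mul_of_nonneg_left (c1 φ ψ) (abs_nonneg _)
  | sup f g _ _ h1 h2 =>
    obtain ⟨Y1, L1, a1, b1, c1⟩ := h1
    obtain ⟨Y2, L2, a2, b2, c2⟩ := h2
    refine ⟨Y1 ∪ Y2, L1 + L2, add_nonneg a1 a2, fun φ ψ h => ?_, fun φ ψ => ?_⟩
    · rw [Pi.sup_apply, Pi.sup_apply, b1 φ ψ (fun y hy => h y (Finset.mem_union_left _ hy)),
        b2 φ ψ (fun y hy => h y (Finset.mem_union_right _ hy))]
    · have h3 := c1 φ ψ
      have h4 := c2 φ ψ
      have h5 : |max (f φ) (g φ) - max (f ψ) (g ψ)| ≤ max |f φ - f ψ| |g φ - g ψ| :=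
        abs_max_sub_max_le_max _ _ _ _
      show |max (f φ) (g φ) - max (f ψ) (g ψ)| ≤ _
      refine h5.trans (max_le ?_ ?_)
      · rw [add_mul]
        have : 0 ≤ L2 * ‖φ - ψ‖ := by positivity
        linarith
      · rw [add_mul]
        have : 0 ≤ L1 * ‖φ - ψ‖ := by positivity
        linarith

/-- The closure of the generated sublattice is a closed sublattice. -/
theorem closure_isClosedSublattice :
    IsClosedSublattice {f : (E →L[ℝ] ℝ) → ℝ | (PosHom f ∧ nrm f < ⊤) ∧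
      ∀ ε : ℝ, 0 < ε → ∃ g, Gen g ∧ nrm (f - g) ≤ ENNReal.ofReal ε} where
  mem := fun f hf => hf.1
  add := by
    rintro f ⟨⟨f1, f2⟩, f3⟩ g ⟨⟨g1, g2⟩, g3⟩
    refine ⟨⟨f1.add g1, (nrm_add_le f g).trans_lt (ENNReal.add_lt_top.mpr ⟨f2, g2⟩)⟩, ?_⟩
    intro ε hε
    obtain ⟨f', hf', hf''⟩ := f3 (ε / 2) (by positivity)
    obtain ⟨g', hg', hg''⟩ := g3 (ε / 2) (by positivity)
    refine ⟨f' + g', Gen.add _ _ hf' hg', ?_⟩
    have h1 : f + g - (f' + g') = (f - f') + (g - g') := by abel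
    rw [h1]
    refine (nrm_add_le _ _).trans ((add_le_add hf'' hg'').trans ?_)
    rw [← ENNReal.ofReal_add (by positivity) (by positivity), add_halves]
  smul := by
    rintro c f ⟨⟨f1, f2⟩, f3⟩
    refine ⟨⟨f1.smul c, (nrm_smul c f).trans_lt (ENNReal.mul_lt_top ENNReal.ofReal_lt_top f2)⟩, ?_⟩
    intro ε hε
    obtain ⟨f', hf', hf''⟩ := f3 (ε / (|c| + 1)) (by positivity)
    refine ⟨c • f', Gen.smul _ _ hf', ?_⟩
    rw [← smul_sub]
    refine (nrm_smul _ _).trans ?_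
    calc ENNReal.ofReal |c| * nrm (f - f')
        ≤ ENNReal.ofReal |c| * ENNReal.ofReal (ε / (|c| + 1)) := by gcongr
      _ = ENNReal.ofReal (|c| * (ε / (|c| + 1))) := (ENNReal.ofReal_mul (abs_nonneg _)).symm
      _ ≤ ENNReal.ofReal ε := by
          refine ENNReal.ofReal_le_ofReal ?_
          rw [mul_div_assoc', div_le_iff₀ (by positivity)]
          nlinarith [abs_nonneg c]
  sup := by
    rintro f ⟨⟨f1, f2⟩, f3⟩ g ⟨⟨g1, g2⟩, g3⟩
    refine ⟨⟨f1.sup g1, ?_⟩, ?_⟩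
    · have h3 : nrm (f ⊔ g) ≤ nrm (|f| + |g|) := by
        refine nrm_mono (fun φ => ?_)
        rw [Pi.sup_apply, Pi.add_apply, Pi.abs_apply, Pi.abs_apply]
        rw [abs_of_nonneg (add_nonneg (abs_nonneg (f φ)) (abs_nonneg (g φ)))]
        rw [abs_le]
        constructor
        · have := neg_abs_le (f φ); have := abs_nonneg (g φ); have := le_max_left (f φ) (g φ)
          show _ ≤ max (f φ) (g φ)
          linarith
        · refine max_le ?_ ?_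
          · have := le_abs_self (f φ); have := abs_nonneg (g φ); linarith
          · have := le_abs_self (g φ); have := abs_nonneg (f φ); linarith
      have h4 : nrm |f| ≤ nrm f := nrm_mono (fun φ => by rw [Pi.abs_apply, abs_abs])
      have h5 : nrm |g| ≤ nrm g := nrm_mono (fun φ => by rw [Pi.abs_apply, abs_abs])
      exact (h3.trans (nrm_add_le _ _)).trans_lt
        (ENNReal.add_lt_top.mpr ⟨h4.trans_lt f2, h5.trans_lt g2⟩)
    · intro ε hε
      obtain ⟨f', hf', hf''⟩ := f3 (ε / 2) (by positivity)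
      obtain ⟨g', hg', hg''⟩ := g3 (ε / 2) (by positivity)
      refine ⟨f' ⊔ g', Gen.sup _ _ hf' hg', ?_⟩
      have h1 : nrm (f ⊔ g - f' ⊔ g') ≤ nrm (|f - f'| + |g - g'|) := by
        refine nrm_mono (fun φ => ?_)
        rw [Pi.add_apply, Pi.abs_apply, Pi.abs_apply,
          abs_of_nonneg (add_nonneg (abs_nonneg ((f - f') φ)) (abs_nonneg ((g - g') φ)))]
        show |max (f φ) (g φ) - max (f' φ) (g' φ)| ≤ |f φ - f' φ| + |g φ - g' φ|
        refine (abs_max_sub_max_le_max _ _ _ _).trans (max_le ?_ ?_)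
        · have := abs_nonneg (g φ - g' φ); linarith
        · have := abs_nonneg (f φ - f' φ); linarith
      have h4 : nrm |f - f'| ≤ nrm (f - f') := nrm_mono (fun φ => by rw [Pi.abs_apply, abs_abs])
      have h5 : nrm |g - g'| ≤ nrm (g - g') := nrm_mono (fun φ => by rw [Pi.abs_apply, abs_abs])
      refine (h1.trans (nrm_add_le _ _)).trans
        ((add_le_add (h4.trans hf'') (h5.trans hg'')).trans ?_)
      rw [← ENNReal.ofReal_add (by positivity) (by positivity), add_halves]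
  closed := by
    intro f f1 f2 f3
    refine ⟨⟨f1, f2⟩, fun ε hε => ?_⟩
    obtain ⟨g, ⟨_, hg⟩, hg'⟩ := f3 (ε / 2) (by positivity)
    obtain ⟨g', hg1, hg2⟩ := hg (ε / 2) (by positivity)
    refine ⟨g', hg1, ?_⟩
    have h1 : f - g' = (f - g) + (g - g') := by abel
    rw [h1]
    refine (nrm_add_le _ _).trans ((add_le_add hg' hg2).trans ?_)
    rw [← ENNReal.ofReal_add (by positivity) (by positivity), add_halves]

theorem FBL_approx {f : (E →L[ℝ] ℝ) → ℝ} (hf : f ∈ FBL E) : (PosHom f ∧ nrm f < ⊤) ∧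
    ∀ ε : ℝ, 0 < ε → ∃ g, Gen g ∧ nrm (f - g) ≤ ENNReal.ofReal ε :=
  hf _ closure_isClosedSublattice (fun x => ⟨(Gen.del x).mem, fun ε _ =>
    ⟨del x, Gen.del x, by rw [sub_self]; exact (nrm_le (fun n φ _ => by simp))⟩⟩)

/-- `FBL[E]` is itself a closed sublattice. -/
theorem FBL_isClosedSublattice : IsClosedSublattice (FBL E) where
  mem := fun _ hf => (FBL_approx hf).1
  add := fun f hf g hg S hS hd => hS.add f (hf S hS hd) g (hg S hS hd)
  smul := fun c f hf S hS hd => hS.smul c f (hf S hS hd)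
  sup := fun f hf g hg S hS hd => hS.sup f (hf S hS hd) g (hg S hS hd)
  closed := fun f f1 f2 f3 S hS hd => hS.closed f f1 f2 (fun ε hε => by
    obtain ⟨g, hg, hg'⟩ := f3 ε hε
    exact ⟨g, hg S hS hd, hg'⟩)

end Pool.Agent.X203.Oct
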