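import Pool.Agent.X203.OctC

/-!
The test function and the estimate for a single function.
-/

namespace Pool.Agent.X203.Oct

open Set Filter Topology MeasureTheory
open scoped ENNReal

variable {E : Type*} [NormedAddCommGroup E] [NormedSpace ℝ E]

/-- The test function `(|δ_x| ∧ M δ_z⁺) - (|δ_x| ∧ M δ_z⁻)`. -/
noncomputable def g0 (x z : E) (M : ℝ) : (E →L[ℝ] ℝ) → ℝ :=
  (del x ⊔ del (-x)) ⊓ (M • (del z ⊔ del 0)) - (del x ⊔ del (-x)) ⊓ (M • (del (-z) ⊔ del 0))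

theorem g0_gen (x z : E) (M : ℝ) : Gen (g0 x z M) :=
  Gen.sub (Gen.inf (Gen.sup _ _ (Gen.del _) (Gen.del _))
    (Gen.smul _ _ (Gen.sup _ _ (Gen.del _) (Gen.del _))))
    (Gen.inf (Gen.sup _ _ (Gen.del _) (Gen.del _))
    (Gen.smul _ _ (Gen.sup _ _ (Gen.del _) (Gen.del _))))

theorem g0_apply (x z : E) (M : ℝ) (φ : E →L[ℝ] ℝ) : g0 x z M φ =
    min |φ x| (M * max (φ z) 0) - min |φ x| (M * max (-φ z) 0) := by
  show min (max (φ x) (φ (-x))) (M * max (φ z) (φ 0)) -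
    min (max (φ x) (φ (-x))) (M * max (φ (-z)) (φ 0)) = _
  rw [map_neg, map_neg, map_zero]
  rfl

theorem g0_abs_le (x z : E) {M : ℝ} (hM : 0 ≤ M) (φ : E →L[ℝ] ℝ) :
    |g0 x z M φ| ≤ |φ x| := by
  rw [g0_apply]
  have hx := abs_nonneg (φ x)
  rcases le_total 0 (φ z) with h | h
  · rw [max_eq_right (by linarith : -φ z ≤ 0), mul_zero, min_eq_right hx, sub_zero,
      abs_of_nonneg (le_min hx (mul_nonneg hM (le_max_right _ _)))]
    exact min_le_left _ _
  · rw [max_eq_right h, mul_zero, min_eq_right hx, zero_sub, abs_neg,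
      abs_of_nonneg (le_min hx (mul_nonneg hM (le_max_right _ _)))]
    exact min_le_left _ _

theorem g0_pos {x z : E} {M τ : ℝ} {φ : E →L[ℝ] ℝ} (hτ : 0 < τ) (hz : φ z = τ * 1)
    (hx : |φ x| ≤ M * τ) : g0 x z M φ = |φ x| := by
  rw [g0_apply, hz, mul_one, max_eq_left hτ.le, max_eq_right (by linarith : -τ ≤ 0), mul_zero,
    min_eq_left hx, min_eq_right (abs_nonneg _), sub_zero]

theorem g0_neg {x z : E} {M τ : ℝ} {φ : E →L[ℝ] ℝ} (hτ : 0 < τ) (hz : φ z = τ * (-1))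
    (hx : |φ x| ≤ M * τ) : g0 x z M φ = -|φ x| := by
  rw [g0_apply, hz, mul_neg_one, neg_neg, max_eq_left hτ.le, max_eq_right (by linarith : -τ ≤ 0),
    mul_zero, min_eq_left hx, min_eq_right (abs_nonneg _), zero_sub]

theorem perf {Ω : Type*} [MeasurableSpace Ω] (μ : Measure Ω)
    (e : (E →L[ℝ] ℝ) ≃ₗᵢ[ℝ] Lp ℝ 1 μ) {f : (E →L[ℝ] ℝ) → ℝ} (hf : f ∈ FBL E) (h1 : nrm f = 1)
    {ε : ℝ} (hε : 0 < ε) (hε1 : ε ≤ 1) :
    ∃ (Y : Finset E) (τ : ℝ), 0 < τ ∧ ∀ (x z : E) (M : ℝ), 0 ≤ M → 2 ≤ M * τ →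
      (∀ u ∈ Submodule.span ℝ (Y : Set E), ∀ l : ℝ,
        (1 - ε / 80) * (‖u‖ + |l|) ≤ ‖u + l • x‖) →
      (∀ u ∈ Submodule.span ℝ (insert x (Y : Set E)), ∀ m : ℝ,
        (1 - ε / 80) * (‖u‖ + |m|) ≤ ‖u + m • z‖) →
      ENNReal.ofReal (2 - ε) ≤ nrm (f + g0 x z M) := by
  classical
  obtain ⟨⟨fP, _⟩, fapp⟩ := FBL_approx hf
  set κ := ε / 20 with hκ
  have hκ0 : 0 < κ := by positivity
  have hκ1 : κ ≤ 1 / 20 := by rw [hκ]; linarith
  obtain ⟨f', hf', hff'⟩ := fapp κ hκ0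
  -- a nearly norming family
  have h2 : ENNReal.ofReal (1 - κ) < nrm f := by
    rw [h1]
    have : ENNReal.ofReal (1 - κ) < ENNReal.ofReal 1 :=
      (ENNReal.ofReal_lt_ofReal_iff one_pos).mpr (by linarith)
    rwa [ENNReal.ofReal_one] at this
  obtain ⟨K, h3⟩ := lt_iSup_iff.mp h2
  obtain ⟨φ, h4⟩ := lt_iSup_iff.mp h3
  obtain ⟨hφ, h5⟩ := lt_iSup_iff.mp h4
  rw [← ENNReal.ofReal_sum_of_nonneg (fun _ _ => abs_nonneg _)] at h5
  have h6 : 1 - κ < ∑ k, |f (φ k)| := (ENNReal.ofReal_lt_ofReal_iff_of_nonneg (by linarith)).mp h5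
  have h7 : ∑ k, |(f - f') (φ k)| ≤ κ := by
    have := (le_nrm (f - f') hφ).trans hff'
    rw [← ENNReal.ofReal_sum_of_nonneg (fun _ _ => abs_nonneg _)] at this
    exact (ENNReal.ofReal_le_ofReal_iff hκ0.le).mp this
  have h8 : 1 - 2 * κ ≤ ∑ k, |f' (φ k)| := by
    have : ∑ k, |f (φ k)| ≤ ∑ k, (|f' (φ k)| + |(f - f') (φ k)|) := by
      refine Finset.sum_le_sum (fun k _ => ?_)
      have : f (φ k) = f' (φ k) + (f - f') (φ k) := by rw [Pi.sub_apply]; ring
      rw [this]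
      exact abs_add_le _ _
    rw [Finset.sum_add_distrib] at this
    linarith
  -- a point where the family is large
  have h9 : ∃ y₀ : E, ‖y₀‖ ≤ 1 ∧ 1 - 2 * κ < ∑ k, |φ k y₀| := by
    by_contra hcon
    push Not at hcon
    have hR : 0 < 1 - 2 * κ := by linarith
    have h10 := le_nrm_of_bound fP hR hcon
    rw [h1] at h10
    have h11 : (∑ k, |f (φ k)|) / (1 - 2 * κ) ≤ 1 := by
      rw [← ENNReal.ofReal_one] at h10
      exact (ENNReal.ofReal_le_ofReal_iff zero_le_one).mp h10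
    rw [div_le_one hR] at h11
    linarith
  obtain ⟨y₀, hy₀, hy₀'⟩ := h9
  obtain ⟨Y, L, hL, hdep, hlip⟩ := hf'.fin_lip
  set η := κ / ((K + 1) * (L + 1)) with hη
  have hη0 : 0 < η := by positivity
  have hKη : (K : ℝ) * η ≤ κ := by
    rw [hη, mul_div_assoc', div_le_iff₀ (by positivity)]
    have : (K : ℝ) ≤ (K + 1) * (L + 1) := by nlinarith [Nat.cast_nonneg (α := ℝ) K]
    nlinarith
  have hKLη : (K : ℝ) * (L * η) ≤ κ := by
    rw [hη, ← mul_assoc, mul_div_assoc', div_le_iff₀ (by positivity)]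
    have : (K : ℝ) * L ≤ (K + 1) * (L + 1) := by nlinarith [Nat.cast_nonneg (α := ℝ) K]
    nlinarith
  obtain ⟨T, h, a, hh, happ, hbd⟩ := dual_approx μ e φ hφ hη0
  set φt : Fin K → (E →L[ℝ] ℝ) := fun k => ∑ v ∈ T, a k v • h v with hφt
  have h10 : 1 - 3 * κ ≤ ∑ k, |f' (φt k)| := by
    have h11 : ∑ k, |f' (φ k)| ≤ ∑ k, (|f' (φt k)| + L * η) := by
      refine Finset.sum_le_sum (fun k _ => ?_)
      have h12 := hlip (φ k) (φt k)
      have h13 : L * ‖φ k - φt k‖ ≤ L * η := mul_le_mul_of_nonneg_left (happ k) hL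
      have h14 : f' (φ k) = f' (φt k) + (f' (φ k) - f' (φt k)) := by ring
      rw [h14]
      refine (abs_add_le _ _).trans ?_
      linarith
    rw [Finset.sum_add_distrib, Finset.sum_const, Finset.card_univ, Fintype.card_fin,
      nsmul_eq_mul] at h11
    linarith
  set s : (Fin K → ℝ) → ℝ := fun v => h v y₀ with hs
  have hs1 : ∀ v, |s v| ≤ 1 := by
    intro v
    calc |s v| = ‖h v y₀‖ := rfl
      _ ≤ ‖h v‖ * ‖y₀‖ := (h v).le_opNorm y₀
      _ ≤ 1 * 1 := mul_le_mul (hh v) hy₀ (norm_nonneg _) zero_le_one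
      _ = 1 := one_mul _
  set mm : Fin K → ℝ := fun k => ∑ v ∈ T, a k v * s v with hmm
  have hmk : ∀ k, mm k = φt k y₀ := by
    intro k
    rw [hmm, hφt]
    simp [hs]
  have h11 : 1 - 3 * κ ≤ ∑ k, |mm k| := by
    have h12 : ∑ k, |φ k y₀| ≤ ∑ k, (|mm k| + η) := by
      refine Finset.sum_le_sum (fun k _ => ?_)
      have h13 : |φ k y₀ - φt k y₀| ≤ η := by
        calc |φ k y₀ - φt k y₀| = ‖(φ k - φt k) y₀‖ := rfl
          _ ≤ ‖φ k - φt k‖ * ‖y₀‖ := (φ k - φt k).le_opNorm y₀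
          _ ≤ η * 1 := mul_le_mul (happ k) hy₀ (norm_nonneg _) hη0.le
          _ = η := mul_one _
      have h14 : φ k y₀ = mm k + (φ k y₀ - φt k y₀) := by rw [hmk]; ring
      rw [h14]
      refine (abs_add_le _ _).trans ?_
      linarith
    rw [Finset.sum_add_distrib, Finset.sum_const, Finset.card_univ, Fintype.card_fin,
      nsmul_eq_mul] at h12
    linarith
  have h12 : ∀ k, |mm k| ≤ 2 := by
    intro k
    calc |mm k| ≤ ∑ k, |mm k| :=
          Finset.single_le_sum (f := fun k => |mm k|) (fun _ _ => abs_nonneg _) (Finset.mem_univ k)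
      _ ≤ 1 + K * η := hbd s hs1
      _ ≤ 2 := by linarith
  set τ := κ / (K + 1) with hτ
  have hτ0 : 0 < τ := by positivity
  have hKτ : (K : ℝ) * τ ≤ κ := by
    rw [hτ, mul_div_assoc', div_le_iff₀ (by positivity)]
    nlinarith [Nat.cast_nonneg (α := ℝ) K]
  set σ : Fin K → ℝ := fun k => if 0 ≤ f' (φt k) then 1 else -1 with hσ
  have hσ1 : ∀ k, |σ k| = 1 := by
    intro k
    rw [hσ]
    simp only
    split_ifs <;> simp
  refine ⟨Y, τ, hτ0, ?_⟩
  intro x z M hM hMτ hx hz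
  set C := 1 + κ with hC
  have hC0 : 0 < C := by positivity
  -- the main geometric bound
  have hgeo : ∀ u ∈ Submodule.span ℝ (Y : Set E), ∀ l m : ℝ,
      ‖u‖ + |l| + |m| ≤ C * ‖u + l • x + m • z‖ := by
    intro u hu l m
    have hu' : u + l • x ∈ Submodule.span ℝ (insert x (Y : Set E)) := by
      refine Submodule.add_mem _ (Submodule.span_mono (subset_insert _ _) hu) ?_
      exact Submodule.smul_mem _ _ (Submodule.subset_span (mem_insert _ _))
    have e1 := hx u hu l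
    have e2 := hz _ hu' m
    have e3 : ε / 80 = κ / 4 := by rw [hκ]; ring
    rw [e3] at e1 e2
    set A := ‖u‖ + |l| with hA
    have hA0 : 0 ≤ A := by positivity
    set B := |m| with hB
    have hB0 : 0 ≤ B := abs_nonneg _
    set Z := ‖u + l • x + m • z‖ with hZ
    set W := ‖u + l • x‖ with hW
    have hq : 0 < 1 - κ / 4 := by linarith
    -- Z ≥ q (q A + B) ≥ q² (A + B)
    have e4 : (1 - κ / 4) * ((1 - κ / 4) * A + B) ≤ Z := by
      refine le_trans ?_ e2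
      exact mul_le_mul_of_nonneg_left (by linarith) hq.le
    have e5 : (1 - κ / 4) ^ 2 * (A + B) ≤ Z := by
      refine le_trans ?_ e4
      have : (1 - κ / 4) * B ≤ B := by nlinarith
      nlinarith
    have e6 : 1 ≤ C * (1 - κ / 4) ^ 2 := by
      rw [hC]
      have e7 : 0 ≤ κ * (1 / 2 - 7 * κ / 16) := mul_nonneg hκ0.le (by linarith)
      have e8 : 0 ≤ κ ^ 3 := by positivity
      have e9 : (1 + κ) * (1 - κ / 4) ^ 2 = 1 + κ * (1 / 2 - 7 * κ / 16) + κ ^ 3 / 16 := by ring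
      rw [e9]
      linarith
    calc A + B = 1 * (A + B) := (one_mul _).symm
      _ ≤ C * (1 - κ / 4) ^ 2 * (A + B) := mul_le_mul_of_nonneg_right e6 (by positivity)
      _ = C * ((1 - κ / 4) ^ 2 * (A + B)) := by ring
      _ ≤ C * Z := mul_le_mul_of_nonneg_left e5 hC0.le
  -- the new functionals
  have hex1 : ∀ v : Fin K → ℝ, ∃ g : E →L[ℝ] ℝ, ‖g‖ ≤ C ∧
      (∀ u ∈ Submodule.span ℝ (Y : Set E), g u = h v u) ∧ g x = s v ∧ g z = 0 := by
    intro v
    refine ext2 _ x z (h v) (s v) 0 hC0.le (fun u hu l m => ?_)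
    refine le_trans ?_ (hgeo u hu l m)
    have e1 : |h v u| ≤ ‖u‖ := by
      calc |h v u| = ‖h v u‖ := rfl
        _ ≤ ‖h v‖ * ‖u‖ := (h v).le_opNorm u
        _ ≤ 1 * ‖u‖ := mul_le_mul_of_nonneg_right (hh v) (norm_nonneg _)
        _ = _ := one_mul _
    have e2 : |s v * l| ≤ |l| := by
      rw [abs_mul]
      calc |s v| * |l| ≤ 1 * |l| := mul_le_mul_of_nonneg_right (hs1 v) (abs_nonneg _)
        _ = _ := one_mul _
    rw [zero_mul, add_zero]
    refine (abs_add_le _ _).trans ?_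
    have := abs_nonneg m
    linarith
  choose h' hh'1 hh'2 hh'3 hh'4 using hex1
  have hex2 : ∀ k : Fin K, ∃ g : E →L[ℝ] ℝ, ‖g‖ ≤ C ∧
      (∀ u ∈ Submodule.span ℝ (Y : Set E), g u = (0 : E →L[ℝ] ℝ) u) ∧ g x = 0 ∧ g z = σ k := by
    intro k
    refine ext2 _ x z (0 : E →L[ℝ] ℝ) 0 (σ k) hC0.le (fun u hu l m => ?_)
    refine le_trans ?_ (hgeo u hu l m)
    have e1 : (0 : E →L[ℝ] ℝ) u + 0 * l + σ k * m = σ k * m := by
      simp
    rw [e1, abs_mul, hσ1, one_mul]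
    have := abs_nonneg l
    have := norm_nonneg u
    linarith
  choose h'' hh''1 hh''2 hh''3 hh''4 using hex2
  set ψ : Fin K → (E →L[ℝ] ℝ) := fun k => ∑ v ∈ T, a k v • h' v + τ • h'' k with hψ
  have hψapp : ∀ k y, ψ k y = ∑ v ∈ T, a k v * h' v y + τ * h'' k y := by
    intro k y
    rw [hψ]
    simp
  have hψY : ∀ k, ∀ y ∈ Y, ψ k y = φt k y := by
    intro k y hy
    have hy' : y ∈ Submodule.span ℝ (Y : Set E) := Submodule.subset_span hy
    rw [hψapp, hh''2 k y hy']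
    have : φt k y = ∑ v ∈ T, a k v * h v y := by
      rw [hφt]; simp
    rw [this]
    have e1 : (0 : E →L[ℝ] ℝ) y = 0 := rfl
    rw [e1, mul_zero, add_zero]
    exact Finset.sum_congr rfl (fun v _ => by rw [hh'2 v y hy'])
  have hψx : ∀ k, ψ k x = mm k := by
    intro k
    rw [hψapp, hh''3, mul_zero, add_zero]
    exact Finset.sum_congr rfl (fun v _ => by rw [hh'3])
  have hψz : ∀ k, ψ k z = τ * σ k := by
    intro k
    rw [hψapp, hh''4]
    have : ∑ v ∈ T, a k v * h' v z = 0 := Finset.sum_eq_zero (fun v _ => by rw [hh'4, mul_zero])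
    rw [this, zero_add]
  set R := C * (1 + 2 * κ) with hR
  have hR0 : 0 < R := by positivity
  have hψR : ∀ y : E, ‖y‖ ≤ 1 → ∑ k, |ψ k y| ≤ R := by
    intro y hy
    have e1 : ∀ g : E →L[ℝ] ℝ, ‖g‖ ≤ C → |g y| ≤ C := by
      intro g hg
      calc |g y| = ‖g y‖ := rfl
        _ ≤ ‖g‖ * ‖y‖ := g.le_opNorm y
        _ ≤ C * 1 := mul_le_mul hg hy (norm_nonneg _) hC0.le
        _ = C := mul_one _
    have e2 := hbd (fun v => C⁻¹ * h' v y) (fun v => by
      rw [abs_mul, abs_of_pos (inv_pos.mpr hC0), ← div_eq_inv_mul, div_le_one hC0]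
      exact e1 _ (hh'1 v))
    have e3 : ∀ k, |∑ v ∈ T, a k v * h' v y| = C * |∑ v ∈ T, a k v * (C⁻¹ * h' v y)| := by
      intro k
      rw [← abs_of_pos hC0, ← abs_mul, Finset.mul_sum, abs_of_pos hC0]
      congr 1
      refine Finset.sum_congr rfl (fun v _ => ?_)
      field_simp
    calc ∑ k, |ψ k y| ≤ ∑ k, (C * |∑ v ∈ T, a k v * (C⁻¹ * h' v y)| + τ * C) := by
          refine Finset.sum_le_sum (fun k _ => ?_)
          rw [hψapp, ← e3]
          refine (abs_add_le _ _).trans (add_le_add le_rfl ?_)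
          rw [abs_mul, abs_of_pos hτ0]
          exact mul_le_mul_of_nonneg_left (e1 _ (hh''1 k)) hτ0.le
      _ = C * ∑ k, |∑ v ∈ T, a k v * (C⁻¹ * h' v y)| + K * τ * C := by
          rw [Finset.sum_add_distrib, Finset.mul_sum, Finset.sum_const, Finset.card_univ,
            Fintype.card_fin, nsmul_eq_mul]; ring
      _ ≤ C * (1 + K * η) + K * τ * C := by gcongr
      _ ≤ R := by
          rw [hR]
          nlinarith
  -- the values
  have hval : ∀ k, |(f' + g0 x z M) (ψ k)| = |f' (φt k)| + |mm k| := by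
    intro k
    have e1 : f' (ψ k) = f' (φt k) := hdep _ _ (hψY k)
    have e2 : |ψ k x| ≤ M * τ := by rw [hψx]; exact (h12 k).trans hMτ
    rw [Pi.add_apply, e1]
    by_cases h0 : 0 ≤ f' (φt k)
    · have e3 : ψ k z = τ * 1 := by rw [hψz, hσ]; simp [h0]
      rw [g0_pos hτ0 e3 e2, hψx, abs_of_nonneg h0, abs_of_nonneg (by positivity)]
    · have e3 : ψ k z = τ * (-1) := by rw [hψz, hσ]; simp [h0]
      push Not at h0
      rw [g0_neg hτ0 e3 e2, hψx, abs_of_neg h0]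
      have e4 : f' (φt k) + -|mm k| ≤ 0 := by
        have := abs_nonneg (mm k)
        linarith
      rw [abs_of_nonpos e4]; ring
  have hP : PosHom (f' + g0 x z M) := hf'.mem.1.add (g0_gen x z M).mem.1
  have hfin := le_nrm_of_bound hP hR0 hψR
  have hsum : 2 - 6 * κ ≤ ∑ k, |(f' + g0 x z M) (ψ k)| := by
    simp_rw [hval]
    rw [Finset.sum_add_distrib]
    linarith
  have hRle : R ≤ 1 + 5 * κ := by
    rw [hR, hC]
    nlinarith
  have hq : 2 - 16 * κ ≤ (∑ k, |(f' + g0 x z M) (ψ k)|) / R := by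
    rw [le_div_iff₀ hR0]
    nlinarith
  have hlast : ENNReal.ofReal (2 - 16 * κ) ≤ nrm (f + g0 x z M) + ENNReal.ofReal κ := by
    calc ENNReal.ofReal (2 - 16 * κ) ≤ nrm (f' + g0 x z M) :=
          (ENNReal.ofReal_le_ofReal hq).trans hfin
      _ = nrm ((f + g0 x z M) - (f - f')) := by congr 1; abel
      _ ≤ nrm (f + g0 x z M) + nrm (f - f') := nrm_sub_le _ _
      _ ≤ _ := by gcongr
  have : ENNReal.ofReal (2 - 16 * κ) - ENNReal.ofReal κ ≤ nrm (f + g0 x z M) :=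
    tsub_le_iff_right.mpr hlast
  rw [← ENNReal.ofReal_sub _ hκ0.le] at this
  refine le_trans (ENNReal.ofReal_le_ofReal ?_) this
  rw [hκ]; linarith

/-- **Octahedrality of the norm of `FBL[E]`** for `L₁`-preduals with the Daugavet property. -/
theorem octahedral [Nontrivial E] {Ω : Type*} [MeasurableSpace Ω] (μ : Measure Ω)
    (e : (E →L[ℝ] ℝ) ≃ₗᵢ[ℝ] Lp ℝ 1 μ) (hD : Daugavet E) (n : ℕ)
    (f : Fin n → ((E →L[ℝ] ℝ) → ℝ)) (hf : ∀ i, f i ∈ FBL E) (hf1 : ∀ i, nrm (f i) = 1)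
    {ε : ℝ} (hε : 0 < ε) :
    ∃ g ∈ FBL E, nrm g = 1 ∧ ∀ i, ENNReal.ofReal (2 - ε) < nrm (f i + g) := by
  classical
  obtain ⟨x₀, hx₀⟩ := exists_ne (0 : E)
  have hx₀n : 0 < ‖x₀‖ := norm_pos_iff.mpr hx₀
  set b := ‖x₀‖⁻¹ • x₀ with hb
  have hbn : ‖b‖ = 1 := by rw [hb, norm_smul, norm_inv, norm_norm, inv_mul_cancel₀ hx₀n.ne']
  set κ := min (ε / 4) (1 / 4) with hκ
  have hκ0 : 0 < κ := by positivity
  have hκε : κ ≤ ε / 4 := min_le_left _ _
  have hκ1 : κ ≤ 1 / 4 := min_le_right _ _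
  -- extended family
  let F : Option (Fin n) → ((E →L[ℝ] ℝ) → ℝ) := fun o => o.elim (del b) f
  have hF : ∀ o, F o ∈ FBL E := by
    rintro (_ | i)
    · exact (Gen.del b).mem_FBL
    · exact hf i
  have hF1 : ∀ o, nrm (F o) = 1 := by
    rintro (_ | i)
    · exact nrm_del hbn
    · exact hf1 i
  choose Y τ hτ hYτ using fun o => perf μ e (hF o) (hF1 o) hκ0 (by linarith)
  set YY : Finset E := Finset.univ.biUnion Y with hYY
  obtain ⟨x, hx1, hx⟩ := oct_sub hD (by positivity : 0 < κ / 80) YY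
  obtain ⟨z, hz1, hz⟩ := oct_sub hD (by positivity : 0 < κ / 80) (insert x YY)
  set M : ℝ := ∑ o, 2 / τ o with hM
  have hM0 : 0 ≤ M := Finset.sum_nonneg (fun o _ => by have := hτ o; positivity)
  have hMτ : ∀ o, 2 ≤ M * τ o := by
    intro o
    have h1 : 2 / τ o ≤ M :=
      Finset.single_le_sum (f := fun o => 2 / τ o)
        (fun o _ => by have := hτ o; positivity) (Finset.mem_univ o)
    rwa [div_le_iff₀ (hτ o)] at h1
  have hsub : ∀ o, (Y o : Set E) ⊆ (YY : Set E) := by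
    intro o y hy
    exact Finset.mem_coe.mpr (Finset.mem_biUnion.mpr ⟨o, Finset.mem_univ _, hy⟩)
  set g := g0 x z M with hg
  have hkey : ∀ o, ENNReal.ofReal (2 - κ) ≤ nrm (F o + g) := by
    intro o
    refine hYτ o x z M hM0 (hMτ o) ?_ ?_
    · intro u hu l
      exact hx u (Submodule.span_mono (hsub o) hu) l
    · intro u hu m
      refine hz u (Submodule.span_mono ?_ hu) m
      rw [Finset.coe_insert]
      exact insert_subset_insert (hsub o)
  have hgle : nrm g ≤ 1 := by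
    refine (nrm_mono (g := del x) (fun φ => g0_abs_le x z hM0 φ)).trans ?_
    rw [nrm_del hx1]
  have hgne : nrm g ≠ ⊤ := (hgle.trans_lt ENNReal.one_lt_top).ne
  set t := (nrm g).toReal with ht
  have htg : nrm g = ENNReal.ofReal t := (ENNReal.ofReal_toReal hgne).symm
  have ht1 : t ≤ 1 := by
    have := ENNReal.toReal_mono ENNReal.one_ne_top hgle
    simpa using this
  have htl : 1 - κ ≤ t := by
    have h1 := (hkey none).trans (nrm_add_le _ _)
    rw [hF1, htg, ← ENNReal.ofReal_one, ← ENNReal.ofReal_add zero_le_one ENNReal.toReal_nonneg,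
      ENNReal.ofReal_le_ofReal_iff (by positivity)] at h1
    linarith
  have ht0 : 0 < t := by linarith
  have hgn : nrm (t⁻¹ • g) = 1 := by
    refine le_antisymm ?_ ?_
    · refine (nrm_smul _ _).trans ?_
      rw [htg, ← ENNReal.ofReal_mul (abs_nonneg _), abs_of_pos (inv_pos.mpr ht0),
        inv_mul_cancel₀ ht0.ne', ENNReal.ofReal_one]
    · have h1 : nrm g ≤ ENNReal.ofReal |t| * nrm (t⁻¹ • g) := by
        have := nrm_smul t (t⁻¹ • g)
        rwa [smul_smul, mul_inv_cancel₀ ht0.ne', one_smul] at this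
      rw [htg, abs_of_pos ht0] at h1
      have h2 : ENNReal.ofReal t * 1 ≤ ENNReal.ofReal t * nrm (t⁻¹ • g) := by
        rw [mul_one]; exact h1
      exact (ENNReal.mul_le_mul_iff_right (by simpa using ht0) ENNReal.ofReal_ne_top).mp h2
  refine ⟨t⁻¹ • g, (Gen.smul _ _ (g0_gen x z M)).mem_FBL, hgn, ?_⟩
  intro i
  have h1 : nrm (f i + g) ≤ nrm (f i + t⁻¹ • g) + ENNReal.ofReal κ := by
    have h2 : f i + g = (f i + t⁻¹ • g) + (t - 1) • (t⁻¹ • g) := by
      rw [sub_smul, one_smul, smul_smul, mul_inv_cancel₀ ht0.ne', one_smul]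
      abel
    have h3 : nrm ((t - 1) • (t⁻¹ • g)) ≤ ENNReal.ofReal κ := by
      refine (nrm_smul _ _).trans ?_
      rw [hgn, mul_one, abs_of_nonpos (by linarith)]
      exact ENNReal.ofReal_le_ofReal (by linarith)
    calc nrm (f i + g) = nrm ((f i + t⁻¹ • g) + (t - 1) • (t⁻¹ • g)) := by rw [← h2]
      _ ≤ _ := nrm_add_le _ _
      _ ≤ _ := by gcongr
  have h2 := (hkey (some i)).trans h1
  have h3 : ENNReal.ofReal (2 - κ) - ENNReal.ofReal κ ≤ nrm (f i + t⁻¹ • g) :=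
    tsub_le_iff_right.mpr h2
  rw [← ENNReal.ofReal_sub _ hκ0.le] at h3
  refine lt_of_lt_of_le ?_ h3
  exact (ENNReal.ofReal_lt_ofReal_iff (by linarith)).mpr (by linarith)

end Pool.Agent.X203.Oct
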