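import Pool.Agent.X203.Sier

/-! Failure of the Radon-Nikodym property gives a tree of vectors (a bush). -/

namespace Pool.Agent.X203.RNPTree

open MeasureTheory Set Filter Topology Pool.Agent.X203.Sier

universe u

set_option linter.unusedSectionVars false

/-- The Radon-Nikodym property: every `ν`-continuous vector measure of bounded variation has a
Bochner integrable density. -/
def RNP (Y : Type*) [NormedAddCommGroup Y] [NormedSpace ℝ Y] : Prop :=
  ∀ (Ω : Type u) [MeasurableSpace Ω] (ν : Measure Ω) [IsFiniteMeasure ν] (m : VectorMeasure Ω Y),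
    (∀ E, MeasurableSet E → ν E = 0 → m E = 0) → m.variation univ ≠ ⊤ →
      ∃ f : Ω → Y, Integrable f ν ∧ ∀ E, MeasurableSet E → m E = ∫ x in E, f x ∂ν

/-- a bush in `Y` -/
structure Bush (Y : Type*) [NormedAddCommGroup Y] [NormedSpace ℝ Y] where
  ι : Type u
  [dec : DecidableEq ι]
  T : WTree ι
  v : ℕ → ι → Y
  norm_le : ∀ k t, ‖v k t‖ ≤ 1
  mart : ∀ k, ∀ t ∈ T.S k, ∑ i ∈ T.S (k + 1) with T.r k i = t, T.p (k + 1) i • v (k + 1) i =
    T.p k t • v k t
  ε : ℝ
  pos : 0 < ε
  big : ∀ k, ε ≤ ∑ i ∈ T.S (k + 1), T.p (k + 1) i * ‖v (k + 1) i - v k (T.r k i)‖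

attribute [instance] Bush.dec

section

variable {Ω : Type*} [MeasurableSpace Ω] {ρ : Measure Ω} [IsFiniteMeasure ρ]

theorem comp_eq {ι : Type*} [DecidableEq ι] {E : Type*} [NormedAddCommGroup E] (c : Ω → ι)
    (S : Finset ι) (hS : ∀ ω, c ω ∈ S) (G : ι → E) :
    (fun ω => G (c ω)) = fun ω => ∑ i ∈ S, (c ⁻¹' {i}).indicator (fun _ => G i) ω := by
  funext ω
  rw [Finset.sum_eq_single (c ω)]
  · simp
  · intro b _ hb
    rw [indicator_of_notMem]
    intro h
    exact hb h.symm
  · intro h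
    exact absurd (hS ω) h

theorem integrable_comp {ι : Type*} [DecidableEq ι] {E : Type*} [NormedAddCommGroup E]
    (c : Ω → ι) (S : Finset ι) (hS : ∀ ω, c ω ∈ S) (hc : ∀ i, MeasurableSet (c ⁻¹' {i}))
    (G : ι → E) : Integrable (fun ω => G (c ω)) ρ := by
  rw [comp_eq c S hS G]
  apply integrable_finsetSum
  intro i _
  exact (integrable_const _).indicator (hc i)

theorem integral_comp {ι : Type*} [DecidableEq ι] {E : Type*} [NormedAddCommGroup E]
    [NormedSpace ℝ E] [CompleteSpace E] (c : Ω → ι) (S : Finset ι) (hS : ∀ ω, c ω ∈ S)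
    (hc : ∀ i, MeasurableSet (c ⁻¹' {i})) (G : ι → E) :
    ∫ ω, G (c ω) ∂ρ = ∑ i ∈ S, ρ.real (c ⁻¹' {i}) • G i := by
  rw [comp_eq c S hS G, integral_finsetSum]
  · apply Finset.sum_congr rfl
    intro i _
    rw [integral_indicator_const _ (hc i)]
  · intro i _
    exact (integrable_const _).indicator (hc i)

end

section main

variable {Ω : Type u} [MeasurableSpace Ω] {Y : Type*} [NormedAddCommGroup Y] [NormedSpace ℝ Y]

/-- finite sets of measurable sets -/
abbrev FS (Ω : Type u) [MeasurableSpace Ω] := Finset {E : Set Ω // MeasurableSet E}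

open Classical in
/-- the code of a point -/
noncomputable def code (F : FS Ω) (ω : Ω) : FS Ω := F.filter fun E => ω ∈ E.1

theorem mem_code {F : FS Ω} {ω : Ω} {E : {E : Set Ω // MeasurableSet E}} :
    E ∈ code F ω ↔ E ∈ F ∧ ω ∈ E.1 := by
  classical
  exact Finset.mem_filter

theorem code_meas (F : FS Ω) (t : FS Ω) : MeasurableSet (code F ⁻¹' {t}) := by
  classical
  by_cases ht : t ⊆ F
  · have : code F ⁻¹' {t} = ⋂ E ∈ F, {ω | ω ∈ E.1 ↔ E ∈ t} := by
      ext ω
      simp only [mem_preimage, mem_singleton_iff, mem_iInter, mem_ofPred_eq]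
      constructor
      · rintro rfl E hE
        rw [mem_code]
        simp [hE]
      · intro h
        ext E
        rw [mem_code]
        constructor
        · rintro ⟨h1, h2⟩
          exact (h E h1).1 h2
        · intro h1
          exact ⟨ht h1, (h E (ht h1)).2 h1⟩
    rw [this]
    apply Finset.measurableSet_biInter
    intro E _
    by_cases hE : E ∈ t
    · simp only [hE, iff_true]
      exact E.2
    · simp only [hE, iff_false]
      exact E.2.compl
  · have : code F ⁻¹' {t} = ∅ := by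
      ext ω
      simp only [mem_preimage, mem_singleton_iff, mem_empty_iff_false, iff_false]
      rintro rfl
      exact ht (Finset.filter_subset _ _)
    rw [this]
    exact MeasurableSet.empty

open Classical in
/-- the possible codes -/
noncomputable def lev (F : FS Ω) : Finset (FS Ω) :=
  F.powerset.filter fun t => (code F ⁻¹' {t}).Nonempty

theorem mem_lev {F : FS Ω} {t : FS Ω} : t ∈ lev F ↔ ∃ ω, code F ω = t := by
  classical
  unfold lev
  rw [Finset.mem_filter, Finset.mem_powerset]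
  constructor
  · rintro ⟨-, ω, hω⟩
    exact ⟨ω, hω⟩
  · rintro ⟨ω, rfl⟩
    exact ⟨Finset.filter_subset _ _, ω, rfl⟩

theorem code_mem_lev (F : FS Ω) (ω : Ω) : code F ω ∈ lev F := mem_lev.2 ⟨ω, rfl⟩

open Classical in
/-- restriction of codes -/
noncomputable def res (F : FS Ω) (t : FS Ω) : FS Ω := t.filter fun E => E ∈ F

theorem res_code {F F' : FS Ω} (h : F ⊆ F') (ω : Ω) : res F (code F' ω) = code F ω := by
  classical
  ext E
  unfold res
  rw [Finset.mem_filter, mem_code, mem_code]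
  constructor
  · rintro ⟨⟨-, h1⟩, h2⟩
    exact ⟨h2, h1⟩
  · rintro ⟨h1, h2⟩
    exact ⟨⟨h h1, h2⟩, h1⟩

open Classical in
/-- additivity over the atoms -/
theorem add_atoms {M : Type*} [AddCommMonoid M] {F F' : FS Ω} (h : F ⊆ F') {t : FS Ω}
    (m : Set Ω → M)
    (hm : ∀ (s : Finset (FS Ω)) (f : FS Ω → Set Ω), (s : Set (FS Ω)).PairwiseDisjoint f →
      (∀ i ∈ s, MeasurableSet (f i)) → m (⋃ i ∈ s, f i) = ∑ i ∈ s, m (f i)) :
    ∑ i ∈ lev F' with res F i = t, m (code F' ⁻¹' {i}) = m (code F ⁻¹' {t}) := by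
  rw [← hm]
  · congr 1
    ext ω
    simp only [mem_iUnion, mem_preimage, mem_singleton_iff, exists_prop, Finset.mem_filter]
    constructor
    · rintro ⟨i, ⟨hi, h1⟩, rfl⟩
      rw [res_code h] at h1
      exact h1
    · intro h1
      exact ⟨_, ⟨code_mem_lev F' ω, by rw [res_code h, h1]⟩, rfl⟩
  · intro i _ j _ hij
    rw [Function.onFun, Set.disjoint_left]
    rintro ω rfl h2
    exact hij h2
  · intro i _
    exact code_meas F' i

variable (m : VectorMeasure Ω Y) (ρ : Measure Ω) [IsFiniteMeasure ρ]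

/-- the averages -/
noncomputable def V (F : FS Ω) (t : FS Ω) : Y :=
  (ρ.real (code F ⁻¹' {t}))⁻¹ • m (code F ⁻¹' {t})

/-- the martingale -/
noncomputable def g (F : FS Ω) (ω : Ω) : Y := V m ρ F (code F ω)

variable {m ρ}

theorem norm_V (hm : ∀ E, MeasurableSet E → ‖m E‖ ≤ ρ.real E) (F : FS Ω) (t : FS Ω) :
    ‖V m ρ F t‖ ≤ 1 := by
  unfold V
  rw [norm_smul, norm_inv, Real.norm_eq_abs, abs_of_nonneg measureReal_nonneg]
  have h1 := hm _ (code_meas F t)
  rcases (measureReal_nonneg (μ := ρ) (s := code F ⁻¹' {t})).eq_or_lt with h | h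
  · rw [← h]; simp
  · rw [inv_mul_le_iff₀ h, mul_one]; exact h1

theorem smul_V (hm : ∀ E, MeasurableSet E → ‖m E‖ ≤ ρ.real E) (F : FS Ω) (t : FS Ω) :
    ρ.real (code F ⁻¹' {t}) • V m ρ F t = m (code F ⁻¹' {t}) := by
  unfold V
  rcases (measureReal_nonneg (μ := ρ) (s := code F ⁻¹' {t})).eq_or_lt with h | h
  · have h1 := hm _ (code_meas F t)
    rw [← h] at h1
    rw [← h, zero_smul]
    exact (norm_le_zero_iff.1 h1).symm
  · rw [smul_smul, mul_inv_cancel₀ h.ne', one_smul]

theorem integrable_g (F : FS Ω) : Integrable (g m ρ F) ρ := by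
  classical
  exact integrable_comp (code F) (lev F) (code_mem_lev F) (code_meas F) _

theorem vm_add (s : Finset (FS Ω)) (f : FS Ω → Set Ω)
    (h : (s : Set (FS Ω)).PairwiseDisjoint f) (hf : ∀ i ∈ s, MeasurableSet (f i)) :
    m (⋃ i ∈ s, f i) = ∑ i ∈ s, m (f i) :=
  VectorMeasure.of_biUnion_finset h hf

theorem setIntegral_g [CompleteSpace Y] (hm : ∀ E, MeasurableSet E → ‖m E‖ ≤ ρ.real E) (F : FS Ω)
    (E : {E : Set Ω // MeasurableSet E}) (hE : E ∈ F) :
    ∫ ω in E.1, g m ρ F ω ∂ρ = m E.1 := by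
  classical
  have h1 : (fun ω => E.1.indicator (g m ρ F) ω) =
      fun ω => (fun t => if E ∈ t then V m ρ F t else 0) (code F ω) := by
    funext ω
    simp only [mem_code, hE, true_and]
    by_cases h : ω ∈ E.1
    · rw [indicator_of_mem h, if_pos h]; rfl
    · rw [indicator_of_notMem h, if_neg h]
  rw [← integral_indicator E.2]
  rw [show (∫ ω, E.1.indicator (g m ρ F) ω ∂ρ) =
    ∫ ω, (fun t => if E ∈ t then V m ρ F t else 0) (code F ω) ∂ρ by rw [h1]]
  rw [integral_comp (code F) (lev F) (code_mem_lev F) (code_meas F)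
    (fun t => if E ∈ t then V m ρ F t else 0)]
  simp only [smul_ite, smul_zero]
  rw [← Finset.sum_filter]
  simp_rw [smul_V hm]
  rw [← vm_add]
  · congr 1
    ext ω
    simp only [mem_iUnion, mem_preimage, mem_singleton_iff, exists_prop, Finset.mem_filter]
    constructor
    · rintro ⟨i, ⟨-, h2⟩, rfl⟩
      exact (mem_code.1 h2).2
    · intro h2
      exact ⟨_, ⟨code_mem_lev F ω, mem_code.2 ⟨hE, h2⟩⟩, rfl⟩
  · intro i _ j _ hij
    rw [Function.onFun, Set.disjoint_left]
    rintro ω rfl h2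
    exact hij h2
  · intro i _
    exact code_meas F i

/-- If the martingale is Cauchy then there is a density. -/
theorem density_of_cauchy [CompleteSpace Y] (hm : ∀ E, MeasurableSet E → ‖m E‖ ≤ ρ.real E)
    (h : ∀ ε : ℝ, 0 < ε → ∃ F : FS Ω, ∀ F', F ⊆ F' → ∫ ω, ‖g m ρ F' ω - g m ρ F ω‖ ∂ρ < ε) :
    ∃ f : Ω → Y, Integrable f ρ ∧ ∀ E, MeasurableSet E → m E = ∫ x in E, f x ∂ρ := by
  classical
  choose F hF using fun n : ℕ => h (1 / ((n : ℝ) + 1)) (by positivity)
  let G : ℕ → Lp Y 1 ρ := fun n => (integrable_g (m := m) (ρ := ρ) (F n)).toL1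
  have hdist : ∀ n k, ‖G n - G k‖ ≤ 1 / ((n : ℝ) + 1) + 1 / ((k : ℝ) + 1) := by
    intro n k
    have h1 : ‖G n - G k‖ = ∫ ω, ‖g m ρ (F n) ω - g m ρ (F k) ω‖ ∂ρ := by
      simp only [G]
      rw [← Integrable.toL1_sub, L1.norm_of_fun_eq_integral_norm]
      rfl
    rw [h1]
    have h2 := hF n (F n ∪ F k) Finset.subset_union_left
    have h3 := hF k (F n ∪ F k) Finset.subset_union_right
    have i0 : ∀ F F' : FS Ω, Integrable (fun ω => ‖g m ρ F ω - g m ρ F' ω‖) ρ := fun F F' =>
      ((integrable_g F).sub (integrable_g F')).norm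
    have i1 := i0 (F n ∪ F k) (F n)
    have i2 := i0 (F n ∪ F k) (F k)
    have i3 := i0 (F n) (F k)
    have h4 : ∫ ω, ‖g m ρ (F n) ω - g m ρ (F k) ω‖ ∂ρ ≤
        ∫ ω, (‖g m ρ (F n ∪ F k) ω - g m ρ (F n) ω‖ +
          ‖g m ρ (F n ∪ F k) ω - g m ρ (F k) ω‖) ∂ρ := by
      apply integral_mono i3 (i1.add i2)
      intro ω
      have := norm_sub_le (g m ρ (F n ∪ F k) ω - g m ρ (F k) ω)
        (g m ρ (F n ∪ F k) ω - g m ρ (F n) ω)
      rw [sub_sub_sub_cancel_left] at this
      simp only [Pi.add_apply]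
      linarith
    rw [integral_add i1 i2] at h4
    linarith
  have hcs : CauchySeq G := by
    rw [Metric.cauchySeq_iff']
    intro ε hε
    obtain ⟨N, hN⟩ := exists_nat_one_div_lt (half_pos hε)
    refine ⟨N, fun n hn => ?_⟩
    rw [dist_eq_norm]
    have h1 := hdist n N
    have h2 : 1 / ((n : ℝ) + 1) ≤ 1 / ((N : ℝ) + 1) := by gcongr
    linarith
  obtain ⟨f, hf⟩ := cauchySeq_tendsto_of_complete hcs
  refine ⟨f, L1.integrable_coeFn f, fun E hE => ?_⟩
  have hlim : Tendsto (fun n => ∫ ω in E, G n ω ∂ρ) atTop (𝓝 (∫ ω in E, f ω ∂ρ)) :=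
    ((continuous_setIntegral E).tendsto f).comp hf
  refine tendsto_nhds_unique ?_ hlim
  rw [tendsto_iff_norm_sub_tendsto_zero]
  refine squeeze_zero (fun _ => norm_nonneg _) (fun n => ?_)
    (tendsto_one_div_add_atTop_nhds_zero_nat (𝕜 := ℝ))
  have h1 := hF n (F n ∪ {⟨E, hE⟩}) Finset.subset_union_left
  have h2 := setIntegral_g hm (F n ∪ {⟨E, hE⟩}) ⟨E, hE⟩
    (Finset.mem_union_right _ (Finset.mem_singleton_self _))
  have h3 : ∫ ω in E, G n ω ∂ρ = ∫ ω in E, g m ρ (F n) ω ∂ρ := by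
    apply integral_congr_ae
    exact ae_restrict_of_ae (Integrable.coeFn_toL1 _)
  simp only at h2
  rw [h3, ← h2, ← integral_sub (integrable_g _).integrableOn (integrable_g _).integrableOn]
  refine (norm_integral_le_integral_norm _).trans ?_
  have h4 : ∫ ω in E, ‖g m ρ (F n) ω - g m ρ (F n ∪ {⟨E, hE⟩}) ω‖ ∂ρ ≤
      ∫ ω, ‖g m ρ (F n) ω - g m ρ (F n ∪ {⟨E, hE⟩}) ω‖ ∂ρ := by
    apply setIntegral_le_integral
    · exact ((integrable_g _).sub (integrable_g _)).norm
    · exact Eventually.of_forall fun ω => norm_nonneg _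
  simp_rw [norm_sub_rev (g m ρ (F n) _)] at h4 ⊢
  exact h4.trans h1.le

/-- If the martingale is not Cauchy then there is a bush. -/
theorem bush_of_not_cauchy (hm : ∀ E, MeasurableSet E → ‖m E‖ ≤ ρ.real E)
    {ε : ℝ} (hε : 0 < ε)
    (h : ∀ F : FS Ω, ∃ F', F ⊆ F' ∧ ε ≤ ∫ ω, ‖g m ρ F' ω - g m ρ F ω‖ ∂ρ) :
    Nonempty (Bush.{u} Y) := by
  classical
  choose N hN1 hN2 using h
  let F : ℕ → FS Ω := fun k => N^[k] ∅
  have hF : ∀ k, F (k + 1) = N (F k) := fun k => Function.iterate_succ_apply' _ _ _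
  have hF1 : ∀ k, F k ⊆ F (k + 1) := fun k => by rw [hF]; exact hN1 _
  have hF2 : ∀ k, ε ≤ ∫ ω, ‖g m ρ (F (k + 1)) ω - g m ρ (F k) ω‖ ∂ρ := fun k => by
    rw [hF]; exact hN2 _
  have hR : 0 < ρ.real univ := by
    by_contra hcon
    have h0 : ρ.real univ = 0 := le_antisymm (not_lt.1 hcon) measureReal_nonneg
    have h1 : ρ = 0 := by
      rw [← Measure.measure_univ_eq_zero]
      exact (measureReal_eq_zero_iff (measure_ne_top _ _)).1 h0
    have h2 := hF2 0
    rw [show (∫ ω, ‖g m ρ (F (0 + 1)) ω - g m ρ (F 0) ω‖ ∂ρ) = 0 by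
      conv_lhs => rw [h1]
      exact integral_zero_measure _] at h2
    linarith
  set R := ρ.real univ with hRdef
  have hreal_add : ∀ (s : Finset (FS Ω)) (f : FS Ω → Set Ω), (s : Set (FS Ω)).PairwiseDisjoint f →
      (∀ i ∈ s, MeasurableSet (f i)) → ρ.real (⋃ i ∈ s, f i) = ∑ i ∈ s, ρ.real (f i) :=
    fun s f h1 h2 => measureReal_biUnion_finset h1 h2
  have hne : Nonempty Ω := by
    by_contra hcon
    rw [not_nonempty_iff] at hcon
    rw [hRdef, univ_eq_empty_iff.2 hcon, measureReal_empty] at hR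
    exact lt_irrefl _ hR
  let T : WTree (FS Ω) :=
    { S := fun k => lev (F k)
      r := fun k => res (F k)
      p := fun k t => ρ.real (code (F k) ⁻¹' {t}) / R
      nonneg := fun k i _ => by positivity
      maps := fun k i hi => by
        obtain ⟨ω, rfl⟩ := mem_lev.1 hi
        rw [res_code (hF1 k)]
        exact code_mem_lev _ _
      surj := fun k t ht => by
        obtain ⟨ω, rfl⟩ := mem_lev.1 ht
        exact ⟨_, code_mem_lev _ ω, res_code (hF1 k) ω⟩
      sum_eq := fun k t _ => by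
        rw [← Finset.sum_div, add_atoms (hF1 k) (fun A => ρ.real A) hreal_add]
      nonempty := by
        obtain ⟨ω⟩ := hne
        exact ⟨_, code_mem_lev _ ω⟩
      total := by
        rw [← Finset.sum_div, ← hreal_add]
        · rw [div_eq_one_iff_eq hR.ne']
          congr 1
          ext ω
          simp only [mem_iUnion, mem_preimage, mem_singleton_iff, exists_prop, mem_univ, iff_true]
          exact ⟨_, code_mem_lev _ ω, rfl⟩
        · intro i _ j _ hij
          rw [Function.onFun, Set.disjoint_left]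
          rintro ω rfl h2
          exact hij h2
        · intro i _
          exact code_meas _ i }
  refine ⟨{ ι := FS Ω
            T := T
            v := fun k => V m ρ (F k)
            norm_le := fun k t => norm_V hm _ _
            mart := ?_
            ε := ε / R
            pos := by positivity
            big := ?_ }⟩
  · intro k t _
    simp only [T]
    simp_rw [div_eq_inv_mul, mul_smul, smul_V hm]
    rw [← Finset.smul_sum, add_atoms (hF1 k) (fun A => m A) vm_add]
  · intro k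
    have h1 := hF2 k
    have h2 : (fun ω => ‖g m ρ (F (k + 1)) ω - g m ρ (F k) ω‖) = fun ω =>
        (fun t => ‖V m ρ (F (k + 1)) t - V m ρ (F k) (res (F k) t)‖) (code (F (k + 1)) ω) := by
      funext ω
      simp only [g]
      rw [res_code (hF1 k)]
    rw [h2, integral_comp (code (F (k + 1))) (lev (F (k + 1))) (code_mem_lev _) (code_meas _)
      (fun t => ‖V m ρ (F (k + 1)) t - V m ρ (F k) (res (F k) t)‖)] at h1
    simp only [smul_eq_mul] at h1
    simp only [T]
    simp_rw [div_mul_eq_mul_div]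
    rw [← Finset.sum_div]
    gcongr

/-- A Banach space without the Radon-Nikodym property contains a bush. -/
theorem exists_bush [CompleteSpace Y] (hY : ¬ RNP.{u} Y) : Nonempty (Bush.{u} Y) := by
  classical
  unfold RNP at hY
  push Not at hY
  obtain ⟨Ω, i1, ν, i2, m, hν, hvar, hno⟩ := hY
  have hfin : IsFiniteMeasure m.variation := ⟨lt_top_iff_ne_top.2 hvar⟩
  have hm : ∀ E, MeasurableSet E → ‖m E‖ ≤ m.variation.real E := fun E _ =>
    VectorMeasure.norm_measure_le_variation
  by_cases h : ∀ ε : ℝ, 0 < ε → ∃ F : FS Ω, ∀ F', F ⊆ F' →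
      ∫ ω, ‖g m m.variation F' ω - g m m.variation F ω‖ ∂m.variation < ε
  · exfalso
    obtain ⟨f, hf1, hf2⟩ := density_of_cauchy hm h
    have hac : m.variation ≪ ν := by
      refine Measure.AbsolutelyContinuous.mk fun s hs hs0 => ?_
      rw [VectorMeasure.variation_apply_eq_zero hs]
      intro t hts ht
      exact hν t ht (measure_mono_null hts hs0)
    obtain ⟨E, hE, hne⟩ := hno (fun x => (m.variation.rnDeriv ν x).toReal • f x)
      ((integrable_rnDeriv_smul_iff hac).2 hf1)
    apply hne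
    rw [hf2 E hE]
    exact (setIntegral_rnDeriv_smul hac hE).symm
  · push Not at h
    obtain ⟨ε, hε, h⟩ := h
    exact bush_of_not_cauchy hm hε h

end main

end Pool.Agent.X203.RNPTree
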