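import Mathlib

/-! Ribe type quasi-linear functions and a Borel map linear modulo a Banach subspace. -/

namespace Pool.Agent.X203.Ribe

open Filter Topology MeasureTheory TopologicalSpace

noncomputable def om (t : ℝ) : ℝ := t * Real.log t

theorem om_zero : om 0 = 0 := by simp [om]

theorem om_one : om 1 = 0 := by simp [om]

theorem om_neg (t : ℝ) : om (-t) = -om t := by simp [om]

theorem om_mul (a t : ℝ) : om (a * t) = a * om t + t * om a := by
  rcases eq_or_ne a 0 with rfl | ha
  · simp [om]
  rcases eq_or_ne t 0 with rfl | ht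
  · simp [om]
  unfold om
  rw [Real.log_mul ha ht]
  ring

theorem om_continuous : Continuous om := Real.continuous_mul_log

theorem om_pos {a b : ℝ} (ha : 0 ≤ a) (hb : 0 ≤ b) :
    0 ≤ om (a + b) - om a - om b ∧ om (a + b) - om a - om b ≤ a + b := by
  rcases ha.eq_or_lt with rfl | ha
  · simp [om_zero, hb]
  rcases hb.eq_or_lt with rfl | hb
  · simp [om_zero, ha.le]
  have key : ∀ a b : ℝ, 0 < a → 0 < b →
      0 ≤ a * (Real.log (a + b) - Real.log a) ∧ a * (Real.log (a + b) - Real.log a) ≤ b := by
    intro a b ha hb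
    have h1 : Real.log (a + b) - Real.log a = Real.log (1 + b / a) := by
      rw [← Real.log_div (by positivity) (by positivity)]
      congr 1
      field_simp
    rw [h1]
    refine ⟨mul_nonneg ha.le (Real.log_nonneg ?_), ?_⟩
    · have : 0 ≤ b / a := by positivity
      linarith
    · have h2 : Real.log (1 + b / a) ≤ b / a := by
        have := Real.log_le_sub_one_of_pos (show 0 < 1 + b / a by positivity)
        linarith
      calc a * Real.log (1 + b / a) ≤ a * (b / a) := by gcongr
        _ = b := by field_simp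
  have h1 := key a b ha hb
  have h2 := key b a hb ha
  rw [add_comm b a] at h2
  have h3 : om (a + b) - om a - om b = a * (Real.log (a + b) - Real.log a) +
      b * (Real.log (a + b) - Real.log b) := by
    unfold om; ring
  rw [h3]
  exact ⟨add_nonneg h1.1 h2.1, by linarith [h1.2, h2.2]⟩

theorem om_quasi (a b : ℝ) : |om (a + b) - om a - om b| ≤ |a| + |b| := by
  have mixed : ∀ a b : ℝ, 0 ≤ a → b ≤ 0 → |om (a + b) - om a - om b| ≤ |a| + |b| := by
    intro a b ha hb
    rw [abs_of_nonneg ha, abs_of_nonpos hb]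
    rcases le_total 0 (a + b) with h | h
    · have h1 := om_pos h (show 0 ≤ -b by linarith)
      rw [show a + b + -b = a by ring, om_neg] at h1
      rw [abs_le]
      constructor <;> linarith [h1.1, h1.2]
    · have h1 := om_pos (show 0 ≤ -(a + b) by linarith) ha
      rw [show -(a + b) + a = -b by ring, om_neg, om_neg] at h1
      rw [abs_le]
      constructor <;> linarith [h1.1, h1.2]
  rcases le_total 0 a with ha | ha <;> rcases le_total 0 b with hb | hb
  · rw [abs_of_nonneg ha, abs_of_nonneg hb, abs_of_nonneg (om_pos ha hb).1]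
    exact (om_pos ha hb).2
  · exact mixed a b ha hb
  · have := mixed b a hb ha
    rw [add_comm b a] at this
    rw [show om (a + b) - om a - om b = om (a + b) - om b - om a by ring]
    linarith
  · have h1 := om_pos (show 0 ≤ -a by linarith) (show 0 ≤ -b by linarith)
    rw [show -a + -b = -(a + b) by ring, om_neg, om_neg, om_neg] at h1
    rw [abs_of_nonpos ha, abs_of_nonpos hb, abs_le]
    constructor <;> linarith [h1.1, h1.2]

/-- the finite dimensional Ribe function -/
noncomputable def R {ι : Type*} (s : Finset ι) (x : ι → ℝ) : ℝ :=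
  ∑ i ∈ s, om (x i) - om (∑ i ∈ s, x i)

theorem R_smul {ι : Type*} (s : Finset ι) (c : ℝ) (x : ι → ℝ) :
    R s (fun i => c * x i) = c * R s x := by
  unfold R
  rw [← Finset.mul_sum, om_mul]
  simp_rw [om_mul]
  rw [Finset.sum_add_distrib, ← Finset.mul_sum, ← Finset.sum_mul]
  ring

theorem R_quasi {ι : Type*} (s : Finset ι) (x y : ι → ℝ) :
    |R s (fun i => x i + y i) - R s x - R s y| ≤ 2 * (∑ i ∈ s, |x i| + ∑ i ∈ s, |y i|) := by
  have h1 : R s (fun i => x i + y i) - R s x - R s y =
      ∑ i ∈ s, (om (x i + y i) - om (x i) - om (y i)) -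
      (om (∑ i ∈ s, x i + ∑ i ∈ s, y i) - om (∑ i ∈ s, x i) - om (∑ i ∈ s, y i)) := by
    unfold R
    rw [Finset.sum_add_distrib, Finset.sum_sub_distrib, Finset.sum_sub_distrib]
    ring
  rw [h1]
  have h2 : |∑ i ∈ s, (om (x i + y i) - om (x i) - om (y i))| ≤ ∑ i ∈ s, |x i| + ∑ i ∈ s, |y i| := by
    rw [← Finset.sum_add_distrib]
    refine (Finset.abs_sum_le_sum_abs _ _).trans (Finset.sum_le_sum fun i _ => om_quasi _ _)
  have h3 := om_quasi (∑ i ∈ s, x i) (∑ i ∈ s, y i)
  have h4 := Finset.abs_sum_le_sum_abs x s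
  have h5 := Finset.abs_sum_le_sum_abs y s
  have h6 := abs_sub (∑ i ∈ s, (om (x i + y i) - om (x i) - om (y i)))
    (om (∑ i ∈ s, x i + ∑ i ∈ s, y i) - om (∑ i ∈ s, x i) - om (∑ i ∈ s, y i))
  linarith

theorem R_bound {ι : Type*} (s : Finset ι) (x : ι → ℝ) :
    |R s x| ≤ s.card * ∑ i ∈ s, |x i| := by
  classical
  induction s using Finset.induction_on with
  | empty => simp [R, om_zero]
  | insert a s ha ih =>
    have h1 : R (insert a s) x = R s x - (om (x a + ∑ i ∈ s, x i) - om (x a) -
        om (∑ i ∈ s, x i)) := by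
      unfold R
      rw [Finset.sum_insert ha, Finset.sum_insert ha]
      ring
    rw [h1, Finset.card_insert_of_notMem ha, Finset.sum_insert ha]
    have h3 := om_quasi (x a) (∑ i ∈ s, x i)
    have h4 := Finset.abs_sum_le_sum_abs x s
    have h6 := abs_sub (R s x) (om (x a + ∑ i ∈ s, x i) - om (x a) - om (∑ i ∈ s, x i))
    have h7 : 0 ≤ |x a| := abs_nonneg _
    have h8 : (0 : ℝ) ≤ s.card := Nat.cast_nonneg _
    push_cast
    nlinarith [mul_nonneg h8 h7]

/-! ### The infinite direct sum -/

/-- the dimensions -/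
def N (k : ℕ) : ℕ := 2 ^ 2 ^ k

/-- the index set -/
abbrev I := Σ k : ℕ, Fin (N k)

/-- `ℓ₁(I)` -/
abbrev X := lp (fun _ : I => ℝ) 1

/-- `ℓ₁` -/
abbrev L := lp (fun _ : ℕ => ℝ) 1

noncomputable def F (k : ℕ) (x : X) : ℝ := R Finset.univ (fun i : Fin (N k) => x ⟨k, i⟩)

noncomputable def nn (k : ℕ) (x : X) : ℝ := ∑ i : Fin (N k), |x ⟨k, i⟩|

theorem summable_abs {J : Type*} (x : lp (fun _ : J => ℝ) 1) : Summable (fun i => |x i|) := by
  have := (lp.memℓp x).summable (by norm_num)
  simpa using this

theorem summable_nn (x : X) : Summable (fun k => nn k x) := by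
  have h1 := (summable_abs x).sigma
  simp only [tsum_fintype] at h1
  exact h1

theorem nn_nonneg (k : ℕ) (x : X) : 0 ≤ nn k x := Finset.sum_nonneg fun _ _ => abs_nonneg _

theorem N_pos (k : ℕ) : 0 < N k := by unfold N; positivity

theorem F_smul (k : ℕ) (c : ℝ) (x : X) : F k (c • x) = c * F k x := R_smul _ _ _

theorem F_quasi (k : ℕ) (x y : X) : |F k (x + y) - F k x - F k y| ≤ 2 * (nn k x + nn k y) :=
  R_quasi _ _ _

theorem F_bound (k : ℕ) (x : X) : |F k x| ≤ N k * nn k x := by
  have := R_bound (Finset.univ) (fun i : Fin (N k) => x ⟨k, i⟩)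
  rw [Finset.card_univ, Fintype.card_fin] at this
  exact this

theorem F_bound' (k : ℕ) (x : X) : |F k x / N k| ≤ nn k x := by
  have h : (0 : ℝ) < N k := by exact_mod_cast N_pos k
  rw [abs_div, abs_of_pos h, div_le_iff₀ h, mul_comm]
  exact F_bound k x

/-- membership in `ℓ₁` -/
theorem mem_l1 {f : ℕ → ℝ} (h : Summable (fun k => |f k|)) : Memℓp f 1 := by
  apply memℓp_gen
  simpa using h

theorem continuous_coord {J : Type*} (i : J) : Continuous (fun x : lp (fun _ : J => ℝ) 1 => x i) := by
  apply LipschitzWith.continuous (K := 1)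
  apply LipschitzWith.of_dist_le_mul
  intro x y
  rw [dist_eq_norm, dist_eq_norm, NNReal.coe_one, one_mul]
  exact lp.norm_apply_le_norm (by norm_num) (x - y) i

theorem F_continuous (k : ℕ) : Continuous (F k) := by
  unfold F R
  apply Continuous.sub
  · exact continuous_finsetSum _ fun i _ => om_continuous.comp (continuous_coord _)
  · exact om_continuous.comp (continuous_finsetSum _ fun i _ => continuous_coord _)

/-- the Borel map -/
noncomputable def G (x : X) : L :=
  ⟨fun k => F k x / N k, mem_l1 ((summable_nn x).of_nonneg_of_le (fun _ => abs_nonneg _)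
    (fun k => F_bound' k x))⟩

theorem G_apply (x : X) (k : ℕ) : G x k = F k x / N k := rfl

theorem G_measurable [MeasurableSpace X] [BorelSpace X] [MeasurableSpace L] [BorelSpace L] :
    Measurable G := by
  have h1 : ∀ n : ℕ, Measurable (fun x : X => ∑ k ∈ Finset.range n,
      lp.single (E := fun _ : ℕ => ℝ) 1 k (G x k)) := by
    intro n
    apply Continuous.measurable
    apply continuous_finsetSum
    intro k _
    have h2 : Continuous (fun t : ℝ => lp.single (E := fun _ : ℕ => ℝ) 1 k t) :=
      (lp.singleContinuousLinearMap ℝ (fun _ : ℕ => ℝ) 1 k).continuous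
    exact h2.comp ((F_continuous k).div_const _)
  refine measurable_of_tendsto_metrizable h1 ?_
  rw [tendsto_pi_nhds]
  intro x
  exact (lp.hasSum_single (by norm_num) (G x)).tendsto_sum_nat


theorem norm_eq {J : Type*} (x : lp (fun _ : J => ℝ) 1) : ‖x‖ = ∑' i, |x i| := by
  rw [lp.norm_eq_tsum_rpow (by norm_num)]
  simp

/-- the inclusion of the small Banach space -/
noncomputable def iota : L →L[ℝ] L :=
  LinearMap.mkContinuous
    { toFun := fun m => ⟨fun k => m k / N k, mem_l1 ((summable_abs m).of_nonneg_of_le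
        (fun _ => abs_nonneg _) (fun k => by
          have h : (1 : ℝ) ≤ N k := by exact_mod_cast N_pos k
          rw [abs_div, abs_of_pos (by linarith : (0 : ℝ) < N k)]
          exact div_le_self (abs_nonneg _) h))⟩
      map_add' := fun x y => by
        ext k
        simp [add_div]
      map_smul' := fun c x => by
        ext k
        simp [mul_div_assoc] } 1 (fun m => by
    rw [one_mul, norm_eq, norm_eq]
    refine Summable.tsum_le_tsum (fun k => ?_) (summable_abs _) (summable_abs _)
    have h : (1 : ℝ) ≤ N k := by exact_mod_cast N_pos k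
    show |m k / N k| ≤ |m k|
    rw [abs_div, abs_of_pos (by linarith : (0 : ℝ) < N k)]
    exact div_le_self (abs_nonneg _) h)

theorem iota_apply (m : L) (k : ℕ) : iota m k = m k / N k := rfl

theorem iota_injective : Function.Injective iota := by
  intro a b h
  ext k
  have h1 : iota a k = iota b k := by rw [h]
  rw [iota_apply, iota_apply] at h1
  have h2 : (N k : ℝ) ≠ 0 := by exact_mod_cast (N_pos k).ne'
  exact (div_left_inj' h2).1 h1

theorem iota_norm (m : L) : ‖iota m‖ ≤ ‖m‖ := by
  have h1 : ‖iota‖ ≤ 1 := LinearMap.mkContinuous_norm_le _ zero_le_one _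
  have := iota.le_of_opNorm_le h1 m
  simpa using this

theorem mem_range_iota {y : L} (h : Summable (fun k => |y k * N k|)) : ∃ m, iota m = y := by
  refine ⟨⟨fun k => y k * N k, mem_l1 h⟩, ?_⟩
  ext k
  rw [iota_apply]
  have h2 : (N k : ℝ) ≠ 0 := by exact_mod_cast (N_pos k).ne'
  exact mul_div_cancel_right₀ _ h2

theorem mem_range_iota_iff (x : X) : (∃ m, iota m = G x) ↔ Summable (fun k => |F k x|) := by
  have h2 : ∀ k, (N k : ℝ) ≠ 0 := fun k => by exact_mod_cast (N_pos k).ne'
  constructor
  · rintro ⟨m, hm⟩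
    have h1 : ∀ k, F k x = m k := by
      intro k
      have h3 : iota m k = G x k := by rw [hm]
      rw [iota_apply, G_apply] at h3
      exact ((div_left_inj' (h2 k)).1 h3).symm
    simp_rw [h1]
    exact summable_abs m
  · intro h
    apply mem_range_iota
    simp_rw [G_apply, div_mul_cancel₀ _ (h2 _)]
    exact h

theorem G_smul (c : ℝ) (x : X) : G (c • x) = c • G x := by
  ext k
  rw [G_apply, F_smul, lp.coeFn_smul, Pi.smul_apply, G_apply, smul_eq_mul]
  ring

theorem G_quasi (x y : X) : ∃ m, iota m = G (x + y) - (G x + G y) := by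
  apply mem_range_iota
  have h2 : ∀ k, (N k : ℝ) ≠ 0 := fun k => by exact_mod_cast (N_pos k).ne'
  have h1 : ∀ k, (G (x + y) - (G x + G y)) k * N k = F k (x + y) - F k x - F k y := by
    intro k
    rw [lp.coeFn_sub, Pi.sub_apply, lp.coeFn_add, Pi.add_apply, G_apply, G_apply, G_apply]
    field_simp [h2 k]
    ring
  simp_rw [h1]
  apply Summable.of_nonneg_of_le (fun _ => abs_nonneg _) (fun k => F_quasi k x y)
  exact ((summable_nn x).add (summable_nn y)).mul_left 2

theorem G_linear_mod (a b : ℝ) (x y : X) : ∃ m, iota m = G (a • x + b • y) - (a • G x + b • G y) := by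
  rw [← G_smul, ← G_smul]
  exact G_quasi _ _

/-! ### The key lemma -/

theorem R_single {ι : Type*} [Fintype ι] [DecidableEq ι] (j : ι) (c : ℝ) :
    R Finset.univ (fun i => if i = j then c else 0) = 0 := by
  unfold R
  have h1 : ∀ i, om (if i = j then c else 0) = if i = j then om c else 0 := by
    intro i
    split_ifs
    · rfl
    · exact om_zero
  simp_rw [h1]
  rw [Finset.sum_ite_eq' Finset.univ j, Finset.sum_ite_eq' Finset.univ j]
  simp

theorem R_const {ι : Type*} [Fintype ι] [Nonempty ι] (c : ℝ) :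
    R Finset.univ (fun _ : ι => c * (1 / (Fintype.card ι : ℝ))) =
      -(c * Real.log (Fintype.card ι)) := by
  have h0 : (Fintype.card ι : ℝ) ≠ 0 := by exact_mod_cast Fintype.card_ne_zero
  rw [R_smul]
  unfold R
  rw [Finset.sum_const, Finset.sum_const, Finset.card_univ, nsmul_eq_mul, nsmul_eq_mul,
    mul_one_div_cancel h0, om_one]
  unfold om
  rw [one_div, Real.log_inv]
  field_simp
  ring

/-- the unit vectors -/
noncomputable def e (k : ℕ) (i : Fin (N k)) : X := lp.single 1 (⟨k, i⟩ : I) (1 : ℝ)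

theorem e_apply (k : ℕ) (i : Fin (N k)) (j : I) : e k i j = if j = ⟨k, i⟩ then 1 else 0 := by
  unfold e
  rw [lp.single_apply]
  rw [Pi.single_apply]

theorem F_e (k : ℕ) (i : Fin (N k)) (k' : ℕ) : F k' (e k i) = 0 := by
  unfold F
  simp_rw [e_apply]
  by_cases h : k' = k
  · subst h
    have h1 : ∀ j : Fin (N k'), ((⟨k', j⟩ : I) = ⟨k', i⟩) ↔ j = i := by
      intro j
      simp
    simp_rw [h1]
    exact R_single i 1
  · have h1 : ∀ j : Fin (N k'), ¬ ((⟨k', j⟩ : I) = ⟨k, i⟩) := by
      intro j hj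
      exact h (congrArg Sigma.fst hj)
    simp_rw [if_neg (h1 _)]
    unfold R
    simp [om_zero]

/-- the sum of the selected unit vectors -/
noncomputable def T (i : ∀ k, Fin (N k)) (c : L) : X :=
  ⟨fun j => if j.2 = i j.1 then c j.1 else 0, by
    apply memℓp_gen
    have h1 : Summable (fun j : I => |if j.2 = i j.1 then c j.1 else 0|) := by
      rw [summable_sigma_of_nonneg (fun _ => abs_nonneg _)]
      refine ⟨fun k => Summable.of_finite, ?_⟩
      have h2 : ∀ k, ∑' j : Fin (N k), |if j = i k then c k else 0| = |c k| := by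
        intro k
        rw [tsum_fintype, Finset.sum_eq_single (i k)]
        · simp
        · intro b _ hb
          simp [hb]
        · simp
      simp only [h2]
      exact summable_abs c
    simpa using h1⟩

theorem T_apply (i : ∀ k, Fin (N k)) (c : L) (k : ℕ) (j : Fin (N k)) :
    T i c ⟨k, j⟩ = if j = i k then c k else 0 := rfl

theorem F_T (i : ∀ k, Fin (N k)) (c : L) (k : ℕ) : F k (T i c) = 0 := by
  unfold F
  simp_rw [T_apply]
  exact R_single _ _

theorem T_single (i : ∀ k, Fin (N k)) (k : ℕ) :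
    T i (lp.single 1 k (1 : ℝ)) = e k (i k) := by
  ext ⟨k', j⟩
  rw [T_apply, e_apply, lp.single_apply, Pi.single_apply]
  by_cases h : k' = k
  · subst h
    simp
  · have h1 : ¬ ((⟨k', j⟩ : I) = ⟨k, i k⟩) := fun hj => h (congrArg Sigma.fst hj)
    rw [if_neg h1, if_neg h]
    simp

theorem no_banach {V : Type*} [NormedAddCommGroup V] [NormedSpace ℝ V] [CompleteSpace V]
    (κ : V →L[ℝ] X) (hκ : Function.Injective κ)
    (h1 : ∀ x, Summable (fun k => |F k x|) → ∃ v, κ v = x)
    (h2 : ∀ v, Summable (fun k => |F k (κ v)|)) : False := by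
  have hz : Summable (fun _ : ℕ => |(0 : ℝ)|) := by simp [summable_zero]
  have hu : ∀ k, ∀ i : Fin (N k), ∃ v, κ v = e k i := by
    intro k i
    apply h1
    simp_rw [F_e]
    exact hz
  choose u hu using hu
  have hmax : ∀ k, ∃ i : Fin (N k), ∀ j, ‖u k j‖ ≤ ‖u k i‖ := by
    intro k
    have : Nonempty (Fin (N k)) := ⟨⟨0, N_pos k⟩⟩
    exact Finite.exists_max (fun i => ‖u k i‖)
  choose i hi using hmax
  have hh : ∀ c, ∃ v, κ v = T i c := by
    intro c
    apply h1
    simp_rw [F_T]
    exact hz
  choose h hh using hh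
  let H : L →ₗ[ℝ] V :=
    { toFun := h
      map_add' := fun a b => by
        apply hκ
        rw [map_add, hh, hh, hh]
        ext ⟨k, j⟩
        rw [lp.coeFn_add, Pi.add_apply, T_apply, T_apply, T_apply, lp.coeFn_add, Pi.add_apply]
        split_ifs <;> simp
      map_smul' := fun r a => by
        apply hκ
        rw [map_smul, hh, hh]
        ext ⟨k, j⟩
        simp only [RingHom.id_apply]
        rw [lp.coeFn_smul, Pi.smul_apply, T_apply, T_apply, lp.coeFn_smul, Pi.smul_apply]
        split_ifs <;> simp }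
  have hH : Continuous H := by
    apply LinearMap.continuous_of_seq_closed_graph
    intro w x y hw hy
    apply hκ
    have h3 : Tendsto (fun n => κ (H (w n))) atTop (𝓝 (κ y)) := (κ.continuous.tendsto y).comp hy
    show κ y = κ (h x)
    rw [hh]
    ext ⟨k, j⟩
    rw [T_apply]
    have h4 : Tendsto (fun n => κ (H (w n)) ⟨k, j⟩) atTop (𝓝 (κ y ⟨k, j⟩)) :=
      ((continuous_coord (⟨k, j⟩ : I)).tendsto _).comp h3
    have h5 : ∀ n, κ (H (w n)) ⟨k, j⟩ = if j = i k then w n k else 0 := by
      intro n
      show κ (h (w n)) ⟨k, j⟩ = _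
      rw [hh, T_apply]
    simp_rw [h5] at h4
    refine tendsto_nhds_unique h4 ?_
    split_ifs
    · exact ((continuous_coord k).tendsto _).comp hw
    · exact tendsto_const_nhds
  let H' : L →L[ℝ] V := ⟨H, hH⟩
  have hC : ∀ k j, ‖u k j‖ ≤ ‖H'‖ := by
    intro k j
    refine (hi k j).trans ?_
    have h3 : u k (i k) = H' (lp.single 1 k (1 : ℝ)) := by
      apply hκ
      rw [hu]
      show _ = κ (h _)
      rw [hh, T_single]
    rw [h3]
    refine (H'.le_opNorm _).trans ?_
    rw [lp.norm_single (by norm_num)]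
    simp
  let v : ℕ → V := fun k => (1 / 2 : ℝ) ^ k • ((1 / (N k : ℝ)) • ∑ j, u k j)
  have hN : ∀ k, (0 : ℝ) < N k := fun k => by exact_mod_cast N_pos k
  have hvs : Summable v := by
    apply Summable.of_norm_bounded (g := fun k => (1 / 2 : ℝ) ^ k * ‖H'‖)
    · exact (summable_geometric_two).mul_right _
    · intro k
      simp only [v]
      rw [norm_smul, norm_smul, Real.norm_eq_abs, abs_of_nonneg (by positivity),
        Real.norm_eq_abs, abs_of_nonneg (by positivity)]
      have h3 : ‖∑ j, u k j‖ ≤ N k * ‖H'‖ := by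
        refine (norm_sum_le _ _).trans ?_
        refine (Finset.sum_le_sum fun j _ => hC k j).trans ?_
        simp
      have h4 : 1 / (N k : ℝ) * ‖∑ j, u k j‖ ≤ ‖H'‖ := by
        rw [one_div, inv_mul_le_iff₀ (hN k)]
        exact h3
      gcongr
  have hcoord : ∀ k (j : Fin (N k)), κ (∑' k, v k) ⟨k, j⟩ = (1 / 2 : ℝ) ^ k * (1 / (N k : ℝ)) := by
    intro k j
    have h3 : HasSum (fun k => κ (v k)) (κ (∑' k, v k)) := κ.hasSum hvs.hasSum
    have h4 : Tendsto (fun n => (∑ k' ∈ Finset.range n, κ (v k')) ⟨k, j⟩) atTop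
        (𝓝 (κ (∑' k, v k) ⟨k, j⟩)) :=
      ((continuous_coord (⟨k, j⟩ : I)).tendsto _).comp h3.tendsto_sum_nat
    refine tendsto_nhds_unique h4 ?_
    apply tendsto_nhds_of_eventually_eq
    filter_upwards [eventually_gt_atTop k] with n hn
    rw [lp.coeFn_sum, Finset.sum_apply]
    have h5 : ∀ k', κ (v k') ⟨k, j⟩ = if k = k' then (1 / 2 : ℝ) ^ k * (1 / (N k : ℝ)) else 0 := by
      intro k'
      simp only [v]
      rw [map_smul, map_smul, map_sum, lp.coeFn_smul, Pi.smul_apply, lp.coeFn_smul, Pi.smul_apply,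
        lp.coeFn_sum, Finset.sum_apply]
      simp_rw [hu, e_apply]
      split_ifs with hk
      · subst hk
        simp
      · have h6 : ∀ j' : Fin (N k'), ¬ ((⟨k, j⟩ : I) = ⟨k', j'⟩) :=
          fun j' hj => hk (congrArg Sigma.fst hj)
        simp [h6]
    simp_rw [h5]
    rw [Finset.sum_ite_eq, if_pos (Finset.mem_range.2 hn)]
  have hF : ∀ k, F k (κ (∑' k, v k)) = - Real.log 2 := by
    intro k
    have : Nonempty (Fin (N k)) := ⟨⟨0, N_pos k⟩⟩
    unfold F
    simp_rw [hcoord]
    have h3 := R_const (ι := Fin (N k)) ((1 / 2 : ℝ) ^ k)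
    rw [Fintype.card_fin] at h3
    rw [h3]
    congr 1
    unfold N
    push_cast
    rw [Real.log_pow]
    push_cast
    rw [← mul_assoc, ← mul_pow]
    norm_num
  have h3 := h2 (∑' k, v k)
  simp_rw [hF] at h3
  rw [summable_const_iff] at h3
  have h4 : 0 < Real.log 2 := Real.log_pos (by norm_num)
  rw [abs_neg, abs_of_pos h4] at h3
  exact h4.ne' h3

end Pool.Agent.X203.Ribe
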