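import Mathlib

/-! Non-atomic measures: sets of prescribed measure, and realisation of trees of weights. -/

namespace Pool.Agent.X203.Sier

open MeasureTheory Set Filter Topology

/-- `μ` is non-atomic: each measurable set of positive measure has a measurable subset of strictly
smaller positive measure. -/
def IsNonatomic {Ω : Type*} [MeasurableSpace Ω] (μ : Measure Ω) : Prop :=
  ∀ A, MeasurableSet A → 0 < μ A → ∃ B ⊆ A, MeasurableSet B ∧ 0 < μ B ∧ μ B < μ A

variable {Ω : Type*} [MeasurableSpace Ω] {μ : Measure Ω} [IsFiniteMeasure μ]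

theorem real_pos_iff {A : Set Ω} : 0 < μ.real A ↔ 0 < μ A := by
  rw [Measure.real, ENNReal.toReal_pos_iff]
  exact ⟨fun h => h.1, fun h => ⟨h, measure_lt_top _ _⟩⟩

theorem IsNonatomic.real (h : IsNonatomic μ) {A : Set Ω} (hA : MeasurableSet A)
    (h0 : 0 < μ.real A) : ∃ B ⊆ A, MeasurableSet B ∧ 0 < μ.real B ∧ μ.real B < μ.real A := by
  obtain ⟨B, hBA, hB, h1, h2⟩ := h A hA (real_pos_iff.1 h0)
  exact ⟨B, hBA, hB, real_pos_iff.2 h1,
    (ENNReal.toReal_lt_toReal (measure_ne_top _ _) (measure_ne_top _ _)).2 h2⟩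

theorem IsNonatomic.half (h : IsNonatomic μ) {A : Set Ω} (hA : MeasurableSet A)
    (h0 : 0 < μ.real A) : ∃ B ⊆ A, MeasurableSet B ∧ 0 < μ.real B ∧ μ.real B ≤ μ.real A / 2 := by
  obtain ⟨B, hBA, hB, h1, h2⟩ := h.real hA h0
  have h3 : μ.real (A \ B) = μ.real A - μ.real B := measureReal_sdiff hBA hB
  rcases le_total (μ.real B) (μ.real A / 2) with h4 | h4
  · exact ⟨B, hBA, hB, h1, h4⟩
  · exact ⟨A \ B, sdiff_subset, hA.diff hB, by rw [h3]; linarith, by rw [h3]; linarith⟩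

theorem IsNonatomic.small (h : IsNonatomic μ) {A : Set Ω} (hA : MeasurableSet A)
    (h0 : 0 < μ.real A) {ε : ℝ} (hε : 0 < ε) :
    ∃ B ⊆ A, MeasurableSet B ∧ 0 < μ.real B ∧ μ.real B ≤ ε := by
  have key : ∀ n : ℕ, ∃ B ⊆ A, MeasurableSet B ∧ 0 < μ.real B ∧ μ.real B ≤ μ.real A * (1 / 2) ^ n := by
    intro n
    induction n with
    | zero => exact ⟨A, subset_rfl, hA, h0, by simp⟩
    | succ n ih =>
      obtain ⟨B, hBA, hB, h1, h2⟩ := ih
      obtain ⟨C, hCB, hC, h3, h4⟩ := h.half hB h1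
      exact ⟨C, hCB.trans hBA, hC, h3, by rw [pow_succ]; linarith⟩
  have hlim : Tendsto (fun n : ℕ => μ.real A * (1 / 2 : ℝ) ^ n) atTop (𝓝 0) := by
    have := (tendsto_pow_atTop_nhds_zero_of_lt_one (r := (1 / 2 : ℝ)) (by norm_num)
      (by norm_num)).const_mul (μ.real A)
    simpa using this
  obtain ⟨n, hn⟩ := (hlim.eventually (gt_mem_nhds hε)).exists
  obtain ⟨B, hBA, hB, h1, h2⟩ := key n
  exact ⟨B, hBA, hB, h1, h2.trans hn.le⟩

/-- Sierpinski's theorem. -/
theorem IsNonatomic.exists_eq (h : IsNonatomic μ) {A : Set Ω} (hA : MeasurableSet A) {t : ℝ}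
    (ht0 : 0 ≤ t) (ht : t ≤ μ.real A) : ∃ B ⊆ A, MeasurableSet B ∧ μ.real B = t := by
  classical
  -- admissible sets
  let Adm := {C : Set Ω // C ⊆ A ∧ MeasurableSet C ∧ μ.real C ≤ t}
  let Ext : Adm → Set ℝ := fun C => {x | ∃ D : Set Ω, D ⊆ A \ C.1 ∧ MeasurableSet D ∧
    μ.real C.1 + μ.real D ≤ t ∧ μ.real D = x}
  have hbdd : ∀ C, BddAbove (Ext C) := by
    intro C
    refine ⟨t, ?_⟩
    rintro x ⟨D, -, -, h1, rfl⟩
    have : 0 ≤ μ.real C.1 := measureReal_nonneg
    linarith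
  have hstep : ∀ C : Adm, ∃ C' : Adm, C.1 ⊆ C'.1 ∧
      μ.real C.1 + sSup (Ext C) / 2 ≤ μ.real C'.1 := by
    intro C
    have hne : (Ext C).Nonempty := ⟨_, ∅, empty_subset _, MeasurableSet.empty, by
      simpa using C.2.2.2, rfl⟩
    have hs0 : 0 ≤ sSup (Ext C) := by
      have : (0 : ℝ) ∈ Ext C := ⟨∅, empty_subset _, MeasurableSet.empty, by
        simpa using C.2.2.2, by simp⟩
      exact le_csSup (hbdd C) this
    have hex : ∃ D : Set Ω, D ⊆ A \ C.1 ∧ MeasurableSet D ∧ μ.real C.1 + μ.real D ≤ t ∧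
        sSup (Ext C) / 2 ≤ μ.real D := by
      rcases hs0.eq_or_lt with h0 | h0
      · refine ⟨∅, empty_subset _, MeasurableSet.empty, by simpa using C.2.2.2, ?_⟩
        rw [← h0]; simp
      · obtain ⟨x, ⟨D, h1, h2, h3, rfl⟩, hx⟩ := exists_lt_of_lt_csSup hne (half_lt_self h0)
        exact ⟨D, h1, h2, h3, hx.le⟩
    obtain ⟨D, h1, h2, h3, h4⟩ := hex
    have hdis : Disjoint C.1 D := by
      rw [Set.disjoint_left]
      intro x hx hxD
      exact (h1 hxD).2 hx
    have hun : μ.real (C.1 ∪ D) = μ.real C.1 + μ.real D := measureReal_union hdis h2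
    refine ⟨⟨C.1 ∪ D, union_subset C.2.1 (h1.trans sdiff_subset), C.2.2.1.union h2, by
      rw [hun]; exact h3⟩, subset_union_left, ?_⟩
    show _ ≤ μ.real (C.1 ∪ D)
    rw [hun]
    linarith
  choose F hF1 hF2 using hstep
  let s : ℕ → Adm := fun n => F^[n] ⟨∅, empty_subset _, MeasurableSet.empty, by simpa using ht0⟩
  have hs : ∀ n, s (n + 1) = F (s n) := fun n => Function.iterate_succ_apply' _ _ _
  have hmono : Monotone (fun n => (s n).1) := by
    apply monotone_nat_of_le_succ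
    intro n
    rw [hs]
    exact hF1 (s n)
  let C : Set Ω := ⋃ n, (s n).1
  have hCm : MeasurableSet C := MeasurableSet.iUnion fun n => (s n).2.2.1
  have hCA : C ⊆ A := iUnion_subset fun n => (s n).2.1
  have hlim : Tendsto (fun n => μ.real (s n).1) atTop (𝓝 (μ.real C)) := by
    have := tendsto_measure_iUnion_atTop (μ := μ) hmono
    exact (ENNReal.tendsto_toReal (measure_ne_top _ _)).comp this
  have hCt : μ.real C ≤ t := le_of_tendsto' hlim fun n => (s n).2.2.2
  refine ⟨C, hCA, hCm, le_antisymm hCt ?_⟩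
  by_contra hcon
  push Not at hcon
  have h1 : 0 < μ.real (A \ C) := by
    rw [measureReal_sdiff hCA hCm]
    linarith
  obtain ⟨D, hD1, hD2, hD3, hD4⟩ := h.small (hA.diff hCm) h1 (ε := t - μ.real C) (by linarith)
  have h2 : ∀ n, μ.real D ≤ sSup (Ext (s n)) := by
    intro n
    apply le_csSup (hbdd _)
    refine ⟨D, fun x hx => ⟨(hD1 hx).1, fun hx' => (hD1 hx).2 (mem_iUnion.2 ⟨n, hx'⟩)⟩, hD2, ?_, rfl⟩
    have h3 : μ.real (s n).1 ≤ μ.real C := measureReal_mono (subset_iUnion (fun n => (s n).1) n)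
    linarith
  have h3 : ∀ n : ℕ, n * (μ.real D / 2) ≤ μ.real (s n).1 := by
    intro n
    induction n with
    | zero => simp [measureReal_nonneg]
    | succ n ih =>
      have h4 := hF2 (s n)
      rw [← hs] at h4
      have h5 := h2 n
      push_cast
      linarith
  obtain ⟨n, hn⟩ := exists_nat_gt (t / (μ.real D / 2))
  rw [div_lt_iff₀ (by linarith)] at hn
  have h4 := h3 n
  have h5 := (s n).2.2.2
  linarith

theorem IsNonatomic.split (h : IsNonatomic μ) {ι : Type*} [DecidableEq ι] (s : Finset ι)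
    (hs : s.Nonempty) (p : ι → ℝ) (hp : ∀ i ∈ s, 0 ≤ p i) :
    ∀ A : Set Ω, MeasurableSet A → ∑ i ∈ s, p i = μ.real A →
      ∃ d : Ω → ι, (∀ ω, d ω ∈ s) ∧ (∀ i, MeasurableSet (d ⁻¹' {i})) ∧
        ∀ i ∈ s, μ.real (A ∩ d ⁻¹' {i}) = p i := by
  classical
  induction hs using Finset.Nonempty.cons_induction with
  | singleton a =>
    intro A hA hsum
    refine ⟨fun _ => a, fun _ => Finset.mem_singleton_self a, fun i => ?_, fun i hi => ?_⟩
    · exact MeasurableSet.const (a ∈ ({i} : Set ι))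
    · rw [Finset.mem_singleton] at hi
      subst hi
      rw [Finset.sum_singleton] at hsum
      rw [hsum]
      congr 1
      ext x
      simp
  | cons a s ha hs ih =>
    intro A hA hsum
    rw [Finset.sum_cons] at hsum
    have h0 : 0 ≤ ∑ i ∈ s, p i :=
      Finset.sum_nonneg fun i hi => hp i (Finset.mem_cons_of_mem hi)
    obtain ⟨B, hBA, hB, hBp⟩ := h.exists_eq hA (hp a (Finset.mem_cons_self a s))
      (by linarith : p a ≤ μ.real A)
    obtain ⟨d, hd1, hd2, hd3⟩ := ih (fun i hi => hp i (Finset.mem_cons_of_mem hi)) (A \ B)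
      (hA.diff hB) (by rw [measureReal_sdiff hBA hB]; linarith)
    refine ⟨fun ω => if ω ∈ B then a else d ω, fun ω => ?_, fun i => ?_, fun i hi => ?_⟩
    · dsimp only
      split_ifs
      · exact Finset.mem_cons_self a s
      · exact Finset.mem_cons_of_mem (hd1 ω)
    · have : (fun ω => if ω ∈ B then a else d ω) ⁻¹' {i} =
          (B ∩ {_x | a = i}) ∪ (Bᶜ ∩ d ⁻¹' {i}) := by
        ext ω
        by_cases hω : ω ∈ B <;> simp [hω]
      rw [this]
      exact (hB.inter (MeasurableSet.const _)).union (hB.compl.inter (hd2 i))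
    · rcases Finset.mem_cons.1 hi with rfl | hi'
      · rw [← hBp]
        congr 1
        ext ω
        constructor
        · rintro ⟨h1, h2⟩
          by_contra hω
          simp only [mem_preimage, if_neg hω, mem_singleton_iff] at h2
          exact ha (h2 ▸ hd1 ω)
        · intro hω
          exact ⟨hBA hω, by simp [hω]⟩
      · rw [← hd3 i hi']
        congr 1
        ext ω
        constructor
        · rintro ⟨h1, h2⟩
          by_cases hω : ω ∈ B
          · simp only [mem_preimage, if_pos hω, mem_singleton_iff] at h2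
            exact absurd (h2 ▸ hi') ha
          · simp only [mem_preimage, if_neg hω, mem_singleton_iff] at h2
            exact ⟨⟨h1, hω⟩, h2⟩
        · rintro ⟨⟨h1, hω⟩, h2⟩
          exact ⟨h1, by simpa [hω] using h2⟩

/-- a tree of weights -/
structure WTree (ι : Type*) [DecidableEq ι] where
  S : ℕ → Finset ι
  r : ℕ → ι → ι
  p : ℕ → ι → ℝ
  nonneg : ∀ k, ∀ i ∈ S k, 0 ≤ p k i
  maps : ∀ k, ∀ i ∈ S (k + 1), r k i ∈ S k
  surj : ∀ k, ∀ t ∈ S k, ∃ i ∈ S (k + 1), r k i = t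
  sum_eq : ∀ k, ∀ t ∈ S k, ∑ i ∈ S (k + 1) with r k i = t, p (k + 1) i = p k t
  nonempty : (S 0).Nonempty
  total : ∑ t ∈ S 0, p 0 t = 1

/-- a level of a realisation of the tree -/
structure Level {ι : Type*} [DecidableEq ι] (T : WTree ι) (μ : Measure Ω) (k : ℕ) where
  d : Ω → ι
  mem : ∀ ω, d ω ∈ T.S k
  meas : ∀ i, MeasurableSet (d ⁻¹' {i})
  weight : ∀ i ∈ T.S k, μ.real (d ⁻¹' {i}) = T.p k i

theorem exists_level_succ (h : IsNonatomic μ) {ι : Type*} [DecidableEq ι] (T : WTree ι) (k : ℕ)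
    (l : Level T μ k) : ∃ l' : Level T μ (k + 1), ∀ ω, T.r k (l'.d ω) = l.d ω := by
  classical
  have key : ∀ t : ι, ∃ d : Ω → ι, t ∈ T.S k →
      (∀ ω, d ω ∈ (T.S (k + 1)).filter fun i => T.r k i = t) ∧
      (∀ i, MeasurableSet (d ⁻¹' {i})) ∧
        ∀ i ∈ (T.S (k + 1)).filter fun i => T.r k i = t,
          μ.real (l.d ⁻¹' {t} ∩ d ⁻¹' {i}) = T.p (k + 1) i := by
    intro t
    by_cases ht : t ∈ T.S k
    swap
    · exact ⟨l.d, fun h => absurd h ht⟩
    suffices hh : ∃ d : Ω → ι,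
      (∀ ω, d ω ∈ (T.S (k + 1)).filter fun i => T.r k i = t) ∧
      (∀ i, MeasurableSet (d ⁻¹' {i})) ∧
        ∀ i ∈ (T.S (k + 1)).filter fun i => T.r k i = t,
          μ.real (l.d ⁻¹' {t} ∩ d ⁻¹' {i}) = T.p (k + 1) i by
      obtain ⟨d, hd⟩ := hh
      exact ⟨d, fun _ => hd⟩
    apply h.split
    · obtain ⟨i, hi, hi'⟩ := T.surj k t ht
      exact ⟨i, Finset.mem_filter.2 ⟨hi, hi'⟩⟩
    · intro i hi
      exact T.nonneg _ _ (Finset.mem_filter.1 hi).1
    · exact l.meas t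
    · rw [T.sum_eq k t ht, l.weight t ht]
  choose D hD using key
  have hD1 := fun t ht => (hD t ht).1
  have hD2 := fun t ht => (hD t ht).2.1
  have hD3 := fun t ht => (hD t ht).2.2
  have hr : ∀ ω, T.r k (D (l.d ω) ω) = l.d ω := fun ω =>
    (Finset.mem_filter.1 (hD1 _ (l.mem ω) ω)).2
  refine ⟨⟨fun ω => D (l.d ω) ω, fun ω => (Finset.mem_filter.1 (hD1 _ (l.mem ω) ω)).1,
    fun i => ?_, fun i hi => ?_⟩, hr⟩
  · have : (fun ω => D (l.d ω) ω) ⁻¹' {i} = ⋃ t ∈ T.S k, (l.d ⁻¹' {t} ∩ D t ⁻¹' {i}) := by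
      ext ω
      simp only [mem_preimage, mem_singleton_iff, mem_iUnion, mem_inter_iff, exists_prop]
      constructor
      · intro h'
        exact ⟨l.d ω, l.mem ω, rfl, h'⟩
      · rintro ⟨t, ht, rfl, h'⟩
        exact h'
    rw [this]
    exact Finset.measurableSet_biUnion _ fun t ht => (l.meas t).inter (hD2 t ht i)
  · rw [← hD3 (T.r k i) (T.maps k i hi) i (Finset.mem_filter.2 ⟨hi, rfl⟩)]
    congr 1
    ext ω
    simp only [mem_preimage, mem_singleton_iff, mem_inter_iff]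
    constructor
    · intro h'
      have h2 := hr ω
      rw [h'] at h2
      refine ⟨h2.symm, ?_⟩
      rw [h2]; exact h'
    · rintro ⟨h1, h2⟩
      rw [h1]; exact h2

/-- Every tree of weights is realised on a non-atomic probability space. -/
theorem exists_levels (h : IsNonatomic μ) (hμ : μ.real univ = 1) {ι : Type*} [DecidableEq ι]
    (T : WTree ι) : ∃ l : ∀ k, Level T μ k, ∀ k ω, T.r k ((l (k + 1)).d ω) = (l k).d ω := by
  obtain ⟨d, h1, h2, h3⟩ := h.split (T.S 0) T.nonempty (T.p 0) (T.nonneg 0) univ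
    MeasurableSet.univ (by rw [T.total, hμ])
  simp only [univ_inter] at h3
  choose F hF using fun k (l : Level T μ k) => exists_level_succ h T k l
  exact ⟨fun k => Nat.rec ⟨d, h1, h2, h3⟩ (fun k l => F k l) k, fun k ω => hF k _ ω⟩

end Pool.Agent.X203.Sier
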